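import Pool.Agent.T2H37.LB.StmA

/-!
# LB, package A1: the lemma at a point
-/

set_option autoImplicit false

namespace Pool.Agent.T2H37.LB

open Polynomial

namespace A1

variable {k : Type} [Field k]

/-- abstract version: a recursion `p0 f_i + p1 f_{i+1} + p2 f_{i+2} = 0` -/
theorem minors (p0 p1 p2 : k[X]) (f : ℕ → k[X]) (τ : ℕ)
    (hf : ∀ i, i + 2 ≤ τ → p0 * f i + p1 * f (i + 1) + p2 * f (i + 2) = 0) :
    ∀ i, i + 3 ≤ τ → p2 * (f (i + 1) * f (i + 3) - f (i + 2) ^ 2) =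
      p0 * (f i * f (i + 2) - f (i + 1) ^ 2) := by
  intro i hi
  have h1 := hf i (by omega)
  have h2 := hf (i + 1) (by omega)
  rw [show i + 1 + 1 = i + 2 from rfl, show i + 1 + 2 = i + 3 from rfl] at h2
  linear_combination (f (i + 1)) * h2 - (f (i + 2)) * h1

/-- the Lucas type sequence -/
noncomputable def ss (p0 p1 p2 : k[X]) : ℕ → k[X]
  | 0 => 1
  | 1 => -p1
  | j + 2 => -p1 * ss p0 p1 p2 (j + 1) - p0 * p2 * ss p0 p1 p2 j

theorem minors2 (p0 p1 p2 : k[X]) (f : ℕ → k[X]) (τ : ℕ)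
    (hf : ∀ i, i + 2 ≤ τ → p0 * f i + p1 * f (i + 1) + p2 * f (i + 2) = 0) :
    ∀ j, j + 2 ≤ τ → (p2 ^ j * (f 0 * f (j + 2) - f 1 * f (j + 1)) =
      (f 0 * f 2 - f 1 ^ 2) * ss p0 p1 p2 j) := by
  have key : ∀ j, (j + 2 ≤ τ → (p2 ^ j * (f 0 * f (j + 2) - f 1 * f (j + 1)) =
      (f 0 * f 2 - f 1 ^ 2) * ss p0 p1 p2 j)) ∧ (j + 3 ≤ τ → (p2 ^ (j + 1) * (f 0 * f (j + 3) - f 1 * f (j + 2)) =
      (f 0 * f 2 - f 1 ^ 2) * ss p0 p1 p2 (j + 1))) := by
    intro j
    induction j with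
    | zero =>
      refine ⟨fun _ => by simp [ss]; ring, fun h => ?_⟩
      have h1 := hf 0 (by omega)
      have h2 := hf 1 (by omega)
      simp only [ss, zero_add, pow_one] at *
      norm_num at h2 h1 ⊢
      linear_combination (f 0) * h2 - (f 1) * h1
    | succ j ih =>
      refine ⟨ih.2, fun h => ?_⟩
      have i1 := ih.1 (by omega)
      have i2 := ih.2 (by omega)
      have h1 := hf (j + 1) (by omega)
      have h2 := hf (j + 2) (by omega)
      rw [show j + 1 + 1 = j + 2 from rfl, show j + 1 + 2 = j + 3 from rfl] at h1 ⊢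
      rw [show j + 2 + 1 = j + 3 from rfl, show j + 2 + 2 = j + 4 from rfl] at h2
      rw [show j + 1 + 3 = j + 4 from rfl]
      rw [ss]
      rw [pow_succ] at i2 ⊢
      rw [pow_succ]
      linear_combination (p2 ^ (j+1) * f 0) * h2 - (p2 ^ (j+1) * f 1) * h1 - p1 * i2 - p0 * p2 * i1
  exact fun j => (key j).1

theorem ss_mod (p0 p1 p2 z : k[X]) (hz : z ∣ p0) : ∀ j, (z ∣ ss p0 p1 p2 j - (-p1) ^ j) := by
  have key : ∀ j, (z ∣ ss p0 p1 p2 j - (-p1) ^ j) ∧ (z ∣ ss p0 p1 p2 (j + 1) - (-p1) ^ (j + 1)) := by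
    intro j
    induction j with
    | zero => simp [ss]
    | succ j ih =>
      refine ⟨ih.2, ?_⟩
      obtain ⟨a, ha⟩ := ih.2
      obtain ⟨b, hb⟩ := hz
      refine ⟨-p1 * a - b * p2 * ss p0 p1 p2 j, ?_⟩
      rw [show j + 1 + 1 = j + 2 from rfl, ss]
      rw [pow_succ] at ha ⊢
      rw [pow_succ]
      linear_combination (-p1) * ha - (p2 * ss p0 p1 p2 j) * hb
  exact fun j => (key j).1

/-- the degenerate case -/
theorem case0 [CharZero k] (ρ τ : ℕ) (hτ : ρ + 3 ≤ τ) (ε : k) (hε : ε ≠ 0) (f : ℕ → k[X])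
    (hd : ∀ i ≤ τ, (f i).natDegree ≤ ρ)
    (hf : ∀ i, i + 2 ≤ τ → f (i + 2) = 2 * (C ε * X) * f (i + 1) - (C ε * X) ^ 2 * f i) :
    ∀ i ≤ τ, f i = 0 := by
  set x : k[X] := C ε * X with hx
  have hx0 : x ≠ 0 := mul_ne_zero (by simpa using hε) X_ne_zero
  have key : ∀ i, (i + 1 ≤ τ → f (i + 1) = x ^ i * (f 1 + (i : k[X]) * (f 1 - x * f 0))) ∧
      (i + 2 ≤ τ → f (i + 2) = x ^ (i + 1) * (f 1 + ((i + 1 : ℕ) : k[X]) * (f 1 - x * f 0))) := by
    intro i
    induction i with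
    | zero =>
      refine ⟨fun _ => by simp, fun h => ?_⟩
      rw [hf 0 h]
      push_cast
      ring
    | succ i ih =>
      refine ⟨ih.2, fun h => ?_⟩
      rw [hf (i + 1) h, show i + 1 + 1 = i + 2 from rfl, ih.2 (by omega), ih.1 (by omega)]
      push_cast
      ring
  have hz : ∀ i, i + 1 ≤ τ → ρ < i → f 1 + (i : k[X]) * (f 1 - x * f 0) = 0 := by
    intro i hi hρ
    have h1 := (key i).1 hi
    have h2 : X ^ i ∣ f (i + 1) := by
      rw [h1, hx, mul_pow]
      exact Dvd.dvd.mul_right (Dvd.intro_left _ rfl) _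
    have h3 : f (i + 1) = 0 := by
      refine Polynomial.eq_zero_of_dvd_of_natDegree_lt h2 ?_
      rw [natDegree_X_pow]
      exact (hd _ hi).trans_lt hρ
    rw [h3] at h1
    exact (mul_eq_zero.1 h1.symm).resolve_left (pow_ne_zero _ hx0)
  have e1 := hz (τ - 1) (by omega) (by omega)
  have e2 := hz (τ - 2) (by omega) (by omega)
  have hc : ((τ - 1 : ℕ) : k[X]) = ((τ - 2 : ℕ) : k[X]) + 1 := by
    rw [show τ - 1 = (τ - 2) + 1 by omega]
    push_cast
    ring
  rw [hc] at e1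
  have hD : f 1 - x * f 0 = 0 := by linear_combination e1 - e2
  have h1 : f 1 = 0 := by
    rw [hD, mul_zero, add_zero] at e2
    exact e2
  have h0 : f 0 = 0 := by
    rw [h1, zero_sub, neg_eq_zero] at hD
    exact (mul_eq_zero.1 hD).resolve_left hx0
  intro i hi
  rcases Nat.eq_zero_or_pos i with rfl | h
  · exact h0
  · obtain ⟨j, rfl⟩ : ∃ j, i = j + 1 := ⟨i - 1, by omega⟩
    rw [(key j).1 hi, h1, h0]
    simp

/-- the general case -/
theorem case1 (ρ τ : ℕ) (hτ : ρ + 3 ≤ τ) (p0 p1 p2 : k[X]) (f : ℕ → k[X])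
    (h2d : p2.natDegree = 2) (h00 : p0 ≠ 0)
    (hcop : ∀ z : k[X], Irreducible z → z ∣ p0 → z ∣ p1 → z ∣ p2 → False)
    (hno : ∀ c : k, p0 + C c * p1 + C c ^ 2 * p2 ≠ 0)
    (hd : ∀ i ≤ τ, (f i).natDegree ≤ ρ)
    (hf : ∀ i, i + 2 ≤ τ → p0 * f i + p1 * f (i + 1) + p2 * f (i + 2) = 0) :
    ∀ i ≤ τ, f i = 0 := by
  have hp2 : p2 ≠ 0 := by
    rintro rfl
    simp at h2d
  -- the chain of Hankel minors
  have hch : ∀ j, j + 2 ≤ τ → p2 ^ j * (f j * f (j + 2) - f (j + 1) ^ 2) =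
      p0 ^ j * (f 0 * f 2 - f 1 ^ 2) := by
    intro j
    induction j with
    | zero => intro _; simp
    | succ j ih =>
      intro h
      have h1 := minors p0 p1 p2 f τ hf j (by omega)
      have h2 := ih (by omega)
      rw [show j + 1 + 2 = j + 3 from rfl, show j + 1 + 1 = j + 2 from rfl, pow_succ, pow_succ]
      linear_combination (p2 ^ j) * h1 + p0 * h2
  set m := τ - 2 with hm
  have hmτ : m + 2 ≤ τ := by omega
  set h0 := f 0 * f 2 - f 1 ^ 2 with hh0
  have d1 : p2 ^ m ∣ p0 ^ m * h0 := ⟨_, (hch m hmτ).symm⟩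
  have d2 : p2 ^ m ∣ ss p0 p1 p2 m * h0 := ⟨_, by
    rw [mul_comm (ss p0 p1 p2 m), ← minors2 p0 p1 p2 f τ hf m hmτ]⟩
  have hdvd : p2 ^ m ∣ h0 := by
    classical
    set d := EuclideanDomain.gcd (p0 ^ m) (ss p0 p1 p2 m) with hdd
    have hbez := EuclideanDomain.gcd_eq_gcd_ab (p0 ^ m) (ss p0 p1 p2 m)
    have d3 : p2 ^ m ∣ d * h0 := by
      rw [hdd, hbez, add_mul]
      refine dvd_add ?_ ?_
      · rw [mul_right_comm]
        exact Dvd.dvd.mul_right d1 _
      · rw [mul_right_comm]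
        exact Dvd.dvd.mul_right d2 _
    have hc : IsCoprime (p2 ^ m) d := by
      refine IsCoprime.pow_left ?_
      refine isCoprime_of_irreducible_dvd (fun h => hp2 h.1) ?_
      intro z hz hz2 hzd
      have e1 : z ∣ p0 ^ m := hzd.trans (EuclideanDomain.gcd_dvd_left _ _)
      have e2 : z ∣ ss p0 p1 p2 m := hzd.trans (EuclideanDomain.gcd_dvd_right _ _)
      have hzp : Prime z := hz.prime
      have e3 : z ∣ p0 := hzp.dvd_of_dvd_pow e1
      have e4 : z ∣ (-p1) ^ m := by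
        have := ss_mod p0 p1 p2 z e3 m
        have h5 := dvd_sub e2 this
        rwa [sub_sub_cancel] at h5
      have e5 : z ∣ p1 := by
        have := hzp.dvd_of_dvd_pow e4
        rwa [dvd_neg] at this
      exact hcop z hz e3 e5 hz2
    exact hc.dvd_of_dvd_mul_left d3
  have hh00 : h0 = 0 := by
    refine Polynomial.eq_zero_of_dvd_of_natDegree_lt hdvd ?_
    rw [natDegree_pow, h2d]
    have g1 : h0.natDegree ≤ 2 * ρ := by
      rw [hh0]
      refine (natDegree_sub_le _ _).trans (max_le ?_ ?_)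
      · refine natDegree_mul_le.trans ?_
        have := hd 0 (by omega)
        have := hd 2 (by omega)
        omega
      · refine natDegree_pow_le.trans ?_
        have := hd 1 (by omega)
        omega
    omega
  have hall : ∀ j, j + 2 ≤ τ → f j * f (j + 2) = f (j + 1) ^ 2 := by
    intro j hj
    have h1 := hch j hj
    rw [hh00, mul_zero] at h1
    exact sub_eq_zero.1 ((mul_eq_zero.1 h1).resolve_left (pow_ne_zero _ hp2))
  -- all zero if the first two are
  have hprop : f 0 = 0 → f 1 = 0 → ∀ i ≤ τ, f i = 0 := by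
    intro e0 e1
    have : ∀ i, (i ≤ τ → f i = 0) ∧ (i + 1 ≤ τ → f (i + 1) = 0) := by
      intro i
      induction i with
      | zero => exact ⟨fun _ => e0, fun _ => e1⟩
      | succ i ih =>
        refine ⟨ih.2, fun h => ?_⟩
        have h1 := hf i h
        rw [ih.1 (by omega), ih.2 (by omega), mul_zero, mul_zero, zero_add, zero_add] at h1
        exact (mul_eq_zero.1 h1).resolve_left hp2
    exact fun i hi => (this i).1 hi
  by_cases hf0 : f 0 = 0
  · refine hprop hf0 ?_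
    have := hall 0 (by omega)
    rw [hf0, zero_mul] at this
    exact (pow_eq_zero_iff two_ne_zero).1 this.symm
  by_cases hf1 : f 1 = 0
  · exfalso
    have h1 := hall 0 (by omega)
    rw [zero_add, hf1, zero_pow two_ne_zero] at h1
    have h2 := (mul_eq_zero.1 h1).resolve_left hf0
    have h3 := hf 0 (by omega)
    rw [zero_add, zero_add, hf1, h2, mul_zero, mul_zero, add_zero, add_zero] at h3
    exact (mul_ne_zero h00 hf0) h3
  exfalso
  have hne : ∀ i, (i ≤ τ → f i ≠ 0 ∧ f i * f 0 ^ i = f 1 ^ i * f 0) ∧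
      (i + 1 ≤ τ → f (i + 1) ≠ 0 ∧ f (i + 1) * f 0 ^ (i + 1) = f 1 ^ (i + 1) * f 0) := by
    intro i
    induction i with
    | zero =>
      exact ⟨fun _ => ⟨hf0, by ring⟩, fun _ => ⟨hf1, by ring⟩⟩
    | succ i ih =>
      refine ⟨ih.2, fun h => ?_⟩
      obtain ⟨n1, q1⟩ := ih.1 (by omega)
      obtain ⟨n2, q2⟩ := ih.2 (by omega)
      have h1 := hall i h
      have hne2 : f (i + 2) ≠ 0 := by
        intro h0
        rw [h0, mul_zero] at h1
        exact n2 ((pow_eq_zero_iff two_ne_zero).1 h1.symm)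
      refine ⟨hne2, ?_⟩
      have hcan : (f 1 ^ i * f 0) * (f (i + 2) * f 0 ^ (i + 2)) =
          (f 1 ^ i * f 0) * (f 1 ^ (i + 2) * f 0) := by
        calc (f 1 ^ i * f 0) * (f (i + 2) * f 0 ^ (i + 2))
            = (f i * f 0 ^ i) * (f (i + 2) * f 0 ^ (i + 2)) := by rw [q1]
          _ = (f i * f (i + 2)) * (f 0 ^ (i + 1)) ^ 2 := by ring
          _ = (f (i + 1) * f 0 ^ (i + 1)) ^ 2 := by rw [h1]; ring
          _ = (f 1 ^ (i + 1) * f 0) ^ 2 := by rw [q2]
          _ = _ := by ring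
      exact mul_left_cancel₀ (mul_ne_zero (pow_ne_zero _ hf1) hf0) hcan
  obtain ⟨nτ, qτ⟩ := (hne τ).1 le_rfl
  -- lowest terms
  classical
  set g := EuclideanDomain.gcd (f 0) (f 1) with hg
  obtain ⟨u, hu⟩ : g ∣ f 0 := EuclideanDomain.gcd_dvd_left _ _
  obtain ⟨v, hv⟩ : g ∣ f 1 := EuclideanDomain.gcd_dvd_right _ _
  have hg0 : g ≠ 0 := by
    intro h
    rw [h, zero_mul] at hu
    exact hf0 hu
  have huv : IsCoprime u v := by
    have hb := EuclideanDomain.gcd_eq_gcd_ab (f 0) (f 1)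
    refine ⟨EuclideanDomain.gcdA (f 0) (f 1), EuclideanDomain.gcdB (f 0) (f 1), ?_⟩
    apply mul_left_cancel₀ hg0
    calc g * (EuclideanDomain.gcdA (f 0) (f 1) * u + EuclideanDomain.gcdB (f 0) (f 1) * v)
        = (g * u) * EuclideanDomain.gcdA (f 0) (f 1) + (g * v) * EuclideanDomain.gcdB (f 0) (f 1) := by
          ring
      _ = f 0 * EuclideanDomain.gcdA (f 0) (f 1) + f 1 * EuclideanDomain.gcdB (f 0) (f 1) := by
          rw [← hu, ← hv]
      _ = g := hb.symm
      _ = g * 1 := (mul_one g).symm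
  have hu0 : u ≠ 0 := by
    rintro rfl
    rw [mul_zero] at hu
    exact hf0 hu
  have hv0 : v ≠ 0 := by
    rintro rfl
    rw [mul_zero] at hv
    exact hf1 hv
  have hτ1 : f τ * u ^ τ = v ^ τ * (g * u) := by
    rw [hu, hv] at qτ
    apply mul_left_cancel₀ (pow_ne_zero τ hg0)
    calc g ^ τ * (f τ * u ^ τ) = f τ * (g * u) ^ τ := by ring
      _ = (g * v) ^ τ * (g * u) := qτ
      _ = _ := by ring
  have hud : u ^ τ ∣ g * u := by
    have h1 : u ^ τ ∣ v ^ τ * (g * u) := ⟨f τ, by rw [← hτ1]; ring⟩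
    exact (huv.pow).dvd_of_dvd_mul_left h1
  have hvd : v ^ τ ∣ f τ := by
    have h1 : v ^ τ ∣ f τ * u ^ τ := ⟨g * u, hτ1⟩
    exact (huv.symm.pow).dvd_of_dvd_mul_right h1
  have hudeg : u.natDegree = 0 := by
    have h1 := natDegree_le_of_dvd hud (mul_ne_zero hg0 hu0)
    rw [← hu, natDegree_pow] at h1
    have h2 := hd 0 (by omega)
    by_contra h
    have h3 : 1 ≤ u.natDegree := by omega
    have : τ * 1 ≤ τ * u.natDegree := Nat.mul_le_mul_left _ h3
    omega
  have hvdeg : v.natDegree = 0 := by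
    have h1 := natDegree_le_of_dvd hvd nτ
    rw [natDegree_pow] at h1
    have h2 := hd τ le_rfl
    by_contra h
    have h3 : 1 ≤ v.natDegree := by omega
    have : τ * 1 ≤ τ * v.natDegree := Nat.mul_le_mul_left _ h3
    omega
  obtain ⟨a, ha⟩ : ∃ a, u = C a := ⟨_, eq_C_of_natDegree_eq_zero hudeg⟩
  obtain ⟨b, hb⟩ : ∃ b, v = C b := ⟨_, eq_C_of_natDegree_eq_zero hvdeg⟩
  have ha0 : a ≠ 0 := by
    rintro rfl
    exact hu0 (by rw [ha, C_0])
  have hf1c : f 1 = C (b / a) * f 0 := by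
    rw [hv, hu, ha, hb]
    rw [show b = (b / a) * a by field_simp]
    rw [C_mul]
    field_simp
    ring
  have h2 := hall 0 (by omega)
  rw [zero_add, zero_add, hf1c] at h2
  have hf2 : f 2 = C (b / a) ^ 2 * f 0 := by
    apply mul_left_cancel₀ hf0
    rw [h2]
    ring
  have h3 := hf 0 (by omega)
  rw [zero_add, zero_add, hf1c, hf2] at h3
  refine hno (b / a) ?_
  have h4 : (p0 + C (b / a) * p1 + C (b / a) ^ 2 * p2) * f 0 = 0 := by
    rw [← h3]
    ring
  exact (mul_eq_zero.1 h4).resolve_right hf0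

end A1

theorem LemC_proof (k : Type) [Field k] [IsAlgClosed k] [CharZero k] : LemC k := by
  intro ρ τ hτ a0 a1 ha f hd hf
  have hdec : a0 ^ 2 - a1 ^ 2 = 0 ∨ a0 ^ 2 - a1 ^ 2 ≠ 0 := em _
  rcases hdec with hA | hA
  · -- degenerate case
    have hsq : a1 ^ 2 = a0 ^ 2 := by linear_combination -hA
    have ha0 : a0 ≠ 0 := by
      rintro rfl
      rcases ha with h | h
      · exact h rfl
      · apply h
        have : a1 ^ 2 = 0 := by rw [hsq]; ring
        exact (pow_eq_zero_iff two_ne_zero).1 this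
    have ha1 : a1 ≠ 0 := by
      rintro rfl
      apply ha0
      have : a0 ^ 2 = 0 := by rw [← hsq]; ring
      exact (pow_eq_zero_iff two_ne_zero).1 this
    refine A1.case0 ρ τ hτ (a1 / a0) (div_ne_zero ha1 ha0) f hd ?_
    intro i hi
    have h1 := hf i hi
    rw [Rpt, hA] at h1
    have hB : a0 ^ 2 + a1 ^ 2 = 2 * a0 ^ 2 := by rw [hsq]; ring
    rw [hB] at h1
    have h2 : C (2 * a0 ^ 2) * (f (i + 2) - (2 * (C (a1 / a0) * X) * f (i + 1) -
        (C (a1 / a0) * X) ^ 2 * f i)) = 0 := by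
      have e1 : C (2 * a0 ^ 2) * (2 * C (a1 / a0)) = C (4 * a0 * a1) := by
        rw [show (2 : k[X]) = C 2 from rfl, ← C_mul, ← C_mul]
        congr 1
        field_simp
        ring
      have e2 : C (2 * a0 ^ 2) * C (a1 / a0) ^ 2 = C (2 * a0 ^ 2) := by
        rw [← C_pow, ← C_mul]
        congr 1
        field_simp
        rw [hsq]
      have e3 : C (0 : k) = 0 := C_0
      rw [e3] at h1
      linear_combination (-1 : k[X]) * h1 - (X * f (i + 1)) * e1 + (X ^ 2 * f i) * e2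
    have h3 : C (2 * a0 ^ 2) ≠ (0 : k[X]) := by
      rw [Ne, C_eq_zero]
      exact mul_ne_zero two_ne_zero (pow_ne_zero _ ha0)
    exact sub_eq_zero.1 ((mul_eq_zero.1 h2).resolve_left h3)
  · refine A1.case1 ρ τ hτ (C (a0 ^ 2 - a1 ^ 2) - C (a0 ^ 2 + a1 ^ 2) * X ^ 2)
      (C (4 * a0 * a1) * X) (-(C (a0 ^ 2 + a1 ^ 2) + C (a0 ^ 2 - a1 ^ 2) * X ^ 2)) f ?_ ?_ ?_ ?_ hd ?_
    · rw [natDegree_neg]
      compute_degree!
    · intro h
      apply hA
      generalize a0 ^ 2 - a1 ^ 2 = A at h ⊢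
      generalize a0 ^ 2 + a1 ^ 2 = B at h
      have := congrArg (fun p => p.coeff 0) h
      simpa using this
    · intro z hz h0 h1 h2
      by_cases h01 : a0 * a1 = 0
      · -- A p0 - B p2 is a constant
        have hc : z ∣ C ((a0 ^ 2 - a1 ^ 2) ^ 2 + (a0 ^ 2 + a1 ^ 2) ^ 2) := by
          have e : C ((a0 ^ 2 - a1 ^ 2) ^ 2 + (a0 ^ 2 + a1 ^ 2) ^ 2) =
              C (a0 ^ 2 - a1 ^ 2) * (C (a0 ^ 2 - a1 ^ 2) - C (a0 ^ 2 + a1 ^ 2) * X ^ 2)
              - C (a0 ^ 2 + a1 ^ 2) * (-(C (a0 ^ 2 + a1 ^ 2) + C (a0 ^ 2 - a1 ^ 2) * X ^ 2)) := by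
            rw [C_add, C_pow, C_pow]
            ring
          rw [e]
          exact dvd_sub (Dvd.dvd.mul_left h0 _) (Dvd.dvd.mul_left h2 _)
        have hne : (a0 ^ 2 - a1 ^ 2) ^ 2 + (a0 ^ 2 + a1 ^ 2) ^ 2 ≠ 0 := by
          have e : (a0 ^ 2 - a1 ^ 2) ^ 2 + (a0 ^ 2 + a1 ^ 2) ^ 2 = 2 * (a0 ^ 2 - a1 ^ 2) ^ 2 := by
            linear_combination (4 * a0 * a1) * h01
          rw [e]
          exact mul_ne_zero two_ne_zero (pow_ne_zero _ hA)
        exact hz.not_isUnit (isUnit_of_dvd_unit hc (isUnit_C.2 (isUnit_iff_ne_zero.2 hne)))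
      · have hX : z ∣ X := by
          have h4 : (4 * a0 * a1) ≠ 0 := by
            rw [mul_assoc]
            refine mul_ne_zero ?_ h01
            norm_num
          have : X = C (4 * a0 * a1)⁻¹ * (C (4 * a0 * a1) * X) := by
            rw [← mul_assoc, ← C_mul, inv_mul_cancel₀ h4, C_1, one_mul]
          rw [this]
          exact Dvd.dvd.mul_left h1 _
        have hc : z ∣ C (a0 ^ 2 - a1 ^ 2) := by
          have e : C (a0 ^ 2 - a1 ^ 2) = (C (a0 ^ 2 - a1 ^ 2) - C (a0 ^ 2 + a1 ^ 2) * X ^ 2) +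
              (C (a0 ^ 2 + a1 ^ 2) * X) * X := by ring
          rw [e]
          exact dvd_add h0 (Dvd.dvd.mul_left hX _)
        exact hz.not_isUnit (isUnit_of_dvd_unit hc (isUnit_C.2 (isUnit_iff_ne_zero.2 hA)))
    · intro c h
      have hAB : (a0 ^ 2 - a1 ^ 2) ^ 2 + (2 * a0 * a1) ^ 2 = (a0 ^ 2 + a1 ^ 2) ^ 2 := by ring
      have hD : 4 * a0 * a1 = 2 * (2 * a0 * a1) := by ring
      rw [hD] at h
      generalize a0 ^ 2 - a1 ^ 2 = A at h hAB hA
      generalize a0 ^ 2 + a1 ^ 2 = B at h hAB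
      generalize 2 * a0 * a1 = D at h hAB
      have h' : C (A - c ^ 2 * B) + C (c * (2 * D)) * X + C (-(B + c ^ 2 * A)) * X ^ 2 = 0 := by
        rw [← h]
        simp only [C_add, C_sub, C_mul, C_neg, C_pow]
        ring
      have c0 : A - c ^ 2 * B = 0 := by
        have := congrArg (fun p => p.coeff 0) h'
        simpa [-map_sub, -map_mul, -map_add, -map_neg, coeff_X_pow] using this
      have c1 : c * (2 * D) = 0 := by
        have := congrArg (fun p => p.coeff 1) h'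
        simpa only [coeff_add, coeff_C_mul, coeff_X_pow, coeff_X_one, coeff_C, coeff_zero,
          one_ne_zero, if_false, mul_one, zero_add, OfNat.one_ne_ofNat, mul_zero, add_zero] using this
      have c2 : -(B + c ^ 2 * A) = 0 := by
        have := congrArg (fun p => p.coeff 2) h'
        simpa [-map_sub, -map_mul, -map_add, -map_neg, coeff_X_pow, coeff_X, coeff_C] using this
      have hc : c ≠ 0 := by
        rintro rfl
        apply hA
        linear_combination c0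
      have hD0 : D = 0 := by
        have := (mul_eq_zero.1 c1).resolve_left hc
        exact (mul_eq_zero.1 this).resolve_left two_ne_zero
      rw [hD0] at hAB
      -- A² = B², A = c² B, B = -c² A
      apply hA
      have e1 : A = c ^ 2 * B := by linear_combination c0
      have e2 : B = -(c ^ 2 * A) := by linear_combination -c2
      have e3 : 2 * A ^ 2 = 0 := by linear_combination hAB + A * e1 + B * e2
      exact (pow_eq_zero_iff two_ne_zero).1 ((mul_eq_zero.1 e3).resolve_left two_ne_zero)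
    · intro i hi
      have h1 := hf i hi
      rw [Rpt] at h1
      rw [← h1]
      ring

end Pool.Agent.T2H37.LB
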