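import Pool.Agent.T2H37.LB.StmA

/-!
# LB, package A10: `K(r)` has bounded weights
-/

set_option autoImplicit false

namespace Pool.Agent.T2H37.LB

open Finset Polynomial

namespace A10

variable {k : Type} [Field k] {w : ℕ}

/-- the version of `psi` with polynomial coefficients -/
noncomputable def psiX (F : ℕ → (Fin (w + 1) →₀ ℕ) → k[X]) (i : ℕ) (n : Fin (w + 2) → ℕ) : k[X] :=
  ∑ j ∈ range (sm n + 1), ∑ m ∈ MvPolynomial.support ((th k w n).coeff j),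
    C (MvPolynomial.coeff m ((th k w n).coeff j)) * F (i + j) m

theorem psiX_coeff (F : ℕ → (Fin (w + 1) →₀ ℕ) → k[X]) (i : ℕ) (n : Fin (w + 2) → ℕ) (c : ℕ) :
    (psiX F i n).coeff c = psi k w (fun j m => (F j m).coeff c) i n := by
  simp only [psiX, psi, finsetSum_coeff, coeff_C_mul]

theorem psiX_sum (ρ : ℕ) (F : ℕ → ℕ → (Fin (w + 1) →₀ ℕ) → k) (i : ℕ) (n : Fin (w + 2) → ℕ) :
    psiX (fun j m => ∑ c ∈ range (ρ + 1), C (F c j m) * X ^ c) i n =
      ∑ c ∈ range (ρ + 1), C (psi k w (F c) i n) * X ^ c := by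
  simp only [psiX, psi, map_sum, map_mul, Finset.mul_sum, Finset.sum_mul]
  rw [Finset.sum_comm]
  refine Finset.sum_congr rfl fun j _ => ?_
  rw [Finset.sum_comm]
  refine Finset.sum_congr rfl fun c _ => Finset.sum_congr rfl fun m _ => ?_
  ring

theorem psiX_rop (G : (Fin (w + 1) →₀ ℕ) → ℕ → ℕ → k[X]) (i a : ℕ) (n : Fin (w + 2) → ℕ) :
    psiX (fun j m => Rop k (G m) i j) a n =
      (1 - X ^ 2) * (psiX (fun j m => G m i j) a n - psiX (fun j m => G m (i + 2) j) (a + 2) n)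
        - (1 + X ^ 2) * (psiX (fun j m => G m (i + 2) j) a n + psiX (fun j m => G m i j) (a + 2) n)
        + C 4 * X * psiX (fun j m => G m (i + 1) j) (a + 1) n := by
  simp only [psiX, Rop, Finset.mul_sum, ← Finset.sum_sub_distrib, ← Finset.sum_add_distrib]
  refine Finset.sum_congr rfl fun j _ => Finset.sum_congr rfl fun m _ => ?_
  rw [show a + 2 + j = a + j + 2 by ring, show a + 1 + j = a + j + 1 by ring]
  ring

section Hom

variable {σ : Type}

/-- all coefficients are homogeneous of degree `d` -/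
def Hm (d : ℕ) (p : Polynomial (MvPolynomial σ k)) : Prop := ∀ j, (p.coeff j).IsHomogeneous d

theorem Hm.mul {d e : ℕ} {p q : Polynomial (MvPolynomial σ k)} (hp : Hm d p) (hq : Hm e q) :
    Hm (d + e) (p * q) := by
  intro j
  rw [coeff_mul]
  exact MvPolynomial.IsHomogeneous.sum _ _ _ fun x _ => (hp _).mul (hq _)

theorem Hm.one : Hm 0 (1 : Polynomial (MvPolynomial σ k)) := by
  intro j
  rw [coeff_one]
  split_ifs
  · exact MvPolynomial.isHomogeneous_one _ _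
  · exact MvPolynomial.isHomogeneous_zero _ _ _

theorem Hm.pow {d : ℕ} {p : Polynomial (MvPolynomial σ k)} (hp : Hm d p) (n : ℕ) :
    Hm (n * d) (p ^ n) := by
  induction n with
  | zero => simpa using Hm.one
  | succ n ih =>
    rw [pow_succ, add_mul, one_mul]
    exact ih.mul hp

theorem Hm.prod {ι : Type} (s : Finset ι) (d : ι → ℕ) (p : ι → Polynomial (MvPolynomial σ k))
    (hp : ∀ i ∈ s, Hm (d i) (p i)) : Hm (∑ i ∈ s, d i) (∏ i ∈ s, p i) := by
  classical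
  induction s using Finset.induction_on with
  | empty => simpa using Hm.one
  | insert a s ha ih =>
    rw [Finset.sum_insert ha, Finset.prod_insert ha]
    exact (hp a (Finset.mem_insert_self _ _)).mul
      (ih fun i hi => hp i (Finset.mem_insert_of_mem hi))

end Hom

theorem th_hom (n : Fin (w + 2) → ℕ) (j : ℕ) : ((th k w n).coeff j).IsHomogeneous (sm n) := by
  have h : Hm (∑ l, n l * 1) (th k w n) := by
    refine Hm.prod _ _ _ fun l _ => Hm.pow ?_ _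
    intro j
    rw [coeff_add, coeff_C, X_mul_C, coeff_C_mul, coeff_X]
    have h1 : (Wv k w l).IsHomogeneous 1 := by
      unfold Wv
      split_ifs
      · exact MvPolynomial.isHomogeneous_X _ _
      · exact MvPolynomial.isHomogeneous_zero _ _ _
    have h2 : (Wv' k w l).IsHomogeneous 1 := by
      unfold Wv'
      split_ifs
      · exact MvPolynomial.isHomogeneous_X _ _
      · exact MvPolynomial.isHomogeneous_zero _ _ _
    refine MvPolynomial.IsHomogeneous.add ?_ ?_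
    · split_ifs
      · exact h1
      · exact MvPolynomial.isHomogeneous_zero _ _ _
    · split_ifs
      · simpa using h2
      · simpa using MvPolynomial.isHomogeneous_zero _ _ _
  have := h j
  simpa [sm] using this

theorem psi_zero {F : ℕ → (Fin (w + 1) →₀ ℕ) → k} {a B K : ℕ} {n : Fin (w + 2) → ℕ}
    (hn : sm n = B) (ha : a + B ≤ K) (hF : ∀ j ≤ K, ∀ m, m.degree = B → F j m = 0) :
    psi k w F a n = 0 := by
  unfold psi
  refine Finset.sum_eq_zero fun j hj => Finset.sum_eq_zero fun m hm => ?_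
  rw [Finset.mem_range] at hj
  rw [hF (a + j) (by omega) m, mul_zero]
  have h := th_hom (k := k) n j
  have := h (MvPolynomial.mem_support_iff.1 hm)
  rw [← hn, ← this]
  simp [Finsupp.degree_eq_weight_one]
  rfl

theorem exists_pt {u : Var w → ℤ} (hu : Neg u) :
    ∃ i0 i1 a0 a1 : ℕ, ∃ n : Fin (w + 2) → ℕ, ∃ y0 y1 : ℕ,
      u = pt w i0 i1 (u (Var.h 0)) (u (Var.h 1)) a0 a1 n y0 y1 := by
  obtain ⟨hg, ha, ht, hy⟩ := hu
  refine ⟨(-1 - u (Var.g 0)).toNat, (-1 - u (Var.g 1)).toNat, (-1 - u (Var.a 0)).toNat,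
    (-1 - u (Var.a 1)).toNat, fun l => (-1 - u (Var.t l)).toNat, (u (Var.y 0)).toNat,
    (u (Var.y 1)).toNat, ?_⟩
  have hg0 := hg 0
  have hg1 := hg 1
  have ha0 := ha 0
  have ha1 := ha 1
  have hy0 := hy 0
  have hy1 := hy 1
  funext v
  rcases v with i | i | i | l | i
  · fin_cases i
    · show u (Var.g 0) = -1 - (((-1 - u (Var.g 0)).toNat : ℕ) : ℤ)
      omega
    · show u (Var.g 1) = -1 - (((-1 - u (Var.g 1)).toNat : ℕ) : ℤ)
      omega
  · fin_cases i <;> rfl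
  · fin_cases i
    · show u (Var.a 0) = -1 - (((-1 - u (Var.a 0)).toNat : ℕ) : ℤ)
      omega
    · show u (Var.a 1) = -1 - (((-1 - u (Var.a 1)).toNat : ℕ) : ℤ)
      omega
  · show u (Var.t l) = -1 - (((-1 - u (Var.t l)).toNat : ℕ) : ℤ)
    have := ht l
    omega
  · fin_cases i
    · show u (Var.y 0) = (((u (Var.y 0)).toNat : ℕ) : ℤ)
      omega
    · show u (Var.y 1) = (((u (Var.y 1)).toNat : ℕ) : ℤ)
      omega

theorem ts_pt (i0 i1 : ℕ) (h0 h1 : ℤ) (a0 a1 : ℕ) (n : Fin (w + 2) → ℕ) (y0 y1 : ℕ) :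
    ts (pt w i0 i1 h0 h1 a0 a1 n y0 y1) = -(w + 2) - (sm n : ℤ) := by
  show ∑ l, (-1 - (n l : ℤ)) = _
  rw [Finset.sum_sub_distrib]
  simp [sm]

theorem gs_pt (i0 i1 : ℕ) (h0 h1 : ℤ) (a0 a1 : ℕ) (n : Fin (w + 2) → ℕ) (y0 y1 : ℕ) :
    gs (pt w i0 i1 h0 h1 a0 a1 n y0 y1) = -2 - (i0 + i1 : ℤ) := by
  show (-1 - (i0 : ℤ)) + (-1 - (i1 : ℤ)) = _
  ring

theorem as_pt (i0 i1 : ℕ) (h0 h1 : ℤ) (a0 a1 : ℕ) (n : Fin (w + 2) → ℕ) (y0 y1 : ℕ) :
    as (pt w i0 i1 h0 h1 a0 a1 n y0 y1) = -2 - (a0 + a1 : ℤ) := by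
  show (-1 - (a0 : ℤ)) + (-1 - (a1 : ℤ)) = _
  ring

theorem ys_pt (i0 i1 : ℕ) (h0 h1 : ℤ) (a0 a1 : ℕ) (n : Fin (w + 2) → ℕ) (y0 y1 : ℕ) :
    ys (pt w i0 i1 h0 h1 a0 a1 n y0 y1) = (y0 + y1 : ℤ) := rfl

/-- the coefficients of `g` vanish if `A + B ≥ N` -/
theorem vanish (hb2 : OmB2 k w) (hb3 : OmB3 k w) (hq : DictQ k w) (hp : DictP k w)
    {ρ : ℕ} {N : ℕ}
    (hN : ∀ τ κ : ℕ, ρ + 3 ≤ τ → N ≤ κ → ∀ g : ℕ → ℕ → k[X],
      (∀ i ≤ τ, ∀ j ≤ κ, (g i j).natDegree ≤ ρ) →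
      (∀ i j, i + 2 ≤ τ → j + 2 ≤ κ → Rop k g i j = 0) → ∀ i ≤ τ, ∀ j ≤ κ, g i j = 0)
    {g : L k w} (hg : ∀ u, g.coeff u ≠ 0 → (∀ i, 0 ≤ u (Var.y i)) ∧ ys u = ρ)
    (hgq : con (qL k w) g = 0) (hgP : con (PhiL k w) g = 0)
    (h0 h1 : ℤ) (τ B : ℕ) (hτ : ρ + 3 ≤ τ) (hAB : N ≤ τ + w + 1 + B)
    (i : ℕ) (hi : i ≤ τ) (a : ℕ) (ha : a ≤ τ + w + 1) (n : Fin (w + 2) → ℕ) (hn : sm n = B)
    (c : ℕ) (hc : c ≤ ρ) :
    g.coeff (pt w (τ - i) i h0 h1 (τ + w + 1 - a) a n (ρ - c) c) = 0 := by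
  have hF : ∀ i c : ℕ, ∃ F : ℕ → (Fin (w + 1) →₀ ℕ) → k, ∀ a ≤ τ + w + 1,
      ∀ n : Fin (w + 2) → ℕ, sm n = B →
      g.coeff (pt w (τ - i) i h0 h1 (τ + w + 1 - a) a n (ρ - c) c) = psi k w F a n := by
    intro i c
    refine hb2 (τ + w + 1) B (by omega) _ fun a n haA hnB => ?_
    have h := hq g (τ - i) i h0 h1 (τ - a) a n (ρ - c) c
    rw [hgq] at h
    simp only [AddMonoidAlgebra.coeff_zero, Finsupp.coe_zero, Pi.zero_apply] at h
    rw [h]
    unfold qc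
    refine Finset.sum_congr rfl fun l _ => ?_
    have hl := l.2
    show _ = ((-1 : ℤ) ^ (l : ℕ)) • g.coeff (pt w (τ - i) i h0 h1 (τ - a + l) _ _ (ρ - c) c)
    have e : τ - a + (l : ℕ) = τ + w + 1 - (a + (w + 1 - (l : ℕ))) := by omega
    rw [e]
  choose F hF using hF
  set G : (Fin (w + 1) →₀ ℕ) → ℕ → ℕ → k[X] := fun m i j =>
    ∑ c ∈ range (ρ + 1), C (F i c j m) * X ^ c with hG
  have hcf : ∀ i, ∀ a ≤ τ + w + 1, ∀ n, sm n = B →
      cf k w ρ g h0 h1 (τ - i) i (τ + w + 1 - a) a n = psiX (fun j m => G m i j) a n := by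
    intro i a ha n hn
    rw [hG]
    simp only
    rw [psiX_sum ρ (fun c => F i c)]
    unfold cf
    refine Finset.sum_congr rfl fun c _ => ?_
    rw [hF i c a ha n hn]
  have hR : ∀ m : Fin (w + 1) →₀ ℕ, m.degree = B → ∀ i j, i + 2 ≤ τ → j + 2 ≤ τ + w + 1 + B →
      Rop k (G m) i j = 0 := by
    intro m hm i j hi hj
    ext c
    rw [coeff_zero]
    refine hb3 (τ + w + 1 - 2) B (by omega) (fun j m => (Rop k (G m) i j).coeff c) ?_ j (by omega)
      m hm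
    intro a ha n hn
    rw [← psiX_coeff, psiX_rop]
    have h := hp ρ g hg (τ - 2 - i) i h0 h1 (τ + w + 1 - 2 - a) a n
    rw [hgP] at h
    have e0 : cf k w (ρ + 2) (0 : L k w) h0 h1 (τ - 2 - i) i (τ + w + 1 - 2 - a) a n = 0 := by
      unfold cf
      simp
    rw [e0] at h
    have a1 : τ - 2 - i + 2 = τ - i := by omega
    have a2 : τ - 2 - i = τ - (i + 2) := by omega
    have a3 : τ - 2 - i + 1 = τ - (i + 1) := by omega
    have b1 : τ + w + 1 - 2 - a + 2 = τ + w + 1 - a := by omega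
    have b2 : τ + w + 1 - 2 - a = τ + w + 1 - (a + 2) := by omega
    have b3 : τ + w + 1 - 2 - a + 1 = τ + w + 1 - (a + 1) := by omega
    rw [a1, b1, a3, b3, a2, b2, hcf i a (by omega) n hn, hcf (i + 2) (a + 2) (by omega) n hn,
      hcf (i + 2) a (by omega) n hn, hcf i (a + 2) (by omega) n hn,
      hcf (i + 1) (a + 1) (by omega) n hn] at h
    rw [← h, coeff_zero]
  have hdeg : ∀ m i j, (G m i j).natDegree ≤ ρ := by
    intro m i j
    rw [hG]
    refine natDegree_sum_le_of_forall_le _ _ fun c hc => ?_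
    rw [Finset.mem_range] at hc
    exact (natDegree_C_mul_X_pow_le _ _).trans (by omega)
  have hG0 : ∀ m : Fin (w + 1) →₀ ℕ, m.degree = B → ∀ i ≤ τ, ∀ j ≤ τ + w + 1 + B, G m i j = 0 :=
    fun m hm => hN τ (τ + w + 1 + B) hτ hAB (G m) (fun i _ j _ => hdeg m i j) (hR m hm)
  rw [hF i c a ha n hn]
  refine psi_zero hn (K := τ + w + 1 + B) (by omega) fun j hj m hm => ?_
  have h := congrArg (fun p : k[X] => p.coeff c) (hG0 m hm i hi j hj)
  simp only [hG, finsetSum_coeff, coeff_C_mul, coeff_X_pow, coeff_zero] at h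
  rw [Finset.sum_eq_single c] at h
  · simpa using h
  · intro d _ hd
    rw [if_neg (fun h => hd h.symm), mul_zero]
  · intro h'
    exact absurd (Finset.mem_range.2 (by omega)) h'

end A10

/-- package A10 -/
theorem KMbdd_proof (k : Type) [Field k] (w : ℕ) (hK : ThmK k) (_hb1 : OmB1 k w) (hb2 : OmB2 k w)
    (hb3 : OmB3 k w) (hq : DictQ k w) (hp : DictP k w) : KMbdd k w := by
  intro r
  obtain ⟨N, hN⟩ := hK (r - 2)
  refine ⟨N + 3, fun g hg u hu => ?_⟩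
  obtain ⟨hD, hgq, hgP⟩ := hg
  have hr : 2 ≤ r := by
    obtain ⟨-, -, -, hy, hneg⟩ := hD u hu
    have h0 := hneg.2.2.2 0
    have h1 := hneg.2.2.2 1
    unfold ys at hy
    omega
  have hgy : ∀ u, g.coeff u ≠ 0 → (∀ i, 0 ≤ u (Var.y i)) ∧ ys u = ((r - 2 : ℕ) : ℤ) := by
    intro u hu
    obtain ⟨-, -, -, hy, hneg⟩ := hD u hu
    refine ⟨hneg.2.2.2, ?_⟩
    rw [hy]
    push_cast [hr]
    ring
  obtain ⟨hPm, hhs, has, hys, hneg⟩ := hD u hu
  obtain ⟨i0, i1, a0, a1, n, y0, y1, hue⟩ := A10.exists_pt hneg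
  have hgs := A10.gs_pt (w := w) i0 i1 (u (Var.h 0)) (u (Var.h 1)) a0 a1 n y0 y1
  have hts := A10.ts_pt (w := w) i0 i1 (u (Var.h 0)) (u (Var.h 1)) a0 a1 n y0 y1
  have has' := A10.as_pt (w := w) i0 i1 (u (Var.h 0)) (u (Var.h 1)) a0 a1 n y0 y1
  have hys' := A10.ys_pt (w := w) i0 i1 (u (Var.h 0)) (u (Var.h 1)) a0 a1 n y0 y1
  rw [← hue] at hgs hts has' hys'
  have hhs' : hs u ≤ -2 := by
    have := hPm.1
    have := hPm.2
    unfold hs
    omega
  by_contra hcon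
  unfold wt at hcon
  have key := A10.vanish hb2 hb3 hq hp hN hgy hgq hgP (u (Var.h 0)) (u (Var.h 1)) (i0 + i1) (sm n)
    (by omega) (by omega) i1 (by omega) a1 (by omega) n rfl y1 (by omega)
  rw [show i0 + i1 - i1 = i0 by omega, show i0 + i1 + w + 1 - a1 = a0 by omega,
    show r - 2 - y1 = y0 by omega, ← hue] at key
  exact hu key

end Pool.Agent.T2H37.LB
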