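import Pool.Agent.T2H37.LB.StmA

/-!
# LB, package A11: many elements of `K(r)`
-/

set_option autoImplicit false
set_option linter.unusedSectionVars false

namespace Pool.Agent.T2H37.LB

namespace A11

open Finset Polynomial

section count

/-- the exponent vectors of degree `B` -/
abbrev Md (w B : ℕ) : Type := {m : Fin (w + 1) →₀ ℕ // m.degree = B}

noncomputable def eMd (w B : ℕ) : Sym (Fin (w + 1)) B ≃ Md w B :=
  (Sym.equivNatSumOfFintype (Fin (w + 1)) B).trans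
    ((Finsupp.equivFunOnFinite (α := Fin (w + 1)) (M := ℕ)).symm.subtypeEquiv fun P => by
      rw [Finsupp.degree_eq_sum]
      rfl)

noncomputable instance (w B : ℕ) : Fintype (Md w B) := Fintype.ofEquiv _ (eMd w B)

theorem card_Md (w B : ℕ) : Fintype.card (Md w B) = (B + w).choose w := by
  rw [← Fintype.card_congr (eMd w B), Sym.card_sym_eq_choose, Fintype.card_fin]
  have e : w + 1 + B - 1 = B + w := by omega
  rw [e, ← Nat.choose_symm_add]

end count

variable {w : ℕ}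

/-! ### points -/

section points

variable (i0 i1 : ℕ) (h0 h1 : ℤ) (a0 a1 : ℕ) (n : Fin (w + 2) → ℕ) (y0 y1 : ℕ)

theorem gs_pt : gs (pt w i0 i1 h0 h1 a0 a1 n y0 y1) = -(i0 + i1 + 2) := by
  have h : gs (pt w i0 i1 h0 h1 a0 a1 n y0 y1) = (-1 - (i0 : ℤ)) + (-1 - (i1 : ℤ)) := rfl
  rw [h]
  ring

theorem hs_pt : hs (pt w i0 i1 h0 h1 a0 a1 n y0 y1) = h0 + h1 := rfl

theorem as_pt : as (pt w i0 i1 h0 h1 a0 a1 n y0 y1) = -(a0 + a1 + 2) := by
  have h : as (pt w i0 i1 h0 h1 a0 a1 n y0 y1) = (-1 - (a0 : ℤ)) + (-1 - (a1 : ℤ)) := rfl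
  rw [h]
  ring

theorem ys_pt : ys (pt w i0 i1 h0 h1 a0 a1 n y0 y1) = y0 + y1 := rfl

theorem ts_pt : ts (pt w i0 i1 h0 h1 a0 a1 n y0 y1) = -(sm n + w + 2) := by
  have h : ts (pt w i0 i1 h0 h1 a0 a1 n y0 y1) = ∑ l : Fin (w + 2), (-1 - (n l : ℤ)) := rfl
  rw [h, Finset.sum_sub_distrib, Finset.sum_const, Finset.card_univ, Fintype.card_fin, sm]
  push_cast
  ring

theorem neg_pt : Neg (pt w i0 i1 h0 h1 a0 a1 n y0 y1) := by
  refine ⟨fun i => ?_, fun i => ?_, fun l => ?_, fun i => ?_⟩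
  · fin_cases i
    · change (-1 - (i0 : ℤ)) < 0
      omega
    · change (-1 - (i1 : ℤ)) < 0
      omega
  · fin_cases i
    · change (-1 - (a0 : ℤ)) < 0
      omega
    · change (-1 - (a1 : ℤ)) < 0
      omega
  · change (-1 - (n l : ℤ)) < 0
    omega
  · fin_cases i
    · change (0 : ℤ) ≤ y0
      omega
    · change (0 : ℤ) ≤ y1
      omega

end points

theorem eq_pt {u : Var w → ℤ} (hu : Neg u) : ∃ (i0 i1 : ℕ) (h0 h1 : ℤ) (a0 a1 : ℕ)
    (n : Fin (w + 2) → ℕ) (y0 y1 : ℕ), u = pt w i0 i1 h0 h1 a0 a1 n y0 y1 := by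
  obtain ⟨hg, ha, ht, hy⟩ := hu
  refine ⟨(-1 - u (Var.g 0)).toNat, (-1 - u (Var.g 1)).toNat, u (Var.h 0), u (Var.h 1),
    (-1 - u (Var.a 0)).toNat, (-1 - u (Var.a 1)).toNat, fun l => (-1 - u (Var.t l)).toNat,
    (u (Var.y 0)).toNat, (u (Var.y 1)).toNat, ?_⟩
  funext v
  cases v with
  | g i =>
    fin_cases i
    · have h := hg 0
      change u (Var.g 0) = -1 - (((-1 - u (Var.g 0)).toNat : ℕ) : ℤ)
      omega
    · have h := hg 1
      change u (Var.g 1) = -1 - (((-1 - u (Var.g 1)).toNat : ℕ) : ℤ)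
      omega
  | h i =>
    fin_cases i
    · rfl
    · rfl
  | a i =>
    fin_cases i
    · have h := ha 0
      change u (Var.a 0) = -1 - (((-1 - u (Var.a 0)).toNat : ℕ) : ℤ)
      omega
    · have h := ha 1
      change u (Var.a 1) = -1 - (((-1 - u (Var.a 1)).toNat : ℕ) : ℤ)
      omega
  | t l =>
    have h := ht l
    change u (Var.t l) = -1 - (((-1 - u (Var.t l)).toNat : ℕ) : ℤ)
    omega
  | y i =>
    fin_cases i
    · have h := hy 0
      change u (Var.y 0) = (((u (Var.y 0)).toNat : ℕ) : ℤ)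
      omega
    · have h := hy 1
      change u (Var.y 1) = (((u (Var.y 1)).toNat : ℕ) : ℤ)
      omega

variable (k : Type) [Field k]

/-! ### the spaces -/

/-- the parameters -/
abbrev VV (w ρ B : ℕ) : Type := (Fin (ρ + 5) × Fin (ρ + w + 6 + B) × Fin (ρ + 1) × Md w B) → k

/-- the equations -/
abbrev WW (w ρ B : ℕ) : Type := (Fin (ρ + 3) × Fin (ρ + w + 4 + B) × Fin (ρ + 3) × Md w B) → k

variable {k}

/-- extension by zero -/
noncomputable def ex {ρ B : ℕ} (G : VV k w ρ B) (i j c : ℕ) (m : Fin (w + 1) →₀ ℕ) : k :=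
  if h : i < ρ + 5 ∧ j < ρ + w + 6 + B ∧ c < ρ + 1 ∧ m.degree = B then
    G (⟨i, h.1⟩, ⟨j, h.2.1⟩, ⟨c, h.2.2.1⟩, ⟨m, h.2.2.2⟩) else 0

theorem ex_add {ρ B : ℕ} (G G' : VV k w ρ B) (i j c : ℕ) (m : Fin (w + 1) →₀ ℕ) :
    ex (G + G') i j c m = ex G i j c m + ex G' i j c m := by
  unfold ex
  split_ifs
  · rfl
  · rw [add_zero]

theorem ex_smul {ρ B : ℕ} (a : k) (G : VV k w ρ B) (i j c : ℕ) (m : Fin (w + 1) →₀ ℕ) :
    ex (a • G) i j c m = a * ex G i j c m := by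
  unfold ex
  split_ifs
  · rfl
  · rw [mul_zero]

/-- the polynomials -/
noncomputable def Gt {ρ B : ℕ} (G : VV k w ρ B) (m : Fin (w + 1) →₀ ℕ) (i j : ℕ) : k[X] :=
  ∑ c ∈ range (ρ + 1), C (ex G i j c m) * X ^ c

theorem Gt_add {ρ B : ℕ} (G G' : VV k w ρ B) (m : Fin (w + 1) →₀ ℕ) (i j : ℕ) :
    Gt (G + G') m i j = Gt G m i j + Gt G' m i j := by
  simp only [Gt, ex_add, C_add, add_mul, sum_add_distrib]

theorem Gt_smul {ρ B : ℕ} (a : k) (G : VV k w ρ B) (m : Fin (w + 1) →₀ ℕ) (i j : ℕ) :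
    Gt (a • G) m i j = C a * Gt G m i j := by
  simp only [Gt, ex_smul, C_mul, mul_assoc, mul_sum]

theorem Gt_deg {ρ B : ℕ} (G : VV k w ρ B) (m : Fin (w + 1) →₀ ℕ) (i j : ℕ) :
    (Gt G m i j).natDegree ≤ ρ := by
  refine natDegree_sum_le_of_forall_le _ _ fun c hc => ?_
  have := mem_range.1 hc
  exact (natDegree_C_mul_X_pow_le _ _).trans (by omega)

theorem Gt_zero {ρ B : ℕ} (G : VV k w ρ B) {m : Fin (w + 1) →₀ ℕ} (hm : m.degree ≠ B) (i j : ℕ) :
    Gt G m i j = 0 := by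
  refine sum_eq_zero fun c _ => ?_
  rw [ex, dif_neg (fun h => hm h.2.2.2), C_0, zero_mul]

theorem Rop_add (g g' : ℕ → ℕ → k[X]) (i j : ℕ) :
    Rop k (fun i j => g i j + g' i j) i j = Rop k g i j + Rop k g' i j := by
  simp only [Rop]
  ring

theorem Rop_smul (a : k) (g : ℕ → ℕ → k[X]) (i j : ℕ) :
    Rop k (fun i j => C a * g i j) i j = C a * Rop k g i j := by
  simp only [Rop]
  ring

theorem mul_deg {p q : k[X]} {ρ : ℕ} (hp : p.natDegree ≤ 2) (hq : q.natDegree ≤ ρ) :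
    (p * q).natDegree ≤ ρ + 2 := by
  have := natDegree_mul_le (p := p) (q := q)
  omega

theorem add_deg {p q : k[X]} {ρ : ℕ} (hp : p.natDegree ≤ ρ) (hq : q.natDegree ≤ ρ) :
    (p + q).natDegree ≤ ρ := (natDegree_add_le p q).trans (max_le hp hq)

theorem sub_deg {p q : k[X]} {ρ : ℕ} (hp : p.natDegree ≤ ρ) (hq : q.natDegree ≤ ρ) :
    (p - q).natDegree ≤ ρ := (natDegree_sub_le p q).trans (max_le hp hq)

theorem Rop_deg {ρ : ℕ} {g : ℕ → ℕ → k[X]} (h : ∀ i j, (g i j).natDegree ≤ ρ) (i j : ℕ) :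
    (Rop k g i j).natDegree ≤ ρ + 2 := by
  have e1 : (1 - X ^ 2 : k[X]).natDegree ≤ 2 := by compute_degree
  have e2 : (1 + X ^ 2 : k[X]).natDegree ≤ 2 := by compute_degree
  have e3 : (C 4 * X : k[X]).natDegree ≤ 2 := by compute_degree!
  exact add_deg (sub_deg (mul_deg e1 (sub_deg (h _ _) (h _ _)))
    (mul_deg e2 (add_deg (h _ _) (h _ _)))) (mul_deg e3 (h _ _))

/-- the equations -/
noncomputable def TT (k : Type) [Field k] (w ρ B : ℕ) : VV k w ρ B →ₗ[k] WW k w ρ B where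
  toFun G x := (Rop k (Gt G x.2.2.2.1) x.1 x.2.1).coeff x.2.2.1
  map_add' G G' := by
    funext x
    have : Gt (G + G') x.2.2.2.1 = fun i j => Gt G x.2.2.2.1 i j + Gt G' x.2.2.2.1 i j := by
      funext i j
      exact Gt_add G G' _ i j
    rw [this, Rop_add, coeff_add]
    rfl
  map_smul' a G := by
    funext x
    have : Gt (a • G) x.2.2.2.1 = fun i j => C a * Gt G x.2.2.2.1 i j := by
      funext i j
      exact Gt_smul a G _ i j
    rw [this, Rop_smul, coeff_C_mul]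
    rfl

theorem Rop_zero {ρ B : ℕ} {G : VV k w ρ B} (hG : TT k w ρ B G = 0) (m : Fin (w + 1) →₀ ℕ) {i j : ℕ}
    (hi : i < ρ + 3) (hj : j < ρ + w + 4 + B) : Rop k (Gt G m) i j = 0 := by
  by_cases hm : m.degree = B
  · ext c
    rw [coeff_zero]
    by_cases hc : c < ρ + 3
    · exact congrFun hG (⟨i, hi⟩, ⟨j, hj⟩, ⟨c, hc⟩, ⟨m, hm⟩)
    · exact coeff_eq_zero_of_natDegree_lt ((Rop_deg (Gt_deg G m) i j).trans_lt (by omega))
  · have : Gt G m = fun _ _ => 0 := by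
      funext i j
      exact Gt_zero G hm i j
    rw [this, Rop]
    ring

/-! ### the elements -/

theorem psi_add (F F' : ℕ → (Fin (w + 1) →₀ ℕ) → k) (i : ℕ) (n : Fin (w + 2) → ℕ) :
    psi k w (fun j m => F j m + F' j m) i n = psi k w F i n + psi k w F' i n := by
  simp only [psi, mul_add, sum_add_distrib]

theorem psi_smul (a : k) (F : ℕ → (Fin (w + 1) →₀ ℕ) → k) (i : ℕ) (n : Fin (w + 2) → ℕ) :
    psi k w (fun j m => a * F j m) i n = a * psi k w F i n := by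
  simp only [psi, mul_sum]
  refine sum_congr rfl fun j _ => sum_congr rfl fun m _ => ?_
  ring

/-- the points where the coefficients may be nonzero -/
def cond (w ρ B : ℕ) (u : Var w → ℤ) : Prop :=
  u (Var.h 0) = -1 ∧ u (Var.h 1) = -1 ∧ Neg u ∧ gs u = -(ρ + 6) ∧ as u = -(ρ + w + 7) ∧
    ts u = -(B + w + 2) ∧ ys u = ρ

theorem cond_pt {ρ B : ℕ} (i0 i1 : ℕ) (h0 h1 : ℤ) (a0 a1 : ℕ) (n : Fin (w + 2) → ℕ) (y0 y1 : ℕ) :
    cond w ρ B (pt w i0 i1 h0 h1 a0 a1 n y0 y1) ↔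
      (h0 = -1 ∧ h1 = -1 ∧ i0 + i1 = ρ + 4 ∧ a0 + a1 = ρ + w + 5 ∧ sm n = B ∧ y0 + y1 = ρ) := by
  unfold cond
  rw [gs_pt, as_pt, ts_pt, ys_pt]
  have e1 : pt w i0 i1 h0 h1 a0 a1 n y0 y1 (Var.h 0) = h0 := rfl
  have e2 : pt w i0 i1 h0 h1 a0 a1 n y0 y1 (Var.h 1) = h1 := rfl
  rw [e1, e2]
  constructor
  · rintro ⟨a, b, _, c, d, e, f⟩
    exact ⟨a, b, by omega, by omega, by omega, by omega⟩
  · rintro ⟨a, b, c, d, e, f⟩
    exact ⟨a, b, neg_pt _ _ _ _ _ _ _ _ _, by omega, by omega, by omega, by omega⟩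

theorem finite_cond (w ρ B : ℕ) : {u : Var w → ℤ | cond w ρ B u}.Finite := by
  have hsub : {u : Var w → ℤ | cond w ρ B u} ⊆
      Set.Icc (fun _ => -(ρ + w + B + 7 : ℤ)) (fun _ => (ρ + w + B + 7 : ℤ)) := by
    rintro u ⟨c1, c2, ⟨hg, ha, ht, hy⟩, c4, c5, c6, c7⟩
    unfold gs at c4
    unfold as at c5
    unfold ys at c7
    unfold ts at c6
    have g0 := hg 0
    have g1 := hg 1
    have a0 := ha 0
    have a1 := ha 1
    have y0 := hy 0
    have y1 := hy 1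
    have htl : ∀ l, -(B + w + 2 : ℤ) ≤ u (Var.t l) := by
      intro l
      have h1 := Finset.single_le_sum (f := fun l => - u (Var.t l)) (fun l _ => by
        have := ht l
        omega) (Finset.mem_univ l)
      simp only [Finset.sum_neg_distrib] at h1
      omega
    have key : ∀ v, -(ρ + w + B + 7 : ℤ) ≤ u v ∧ u v ≤ (ρ + w + B + 7 : ℤ) := by
      intro v
      cases v with
      | g i => fin_cases i <;> simp only [Fin.zero_eta, Fin.mk_one] <;> omega
      | h i => fin_cases i <;> simp only [Fin.zero_eta, Fin.mk_one] <;> omega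
      | a i => fin_cases i <;> simp only [Fin.zero_eta, Fin.mk_one] <;> omega
      | t l =>
        have h1 := htl l
        have h2 := ht l
        omega
      | y i => fin_cases i <;> simp only [Fin.zero_eta, Fin.mk_one] <;> omega
    exact ⟨fun v => (key v).1, fun v => (key v).2⟩
  exact (Set.finite_Icc _ _).subset hsub

open Classical in
/-- the coefficients -/
noncomputable def cfun {ρ B : ℕ} (G : VV k w ρ B) (u : Var w → ℤ) : k :=
  if cond w ρ B u then psi k w (fun j m => ex G (-1 - u (Var.g 1)).toNat j (u (Var.y 1)).toNat m)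
    (-1 - u (Var.a 1)).toNat (fun l => (-1 - u (Var.t l)).toNat) else 0

theorem cfun_add {ρ B : ℕ} (G G' : VV k w ρ B) (u : Var w → ℤ) :
    cfun (G + G') u = cfun G u + cfun G' u := by
  unfold cfun
  split_ifs
  · simp only [ex_add]
    exact psi_add _ _ _ _
  · rw [add_zero]

theorem cfun_smul {ρ B : ℕ} (a : k) (G : VV k w ρ B) (u : Var w → ℤ) :
    cfun (a • G) u = a * cfun G u := by
  unfold cfun
  split_ifs
  · simp only [ex_smul]
    exact psi_smul _ _ _ _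
  · rw [mul_zero]

/-- the element of the parameters `G` -/
noncomputable def Psi (k : Type) [Field k] (w ρ B : ℕ) : VV k w ρ B →ₗ[k] L k w where
  toFun G := AddMonoidAlgebra.ofCoeff (Finsupp.onFinset (finite_cond w ρ B).toFinset (cfun G) (by
    intro u hu
    rw [Set.Finite.mem_toFinset]
    by_contra h
    have h' : ¬ cond w ρ B u := h
    apply hu
    unfold cfun
    rw [if_neg h']))
  map_add' G G' := by
    ext u
    simp only [AddMonoidAlgebra.coeff_add, Finsupp.add_apply, Finsupp.onFinset_apply]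
    exact cfun_add G G' u
  map_smul' a G := by
    ext u
    simp only [RingHom.id_apply, AddMonoidAlgebra.coeff_smul, Finsupp.smul_apply,
      Finsupp.onFinset_apply, smul_eq_mul]
    exact cfun_smul a G u

theorem Psi_coeff {ρ B : ℕ} (G : VV k w ρ B) (u : Var w → ℤ) : (Psi k w ρ B G).coeff u = cfun G u := rfl

theorem Psi_supp {ρ B : ℕ} (G : VV k w ρ B) {u : Var w → ℤ} (hu : (Psi k w ρ B G).coeff u ≠ 0) :
    cond w ρ B u := by
  by_contra h
  apply hu
  rw [Psi_coeff, cfun, if_neg h]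

open Classical in
theorem Psi_pt {ρ B : ℕ} (G : VV k w ρ B) (i0 i1 : ℕ) (h0 h1 : ℤ) (a0 a1 : ℕ) (n : Fin (w + 2) → ℕ)
    (y0 y1 : ℕ) : (Psi k w ρ B G).coeff (pt w i0 i1 h0 h1 a0 a1 n y0 y1) =
      if (h0 = -1 ∧ h1 = -1 ∧ i0 + i1 = ρ + 4 ∧ a0 + a1 = ρ + w + 5 ∧ sm n = B ∧ y0 + y1 = ρ) then
        psi k w (fun j m => ex G i1 j y1 m) a1 n else 0 := by
  rw [Psi_coeff, cfun]
  simp only [cond_pt]
  have e1 : (-1 - pt w i0 i1 h0 h1 a0 a1 n y0 y1 (Var.g 1)).toNat = i1 := by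
    change (-1 - (-1 - (i1 : ℤ))).toNat = i1
    omega
  have e2 : (pt w i0 i1 h0 h1 a0 a1 n y0 y1 (Var.y 1)).toNat = y1 := by
    change ((y1 : ℤ)).toNat = y1
    omega
  have e3 : (-1 - pt w i0 i1 h0 h1 a0 a1 n y0 y1 (Var.a 1)).toNat = a1 := by
    change (-1 - (-1 - (a1 : ℤ))).toNat = a1
    omega
  have e4 : (fun l => (-1 - pt w i0 i1 h0 h1 a0 a1 n y0 y1 (Var.t l)).toNat) = n := by
    funext l
    change (-1 - (-1 - (n l : ℤ))).toNat = n l
    omega
  rw [e1, e2, e3, e4]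

/-! ### contraction -/

theorem con_coeff (f g : L k w) (u : Var w → ℤ) [Decidable (Neg u)] :
    (con f g).coeff u = if Neg u then (f * g).coeff u else 0 := by
  classical
  have h : (con f g).coeff u = ((f * g).coeff.filter Neg) u := rfl
  rw [h, Finsupp.filter_apply]
  split_ifs <;> rfl

/-- the coefficient as an additive map -/
noncomputable def cu (u : Var w → ℤ) : L k w →+ k :=
  (Finsupp.applyAddHom u).comp (AddMonoidAlgebra.coeffAddEquiv : L k w ≃+ _).toAddMonoidHom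

theorem cu_apply (u : Var w → ℤ) (f : L k w) : cu u f = f.coeff u := rfl

theorem coeff_mon_mul (u0 u : Var w → ℤ) (g : L k w) :
    (mon k u0 * g).coeff u = g.coeff (u - u0) := by
  have h := AddMonoidAlgebra.coeff_single_mul_eq_mul_coeff (x := g) (r := (1 : k)) (m := u0) (m₁ := u)
    (u - u0) (fun m' _ => by
      constructor
      · rintro rfl
        abel
      · rintro rfl
        abel)
  rw [one_mul] at h
  exact h

theorem coeff_mPhi_mul {ρ : ℤ} {g : L k w} (hg : ∀ u, g.coeff u ≠ 0 → ys u = ρ) {u : Var w → ℤ}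
    (hu : ys u ≠ ρ + 2) (x b c : ℕ) (hc : c ≤ 2) : cu u (mPhi k w x b c * g) = 0 := by
  rw [cu_apply, mPhi, coeff_mon_mul]
  by_contra h
  apply hu
  have h1 := hg _ h
  have h2 : ys ((2 - x) • ev (Var.g 0) + x • ev (Var.g 1) + (2 - b) • ev (Var.a 0) + b • ev (Var.a 1)
      + (2 - c) • ev (Var.y 0) + c • ev (Var.y 1) : Var w → ℤ) = 2 := by
    unfold ys
    simp only [Pi.add_apply, Pi.smul_apply, ev, Pi.single_apply]
    simp
    omega
  unfold ys at h1 h2 ⊢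
  simp only [Pi.sub_apply] at h1
  linarith

theorem Phi_ys {ρ : ℤ} {g : L k w} (hg : ∀ u, g.coeff u ≠ 0 → ys u = ρ) {u : Var w → ℤ}
    (hu : ys u ≠ ρ + 2) : (PhiL k w * g).coeff u = 0 := by
  rw [← cu_apply]
  unfold PhiL
  simp only [sub_mul, add_mul, smul_mul_assoc, map_sub, map_add, map_zsmul]
  rw [coeff_mPhi_mul hg hu 0 0 0 (by omega), coeff_mPhi_mul hg hu 2 0 0 (by omega),
    coeff_mPhi_mul hg hu 0 2 0 (by omega), coeff_mPhi_mul hg hu 0 0 2 (by omega),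
    coeff_mPhi_mul hg hu 2 2 0 (by omega), coeff_mPhi_mul hg hu 0 2 2 (by omega),
    coeff_mPhi_mul hg hu 2 0 2 (by omega), coeff_mPhi_mul hg hu 2 2 2 (by omega),
    coeff_mPhi_mul hg hu 1 1 1 (by omega)]
  simp

theorem sm_add_single (n : Fin (w + 2) → ℕ) (l : Fin (w + 2)) : sm (n + Pi.single l 1) = sm n + 1 := by
  unfold sm
  simp only [Pi.add_apply, sum_add_distrib]
  congr 1
  simp [Pi.single_apply]

theorem con_q (h1 : OmB1 k w) (hq : DictQ k w) {ρ B : ℕ} (G : VV k w ρ B) :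
    con (qL k w) (Psi k w ρ B G) = 0 := by
  classical
  ext u
  rw [AddMonoidAlgebra.coeff_zero, Finsupp.zero_apply]
  by_cases hu : Neg u
  · obtain ⟨i0, i1, h0, h1', a0, a1, n, y0, y1, rfl⟩ := eq_pt hu
    rw [hq]
    simp only [Psi_pt]
    by_cases hc : h0 = -1 ∧ h1' = -1 ∧ i0 + i1 = ρ + 4 ∧ a0 + a1 + (w + 1) = ρ + w + 5 ∧
        sm n + 1 = B ∧ y0 + y1 = ρ
    · refine (sum_congr rfl fun l _ => ?_).trans
        (h1 (fun j m => ex G i1 j y1 m) a1 n)
      have hl := l.2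
      rw [if_pos]
      rw [sm_add_single]
      exact ⟨hc.1, hc.2.1, hc.2.2.1, by omega, hc.2.2.2.2.1, hc.2.2.2.2.2⟩
    · refine sum_eq_zero fun l _ => ?_
      have hl := l.2
      rw [if_neg, smul_zero]
      rw [sm_add_single]
      rintro ⟨e1, e2, e3, e4, e5, e6⟩
      exact hc ⟨e1, e2, e3, by omega, e5, e6⟩
  · rw [con_coeff, if_neg hu]

/-- the polynomials of `psi` -/
noncomputable def QQ {ρ B : ℕ} (G : VV k w ρ B) (n : Fin (w + 2) → ℕ) (i a : ℕ) : k[X] :=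
  ∑ c ∈ range (ρ + 1), C (psi k w (fun j m => ex G i j c m) a n) * X ^ c

theorem QQ_eq {ρ B : ℕ} (G : VV k w ρ B) (n : Fin (w + 2) → ℕ) (i a : ℕ) :
    QQ G n i a = ∑ j ∈ range (sm n + 1), ∑ m ∈ MvPolynomial.support ((th k w n).coeff j),
      C (MvPolynomial.coeff m ((th k w n).coeff j)) * Gt G m i (a + j) := by
  unfold QQ psi Gt
  simp only [map_sum, C_mul, sum_mul, mul_sum]
  rw [sum_comm]
  refine sum_congr rfl fun j _ => ?_
  rw [sum_comm]
  refine sum_congr rfl fun m _ => sum_congr rfl fun c _ => ?_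
  ring

theorem cf_Psi {ρ B : ℕ} (G : VV k w ρ B) (h0 h1 : ℤ) (i0 i1 a0 a1 : ℕ) (n : Fin (w + 2) → ℕ)
    [Decidable (h0 = -1 ∧ h1 = -1 ∧ i0 + i1 = ρ + 4 ∧ a0 + a1 = ρ + w + 5 ∧ sm n = B)] :
    cf k w ρ (Psi k w ρ B G) h0 h1 i0 i1 a0 a1 n =
      if (h0 = -1 ∧ h1 = -1 ∧ i0 + i1 = ρ + 4 ∧ a0 + a1 = ρ + w + 5 ∧ sm n = B) then
        QQ G n i1 a1 else 0 := by
  classical
  unfold cf QQ
  split_ifs with hc
  · refine sum_congr rfl fun c hcr => ?_
    have := mem_range.1 hcr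
    rw [Psi_pt, if_pos]
    exact ⟨hc.1, hc.2.1, hc.2.2.1, hc.2.2.2.1, hc.2.2.2.2, by omega⟩
  · refine sum_eq_zero fun c _ => ?_
    rw [Psi_pt, if_neg, C_0, zero_mul]
    rintro ⟨e1, e2, e3, e4, e5, _⟩
    exact hc ⟨e1, e2, e3, e4, e5⟩

theorem con_Phi (hP : DictP k w) {ρ B : ℕ} {G : VV k w ρ B} (hG : TT k w ρ B G = 0) :
    con (PhiL k w) (Psi k w ρ B G) = 0 := by
  classical
  have hys : ∀ u, (Psi k w ρ B G).coeff u ≠ 0 → ys u = ρ := fun u hu => (Psi_supp G hu).2.2.2.2.2.2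
  have hy0 : ∀ u, (Psi k w ρ B G).coeff u ≠ 0 → (∀ i, 0 ≤ u (Var.y i)) ∧ ys u = ρ := fun u hu =>
    ⟨(Psi_supp G hu).2.2.1.2.2.2, hys u hu⟩
  ext u
  rw [AddMonoidAlgebra.coeff_zero, Finsupp.zero_apply]
  by_cases hu : Neg u
  · obtain ⟨i0, i1, h0, h1, a0, a1, n, y0, y1, rfl⟩ := eq_pt hu
    by_cases hy : y0 + y1 = ρ + 2
    · have h := hP ρ (Psi k w ρ B G) hy0 i0 i1 h0 h1 a0 a1 n
      simp only [cf_Psi] at h
      have hz : cf k w (ρ + 2) (con (PhiL k w) (Psi k w ρ B G)) h0 h1 i0 i1 a0 a1 n = 0 := by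
        rw [h]
        by_cases hc : h0 = -1 ∧ h1 = -1 ∧ i0 + i1 + 2 = ρ + 4 ∧ a0 + a1 + 2 = ρ + w + 5 ∧ sm n = B
        · obtain ⟨c1, c2, c3, c4, c5⟩ := hc
          rw [if_pos ⟨c1, c2, by omega, by omega, c5⟩, if_pos ⟨c1, c2, by omega, by omega, c5⟩,
            if_pos ⟨c1, c2, by omega, by omega, c5⟩, if_pos ⟨c1, c2, by omega, by omega, c5⟩,
            if_pos ⟨c1, c2, by omega, by omega, c5⟩]
          have key : (1 - X ^ 2) * (QQ G n i1 a1 - QQ G n (i1 + 2) (a1 + 2)) -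
              (1 + X ^ 2) * (QQ G n (i1 + 2) a1 + QQ G n i1 (a1 + 2)) +
              C 4 * X * QQ G n (i1 + 1) (a1 + 1) =
              ∑ j ∈ range (sm n + 1), ∑ m ∈ MvPolynomial.support ((th k w n).coeff j),
                C (MvPolynomial.coeff m ((th k w n).coeff j)) * Rop k (Gt G m) i1 (a1 + j) := by
            simp only [QQ_eq, Rop]
            simp only [← sum_sub_distrib, ← sum_add_distrib, mul_sum]
            refine sum_congr rfl fun j _ => sum_congr rfl fun m _ => ?_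
            have e1 : a1 + 2 + j = a1 + j + 2 := by ring
            have e2 : a1 + 1 + j = a1 + j + 1 := by ring
            rw [e1, e2]
            ring
          rw [key]
          refine sum_eq_zero fun j hj => sum_eq_zero fun m _ => ?_
          have hj' := mem_range.1 hj
          rw [Rop_zero hG m (by omega) (by omega), mul_zero]
        · rw [if_neg, if_neg, if_neg, if_neg, if_neg]
          · ring
          all_goals
            rintro ⟨c1, c2, c3, c4, c5⟩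
            exact hc ⟨c1, c2, by omega, by omega, c5⟩
      have h2 := congrArg (fun P : k[X] => P.coeff y1) hz
      simp only [cf, coeff_zero, finsetSum_coeff, coeff_C_mul, coeff_X_pow] at h2
      rw [sum_eq_single y1] at h2
      · rw [if_pos rfl, mul_one] at h2
        have e : ρ + 2 - y1 = y0 := by omega
        rw [e] at h2
        exact h2
      · intro c _ hne
        rw [if_neg (Ne.symm hne), mul_zero]
      · intro h3
        exfalso
        apply h3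
        rw [mem_range]
        omega
    · rw [con_coeff, if_pos hu]
      refine Phi_ys (ρ := (ρ : ℤ)) hys ?_
      rw [ys_pt]
      omega
  · rw [con_coeff, if_neg hu]

theorem Psi_mem (h1 : OmB1 k w) (hq : DictQ k w) (hP : DictP k w) {ρ B : ℕ} {G : VV k w ρ B}
    (hG : TT k w ρ B G = 0) : Psi k w ρ B G ∈ KM k w ((ρ : ℤ) + 2) := by
  refine ⟨?_, con_q h1 hq G, con_Phi hP hG⟩
  intro u hu
  obtain ⟨c1, c2, c3, c4, c5, c6, c7⟩ := Psi_supp G hu
  have c8 : hs u = -2 := by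
    unfold hs
    rw [c1, c2]
    norm_num
  refine ⟨⟨?_, ?_⟩, ?_, ?_, ?_, c3⟩
  · rw [c1]
    norm_num
  · rw [c2]
    norm_num
  · omega
  · omega
  · omega

theorem Psi_inj (h3 : OmB3 k w) {ρ B : ℕ} (G : VV k w ρ B) (hG : Psi k w ρ B G = 0) : G = 0 := by
  classical
  have key : ∀ i, i ≤ ρ + 4 → ∀ c, c ≤ ρ → ∀ j ≤ ρ + w + 5 + B, ∀ m : Fin (w + 1) →₀ ℕ,
      m.degree = B → ex G i j c m = 0 := by
    intro i hi c hc
    refine h3 (ρ + w + 5) B (by omega) (fun j m => ex G i j c m) fun a ha n hn => ?_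
    have h := Psi_pt G (ρ + 4 - i) i (-1) (-1) (ρ + w + 5 - a) a n (ρ - c) c
    rw [if_pos ⟨rfl, rfl, by omega, by omega, hn, by omega⟩, hG] at h
    exact h.symm
  funext x
  obtain ⟨⟨i, hi⟩, ⟨j, hj⟩, ⟨c, hc⟩, ⟨m, hm⟩⟩ := x
  have h := key i (by omega) c (by omega) j (by omega) m hm
  rw [ex, dif_pos ⟨hi, hj, hc, hm⟩] at h
  exact h

end A11

open A11 in
theorem KMmany_proof (k : Type) [Field k] (w : ℕ) (h1 : OmB1 k w) (h3 : OmB3 k w) (hq : DictQ k w)
    (hP : DictP k w) : KMmany k w := by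
  intro r B hr
  obtain ⟨ρ, rfl⟩ : ∃ ρ, r = ρ + 2 := ⟨r - 2, by omega⟩
  set K := LinearMap.ker (TT k w ρ B) with hK
  let b := Module.finBasis k K
  have hinj : LinearMap.ker ((Psi k w ρ B).comp K.subtype) = ⊥ := by
    rw [LinearMap.ker_eq_bot']
    intro x hx
    exact Subtype.ext (Psi_inj h3 x.1 hx)
  refine ⟨Module.finrank k K, fun i => Psi k w ρ B (b i : VV k w ρ B), ?_, fun i => ?_, fun i u hu => ?_, ?_⟩
  · exact b.linearIndependent.map' ((Psi k w ρ B).comp K.subtype) hinj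
  · have := Psi_mem h1 hq hP (b i).2
    push_cast
    exact this
  · obtain ⟨c1, c2, c3, c4, c5, c6, c7⟩ := Psi_supp _ hu
    constructor
    · rw [c4]
      push_cast
      ring
    · exact c6
  · have e1 := LinearMap.finrank_range_add_finrank_ker (TT k w ρ B)
    have e2 := Submodule.finrank_le (LinearMap.range (TT k w ρ B))
    rw [Module.finrank_fintype_fun_eq_card] at e1 e2
    simp only [Fintype.card_prod, Fintype.card_fin, card_Md] at e1 e2
    have e3 : ((ρ + 5) * ((ρ + w + 6 + B) * ((ρ + 1) * (B + w).choose w)) : ℕ) ≤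
        (ρ + 3) * ((ρ + w + 4 + B) * ((ρ + 3) * (B + w).choose w)) + Module.finrank k K := by
      rw [hK]
      omega
    have e4 : (((ρ + 5) * ((ρ + w + 6 + B) * ((ρ + 1) * (B + w).choose w)) : ℕ) : ℤ) ≤
        (((ρ + 3) * ((ρ + w + 4 + B) * ((ρ + 3) * (B + w).choose w)) + Module.finrank k K : ℕ) : ℤ) := by
      exact_mod_cast e3
    push_cast at e4 ⊢
    nlinarith [e4]

end Pool.Agent.T2H37.LB
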