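import Pool.Agent.T2H37.LB.StmA

/-!
# LB, package A12: growth and low weights of `K(r)`
-/

set_option autoImplicit false

namespace Pool.Agent.T2H37.LB

open Finset

namespace A12

variable {k : Type} [Field k] {w : ℕ}

theorem restr_self (P : (Var w → ℤ) → Prop) (f : L k w) (h : ∀ u, f.coeff u ≠ 0 → P u) :
    restr P f = f := by
  classical
  ext u
  simp only [restr, LinearMap.coe_mk, AddHom.coe_mk, Finsupp.filter_apply]
  split_ifs with hu
  · rfl
  · by_contra hne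
    exact hu (h u (fun h0 => hne h0.symm))

theorem restr_zero (P : (Var w → ℤ) → Prop) (f : L k w) (h : ∀ u, f.coeff u ≠ 0 → ¬ P u) :
    restr P f = 0 := by
  classical
  ext u
  simp only [restr, LinearMap.coe_mk, AddHom.coe_mk, Finsupp.filter_apply]
  split_ifs with hu
  · by_contra hne
    exact h u hne hu
  · rfl

theorem combine {b : ℕ} (t : Fin b → ℤ) (ht : Function.Injective t) (m : Fin b → ℕ)
    (v : ∀ j, Fin (m j) → L k w) (hv : ∀ j, LinearIndependent k (v j))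
    (hs : ∀ j i u, (v j i).coeff u ≠ 0 → ts u = t j) :
    LinearIndependent k (fun x : (Σ j, Fin (m j)) => v x.1 x.2) := by
  rw [Fintype.linearIndependent_iff]
  intro g hg ⟨j, i⟩
  have h1 : restr (fun u => ts u = t j) (∑ x : (Σ j, Fin (m j)), g x • v x.1 x.2) = 0 := by
    rw [hg, map_zero]
  rw [map_sum, Fintype.sum_sigma, Finset.sum_eq_single j] at h1
  · have h2 : ∑ y : Fin (m j), g ⟨j, y⟩ • v j y = 0 := by
      rw [← h1]
      refine Finset.sum_congr rfl fun y _ => ?_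
      rw [map_smul, restr_self _ _ (hs j y)]
    exact (Fintype.linearIndependent_iff.mp (hv j)) (fun y => g ⟨j, y⟩) h2 i
  · intro j' _ hj'
    refine Finset.sum_eq_zero fun y _ => ?_
    rw [map_smul, restr_zero _ _ ?_, smul_zero]
    intro u hu h
    exact hj' (ht ((hs j' y u hu).symm.trans h))
  · intro h
    exact absurd (Finset.mem_univ j) h

theorem gather {b : ℕ} (r : ℕ) (t : Fin b → ℤ) (ht : Function.Injective t) (m : Fin b → ℕ)
    (v : ∀ j, Fin (m j) → L k w) (hv : ∀ j, LinearIndependent k (v j))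
    (hK : ∀ j i, v j i ∈ KM k w r)
    (hs : ∀ j i u, (v j i).coeff u ≠ 0 → ts u = t j) :
    ∃ (v' : Fin (∑ j, m j) → L k w), LinearIndependent k v' ∧ ∀ i, v' i ∈ KM k w r := by
  have h := combine t ht m v hv hs
  have hc : Fintype.card (Σ j, Fin (m j)) = ∑ j, m j := by
    rw [Fintype.card_sigma]
    simp
  let e : Fin (∑ j, m j) ≃ (Σ j, Fin (m j)) := (Fintype.equivFinOfCardEq hc).symm
  refine ⟨fun i => v (e i).1 (e i).2, h.comp e e.injective, fun i => hK _ _⟩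

end A12

theorem KMgrowth_proof (k : Type) [Field k] (w : ℕ) (hM : KMmany k w) : KMgrowth k w := by
  refine ⟨1 / (32 ^ (w + 1) * (w.factorial : ℝ)), by positivity, 4 * w + 8, ?_⟩
  intro r hr
  set b : ℕ := r ^ 2 / 16 with hb
  have hr2 : 2 ≤ r := by omega
  choose m v hv hK hs hm using fun j : Fin b => hM r (b + j) hr2
  obtain ⟨v', hv', hK'⟩ := A12.gather r (fun j : Fin b => -(((b + j : ℕ) : ℤ) + w + 2))
    (by
      intro i j hij
      ext
      simp only at hij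
      omega) m v hv hK (fun j i u hu => (hs j i u hu).2)
  refine ⟨_, v', hv', hK', ?_⟩
  -- the bound
  have hrR : (4 * (w : ℝ) + 8) ≤ r := by exact_mod_cast hr
  have hw0 : (0 : ℝ) ≤ w := Nat.cast_nonneg w
  have hb1 : (r : ℝ) ^ 2 / 32 ≤ b := by
    have h1 : r ^ 2 < 16 * (b + 1) := by
      rw [hb]
      omega
    have h2 : (r : ℝ) ^ 2 < 16 * (b + 1) := by exact_mod_cast h1
    nlinarith
  have hb2 : (b : ℝ) ≤ (r : ℝ) ^ 2 / 16 := by
    have h1 : 16 * b ≤ r ^ 2 := by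
      rw [hb]
      omega
    have h2 : 16 * (b : ℝ) ≤ (r : ℝ) ^ 2 := by exact_mod_cast h1
    linarith
  have hterm : ∀ j : Fin b, ((r : ℝ) ^ 2 / 32) ^ w / (w.factorial : ℝ) * (r : ℝ) ^ 2 ≤ m j := by
    intro j
    have hj := hm j
    have hjR : (((b + j) + w : ℕ).choose w : ℝ) *
        (2 * ((r : ℝ) ^ 2 - 2 * ((b : ℝ) + (j : ℕ) + w + 3) - 1)) ≤ m j := by
      have := (Int.cast_le (R := ℝ)).mpr hj
      push_cast at this
      exact this
    have hjb : ((j : ℕ) : ℝ) ≤ b := by exact_mod_cast j.2.le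
    have h1 : (r : ℝ) ^ 2 ≤ 2 * ((r : ℝ) ^ 2 - 2 * ((b : ℝ) + (j : ℕ) + w + 3) - 1) := by
      nlinarith
    have h2 : ((r : ℝ) ^ 2 / 32) ^ w / (w.factorial : ℝ) ≤ (((b + j) + w : ℕ).choose w : ℝ) := by
      rw [div_le_iff₀ (by positivity)]
      have h3 := Nat.pow_le_choose (α := ℝ) w ((b + j) + w)
      have h4 : ((r : ℝ) ^ 2 / 32) ^ w ≤ (((b + (j : ℕ) + w + 1 - w : ℕ) : ℝ)) ^ w := by
        refine pow_le_pow_left₀ (by positivity) ?_ w
        have : b + (j : ℕ) + w + 1 - w = b + j + 1 := by omega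
        rw [this]
        push_cast
        have : (0 : ℝ) ≤ ((j : ℕ) : ℝ) := Nat.cast_nonneg _
        linarith
      have h5 : ((b + (j : ℕ) + w + 1 - w : ℕ) : ℝ) ^ w ≤ w.factorial * ((b + j) + w : ℕ).choose w := by
        first
          | exact h3
          | (rw [div_le_iff₀ (by positivity)] at h3; linarith)
      calc _ ≤ _ := h4
        _ ≤ _ := h5
        _ = _ := by ring
    calc ((r : ℝ) ^ 2 / 32) ^ w / (w.factorial : ℝ) * (r : ℝ) ^ 2
        ≤ (((b + j) + w : ℕ).choose w : ℝ) *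
          (2 * ((r : ℝ) ^ 2 - 2 * ((b : ℝ) + (j : ℕ) + w + 3) - 1)) :=
          mul_le_mul h2 h1 (by positivity) (by positivity)
      _ ≤ _ := hjR
  have hsum : (b : ℝ) * (((r : ℝ) ^ 2 / 32) ^ w / (w.factorial : ℝ) * (r : ℝ) ^ 2) ≤
      ((∑ j, m j : ℕ) : ℝ) := by
    push_cast
    calc _ = ∑ _j : Fin b, (((r : ℝ) ^ 2 / 32) ^ w / (w.factorial : ℝ) * (r : ℝ) ^ 2) := by
          simp
      _ ≤ _ := Finset.sum_le_sum fun j _ => hterm j
  refine le_trans ?_ hsum
  calc 1 / (32 ^ (w + 1) * (w.factorial : ℝ)) * (r : ℝ) ^ (2 * w + 4)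
      = ((r : ℝ) ^ 2 / 32) * (((r : ℝ) ^ 2 / 32) ^ w / (w.factorial : ℝ) * (r : ℝ) ^ 2) := by
        rw [div_pow, pow_add (r : ℝ) (2 * w) 4, pow_mul, pow_succ (32 : ℝ) w]
        field_simp
    _ ≤ _ := mul_le_mul_of_nonneg_right hb1 (by positivity)

theorem KMlow_proof (k : Type) [Field k] (w : ℕ) (hM : KMmany k w) : KMlow k w := by
  refine ⟨2 * w + 10, ?_⟩
  intro r hr
  have hr2 : 2 ≤ r := by omega
  set B : ℕ := r ^ 2 / 2 - w - 5 with hB
  have hlarge : 2 * w + 10 ≤ r ^ 2 := by nlinarith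
  have hB1 : 2 * (B + w + 5) ≤ r ^ 2 := by omega
  have hB2 : r ^ 2 ≤ 2 * (B + w + 5) + 1 := by omega
  obtain ⟨m, v, hv, hK, hs, hm⟩ := hM r B hr2
  have hm0 : 0 < m := by
    have h1 : (0 : ℤ) < ((B + w).choose w : ℤ) := by
      exact_mod_cast Nat.choose_pos (by omega)
    have h2 : (0 : ℤ) < 2 * ((r : ℤ) ^ 2 - 2 * (B + w + 3) - 1) := by
      have : (2 : ℤ) * (B + w + 5) ≤ (r : ℤ) ^ 2 := by exact_mod_cast hB1
      linarith
    have h3 := mul_pos h1 h2
    have : (0 : ℤ) < m := lt_of_lt_of_le h3 hm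
    exact_mod_cast this
  refine ⟨v ⟨0, hm0⟩, hK _, hv.ne_zero _, -(r + 4) + -(B + w + 2), ?_, ?_⟩
  · intro u hu
    obtain ⟨h1, h2⟩ := hs _ u hu
    unfold wt
    rw [h1, h2]
  · push_cast
    have h1 : (r : ℝ) ^ 2 ≤ 2 * (B + w + 5) + 1 := by exact_mod_cast hB2
    have h2 : (2 * (w : ℝ) + 10) ≤ r := by exact_mod_cast hr
    have h3 : (0 : ℝ) ≤ w := Nat.cast_nonneg w
    nlinarith

end Pool.Agent.T2H37.LB
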