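import Pool.Agent.T2H37.LB.A9

/-!
# LB, package A13: contraction by `q` is onto on the class `Pp`
-/

set_option autoImplicit false

namespace Pool.Agent.T2H37.LB

open Finset Polynomial

namespace A13

variable {k : Type} [Field k] {w : ℕ}

/-- every vector satisfying `Neg` is a `pt` -/
theorem exists_pt (v : Var w → ℤ) (hv : Neg v) :
    ∃ (i0 i1 : ℕ) (h0 h1 : ℤ) (a0 a1 : ℕ) (n : Fin (w + 2) → ℕ) (y0 y1 : ℕ),
      v = pt w i0 i1 h0 h1 a0 a1 n y0 y1 := by
  obtain ⟨hg, ha, ht, hy⟩ := hv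
  refine ⟨(-1 - v (Var.g 0)).toNat, (-1 - v (Var.g 1)).toNat, v (Var.h 0), v (Var.h 1),
    (-1 - v (Var.a 0)).toNat, (-1 - v (Var.a 1)).toNat, fun l => (-1 - v (Var.t l)).toNat,
    (v (Var.y 0)).toNat, (v (Var.y 1)).toNat, ?_⟩
  have g0 := hg 0
  have g1 := hg 1
  have a0 := ha 0
  have a1 := ha 1
  have y0 := hy 0
  have y1 := hy 1
  funext x
  rcases x with i | i | i | m | i
  · fin_cases i <;> simp only [pt, Fin.zero_eta, Fin.mk_one] <;> omega
  · fin_cases i <;> rfl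
  · fin_cases i <;> simp only [pt, Fin.zero_eta, Fin.mk_one] <;> omega
  · have := ht m
    simp only [pt]
    omega
  · fin_cases i <;> simp only [pt, Fin.zero_eta, Fin.mk_one] <;> omega

/-- the vector with the exponents of `u` at `γ, h, y`, `α`-degree `as u + w + 1`, `α_1`-exponent
`-1 - i`, `θ`-exponents `-1 - n l` -/
def vec (u : Var w → ℤ) (i : ℕ) (n : Fin (w + 2) → ℕ) : Var w → ℤ
  | Var.g j => u (Var.g j)
  | Var.h j => u (Var.h j)
  | Var.a 0 => as u + w + 2 + i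
  | Var.a 1 => -1 - i
  | Var.t l => -1 - n l
  | Var.y j => u (Var.y j)

/-- the class of `u` is the class of `u'` shifted by the degree of `q` -/
def Cls (u u' : Var w → ℤ) : Prop :=
  (∀ i, u' (Var.g i) = u (Var.g i)) ∧ (∀ i, u' (Var.h i) = u (Var.h i)) ∧
    (∀ i, u' (Var.y i) = u (Var.y i)) ∧ as u' = as u + (w + 1) ∧ ts u' = ts u + 1

/-- the condition for the support -/
def Cond (f : L k w) (u : Var w → ℤ) : Prop := Neg u ∧ ∃ u', f.coeff u' ≠ 0 ∧ Cls u u'

theorem finite_cond (f : L k w) : {u | Cond f u}.Finite := by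
  classical
  set lo : (Var w → ℤ) → (Var w → ℤ) := fun u' x => match x with
    | Var.g j => u' (Var.g j)
    | Var.h j => u' (Var.h j)
    | Var.a _ => as u' - (w + 1)
    | Var.t _ => ts u' - 1
    | Var.y j => u' (Var.y j) with hlo
  set hi : (Var w → ℤ) → (Var w → ℤ) := fun u' x => match x with
    | Var.g j => u' (Var.g j)
    | Var.h j => u' (Var.h j)
    | Var.a _ => -1
    | Var.t _ => -1
    | Var.y j => u' (Var.y j) with hhi
  refine Set.Finite.subset (s := ⋃ u' ∈ f.coeff.support, Set.Icc (lo u') (hi u')) ?_ ?_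
  · exact Set.Finite.biUnion (Finset.finite_toSet _) fun u' _ => Set.finite_Icc _ _
  · rintro u ⟨⟨hg, ha, ht, hy⟩, u', hu', c1, c2, c3, c4, c5⟩
    simp only [Set.mem_iUnion]
    refine ⟨u', by simpa using hu', ?_⟩
    have a0 := ha 0
    have a1 := ha 1
    constructor
    · intro x
      rcases x with i | i | i | m | i
      · simp only [hlo]; rw [c1]
      · simp only [hlo]; rw [c2]
      · simp only [hlo]
        unfold as at c4 ⊢
        fin_cases i <;> simp only [Fin.zero_eta, Fin.mk_one] <;> omega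
      · simp only [hlo]
        rw [c5]
        have : ts u = ∑ l, u (Var.t l) := rfl
        rw [this, ← Finset.add_sum_erase _ _ (Finset.mem_univ m)]
        have : ∑ l ∈ univ.erase m, u (Var.t l) ≤ 0 :=
          Finset.sum_nonpos fun l _ => (ht l).le
        omega
      · simp only [hlo]; rw [c3]
    · intro x
      rcases x with i | i | i | m | i
      · simp only [hhi]; rw [c1]
      · simp only [hhi]; rw [c2]
      · simp only [hhi]
        have := ha i
        omega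
      · simp only [hhi]
        have := ht m
        omega
      · simp only [hhi]; rw [c3]

open Classical in
/-- the coefficients of the preimage -/
noncomputable def G (f : L k w)
    (sol : (ℕ → (Fin (w + 2) → ℕ) → k) → ℕ → (Fin (w + 2) → ℕ) → k) (u : Var w → ℤ) : k :=
  if Cond f u then sol (fun i n => f.coeff (vec u i n)) (-1 - u (Var.a 1)).toNat
    (fun l => (-1 - u (Var.t l)).toNat) else 0

theorem finite_G (f : L k w)
    (sol : (ℕ → (Fin (w + 2) → ℕ) → k) → ℕ → (Fin (w + 2) → ℕ) → k) :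
    (Function.support (G f sol)).Finite := by
  refine (finite_cond f).subset fun u hu => ?_
  rw [Function.mem_support] at hu
  by_contra h
  apply hu
  unfold G
  exact if_neg h

/-- the preimage -/
noncomputable def gg (f : L k w)
    (sol : (ℕ → (Fin (w + 2) → ℕ) → k) → ℕ → (Fin (w + 2) → ℕ) → k) : L k w :=
  AddMonoidAlgebra.ofCoeff (Finsupp.ofSupportFinite (G f sol) (finite_G f sol))

theorem coeff_gg (f : L k w)
    (sol : (ℕ → (Fin (w + 2) → ℕ) → k) → ℕ → (Fin (w + 2) → ℕ) → k) (u : Var w → ℤ) :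
    (gg f sol).coeff u = G f sol u := rfl

theorem coeff_con_of_not (g f : L k w) (v : Var w → ℤ) (hv : ¬ Neg v) :
    (con g f).coeff v = 0 := by
  classical
  unfold con restr
  simp only [LinearMap.coe_mk, AddHom.coe_mk]
  rw [AddMonoidAlgebra.coeff_ofCoeff, Finsupp.filter_apply, if_neg hv]

theorem as_pt (i0 i1 : ℕ) (h0 h1 : ℤ) (a0 a1 : ℕ) (n : Fin (w + 2) → ℕ) (y0 y1 : ℕ) :
    as (pt w i0 i1 h0 h1 a0 a1 n y0 y1) = -2 - a0 - a1 := by
  unfold as
  simp only [pt]
  ring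

theorem ts_pt (i0 i1 : ℕ) (h0 h1 : ℤ) (a0 a1 : ℕ) (n : Fin (w + 2) → ℕ) (y0 y1 : ℕ) :
    ts (pt w i0 i1 h0 h1 a0 a1 n y0 y1) = ∑ l, (-1 - (n l : ℤ)) := rfl

/-- `vec` in terms of the target point -/
def vecV (v : Var w → ℤ) (i : ℕ) (n : Fin (w + 2) → ℕ) : Var w → ℤ
  | Var.g j => v (Var.g j)
  | Var.h j => v (Var.h j)
  | Var.a 0 => as v + 1 + i
  | Var.a 1 => -1 - i
  | Var.t l => -1 - n l
  | Var.y j => v (Var.y j)

/-- same class -/
def ClsV (v u' : Var w → ℤ) : Prop :=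
  (∀ i, u' (Var.g i) = v (Var.g i)) ∧ (∀ i, u' (Var.h i) = v (Var.h i)) ∧
    (∀ i, u' (Var.y i) = v (Var.y i)) ∧ as u' = as v ∧ ts u' = ts v

theorem vec_eq (i0 i1 : ℕ) (h0 h1 : ℤ) (a0 a1 : ℕ) (n : Fin (w + 2) → ℕ) (y0 y1 : ℕ)
    (l : Fin (w + 2)) (i : ℕ) (m : Fin (w + 2) → ℕ) :
    vec (pt w i0 i1 h0 h1 (a0 + l) (a1 + (w + 1 - (l : ℕ))) (n + Pi.single l 1) y0 y1) i m =
      vecV (pt w i0 i1 h0 h1 a0 a1 n y0 y1) i m := by
  have hl : (l : ℕ) ≤ w + 1 := by omega
  funext x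
  rcases x with j | j | j | q | j
  · fin_cases j <;> rfl
  · fin_cases j <;> rfl
  · fin_cases j
    · simp only [vec, vecV, as_pt]
      push_cast [Nat.cast_sub hl]
      ring
    · rfl
  · rfl
  · fin_cases j <;> rfl

theorem ts_shift (i0 i1 : ℕ) (h0 h1 : ℤ) (a0 a1 b0 b1 : ℕ) (n : Fin (w + 2) → ℕ) (y0 y1 : ℕ)
    (l : Fin (w + 2)) :
    ts (pt w i0 i1 h0 h1 b0 b1 (n + Pi.single l 1) y0 y1) =
      ts (pt w i0 i1 h0 h1 a0 a1 n y0 y1) - 1 := by
  rw [ts_pt, ts_pt]
  have h : ∀ q : Fin (w + 2), (-1 - (((n + Pi.single l 1 : Fin (w + 2) → ℕ) q : ℕ) : ℤ)) =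
      (-1 - (n q : ℤ)) - (if q = l then 1 else 0) := by
    intro q
    by_cases hq : q = l
    · subst hq
      simp
      ring
    · simp [hq]
  simp only [h]
  rw [Finset.sum_sub_distrib, Finset.sum_ite_eq' Finset.univ l]
  simp

theorem cond_iff (f : L k w) (i0 i1 : ℕ) (h0 h1 : ℤ) (a0 a1 : ℕ) (n : Fin (w + 2) → ℕ) (y0 y1 : ℕ)
    (l : Fin (w + 2)) :
    Cond f (pt w i0 i1 h0 h1 (a0 + l) (a1 + (w + 1 - (l : ℕ))) (n + Pi.single l 1) y0 y1) ↔
      ∃ u', f.coeff u' ≠ 0 ∧ ClsV (pt w i0 i1 h0 h1 a0 a1 n y0 y1) u' := by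
  have hl : (l : ℕ) ≤ w + 1 := by omega
  have e1 : as (pt w i0 i1 h0 h1 (a0 + l) (a1 + (w + 1 - (l : ℕ))) (n + Pi.single l 1) y0 y1) =
      as (pt w i0 i1 h0 h1 a0 a1 n y0 y1) - (w + 1) := by
    rw [as_pt, as_pt]
    push_cast [Nat.cast_sub hl]
    ring
  have e2 := ts_shift i0 i1 h0 h1 a0 a1 (a0 + l) (a1 + (w + 1 - (l : ℕ))) n y0 y1 l
  unfold Cond Cls ClsV
  rw [e1, e2]
  constructor
  · rintro ⟨-, u', hu', c1, c2, c3, c4, c5⟩
    refine ⟨u', hu', fun i => ?_, fun i => ?_, fun i => ?_, by omega, by omega⟩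
    · rw [c1]; fin_cases i <;> rfl
    · rw [c2]; fin_cases i <;> rfl
    · rw [c3]; fin_cases i <;> rfl
  · rintro ⟨u', hu', c1, c2, c3, c4, c5⟩
    refine ⟨A9.neg_pt _ _ _ _ _ _ _ _ _, u', hu', fun i => ?_, fun i => ?_, fun i => ?_, by omega,
      by omega⟩
    · rw [c1]; fin_cases i <;> rfl
    · rw [c2]; fin_cases i <;> rfl
    · rw [c3]; fin_cases i <;> rfl

theorem vecV_self (i0 i1 : ℕ) (h0 h1 : ℤ) (a0 a1 : ℕ) (n : Fin (w + 2) → ℕ) (y0 y1 : ℕ) :
    vecV (pt w i0 i1 h0 h1 a0 a1 n y0 y1) a1 n = pt w i0 i1 h0 h1 a0 a1 n y0 y1 := by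
  funext x
  rcases x with j | j | j | q | j
  · fin_cases j <;> rfl
  · fin_cases j <;> rfl
  · fin_cases j
    · simp only [vecV, as_pt, pt]
      ring
    · rfl
  · rfl
  · fin_cases j <;> rfl

end A13

theorem ConQ_proof (k : Type) [Field k] (w : ℕ) (hQ : QSurj k w) (hD : DictQ k w) : ConQ k w := by
  classical
  intro A C ρ f hf
  choose sol hsol using hQ
  refine ⟨A13.gg f sol, ?_, ?_⟩
  · intro u hu
    rw [A13.coeff_gg] at hu
    have hc : A13.Cond f u := by
      by_contra h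
      apply hu
      unfold A13.G
      rw [if_neg h]
    obtain ⟨hN, u', hu', c1, c2, c3, c4, c5⟩ := hc
    obtain ⟨f1, f2, f3, f4, f5⟩ := hf u' hu'
    refine ⟨?_, ?_, ?_, ?_, hN⟩
    · unfold Pp at f1 ⊢
      rwa [c2, c2] at f1
    · unfold hs gs at f2 ⊢
      rwa [c2, c2, c1, c1] at f2
    · have : gs u = gs u' := by unfold gs; rw [c1, c1]
      rw [this]
      omega
    · unfold ys at f4 ⊢
      rwa [c3, c3] at f4
  · ext v
    by_cases hv : Neg v
    · obtain ⟨i0, i1, h0, h1, a0, a1, n, y0, y1, rfl⟩ := A13.exists_pt v hv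
      rw [hD]
      by_cases hc : ∃ u', f.coeff u' ≠ 0 ∧ A13.ClsV (pt w i0 i1 h0 h1 a0 a1 n y0 y1) u'
      · have key : ∀ l : Fin (w + 2),
            (A13.gg f sol).coeff
              (pt w i0 i1 h0 h1 (a0 + l) (a1 + (w + 1 - (l : ℕ))) (n + Pi.single l 1) y0 y1) =
            sol (fun i m => f.coeff (A13.vecV (pt w i0 i1 h0 h1 a0 a1 n y0 y1) i m))
              (a1 + (w + 1 - (l : ℕ))) (n + Pi.single l 1) := by
          intro l
          rw [A13.coeff_gg]
          unfold A13.G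
          rw [if_pos ((A13.cond_iff f i0 i1 h0 h1 a0 a1 n y0 y1 l).2 hc)]
          simp only [A13.vec_eq]
          congr 1
          · simp only [pt]
            omega
          · funext q
            simp only [pt]
            omega
        simp only [key]
        have h1 := hsol (fun i m => f.coeff (A13.vecV (pt w i0 i1 h0 h1 a0 a1 n y0 y1) i m)) a1 n
        unfold qc at h1
        rw [h1, A13.vecV_self]
      · have key : ∀ l : Fin (w + 2),
            (A13.gg f sol).coeff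
              (pt w i0 i1 h0 h1 (a0 + l) (a1 + (w + 1 - (l : ℕ))) (n + Pi.single l 1) y0 y1) = 0 := by
          intro l
          rw [A13.coeff_gg]
          unfold A13.G
          rw [if_neg]
          rw [A13.cond_iff]
          exact hc
        simp only [key, smul_zero, Finset.sum_const_zero]
        by_contra h
        exact hc ⟨_, fun h' => h h'.symm, fun _ => rfl, fun _ => rfl, fun _ => rfl, rfl, rfl⟩
    · rw [A13.coeff_con_of_not _ _ _ hv]
      by_contra h
      exact hv (hf v (fun h' => h h'.symm)).2.2.2.2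

end Pool.Agent.T2H37.LB
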