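import Pool.Agent.T2H37.LB.StmA

/-!
# LB, package A14
-/

set_option autoImplicit false

namespace Pool.Agent.T2H37.LB

namespace PkgA14

open Finset Polynomial

variable {k : Type} [Field k] {w : ℕ}

/-! ## exponents -/

/-- the natural number `-1 - z` -/
def nt (z : ℤ) : ℕ := (-1 - z).toNat

/-- `θ`-part -/
def nn (u : Var w → ℤ) : Fin (w + 2) → ℕ := fun l => nt (u (Var.t l))

lemma nt_pt (a : ℕ) : nt (-1 - (a : ℤ)) = a := by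
  unfold nt; omega

@[simp] lemma pt_g0 (i0 i1 : ℕ) (h0 h1 : ℤ) (a0 a1 : ℕ) (n : Fin (w + 2) → ℕ) (y0 y1 : ℕ) :
    pt w i0 i1 h0 h1 a0 a1 n y0 y1 (Var.g 0) = -1 - i0 := rfl
@[simp] lemma pt_g1 (i0 i1 : ℕ) (h0 h1 : ℤ) (a0 a1 : ℕ) (n : Fin (w + 2) → ℕ) (y0 y1 : ℕ) :
    pt w i0 i1 h0 h1 a0 a1 n y0 y1 (Var.g 1) = -1 - i1 := rfl
@[simp] lemma pt_h0 (i0 i1 : ℕ) (h0 h1 : ℤ) (a0 a1 : ℕ) (n : Fin (w + 2) → ℕ) (y0 y1 : ℕ) :
    pt w i0 i1 h0 h1 a0 a1 n y0 y1 (Var.h 0) = h0 := rfl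
@[simp] lemma pt_h1 (i0 i1 : ℕ) (h0 h1 : ℤ) (a0 a1 : ℕ) (n : Fin (w + 2) → ℕ) (y0 y1 : ℕ) :
    pt w i0 i1 h0 h1 a0 a1 n y0 y1 (Var.h 1) = h1 := rfl
@[simp] lemma pt_a0 (i0 i1 : ℕ) (h0 h1 : ℤ) (a0 a1 : ℕ) (n : Fin (w + 2) → ℕ) (y0 y1 : ℕ) :
    pt w i0 i1 h0 h1 a0 a1 n y0 y1 (Var.a 0) = -1 - a0 := rfl
@[simp] lemma pt_a1 (i0 i1 : ℕ) (h0 h1 : ℤ) (a0 a1 : ℕ) (n : Fin (w + 2) → ℕ) (y0 y1 : ℕ) :
    pt w i0 i1 h0 h1 a0 a1 n y0 y1 (Var.a 1) = -1 - a1 := rfl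
@[simp] lemma pt_t (i0 i1 : ℕ) (h0 h1 : ℤ) (a0 a1 : ℕ) (n : Fin (w + 2) → ℕ) (y0 y1 : ℕ)
    (l : Fin (w + 2)) :
    pt w i0 i1 h0 h1 a0 a1 n y0 y1 (Var.t l) = -1 - n l := rfl
@[simp] lemma pt_y0 (i0 i1 : ℕ) (h0 h1 : ℤ) (a0 a1 : ℕ) (n : Fin (w + 2) → ℕ) (y0 y1 : ℕ) :
    pt w i0 i1 h0 h1 a0 a1 n y0 y1 (Var.y 0) = y0 := rfl
@[simp] lemma pt_y1 (i0 i1 : ℕ) (h0 h1 : ℤ) (a0 a1 : ℕ) (n : Fin (w + 2) → ℕ) (y0 y1 : ℕ) :
    pt w i0 i1 h0 h1 a0 a1 n y0 y1 (Var.y 1) = y1 := rfl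

lemma pt_gs (i0 i1 : ℕ) (h0 h1 : ℤ) (a0 a1 : ℕ) (n : Fin (w + 2) → ℕ) (y0 y1 : ℕ) :
    gs (pt w i0 i1 h0 h1 a0 a1 n y0 y1) = -2 - i0 - i1 := by
  simp only [gs, pt_g0, pt_g1]; ring
lemma pt_hs (i0 i1 : ℕ) (h0 h1 : ℤ) (a0 a1 : ℕ) (n : Fin (w + 2) → ℕ) (y0 y1 : ℕ) :
    hs (pt w i0 i1 h0 h1 a0 a1 n y0 y1) = h0 + h1 := by
  simp only [hs, pt_h0, pt_h1]
lemma pt_as (i0 i1 : ℕ) (h0 h1 : ℤ) (a0 a1 : ℕ) (n : Fin (w + 2) → ℕ) (y0 y1 : ℕ) :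
    as (pt w i0 i1 h0 h1 a0 a1 n y0 y1) = -2 - a0 - a1 := by
  simp only [as, pt_a0, pt_a1]; ring
lemma pt_ys (i0 i1 : ℕ) (h0 h1 : ℤ) (a0 a1 : ℕ) (n : Fin (w + 2) → ℕ) (y0 y1 : ℕ) :
    ys (pt w i0 i1 h0 h1 a0 a1 n y0 y1) = y0 + y1 := by
  simp only [ys, pt_y0, pt_y1]
lemma pt_nn (i0 i1 : ℕ) (h0 h1 : ℤ) (a0 a1 : ℕ) (n : Fin (w + 2) → ℕ) (y0 y1 : ℕ) :
    nn (pt w i0 i1 h0 h1 a0 a1 n y0 y1) = n := by
  funext l; simp only [nn, pt_t, nt_pt]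

lemma pt_Neg (i0 i1 : ℕ) (h0 h1 : ℤ) (a0 a1 : ℕ) (n : Fin (w + 2) → ℕ) (y0 y1 : ℕ) :
    Neg (pt w i0 i1 h0 h1 a0 a1 n y0 y1) := by
  refine ⟨?_, ?_, ?_, ?_⟩
  · intro i; fin_cases i
    · change pt w i0 i1 h0 h1 a0 a1 n y0 y1 (Var.g 0) < 0
      rw [pt_g0]; omega
    · change pt w i0 i1 h0 h1 a0 a1 n y0 y1 (Var.g 1) < 0
      rw [pt_g1]; omega
  · intro i; fin_cases i
    · change pt w i0 i1 h0 h1 a0 a1 n y0 y1 (Var.a 0) < 0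
      rw [pt_a0]; omega
    · change pt w i0 i1 h0 h1 a0 a1 n y0 y1 (Var.a 1) < 0
      rw [pt_a1]; omega
  · intro l
    rw [pt_t]; omega
  · intro i; fin_cases i
    · change 0 ≤ pt w i0 i1 h0 h1 a0 a1 n y0 y1 (Var.y 0)
      rw [pt_y0]; omega
    · change 0 ≤ pt w i0 i1 h0 h1 a0 a1 n y0 y1 (Var.y 1)
      rw [pt_y1]; omega

lemma Neg_eq (u : Var w → ℤ) (h : Neg u) :
    ∃ (i0 i1 : ℕ) (h0 h1 : ℤ) (a0 a1 : ℕ) (n : Fin (w + 2) → ℕ) (y0 y1 : ℕ),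
      u = pt w i0 i1 h0 h1 a0 a1 n y0 y1 := by
  refine ⟨nt (u (Var.g 0)), nt (u (Var.g 1)), u (Var.h 0), u (Var.h 1), nt (u (Var.a 0)),
    nt (u (Var.a 1)), nn u, (u (Var.y 0)).toNat, (u (Var.y 1)).toNat, ?_⟩
  obtain ⟨hg, ha, ht, hy⟩ := h
  funext v
  cases v with
  | g i =>
    fin_cases i
    · change u (Var.g 0) = -1 - (nt (u (Var.g 0)) : ℤ)
      have := hg 0; unfold nt; omega
    · change u (Var.g 1) = -1 - (nt (u (Var.g 1)) : ℤ)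
      have := hg 1; unfold nt; omega
  | h i =>
    fin_cases i
    · rfl
    · rfl
  | a i =>
    fin_cases i
    · change u (Var.a 0) = -1 - (nt (u (Var.a 0)) : ℤ)
      have := ha 0; unfold nt; omega
    · change u (Var.a 1) = -1 - (nt (u (Var.a 1)) : ℤ)
      have := ha 1; unfold nt; omega
  | t l =>
    rw [pt_t]
    have := ht l
    change u (Var.t l) = -1 - (nt (u (Var.t l)) : ℤ)
    unfold nt; omega
  | y i =>
    fin_cases i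
    · change u (Var.y 0) = ((u (Var.y 0)).toNat : ℤ)
      have := hy 0; omega
    · change u (Var.y 1) = ((u (Var.y 1)).toNat : ℤ)
      have := hy 1; omega

/-! ## con and degrees -/

lemma coeff_con (f g : L k w) (u : Var w → ℤ) (h : Neg u) :
    (con f g).coeff u = (f * g).coeff u := by
  classical
  unfold con restr
  simp only [LinearMap.coe_mk, AddHom.coe_mk, AddMonoidAlgebra.coeff_ofCoeff]
  convert Finsupp.filter_apply_pos _ _ h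

lemma coeff_con_neg (f g : L k w) (u : Var w → ℤ) (h : ¬ Neg u) :
    (con f g).coeff u = 0 := by
  classical
  unfold con restr
  simp only [LinearMap.coe_mk, AddHom.coe_mk, AddMonoidAlgebra.coeff_ofCoeff]
  convert Finsupp.filter_apply_neg _ _ h

/-- all exponents have `y`-degree `d` -/
def HY (d : ℤ) (f : L k w) : Prop := ∀ u, f.coeff u ≠ 0 → ys u = d

lemma HY.add {d : ℤ} {f g : L k w} (hf : HY d f) (hg : HY d g) : HY d (f + g) := by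
  intro u hu
  rw [AddMonoidAlgebra.coeff_add, Finsupp.add_apply] at hu
  by_cases h : f.coeff u = 0
  · rw [h, zero_add] at hu
    exact hg u hu
  · exact hf u h

lemma HY.sub {d : ℤ} {f g : L k w} (hf : HY d f) (hg : HY d g) : HY d (f - g) := by
  intro u hu
  rw [AddMonoidAlgebra.coeff_sub, Finsupp.sub_apply] at hu
  by_cases h : f.coeff u = 0
  · rw [h, zero_sub] at hu
    exact hg u (fun h' => hu (by rw [h', neg_zero]))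
  · exact hf u h

lemma HY.zsmul {d : ℤ} {f : L k w} (hf : HY d f) (c : ℤ) : HY d (c • f) := by
  intro u hu
  apply hf u
  intro h
  apply hu
  rw [AddMonoidAlgebra.coeff_smul, Finsupp.smul_apply, h, smul_zero]

lemma HY.mul {d e : ℤ} {f g : L k w} (hf : HY d f) (hg : HY e g) : HY (d + e) (f * g) := by
  classical
  intro u hu
  have h1 := AddMonoidAlgebra.support_coeff_mul_subset f g (Finsupp.mem_support_iff.2 hu)
  obtain ⟨a, ha, b, hb, rfl⟩ := Finset.mem_add.1 h1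
  have h2 := hf a (Finsupp.mem_support_iff.1 ha)
  have h3 := hg b (Finsupp.mem_support_iff.1 hb)
  rw [← h2, ← h3]
  unfold ys
  simp only [Pi.add_apply]
  ring

lemma HY_mPhi (x b c : ℕ) (hc : c ≤ 2) : HY 2 (mPhi k w x b c) := by
  classical
  intro u hu
  unfold mPhi mon at hu
  rw [AddMonoidAlgebra.coeff_single] at hu
  have h1 := (Finsupp.single_apply_ne_zero.1 hu).1
  rw [h1]
  unfold ys ev
  simp
  omega

lemma HY_Phi : HY 2 (PhiL k w) := by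
  unfold PhiL
  have h := fun x b c hc => HY_mPhi (k := k) (w := w) x b c hc
  exact (((((((h 0 0 0 (by norm_num)).sub (h 2 0 0 (by norm_num))).sub
    (h 0 2 0 (by norm_num))).sub (h 0 0 2 (by norm_num))).sub (h 2 2 0 (by norm_num))).sub
    (h 0 2 2 (by norm_num))).sub (h 2 0 2 (by norm_num))).add (h 2 2 2 (by norm_num)) |>.add
    ((h 1 1 1 (by norm_num)).zsmul 4)

/-! ## `psi` with values in `k[X]` -/

/-- `psi` with values in `k[X]` -/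
noncomputable def PsiP (F : ℕ → (Fin (w + 1) →₀ ℕ) → k[X]) (i : ℕ) (n : Fin (w + 2) → ℕ) : k[X] :=
  ∑ j ∈ range (sm n + 1), ∑ m ∈ MvPolynomial.support ((th k w n).coeff j),
    C (MvPolynomial.coeff m ((th k w n).coeff j)) * F (i + j) m

lemma coeff_PsiP (F : ℕ → (Fin (w + 1) →₀ ℕ) → k[X]) (i : ℕ) (n : Fin (w + 2) → ℕ) (c : ℕ) :
    (PsiP F i n).coeff c = psi k w (fun j m => (F j m).coeff c) i n := by
  unfold PsiP psi
  simp only [finsetSum_coeff, coeff_C_mul]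

lemma PsiP_eq_sum (ρ : ℕ) (F : ℕ → (Fin (w + 1) →₀ ℕ) → k[X])
    (hF : ∀ j m, (F j m).natDegree ≤ ρ) (i : ℕ) (n : Fin (w + 2) → ℕ) :
    ∑ c ∈ range (ρ + 1), C (psi k w (fun j m => (F j m).coeff c) i n) * X ^ c = PsiP F i n := by
  ext c
  rw [coeff_PsiP]
  simp only [finsetSum_coeff, coeff_C_mul, coeff_X_pow]
  by_cases hc : c ≤ ρ
  · rw [Finset.sum_eq_single c]
    · simp
    · intro b _ hb
      rw [if_neg (Ne.symm hb), mul_zero]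
    · intro h
      exact absurd (mem_range.2 (by omega)) h
  · rw [Finset.sum_eq_zero]
    · symm
      unfold psi
      refine Finset.sum_eq_zero fun j _ => Finset.sum_eq_zero fun m _ => ?_
      have h3 : ((F (i + j) m).coeff c) = 0 :=
        coeff_eq_zero_of_natDegree_lt (lt_of_le_of_lt (hF (i + j) m) (by omega))
      change _ * (F (i + j) m).coeff c = 0
      rw [h3, mul_zero]
    · intro b hb
      rw [mem_range] at hb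
      rw [if_neg (by omega), mul_zero]

lemma PsiP_shift (F : ℕ → (Fin (w + 1) →₀ ℕ) → k[X]) (i s : ℕ) (n : Fin (w + 2) → ℕ) :
    PsiP F (i + s) n = PsiP (fun j m => F (j + s) m) i n := by
  unfold PsiP
  refine Finset.sum_congr rfl fun j _ => Finset.sum_congr rfl fun m _ => ?_
  rw [show i + s + j = i + j + s by ring]

lemma PsiP_mul (P : k[X]) (F : ℕ → (Fin (w + 1) →₀ ℕ) → k[X]) (i : ℕ) (n : Fin (w + 2) → ℕ) :
    P * PsiP F i n = PsiP (fun j m => P * F j m) i n := by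
  unfold PsiP
  simp only [Finset.mul_sum]
  refine Finset.sum_congr rfl fun j _ => Finset.sum_congr rfl fun m _ => ?_
  ring

lemma PsiP_add (F G : ℕ → (Fin (w + 1) →₀ ℕ) → k[X]) (i : ℕ) (n : Fin (w + 2) → ℕ) :
    PsiP F i n + PsiP G i n = PsiP (fun j m => F j m + G j m) i n := by
  unfold PsiP
  simp only [mul_add, Finset.sum_add_distrib]

lemma PsiP_sub (F G : ℕ → (Fin (w + 1) →₀ ℕ) → k[X]) (i : ℕ) (n : Fin (w + 2) → ℕ) :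
    PsiP F i n - PsiP G i n = PsiP (fun j m => F j m - G j m) i n := by
  unfold PsiP
  simp only [mul_sub, Finset.sum_sub_distrib]

lemma PsiP_Rop (G : (Fin (w + 1) →₀ ℕ) → ℕ → ℕ → k[X]) (i a : ℕ) (n : Fin (w + 2) → ℕ) :
    (1 - X ^ 2) * (PsiP (fun j m => G m i j) a n - PsiP (fun j m => G m (i + 2) j) (a + 2) n)
      - (1 + X ^ 2) * (PsiP (fun j m => G m (i + 2) j) a n + PsiP (fun j m => G m i j) (a + 2) n)
      + C 4 * X * PsiP (fun j m => G m (i + 1) j) (a + 1) n =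
    PsiP (fun j m => Rop k (G m) i j) a n := by
  rw [PsiP_shift _ a 2, PsiP_shift _ a 2, PsiP_shift _ a 1, PsiP_sub, PsiP_add, PsiP_mul, PsiP_mul,
    PsiP_mul, PsiP_sub, PsiP_add]
  rfl

lemma PsiP_congr (F G : ℕ → (Fin (w + 1) →₀ ℕ) → k[X]) (i : ℕ) (n : Fin (w + 2) → ℕ)
    (h : ∀ j m, j ≤ sm n → F (i + j) m = G (i + j) m) : PsiP F i n = PsiP G i n := by
  unfold PsiP
  refine Finset.sum_congr rfl fun j hj => Finset.sum_congr rfl fun m _ => ?_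
  rw [mem_range] at hj
  rw [h j m (by omega)]

/-! ## the main step -/

lemma key (hG : ThmG k) (h2 : OmB2 k w) (hq : DictQ k w) (ρ : ℕ) (f : L k w)
    (hf : con (qL k w) f = 0) (h0 h1 : ℕ) (hh : h0 + h1 ≤ ρ) (B : ℕ) :
    ∃ G : (Fin (w + 1) →₀ ℕ) → ℕ → ℕ → k[X], (∀ m i j, (G m i j).natDegree ≤ ρ) ∧
      ∀ (i0 i1 a0 a1 : ℕ) (n : Fin (w + 2) → ℕ), i0 + i1 + h0 + h1 = ρ →
        a0 + a1 = i0 + i1 + w + 1 → sm n = B →
        cf k w (ρ + 2) f h0 h1 i0 i1 a0 a1 n = PsiP (fun j m => Rop k (G m) i1 j) a1 n := by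
  obtain ⟨τ, hτ⟩ : ∃ τ, τ = ρ - h0 - h1 := ⟨_, rfl⟩
  obtain ⟨A, hA⟩ : ∃ A, A = τ + w + 1 := ⟨_, rfl⟩
  have hF : ∀ i c : ℕ, ∃ F : ℕ → (Fin (w + 1) →₀ ℕ) → k, ∀ a ≤ A, ∀ n, sm n = B →
      f.coeff (pt w (τ - i) i h0 h1 (A - a) a n (ρ + 2 - c) c) = psi k w F a n := by
    intro i c
    refine h2 A B (by omega)
      (fun a n => f.coeff (pt w (τ - i) i h0 h1 (A - a) a n (ρ + 2 - c) c)) ?_
    intro a n ha _
    have h := hq f (τ - i) i h0 h1 (A - a - (w + 1)) a n (ρ + 2 - c) c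
    rw [hf, AddMonoidAlgebra.coeff_zero, Finsupp.zero_apply] at h
    unfold qc
    rw [h]
    refine Finset.sum_congr rfl fun l _ => ?_
    have hl := l.2
    beta_reduce
    rw [show A - (a + (w + 1 - (l : ℕ))) = A - a - (w + 1) + (l : ℕ) by omega]
  choose F hF using hF
  have hGm : ∀ m : Fin (w + 1) →₀ ℕ, ∃ g : ℕ → ℕ → k[X], (∀ i j, (g i j).natDegree ≤ ρ) ∧
      ∀ i j, i + 2 ≤ τ + 2 → j + 2 ≤ A + 2 + B → Rop k g i j =
        ∑ c ∈ range (ρ + 3), C (F i c j m) * X ^ c := by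
    intro m
    refine hG ρ (τ + 2) (A + 2 + B) (by omega) (by omega)
      (fun i j => ∑ c ∈ range (ρ + 3), C (F i c j m) * X ^ c) ?_
    intro i j
    refine natDegree_sum_le_of_forall_le _ _ fun c hc => ?_
    rw [mem_range] at hc
    exact (natDegree_C_mul_X_pow_le _ _).trans (by omega)
  choose G hG1 hG2 using hGm
  refine ⟨G, hG1, ?_⟩
  intro i0 i1 a0 a1 n hi ha hn
  have e1 : PsiP (fun j m => Rop k (G m) i1 j) a1 n =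
      PsiP (fun j m => ∑ c ∈ range (ρ + 3), C (F i1 c j m) * X ^ c) a1 n := by
    refine PsiP_congr _ _ _ _ fun j m hj => ?_
    exact hG2 m i1 (a1 + j) (by omega) (by omega)
  rw [e1, ← PsiP_eq_sum (ρ + 2)]
  · unfold cf
    refine Finset.sum_congr rfl fun c hc => ?_
    rw [mem_range] at hc
    congr 2
    have h := hF i1 c a1 (by omega) n hn
    rw [show τ - i1 = i0 by omega, show A - a1 = a0 by omega] at h
    rw [h]
    congr 1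
    funext j m
    simp only [finsetSum_coeff, coeff_C_mul, coeff_X_pow]
    rw [Finset.sum_eq_single c]
    · simp
    · intro b _ hb
      rw [if_neg (Ne.symm hb), mul_zero]
    · intro h
      exact absurd (mem_range.2 (by omega)) h
  · intro j m
    refine natDegree_sum_le_of_forall_le _ _ fun c hc => ?_
    rw [mem_range] at hc
    exact (natDegree_C_mul_X_pow_le _ _).trans (by omega)

/-! ## the element `g` -/

/-- the condition for the support of `g` -/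
def Cd (ρ M : ℕ) (u : Var w → ℤ) : Prop :=
  Neg u ∧ Pp u ∧ hs u - gs u = ρ + 4 ∧ as u - gs u = -(w + 1) ∧ ys u = ρ ∧ sm (nn u) ≤ M

lemma Cd_pt (ρ M : ℕ) (i0 i1 : ℕ) (h0 h1 : ℤ) (a0 a1 : ℕ) (n : Fin (w + 2) → ℕ) (y0 y1 : ℕ) :
    Cd ρ M (pt w i0 i1 h0 h1 a0 a1 n y0 y1) ↔ (0 ≤ h0 ∧ 0 ≤ h1 ∧ (i0 : ℤ) + i1 + h0 + h1 = ρ + 2 ∧
      a0 + a1 = i0 + i1 + w + 1 ∧ y0 + y1 = ρ ∧ sm n ≤ M) := by
  unfold Cd Pp
  rw [pt_gs, pt_hs, pt_as, pt_ys, pt_nn, pt_h0, pt_h1]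
  constructor
  · rintro ⟨-, ⟨hh0, hh1⟩, e1, e2, e3, e4⟩
    refine ⟨hh0, hh1, ?_, ?_, ?_, e4⟩ <;> omega
  · rintro ⟨hh0, hh1, e1, e2, e3, e4⟩
    refine ⟨pt_Neg _ _ _ _ _ _ _ _ _, ⟨hh0, hh1⟩, ?_, ?_, ?_, e4⟩ <;> omega

/-- the coefficients of `g` -/
noncomputable def gv (ρ M : ℕ) (G : ℕ → ℕ → ℕ → (Fin (w + 1) →₀ ℕ) → ℕ → ℕ → k[X])
    (u : Var w → ℤ) : k := by
  classical
  exact
  if Cd ρ M u then
    psi k w (fun j m => (G (u (Var.h 0)).toNat (u (Var.h 1)).toNat (sm (nn u)) m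
      (nt (u (Var.g 1))) j).coeff (u (Var.y 1)).toNat) (nt (u (Var.a 1))) (nn u)
  else 0

lemma gv_pt_pos (ρ M : ℕ) (G : ℕ → ℕ → ℕ → (Fin (w + 1) →₀ ℕ) → ℕ → ℕ → k[X])
    (i0 i1 : ℕ) (h0 h1 : ℤ) (a0 a1 : ℕ) (n : Fin (w + 2) → ℕ) (y0 y1 : ℕ)
    (h : 0 ≤ h0 ∧ 0 ≤ h1 ∧ (i0 : ℤ) + i1 + h0 + h1 = ρ + 2 ∧
      a0 + a1 = i0 + i1 + w + 1 ∧ y0 + y1 = ρ ∧ sm n ≤ M) :
    gv ρ M G (pt w i0 i1 h0 h1 a0 a1 n y0 y1) =
      psi k w (fun j m => (G h0.toNat h1.toNat (sm n) m i1 j).coeff y1) a1 n := by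
  unfold gv
  rw [if_pos ((Cd_pt ρ M i0 i1 h0 h1 a0 a1 n y0 y1).2 h), pt_nn, pt_h0, pt_h1, pt_g1, pt_a1,
    pt_y1, nt_pt, nt_pt, Int.toNat_natCast]

lemma gv_pt_neg (ρ M : ℕ) (G : ℕ → ℕ → ℕ → (Fin (w + 1) →₀ ℕ) → ℕ → ℕ → k[X])
    (i0 i1 : ℕ) (h0 h1 : ℤ) (a0 a1 : ℕ) (n : Fin (w + 2) → ℕ) (y0 y1 : ℕ)
    (h : ¬ (0 ≤ h0 ∧ 0 ≤ h1 ∧ (i0 : ℤ) + i1 + h0 + h1 = ρ + 2 ∧
      a0 + a1 = i0 + i1 + w + 1 ∧ y0 + y1 = ρ ∧ sm n ≤ M)) :
    gv ρ M G (pt w i0 i1 h0 h1 a0 a1 n y0 y1) = 0 := by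
  unfold gv
  rw [if_neg (fun h' => h ((Cd_pt ρ M i0 i1 h0 h1 a0 a1 n y0 y1).1 h'))]

lemma Cd_bound (ρ M : ℕ) (u : Var w → ℤ) (hu : Cd ρ M u) (v : Var w) :
    -((ρ : ℤ) + w + M + 6) ≤ u v ∧ u v ≤ (ρ : ℤ) + w + M + 6 := by
  obtain ⟨i0, i1, h0, h1, a0, a1, n, y0, y1, rfl⟩ := Neg_eq u hu.1
  obtain ⟨hh0, hh1, e1, e2, e3, e4⟩ := (Cd_pt ρ M i0 i1 h0 h1 a0 a1 n y0 y1).1 hu
  cases v with
  | g i =>
    fin_cases i
    · change _ ≤ pt w i0 i1 h0 h1 a0 a1 n y0 y1 (Var.g 0) ∧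
        pt w i0 i1 h0 h1 a0 a1 n y0 y1 (Var.g 0) ≤ _
      rw [pt_g0]; omega
    · change _ ≤ pt w i0 i1 h0 h1 a0 a1 n y0 y1 (Var.g 1) ∧
        pt w i0 i1 h0 h1 a0 a1 n y0 y1 (Var.g 1) ≤ _
      rw [pt_g1]; omega
  | h i =>
    fin_cases i
    · change _ ≤ h0 ∧ h0 ≤ _
      omega
    · change _ ≤ h1 ∧ h1 ≤ _
      omega
  | a i =>
    fin_cases i
    · change _ ≤ pt w i0 i1 h0 h1 a0 a1 n y0 y1 (Var.a 0) ∧
        pt w i0 i1 h0 h1 a0 a1 n y0 y1 (Var.a 0) ≤ _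
      rw [pt_a0]; omega
    · change _ ≤ pt w i0 i1 h0 h1 a0 a1 n y0 y1 (Var.a 1) ∧
        pt w i0 i1 h0 h1 a0 a1 n y0 y1 (Var.a 1) ≤ _
      rw [pt_a1]; omega
  | t l =>
    rw [pt_t]
    have : n l ≤ sm n := Finset.single_le_sum (f := n) (fun _ _ => Nat.zero_le _) (mem_univ l)
    omega
  | y i =>
    fin_cases i
    · change _ ≤ pt w i0 i1 h0 h1 a0 a1 n y0 y1 (Var.y 0) ∧
        pt w i0 i1 h0 h1 a0 a1 n y0 y1 (Var.y 0) ≤ _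
      rw [pt_y0]; omega
    · change _ ≤ pt w i0 i1 h0 h1 a0 a1 n y0 y1 (Var.y 1) ∧
        pt w i0 i1 h0 h1 a0 a1 n y0 y1 (Var.y 1) ≤ _
      rw [pt_y1]; omega

lemma gv_finite (ρ M : ℕ) (G : ℕ → ℕ → ℕ → (Fin (w + 1) →₀ ℕ) → ℕ → ℕ → k[X]) :
    (Function.support (gv (w := w) ρ M G)).Finite := by
  refine (Set.finite_Icc (fun _ : Var w => -((ρ : ℤ) + w + M + 6))
    (fun _ : Var w => (ρ : ℤ) + w + M + 6)).subset ?_
  intro u hu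
  have hc : Cd ρ M u := by
    by_contra h
    apply hu
    unfold gv
    rw [if_neg h]
  exact ⟨fun v => (Cd_bound ρ M u hc v).1, fun v => (Cd_bound ρ M u hc v).2⟩

/-- the element `g` -/
noncomputable def gg (ρ M : ℕ) (G : ℕ → ℕ → ℕ → (Fin (w + 1) →₀ ℕ) → ℕ → ℕ → k[X]) : L k w :=
  AddMonoidAlgebra.ofCoeff (Finsupp.ofSupportFinite (gv ρ M G) (gv_finite ρ M G))

lemma coeff_gg (ρ M : ℕ) (G : ℕ → ℕ → ℕ → (Fin (w + 1) →₀ ℕ) → ℕ → ℕ → k[X]) (u : Var w → ℤ) :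
    (gg ρ M G).coeff u = gv ρ M G u := rfl

lemma gg_Cd (ρ M : ℕ) (G : ℕ → ℕ → ℕ → (Fin (w + 1) →₀ ℕ) → ℕ → ℕ → k[X]) (u : Var w → ℤ)
    (hu : (gg ρ M G).coeff u ≠ 0) : Cd ρ M u := by
  by_contra h
  apply hu
  rw [coeff_gg]
  unfold gv
  rw [if_neg h]

lemma con_q_gg (h1 : OmB1 k w) (hq : DictQ k w) (ρ M : ℕ)
    (G : ℕ → ℕ → ℕ → (Fin (w + 1) →₀ ℕ) → ℕ → ℕ → k[X]) : con (qL k w) (gg ρ M G) = 0 := by
  have hmain : ∀ u : Var w → ℤ, (con (qL k w) (gg ρ M G)).coeff u = 0 := by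
    intro u
    by_cases hu : Neg u
    · obtain ⟨i0, i1, h0, h1', a0, a1, n, y0, y1, rfl⟩ := Neg_eq u hu
      rw [hq]
      have hsm : ∀ l : Fin (w + 2), sm (n + Pi.single l 1) = sm n + 1 := by
        intro l
        simp [sm, Finset.sum_add_distrib]
      by_cases hc : (0 ≤ h0 ∧ 0 ≤ h1' ∧ (i0 : ℤ) + i1 + h0 + h1' = ρ + 2 ∧
        a0 + a1 + w + 1 = i0 + i1 + w + 1 ∧ y0 + y1 = ρ ∧ sm n + 1 ≤ M)
      · have h := h1 (fun j m => (G h0.toNat h1'.toNat (sm n + 1) m i1 j).coeff y1) a1 n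
        unfold qc at h
        rw [← h]
        refine Finset.sum_congr rfl fun l _ => ?_
        have hl := l.2
        rw [coeff_gg, gv_pt_pos, hsm]
        obtain ⟨e1, e2, e3, e4, e5, e6⟩ := hc
        refine ⟨e1, e2, e3, ?_, e5, ?_⟩
        · omega
        · rw [hsm]; exact e6
      · refine Finset.sum_eq_zero fun l _ => ?_
        have hl := l.2
        rw [coeff_gg, gv_pt_neg, smul_zero]
        rintro ⟨e1, e2, e3, e4, e5, e6⟩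
        rw [hsm] at e6
        exact hc ⟨e1, e2, e3, by omega, e5, e6⟩
    · exact coeff_con_neg _ _ _ hu
  ext u
  rw [hmain u]
  rfl

lemma cf_coeff (ρ : ℕ) (f : L k w) (h0 h1 : ℤ) (i0 i1 a0 a1 : ℕ) (n : Fin (w + 2) → ℕ) (c : ℕ)
    (hc : c ≤ ρ) :
    (cf k w ρ f h0 h1 i0 i1 a0 a1 n).coeff c = f.coeff (pt w i0 i1 h0 h1 a0 a1 n (ρ - c) c) := by
  unfold cf
  simp only [finsetSum_coeff, coeff_C_mul, coeff_X_pow]
  rw [Finset.sum_eq_single c]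
  · simp
  · intro b _ hb
    rw [if_neg (Ne.symm hb), mul_zero]
  · intro h
    exact absurd (mem_range.2 (by omega)) h

lemma cf_gg_pos (ρ M : ℕ) (G : ℕ → ℕ → ℕ → (Fin (w + 1) →₀ ℕ) → ℕ → ℕ → k[X])
    (hG : ∀ a b c m i j, (G a b c m i j).natDegree ≤ ρ) (h0 h1 : ℤ) (i0 i1 a0 a1 : ℕ)
    (n : Fin (w + 2) → ℕ) (h : 0 ≤ h0 ∧ 0 ≤ h1 ∧ (i0 : ℤ) + i1 + h0 + h1 = ρ + 2 ∧
      a0 + a1 = i0 + i1 + w + 1 ∧ sm n ≤ M) :
    cf k w ρ (gg ρ M G) h0 h1 i0 i1 a0 a1 n =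
      PsiP (fun j m => G h0.toNat h1.toNat (sm n) m i1 j) a1 n := by
  rw [← PsiP_eq_sum ρ _ (fun j m => hG _ _ _ _ _ _)]
  unfold cf
  refine Finset.sum_congr rfl fun c hc => ?_
  rw [mem_range] at hc
  rw [coeff_gg, gv_pt_pos]
  obtain ⟨e1, e2, e3, e4, e5⟩ := h
  exact ⟨e1, e2, e3, e4, by omega, e5⟩

lemma cf_gg_neg (ρ M : ℕ) (G : ℕ → ℕ → ℕ → (Fin (w + 1) →₀ ℕ) → ℕ → ℕ → k[X])
    (h0 h1 : ℤ) (i0 i1 a0 a1 : ℕ)
    (n : Fin (w + 2) → ℕ) (h : ¬ (0 ≤ h0 ∧ 0 ≤ h1 ∧ (i0 : ℤ) + i1 + h0 + h1 = ρ + 2 ∧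
      a0 + a1 = i0 + i1 + w + 1 ∧ sm n ≤ M)) :
    cf k w ρ (gg ρ M G) h0 h1 i0 i1 a0 a1 n = 0 := by
  unfold cf
  refine Finset.sum_eq_zero fun c hc => ?_
  rw [coeff_gg, gv_pt_neg, C_0, zero_mul]
  rintro ⟨e1, e2, e3, e4, -, e5⟩
  exact h ⟨e1, e2, e3, e4, e5⟩

lemma con_P_gg (hp : DictP k w) (ρ M : ℕ)
    (G : ℕ → ℕ → ℕ → (Fin (w + 1) →₀ ℕ) → ℕ → ℕ → k[X])
    (hG : ∀ a b c m i j, (G a b c m i j).natDegree ≤ ρ) (f : L k w)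
    (hf : f ∈ Dn k (w := w) Pp ((ρ + 2 : ℕ) : ℤ) (-(w + 1)) ((ρ + 2 : ℕ) : ℤ))
    (hM : ∀ u, f.coeff u ≠ 0 → sm (nn u) ≤ M)
    (hfG : ∀ (h0 h1 i0 i1 a0 a1 : ℕ) (n : Fin (w + 2) → ℕ), i0 + i1 + h0 + h1 = ρ →
        a0 + a1 = i0 + i1 + w + 1 →
        cf k w (ρ + 2) f h0 h1 i0 i1 a0 a1 n =
          PsiP (fun j m => Rop k (G h0 h1 (sm n) m) i1 j) a1 n) :
    con (PhiL k w) (gg ρ M G) = f := by
  have hsupp : ∀ u, (gg ρ M G).coeff u ≠ 0 → (∀ i, 0 ≤ u (Var.y i)) ∧ ys u = ρ := by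
    intro u hu
    have h := gg_Cd ρ M G u hu
    exact ⟨h.1.2.2.2, h.2.2.2.2.1⟩
  -- the equality of the polynomials
  have hcf : ∀ (h0 h1 : ℤ) (i0 i1 a0 a1 : ℕ) (n : Fin (w + 2) → ℕ),
      cf k w (ρ + 2) (con (PhiL k w) (gg ρ M G)) h0 h1 i0 i1 a0 a1 n =
        cf k w (ρ + 2) f h0 h1 i0 i1 a0 a1 n := by
    intro h0 h1 i0 i1 a0 a1 n
    rw [hp ρ (gg ρ M G) hsupp]
    by_cases hc : (0 ≤ h0 ∧ 0 ≤ h1 ∧ (i0 : ℤ) + i1 + h0 + h1 = ρ ∧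
      a0 + a1 = i0 + i1 + w + 1 ∧ sm n ≤ M)
    · obtain ⟨e1, e2, e3, e4, e5⟩ := hc
      rw [cf_gg_pos ρ M G hG h0 h1 (i0 + 2) i1 (a0 + 2) a1 n
          ⟨e1, e2, by push_cast; omega, by omega, e5⟩,
        cf_gg_pos ρ M G hG h0 h1 i0 (i1 + 2) a0 (a1 + 2) n
          ⟨e1, e2, by push_cast; omega, by omega, e5⟩,
        cf_gg_pos ρ M G hG h0 h1 i0 (i1 + 2) (a0 + 2) a1 n
          ⟨e1, e2, by push_cast; omega, by omega, e5⟩,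
        cf_gg_pos ρ M G hG h0 h1 (i0 + 2) i1 a0 (a1 + 2) n
          ⟨e1, e2, by push_cast; omega, by omega, e5⟩,
        cf_gg_pos ρ M G hG h0 h1 (i0 + 1) (i1 + 1) (a0 + 1) (a1 + 1) n
          ⟨e1, e2, by push_cast; omega, by omega, e5⟩]
      rw [PsiP_Rop (G h0.toNat h1.toNat (sm n)) i1 a1 n]
      have h := hfG h0.toNat h1.toNat i0 i1 a0 a1 n (by omega) e4
      rw [Int.toNat_of_nonneg e1, Int.toNat_of_nonneg e2] at h
      exact h.symm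
    · rw [cf_gg_neg ρ M G h0 h1 (i0 + 2) i1 (a0 + 2) a1 n
          (fun ⟨e1, e2, e3, e4, e5⟩ => hc ⟨e1, e2, by push_cast at e3; omega, by omega, e5⟩),
        cf_gg_neg ρ M G h0 h1 i0 (i1 + 2) a0 (a1 + 2) n
          (fun ⟨e1, e2, e3, e4, e5⟩ => hc ⟨e1, e2, by push_cast at e3; omega, by omega, e5⟩),
        cf_gg_neg ρ M G h0 h1 i0 (i1 + 2) (a0 + 2) a1 n
          (fun ⟨e1, e2, e3, e4, e5⟩ => hc ⟨e1, e2, by push_cast at e3; omega, by omega, e5⟩),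
        cf_gg_neg ρ M G h0 h1 (i0 + 2) i1 a0 (a1 + 2) n
          (fun ⟨e1, e2, e3, e4, e5⟩ => hc ⟨e1, e2, by push_cast at e3; omega, by omega, e5⟩),
        cf_gg_neg ρ M G h0 h1 (i0 + 1) (i1 + 1) (a0 + 1) (a1 + 1) n
          (fun ⟨e1, e2, e3, e4, e5⟩ => hc ⟨e1, e2, by push_cast at e3; omega, by omega, e5⟩)]
      rw [sub_zero, add_zero, mul_zero, mul_zero, mul_zero, sub_zero, add_zero]
      symm
      unfold cf
      refine Finset.sum_eq_zero fun c hc' => ?_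
      rw [mem_range] at hc'
      have h3 : f.coeff (pt w i0 i1 h0 h1 a0 a1 n (ρ + 2 - c) c) = 0 := by
        by_contra hne
        obtain ⟨⟨p1, p2⟩, q1, q2, -, -⟩ := hf _ hne
        have h4 := hM _ hne
        rw [pt_nn] at h4
        rw [pt_h0] at p1
        rw [pt_h1] at p2
        rw [pt_hs, pt_gs] at q1
        rw [pt_as, pt_gs] at q2
        push_cast at q1
        exact hc ⟨p1, p2, by omega, by omega, h4⟩
      rw [h3, C_0, zero_mul]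
  have hmain : ∀ u : Var w → ℤ, (con (PhiL k w) (gg ρ M G)).coeff u = f.coeff u := by
    intro u
    by_cases hu : Neg u
    · obtain ⟨i0, i1, h0, h1, a0, a1, n, y0, y1, rfl⟩ := Neg_eq u hu
      by_cases hy : y0 + y1 = ρ + 2
      · have h := congrArg (fun P => P.coeff y1) (hcf h0 h1 i0 i1 a0 a1 n)
        rw [cf_coeff _ _ _ _ _ _ _ _ _ _ (by omega), cf_coeff _ _ _ _ _ _ _ _ _ _ (by omega),
          show ρ + 2 - y1 = y0 by omega] at h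
        exact h
      · have e1 : f.coeff (pt w i0 i1 h0 h1 a0 a1 n y0 y1) = 0 := by
          by_contra hne
          obtain ⟨-, -, -, q, -⟩ := hf _ hne
          rw [pt_ys] at q
          push_cast at q
          omega
        rw [e1, coeff_con _ _ _ hu]
        by_contra hne
        have h5 : HY ρ (gg ρ M G) := fun u hu => (hsupp u hu).2
        have h6 := HY_Phi.mul h5 _ hne
        rw [pt_ys] at h6
        omega
    · rw [coeff_con_neg _ _ _ hu]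
      by_contra hne
      exact hu (hf u (Ne.symm hne)).2.2.2.2
  ext u
  exact hmain u

end PkgA14

open PkgA14 in
/-- Package A14. -/
theorem ConP_proof (k : Type) [Field k] (w : ℕ) (hG : ThmG k) (h1 : OmB1 k w) (h2 : OmB2 k w)
    (h3 : OmB3 k w) (hq : DictQ k w) (hp : DictP k w) : ConP k w := by
  classical
  have _ := h3
  intro r f hf hcf
  by_cases hr : r < 2
  · -- `f = 0`
    have h0 : f = 0 := by
      ext u
      by_contra hne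
      change f.coeff u ≠ 0 at hne
      obtain ⟨⟨p1, p2⟩, q1, q2, -, hN⟩ := hf u hne
      obtain ⟨hg, -, -, -⟩ := hN
      have g0 := hg 0
      have g1 := hg 1
      unfold hs gs at q1
      omega
    refine ⟨0, Submodule.zero_mem _, ?_, ?_⟩
    · unfold con
      rw [mul_zero, map_zero]
    · unfold con
      rw [mul_zero, map_zero, h0]
  · obtain ⟨ρ, rfl⟩ : ∃ ρ, r = ρ + 2 := ⟨r - 2, by omega⟩
    have hk : ∀ h0 h1 B : ℕ, ∃ G : (Fin (w + 1) →₀ ℕ) → ℕ → ℕ → Polynomial k,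
        (∀ m i j, (G m i j).natDegree ≤ ρ) ∧
        (h0 + h1 ≤ ρ → ∀ (i0 i1 a0 a1 : ℕ) (n : Fin (w + 2) → ℕ), i0 + i1 + h0 + h1 = ρ →
          a0 + a1 = i0 + i1 + w + 1 → sm n = B →
          cf k w (ρ + 2) f h0 h1 i0 i1 a0 a1 n = PsiP (fun j m => Rop k (G m) i1 j) a1 n) := by
      intro h0 h1 B
      by_cases hh : h0 + h1 ≤ ρ
      · obtain ⟨G, hG1, hG2⟩ := key hG h2 hq ρ f hcf h0 h1 hh B
        exact ⟨G, hG1, fun _ => hG2⟩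
      · exact ⟨fun _ _ _ => 0, fun _ _ _ => by simp, fun h => absurd h hh⟩
    choose G hG1 hG2 using hk
    obtain ⟨M, hM⟩ : ∃ M : ℕ, ∀ u, f.coeff u ≠ 0 → sm (nn u) ≤ M := by
      refine ⟨f.coeff.support.sup (fun u => sm (nn u)), fun u hu => ?_⟩
      exact Finset.le_sup (f := fun u : Var w → ℤ => sm (nn u)) (Finsupp.mem_support_iff.2 hu)
    refine ⟨gg ρ M G, ?_, con_q_gg h1 hq ρ M G, ?_⟩
    · intro u hu
      obtain ⟨c1, c2, c3, c4, c5, -⟩ := gg_Cd ρ M G u hu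
      refine ⟨c2, ?_, c4, ?_, c1⟩
      · rw [c3]; push_cast; ring
      · rw [c5]; push_cast; ring
    · refine con_P_gg hp ρ M G (fun a b c m i j => hG1 a b c m i j) f hf hM ?_
      intro h0 h1 i0 i1 a0 a1 n hi ha
      exact hG2 h0 h1 (sm n) (by omega) i0 i1 a0 a1 n hi ha rfl

end Pool.Agent.T2H37.LB
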