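import Pool.Agent.T2H37.LB.StmA

set_option autoImplicit false

namespace Pool.Agent.T2H37.LB

open Finset Polynomial

namespace A2

variable {k : Type} [Field k] {p m : ℕ}

/-- the solutions of length `κ + 1` -/
def S (M0 M1 M2 : (Fin p → k) →ₗ[k] (Fin m → k)) (κ : ℕ) :
    Submodule k (Fin (κ + 1) → Fin p → k) where
  carrier := {v | ∀ (j : ℕ) (h : j + 2 ≤ κ), M0 (v ⟨j, by omega⟩) + M1 (v ⟨j + 1, by omega⟩) +
    M2 (v ⟨j + 2, by omega⟩) = 0}
  zero_mem' := by
    intro j h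
    simp
  add_mem' := by
    intro a b ha hb j h
    have h1 := ha j h
    have h2 := hb j h
    simp only [Pi.add_apply, map_add]
    have h3 := congrArg₂ (· + ·) h1 h2
    simp only [add_zero] at h3
    rw [← h3]
    abel
  smul_mem' := by
    intro c a ha j h
    have h1 := ha j h
    simp only [Pi.smul_apply, map_smul]
    rw [← smul_add, ← smul_add, h1, smul_zero]

variable (M0 M1 M2 : (Fin p → k) →ₗ[k] (Fin m → k))

/-- drop the last entry -/
def dl (κ : ℕ) : S M0 M1 M2 (κ + 1) →ₗ[k] S M0 M1 M2 κ where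
  toFun v := ⟨fun i => v.1 i.castSucc, fun j h => v.2 j (by omega)⟩
  map_add' _ _ := rfl
  map_smul' _ _ := rfl

/-- drop the first entry -/
def df (κ : ℕ) : S M0 M1 M2 (κ + 1) →ₗ[k] S M0 M1 M2 κ where
  toFun v := ⟨fun i => v.1 i.succ, fun j h => v.2 (j + 1) (by omega)⟩
  map_add' _ _ := rfl
  map_smul' _ _ := rfl

theorem dl_inj (h2 : ∀ v, M2 v = 0 → v = 0) (κ : ℕ) (hκ : 1 ≤ κ) :
    Function.Injective (dl M0 M1 M2 κ) := by
  rw [injective_iff_map_eq_zero]
  intro v hv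
  have h1 : ∀ i : Fin (κ + 1), v.1 i.castSucc = 0 := fun i =>
    congrFun (congrArg Subtype.val hv) i
  have h3 := v.2 (κ - 1) (by omega)
  have e1 := h1 ⟨κ - 1, by omega⟩
  have e2 := h1 ⟨κ - 1 + 1, by omega⟩
  have e3 : v.1 ⟨κ - 1 + 2, by omega⟩ = 0 := by
    apply h2
    have e1' : v.1 ⟨κ - 1, by omega⟩ = 0 := e1
    have e2' : v.1 ⟨κ - 1 + 1, by omega⟩ = 0 := e2
    rw [e1', e2', map_zero, map_zero, zero_add, zero_add] at h3
    exact h3
  apply Subtype.ext
  funext i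
  by_cases hi : (i : ℕ) < κ + 1
  · exact h1 ⟨i, hi⟩
  · have hi' : i = ⟨κ - 1 + 2, by omega⟩ := by
      apply Fin.ext
      have := i.2
      simp only
      omega
    rw [hi']
    exact e3

theorem main (M0 M1 M2 : (Fin p → k) →ₗ[k] (Fin m → k)) [IsAlgClosed k]
    (hM : ∀ a0 a1 : k, (a0 ≠ 0 ∨ a1 ≠ 0) → ∀ v,
      a0 ^ 2 • M0 v + (a0 * a1) • M1 v + a1 ^ 2 • M2 v = 0 → v = 0) :
    ∃ N : ℕ, 1 ≤ N ∧ S M0 M1 M2 N = ⊥ := by
  have h2 : ∀ v, M2 v = 0 → v = 0 := by
    intro v hv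
    apply hM 0 1 (Or.inr one_ne_zero)
    rw [hv]
    simp
  by_contra hcon
  push Not at hcon
  -- the dimensions
  have hanti : ∀ κ, 1 ≤ κ → Module.finrank k (S M0 M1 M2 (κ + 1)) ≤
      Module.finrank k (S M0 M1 M2 κ) := fun κ hκ =>
    LinearMap.finrank_le_finrank_of_injective (dl_inj M0 M1 M2 h2 κ hκ)
  obtain ⟨n, hn1, hn⟩ : ∃ n, 1 ≤ n ∧ Module.finrank k (S M0 M1 M2 (n + 1)) =
      Module.finrank k (S M0 M1 M2 n) := by
    by_contra h
    push Not at h
    have key : ∀ n, Module.finrank k (S M0 M1 M2 (n + 1)) + n ≤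
        Module.finrank k (S M0 M1 M2 1) := by
      intro n
      induction n with
      | zero => simp
      | succ n ih =>
        have h1 := hanti (n + 1) (by omega)
        have h3 := h (n + 1) (by omega)
        omega
    have := key (Module.finrank k (S M0 M1 M2 1) + 1)
    omega
  have hbij : Function.Bijective (dl M0 M1 M2 n) := by
    have hinj := dl_inj M0 M1 M2 h2 n hn1
    exact ⟨hinj, (LinearMap.injective_iff_surjective_of_finrank_eq_finrank hn).1 hinj⟩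
  let e := LinearEquiv.ofBijective (dl M0 M1 M2 n) hbij
  let T : Module.End k (S M0 M1 M2 n) := (df M0 M1 M2 n) ∘ₗ e.symm.toLinearMap
  have hnt : Nontrivial (S M0 M1 M2 n) := by
    rw [Submodule.nontrivial_iff_ne_bot]
    exact hcon n hn1
  obtain ⟨c, hc⟩ := Module.End.exists_eigenvalue T
  obtain ⟨w, hw⟩ := hc.exists_hasEigenvector
  have hTw : T w = c • w := hw.apply_eq_smul
  have hw0 : w ≠ 0 := hw.2
  set u := e.symm w with hu
  have hu1 : dl M0 M1 M2 n u = w := e.apply_symm_apply w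
  have hu2 : df M0 M1 M2 n u = c • w := hTw
  -- geometric progression
  have hstep : ∀ (j : ℕ) (h : j + 1 < n + 1), w.1 ⟨j + 1, h⟩ = c • w.1 ⟨j, by omega⟩ := by
    intro j h
    have e1 : w.1 ⟨j + 1, h⟩ = u.1 ⟨j + 1, by omega⟩ := by
      rw [← hu1]
      rfl
    have e2 : u.1 ⟨j + 1, by omega⟩ = (df M0 M1 M2 n u).1 ⟨j, by omega⟩ := rfl
    rw [e1, e2, hu2]
    rfl
  have hpow : ∀ (j : ℕ) (h : j < n + 1), w.1 ⟨j, h⟩ = c ^ j • w.1 ⟨0, by omega⟩ := by
    intro j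
    induction j with
    | zero =>
      intro h
      rw [pow_zero, one_smul]
    | succ j ih =>
      intro h
      rw [hstep j h, ih (by omega), smul_smul, pow_succ, mul_comm]
  have hw00 : w.1 ⟨0, by omega⟩ ≠ 0 := by
    intro h
    apply hw0
    apply Subtype.ext
    funext i
    have := hpow i i.2
    rw [h, smul_zero] at this
    exact this
  -- the relation for u
  have h0 := u.2 0 (by omega)
  have e0 : u.1 ⟨0, by omega⟩ = w.1 ⟨0, by omega⟩ := by
    rw [← hu1]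
    rfl
  have e1 : u.1 ⟨0 + 1, by omega⟩ = c • w.1 ⟨0, by omega⟩ := by
    have : u.1 ⟨0 + 1, by omega⟩ = (df M0 M1 M2 n u).1 ⟨0, by omega⟩ := rfl
    rw [this, hu2]
    rfl
  have e2 : u.1 ⟨0 + 2, by omega⟩ = c ^ 2 • w.1 ⟨0, by omega⟩ := by
    have : u.1 ⟨0 + 2, by omega⟩ = (df M0 M1 M2 n u).1 ⟨0 + 1, by omega⟩ := rfl
    rw [this, hu2]
    have h3 := hpow 1 (by omega)
    show c • w.1 ⟨0 + 1, by omega⟩ = _
    have h4 : w.1 ⟨0 + 1, by omega⟩ = c ^ 1 • w.1 ⟨0, by omega⟩ := h3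
    rw [h4, smul_smul, pow_one, pow_two]
  rw [e0, e1, e2, map_smul, map_smul] at h0
  apply hw00
  apply hM 1 c (Or.inl one_ne_zero)
  rw [one_pow, one_smul, one_mul]
  exact h0

end A2

theorem MatL_proof (k : Type) [Field k] [IsAlgClosed k] : MatL k := by
  intro p m M0 M1 M2 hM
  obtain ⟨N, hN1, hN⟩ := A2.main M0 M1 M2 hM
  refine ⟨N, fun κ hκ v hv j hj => ?_⟩
  -- window of length `N + 1` containing `j`
  obtain ⟨s, hs1, hs2⟩ : ∃ s, s ≤ j ∧ j ≤ s + N ∧ s + N ≤ κ := by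
    by_cases h : j + N ≤ κ
    · exact ⟨j, le_rfl, by omega, h⟩
    · exact ⟨κ - N, by omega, by omega, by omega⟩
  have hmem : (fun i : Fin (N + 1) => v (s + i)) ∈ A2.S M0 M1 M2 N := by
    intro i hi
    exact hv (s + i) (by omega)
  rw [hN, Submodule.mem_bot] at hmem
  have h1 := congrFun hmem ⟨j - s, by omega⟩
  have h2 : s + (j - s) = j := by omega
  simp only [Pi.zero_apply] at h1
  rw [h2] at h1
  exact h1

end Pool.Agent.T2H37.LB
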