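import Pool.Agent.T2H37.LB.StmA

/-!
# LB, package A3: `ThmK` from `LemC` and `MatL`
-/

set_option autoImplicit false

namespace Pool.Agent.T2H37.LB

open Finset Polynomial

section A3

variable (k : Type) [Field k]

/-- `MatL` for finite-dimensional spaces -/
private theorem matL_gen (h2 : MatL k) (V W : Type) [AddCommGroup V] [Module k V]
    [FiniteDimensional k V] [AddCommGroup W] [Module k W] (M0 M1 M2 : V →ₗ[k] W)
    (h : ∀ a0 a1 : k, (a0 ≠ 0 ∨ a1 ≠ 0) → ∀ v,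
      a0 ^ 2 • M0 v + (a0 * a1) • M1 v + a1 ^ 2 • M2 v = 0 → v = 0) :
    ∃ N : ℕ, ∀ κ ≥ N, ∀ v : ℕ → V,
      (∀ j, j + 2 ≤ κ → M0 (v j) + M1 (v (j + 1)) + M2 (v (j + 2)) = 0) → ∀ j ≤ κ, v j = 0 := by
  classical
  set U : Submodule k W := LinearMap.range M0 ⊔ LinearMap.range M1 ⊔ LinearMap.range M2 with hU
  haveI : FiniteDimensional k U := by
    rw [hU]
    infer_instance
  have u0 : ∀ v, M0 v ∈ U := fun v =>
    Submodule.mem_sup_left (Submodule.mem_sup_left (LinearMap.mem_range_self M0 v))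
  have u1 : ∀ v, M1 v ∈ U := fun v =>
    Submodule.mem_sup_left (Submodule.mem_sup_right (LinearMap.mem_range_self M1 v))
  have u2 : ∀ v, M2 v ∈ U := fun v =>
    Submodule.mem_sup_right (LinearMap.mem_range_self M2 v)
  let eV := (Module.finBasis k V).equivFun
  let eU := (Module.finBasis k U).equivFun
  let L0 := eU.toLinearMap ∘ₗ (M0.codRestrict U u0) ∘ₗ eV.symm.toLinearMap
  let L1 := eU.toLinearMap ∘ₗ (M1.codRestrict U u1) ∘ₗ eV.symm.toLinearMap
  let L2 := eU.toLinearMap ∘ₗ (M2.codRestrict U u2) ∘ₗ eV.symm.toLinearMap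
  have hL : ∀ (c0 c1 c2 : k) (x y z : V), c0 • L0 (eV x) + c1 • L1 (eV y) + c2 • L2 (eV z) =
      eU ⟨c0 • M0 x + c1 • M1 y + c2 • M2 z, by
        exact U.add_mem (U.add_mem (U.smul_mem _ (u0 _)) (U.smul_mem _ (u1 _)))
          (U.smul_mem _ (u2 _))⟩ := by
    intro c0 c1 c2 x y z
    simp only [L0, L1, L2, LinearMap.comp_apply, LinearEquiv.coe_coe, LinearEquiv.symm_apply_apply]
    rw [← map_smul eU, ← map_smul eU, ← map_smul eU, ← map_add eU, ← map_add eU]
    rfl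
  obtain ⟨N, hN⟩ := h2 _ _ L0 L1 L2 (by
    intro a0 a1 ha v hv
    obtain ⟨x, rfl⟩ := eV.surjective v
    rw [hL] at hv
    have h3 := (LinearEquiv.map_eq_zero_iff eU).1 hv
    have h4 := congrArg Subtype.val h3
    rw [h a0 a1 ha x h4, map_zero])
  refine ⟨N, fun κ hκ v hv j hj => ?_⟩
  have h5 := hN κ hκ (fun j => eV (v j)) (by
    intro j hj
    have h6 := hL 1 1 1 (v j) (v (j + 1)) (v (j + 2))
    simp only [one_smul] at h6
    change L0 (eV (v j)) + L1 (eV (v (j + 1))) + L2 (eV (v (j + 2))) = 0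
    rw [h6, LinearEquiv.map_eq_zero_iff]
    exact Subtype.ext (hv j hj)) j hj
  exact (LinearEquiv.map_eq_zero_iff eV).1 h5

/-- the map `f ↦ (A f_i + B f_{i+1} + C f_{i+2})_i` -/
private noncomputable def mp (ρ : ℕ) (A B C : k[X]) :
    (Fin (ρ + 4) → Polynomial.degreeLT k (ρ + 1)) →ₗ[k] (Fin (ρ + 2) → k[X]) :=
  LinearMap.pi fun i =>
    (LinearMap.mulLeft k A) ∘ₗ (Polynomial.degreeLT k (ρ + 1)).subtype ∘ₗ
      LinearMap.proj (⟨i, by omega⟩ : Fin (ρ + 4)) +
    (LinearMap.mulLeft k B) ∘ₗ (Polynomial.degreeLT k (ρ + 1)).subtype ∘ₗ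
      LinearMap.proj (⟨i + 1, by omega⟩ : Fin (ρ + 4)) +
    (LinearMap.mulLeft k C) ∘ₗ (Polynomial.degreeLT k (ρ + 1)).subtype ∘ₗ
      LinearMap.proj (⟨i + 2, by omega⟩ : Fin (ρ + 4))

private theorem mp_apply (ρ : ℕ) (A B C : k[X]) (v : Fin (ρ + 4) → Polynomial.degreeLT k (ρ + 1))
    (i : Fin (ρ + 2)) : mp k ρ A B C v i = A * (v ⟨i, by omega⟩ : k[X]) +
      B * (v ⟨i + 1, by omega⟩ : k[X]) + C * (v ⟨i + 2, by omega⟩ : k[X]) := rfl

theorem ThmK_proof (h1 : LemC k) (h2 : MatL k) : ThmK k := by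
  classical
  intro ρ
  haveI : FiniteDimensional k (Polynomial.degreeLT k (ρ + 1)) :=
    Module.Finite.equiv (Polynomial.degreeLTEquiv k (ρ + 1)).symm
  obtain ⟨N, hN⟩ := matL_gen k h2 (Fin (ρ + 4) → Polynomial.degreeLT k (ρ + 1))
    (Fin (ρ + 2) → k[X]) (mp k ρ (1 - X ^ 2) 0 (-(1 + X ^ 2))) (mp k ρ 0 (C 4 * X) 0)
    (mp k ρ (-(1 + X ^ 2)) 0 (-(1 - X ^ 2))) (by
      intro a0 a1 ha v hv
      set f : ℕ → k[X] := fun i => if h : i < ρ + 4 then (v ⟨i, h⟩ : k[X]) else 0 with hf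
      have hfi : ∀ (i : ℕ) (h : i < ρ + 4), f i = (v ⟨i, h⟩ : k[X]) := fun i h => by
        simp only [hf, dif_pos h]
      have h3 := h1 ρ (ρ + 3) le_rfl a0 a1 ha f (by
        intro i hi
        rw [hfi i (by omega)]
        have h4 := (v ⟨i, by omega⟩).2
        rw [Polynomial.mem_degreeLT] at h4
        by_cases h0 : (v ⟨i, by omega⟩ : k[X]) = 0
        · rw [h0]; simp
        · have h5 := (Polynomial.natDegree_lt_iff_degree_lt h0).2 h4
          omega) (by
        intro i hi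
        have h4 := congrFun hv ⟨i, by omega⟩
        simp only [Pi.add_apply, Pi.smul_apply, mp_apply, Pi.zero_apply] at h4
        rw [← hfi i, ← hfi (i + 1), ← hfi (i + 2)] at h4
        unfold Rpt
        refine Eq.trans ?_ h4
        simp only [Polynomial.smul_eq_C_mul, map_sub, map_add, map_mul, map_pow]
        ring)
      funext i
      apply Subtype.ext
      rw [← hfi i i.2]
      exact h3 i (by omega))
  refine ⟨N, fun τ κ hτ hκ g hg hR i hi j hj => ?_⟩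
  obtain ⟨i0, hi0, hi1, hi2⟩ : ∃ i0, i0 + (ρ + 3) ≤ τ ∧ i0 ≤ i ∧ i ≤ i0 + (ρ + 3) :=
    ⟨min i (τ - (ρ + 3)), by omega, by omega, by omega⟩
  set v : ℕ → Fin (ρ + 4) → Polynomial.degreeLT k (ρ + 1) := fun j i =>
    if h : g (i0 + i) j ∈ Polynomial.degreeLT k (ρ + 1) then ⟨_, h⟩ else 0 with hv
  have hvg : ∀ (j : ℕ) (i : Fin (ρ + 4)), j ≤ κ → (v j i : k[X]) = g (i0 + i) j := by
    intro j i hj
    have h : g (i0 + i) j ∈ Polynomial.degreeLT k (ρ + 1) := by
      rw [Polynomial.mem_degreeLT]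
      have h3 := hg (i0 + i) (by have := i.2; omega) j hj
      refine lt_of_le_of_lt Polynomial.degree_le_natDegree ?_
      exact_mod_cast Nat.lt_succ_of_le h3
    simp only [hv, dif_pos h]
  have h3 := hN κ hκ v (by
    intro j hj
    funext i
    simp only [Pi.add_apply, mp_apply, Pi.zero_apply]
    rw [hvg _ _ (by omega), hvg _ _ (by omega), hvg _ _ (by omega), hvg _ _ (by omega),
      hvg _ _ (by omega), hvg _ _ (by omega), hvg _ _ (by omega), hvg _ _ (by omega),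
      hvg _ _ (by omega)]
    have h4 := hR (i0 + i) j (by have := i.2; omega) hj
    unfold Rop at h4
    refine Eq.trans ?_ h4
    simp only [← add_assoc]
    ring) j hj
  have h4 := congrFun h3 ⟨i - i0, by omega⟩
  have h5 := hvg j ⟨i - i0, by omega⟩ hj
  rw [h4] at h5
  have h6 : i0 + (i - i0) = i := by omega
  simp only [h6] at h5
  exact h5.symm

end A3

end Pool.Agent.T2H37.LB
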