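import Pool.Agent.T2H37.LB.StmA

/-!
# LB, package A4: surjectivity of the operator `Rop` for `2 ≤ τ ≤ ρ + 2`
-/

set_option autoImplicit false

namespace Pool.Agent.T2H37.LB

open Finset Polynomial

namespace A4

variable {k : Type} [Field k]

/-- the relation evaluated at `T = 1` -/
theorem evzero [CharZero k] (ρ τ : ℕ) (h2 : 2 ≤ τ) (hτ : τ ≤ ρ + 2) (f : ℕ → ℕ → k)
    (h0 : ∀ c, f 0 c = 0) (h1 : ∀ c, f 1 c = 0) (hbig : ∀ i c, τ < i → f i c = 0)
    (hrel : ∀ i c, i ≤ τ → c ≤ ρ → f (i + 2) (c + 2) = 2 * f (i + 1) (c + 1) - f i c) :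
    ∀ i c, c ≤ ρ + 2 → f i c = 0 := by
  -- points with `i ≤ c`
  have hA : ∀ i c, c ≤ ρ + 2 → i ≤ c → f i c = 0 := by
    intro i
    induction i using Nat.strong_induction_on with
    | _ i ih =>
      intro c hc hic
      rcases i with _ | _ | i
      · exact h0 c
      · exact h1 c
      · by_cases hi : i ≤ τ
        · obtain ⟨c', rfl⟩ : ∃ c', c = c' + 2 := ⟨c - 2, by omega⟩
          rw [hrel i c' hi (by omega), ih (i + 1) (by omega) (c' + 1) (by omega) (by omega),
            ih i (by omega) c' (by omega) (by omega)]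
          ring
        · exact hbig _ _ (by omega)
  -- the diagonal `i = c + 1`
  have hB : ∀ s, s ≤ τ → f (s + 1) s = s * f 2 1 := by
    intro s
    induction s using Nat.strong_induction_on with
    | _ s ih =>
      intro hs
      rcases s with _ | _ | s
      · rw [h1]; simp
      · simp
      · have e1 := ih (s + 1) (by omega) (by omega)
        have e2 := ih s (by omega) (by omega)
        have e3 := hrel (s + 1) s (by omega) (by omega)
        have e4 : f (s + 1 + 1 + 1) (s + 1 + 1) = f (s + 1 + 2) (s + 2) := rfl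
        rw [e4, e3, e1, e2]
        push_cast
        ring
  have hlam : f 2 1 = 0 := by
    have h := hB τ le_rfl
    rw [hbig (τ + 1) τ (by omega)] at h
    have hτ0 : (τ : k) ≠ 0 := Nat.cast_ne_zero.2 (by omega)
    rcases mul_eq_zero.1 h.symm with h3 | h3
    · exact absurd h3 hτ0
    · exact h3
  -- points with `c + 2 ≤ i`
  have hC : ∀ n i c, τ + 1 - i = n → c + 2 ≤ i → f i c = 0 := by
    intro n
    induction n using Nat.strong_induction_on with
    | _ n ih =>
      intro i c hn hic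
      by_cases hi : i ≤ τ
      · have e := hrel i c hi (by omega)
        have e1 : f (i + 1) (c + 1) = 0 := ih (τ + 1 - (i + 1)) (by omega) _ _ rfl (by omega)
        have e2 : f (i + 2) (c + 2) = 0 := by
          by_cases hi2 : i + 2 ≤ τ
          · exact ih (τ + 1 - (i + 2)) (by omega) _ _ rfl (by omega)
          · exact hbig _ _ (by omega)
        rw [e1, e2] at e
        linear_combination e
      · exact hbig _ _ (by omega)
  intro i c hc
  by_cases h : i ≤ c
  · exact hA i c hc h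
  · by_cases h' : c + 2 ≤ i
    · exact hC _ i c rfl h'
    · have : i = c + 1 := by omega
      subst this
      by_cases hcτ : c ≤ τ
      · rw [hB c hcτ, hlam, mul_zero]
      · exact hbig _ _ (by omega)

theorem polyzero [CharZero k] (ρ τ : ℕ) (h2 : 2 ≤ τ) (hτ : τ ≤ ρ + 2) (n : ℕ) :
    ∀ Q : ℕ → ℕ → k[X], (∀ i c, (Q i c).degree < n) → (∀ c, Q 0 c = 0) → (∀ c, Q 1 c = 0) →
      (∀ i c, τ < i → Q i c = 0) →
      (∀ i c, i ≤ τ → c ≤ ρ → (1 - X ^ 2) * Q (i + 2) c - (1 + X ^ 2) * Q (i + 2) (c + 2)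
        - (1 + X ^ 2) * Q i c - (1 - X ^ 2) * Q i (c + 2) + 4 * X * Q (i + 1) (c + 1) = 0) →
      ∀ i c, c ≤ ρ + 2 → Q i c = 0 := by
  induction n with
  | zero =>
    intro Q hd _ _ _ _ i c _
    have := hd i c
    rw [Nat.cast_zero] at this
    by_contra h
    exact absurd this (not_lt.2 (zero_le_degree_iff.2 h))
  | succ n ih =>
    intro Q hd h0 h1 hbig hrel
    have hev : ∀ i c, c ≤ ρ + 2 → (Q i c).eval 1 = 0 := by
      refine evzero ρ τ h2 hτ (fun i c => (Q i c).eval 1) (fun c => by simp [h0 c])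
        (fun c => by simp [h1 c]) (fun i c h => by simp [hbig i c h]) ?_
      intro i c hi hc
      have h := congrArg (Polynomial.eval 1) (hrel i c hi hc)
      simp only [eval_add, eval_sub, eval_mul, eval_pow, eval_X, eval_one, eval_zero,
        eval_ofNat] at h
      have h22 : (2 : k) ≠ 0 := two_ne_zero
      apply mul_left_cancel₀ h22
      linear_combination -h
    set Q' : ℕ → ℕ → k[X] := fun i c => if c ≤ ρ + 2 then Q i c /ₘ (X - C 1) else 0 with hQ'
    have hfac : ∀ i c, c ≤ ρ + 2 → Q i c = (X - C 1) * Q' i c := by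
      intro i c hc
      simp only [hQ', if_pos hc]
      exact (mul_divByMonic_eq_iff_isRoot.2 (hev i c hc)).symm
    have hX : (X - C (1 : k)) ≠ 0 := X_sub_C_ne_zero 1
    have hz : ∀ i c, (c ≤ ρ + 2 → Q i c = 0) → Q' i c = 0 := by
      intro i c h
      by_cases hc : c ≤ ρ + 2
      · have h3 := hfac i c hc
        rw [h hc] at h3
        rcases mul_eq_zero.1 h3.symm with h4 | h4
        · exact absurd h4 hX
        · exact h4
      · simp only [hQ', if_neg hc]
    have key := ih Q' ?_ (fun c => hz 0 c fun _ => h0 c) (fun c => hz 1 c fun _ => h1 c)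
      (fun i c h => hz i c fun _ => hbig i c h) ?_
    · intro i c hc
      rw [hfac i c hc, key i c hc, mul_zero]
    · intro i c
      by_cases hc : c ≤ ρ + 2
      · have h3 := hd i c
        rw [hfac i c hc, degree_mul, degree_X_sub_C] at h3
        by_cases hq : Q' i c = 0
        · rw [hq, degree_zero]
          exact WithBot.bot_lt_coe n
        · rw [degree_eq_natDegree hq] at h3 ⊢
          have h4 : 1 + (Q' i c).natDegree < n + 1 := by
            exact_mod_cast h3
          have h5 : (Q' i c).natDegree < n := by omega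
          exact_mod_cast h5
      · simp only [hQ', if_neg hc, degree_zero]
        exact WithBot.bot_lt_coe n
    · intro i c hi hc
      have h3 := hrel i c hi hc
      rw [hfac (i + 2) c (by omega), hfac (i + 2) (c + 2) (by omega), hfac i c (by omega),
        hfac i (c + 2) (by omega), hfac (i + 1) (c + 1) (by omega)] at h3
      apply mul_left_cancel₀ hX
      rw [mul_zero]
      linear_combination h3

/-- the value of the transposed operator on a basis vector -/
noncomputable def bas (x : ℕ × ℕ × ℕ) : (ℕ × ℕ × ℕ) →₀ k :=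
  (Finsupp.single (x.1 + 2, x.2.1 + 2, x.2.2) 1 - Finsupp.single (x.1 + 2, x.2.1 + 2, x.2.2 + 2) 1)
    - (Finsupp.single (x.1, x.2.1, x.2.2) 1 - Finsupp.single (x.1, x.2.1, x.2.2 + 2) 1)
    - (Finsupp.single (x.1, x.2.1 + 2, x.2.2) 1 + Finsupp.single (x.1, x.2.1 + 2, x.2.2 + 2) 1)
    - (Finsupp.single (x.1 + 2, x.2.1, x.2.2) 1 + Finsupp.single (x.1 + 2, x.2.1, x.2.2 + 2) 1)
    + (4 : k) • Finsupp.single (x.1 + 1, x.2.1 + 1, x.2.2 + 1) 1

noncomputable def Lm : ((ℕ × ℕ × ℕ) →₀ k) →ₗ[k] ((ℕ × ℕ × ℕ) →₀ k) :=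
  Finsupp.linearCombination k bas

noncomputable def Gm (i j : ℕ) : ((ℕ × ℕ × ℕ) →₀ k) →ₗ[k] k[X] :=
  Finsupp.linearCombination k fun x => if x.1 = i ∧ x.2.1 = j then (X : k[X]) ^ x.2.2 else 0

theorem Gm_single (i j : ℕ) (x : ℕ × ℕ × ℕ) (b : k) :
    Gm i j (Finsupp.single x b) = if x.1 = i ∧ x.2.1 = j then C b * (X : k[X]) ^ x.2.2 else 0 := by
  unfold Gm
  rw [Finsupp.linearCombination_single]
  split_ifs
  · rw [smul_eq_C_mul]
  · rw [smul_zero]

theorem coeffm (b : k) (c0 c : ℕ) : ((1 - X ^ 2) * (C b * X ^ c0) : k[X]).coeff c =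
    (if c0 = c then b else 0) - (if c0 + 2 = c then b else 0) := by
  have e : ((1 - X ^ 2) * (C b * X ^ c0) : k[X]) = C b * X ^ c0 - C b * X ^ (c0 + 2) := by ring
  rw [e, coeff_sub, coeff_C_mul_X_pow, coeff_C_mul_X_pow]
  simp only [eq_comm]

theorem coeffp (b : k) (c0 c : ℕ) : ((1 + X ^ 2) * (C b * X ^ c0) : k[X]).coeff c =
    (if c0 = c then b else 0) + (if c0 + 2 = c then b else 0) := by
  have e : ((1 + X ^ 2) * (C b * X ^ c0) : k[X]) = C b * X ^ c0 + C b * X ^ (c0 + 2) := by ring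
  rw [e, coeff_add, coeff_C_mul_X_pow, coeff_C_mul_X_pow]
  simp only [eq_comm]

theorem coeff4 (b : k) (c0 c : ℕ) : (C 4 * X * (C b * X ^ c0) : k[X]).coeff c =
    4 * (if c0 + 1 = c then b else 0) := by
  have e : (C 4 * X * (C b * X ^ c0) : k[X]) = C 4 * (C b * X ^ (c0 + 1)) := by ring
  rw [e, coeff_C_mul, coeff_C_mul_X_pow]
  simp only [eq_comm]

theorem Lm_apply (a : (ℕ × ℕ × ℕ) →₀ k) (i j c : ℕ) :
    Lm a (i + 2, j + 2, c) = (Rop k (fun i j => Gm i j a) i j).coeff c := by
  induction a using Finsupp.induction_linear with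
  | zero => simp [Rop]
  | add a b ha hb =>
    rw [map_add, Finsupp.add_apply, ha, hb, ← coeff_add]
    congr 1
    simp only [Rop, map_add]
    ring
  | single x b =>
    obtain ⟨i0, j0, c0⟩ := x
    have hl : Lm (Finsupp.single (i0, j0, c0) b) = b • bas (i0, j0, c0) := by
      unfold Lm
      rw [Finsupp.linearCombination_single]
    rw [hl]
    simp only [Rop, Gm_single, mul_sub, mul_add, mul_ite, mul_zero, coeff_add, coeff_sub]
    have hc : ∀ (p : Prop) [Decidable p] (q : k[X]), (if p then q else 0 : k[X]).coeff c =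
        if p then q.coeff c else 0 := by
      intro p _ q
      split_ifs <;> simp
    simp only [hc, coeffm, coeffp, coeff4]
    simp only [bas, Finsupp.smul_apply, Finsupp.add_apply, Finsupp.sub_apply,
      Finsupp.single_apply, Prod.mk.injEq, smul_eq_mul, Nat.add_right_cancel_iff]
    by_cases h1 : i0 = i ∧ j0 = j
    · obtain ⟨rfl, rfl⟩ := h1
      simp
      split_ifs <;> ring
    by_cases h2 : i0 = i + 2 ∧ j0 = j + 2
    · obtain ⟨rfl, rfl⟩ := h2
      simp
      split_ifs <;> ring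
    by_cases h3 : i0 = i + 2 ∧ j0 = j
    · obtain ⟨rfl, rfl⟩ := h3
      simp
      split_ifs <;> ring
    by_cases h4 : i0 = i ∧ j0 = j + 2
    · obtain ⟨rfl, rfl⟩ := h4
      simp
      split_ifs <;> ring
    by_cases h5 : i0 = i + 1 ∧ j0 = j + 1
    · obtain ⟨rfl, rfl⟩ := h5
      simp
      split_ifs <;> ring
    simp only [if_neg h1, if_neg h2, if_neg h3, if_neg h4, if_neg h5]
    have g1 : ∀ q, ¬ (i0 = i ∧ j0 = j ∧ q) := fun q hq => h1 ⟨hq.1, hq.2.1⟩
    have g2 : ∀ q, ¬ (i0 = i + 2 ∧ j0 = j + 2 ∧ q) := fun q hq => h2 ⟨hq.1, hq.2.1⟩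
    have g3 : ∀ q, ¬ (i0 = i + 2 ∧ j0 = j ∧ q) := fun q hq => h3 ⟨hq.1, hq.2.1⟩
    have g4 : ∀ q, ¬ (i0 = i ∧ j0 = j + 2 ∧ q) := fun q hq => h4 ⟨hq.1, hq.2.1⟩
    have g5 : ∀ q, ¬ (i0 = i + 1 ∧ j0 = j + 1 ∧ q) := fun q hq => h5 ⟨hq.1, hq.2.1⟩
    simp only [if_neg (g1 _), if_neg (g2 _), if_neg (g3 _), if_neg (g4 _), if_neg (g5 _)]
    ring

theorem Gm_deg (ρ : ℕ) (a : (ℕ × ℕ × ℕ) →₀ k)
    (ha : a ∈ Finsupp.supported k k {x : ℕ × ℕ × ℕ | x.2.2 ≤ ρ}) (i j : ℕ) :
    (Gm i j a).natDegree ≤ ρ := by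
  have h : Gm i j a ∈ Polynomial.degreeLE k ρ := by
    unfold Gm
    rw [Finsupp.linearCombination_apply, Finsupp.sum]
    refine Submodule.sum_mem _ fun x hx => Submodule.smul_mem _ _ ?_
    have hx' : x.2.2 ≤ ρ := (Finsupp.mem_supported k a).1 ha hx
    split_ifs
    · rw [mem_degreeLE]
      exact (degree_X_pow_le _).trans (by exact_mod_cast hx')
    · exact Submodule.zero_mem _
  exact natDegree_le_iff_degree_le.2 (mem_degreeLE.1 h)

/-- the points outside the box -/
def Out (ρ τ κ : ℕ) : Set (ℕ × ℕ × ℕ) :=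
  {x | ¬ (2 ≤ x.1 ∧ x.1 ≤ τ ∧ 2 ≤ x.2.1 ∧ x.2.1 ≤ κ ∧ x.2.2 ≤ ρ + 2)}

theorem top [CharZero k] (ρ τ κ : ℕ) (h2 : 2 ≤ τ) (hτ : τ ≤ ρ + 2) :
    (Finsupp.supported k k {x : ℕ × ℕ × ℕ | x.2.2 ≤ ρ}).map Lm ⊔
      Finsupp.supported k k (Out ρ τ κ) = ⊤ := by
  by_contra hne
  obtain ⟨φ, hφ0, hφ⟩ := Submodule.exists_le_ker_of_lt_top _ (lt_top_iff_ne_top.2 hne)
  set F2 : ℕ → ℕ → ℕ → k := fun i j c => φ (Finsupp.single (i, j, c) 1) with hF2
  have hout : ∀ i j c, ¬ (2 ≤ i ∧ i ≤ τ ∧ 2 ≤ j ∧ j ≤ κ ∧ c ≤ ρ + 2) → F2 i j c = 0 := by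
    intro i j c h
    have hm : Finsupp.single (i, j, c) (1 : k) ∈ Finsupp.supported k k (Out ρ τ κ) :=
      Finsupp.single_mem_supported k _ h
    exact hφ (Submodule.mem_sup_right hm)
  have hrel : ∀ i j c, c ≤ ρ → F2 (i + 2) (j + 2) c - F2 (i + 2) (j + 2) (c + 2)
      - (F2 i j c - F2 i j (c + 2)) - (F2 i (j + 2) c + F2 i (j + 2) (c + 2))
      - (F2 (i + 2) j c + F2 (i + 2) j (c + 2)) + 4 * F2 (i + 1) (j + 1) (c + 1) = 0 := by
    intro i j c hc
    have hm : Finsupp.single (i, j, c) (1 : k) ∈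
        Finsupp.supported k k {x : ℕ × ℕ × ℕ | x.2.2 ≤ ρ} :=
      Finsupp.single_mem_supported k _ hc
    have h : φ (Lm (Finsupp.single (i, j, c) (1 : k))) = 0 :=
      hφ (Submodule.mem_sup_left (Submodule.mem_map_of_mem hm))
    unfold Lm at h
    rw [Finsupp.linearCombination_single, one_smul] at h
    simp only [bas, map_add, map_sub, map_smul, smul_eq_mul] at h
    exact h
  set Q : ℕ → ℕ → k[X] := fun i c => ∑ j ∈ range (κ + 1), C (F2 i j c) * X ^ j with hQ
  have cQ : ∀ i c n, (Q i c).coeff n = F2 i n c := by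
    intro i c n
    simp only [hQ, finsetSum_coeff, coeff_C_mul_X_pow]
    rw [Finset.sum_ite_eq]
    split_ifs with h
    · rfl
    · rw [hout]
      rw [Finset.mem_range] at h
      omega
  have hQz : ∀ i c, c ≤ ρ + 2 → Q i c = 0 := by
    refine polyzero ρ τ h2 hτ (κ + 1) Q ?_ ?_ ?_ ?_ ?_
    · intro i c
      rw [degree_lt_iff_coeff_zero]
      intro m hm
      rw [cQ, hout]
      omega
    · intro c
      ext n
      rw [cQ, coeff_zero, hout]
      omega
    · intro c
      ext n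
      rw [cQ, coeff_zero, hout]
      omega
    · intro i c hi
      ext n
      rw [cQ, coeff_zero, hout]
      omega
    · intro i c _ hc
      have e : ((1 - X ^ 2) * Q (i + 2) c - (1 + X ^ 2) * Q (i + 2) (c + 2)
          - (1 + X ^ 2) * Q i c - (1 - X ^ 2) * Q i (c + 2) + 4 * X * Q (i + 1) (c + 1) : k[X]) =
          Q (i + 2) c - Q (i + 2) c * X ^ 2 - Q (i + 2) (c + 2) - Q (i + 2) (c + 2) * X ^ 2
          - Q i c - Q i c * X ^ 2 - Q i (c + 2) + Q i (c + 2) * X ^ 2
          + C 4 * (Q (i + 1) (c + 1) * X) := by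
        have : (C 4 : k[X]) = 4 := by rw [map_ofNat]
        rw [this]
        ring
      rw [e]
      ext n
      simp only [coeff_add, coeff_sub, coeff_C_mul, coeff_zero]
      rcases n with _ | _ | n
      · simp only [mul_coeff_zero, coeff_X_zero, mul_zero, cQ]
        rw [hout (i + 2) 0 c (by omega), hout (i + 2) 0 (c + 2) (by omega),
          hout i 0 c (by omega), hout i 0 (c + 2) (by omega)]
        simp
      · simp only [coeff_mul_X_pow', zero_add, coeff_mul_X, cQ]
        rw [hout (i + 2) 1 c (by omega), hout (i + 2) 1 (c + 2) (by omega),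
          hout i 1 c (by omega), hout i 1 (c + 2) (by omega), hout (i + 1) 0 (c + 1) (by omega)]
        simp
      · have h1 : ∀ q : k[X], (q * X ^ 2).coeff (n + 2) = q.coeff n := fun q =>
          coeff_mul_X_pow q 2 n
        have h3 : ∀ q : k[X], (q * X).coeff (n + 2) = q.coeff (n + 1) := fun q =>
          coeff_mul_X q (n + 1)
        have h4 : n + 1 + 1 = n + 2 := rfl
        rw [h4]
        simp only [h1, h3, cQ]
        linear_combination hrel i n c hc
  apply hφ0
  apply Finsupp.lhom_ext'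
  rintro ⟨i, j, c⟩
  apply LinearMap.ext_ring
  rw [LinearMap.comp_apply, LinearMap.zero_comp, LinearMap.zero_apply]
  change F2 i j c = 0
  by_cases hc : c ≤ ρ + 2
  · rw [← cQ, hQz i c hc, coeff_zero]
  · exact hout _ _ _ (by omega)

end A4

open A4 in
theorem ThmG_proof (k : Type) [Field k] [CharZero k] : ThmG k := by
  intro ρ τ κ h2 hτ F hF
  set t : (ℕ × ℕ × ℕ) →₀ k := ∑ i ∈ range (τ - 1), ∑ j ∈ range (κ - 1), ∑ c ∈ range (ρ + 3),
    Finsupp.single (i + 2, j + 2, c) ((F i j).coeff c) with ht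
  have ht1 : ∀ i j c, i + 2 ≤ τ → j + 2 ≤ κ → t (i + 2, j + 2, c) = (F i j).coeff c := by
    intro i j c hi hj
    simp only [ht, Finsupp.finsetSum_apply, Finsupp.single_apply, Prod.mk.injEq,
      Nat.add_right_cancel_iff]
    rw [Finset.sum_eq_single i, Finset.sum_eq_single j]
    · by_cases hc : c < ρ + 3
      · rw [Finset.sum_eq_single c]
        · simp
        · intro b _ hb
          simp [hb]
        · intro h
          exact absurd (Finset.mem_range.2 hc) h
      · rw [coeff_eq_zero_of_natDegree_lt (lt_of_le_of_lt (hF i j) (by omega))]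
        apply Finset.sum_eq_zero
        intro b hb
        have : b ≠ c := by
          have := Finset.mem_range.1 hb
          omega
        simp [this]
    · intro b _ hb
      apply Finset.sum_eq_zero
      intro x _
      simp [hb]
    · intro h
      exact absurd (Finset.mem_range.2 (by omega)) h
    · intro b _ hb
      apply Finset.sum_eq_zero
      intro x _
      apply Finset.sum_eq_zero
      intro y _
      simp [hb]
    · intro h
      exact absurd (Finset.mem_range.2 (by omega)) h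
  have htop : t ∈ (Finsupp.supported k k {x : ℕ × ℕ × ℕ | x.2.2 ≤ ρ}).map Lm ⊔
      Finsupp.supported k k (Out ρ τ κ) := by
    rw [top ρ τ κ h2 hτ]
    exact Submodule.mem_top
  obtain ⟨y, hy, o, ho, hyo⟩ := Submodule.mem_sup.1 htop
  obtain ⟨a, ha, rfl⟩ := hy
  refine ⟨fun i j => Gm i j a, fun i j => Gm_deg ρ a ha i j, ?_⟩
  intro i j hi hj
  ext c
  rw [← Lm_apply]
  by_cases hc : c ≤ ρ + 2
  · have h1 : o (i + 2, j + 2, c) = 0 := by
      rw [← Finsupp.notMem_support_iff]
      intro h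
      have := (Finsupp.mem_supported k o).1 ho h
      apply this
      exact ⟨by simp, hi, by simp, hj, hc⟩
    rw [← ht1 i j c hi hj, ← hyo, Finsupp.add_apply, h1, add_zero]
  · rw [coeff_eq_zero_of_natDegree_lt (lt_of_le_of_lt (hF i j) (by omega)), Lm_apply]
    apply coeff_eq_zero_of_natDegree_lt
    have hd := fun i j => Gm_deg ρ a ha i j
    have : (Rop k (fun i j => Gm i j a) i j).natDegree ≤ ρ + 2 := by
      unfold Rop
      have e1 : ((1 - X ^ 2 : k[X])).natDegree ≤ 2 := by compute_degree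
      have e2 : ((1 + X ^ 2 : k[X])).natDegree ≤ 2 := by compute_degree
      have e3 : ((C 4 * X : k[X])).natDegree ≤ 2 := by compute_degree!
      have f1 : ((1 - X ^ 2) * (Gm i j a - Gm (i + 2) (j + 2) a) : k[X]).natDegree ≤ ρ + 2 := by
        refine natDegree_mul_le.trans ?_
        have := natDegree_sub_le_of_le (hd i j) (hd (i + 2) (j + 2))
        rw [max_self] at this
        omega
      have f2 : ((1 + X ^ 2) * (Gm (i + 2) j a + Gm i (j + 2) a) : k[X]).natDegree ≤ ρ + 2 := by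
        refine natDegree_mul_le.trans ?_
        have := natDegree_add_le_of_degree_le (hd (i + 2) j) (hd i (j + 2))
        omega
      have f3 : (C 4 * X * Gm (i + 1) (j + 1) a : k[X]).natDegree ≤ ρ + 2 := by
        refine natDegree_mul_le.trans ?_
        have := hd (i + 1) (j + 1)
        omega
      have f4 := natDegree_sub_le_of_le f1 f2
      rw [max_self] at f4
      exact natDegree_add_le_of_degree_le f4 f3
    omega

end Pool.Agent.T2H37.LB
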