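import Pool.Agent.T2H37.LB.StmA

/-!
# LB, package A5: `q` kills the image of `psi`
-/

set_option autoImplicit false

namespace Pool.Agent.T2H37.LB

open Finset Polynomial

namespace A5

variable {k : Type} [Field k] {w : ℕ}

/-- the functional on `MvPolynomial` given by a function on exponents -/
noncomputable def ev1 (F : (Fin (w + 1) →₀ ℕ) → k) : MvPolynomial (Fin (w + 1)) k →ₗ[k] k :=
  (MvPolynomial.basisMonomials (Fin (w + 1)) k).constr k F

theorem ev1_apply (F : (Fin (w + 1) →₀ ℕ) → k) (p : MvPolynomial (Fin (w + 1)) k) :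
    ev1 F p = ∑ m ∈ p.support, MvPolynomial.coeff m p * F m := by
  conv_lhs => rw [p.as_sum]
  rw [map_sum]
  refine Finset.sum_congr rfl fun m _ => ?_
  have h : MvPolynomial.monomial m (MvPolynomial.coeff m p) =
      MvPolynomial.coeff m p • (MvPolynomial.basisMonomials (Fin (w + 1)) k m) := by
    rw [MvPolynomial.coe_basisMonomials, MvPolynomial.smul_monomial]
    simp
  rw [h, map_smul, ev1, Module.Basis.constr_basis, smul_eq_mul]

/-- the functional on `Polynomial (MvPolynomial)`; `i` is the shift -/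
noncomputable def ev2 (F : ℕ → (Fin (w + 1) →₀ ℕ) → k) (i : ℕ)
    (P : Polynomial (MvPolynomial (Fin (w + 1)) k)) : k :=
  P.sum fun j p => ev1 (F (i + j)) p

theorem ev2_add (F : ℕ → (Fin (w + 1) →₀ ℕ) → k) (i : ℕ)
    (P Q : Polynomial (MvPolynomial (Fin (w + 1)) k)) :
    ev2 F i (P + Q) = ev2 F i P + ev2 F i Q := by
  rw [ev2, Polynomial.sum_add_index]
  · rfl
  · intro j; rw [map_zero]
  · intro j p q; rw [map_add]

theorem ev2_sum (F : ℕ → (Fin (w + 1) →₀ ℕ) → k) (i : ℕ) {ι : Type} (s : Finset ι)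
    (P : ι → Polynomial (MvPolynomial (Fin (w + 1)) k)) :
    ev2 F i (∑ l ∈ s, P l) = ∑ l ∈ s, ev2 F i (P l) := by
  classical
  induction s using Finset.induction_on with
  | empty => simp [ev2]
  | insert a s ha ih => rw [Finset.sum_insert ha, Finset.sum_insert ha, ev2_add, ih]

theorem ev2_zsmul (F : ℕ → (Fin (w + 1) →₀ ℕ) → k) (i : ℕ) (a : ℤ)
    (P : Polynomial (MvPolynomial (Fin (w + 1)) k)) :
    ev2 F i (a • P) = a • ev2 F i P := by
  let φ : Polynomial (MvPolynomial (Fin (w + 1)) k) →+ k :=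
    { toFun := ev2 F i
      map_zero' := by simp [ev2]
      map_add' := ev2_add F i }
  exact map_zsmul φ a P

theorem ev2_shift (F : ℕ → (Fin (w + 1) →₀ ℕ) → k) (i a : ℕ)
    (P : Polynomial (MvPolynomial (Fin (w + 1)) k)) :
    ev2 F i (X ^ a * P) = ev2 F (i + a) P := by
  induction P using Polynomial.induction_on' with
  | add p q hp hq => rw [mul_add, ev2_add, ev2_add, hp, hq]
  | monomial n c =>
    rw [X_pow_mul_monomial, ev2, ev2, Polynomial.sum_monomial_index, Polynomial.sum_monomial_index]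
    · rw [show i + (n + a) = i + a + n by omega]
    · rw [map_zero]
    · rw [map_zero]

theorem natDegree_th (n : Fin (w + 2) → ℕ) : (th k w n).natDegree ≤ sm n := by
  rw [th]
  refine (natDegree_prod_le _ _).trans ?_
  refine Finset.sum_le_sum fun l _ => ?_
  refine natDegree_pow_le.trans ?_
  have : (C (Wv k w l) + X * C (Wv' k w l)).natDegree ≤ 1 := by
    refine (natDegree_add_le _ _).trans (max_le (by simp) ?_)
    refine natDegree_mul_le.trans ?_
    simp [natDegree_X]
  calc n l * _ ≤ n l * 1 := Nat.mul_le_mul_left _ this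
    _ = n l := mul_one _

theorem psi_eq (F : ℕ → (Fin (w + 1) →₀ ℕ) → k) (i : ℕ) (n : Fin (w + 2) → ℕ) :
    psi k w F i n = ev2 F i (th k w n) := by
  rw [ev2, Polynomial.sum_over_range' _ _ (sm n + 1) (Nat.lt_succ_of_le (natDegree_th n))]
  · rw [psi]
    exact Finset.sum_congr rfl fun j _ => (ev1_apply _ _).symm
  · intro j; rw [map_zero]

theorem th_add (n : Fin (w + 2) → ℕ) (l : Fin (w + 2)) :
    th k w (n + Pi.single l 1) = (C (Wv k w l) + X * C (Wv' k w l)) * th k w n := by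
  rw [th, th]
  simp only [Pi.add_apply, pow_add, Finset.prod_mul_distrib]
  rw [mul_comm]
  congr 1
  rw [Finset.prod_eq_single l]
  · simp
  · intro b _ hb
    simp [Pi.single_apply, hb]
  · simp

theorem telescope : ∑ l : Fin (w + 2), ((-1 : ℤ) ^ (l : ℕ)) •
    ((X : Polynomial (MvPolynomial (Fin (w + 1)) k)) ^ (w + 1 - (l : ℕ)) *
      (C (Wv k w l) + X * C (Wv' k w l))) = 0 := by
  simp only [mul_add, smul_add, Finset.sum_add_distrib]
  have h1 : ∑ l : Fin (w + 2), ((-1 : ℤ) ^ (l : ℕ)) •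
      ((X : Polynomial (MvPolynomial (Fin (w + 1)) k)) ^ (w + 1 - (l : ℕ)) * C (Wv k w l)) =
      ∑ l : Fin (w + 1), ((-1 : ℤ) ^ (l : ℕ)) •
        ((X : Polynomial (MvPolynomial (Fin (w + 1)) k)) ^ (w + 1 - (l : ℕ)) *
          C (MvPolynomial.X l)) := by
    rw [Fin.sum_univ_castSucc]
    have : Wv k w (Fin.last (w + 1)) = 0 := by simp [Wv]
    rw [this, C_0, mul_zero, smul_zero, add_zero]
    refine Finset.sum_congr rfl fun l _ => ?_
    have : Wv k w l.castSucc = MvPolynomial.X l := by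
      have := l.2
      simp [Wv]
      intro h
      omega
    rw [this]
    simp
  have h2 : ∑ l : Fin (w + 2), ((-1 : ℤ) ^ (l : ℕ)) •
      ((X : Polynomial (MvPolynomial (Fin (w + 1)) k)) ^ (w + 1 - (l : ℕ)) *
        (X * C (Wv' k w l))) =
      -∑ l : Fin (w + 1), ((-1 : ℤ) ^ (l : ℕ)) •
        ((X : Polynomial (MvPolynomial (Fin (w + 1)) k)) ^ (w + 1 - (l : ℕ)) *
          C (MvPolynomial.X l)) := by
    rw [Fin.sum_univ_succ]
    have : Wv' k w 0 = 0 := by simp [Wv']
    rw [this, C_0, mul_zero, mul_zero, smul_zero, zero_add, ← Finset.sum_neg_distrib]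
    refine Finset.sum_congr rfl fun l _ => ?_
    have : Wv' k w l.succ = MvPolynomial.X l := by
      simp [Wv']
    rw [this]
    have hl := l.2
    rw [← mul_assoc, ← pow_succ, Fin.val_succ, show w + 1 - ((l : ℕ) + 1) + 1 = w + 1 - (l : ℕ) by omega,
      pow_succ]
    simp
  rw [h1, h2, add_neg_cancel]

end A5

theorem OmB1_proof (k : Type) [Field k] (w : ℕ) : OmB1 k w := by
  intro F i n
  rw [qc]
  have h : ∀ l : Fin (w + 2), psi k w F (i + (w + 1 - (l : ℕ))) (n + Pi.single l 1) =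
      A5.ev2 F i (X ^ (w + 1 - (l : ℕ)) * (C (Wv k w l) + X * C (Wv' k w l)) * th k w n) := by
    intro l
    rw [A5.psi_eq, A5.th_add, mul_assoc, A5.ev2_shift]
  simp only [h]
  simp only [← A5.ev2_zsmul]
  rw [← A5.ev2_sum]
  have h2 : ∑ l : Fin (w + 2), ((-1 : ℤ) ^ (l : ℕ)) •
      ((X : Polynomial (MvPolynomial (Fin (w + 1)) k)) ^ (w + 1 - (l : ℕ)) *
        (C (Wv k w l) + X * C (Wv' k w l)) * th k w n) = 0 := by
    rw [← zero_mul (th k w n), ← A5.telescope (k := k) (w := w), Finset.sum_mul]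
    refine Finset.sum_congr rfl fun l _ => ?_
    rw [smul_mul_assoc]
  rw [h2]
  simp [A5.ev2]

end Pool.Agent.T2H37.LB
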