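import Pool.Agent.T2H37.LB.StmA

/-!
# LB, package A6: `OmB3`

`T^i th n`, `i ≤ A`, `sm n = B`, span all `T^j W^m`, `j ≤ A + B`, `|m| = B`, if `A ≥ w`.
-/

set_option autoImplicit false

namespace Pool.Agent.T2H37.LB.A6

open Finset Polynomial Pool.Agent.T2H37.LB

section

variable (k : Type) [Field k] (w : ℕ)

/-- the pairing of `F` with polynomials, as a linear map -/
noncomputable def pev (F : ℕ → (Fin (w + 1) →₀ ℕ) → k) :
    (MvPolynomial (Fin (w + 1)) k)[X] →ₗ[k] k :=
  Polynomial.lsum (fun j => (MvPolynomial.basisMonomials (Fin (w + 1)) k).constr k (F j))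

lemma constr_eq (G : (Fin (w + 1) →₀ ℕ) → k) (p : MvPolynomial (Fin (w + 1)) k) :
    (MvPolynomial.basisMonomials (Fin (w + 1)) k).constr k G p =
      ∑ m ∈ p.support, MvPolynomial.coeff m p * G m := by
  conv_lhs => rw [p.as_sum]
  rw [map_sum]
  refine Finset.sum_congr rfl fun m _ => ?_
  have h1 : MvPolynomial.monomial m (MvPolynomial.coeff m p) =
      (MvPolynomial.coeff m p) • (MvPolynomial.basisMonomials (Fin (w + 1)) k m) := by
    rw [MvPolynomial.coe_basisMonomials, MvPolynomial.smul_monomial, smul_eq_mul, mul_one]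
  rw [h1, map_smul, Module.Basis.constr_basis, smul_eq_mul]

lemma pev_X_mul (F : ℕ → (Fin (w + 1) →₀ ℕ) → k) (i : ℕ) (p : (MvPolynomial (Fin (w + 1)) k)[X]) :
    pev k w F (X ^ i * p) = pev k w (fun j => F (i + j)) p := by
  induction p using Polynomial.induction_on' with
  | add p q hp hq => rw [mul_add, map_add, map_add, hp, hq]
  | monomial n a =>
    rw [Polynomial.X_pow_mul, Polynomial.monomial_mul_X_pow]
    simp only [pev, Polynomial.lsum_apply, Polynomial.sum_monomial_index, map_zero, add_comm]

lemma natDegree_th (n : Fin (w + 2) → ℕ) : (th k w n).natDegree ≤ sm n := by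
  unfold th sm
  refine (Polynomial.natDegree_prod_le _ _).trans (Finset.sum_le_sum fun l _ => ?_)
  refine (Polynomial.natDegree_pow_le).trans ?_
  have h1 : (C (Wv k w l) + X * C (Wv' k w l)).natDegree ≤ 1 := by
    refine (Polynomial.natDegree_add_le _ _).trans ?_
    refine max_le (by rw [Polynomial.natDegree_C]; omega) ?_
    refine (Polynomial.natDegree_mul_le).trans ?_
    rw [Polynomial.natDegree_C]
    exact (Nat.add_le_add_right Polynomial.natDegree_X_le 0)
  calc n l * _ ≤ n l * 1 := Nat.mul_le_mul_left _ h1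
    _ = n l := mul_one _

lemma psi_eq (F : ℕ → (Fin (w + 1) →₀ ℕ) → k) (i : ℕ) (n : Fin (w + 2) → ℕ) :
    psi k w F i n = pev k w F (X ^ i * th k w n) := by
  rw [pev_X_mul]
  unfold pev psi
  rw [Polynomial.lsum_apply, Polynomial.sum_over_range' _ _ (sm n + 1)]
  · exact Finset.sum_congr rfl fun j _ => (constr_eq k w _ _).symm
  · exact Nat.lt_succ_of_le (natDegree_th k w n)
  · intro j; exact map_zero _

lemma th_add (n : Fin (w + 2) → ℕ) (l : Fin (w + 2)) :
    th k w (n + Pi.single l 1) = (C (Wv k w l) + X * C (Wv' k w l)) * th k w n := by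
  unfold th
  have h1 : ∀ l', (C (Wv k w l') + X * C (Wv' k w l')) ^
      ((n + Pi.single l 1 : Fin (w + 2) → ℕ) l') =
      (if l' = l then (C (Wv k w l') + X * C (Wv' k w l')) else 1) *
        (C (Wv k w l') + X * C (Wv' k w l')) ^ n l' := by
    intro l'
    by_cases h : l' = l
    · subst h
      rw [Pi.add_apply, Pi.single_eq_same, if_pos rfl, pow_succ, mul_comm]
    · rw [Pi.add_apply, Pi.single_eq_of_ne h, if_neg h, one_mul, add_zero]
  rw [Finset.prod_congr rfl fun l' _ => h1 l', Finset.prod_mul_distrib, Finset.prod_ite_eq',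
    if_pos (Finset.mem_univ _)]

end

lemma span_step {k M : Type*} [Field k] [AddCommGroup M] [Module k M] (N : Submodule k M)
    (w A : ℕ) (hA : w ≤ A) (x : ℕ → ℕ → M) (h0 : ∀ i ≤ A, x i 0 ∈ N)
    (h1 : ∀ i ≤ A, ∀ l, l + 1 ≤ w → x i (l + 1) + x (i + 1) l ∈ N)
    (h2 : ∀ i ≤ A, x (i + 1) w ∈ N) : ∀ j ≤ A + 1, ∀ l ≤ w, x j l ∈ N := by
  have ha : ∀ l ≤ w, ∀ j, j + l ≤ A → x j l ∈ N := by
    intro l
    induction l with
    | zero => intro _ j hj; exact h0 j (by omega)
    | succ l ih =>
      intro hl j hj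
      have e1 := h1 j (by omega) l hl
      have e2 := ih (by omega) (j + 1) (by omega)
      have := N.sub_mem e1 e2
      simpa using this
  have hb : ∀ d l, l + d = w → ∀ j, 1 + d ≤ j → j ≤ A + 1 → x j l ∈ N := by
    intro d
    induction d with
    | zero =>
      intro l hl j hj hj'
      obtain rfl : l = w := by omega
      have := h2 (j - 1) (by omega)
      rwa [show j - 1 + 1 = j by omega] at this
    | succ d ih =>
      intro l hl j hj hj'
      have e1 := h1 (j - 1) (by omega) l (by omega)
      rw [show j - 1 + 1 = j by omega] at e1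
      have e2 := ih (l + 1) (by omega) (j - 1) (by omega) (by omega)
      have := N.sub_mem e1 e2
      simpa using this
  intro j hj l hl
  by_cases h : j + l ≤ A
  · exact ha l hl j h
  · exact hb (w - l) l (by omega) j (by omega) hj

section

variable (k : Type) [Field k] (w : ℕ)

/-- the span of `T^i th n` -/
noncomputable def S (A B : ℕ) : Submodule k (MvPolynomial (Fin (w + 1)) k)[X] :=
  Submodule.span k {p | ∃ i ≤ A, ∃ n : Fin (w + 2) → ℕ, sm n = B ∧ p = X ^ i * th k w n}

lemma S_mul (A B : ℕ) (l : Fin (w + 2)) (p : (MvPolynomial (Fin (w + 1)) k)[X])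
    (hp : p ∈ S k w A B) : (C (Wv k w l) + X * C (Wv' k w l)) * p ∈ S k w A (B + 1) := by
  unfold S at hp
  induction hp using Submodule.span_induction with
  | mem p hp =>
    obtain ⟨i, hi, n, hn, rfl⟩ := hp
    refine Submodule.subset_span ⟨i, hi, n + Pi.single l 1, ?_, ?_⟩
    · simp [sm, Finset.sum_add_distrib, hn.symm]
    · rw [th_add]; ring
  | zero => rw [mul_zero]; exact Submodule.zero_mem _
  | add p q _ _ hp hq => rw [mul_add]; exact Submodule.add_mem _ hp hq
  | smul a p _ hp => rw [mul_smul_comm]; exact Submodule.smul_mem _ _ hp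

/-- `W_l` for a natural number `l` -/
noncomputable def Wn (l : ℕ) : MvPolynomial (Fin (w + 1)) k :=
  if h : l < w + 1 then MvPolynomial.X ⟨l, h⟩ else 0

lemma span_all (A : ℕ) (hA : w ≤ A) : ∀ (B : ℕ) (j : ℕ), j ≤ A + B →
    ∀ m : Fin (w + 1) →₀ ℕ, m.degree = B →
      (X ^ j * C (MvPolynomial.monomial m (1 : k)) : (MvPolynomial (Fin (w + 1)) k)[X]) ∈
        S k w A B := by
  intro B
  induction B with
  | zero =>
    intro j hj m hm
    have hm0 : m = 0 := by
      rwa [Finsupp.degree_eq_zero_iff] at hm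
    subst hm0
    refine Submodule.subset_span ⟨j, by omega, 0, by simp [sm], ?_⟩
    simp [th]
  | succ B ih =>
    intro j hj m hm
    obtain ⟨l, hl⟩ : ∃ l, m l ≠ 0 := by
      by_contra hcon
      push Not at hcon
      have : m = 0 := Finsupp.ext hcon
      rw [this] at hm
      simp at hm
    obtain ⟨m', hm'⟩ : ∃ m' : Fin (w + 1) →₀ ℕ, m = Finsupp.single l 1 + m' := by
      have hle : Finsupp.single l 1 ≤ m := by
        rw [Finsupp.single_le_iff]; omega
      exact ⟨m - Finsupp.single l 1, by rw [add_tsub_cancel_of_le hle]⟩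
    have hdeg : m'.degree = B := by
      rw [hm', map_add, Finsupp.degree_single] at hm
      omega
    have hmon : MvPolynomial.monomial m (1 : k) =
        Wn k w l * MvPolynomial.monomial m' (1 : k) := by
      rw [hm', Wn, dif_pos l.2, MvPolynomial.X, MvPolynomial.monomial_mul, one_mul]
    have key := span_step (S k w A (B + 1)) w (A + B) (by omega)
      (fun j l => X ^ j * C (Wn k w l * MvPolynomial.monomial m' (1 : k)))
    have hmem : ∀ i ≤ A + B, ∀ l' : Fin (w + 2),
        (C (Wv k w l') + X * C (Wv' k w l')) *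
          (X ^ i * C (MvPolynomial.monomial m' (1 : k))) ∈ S k w A (B + 1) :=
      fun i hi l' => S_mul k w A B l' _ (ih i hi m' hdeg)
    have := key ?_ ?_ ?_ j (by omega) l (by omega)
    · rw [hmon]; exact this
    · intro i hi
      have e := hmem i hi 0
      have e1 : Wv k w 0 = Wn k w 0 := by simp [Wv, Wn]
      have e2 : Wv' k w 0 = 0 := by simp [Wv']
      rw [e1, e2] at e
      simp only [map_zero, mul_zero, add_zero] at e
      have e3 : (C (Wn k w 0) * (X ^ i * C (MvPolynomial.monomial m' (1 : k))) :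
          (MvPolynomial (Fin (w + 1)) k)[X]) =
          X ^ i * C (Wn k w 0 * MvPolynomial.monomial m' (1 : k)) := by
        rw [map_mul]; ring
      rwa [e3] at e
    · intro i hi l hl
      have e := hmem i hi ⟨l + 1, by omega⟩
      have e1 : Wv k w ⟨l + 1, by omega⟩ = Wn k w (l + 1) := by simp [Wv, Wn]
      have e2 : Wv' k w ⟨l + 1, by omega⟩ = Wn k w l := by
        simp [Wv', Wn, show l < w + 1 by omega]
      rw [e1, e2] at e
      have e3 : ((C (Wn k w (l + 1)) + X * C (Wn k w l)) *
          (X ^ i * C (MvPolynomial.monomial m' (1 : k))) :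
          (MvPolynomial (Fin (w + 1)) k)[X]) =
          X ^ i * C (Wn k w (l + 1) * MvPolynomial.monomial m' (1 : k)) +
          X ^ (i + 1) * C (Wn k w l * MvPolynomial.monomial m' (1 : k)) := by
        rw [map_mul, map_mul]; ring
      rwa [e3] at e
    · intro i hi
      have e := hmem i hi ⟨w + 1, by omega⟩
      have e1 : Wv k w ⟨w + 1, by omega⟩ = 0 := by simp [Wv]
      have e2 : Wv' k w ⟨w + 1, by omega⟩ = Wn k w w := by simp [Wv', Wn]
      rw [e1, e2] at e
      have e3 : ((C 0 + X * C (Wn k w w)) *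
          (X ^ i * C (MvPolynomial.monomial m' (1 : k))) :
          (MvPolynomial (Fin (w + 1)) k)[X]) =
          X ^ (i + 1) * C (Wn k w w * MvPolynomial.monomial m' (1 : k)) := by
        rw [map_mul, map_zero]; ring
      rwa [e3] at e

end

end Pool.Agent.T2H37.LB.A6

namespace Pool.Agent.T2H37.LB

open Finset Polynomial A6

theorem OmB3_proof (k : Type) [Field k] (w : ℕ) : OmB3 k w := by
  intro A B hA F hF j hj m hm
  have h1 : ∀ p ∈ S k w A B, pev k w F p = 0 := by
    intro p hp
    unfold S at hp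
    induction hp using Submodule.span_induction with
    | mem p hp =>
      obtain ⟨i, hi, n, hn, rfl⟩ := hp
      rw [← psi_eq]
      exact hF i hi n hn
    | zero => exact map_zero _
    | add p q _ _ hp hq => rw [map_add, hp, hq, add_zero]
    | smul a p _ hp => rw [map_smul, hp, smul_zero]
  have h2 := h1 _ (span_all k w A hA B j hj m hm)
  rw [pev_X_mul] at h2
  have h3 : pev k w (fun i => F (j + i)) (C (MvPolynomial.monomial m (1 : k))) = F j m := by
    unfold pev
    rw [Polynomial.lsum_apply, Polynomial.sum_C_index (map_zero ((MvPolynomial.basisMonomials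
      (Fin (w + 1)) k).constr k (F (j + 0)))), constr_eq]
    classical
    simp [MvPolynomial.support_monomial]
  rw [h3] at h2
  exact h2

end Pool.Agent.T2H37.LB
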