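import Pool.Agent.T2H37.LB.StmA

/-!
# LB, package A7: the contraction with `q` is onto
-/

set_option autoImplicit false

namespace Pool.Agent.T2H37.LB

open Finset

namespace A7

/-- the solution, by recursion on the first index -/
noncomputable def sol {k : Type} [Field k] (w : ℕ) (F : ℕ → (Fin (w + 2) → ℕ) → k) :
    ℕ → (Fin (w + 2) → ℕ) → k := fun i n =>
  if h : w + 1 ≤ i ∧ n 0 ≠ 0 then
    F (i - (w + 1)) (n - Pi.single 0 1) -
      ∑ l : Fin (w + 1), ((-1 : ℤ) ^ ((l : ℕ) + 1)) •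
        sol w F (i - (w + 1) + (w + 1 - ((l : ℕ) + 1))) (n - Pi.single 0 1 + Pi.single l.succ 1)
  else 0
termination_by i => i
decreasing_by
  have := l.2
  omega

end A7

theorem QSurj_proof (k : Type) [Field k] (w : ℕ) : QSurj k w := by
  intro F
  refine ⟨A7.sol w F, fun i n => ?_⟩
  rw [qc, Fin.sum_univ_succ]
  have h0 : A7.sol w F (i + (w + 1 - ((0 : Fin (w + 2)) : ℕ))) (n + Pi.single 0 1) =
      F i n - ∑ l : Fin (w + 1), ((-1 : ℤ) ^ ((l : ℕ) + 1)) •
        A7.sol w F (i + (w + 1 - ((l : ℕ) + 1))) (n + Pi.single l.succ 1) := by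
    rw [A7.sol]
    have h1 : w + 1 ≤ i + (w + 1 - ((0 : Fin (w + 2)) : ℕ)) ∧ (n + Pi.single (0 : Fin (w + 2)) 1 : Fin (w + 2) → ℕ) 0 ≠ 0 := by
      constructor
      · simp
      · simp
    rw [dif_pos h1]
    have h2 : i + (w + 1 - ((0 : Fin (w + 2)) : ℕ)) - (w + 1) = i := by simp
    have h3 : n + Pi.single (0 : Fin (w + 2)) 1 - Pi.single 0 1 = n := by
      ext l
      simp
    rw [h2, h3]
  rw [h0]
  simp

end Pool.Agent.T2H37.LB
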