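import Pool.Agent.T2H37.LB.StmA

/-!
# LB, package A8: the solutions of `qc = 0` are in the range of `psi`
-/

set_option autoImplicit false

namespace Pool.Agent.T2H37.LB

open Finset

namespace A8

abbrev N2 (w B : ℕ) : Type := {n : Fin (w + 2) → ℕ // sm n = B}
abbrev N1 (w B : ℕ) : Type := {m : Fin (w + 1) →₀ ℕ // m.degree = B}
abbrev NE (w B : ℕ) : Type := {n : Fin (w + 2) → ℕ // sm n + 1 = B}

noncomputable def eN2 (w B : ℕ) :
    (Finset.finsuppAntidiag (univ : Finset (Fin (w + 2))) B) ≃ N2 w B :=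
  (Finsupp.equivFunOnFinite).subtypeEquiv (by
    intro a
    simp [mem_finsuppAntidiag, sm])

noncomputable def eN1 (w B : ℕ) :
    (Finset.finsuppAntidiag (univ : Finset (Fin (w + 1))) B) ≃ N1 w B :=
  (Equiv.refl _).subtypeEquiv (by
    intro a
    simp [mem_finsuppAntidiag, Finsupp.degree_eq_sum])

noncomputable instance fN2 (w B : ℕ) : Fintype (N2 w B) := Fintype.ofEquiv _ (eN2 w B)
noncomputable instance fN1 (w B : ℕ) : Fintype (N1 w B) := Fintype.ofEquiv _ (eN1 w B)

theorem cN2 (w B : ℕ) : Fintype.card (N2 w B) = (w + 1 + B).choose B := by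
  rw [← Fintype.card_congr (eN2 w B), Fintype.card_coe, card_finsuppAntidiag_nat_eq_choose,
    Finset.card_univ, Fintype.card_fin]
  congr 1
  omega

theorem cN1 (w B : ℕ) : Fintype.card (N1 w B) = (w + B).choose B := by
  rw [← Fintype.card_congr (eN1 w B), Fintype.card_coe, card_finsuppAntidiag_nat_eq_choose,
    Finset.card_univ, Fintype.card_fin]
  congr 1
  omega

/-- the equations -/
def eNE (w b : ℕ) : N2 w b ≃ NE w (b + 1) :=
  (Equiv.refl _).subtypeEquiv (by intro a; simp)

instance eE (w : ℕ) : IsEmpty (NE w 0) := ⟨fun x => by have := x.2; omega⟩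

noncomputable instance fNE (w B : ℕ) : Fintype (NE w B) := by
  cases B with
  | zero => exact Fintype.ofIsEmpty
  | succ b => exact Fintype.ofEquiv _ (eNE w b)

theorem count (w A B : ℕ) (hA : w ≤ A) :
    Fintype.card (Fin (A + 1) × N2 w B) =
      Fintype.card (Fin (A - w) × NE w B) + Fintype.card (Fin (A + B + 1) × N1 w B) := by
  rw [Fintype.card_prod, Fintype.card_prod, Fintype.card_prod, Fintype.card_fin, Fintype.card_fin,
    Fintype.card_fin, cN2, cN1]
  obtain ⟨d, rfl⟩ := Nat.exists_eq_add_of_le hA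
  rw [Nat.add_sub_cancel_left]
  cases B with
  | zero =>
    rw [Fintype.card_eq_zero]
    simp
  | succ b =>
    rw [← Fintype.card_congr (eNE w b), cN2]
    have h1 : (w + 1 + (b + 1)).choose (b + 1) = (w + 1 + b).choose b + (w + 1 + b).choose (b + 1) := by
      rw [show w + 1 + (b + 1) = (w + 1 + b) + 1 by ring, Nat.choose_succ_succ]
    have h2 : (w + 1 + b).choose (b + 1) * (b + 1) = (w + 1 + b).choose b * (w + 1) := by
      rw [Nat.choose_succ_right_eq]
      congr 1
      omega
    have h3 : (w + (b + 1)).choose (b + 1) = (w + 1 + b).choose (b + 1) := by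
      congr 1
      omega
    rw [h1, h3]
    nlinarith [h2]

variable (k : Type) [Field k] (w A B : ℕ)

open Classical in
noncomputable def extP (F : Fin (A + B + 1) × N1 w B → k) : ℕ → (Fin (w + 1) →₀ ℕ) → k := fun j m =>
  if h : j < A + B + 1 ∧ m.degree = B then F (⟨j, h.1⟩, ⟨m, h.2⟩) else 0

open Classical in
noncomputable def extD (f : Fin (A + 1) × N2 w B → k) : ℕ → (Fin (w + 2) → ℕ) → k := fun i n =>
  if h : i < A + 1 ∧ sm n = B then f (⟨i, h.1⟩, ⟨n, h.2⟩) else 0

open Classical in
noncomputable def extE (f : Fin (A - w) × NE w B → k) : ℕ → (Fin (w + 2) → ℕ) → k := fun i n =>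
  if h : i < A - w ∧ sm n + 1 = B then f (⟨i, h.1⟩, ⟨n, h.2⟩) else 0

theorem extP_add (F G : Fin (A + B + 1) × N1 w B → k) (j : ℕ) (m : Fin (w + 1) →₀ ℕ) :
    extP k w A B (F + G) j m = extP k w A B F j m + extP k w A B G j m := by
  unfold extP
  split_ifs <;> simp

theorem extP_smul (c : k) (F : Fin (A + B + 1) × N1 w B → k) (j : ℕ) (m : Fin (w + 1) →₀ ℕ) :
    extP k w A B (c • F) j m = c * extP k w A B F j m := by
  unfold extP
  split_ifs <;> simp

theorem extD_add (F G : Fin (A + 1) × N2 w B → k) (j : ℕ) (m : Fin (w + 2) → ℕ) :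
    extD k w A B (F + G) j m = extD k w A B F j m + extD k w A B G j m := by
  unfold extD
  split_ifs <;> simp

theorem extD_smul (c : k) (F : Fin (A + 1) × N2 w B → k) (j : ℕ) (m : Fin (w + 2) → ℕ) :
    extD k w A B (c • F) j m = c * extD k w A B F j m := by
  unfold extD
  split_ifs <;> simp

theorem sm_add_single (n : Fin (w + 2) → ℕ) (l : Fin (w + 2)) :
    sm (n + Pi.single l 1) = sm n + 1 := by
  unfold sm
  simp [Finset.sum_add_distrib]

theorem qc_congr (f f' : ℕ → (Fin (w + 2) → ℕ) → k)
    (h : ∀ i ≤ A, ∀ n, sm n = B → f i n = f' i n) (i : ℕ) (n : Fin (w + 2) → ℕ)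
    (hi : i + w + 1 ≤ A) (hn : sm n + 1 = B) : qc w f i n = qc w f' i n := by
  unfold qc
  refine Finset.sum_congr rfl fun l _ => ?_
  rw [h _ (by omega) _ (by rw [sm_add_single]; exact hn)]

noncomputable def psiL : (Fin (A + B + 1) × N1 w B → k) →ₗ[k] (Fin (A + 1) × N2 w B → k) where
  toFun F x := psi k w (extP k w A B F) x.1 x.2
  map_add' F G := by
    funext x
    simp only [psi, Pi.add_apply, extP_add, mul_add, Finset.sum_add_distrib]
  map_smul' c F := by
    funext x
    simp only [psi, Pi.smul_apply, extP_smul, smul_eq_mul, RingHom.id_apply, Finset.mul_sum]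
    refine Finset.sum_congr rfl fun j _ => Finset.sum_congr rfl fun m _ => ?_
    ring

noncomputable def qcL : (Fin (A + 1) × N2 w B → k) →ₗ[k] (Fin (A - w) × NE w B → k) where
  toFun f x := qc w (extD k w A B f) x.1 x.2
  map_add' F G := by
    funext x
    simp only [qc, Pi.add_apply, extD_add, smul_add, Finset.sum_add_distrib]
  map_smul' c F := by
    funext x
    simp only [qc, Pi.smul_apply, extD_smul, smul_eq_mul, RingHom.id_apply, Finset.mul_sum]
    refine Finset.sum_congr rfl fun j _ => ?_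
    rw [mul_smul_comm]

/-- restriction -/
def res (f : ℕ → (Fin (w + 2) → ℕ) → k) : Fin (A + 1) × N2 w B → k := fun x => f x.1 x.2

theorem extD_res (f : ℕ → (Fin (w + 2) → ℕ) → k) (i : ℕ) (hi : i ≤ A) (n : Fin (w + 2) → ℕ)
    (hn : sm n = B) : extD k w A B (res k w A B f) i n = f i n := by
  unfold extD
  rw [dif_pos ⟨by omega, hn⟩]
  rfl

end A8

open A8 in
theorem OmB2_proof (k : Type) [Field k] (w : ℕ) (h1 : OmB1 k w) (h3 : OmB3 k w) (hq : QSurj k w) :
    OmB2 k w := by
  intro A B hA f hf
  -- surjectivity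
  have hsurj : Function.Surjective (qcL k w A B) := by
    intro G
    obtain ⟨g, hg⟩ := hq (extE k w A B G)
    refine ⟨res k w A B g, ?_⟩
    funext x
    obtain ⟨⟨i, hi⟩, ⟨n, hn⟩⟩ := x
    change qc w (extD k w A B (res k w A B g)) i n = _
    rw [qc_congr k w A B _ g (fun i hi n hn => extD_res k w A B g i hi n hn) i n (by omega) hn, hg]
    unfold extE
    rw [dif_pos ⟨hi, hn⟩]
  -- injectivity
  have hinj : Function.Injective (psiL k w A B) := by
    rw [← LinearMap.ker_eq_bot, LinearMap.ker_eq_bot']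
    intro F hF
    have h := h3 A B hA (extP k w A B F) (by
      intro i hi n hn
      have := congrFun hF (⟨i, by omega⟩, ⟨n, hn⟩)
      exact this)
    funext x
    obtain ⟨⟨j, hj⟩, ⟨m, hm⟩⟩ := x
    have := h j (by omega) m hm
    unfold extP at this
    rw [dif_pos ⟨hj, hm⟩] at this
    exact this
  -- the range is in the kernel
  have hle : LinearMap.range (psiL k w A B) ≤ LinearMap.ker (qcL k w A B) := by
    rintro _ ⟨F, rfl⟩
    rw [LinearMap.mem_ker]
    funext x
    obtain ⟨⟨i, hi⟩, ⟨n, hn⟩⟩ := x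
    change qc w (extD k w A B (res k w A B (psi k w (extP k w A B F)))) i n = 0
    rw [qc_congr k w A B _ (psi k w (extP k w A B F))
      (fun i hi n hn => extD_res k w A B _ i hi n hn) i n (by omega) hn]
    exact h1 _ _ _
  have hdim : Module.finrank k (LinearMap.range (psiL k w A B)) =
      Module.finrank k (LinearMap.ker (qcL k w A B)) := by
    rw [LinearMap.finrank_range_of_inj hinj]
    have h := LinearMap.finrank_range_add_finrank_ker (qcL k w A B)
    rw [LinearMap.range_eq_top.mpr hsurj, finrank_top, Module.finrank_fintype_fun_eq_card,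
      Module.finrank_fintype_fun_eq_card, count w A B hA] at h
    rw [Module.finrank_fintype_fun_eq_card]
    omega
  have heq := Submodule.eq_of_le_of_finrank_eq hle hdim
  have hmem : res k w A B f ∈ LinearMap.ker (qcL k w A B) := by
    rw [LinearMap.mem_ker]
    funext x
    obtain ⟨⟨i, hi⟩, ⟨n, hn⟩⟩ := x
    change qc w (extD k w A B (res k w A B f)) i n = 0
    rw [qc_congr k w A B _ f
      (fun i hi n hn => extD_res k w A B _ i hi n hn) i n (by omega) hn]
    exact hf i n (by omega) hn
  rw [← heq] at hmem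
  obtain ⟨F, hF⟩ := hmem
  refine ⟨extP k w A B F, ?_⟩
  intro i hi n hn
  have := congrFun hF (⟨i, by omega⟩, ⟨n, hn⟩)
  exact this.symm

end Pool.Agent.T2H37.LB
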