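import Pool.Agent.T2H37.LB.StmA

/-!
# LB, package A9: the coefficients of `con q f` and `con Φ f`
-/

set_option autoImplicit false

namespace Pool.Agent.T2H37.LB

open Finset Polynomial

namespace A9

variable {k : Type} [Field k] {w : ℕ}

theorem coeff_mon_mul (u v : Var w → ℤ) (f : L k w) : (mon k u * f).coeff v = f.coeff (-u + v) := by
  unfold mon
  rw [AddMonoidAlgebra.coeff_single_mul_apply, one_mul]

theorem coeff_con (g f : L k w) (v : Var w → ℤ) (hv : Neg v) :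
    (con g f).coeff v = (g * f).coeff v := by
  classical
  unfold con restr
  simp only [LinearMap.coe_mk, AddHom.coe_mk]
  rw [AddMonoidAlgebra.coeff_ofCoeff, Finsupp.filter_apply]
  split_ifs
  rfl

theorem neg_pt (i0 i1 : ℕ) (h0 h1 : ℤ) (a0 a1 : ℕ) (n : Fin (w + 2) → ℕ) (y0 y1 : ℕ) :
    Neg (pt w i0 i1 h0 h1 a0 a1 n y0 y1) := by
  refine ⟨?_, ?_, ?_, ?_⟩
  · intro i
    fin_cases i <;> simp [pt] <;> omega
  · intro i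
    fin_cases i <;> simp [pt] <;> omega
  · intro l
    simp only [pt]
    omega
  · intro i
    fin_cases i <;> simp [pt]

/-- `pt` with integral `y`-exponents -/
def ptZ (w : ℕ) (i0 i1 : ℕ) (h0 h1 : ℤ) (a0 a1 : ℕ) (n : Fin (w + 2) → ℕ) (y0 y1 : ℤ) : Var w → ℤ
  | Var.g 0 => -1 - i0
  | Var.g 1 => -1 - i1
  | Var.h 0 => h0
  | Var.h 1 => h1
  | Var.a 0 => -1 - a0
  | Var.a 1 => -1 - a1
  | Var.t l => -1 - n l
  | Var.y 0 => y0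
  | Var.y 1 => y1

theorem ptZ_eq (i0 i1 : ℕ) (h0 h1 : ℤ) (a0 a1 : ℕ) (n : Fin (w + 2) → ℕ) (y0 y1 : ℕ) :
    ptZ w i0 i1 h0 h1 a0 a1 n y0 y1 = pt w i0 i1 h0 h1 a0 a1 n y0 y1 := rfl

theorem exp_q (i0 i1 : ℕ) (h0 h1 : ℤ) (a0 a1 : ℕ) (n : Fin (w + 2) → ℕ) (y0 y1 : ℕ)
    (l : Fin (w + 2)) (p q : ℕ) :
    -(ev (Var.t l) + p • ev (Var.a 0) + q • ev (Var.a 1)) + pt w i0 i1 h0 h1 a0 a1 n y0 y1 =
      pt w i0 i1 h0 h1 (a0 + p) (a1 + q) (n + Pi.single l 1) y0 y1 := by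
  funext v
  rcases v with i | i | i | m | i
  · fin_cases i <;> simp [pt, ev]
  · fin_cases i <;> simp [pt, ev]
  · fin_cases i <;> simp [pt, ev] <;> ring
  · by_cases h : m = l
    · subst h
      simp [pt, ev]
      ring
    · simp [pt, ev, h, Pi.single_apply]
  · fin_cases i <;> simp [pt, ev]

theorem exp_P (i0 i1 : ℕ) (h0 h1 : ℤ) (a0 a1 : ℕ) (n : Fin (w + 2) → ℕ) (y0 y1 : ℤ)
    (x x' b b' c c' : ℕ) :
    -(x' • ev (Var.g 0) + x • ev (Var.g 1) + b' • ev (Var.a 0) + b • ev (Var.a 1)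
      + c' • ev (Var.y 0) + c • ev (Var.y 1)) + ptZ w i0 i1 h0 h1 a0 a1 n y0 y1 =
      ptZ w (i0 + x') (i1 + x) h0 h1 (a0 + b') (a1 + b) n (y0 - c') (y1 - c) := by
  funext v
  rcases v with i | i | i | m | i
  · fin_cases i <;> simp [ptZ, ev] <;> ring
  · fin_cases i <;> simp [ptZ, ev]
  · fin_cases i <;> simp [ptZ, ev] <;> ring
  · simp [ptZ, ev]
  · fin_cases i <;> simp [ptZ, ev] <;> ring

theorem coeff_mPhi (x b c : ℕ) (f : L k w) (i0 i1 : ℕ) (h0 h1 : ℤ) (a0 a1 : ℕ)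
    (n : Fin (w + 2) → ℕ) (y0 y1 : ℤ) :
    (mPhi k w x b c * f).coeff (ptZ w i0 i1 h0 h1 a0 a1 n y0 y1) =
      f.coeff (ptZ w (i0 + (2 - x)) (i1 + x) h0 h1 (a0 + (2 - b)) (a1 + b) n
        (y0 - (2 - c : ℕ)) (y1 - c)) := by
  unfold mPhi
  rw [coeff_mon_mul, exp_P]

end A9

theorem DictQ_proof (k : Type) [Field k] (w : ℕ) : DictQ k w := by
  intro f i0 i1 h0 h1 a0 a1 n y0 y1
  rw [A9.coeff_con _ _ _ (A9.neg_pt i0 i1 h0 h1 a0 a1 n y0 y1)]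
  unfold qL
  rw [Finset.sum_mul, AddMonoidAlgebra.coeff_sum, Finsupp.finsetSum_apply]
  refine Finset.sum_congr rfl fun l _ => ?_
  rw [smul_mul_assoc, AddMonoidAlgebra.coeff_smul, Finsupp.smul_apply, A9.coeff_mon_mul, A9.exp_q]

namespace A9

variable {k : Type} [Field k] {w : ℕ}

theorem coeff_cf (ρ : ℕ) (f : L k w)
    (hf : ∀ u, f.coeff u ≠ 0 → (∀ i, 0 ≤ u (Var.y i)) ∧ ys u = ρ)
    (i0 i1 : ℕ) (h0 h1 : ℤ) (a0 a1 : ℕ) (n : Fin (w + 2) → ℕ) (m : ℕ) :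
    (cf k w ρ f h0 h1 i0 i1 a0 a1 n).coeff m =
      f.coeff (ptZ w i0 i1 h0 h1 a0 a1 n (ρ - m) m) := by
  unfold cf
  rw [Polynomial.finsetSum_coeff]
  simp only [Polynomial.coeff_C_mul_X_pow]
  rw [Finset.sum_ite_eq]
  split_ifs with h
  · rw [Finset.mem_range] at h
    rw [← ptZ_eq]
    congr 2
    push_cast [Nat.cast_sub (show m ≤ ρ by omega)]
    rfl
  · rw [Finset.mem_range] at h
    by_contra hne
    have := (hf _ (fun h => hne h.symm)).1 0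
    simp only [ptZ] at this
    omega

theorem zero_of_neg (ρ : ℕ) (f : L k w)
    (hf : ∀ u, f.coeff u ≠ 0 → (∀ i, 0 ≤ u (Var.y i)) ∧ ys u = ρ)
    (i0 i1 : ℕ) (h0 h1 : ℤ) (a0 a1 : ℕ) (n : Fin (w + 2) → ℕ) (y0 y1 : ℤ) (h : y1 < 0) :
    f.coeff (ptZ w i0 i1 h0 h1 a0 a1 n y0 y1) = 0 := by
  by_contra hne
  have := (hf _ hne).1 1
  simp only [ptZ] at this
  omega

theorem zero_of_neg' (ρ : ℕ) (f : L k w)
    (hf : ∀ u, f.coeff u ≠ 0 → (∀ i, 0 ≤ u (Var.y i)) ∧ ys u = ρ)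
    (i0 i1 : ℕ) (h0 h1 : ℤ) (a0 a1 : ℕ) (n : Fin (w + 2) → ℕ) (y0 y1 : ℤ) (h : y0 < 0) :
    f.coeff (ptZ w i0 i1 h0 h1 a0 a1 n y0 y1) = 0 := by
  by_contra hne
  have := (hf _ hne).1 0
  simp only [ptZ] at this
  omega

theorem coeff_X2_cf (ρ : ℕ) (f : L k w)
    (hf : ∀ u, f.coeff u ≠ 0 → (∀ i, 0 ≤ u (Var.y i)) ∧ ys u = ρ)
    (i0 i1 : ℕ) (h0 h1 : ℤ) (a0 a1 : ℕ) (n : Fin (w + 2) → ℕ) (m : ℕ) :
    (X ^ 2 * cf k w ρ f h0 h1 i0 i1 a0 a1 n).coeff m =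
      f.coeff (ptZ w i0 i1 h0 h1 a0 a1 n (ρ - (m - 2)) (m - 2)) := by
  rw [Polynomial.coeff_X_pow_mul']
  split_ifs with h
  · rw [coeff_cf ρ f hf]
    push_cast [Nat.cast_sub h]
    rfl
  · rw [zero_of_neg ρ f hf]
    omega

theorem coeff_X1_cf (ρ : ℕ) (f : L k w)
    (hf : ∀ u, f.coeff u ≠ 0 → (∀ i, 0 ≤ u (Var.y i)) ∧ ys u = ρ)
    (i0 i1 : ℕ) (h0 h1 : ℤ) (a0 a1 : ℕ) (n : Fin (w + 2) → ℕ) (m : ℕ) :
    (X * cf k w ρ f h0 h1 i0 i1 a0 a1 n).coeff m =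
      f.coeff (ptZ w i0 i1 h0 h1 a0 a1 n (ρ - (m - 1)) (m - 1)) := by
  have h2 := Polynomial.coeff_X_pow_mul' (cf k w ρ f h0 h1 i0 i1 a0 a1 n) 1 m
  rw [pow_one] at h2
  rw [h2]
  split_ifs with h
  · rw [coeff_cf ρ f hf]
    push_cast [Nat.cast_sub h]
    rfl
  · rw [zero_of_neg ρ f hf]
    omega

end A9

theorem DictP_proof (k : Type) [Field k] (w : ℕ) : DictP k w := by
  intro ρ f hf i0 i1 h0 h1 a0 a1 n
  have hR : (1 - X ^ 2) * (cf k w ρ f h0 h1 (i0 + 2) i1 (a0 + 2) a1 n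
        - cf k w ρ f h0 h1 i0 (i1 + 2) a0 (a1 + 2) n)
      - (1 + X ^ 2) * (cf k w ρ f h0 h1 i0 (i1 + 2) (a0 + 2) a1 n
        + cf k w ρ f h0 h1 (i0 + 2) i1 a0 (a1 + 2) n)
      + C 4 * X * cf k w ρ f h0 h1 (i0 + 1) (i1 + 1) (a0 + 1) (a1 + 1) n =
      cf k w ρ f h0 h1 (i0 + 2) i1 (a0 + 2) a1 n - cf k w ρ f h0 h1 i0 (i1 + 2) a0 (a1 + 2) n
      - X ^ 2 * cf k w ρ f h0 h1 (i0 + 2) i1 (a0 + 2) a1 n
      + X ^ 2 * cf k w ρ f h0 h1 i0 (i1 + 2) a0 (a1 + 2) n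
      - cf k w ρ f h0 h1 i0 (i1 + 2) (a0 + 2) a1 n
      - cf k w ρ f h0 h1 (i0 + 2) i1 a0 (a1 + 2) n
      - X ^ 2 * cf k w ρ f h0 h1 i0 (i1 + 2) (a0 + 2) a1 n
      - X ^ 2 * cf k w ρ f h0 h1 (i0 + 2) i1 a0 (a1 + 2) n
      + C 4 * (X * cf k w ρ f h0 h1 (i0 + 1) (i1 + 1) (a0 + 1) (a1 + 1) n) := by ring
  rw [hR]
  ext m
  simp only [Polynomial.coeff_add, Polynomial.coeff_sub, Polynomial.coeff_C_mul,
    A9.coeff_X2_cf ρ f hf, A9.coeff_X1_cf ρ f hf, A9.coeff_cf ρ f hf]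
  by_cases hm : m ≤ ρ + 2
  · have hL : (cf k w (ρ + 2) (con (PhiL k w) f) h0 h1 i0 i1 a0 a1 n).coeff m =
        (PhiL k w * f).coeff (A9.ptZ w i0 i1 h0 h1 a0 a1 n ((ρ : ℤ) + 2 - m) m) := by
      unfold cf
      rw [Polynomial.finsetSum_coeff]
      simp only [Polynomial.coeff_C_mul_X_pow]
      rw [Finset.sum_ite_eq, if_pos (Finset.mem_range.2 (by omega)),
        A9.coeff_con _ _ _ (A9.neg_pt _ _ _ _ _ _ _ _ _), ← A9.ptZ_eq]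
      congr 2
      push_cast [Nat.cast_sub hm]
      rfl
    rw [hL]
    unfold PhiL
    simp only [add_mul, sub_mul, smul_mul_assoc, AddMonoidAlgebra.coeff_add,
      AddMonoidAlgebra.coeff_sub, AddMonoidAlgebra.coeff_smul, Finsupp.add_apply,
      Finsupp.sub_apply, Finsupp.smul_apply, A9.coeff_mPhi]
    have e0 : ((ρ : ℤ) + 2 - m - ((2 - 0 : ℕ) : ℤ)) = ρ - m := by push_cast; ring
    have e1 : ((ρ : ℤ) + 2 - m - ((2 - 1 : ℕ) : ℤ)) = ρ - (m - 1) := by push_cast; ring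
    have e2 : ((ρ : ℤ) + 2 - m - ((2 - 2 : ℕ) : ℤ)) = ρ - (m - 2) := by push_cast; ring
    simp only [e0, e1, e2, Nat.cast_zero, Nat.cast_one, Nat.cast_ofNat, sub_zero,
      Nat.sub_self, add_zero, Nat.sub_zero, show (2 - 1 : ℕ) = 1 from rfl, zsmul_eq_mul,
      Int.cast_ofNat]
    ring_nf
  · have hL : (cf k w (ρ + 2) (con (PhiL k w) f) h0 h1 i0 i1 a0 a1 n).coeff m = 0 := by
      unfold cf
      rw [Polynomial.finsetSum_coeff]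
      simp only [Polynomial.coeff_C_mul_X_pow]
      rw [Finset.sum_ite_eq, if_neg]
      rw [Finset.mem_range]
      omega
    rw [hL]
    simp only [not_le] at hm
    rw [A9.zero_of_neg' ρ f hf _ _ _ _ _ _ _ ((ρ : ℤ) - m) _ (by omega),
      A9.zero_of_neg' ρ f hf _ _ _ _ _ _ _ ((ρ : ℤ) - m) _ (by omega),
      A9.zero_of_neg' ρ f hf _ _ _ _ _ _ _ ((ρ : ℤ) - (m - 2)) _ (by omega),
      A9.zero_of_neg' ρ f hf _ _ _ _ _ _ _ ((ρ : ℤ) - (m - 2)) _ (by omega),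
      A9.zero_of_neg' ρ f hf _ _ _ _ _ _ _ ((ρ : ℤ) - m) _ (by omega),
      A9.zero_of_neg' ρ f hf _ _ _ _ _ _ _ ((ρ : ℤ) - m) _ (by omega),
      A9.zero_of_neg' ρ f hf _ _ _ _ _ _ _ ((ρ : ℤ) - (m - 2)) _ (by omega),
      A9.zero_of_neg' ρ f hf _ _ _ _ _ _ _ ((ρ : ℤ) - (m - 2)) _ (by omega),
      A9.zero_of_neg' ρ f hf _ _ _ _ _ _ _ ((ρ : ℤ) - (m - 1)) _ (by omega)]
    ring

end Pool.Agent.T2H37.LB
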