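import Pool.Agent.T2H37.LB.StmB

/-!
# LB, package B1: a generator disjoint from `N`
-/

set_option autoImplicit false

namespace Pool.Agent.T2H37.LB

open Finset

namespace B1

variable {k : Type} [Field k] {G A : Type} [AddCommGroup A] [Module k A]

/-- the differential, written out -/
theorem dd_apply (i : ℕ) (c : (Fin i → G) → A) (j : Fin (i + 1) → G) :
    dd k i c j = ∑ m : Fin (i + 1), ((-1 : ℤ) ^ (m : ℕ)) • c (j ∘ m.succAbove) := by
  unfold dd
  simp [LinearMap.pi_apply, LinearMap.sum_apply, LinearMap.smul_apply]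

/-- `(dd c) (g, j) = c j - (dd c_g) j` -/
theorem dd_cons (i : ℕ) (c : (Fin (i + 1) → G) → A) (g : G) (j : Fin (i + 1) → G) :
    dd k (i + 1) c (Fin.cons g j : Fin (i + 2) → G) =
      c j - dd k i (fun j' => c (Fin.cons g j' : Fin (i + 1) → G)) j := by
  rw [dd_apply, dd_apply, Fin.sum_univ_succ, sub_eq_add_neg, ← Finset.sum_neg_distrib]
  congr 1
  · rw [Fin.val_zero, pow_zero, one_smul]
    congr 1
  · apply Finset.sum_congr rfl
    intro m _
    rw [Fin.val_succ, pow_succ, mul_neg_one, neg_smul]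
    congr 3
    funext x
    refine Fin.cases ?_ (fun y => ?_) x
    · rfl
    · simp [Function.comp]

/-- the differential in degree `0` -/
theorem dd_zero_apply (c : (Fin 0 → G) → A) (j : Fin 1 → G) : dd k 0 c j = c Fin.elim0 := by
  rw [dd_apply, Fin.sum_univ_succ]
  simp only [Fin.val_zero, pow_zero, one_smul, Finset.univ_eq_empty, Finset.sum_empty, add_zero]
  congr 1
  exact Subsingleton.elim _ _

variable [DecidableEq G]

/-- membership in the cochains of `VC` -/
theorem mem_CV_VC {V : Type} [DecidableEq V] (supp : G → Finset V) (N : Finset V) (i : ℕ)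
    (c : (Fin i → G) → k) :
    c ∈ CV (k := k) (VC k supp N) i ↔ ∀ j, c j ≠ 0 → ∀ v ∈ N, ∃ m, v ∈ supp (j m) := by
  show (∀ j, c j ≠ 0 → N ⊆ (univ.image j).biUnion supp) ↔ _
  refine forall_congr' fun j => imp_congr_right fun _ => ?_
  constructor
  · intro h v hv
    have := h hv
    rw [Finset.mem_biUnion] at this
    obtain ⟨g, hg, hvg⟩ := this
    obtain ⟨m, _, rfl⟩ := Finset.mem_image.1 hg
    exact ⟨m, hvg⟩
  · intro h v hv
    obtain ⟨m, hm⟩ := h v hv
    exact Finset.mem_biUnion.2 ⟨j m, Finset.mem_image_of_mem _ (Finset.mem_univ m), hm⟩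

/-- membership in the cocycles -/
theorem mem_Zd {V : Finset G → Submodule k A} {p : ℕ} {c : (Fin p → G) → A} :
    c ∈ Zd V p ↔ c ∈ CV V p ∧ dd k p c = 0 := by
  unfold Zd
  rw [Submodule.mem_inf, LinearMap.mem_ker]

end B1

open B1 in
theorem Tog_proof (k : Type) [Field k] : Tog k := by
  intro G V _ _ supp N g0 hd p c hc
  rw [mem_Zd] at hc
  obtain ⟨h1, h2⟩ := hc
  cases p with
  | zero =>
    show c ∈ (⊥ : Submodule k _)
    rw [Submodule.mem_bot]
    funext j
    have := congrFun h2 (fun _ => g0)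
    rw [dd_zero_apply] at this
    rw [Subsingleton.elim j Fin.elim0, this]
    rfl
  | succ p =>
    show c ∈ (CV (VC k supp N) p).map (dd k p)
    refine ⟨fun j => c (Fin.cons g0 j : Fin (p + 1) → G), ?_, ?_⟩
    · rw [SetLike.mem_coe, mem_CV_VC]
      intro j hj v hv
      obtain ⟨m, hm⟩ := (mem_CV_VC supp N _ c).1 h1 _ hj v hv
      rcases Fin.eq_zero_or_eq_succ m with rfl | ⟨y, rfl⟩
      · rw [Fin.cons_zero] at hm
        exact absurd hv (Finset.disjoint_left.1 hd hm)
      · rw [Fin.cons_succ] at hm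
        exact ⟨y, hm⟩
    · funext j
      have := congrFun h2 (Fin.cons g0 j : Fin (p + 2) → G)
      rw [dd_cons] at this
      exact (sub_eq_zero.1 this).symm

end Pool.Agent.T2H37.LB
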