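import Pool.Agent.T2H37.LB.StmB

/-!
# LB, package B10: `q, Φ` is a regular sequence
-/

set_option autoImplicit false

namespace Pool.Agent.T2H37.LB

open Finset

namespace B10

variable {k : Type} [Field k] {w : ℕ}

/-- exponents of a product -/
theorem exp_mul {f g : L k w} {u : Var w → ℤ} (h : (f * g).coeff u ≠ 0) :
    ∃ a b, f.coeff a ≠ 0 ∧ g.coeff b ≠ 0 ∧ a + b = u := by
  classical
  have h1 : u ∈ (f * g).coeff.support := Finsupp.mem_support_iff.2 h
  have h2 := AddMonoidAlgebra.support_coeff_mul_subset f g h1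
  obtain ⟨a, ha, b, hb, hab⟩ := Finset.mem_add.1 h2
  exact ⟨a, b, Finsupp.mem_support_iff.1 ha, Finsupp.mem_support_iff.1 hb, hab⟩

theorem exp_add {f g : L k w} {u : Var w → ℤ} (h : (f + g).coeff u ≠ 0) :
    f.coeff u ≠ 0 ∨ g.coeff u ≠ 0 := by
  by_contra hc
  push Not at hc
  apply h
  rw [AddMonoidAlgebra.coeff_add, Finsupp.add_apply, hc.1, hc.2, add_zero]

theorem coeff_restr (Q : (Var w → ℤ) → Prop) [DecidablePred Q] (f : L k w) (u : Var w → ℤ) :
    (restr Q f).coeff u = if Q u then f.coeff u else 0 := by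
  classical
  unfold restr
  simp only [LinearMap.coe_mk, AddHom.coe_mk, AddMonoidAlgebra.coeff_ofCoeff]
  rw [Finsupp.filter_apply]
  split_ifs <;> simp_all

theorem exists_exp {f : L k w} (h : f ≠ 0) : ∃ u, f.coeff u ≠ 0 := by
  by_contra hc
  push Not at hc
  apply h
  ext u
  rw [hc u]
  rfl

/-- if the `d`-value `a` of the exponents of `f` is minimal and attained, and similarly for `g`,
then `f * g` has an exponent with `d`-value `a + b` -/
theorem bottom (d : (Var w → ℤ) →+ ℤ) {f g : L k w} {a b : ℤ}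
    (hf : ∀ u, f.coeff u ≠ 0 → a ≤ d u) (hf' : ∃ u, f.coeff u ≠ 0 ∧ d u = a)
    (hg : ∀ u, g.coeff u ≠ 0 → b ≤ d u) (hg' : ∃ u, g.coeff u ≠ 0 ∧ d u = b) :
    ∃ u, (f * g).coeff u ≠ 0 ∧ d u = a + b := by
  classical
  set f0 := restr (fun u => d u = a) f with hf0
  set f1 := f - f0 with hf1
  set g0 := restr (fun u => d u = b) g with hg0
  set g1 := g - g0 with hg1
  have cf0 : ∀ u, f0.coeff u ≠ 0 → d u = a := by
    intro u hu
    by_contra hc
    apply hu
    rw [hf0, coeff_restr, if_neg hc]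
  have cg0 : ∀ u, g0.coeff u ≠ 0 → d u = b := by
    intro u hu
    by_contra hc
    apply hu
    rw [hg0, coeff_restr, if_neg hc]
  have cf1 : ∀ u, f1.coeff u ≠ 0 → a < d u := by
    intro u hu
    rw [hf1, AddMonoidAlgebra.coeff_sub, Finsupp.sub_apply, hf0, coeff_restr] at hu
    by_cases h : d u = a
    · rw [if_pos h, sub_self] at hu
      exact absurd rfl hu
    · rw [if_neg h, sub_zero] at hu
      exact lt_of_le_of_ne (hf u hu) (Ne.symm h)
  have cg1 : ∀ u, g1.coeff u ≠ 0 → b < d u := by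
    intro u hu
    rw [hg1, AddMonoidAlgebra.coeff_sub, Finsupp.sub_apply, hg0, coeff_restr] at hu
    by_cases h : d u = b
    · rw [if_pos h, sub_self] at hu
      exact absurd rfl hu
    · rw [if_neg h, sub_zero] at hu
      exact lt_of_le_of_ne (hg u hu) (Ne.symm h)
  have nf0 : f0 ≠ 0 := by
    obtain ⟨u, hu, hd⟩ := hf'
    intro h
    apply hu
    have : f0.coeff u = 0 := by rw [h]; rfl
    rwa [hf0, coeff_restr, if_pos hd] at this
  have ng0 : g0 ≠ 0 := by
    obtain ⟨u, hu, hd⟩ := hg'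
    intro h
    apply hu
    have : g0.coeff u = 0 := by rw [h]; rfl
    rwa [hg0, coeff_restr, if_pos hd] at this
  obtain ⟨u, hu⟩ := exists_exp (mul_ne_zero nf0 ng0)
  have hdu : d u = a + b := by
    obtain ⟨x, y, hx, hy, hxy⟩ := exp_mul hu
    rw [← hxy, map_add, cf0 x hx, cg0 y hy]
  refine ⟨u, ?_, hdu⟩
  have hfg : f * g = f0 * g0 + (f0 * g1 + f1 * g) := by
    rw [hf1, hg1]
    ring
  have hrest : (f0 * g1 + f1 * g).coeff u = 0 := by
    by_contra hc
    rcases exp_add hc with h | h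
    · obtain ⟨x, y, hx, hy, hxy⟩ := exp_mul h
      have h1 := cf0 x hx
      have h2 := cg1 y hy
      have h3 : d x + d y = a + b := by rw [← map_add, hxy, hdu]
      omega
    · obtain ⟨x, y, hx, hy, hxy⟩ := exp_mul h
      have h1 := cf1 x hx
      have h2 := hg y hy
      have h3 : d x + d y = a + b := by rw [← map_add, hxy, hdu]
      omega
  rw [hfg, AddMonoidAlgebra.coeff_add, Finsupp.add_apply, hrest, add_zero]
  exact hu

/-- a minimal value exists -/
theorem exists_min (d : (Var w → ℤ) → ℤ) {f : L k w} (h : f ≠ 0) :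
    ∃ b, (∀ u, f.coeff u ≠ 0 → b ≤ d u) ∧ ∃ u, f.coeff u ≠ 0 ∧ d u = b := by
  obtain ⟨u, hu⟩ := exists_exp h
  obtain ⟨v, hv, hm⟩ := Finset.exists_min_image f.coeff.support d ⟨u, Finsupp.mem_support_iff.2 hu⟩
  exact ⟨d v, fun u hu => hm u (Finsupp.mem_support_iff.2 hu), v, Finsupp.mem_support_iff.1 hv, rfl⟩

/-! ### the form `q` -/

/-- the exponents of `q` -/
def uq (w : ℕ) (l : Fin (w + 2)) : Var w → ℤ :=
  ev (Var.t l) + (l : ℕ) • ev (Var.a 0) + (w + 1 - (l : ℕ)) • ev (Var.a 1)

theorem uq_t (l m : Fin (w + 2)) : uq w l (Var.t m) = if m = l then 1 else 0 := by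
  simp [uq, ev, Pi.single_apply]

theorem uq_g (l : Fin (w + 2)) (i : Fin 2) : uq w l (Var.g i) = 0 := by
  simp [uq, ev]

theorem uq_h (l : Fin (w + 2)) (i : Fin 2) : uq w l (Var.h i) = 0 := by
  simp [uq, ev]

theorem uq_y (l : Fin (w + 2)) (i : Fin 2) : uq w l (Var.y i) = 0 := by
  simp [uq, ev]

theorem uq_a0 (l : Fin (w + 2)) : uq w l (Var.a 0) = (l : ℕ) := by
  simp [uq, ev]

theorem uq_a1 (l : Fin (w + 2)) : uq w l (Var.a 1) = ((w + 1 - (l : ℕ) : ℕ) : ℤ) := by
  simp [uq, ev]

theorem uq_nonneg (l : Fin (w + 2)) (v : Var w) : 0 ≤ uq w l v := by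
  cases v with
  | g i => rw [uq_g]
  | h i => rw [uq_h]
  | a i =>
    fin_cases i
    · exact (uq_a0 l).symm ▸ Int.natCast_nonneg _
    · exact (uq_a1 l).symm ▸ Int.natCast_nonneg _
  | t m => rw [uq_t]; split_ifs <;> omega
  | y i => rw [uq_y]

theorem uq_inj {l m : Fin (w + 2)} (h : uq w l = uq w m) : l = m := by
  have h1 := congrFun h (Var.t l)
  rw [uq_t, uq_t, if_pos rfl] at h1
  by_contra hc
  rw [if_neg hc] at h1
  omega

theorem qL_eq : qL k w = ∑ l : Fin (w + 2), ((-1 : ℤ) ^ (l : ℕ)) • mon k (uq w l) := rfl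

theorem coeff_zsmul (n : ℤ) (f : L k w) (u : Var w → ℤ) : (n • f).coeff u = n • f.coeff u := by
  rw [AddMonoidAlgebra.coeff_smul, Finsupp.smul_apply]

theorem coeff_mon (u v : Var w → ℤ) : (mon k u).coeff v = if u = v then 1 else 0 := by
  classical
  unfold mon
  rw [AddMonoidAlgebra.coeff_single, Finsupp.single_apply]

theorem coeff_sum {ι : Type} (s : Finset ι) (f : ι → L k w) (u : Var w → ℤ) :
    (∑ i ∈ s, f i).coeff u = ∑ i ∈ s, (f i).coeff u := by
  classical
  induction s using Finset.induction_on with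
  | empty => simp
  | insert a s ha ih =>
    rw [Finset.sum_insert ha, Finset.sum_insert ha, AddMonoidAlgebra.coeff_add, Finsupp.add_apply,
      ih]

theorem coeff_qL (m : Fin (w + 2)) : (qL k w).coeff (uq w m) ≠ 0 := by
  rw [qL_eq, coeff_sum, Finset.sum_eq_single m]
  · rw [coeff_zsmul, coeff_mon, if_pos rfl]
    rcases neg_one_pow_eq_or ℤ (m : ℕ) with h | h <;> rw [h] <;> simp
  · intro l _ hl
    rw [coeff_zsmul, coeff_mon, if_neg (fun h => hl (uq_inj h)), smul_zero]
  · intro h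
    exact absurd (Finset.mem_univ m) h

theorem exp_qL {u : Var w → ℤ} (h : (qL k w).coeff u ≠ 0) : ∃ l, u = uq w l := by
  by_contra hc
  push Not at hc
  apply h
  rw [qL_eq, coeff_sum]
  apply Finset.sum_eq_zero
  intro l _
  rw [coeff_zsmul, coeff_mon, if_neg (fun h => hc l h.symm), smul_zero]

theorem qL_ne : qL k w ≠ 0 := by
  intro h
  apply coeff_qL (k := k) (0 : Fin (w + 2))
  rw [h]
  rfl

/-- every variable has exponent zero in some monomial of `q` -/
theorem exists_zero (v : Var w) : ∃ l, uq w l v = 0 := by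
  cases v with
  | g i => exact ⟨0, uq_g 0 i⟩
  | h i => exact ⟨0, uq_h 0 i⟩
  | a i =>
    fin_cases i
    · exact ⟨0, by simpa using uq_a0 (w := w) 0⟩
    · refine ⟨Fin.last (w + 1), ?_⟩
      have := uq_a1 (w := w) (Fin.last (w + 1))
      simpa using this
  | t m =>
    by_cases h : m = 0
    · refine ⟨1, ?_⟩
      rw [uq_t, if_neg]
      intro h'
      rw [h] at h'
      exact absurd h' (by simp)
    · exact ⟨0, by rw [uq_t, if_neg h]⟩
  | y i => exact ⟨0, uq_y 0 i⟩

/-! ### the form `Φ` -/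

/-- the exponents of `Φ` -/
def up (w : ℕ) (x b c : ℕ) : Var w → ℤ :=
  (2 - x) • ev (Var.g 0) + x • ev (Var.g 1) + (2 - b) • ev (Var.a 0) + b • ev (Var.a 1)
    + (2 - c) • ev (Var.y 0) + c • ev (Var.y 1)

theorem mPhi_eq (x b c : ℕ) : mPhi k w x b c = mon k (up w x b c) := rfl

theorem up_t (x b c : ℕ) (m : Fin (w + 2)) : up w x b c (Var.t m) = 0 := by
  simp [up, ev]

theorem up_g1 (x b c : ℕ) : up w x b c (Var.g 1) = x := by
  simp [up, ev]

theorem up_a1 (x b c : ℕ) : up w x b c (Var.a 1) = b := by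
  simp [up, ev]

theorem up_y1 (x b c : ℕ) : up w x b c (Var.y 1) = c := by
  simp [up, ev]

theorem up_inj {x b c x' b' c' : ℕ} (h : up w x b c = up w x' b' c') :
    x = x' ∧ b = b' ∧ c = c' := by
  have h1 := congrFun h (Var.g 1)
  have h2 := congrFun h (Var.a 1)
  have h3 := congrFun h (Var.y 1)
  rw [up_g1, up_g1] at h1
  rw [up_a1, up_a1] at h2
  rw [up_y1, up_y1] at h3
  omega

theorem coeff_mPhi (x b c : ℕ) (u : Var w → ℤ) :
    (mPhi k w x b c).coeff u = if up w x b c = u then 1 else 0 := by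
  rw [mPhi_eq, coeff_mon]

theorem exp_PhiL {u : Var w → ℤ} (h : (PhiL k w).coeff u ≠ 0) : ∃ x b c, u = up w x b c := by
  by_contra hc
  push Not at hc
  apply h
  unfold PhiL
  simp only [AddMonoidAlgebra.coeff_add, AddMonoidAlgebra.coeff_sub, Finsupp.add_apply,
    Finsupp.sub_apply, coeff_zsmul, coeff_mPhi]
  simp only [fun x b c => (hc x b c).symm, if_false, sub_zero, smul_zero, add_zero]

theorem PhiL_ne : PhiL k w ≠ 0 := by
  intro h
  have h1 : (PhiL k w).coeff (up w 0 0 0) = 0 := by rw [h]; rfl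
  unfold PhiL at h1
  simp only [AddMonoidAlgebra.coeff_add, AddMonoidAlgebra.coeff_sub, Finsupp.add_apply,
    Finsupp.sub_apply, coeff_zsmul, coeff_mPhi] at h1
  have h2 : ∀ x b c, (up w x b c = up w 0 0 0) ↔ (x = 0 ∧ b = 0 ∧ c = 0) := by
    intro x b c
    constructor
    · exact up_inj
    · rintro ⟨rfl, rfl, rfl⟩
      rfl
  simp [h2] at h1

/-! ### Step 1: a multiple of `Φ` divisible by `q` -/

/-- free of `θ_0` -/
def Fr (f : L k w) : Prop := ∀ u, f.coeff u ≠ 0 → u (Var.t 0) = 0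

theorem Fr.mul {f g : L k w} (hf : Fr f) (hg : Fr g) : Fr (f * g) := by
  intro u hu
  obtain ⟨a, b, ha, hb, hab⟩ := exp_mul hu
  rw [← hab, Pi.add_apply, hf a ha, hg b hb, add_zero]

theorem Fr.add {f g : L k w} (hf : Fr f) (hg : Fr g) : Fr (f + g) := by
  intro u hu
  rcases exp_add hu with h | h
  · exact hf u h
  · exact hg u h

theorem Fr.single {u : Var w → ℤ} (hu : u (Var.t 0) = 0) (c : k) :
    Fr (AddMonoidAlgebra.single u c : L k w) := by
  classical
  intro v hv
  rw [AddMonoidAlgebra.coeff_single, Finsupp.single_apply] at hv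
  by_cases h : u = v
  · rw [← h]; exact hu
  · rw [if_neg h] at hv; exact absurd rfl hv

theorem Fr.one : Fr (1 : L k w) := by
  rw [AddMonoidAlgebra.one_def]
  exact Fr.single rfl 1

theorem Fr.pow {f : L k w} (hf : Fr f) (n : ℕ) : Fr (f ^ n) := by
  induction n with
  | zero => rw [pow_zero]; exact Fr.one
  | succ n ih => rw [pow_succ]; exact ih.mul hf

theorem Fr.Phi : Fr (PhiL k w) := by
  intro u hu
  obtain ⟨x, b, c, rfl⟩ := exp_PhiL hu
  exact up_t x b c 0

theorem mon_mul (u v : Var w → ℤ) : mon k u * mon k v = mon k (u + v) := by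
  unfold mon
  rw [AddMonoidAlgebra.single_mul_single, one_mul]

theorem mon_zero : mon k (0 : Var w → ℤ) = 1 := rfl

/-- `θ_0` -/
noncomputable def th (k : Type) [Field k] (w : ℕ) : L k w := mon k (ev (Var.t 0))

theorem th_pow (n : ℕ) : th k w ^ n = mon k (n • ev (Var.t 0)) := by
  induction n with
  | zero => rw [pow_zero, zero_smul, mon_zero]
  | succ n ih => rw [pow_succ, ih, th, mon_mul, succ_nsmul]

/-- `θ_0` is congruent to an element free of `θ_0` modulo `q` -/
theorem exists_e : ∃ e : L k w, Fr e ∧ qL k w ∣ th k w - e := by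
  refine ⟨th k w - qL k w * mon k (-((w + 1) • ev (Var.a 1))), ?_, ?_⟩
  · have h : th k w - qL k w * mon k (-((w + 1) • ev (Var.a 1))) =
        - ∑ l ∈ (univ : Finset (Fin (w + 2))).erase 0,
          ((-1 : ℤ) ^ (l : ℕ)) • mon k (uq w l + -((w + 1) • ev (Var.a 1))) := by
      rw [qL_eq, ← Finset.add_sum_erase _ _ (Finset.mem_univ (0 : Fin (w + 2))), add_mul,
        Finset.sum_mul]
      have h0 : ((-1 : ℤ) ^ ((0 : Fin (w + 2)) : ℕ)) • mon k (uq w 0) *
          mon k (-((w + 1) • ev (Var.a 1))) = th k w := by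
        rw [Fin.val_zero, pow_zero, one_smul, mon_mul, th]
        congr 1
        unfold uq
        simp
      rw [h0, sub_add_cancel_left]
      congr 1
      apply Finset.sum_congr rfl
      intro l _
      rw [smul_mul_assoc, mon_mul]
    rw [h]
    intro u hu
    by_contra hc
    apply hu
    rw [AddMonoidAlgebra.coeff_neg, Finsupp.neg_apply, coeff_sum, neg_eq_zero]
    apply Finset.sum_eq_zero
    intro l hl
    rw [coeff_zsmul, coeff_mon, if_neg, smul_zero]
    intro h1
    apply hc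
    rw [← h1, Pi.add_apply, uq_t, if_neg (Finset.ne_of_mem_erase hl).symm]
    simp [ev]
  · rw [sub_sub_cancel]
    exact Dvd.intro _ rfl

/-- every element is congruent to an element free of `θ_0` up to a power of `θ_0` -/
theorem exists_fr (y : L k w) : ∃ n : ℕ, ∃ E : L k w, Fr E ∧ qL k w ∣ th k w ^ n * y - E := by
  classical
  obtain ⟨e, he, hde⟩ := exists_e (k := k) (w := w)
  have hpow : ∀ n : ℕ, qL k w ∣ th k w ^ n - e ^ n := fun n =>
    dvd_trans hde (sub_dvd_pow_sub_pow _ _ n)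
  induction y using AddMonoidAlgebra.induction_linear with
  | zero => 
    refine ⟨0, 0, ?_, ?_⟩
    · intro u hu
      exact absurd rfl hu
    · simp
  | add x y hx hy =>
    obtain ⟨n, E, hE, h1⟩ := hx
    obtain ⟨m, F, hF, h2⟩ := hy
    refine ⟨n + m, e ^ m * E + e ^ n * F, ((he.pow m).mul hE).add ((he.pow n).mul hF), ?_⟩
    have : th k w ^ (n + m) * (x + y) - (e ^ m * E + e ^ n * F) =
        th k w ^ m * (th k w ^ n * x - E) + th k w ^ n * (th k w ^ m * y - F) +
        (th k w ^ m - e ^ m) * E + (th k w ^ n - e ^ n) * F := by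
      ring
    rw [this]
    exact dvd_add (dvd_add (dvd_add (Dvd.dvd.mul_left h1 _) (Dvd.dvd.mul_left h2 _))
      (Dvd.dvd.mul_right (hpow m) _)) (Dvd.dvd.mul_right (hpow n) _)
  | single u c =>
    rcases le_total 0 (u (Var.t 0)) with h | h
    · obtain ⟨n, hn⟩ := Int.eq_ofNat_of_zero_le h
      refine ⟨0, e ^ n * AddMonoidAlgebra.single (u - n • ev (Var.t 0)) c,
        (he.pow n).mul (Fr.single ?_ c), ?_⟩
      · rw [Pi.sub_apply, hn]
        simp [ev]
      · have h1 : (AddMonoidAlgebra.single u c : L k w) =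
            th k w ^ n * AddMonoidAlgebra.single (u - n • ev (Var.t 0)) c := by
          rw [th_pow, mon, AddMonoidAlgebra.single_mul_single, one_mul, add_sub_cancel]
        rw [pow_zero, one_mul]
        nth_rewrite 1 [h1]
        rw [← sub_mul]
        exact Dvd.dvd.mul_right (hpow n) _
    · obtain ⟨n, hn⟩ := Int.eq_ofNat_of_zero_le (neg_nonneg.2 h)
      refine ⟨n, th k w ^ n * AddMonoidAlgebra.single u c, ?_, ?_⟩
      · rw [th_pow, mon, AddMonoidAlgebra.single_mul_single, one_mul]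
        apply Fr.single
        rw [Pi.add_apply]
        simp only [Pi.smul_apply, ev, Pi.single_eq_same]
        simp only [nsmul_eq_mul, mul_one]
        omega
      · rw [sub_self]
        exact dvd_zero _

/-- a multiple of `q` free of `θ_0` is zero -/
theorem eq_zero_of_fr {x : L k w} (h : Fr (qL k w * x)) : x = 0 := by
  by_contra hx
  obtain ⟨b, hb1, hb2⟩ := exists_min (fun u => u (Var.t 0)) hx
  obtain ⟨t, ht1, ht2⟩ := exists_min (fun u => - u (Var.t 0)) hx
  have e1 := bottom (Pi.evalAddMonoidHom _ (Var.t 0)) (f := qL k w) (g := x) (a := 0) (b := b)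
    (by
      intro u hu
      obtain ⟨l, rfl⟩ := exp_qL hu
      exact uq_nonneg l _)
    (by
      obtain ⟨l, hl⟩ := exists_zero (w := w) (Var.t 0)
      exact ⟨uq w l, coeff_qL l, hl⟩) hb1 hb2
  have e2 := bottom (-(Pi.evalAddMonoidHom _ (Var.t 0))) (f := qL k w) (g := x) (a := -1) (b := t)
    (by
      intro u hu
      obtain ⟨l, rfl⟩ := exp_qL hu
      show -1 ≤ -(uq w l (Var.t 0))
      rw [uq_t]
      split_ifs <;> omega)
    (by
      refine ⟨uq w 0, coeff_qL 0, ?_⟩
      show -(uq w 0 (Var.t 0)) = -1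
      rw [uq_t, if_pos rfl]) ht1 ht2
  obtain ⟨u, hu, hu'⟩ := e1
  obtain ⟨v, hv, hv'⟩ := e2
  have h1 := h u hu
  have h2 := h v hv
  have h3 : u (Var.t 0) = 0 + b := hu'
  have h4 : -(v (Var.t 0)) = -1 + t := hv'
  obtain ⟨x0, hx0, hx1⟩ := hb2
  have h5 := ht1 x0 hx0
  have h6 : x0 (Var.t 0) = b := hx1
  have h7 : t ≤ -(x0 (Var.t 0)) := h5
  omega

theorem dvd_of_rel {x y : L k w} (h : qL k w * x + PhiL k w * y = 0) : ∃ e, y = qL k w * e := by
  obtain ⟨n, E, hE, z, hz⟩ := exists_fr y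
  have h1 : PhiL k w * E = qL k w * (-(th k w ^ n * x) - PhiL k w * z) := by
    have : E = th k w ^ n * y - qL k w * z := by rw [← hz]; ring
    rw [this]
    have h2 : PhiL k w * (th k w ^ n * y - qL k w * z) =
        th k w ^ n * (qL k w * x + PhiL k w * y) - qL k w * (th k w ^ n * x)
          - qL k w * (PhiL k w * z) := by ring
    rw [h2, h, mul_zero]
    ring
  have h2 : Fr (qL k w * (-(th k w ^ n * x) - PhiL k w * z)) := by
    rw [← h1]
    exact Fr.Phi.mul hE
  have h3 := eq_zero_of_fr h2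
  rw [h3, mul_zero] at h1
  have h4 : E = 0 := (mul_eq_zero.1 h1).resolve_left PhiL_ne
  rw [h4, sub_zero] at hz
  refine ⟨mon k (-(n • ev (Var.t 0))) * z, ?_⟩
  have h5 : mon k (-(n • ev (Var.t 0))) * th k w ^ n = 1 := by
    rw [th_pow, mon_mul, neg_add_cancel, mon_zero]
  calc y = (mon k (-(n • ev (Var.t 0))) * th k w ^ n) * y := by rw [h5, one_mul]
    _ = mon k (-(n • ev (Var.t 0))) * (th k w ^ n * y) := by ring
    _ = _ := by rw [hz]; ring

end B10

open B10 in
theorem Reg_proof (k : Type) [Field k] (w : ℕ) : Reg k w := by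
  classical
  intro P hP r s x hx y hy hxy
  obtain ⟨e, he⟩ := dvd_of_rel hxy
  have hxe : x = -(PhiL k w * e) := by
    have h1 : qL k w * (x + PhiL k w * e) = 0 := by
      have : qL k w * (x + PhiL k w * e) = qL k w * x + PhiL k w * (qL k w * e) := by ring
      rw [this, ← he, hxy]
    have h2 := (mul_eq_zero.1 h1).resolve_left qL_ne
    exact eq_neg_of_add_eq_zero_left h2
  -- the degrees
  have key : ∀ l (b : Var w → ℤ), (P (uq w l + b) ∧ hs (uq w l + b) - gs (uq w l + b) = r + 2 ∧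
      as (uq w l + b) - gs (uq w l + b) = 0 ∧ ys (uq w l + b) = r - 2) ↔
      (P b ∧ hs b - gs b = r + 2 ∧ as b - gs b = -(w + 1) ∧ ys b = r - 2) := by
    intro l b
    have hp : P (uq w l + b) ↔ P b := by
      constructor
      · exact hP _ _ (by rw [Pi.add_apply, uq_h, zero_add]) (by rw [Pi.add_apply, uq_h, zero_add])
      · exact hP _ _ (by rw [Pi.add_apply, uq_h, zero_add]) (by rw [Pi.add_apply, uq_h, zero_add])
    have e1 : hs (uq w l + b) = hs b := by
      unfold hs
      rw [Pi.add_apply, Pi.add_apply, uq_h, uq_h, zero_add, zero_add]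
    have e2 : gs (uq w l + b) = gs b := by
      unfold gs
      rw [Pi.add_apply, Pi.add_apply, uq_g, uq_g, zero_add, zero_add]
    have e3 : ys (uq w l + b) = ys b := by
      unfold ys
      rw [Pi.add_apply, Pi.add_apply, uq_y, uq_y, zero_add, zero_add]
    have e4 : as (uq w l + b) = as b + (w + 1) := by
      unfold as
      rw [Pi.add_apply, Pi.add_apply, uq_a0, uq_a1]
      have := l.2
      omega
    rw [hp, e1, e2, e3, e4]
    constructor
    · rintro ⟨h1, h2, h3, h4⟩
      exact ⟨h1, h2, by omega, h4⟩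
    · rintro ⟨h1, h2, h3, h4⟩
      exact ⟨h1, h2, by omega, h4⟩
  have hdeg : ∀ u, e.coeff u ≠ 0 → P u ∧ hs u - gs u = r + 2 ∧ as u - gs u = -(w + 1) ∧
      ys u = r - 2 := by
    set Q : (Var w → ℤ) → Prop := fun u => P u ∧ hs u - gs u = r + 2 ∧ as u - gs u = -(w + 1) ∧
      ys u = r - 2 with hQ
    have c1 : ∀ u, (restr Q e).coeff u ≠ 0 → Q u := by
      intro u hu
      by_contra hc
      rw [coeff_restr, if_neg hc] at hu
      exact hu rfl
    have c2 : ∀ u, (e - restr Q e).coeff u ≠ 0 → ¬ Q u := by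
      intro u hu hc
      rw [AddMonoidAlgebra.coeff_sub, Finsupp.sub_apply, coeff_restr, if_pos hc, sub_self] at hu
      exact hu rfl
    have h0 : qL k w * (e - restr Q e) = 0 := by
      by_contra hne
      obtain ⟨u, hu⟩ := exists_exp hne
      obtain ⟨a, b, ha, hb, hab⟩ := exp_mul hu
      obtain ⟨l, rfl⟩ := exp_qL ha
      have hb' := c2 b hb
      have hyu : y.coeff u = 0 := by
        by_contra hc
        obtain ⟨h1, h2, h3, h4, -⟩ := hy u hc
        rw [← hab] at h1 h2 h3 h4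
        exact hb' ((key l b).1 ⟨h1, h2, h3, h4⟩)
      have hq1 : (qL k w * restr Q e).coeff u = 0 := by
        by_contra hc
        obtain ⟨a', b', ha', hb1, hab'⟩ := exp_mul hc
        obtain ⟨l', rfl⟩ := exp_qL ha'
        have h1 := (key l' b').2 (c1 b' hb1)
        rw [hab', ← hab] at h1
        exact hb' ((key l b).1 h1)
      have h2 : y = qL k w * (e - restr Q e) + qL k w * restr Q e := by
        rw [he]; ring
      have h3 : y.coeff u = (qL k w * (e - restr Q e)).coeff u + (qL k w * restr Q e).coeff u := by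
        conv_lhs => rw [h2]
        rw [AddMonoidAlgebra.coeff_add, Finsupp.add_apply]
      rw [hyu, hq1, add_zero] at h3
      exact hu h3.symm
    have h1 := (mul_eq_zero.1 h0).resolve_left qL_ne
    have h2 : e = restr Q e := sub_eq_zero.1 h1
    intro u hu
    rw [h2] at hu
    exact c1 u hu
  refine ⟨e, ?_, he, hxe⟩
  intro u hu
  obtain ⟨h1, h2, h3, h4⟩ := hdeg u hu
  refine ⟨h1, h2, h3, h4, ?_⟩
  intro v hv
  by_contra hvs
  have hne : e ≠ 0 := by
    intro h
    apply hu
    rw [h]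
    rfl
  obtain ⟨b, hb1, hb2⟩ := exists_min (fun u => u v) hne
  obtain ⟨z, hz, hz'⟩ := bottom (Pi.evalAddMonoidHom _ v) (f := qL k w) (g := e) (a := 0) (b := b)
    (by
      intro u hu
      obtain ⟨l, rfl⟩ := exp_qL hu
      exact uq_nonneg l _)
    (by
      obtain ⟨l, hl⟩ := exists_zero (w := w) v
      exact ⟨uq w l, coeff_qL l, hl⟩) hb1 hb2
  rw [← he] at hz
  have h5 : z v = 0 + b := hz'
  have h6 : b ≤ u v := hb1 u hu
  exact hvs ((hy z hz).2.2.2.2 v (by omega))

end Pool.Agent.T2H37.LB
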