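import Pool.Agent.T2H37.LB.Model

/-!
# LB, statements of part B: combinatorial complexes, the systems `U`, the chases

Every `def ... : Prop` below with a docstring PACKAGE is one package.
-/

set_option autoImplicit false

namespace Pool.Agent.T2H37.LB

open Finset

section GenDefs

/-! ## cohomology of complexes of functions on tuples -/

variable {k : Type} [Field k] {G A : Type} [AddCommGroup A] [Module k A] [DecidableEq G]

/-- cocycles of degree `p` -/
noncomputable def Zd (V : Finset G → Submodule k A) (p : ℕ) : Submodule k ((Fin p → G) → A) :=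
  CV V p ⊓ LinearMap.ker (dd k p)

/-- coboundaries of degree `p` -/
noncomputable def Bd (V : Finset G → Submodule k A) : (p : ℕ) → Submodule k ((Fin p → G) → A)
  | 0 => ⊥
  | p + 1 => (CV V p).map (dd k p)

/-- exactness in degree `p` -/
def ExD (V : Finset G → Submodule k A) (p : ℕ) : Prop := Zd V p ≤ Bd V p

/-- the cohomology in degree `p` is one-dimensional -/
def OneD (V : Finset G → Submodule k A) (p : ℕ) : Prop :=
  ∃ c0 ∈ Zd V p, c0 ∉ Bd V p ∧ ∀ c ∈ Zd V p, ∃ a : k, c - a • c0 ∈ Bd V p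

/-- acyclic -/
def Acy (V : Finset G → Submodule k A) : Prop := ∀ p, ExD V p

/-- the cohomology is one-dimensional in degree `p` and zero in all other degrees -/
def Conc (V : Finset G → Submodule k A) (p : ℕ) : Prop := (∀ i, i ≠ p → ExD V i) ∧ OneD V p

end GenDefs

section Scalar

variable (k : Type) [Field k]

/-- the scalar family attached to a condition on finite sets: `k` if `T s`, `0` otherwise -/
def W1 {G : Type} (T : Finset G → Prop) (s : Finset G) : Submodule k k where
  carrier := {a | a ≠ 0 → T s}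
  zero_mem' := fun h => absurd rfl h
  add_mem' := by
    intro a b ha hb h
    by_cases h1 : a = 0
    · exact hb (by intro h2; exact h (by rw [h1, h2, add_zero]))
    · exact ha h1
  smul_mem' := by
    intro c a ha h
    exact ha (by intro h1; exact h (by rw [h1, smul_zero]))

/-- the family of the finite sets `s` covering `N` -/
def VC {G V : Type} [DecidableEq V] (supp : G → Finset V) (N : Finset V) :
    Finset G → Submodule k k :=
  W1 k fun s => N ⊆ s.biUnion supp

/-- PACKAGE B1 (20 min). Proof. If `c` is a cocycle of degree `p ≥ 1`, `b (j) = c (g0, j)`; then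
`dd b = c` because `(dd c)(g0, j) = c (j) - (dd b)(j)`; the set covered by `(g0, j)` differs from the
one covered by `j` only by elements of `supp g0`, disjoint from `N`. `p = 0`: `(dd c)(g0) = c ()`. -/
def Tog : Prop :=
  ∀ (G V : Type) [DecidableEq G] [DecidableEq V] (supp : G → Finset V) (N : Finset V) (g0 : G),
    Disjoint (supp g0) N → Acy (VC k supp N)

/-- PACKAGE B2 (50 min). Proof (prism operator). For `c : (Fin (p+1) → G) → k` define
`H_p c : (Fin p → G) → k` recursively: `H_0 c = 0`,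
`(H_{p+1} c)(g, j) = c (g, φ g, φ ∘ j) - (H_p c_g)(j)` with `c_g (j') = c (g, j')`. With
`(dd c)(g, j) = c (j) - (dd c_g)(j)` one proves `dd (H_p c) + H_{p+1} (dd c) = φ^* c - c`
(up to a global sign) in degree `p + 1`, `(φ^* c)(j) = c (φ ∘ j)`, by induction on `p`. (Explicitly
`(H c)(j) = ∑_m (-1)^m c (j_0..j_m, φ j_m, ..., φ j_{p-1})`.) A tuple `(j_0..j_m, φ j_m..)` covering
`N` implies that `j` covers `N` by the first condition, so `H` preserves `CV (VC k supp N)`; and
`φ^* c = 0` since `φ ∘ j` never covers `v ∈ N`. Degree 0: `CV` is zero as `N ≠ ∅`. -/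
def Prism : Prop :=
  ∀ (G V : Type) [DecidableEq G] [DecidableEq V] (supp : G → Finset V) (N : Finset V) (φ : G → G)
    (v : V), v ∈ N → (∀ g, supp (φ g) ∩ N ⊆ supp g) → (∀ g, v ∉ supp (φ g)) →
    Acy (VC k supp N)

/-- PACKAGE B3 (60 min). Proof. Let `N' = N.erase v`, `G_v` the subtype. Restriction to tuples of
`G_v` maps `C_G(N') → C_{G_v}(N')`, surjectively (extension by zero `e ↦ ẽ`), with kernel `C_G(N)`.
Let `c ∈ Z^{i+1}(C_G(N))`; as `C_G(N')` is acyclic, `c = d b`, `b ∈ C_G(N')^i`, `b|` is a cocycle. If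
`b| = d e'` (or `b| = 0` if `i = 0`), then `b - d ẽ' ∈ C_G(N)^i` (its restriction is zero) and
`c = d(b - d ẽ')`. This gives exactness in degrees `i + 1 ≠ p + 1`; degree `0`: `C_G(N)^0 = 0`. For
`OneD`: `c0 := d(c̃0')`; it vanishes on tuples of `G_v`, so lies in `C_G(N)`; it is not a coboundary: if
`c0 = d b`, `b ∈ C_G(N)^p`, then `c̃0' - b` is a cocycle of `C_G(N')`, hence `= d e` (`= 0` if `p = 0`)
and `c0' = d (e|)`; finally for a cocycle `c = d b`, `b| - a c0' = d e'` gives
`c - a c0 = d (b - a c̃0' - d ẽ')`. -/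
def Ses : Prop :=
  ∀ (G V : Type) [DecidableEq G] [DecidableEq V] (supp : G → Finset V) (N : Finset V) (v : V)
    (p : ℕ), v ∈ N → Acy (VC k supp (N.erase v)) →
    Conc (VC k (fun g : {g : G // v ∉ supp g} => supp g.1) (N.erase v)) p →
    Conc (VC k supp N) (p + 1)

/-- PACKAGE B4 (30 min), from `Tog`, `Ses`. Proof. Induction on `card G` (over all types): remove
`v = g ∈ N = univ`: `Tog` with `g0 = g` shows that `C(univ.erase g)` is acyclic; the subtype
`{x // g ∉ {x}}` has one element less and `N.erase g` corresponds to its `univ` (one needs a transfer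
lemma along an injection: the covering condition of tuples of the subtype is the same; it may be
convenient to prove the statement for general `supp` with: `supp` injective onto singletons, or for
`(G, N, supp)` with a bijection `G ≃ N`). Base: `G` empty, `N = ∅`: `C^0 = k`, `C^i = 0` for `i > 0`. -/
def Simplex : Prop :=
  ∀ (G : Type) [DecidableEq G] [Fintype G],
    Conc (VC k (fun g : G => ({g} : Finset G)) univ) (Fintype.card G)

/-- PACKAGE B5 (35 min), from `Tog`, `Prism`: acyclic patterns. Proof. `y_i ∈ N`: no tuple covers `N`,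
all cochains are zero. `θ_l ∉ N`: `Tog` with `g0 = inr l`. `γ_i ∈ N, γ_{i'} ∉ N`: `Prism` with `v = γ_i`,
`φ (X_{i j l}) = X_{i' j l}`, all other generators fixed. Similarly for `h`, `α`. `N` misses `γ, h, α`:
`Tog` with `g0 = X_{000}`. -/
def PatA (w : ℕ) : Prop :=
  ∀ N : Finset (Var w),
    ((∃ i, Var.y i ∈ N) ∨ (∃ l, Var.t l ∉ N) ∨ (∃ i i', Var.g i ∈ N ∧ Var.g i' ∉ N) ∨
      (∃ i i', Var.h i ∈ N ∧ Var.h i' ∉ N) ∨ (∃ i i', Var.a i ∈ N ∧ Var.a i' ∉ N) ∨
      ((∀ i, Var.g i ∉ N) ∧ (∀ i, Var.h i ∉ N) ∧ ∀ i, Var.a i ∉ N)) →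
    Acy (VC k (supp (w := w)) N)

/-- PACKAGE B6 (75 min), from `Tog`, `Prism`, `Ses`: the remaining patterns: `N ⊇ θ`, each of the pairs
`γ, h, α` is contained in `N` or disjoint from `N`, not all three disjoint. The cohomology is
concentrated in degree `w + 3 + (number of pairs in N)`. Proof. Remove the vertices one after the
other with `Ses`. First the `θ_l`: `N ∖ θ_l` is acyclic by `Tog` (`g0 = θ_l`), and `G_{θ_l}` is `G`
without the generator `θ_l`; after `w + 2` steps only generators `X_{ijl}` are left and `N` consists of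
`m` pairs; to show: concentrated in degree `m + 1`. If a second pair remains, e.g. `α ⊆ N` and another
pair: remove `α_0`: `N ∖ α_0` is acyclic by `Prism` (`v = α_1`, `X_{ij1} ↦ X_{ij0}`), `G_{α_0}` consists of
the generators with `α`-index 1, and there covering `N ∖ α_0` is the same as covering `N ∖ α`
(the rest of `N` is not empty), so the number of pairs drops by one and the degree by one. When only one
pair is left, say `γ`: remove `γ_0`: `N = {γ_1}`, acyclic by `Tog` (a generator with index 0); then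
`G` = generators with index 1, remove `γ_1`: `N = ∅` acyclic by `Tog`; then `G = ∅`, `N = ∅`,
concentrated in degree 0. Total `m - 1 + 2 = m + 1`. (It helps to prove first a transfer lemma for
`Conc (VC k supp N)` along an equivalence of `G`, and replacing `supp`, `N` by others with the same
covering relation.) -/
def PatC (w : ℕ) : Prop :=
  ∀ (N : Finset (Var w)) (bg bh ba : Bool), (bg = true ∨ bh = true ∨ ba = true) →
    (∀ i, Var.y i ∉ N) → (∀ l, Var.t l ∈ N) → (∀ i, Var.g i ∈ N ↔ bg = true) →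
    (∀ i, Var.h i ∈ N ↔ bh = true) → (∀ i, Var.a i ∈ N ↔ ba = true) →
    Conc (VC k (supp (w := w)) N) (w + 3 + bg.toNat + bh.toNat + ba.toNat)

/-- PACKAGE B7 (40 min): exactness may be tested coefficient by coefficient. Proof. Let `c ∈ Zd V p`.
The set `S` of all `u` with `(c j).coeff u ≠ 0` for some `j` is finite. For `u ∈ S` the scalar cochain
`c_u (j) = (c j).coeff u` lies in `Zd (W1 k (T · u)) p`, so `c_u = dd b_u`; put
`b j = ∑_{u ∈ S} b_u (j) · single u`. (`p = 0`: `c_u = 0` for all `u`.) -/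
def Coef : Prop :=
  ∀ (G E : Type) [DecidableEq G] [Finite G] [AddCommGroup E] (T : Finset G → E → Prop)
    (V : Finset G → Submodule k (AddMonoidAlgebra k E)),
    (∀ s f, f ∈ V s ↔ ∀ u, f.coeff u ≠ 0 → T s u) →
    ∀ p, (∀ u, ExD (W1 k fun s => T s u) p) → ExD V p

end Scalar

section Sys

variable (k : Type) [Field k] (w : ℕ)

/-- PACKAGE B8 (50 min), from `PatA`, `PatC`, `Coef`. Proof. `U k P A C ρ s` consists of the `f` with
`f.coeff u ≠ 0 → T s u`, `T s u = (P u ∧ degree conditions ∧ ∀ v, u v < 0 → v ∈ suppS s)`. For fixed `u`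
the family `W1 (T · u)` is zero, or `VC k supp N`, `N = {v | u v < 0}`. Check the patterns:
`Px`: exactly one `h` in `N`: acyclic. `Pp`: no `h` in `N`: non-acyclic only for `θ ⊆ N` and
`N ∩ (γ ∪ α)` = `γ`, `α` (degree `w + 4`) or `γ ∪ α` (degree `w + 5`): so exact in degree `w + 6`; and for
`C = 0` (`α`-degree = `γ`-degree) the first two are impossible (`γ ⊆ N`, `α` nonnegative: degrees
`≤ -2` and `≥ 0`), so exact in degree `w + 4`. `Pm`: both `h` in `N`, so `h`-degree `≤ -2`; if `γ` is not
negative then `h`-degree minus `γ`-degree `≤ -2 < A`; so `γ ⊆ N` and if `α` is not negative then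
`α`-degree minus `γ`-degree `≥ 2 > C`; so only the full pattern, degree `w + 6`. -/
def ExU : Prop :=
  (∀ A C ρ p, ExD (U k (w := w) Px A C ρ) p) ∧
  (∀ A ρ, ExD (U k (w := w) Pp A 0 ρ) (w + 4)) ∧
  (∀ A C ρ, ExD (U k (w := w) Pp A C ρ) (w + 6)) ∧
  (∀ A C ρ p, -1 ≤ A → C ≤ 1 → p ≠ w + 6 → ExD (U k (w := w) Pm A C ρ) p)

/-- `c ↦` the part with exponents satisfying `Neg` of `∑_j lam (j) c (j)` -/
noncomputable def chi {k : Type} [Field k] {w p : ℕ} (lam : (Fin p → GG w) → k)
    (c : (Fin p → GG w) → L k w) : L k w :=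
  restr Neg (∑ j, lam j • c j)

/-- `lam` computes the top cohomology (degree `p + 1`) of the systems `U k P A C ρ` -/
def LamGood (P : (Var w → ℤ) → Prop) (p : ℕ) (lam : (Fin (p + 1) → GG w) → k) : Prop :=
  ∀ A C ρ : ℤ,
    (∀ c ∈ CV (U k P A C ρ) (p + 1), chi lam c ∈ Dn k P A C ρ) ∧
    (∀ b ∈ CV (U k P A C ρ) p, chi lam (dd k p b) = 0) ∧
    (∀ c ∈ Zd (U k P A C ρ) (p + 1), chi lam c = 0 → c ∈ Bd (U k P A C ρ) (p + 1)) ∧
    (∀ g ∈ Dn k P A C ρ, ∃ c ∈ Zd (U k P A C ρ) (p + 1), chi lam c = g ∧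
      ∀ j u, (c j).coeff u ≠ 0 → g.coeff u ≠ 0) ∧
    (∀ c ∈ CV (U k P A C ρ) (p + 1), chi lam (fun j => qL k w * c j) = con (qL k w) (chi lam c)) ∧
    (∀ c ∈ CV (U k P A C ρ) (p + 1), chi lam (fun j => PhiL k w * c j) = con (PhiL k w) (chi lam c))

/-- PACKAGE B9 (75 min), from `PatA`, `PatC`. Proof. Let `V0 = VC k supp N_0` with `N_0 = θ ∪ γ ∪ α`
(class `Pp`, `p = w + 4`), resp. `N_0 = θ ∪ γ ∪ h ∪ α` (class `Pm`, `p = w + 5`). By `PatC` it has
one-dimensional cohomology in degree `p + 1`; by linear algebra (all spaces are finite-dimensional)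
there is a functional `lam` on the functions on `(p+1)`-tuples that vanishes on `Bd V0 (p+1)` and
not on `c0`, normalized: `lam c0 = 1`; a cocycle of `V0` with `lam = 0` is a coboundary. For `c` in
`CV (U k P A C ρ)` and `u` with `P u`, `Neg u` (and the degree conditions) the scalar cochain
`c_u` lies in `CV V0`, and `chi lam c` has coefficient `lam c_u` at `u`, which gives the second
condition; third condition: if `chi lam c = 0`, `dd c = 0`, then each `c_u` is a coboundary: for `u` with
`Neg u` because `lam c_u = 0`, for the other `u` because the pattern `{v | u v < 0}` is exact in degree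
`p + 1` (class `Pp`, degree `w + 5`: only `θ ∪ γ ∪ α` is not exact in this degree; class `Pm`, degree
`w + 6`: only the full pattern); assemble as in `Coef`. Fourth: `c j = ∑_u g.coeff u • c0 (j) single u`.
Last two: `restr Neg (q f) = restr Neg (q restr Neg f)` for `f = ∑ lam j • c j`: exponents of `q`, `Φ` are
nonnegative and the `y`-exponents of `f` are nonnegative (`y` is never in `suppS s`), so `u + v` `Neg`
with `v` an exponent of `q` implies `u` `Neg`. -/
def LamP : Prop := ∃ lam : (Fin (w + 4 + 1) → GG w) → k, LamGood k w Pp (w + 4) lam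

/-- PACKAGE B9 (same as `LamP`, for the class `Pm`). -/
def LamM : Prop := ∃ lam : (Fin (w + 5 + 1) → GG w) → k, LamGood k w Pm (w + 5) lam

/-- PACKAGE B10 (75 min): `q, Φ` is a regular sequence. `P` is any condition on the `h`-exponents.
Proof. Step 1, in the full Laurent ring `L k w` (a domain): if `q x = -Φ y` then `q | y`. Sort by the
exponent `t` of `θ_0`: `q = α_1^{w+1} θ_0 + q'` with `q'`, `Φ` free of `θ_0`. For
`y = ∑_{t=-M}^{M'} y_t θ_0^t` put `E(y) = ∑_t y_t (-q')^{t+M} (α_1^{w+1})^{M'-t}`. Then `E(q x) = 0` (with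
suitable `M, M'`; telescoping) and `E(Φ y) = Φ E(y)`, so `E(y) = 0`; and `E(y) = 0` implies
`y = q e`: solve `α_1^{w+1} e_{t-1} = y_t - q' e_t` from the top (`α_1` is a unit), the remainder at
the bottom is a unit times `E(y)`. Step 2: `y = q e`, then `q (x + Φ e) = 0` gives `x = -Φ e`. Step 3:
`e ∈ U k P (r+2) (-(w+1)) (r-2) s`: replacing `e` by its part with the right degrees and `P` does
not change `q e = y` (and `L` is a domain), so `e` has the right degrees; for a variable `v ∉ suppS s` the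
minimal exponent of `v` in `q e` is the sum of the minimal exponents in `q` and `e` (domain), and `q` has
minimal exponent `0` in every variable. -/
def Reg : Prop :=
  ∀ P : (Var w → ℤ) → Prop,
    (∀ u v, u (Var.h 0) = v (Var.h 0) → u (Var.h 1) = v (Var.h 1) → P u → P v) →
    ∀ (r : ℤ) (s : Finset (GG w)), ∀ x ∈ U k P r (-(w + 1)) r s, ∀ y ∈ U k P (r + 2) 0 (r - 2) s,
      qL k w * x + PhiL k w * y = 0 →
      ∃ e ∈ U k P (r + 2) (-(w + 1)) (r - 2) s, y = qL k w * e ∧ x = -(PhiL k w * e)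

/-- PACKAGE B11 (50 min), from `ExU`, `Reg` (class `Px`) and (class `Pp`) moreover `LamP` and
`hq`, `hΦ` = the two surjectivity statements `ConQ`, `ConP` of part A. Write `C00 = CV (U r 0 r)`,
`C10 = CV (U r (-(w+1)) r)`, `C01 = CV (U (r+2) 0 (r-2))`, `C11 = CV (U (r+2) (-(w+1)) (r-2))`
(class `P` understood), `p = w + 5`. Let `c ∈ C00^{p-1}`, `dc = q x + Φ y`, `x ∈ C10^p`, `y ∈ C01^p` (choose
for each tuple). `0 = ddc = q dx + Φ dy`, by `Reg`: `dx = -Φ e`, `dy = q e`, `e ∈ C11^{p+1}`, and
`de = 0` (`q de = ddy = 0`, domain). `C11` is exact in degree `p + 1 = w + 6`: `e = df`. Replace `x` by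
`x + Φ f`, `y` by `y - q f`: now `dx = 0 = dy`, `dc = q x + Φ y`. Class `Px`: everything is exact:
`x = dz`, `y = dv`, `d(c - q z - Φ v) = 0`, so `c - q z - Φ v = db`: `c ∈ BQ`. Class `Pp`: by `ConQ` and
`LamP` there is a cocycle `g ∈ C11^p` with `χ(q g) = χ(y)`, so `y = q g + dv`. Then
`c' = c - Φ v` has `dc' = q x''`, `x'' = x + Φ g` a cocycle, `con q (χ x'') = χ(q x'') = χ(dc') = 0`. By
`ConP` and `LamP` there is a cocycle `f' ∈ C11^p` with `con q (χ f') = 0`, `χ(Φ f') = χ(x'')`. So
`q f' = dv'` and `x'' - Φ f' = dz`; `d(c' - Φ v' - q z) = 0`; exactness of `C00` in degree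
`p - 1 = w + 4`: `= db`. So `c = db + q z + Φ (v + v') ∈ BQ`. (`PhiL`, `qL` map the families into each
other: prove this first.) -/
def ChPX : Prop :=
  ∀ r : ℕ, ZQ (U k (w := w) Pp r 0 r) (IN k Pp r) (w + 4) ≤ BQ (U k Pp r 0 r) (IN k Pp r) (w + 3) ∧
    ZQ (U k (w := w) Px r 0 r) (IN k Px r) (w + 4) ≤ BQ (U k Px r 0 r) (IN k Px r) (w + 3)

/-- all exponents of `f` have weight `ω` -/
def HomW {k : Type} [Field k] {w : ℕ} (ω : ℤ) (f : L k w) : Prop := ∀ u, f.coeff u ≠ 0 → wt u = ω

/-- the cohomology in degree `w + 4` of the strand `r` (for the condition `P` on the `h`-exponents)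
is `K(r)` -/
def PsiOf (P : (Var w → ℤ) → Prop) : Prop :=
  ∀ r : ℕ, ∃ Ψ : ZQ (U k (w := w) P r 0 r) (IN k P r) (w + 4) →ₗ[k] L k w,
    (∀ c, Ψ c ∈ KM k w r) ∧
    (∀ g ∈ KM k w r, ∃ c, Ψ c = g) ∧
    (∀ g ∈ KM k w r, ∀ ω, HomW ω g → ∃ c, Ψ c = g ∧ ∀ j, HomW (ω + 3) (c.1 j)) ∧
    ∀ c, Ψ c = 0 ↔ c.1 ∈ BQ (U k P r 0 r) (IN k P r) (w + 3)

/-- PACKAGE B12 (75 min), from `ExU`, `Reg`, `LamM`. Notation as in B11, class `Pm`. The relation
`Rel c g`: there are `x ∈ C10^{w+5}`, `y ∈ C01^{w+5}`, `e ∈ C11^{w+6}` with `dc = q x + Φ y`, `dx = -Φ e`,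
`dy = q e`, `χ(e) = g`. It is linear. (a) for every `c ∈ ZQ` there is such a `g` (`Reg`; choose per
tuple). (b) `g ∈ KM`: `con q g = χ(q e) = χ(dy) = 0`, `con Φ g = χ(Φ e) = -χ(dx) = 0`. (c) every
`g ∈ KM` occurs: `e` a cocycle with `χ(e) = g` (supported on the exponents of `g`); `χ(q e) = 0` so
`q e = dy`, similarly `-Φ e = dx`; `d(q x + Φ y) = 0`, exactness of `C00` in degree `w + 5`:
`q x + Φ y = dc`. Homogeneous version: replace `y`, `x`, `c` by their parts of weight `ω + 1`,
`ω + 2`, `ω + 3` (taking the part of given weight commutes with `dd`, preserves `U`; `q` has weight 1,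
`Φ` weight 2). (d) `Rel c 0` implies `c ∈ BQ`: `χ(e) = 0` so `e = df`; `x + Φ f`, `y - q f` are cocycles
of degree `w + 5`, exact: `= dz`, `= dv`; `d(c - q z - Φ v) = 0`, exact in degree `w + 4`. (e) `Rel c g`,
`c ∈ BQ` imply `g = 0`: `c = db + q z + Φ v`, `q (x - dz) + Φ (y - dv) = 0`, so by `Reg`
`y - dv = q f`, and `q e = dy = q df`, `e = df`, `χ(e) = 0`. By (a), (e) (with `c = 0`) the relation is
(the graph of) a linear map on `ZQ`. -/
def PsiM : Prop := PsiOf k w Pm

/-- PACKAGE B13 (45 min), from `PsiM`, `ChPX`. Proof. `f ↦ restr P f` for `P = Pp, Pm, Px`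
decomposes `U k PT`, and it commutes with `dd` and with multiplication by `q`, `Φ` (no `h` occurs in
them), so `IN k PT r s` decomposes too. Put `Ψ c = Ψ_m (restr Pm ∘ c)`. If it is zero then
`restr Pm ∘ c ∈ BQ`, and the other two parts are in `BQ` by `ChPX`; so `c ∈ BQ`. -/
def PsiT : Prop := PsiOf k w PT

end Sys

end Pool.Agent.T2H37.LB
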