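import Pool.Agent.T2H37.LB.StmA
import Pool.Agent.T2H37.LB.StmB

/-!
# LB, package B11: the classes `Pp` and `Px`
-/

set_option autoImplicit false

namespace Pool.Agent.T2H37.LB

open Finset

namespace B11

section Gen

variable {k : Type} [Field k] {G A : Type} [AddCommGroup A] [Module k A]

theorem dd_apply (i : ℕ) (c : (Fin i → G) → A) (j : Fin (i + 1) → G) :
    dd k i c j = ∑ m : Fin (i + 1), ((-1 : ℤ) ^ (m : ℕ)) • c (j ∘ m.succAbove) := by
  simp [dd]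

theorem dd_cons (i : ℕ) (c : (Fin (i + 1) → G) → A) (g : G) (j : Fin (i + 1) → G) :
    dd k (i + 1) c (Fin.cons g j) = c j - dd k i (fun j' => c (Fin.cons g j')) j := by
  rw [dd_apply, dd_apply, Fin.sum_univ_succ, sub_eq_add_neg, ← Finset.sum_neg_distrib]
  congr 1
  · simp only [Fin.val_zero, pow_zero, one_smul]
    congr 1
  · refine Finset.sum_congr rfl fun m _ => ?_
    have h : (Fin.cons g j : Fin (i + 2) → G) ∘ m.succ.succAbove = Fin.cons g (j ∘ m.succAbove) := by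
      funext x
      refine Fin.cases ?_ (fun y => ?_) x
      · simp
      · simp [Fin.succ_succAbove_succ]
    rw [h, Fin.val_succ, pow_succ, mul_neg, mul_one, neg_smul]

theorem dd_dd (i : ℕ) (c : (Fin i → G) → A) : dd k (i + 1) (dd k i c) = 0 := by
  induction i with
  | zero =>
    funext J
    obtain ⟨g, j, rfl⟩ : ∃ g j, J = Fin.cons g j := ⟨J 0, Fin.tail J, (Fin.cons_self_tail J).symm⟩
    have hc : ∀ a b : Fin 0 → G, c a = c b := fun a b => congrArg c (Subsingleton.elim a b)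
    rw [dd_cons, Pi.zero_apply, sub_eq_zero]
    simp only [dd_apply, Fin.sum_univ_succ, Fin.sum_univ_zero, Fin.val_zero, pow_zero, one_smul,
      add_zero]
    exact hc _ _
  | succ i ih =>
    funext J
    obtain ⟨g, j, rfl⟩ : ∃ g j, J = Fin.cons g j := ⟨J 0, Fin.tail J, (Fin.cons_self_tail J).symm⟩
    rw [dd_cons]
    have h1 : (fun j' => dd k (i + 1) c (Fin.cons g j')) =
        c - dd k i (fun j' => c (Fin.cons g j')) := by
      funext j'
      rw [dd_cons]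
      rfl
    rw [h1, map_sub, ih]
    simp

variable [DecidableEq G]

theorem CV_dd {V : Finset G → Submodule k A} (hV : ∀ s t, s ⊆ t → V s ≤ V t) {i : ℕ}
    {c : (Fin i → G) → A} (hc : c ∈ CV V i) : dd k i c ∈ CV V (i + 1) := by
  intro j
  rw [dd_apply]
  refine Submodule.sum_mem _ fun m _ => ?_
  have h1 : c (j ∘ m.succAbove) ∈ V (univ.image j) := by
    refine hV _ _ ?_ (hc _)
    intro x hx
    obtain ⟨y, _, rfl⟩ := Finset.mem_image.1 hx
    exact Finset.mem_image_of_mem _ (Finset.mem_univ _)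
  exact zsmul_mem h1 _

end Gen

variable {k : Type} [Field k] {w : ℕ}

/-- pointwise multiplication -/
noncomputable def mu (f : L k w) {i : ℕ} (c : (Fin i → GG w) → L k w) : (Fin i → GG w) → L k w :=
  fun j => f * c j

theorem dd_mu (f : L k w) {i : ℕ} (c : (Fin i → GG w) → L k w) :
    dd k i (mu f c) = mu f (dd k i c) := by
  funext j
  rw [dd_apply]
  unfold mu
  rw [dd_apply, Finset.mul_sum]
  exact Finset.sum_congr rfl fun m _ => (mul_smul_comm _ _ _).symm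

theorem U_mono (P : (Var w → ℤ) → Prop) (A C ρ : ℤ) (s t : Finset (GG w)) (h : s ⊆ t) :
    U k P A C ρ s ≤ U k P A C ρ t := by
  intro f hf u hu
  obtain ⟨h1, h2, h3, h4, h5⟩ := hf u hu
  exact ⟨h1, h2, h3, h4, fun v hv => Finset.biUnion_subset_biUnion_of_subset_left _ h (h5 v hv)⟩

/-- `P` depends only on the `h`-exponents -/
def HP (P : (Var w → ℤ) → Prop) : Prop :=
  ∀ u v : Var w → ℤ, u (Var.h 0) = v (Var.h 0) → u (Var.h 1) = v (Var.h 1) → P u → P v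

theorem mon_mem {P : (Var w → ℤ) → Prop} (hP : HP P) {e : Var w → ℤ} (he : ∀ v, 0 ≤ e v)
    (hh : ∀ i, e (Var.h i) = 0) {A C ρ : ℤ} {s : Finset (GG w)} {f : L k w}
    (hf : f ∈ U k P A C ρ s) {A' C' ρ' : ℤ} (hA : A' = A - gs e) (hC : C' = C + as e - gs e)
    (hρ : ρ' = ρ + ys e) : mon k e * f ∈ U k P A' C' ρ' s := by
  intro u hu
  unfold mon at hu
  rw [AddMonoidAlgebra.coeff_single_mul_apply, one_mul] at hu
  obtain ⟨h1, h2, h3, h4, h5⟩ := hf _ hu
  have e1 : ∀ v, (-e + u) v = u v - e v := fun v => by simp [sub_eq_neg_add]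
  refine ⟨?_, ?_, ?_, ?_, ?_⟩
  · refine hP (-e + u) u ?_ ?_ h1
    · rw [e1, hh, sub_zero]
    · rw [e1, hh, sub_zero]
  · simp only [hs, gs, as, ys, e1, hh] at *
    linarith
  · simp only [hs, gs, as, ys, e1, hh] at *
    linarith
  · simp only [hs, gs, as, ys, e1, hh] at *
    linarith
  · intro v hv
    apply h5
    rw [e1]
    have := he v
    linarith

theorem ev_nonneg (a v : Var w) : 0 ≤ ev a v := by
  unfold ev
  by_cases h : v = a
  · subst h
    simp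
  · simp [h]

theorem q_mem {P : (Var w → ℤ) → Prop} (hP : HP P) {A C ρ : ℤ} {s : Finset (GG w)} {f : L k w}
    (hf : f ∈ U k P A C ρ s) {C' : ℤ} (hC : C' = C + (w + 1)) :
    qL k w * f ∈ U k P A C' ρ s := by
  unfold qL
  rw [Finset.sum_mul]
  refine Submodule.sum_mem _ fun l _ => ?_
  rw [smul_mul_assoc]
  refine zsmul_mem ?_ _
  have hl : (l : ℕ) ≤ w + 1 := by omega
  have hcast : ((w + 1 - (l : ℕ) : ℕ) : ℤ) = w + 1 - (l : ℕ) := by
    rw [Nat.cast_sub hl]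
    push_cast
    ring
  refine mon_mem hP (fun v => ?_) (fun i => ?_) hf ?_ ?_ ?_
  · simp only [Pi.add_apply, Pi.smul_apply]
    have h1 := ev_nonneg (Var.t l) v
    have h2 := ev_nonneg (Var.a 0) v
    have h3 := ev_nonneg (Var.a 1) v
    have h4 := smul_nonneg (Nat.zero_le (l : ℕ)) h2
    have h5 := smul_nonneg (Nat.zero_le (w + 1 - (l : ℕ))) h3
    linarith
  · simp [ev]
  · simp [gs, ev]
  · simp only [as, gs, ev, Pi.add_apply, Pi.smul_apply]
    simp [hcast]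
    rw [hC]
  · simp [ys, ev]

theorem mPhi_mem {P : (Var w → ℤ) → Prop} (hP : HP P) {A C ρ : ℤ} {s : Finset (GG w)} {f : L k w}
    (hf : f ∈ U k P A C ρ s) {x b c : ℕ} (hx : x ≤ 2) (hb : b ≤ 2) (hc : c ≤ 2) :
    mPhi k w x b c * f ∈ U k P (A - 2) C (ρ + 2) s := by
  unfold mPhi
  have e1 : ((2 - x : ℕ) : ℤ) = 2 - x := by omega
  have e2 : ((2 - b : ℕ) : ℤ) = 2 - b := by omega
  have e3 : ((2 - c : ℕ) : ℤ) = 2 - c := by omega
  refine mon_mem hP (fun v => ?_) (fun i => ?_) hf ?_ ?_ ?_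
  · simp only [Pi.add_apply, Pi.smul_apply]
    have h1 := smul_nonneg (Nat.zero_le (2 - x)) (ev_nonneg (Var.g 0) v)
    have h2 := smul_nonneg (Nat.zero_le x) (ev_nonneg (Var.g 1) v)
    have h3 := smul_nonneg (Nat.zero_le (2 - b)) (ev_nonneg (Var.a 0) v)
    have h4 := smul_nonneg (Nat.zero_le b) (ev_nonneg (Var.a 1) v)
    have h5 := smul_nonneg (Nat.zero_le (2 - c)) (ev_nonneg (Var.y 0) v)
    have h6 := smul_nonneg (Nat.zero_le c) (ev_nonneg (Var.y 1) v)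
    linarith
  · simp [ev]
  · simp [gs, ev]
    omega
  · simp [as, gs, ev]
    omega
  · simp [ys, ev]
    omega

theorem Phi_mem {P : (Var w → ℤ) → Prop} (hP : HP P) {A C ρ : ℤ} {s : Finset (GG w)} {f : L k w}
    (hf : f ∈ U k P A C ρ s) {A' ρ' : ℤ} (hA : A' = A - 2) (hρ : ρ' = ρ + 2) :
    PhiL k w * f ∈ U k P A' C ρ' s := by
  subst hA hρ
  have h : ∀ x b c : ℕ, x ≤ 2 → b ≤ 2 → c ≤ 2 → mPhi k w x b c * f ∈ U k P (A - 2) C (ρ + 2) s :=
    fun x b c hx hb hc => mPhi_mem hP hf hx hb hc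
  have e : PhiL k w * f = mPhi k w 0 0 0 * f - mPhi k w 2 0 0 * f - mPhi k w 0 2 0 * f
      - mPhi k w 0 0 2 * f - mPhi k w 2 2 0 * f - mPhi k w 0 2 2 * f - mPhi k w 2 0 2 * f
      + mPhi k w 2 2 2 * f + (4 : ℤ) • (mPhi k w 1 1 1 * f) := by
    unfold PhiL
    rw [add_mul, add_mul, sub_mul, sub_mul, sub_mul, sub_mul, sub_mul, sub_mul, smul_mul_assoc]
  have h0 := h 0 0 0 (by norm_num) (by norm_num) (by norm_num)
  have h1 := h 2 0 0 (by norm_num) (by norm_num) (by norm_num)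
  have h2 := h 0 2 0 (by norm_num) (by norm_num) (by norm_num)
  have h3 := h 0 0 2 (by norm_num) (by norm_num) (by norm_num)
  have h4 := h 2 2 0 (by norm_num) (by norm_num) (by norm_num)
  have h5 := h 0 2 2 (by norm_num) (by norm_num) (by norm_num)
  have h6 := h 2 0 2 (by norm_num) (by norm_num) (by norm_num)
  have h7 := h 2 2 2 (by norm_num) (by norm_num) (by norm_num)
  have h8 := h 1 1 1 (by norm_num) (by norm_num) (by norm_num)
  rw [e]
  exact add_mem (add_mem (sub_mem (sub_mem (sub_mem (sub_mem (sub_mem (sub_mem h0 h1) h2) h3) h4)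
    h5) h6) h7) (zsmul_mem h8 _)

theorem q_ne : qL k w ≠ 0 := by
  intro h
  have h1 : (qL k w).coeff (ev (Var.t 0) + (w + 1) • ev (Var.a 1)) = 0 := by rw [h]; rfl
  unfold qL at h1
  rw [AddMonoidAlgebra.coeff_sum, Finsupp.finsetSum_apply, Finset.sum_eq_single 0] at h1
  · simp only [Fin.val_zero, pow_zero, one_smul, zero_smul, add_zero, Nat.sub_zero, mon,
      AddMonoidAlgebra.coeff_single, Finsupp.single_eq_same] at h1
    exact one_ne_zero h1
  · intro l _ hl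
    have h2 : (ev (Var.t l) + (l : ℕ) • ev (Var.a 0) + (w + 1 - (l : ℕ)) • ev (Var.a 1) :
        Var w → ℤ) ≠ ev (Var.t 0) + (w + 1) • ev (Var.a 1) := by
      intro h3
      have h4 := congrFun h3 (Var.t 0)
      simp [ev, Ne.symm hl] at h4
    unfold mon
    rw [AddMonoidAlgebra.coeff_smul, AddMonoidAlgebra.coeff_single, Finsupp.smul_apply,
      Finsupp.single_eq_of_ne (Ne.symm h2), smul_zero]
  · intro h3
    exact absurd (Finset.mem_univ _) h3

theorem mu_add (f : L k w) {i : ℕ} (c c' : (Fin i → GG w) → L k w) :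
    mu f (c + c') = mu f c + mu f c' := by
  funext j
  exact mul_add _ _ _

theorem mu_sub (f : L k w) {i : ℕ} (c c' : (Fin i → GG w) → L k w) :
    mu f (c - c') = mu f c - mu f c' := by
  funext j
  exact mul_sub _ _ _

theorem mu_mu (f g : L k w) {i : ℕ} (c : (Fin i → GG w) → L k w) :
    mu f (mu g c) = mu g (mu f c) := by
  funext j
  exact mul_left_comm _ _ _

theorem mu_zero (f : L k w) {i : ℕ} : mu f (0 : (Fin i → GG w) → L k w) = 0 := by
  funext j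
  exact mul_zero _

/-- The first step. -/
theorem lift1 {P : (Var w → ℤ) → Prop} (hP : HP P) (hR : Reg k w) (r : ℕ)
    (hE : ExD (U k (w := w) P (r + 2) (-(w + 1)) (r - 2)) (w + 6))
    {c : (Fin (w + 4) → GG w) → L k w} (hc : c ∈ ZQ (U k P r 0 r) (IN k P r) (w + 4)) :
    ∃ x ∈ Zd (U k P r (-(w + 1)) r) (w + 5), ∃ y ∈ Zd (U k P (r + 2) 0 (r - 2)) (w + 5),
      dd k (w + 4) c = mu (qL k w) x + mu (PhiL k w) y := by
  obtain ⟨hc1, hc2⟩ := hc
  have hc2' : ∀ j, dd k (w + 4) c j ∈ IN k P r (univ.image j) := hc2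
  have h1 : ∀ j : Fin (w + 5) → GG w, ∃ x y, x ∈ U k P r (-(w + 1)) r (univ.image j) ∧
      y ∈ U k P (r + 2) 0 (r - 2) (univ.image j) ∧
      dd k (w + 4) c j = qL k w * x + PhiL k w * y := by
    intro j
    obtain ⟨a, ⟨x, hx, rfl⟩, b, ⟨y, hy, rfl⟩, h⟩ := Submodule.mem_sup.1 (hc2' j)
    exact ⟨x, y, hx, hy, h.symm⟩
  choose x y hx hy hxy using h1
  have hxy' : dd k (w + 4) c = mu (qL k w) x + mu (PhiL k w) y := funext hxy
  have hx' : x ∈ CV (U k P r (-(w + 1)) r) (w + 5) := hx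
  have hy' : y ∈ CV (U k P (r + 2) 0 (r - 2)) (w + 5) := hy
  have hdx := CV_dd (U_mono P r (-(w + 1)) r) hx'
  have hdy := CV_dd (U_mono P (r + 2) 0 (r - 2)) hy'
  have h2 : mu (qL k w) (dd k (w + 5) x) + mu (PhiL k w) (dd k (w + 5) y) = 0 := by
    rw [← dd_mu, ← dd_mu, ← map_add, ← hxy', dd_dd]
  have h3 : ∀ j : Fin (w + 6) → GG w, ∃ e ∈ U k P (r + 2) (-(w + 1)) (r - 2) (univ.image j),
      dd k (w + 5) y j = qL k w * e ∧ dd k (w + 5) x j = -(PhiL k w * e) := fun j =>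
    hR P hP r (univ.image j) _ (hdx j) _ (hdy j) (congrFun h2 j)
  choose e he hye hxe using h3
  have hde : dd k (w + 6) e = 0 := by
    have h4 : mu (qL k w) (dd k (w + 6) e) = 0 := by
      rw [← dd_mu]
      have h5 : mu (qL k w) e = dd k (w + 5) y := funext fun j => (hye j).symm
      rw [h5, dd_dd]
    funext j
    have h6 := congrFun h4 j
    exact (mul_eq_zero.1 h6).resolve_left q_ne
  obtain ⟨f, hf, hfe⟩ : e ∈ (CV (U k P (r + 2) (-(w + 1)) (r - 2)) (w + 5)).map (dd k (w + 5)) :=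
    hE ⟨he, hde⟩
  have hf' : ∀ j, f j ∈ U k P (r + 2) (-(w + 1)) (r - 2) (univ.image j) := hf
  refine ⟨x + mu (PhiL k w) f, ⟨?_, ?_⟩, y - mu (qL k w) f, ⟨?_, ?_⟩, ?_⟩
  · refine Submodule.add_mem _ hx' fun j => ?_
    exact Phi_mem hP (hf' j) (by ring) (by ring)
  · show dd k (w + 5) (x + mu (PhiL k w) f) = 0
    rw [map_add, dd_mu, hfe]
    funext j
    show dd k (w + 5) x j + PhiL k w * e j = 0
    rw [hxe j]
    ring
  · refine Submodule.sub_mem _ hy' fun j => ?_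
    exact q_mem hP (hf' j) (by ring)
  · show dd k (w + 5) (y - mu (qL k w) f) = 0
    rw [map_sub, dd_mu, hfe]
    funext j
    show dd k (w + 5) y j - qL k w * e j = 0
    rw [hye j]
    ring
  · rw [hxy', mu_add, mu_sub, mu_mu]
    abel

theorem HPp : HP (w := w) Pp := fun u v h0 h1 h => ⟨h0 ▸ h.1, h1 ▸ h.2⟩

theorem HPm : HP (w := w) Pm := fun u v h0 h1 h => ⟨h0 ▸ h.1, h1 ▸ h.2⟩

theorem HPx : HP (w := w) Px := fun u v h0 h1 h =>
  ⟨fun h' => h.1 (HPp v u h0.symm h1.symm h'), fun h' => h.2 (HPm v u h0.symm h1.symm h')⟩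

/-- membership in `BQ` -/
theorem mem_BQ {P : (Var w → ℤ) → Prop} (r : ℕ) {c : (Fin (w + 4) → GG w) → L k w}
    {b : (Fin (w + 3) → GG w) → L k w} (hb : b ∈ CV (U k P r 0 r) (w + 3))
    {z v : (Fin (w + 4) → GG w) → L k w} (hz : z ∈ CV (U k P r (-(w + 1)) r) (w + 4))
    (hv : v ∈ CV (U k P (r + 2) 0 (r - 2)) (w + 4))
    (h : c = dd k (w + 3) b + (mu (qL k w) z + mu (PhiL k w) v)) :
    c ∈ BQ (U k P r 0 r) (IN k P r) (w + 3) := by
  rw [h]
  refine Submodule.add_mem_sup (Submodule.mem_map_of_mem hb) fun j => ?_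
  exact Submodule.add_mem_sup (Submodule.mem_map_of_mem (hz j)) (Submodule.mem_map_of_mem (hv j))

theorem casePx (hE : ExU k w) (hR : Reg k w) (r : ℕ) :
    ZQ (U k (w := w) Px r 0 r) (IN k Px r) (w + 4) ≤ BQ (U k Px r 0 r) (IN k Px r) (w + 3) := by
  intro c hc
  obtain ⟨x, hx, y, hy, hxy⟩ := lift1 HPx hR r (hE.1 _ _ _ _) hc
  obtain ⟨z, hz, rfl⟩ : x ∈ (CV (U k Px r (-(w + 1)) r) (w + 4)).map (dd k (w + 4)) :=
    hE.1 _ _ _ _ hx
  obtain ⟨v, hv, rfl⟩ : y ∈ (CV (U k Px (r + 2) 0 (r - 2)) (w + 4)).map (dd k (w + 4)) :=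
    hE.1 _ _ _ _ hy
  have hc1 : c ∈ CV (U k Px r 0 r) (w + 4) := hc.1
  have h1 : c - mu (qL k w) z - mu (PhiL k w) v ∈ Zd (U k Px r 0 r) (w + 4) := by
    refine ⟨?_, ?_⟩
    · refine Submodule.sub_mem _ (Submodule.sub_mem _ hc1 fun j => ?_) fun j => ?_
      · exact q_mem HPx (hz j) (by ring)
      · exact Phi_mem HPx (hv j) (by ring) (by ring)
    · show dd k (w + 4) (c - mu (qL k w) z - mu (PhiL k w) v) = 0
      rw [map_sub, map_sub, hxy, dd_mu, dd_mu]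
      abel
  obtain ⟨b, hb, hb'⟩ : c - mu (qL k w) z - mu (PhiL k w) v ∈
      (CV (U k Px r 0 r) (w + 3)).map (dd k (w + 3)) := hE.1 _ _ _ _ h1
  refine mem_BQ r hb hz hv ?_
  rw [hb']
  abel

theorem casePp (hE : ExU k w) (hR : Reg k w) (hL : LamP k w) (hQ : ConQ k w) (hP : ConP k w)
    (r : ℕ) :
    ZQ (U k (w := w) Pp r 0 r) (IN k Pp r) (w + 4) ≤ BQ (U k Pp r 0 r) (IN k Pp r) (w + 3) := by
  intro c hc
  obtain ⟨lam, hlam⟩ := hL
  obtain ⟨x, hx, y, hy, hxy⟩ := lift1 HPp hR r (hE.2.2.1 _ _ _) hc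
  have hc1 : c ∈ CV (U k Pp r 0 r) (w + 4) := hc.1
  obtain ⟨a1, a2, a3, a4, a5, a6⟩ := hlam (r + 2) 0 (r - 2)
  obtain ⟨b1, b2, b3, b4, b5, b6⟩ := hlam (r + 2) (-(w + 1)) (r - 2)
  obtain ⟨c1, c2, c3, c4, c5, c6⟩ := hlam r (-(w + 1)) r
  obtain ⟨d1, d2, d3, d4, d5, d6⟩ := hlam r 0 r
  -- linearity of `chi`
  have chi_sub : ∀ f g : (Fin (w + 5) → GG w) → L k w, chi lam (f - g) = chi lam f - chi lam g := by
    intro f g
    unfold chi
    rw [← map_sub]
    congr 1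
    rw [← Finset.sum_sub_distrib]
    exact Finset.sum_congr rfl fun j _ => by rw [Pi.sub_apply, smul_sub]
  -- `g`
  obtain ⟨g0, hg0, hg0'⟩ := hQ (r + 2) 0 (r - 2) (chi lam y) (a1 y hy.1)
  rw [zero_sub] at hg0
  obtain ⟨g, hg, hgc, -⟩ := b4 g0 hg0
  have e1 : chi lam (y - mu (qL k w) g) = 0 := by
    have h1 : chi lam (mu (qL k w) g) = con (qL k w) (chi lam g) := b5 g hg.1
    rw [chi_sub, h1, hgc, hg0', sub_self]
  have hdg : dd k (w + 5) g = 0 := hg.2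
  have hdy : dd k (w + 5) y = 0 := hy.2
  have hdx : dd k (w + 5) x = 0 := hx.2
  have m1 : y - mu (qL k w) g ∈ Zd (U k Pp (r + 2) 0 (r - 2)) (w + 5) := by
    refine ⟨Submodule.sub_mem _ hy.1 fun j => q_mem HPp (hg.1 j) (by ring), ?_⟩
    show dd k (w + 5) (y - mu (qL k w) g) = 0
    rw [map_sub, dd_mu, hdg, hdy, mu_zero, sub_zero]
  obtain ⟨v, hv, hv'⟩ : y - mu (qL k w) g ∈
      (CV (U k Pp (r + 2) 0 (r - 2)) (w + 4)).map (dd k (w + 4)) := a3 _ m1 e1
  -- `x''`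
  have m2 : x + mu (PhiL k w) g ∈ Zd (U k Pp r (-(w + 1)) r) (w + 5) := by
    refine ⟨Submodule.add_mem _ hx.1 fun j => Phi_mem HPp (hg.1 j) (by ring) (by ring), ?_⟩
    show dd k (w + 5) (x + mu (PhiL k w) g) = 0
    rw [map_add, dd_mu, hdg, hdx, mu_zero, add_zero]
  have m3 : c - mu (PhiL k w) v ∈ CV (U k Pp r 0 r) (w + 4) :=
    Submodule.sub_mem _ hc1 fun j => Phi_mem HPp (hv j) (by ring) (by ring)
  have e2 : dd k (w + 4) (c - mu (PhiL k w) v) = mu (qL k w) (x + mu (PhiL k w) g) := by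
    rw [map_sub, dd_mu, hv', hxy, mu_sub, mu_add, mu_mu (PhiL k w) (qL k w)]
    abel
  have e3 : con (qL k w) (chi lam (x + mu (PhiL k w) g)) = 0 := by
    have h1 : chi lam (mu (qL k w) (x + mu (PhiL k w) g)) =
      con (qL k w) (chi lam (x + mu (PhiL k w) g)) := c5 _ m2.1
    rw [← h1, ← e2]
    exact d2 _ m3
  obtain ⟨g1, hg1, hg1q, hg1P⟩ := hP r _ (c1 _ m2.1) e3
  obtain ⟨f, hf, hfc, -⟩ := b4 g1 hg1
  have hdf : dd k (w + 5) f = 0 := hf.2
  have e4 : chi lam (mu (qL k w) f) = 0 := by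
    have h1 : chi lam (mu (qL k w) f) = con (qL k w) (chi lam f) := b5 f hf.1
    rw [h1, hfc, hg1q]
  have e5 : chi lam (x + mu (PhiL k w) g - mu (PhiL k w) f) = 0 := by
    have h1 : chi lam (mu (PhiL k w) f) = con (PhiL k w) (chi lam f) := b6 f hf.1
    rw [chi_sub, h1, hfc, hg1P, sub_self]
  have m4 : mu (qL k w) f ∈ Zd (U k Pp (r + 2) 0 (r - 2)) (w + 5) := by
    refine ⟨fun j => q_mem HPp (hf.1 j) (by ring), ?_⟩
    show dd k (w + 5) (mu (qL k w) f) = 0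
    rw [dd_mu, hdf, mu_zero]
  obtain ⟨v', hv1, hv1'⟩ : mu (qL k w) f ∈
      (CV (U k Pp (r + 2) 0 (r - 2)) (w + 4)).map (dd k (w + 4)) := a3 _ m4 e4
  have m5 : x + mu (PhiL k w) g - mu (PhiL k w) f ∈ Zd (U k Pp r (-(w + 1)) r) (w + 5) := by
    refine ⟨Submodule.sub_mem _ m2.1 fun j => Phi_mem HPp (hf.1 j) (by ring) (by ring), ?_⟩
    have h1 : dd k (w + 5) (x + mu (PhiL k w) g) = 0 := m2.2
    show dd k (w + 5) (x + mu (PhiL k w) g - mu (PhiL k w) f) = 0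
    rw [map_sub, h1, dd_mu, hdf, mu_zero, sub_zero]
  obtain ⟨z, hz, hz'⟩ : x + mu (PhiL k w) g - mu (PhiL k w) f ∈
      (CV (U k Pp r (-(w + 1)) r) (w + 4)).map (dd k (w + 4)) := c3 _ m5 e5
  have m6 : c - mu (PhiL k w) v - mu (PhiL k w) v' - mu (qL k w) z ∈
      Zd (U k Pp r 0 r) (w + 4) := by
    refine ⟨Submodule.sub_mem _ (Submodule.sub_mem _ m3 fun j =>
      Phi_mem HPp (hv1 j) (by ring) (by ring)) fun j => q_mem HPp (hz j) (by ring), ?_⟩
    show dd k (w + 4) (c - mu (PhiL k w) v - mu (PhiL k w) v' - mu (qL k w) z) = 0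
    rw [map_sub, map_sub, e2, dd_mu, dd_mu, hv1', hz', mu_sub, mu_mu (PhiL k w) (qL k w)]
    abel
  obtain ⟨b, hb, hb'⟩ : c - mu (PhiL k w) v - mu (PhiL k w) v' - mu (qL k w) z ∈
      (CV (U k Pp r 0 r) (w + 3)).map (dd k (w + 3)) := hE.2.1 _ _ m6
  refine mem_BQ r hb hz (Submodule.add_mem _ hv hv1) ?_
  rw [hb', mu_add]
  abel

end B11

theorem ChPX_proof (k : Type) [Field k] (w : ℕ) (hE : ExU k w) (hR : Reg k w) (hL : LamP k w)
    (hQ : ConQ k w) (hP : ConP k w) : ChPX k w :=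
  fun r => ⟨B11.casePp hE hR hL hQ hP r, B11.casePx hE hR r⟩

end Pool.Agent.T2H37.LB
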