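import Pool.Agent.T2H37.LB.StmB

set_option autoImplicit false

namespace Pool.Agent.T2H37.LB

open Finset

namespace B12

section Gen

variable {k : Type} [Field k] {G A : Type} [AddCommGroup A] [Module k A]

theorem dd_apply (i : ℕ) (c : (Fin i → G) → A) (j : Fin (i + 1) → G) :
    dd k i c j = ∑ m : Fin (i + 1), ((-1 : ℤ) ^ (m : ℕ)) • c (j ∘ m.succAbove) := by
  simp [dd]

theorem dd_dd (i : ℕ) (c : (Fin i → G) → A) : dd k (i + 1) (dd k i c) = 0 := by
  funext j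
  rw [dd_apply]
  simp only [dd_apply, Finset.smul_sum, smul_smul]
  rw [← Finset.sum_product', Pi.zero_apply]
  refine Finset.sum_involution (fun x _ => (x.1.succAbove x.2, x.2.predAbove x.1)) ?_ ?_ ?_ ?_
  · rintro ⟨a, b⟩ _
    have h1 : (j ∘ (a.succAbove b).succAbove) ∘ (b.predAbove a).succAbove =
        (j ∘ a.succAbove) ∘ b.succAbove := by
      funext x
      simp only [Function.comp_apply]
      rw [Fin.succAbove_succAbove_succAbove_predAbove]
    have h2 := Fin.neg_one_pow_succAbove_add_predAbove (R := ℤ) a b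
    simp only
    rw [h1, ← pow_add, ← pow_add, h2, neg_smul, add_neg_cancel]
  · rintro ⟨a, b⟩ _ _ h
    exact Fin.succAbove_ne a b (congrArg Prod.fst h)
  · rintro ⟨a, b⟩ _
    exact Finset.mem_product.2 ⟨Finset.mem_univ _, Finset.mem_univ _⟩
  · rintro ⟨a, b⟩ _
    simp only [Prod.mk.injEq]
    exact ⟨Fin.succAbove_succAbove_predAbove a b, Fin.predAbove_predAbove_succAbove a b⟩

theorem dd_map (T : A →ₗ[k] A) (i : ℕ) (c : (Fin i → G) → A) :
    dd k i (fun j => T (c j)) = fun j => T (dd k i c j) := by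
  funext j
  rw [dd_apply, dd_apply, map_sum]
  refine Finset.sum_congr rfl fun m _ => ?_
  rw [map_zsmul]

theorem dd_mem [DecidableEq G] {V : Finset G → Submodule k A} (hV : ∀ s t, s ⊆ t → V s ≤ V t)
    {i : ℕ} {c : (Fin i → G) → A} (hc : c ∈ CV V i) : dd k i c ∈ CV V (i + 1) := by
  intro j
  rw [dd_apply]
  refine Submodule.sum_mem _ fun m _ => zsmul_mem (hV _ _ ?_ (hc _)) _
  intro x hx
  simp only [mem_image, mem_univ, true_and, Function.comp_apply] at hx ⊢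
  obtain ⟨a, ha⟩ := hx
  exact ⟨_, ha⟩

end Gen

variable {k : Type} [Field k] {w : ℕ}

theorem restr_pos {P : (Var w → ℤ) → Prop} (f : L k w) {u : Var w → ℤ} (h : P u) :
    (restr P f).coeff u = f.coeff u := by
  classical
  exact Finsupp.filter_apply_pos _ _ h

theorem restr_neg {P : (Var w → ℤ) → Prop} (f : L k w) {u : Var w → ℤ} (h : ¬ P u) :
    (restr P f).coeff u = 0 := by
  classical
  exact Finsupp.filter_apply_neg _ _ h

theorem restr_ne {P : (Var w → ℤ) → Prop} {f : L k w} {u : Var w → ℤ}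
    (h : (restr P f).coeff u ≠ 0) : P u ∧ f.coeff u ≠ 0 := by
  by_cases hP : P u
  · exact ⟨hP, by rwa [restr_pos f hP] at h⟩
  · exact absurd (restr_neg f hP) h

theorem restr_eq_self {P : (Var w → ℤ) → Prop} {f : L k w} (h : ∀ u, f.coeff u ≠ 0 → P u) :
    restr P f = f := by
  ext u
  by_cases hP : P u
  · exact restr_pos f hP
  · rw [restr_neg f hP]
    by_contra h'
    exact hP (h u (Ne.symm h'))

theorem restr_eq_zero {P : (Var w → ℤ) → Prop} {f : L k w} (h : ∀ u, f.coeff u ≠ 0 → ¬ P u) :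
    restr P f = 0 := by
  ext u
  by_cases hP : P u
  · rw [restr_pos f hP]
    by_contra h'
    exact h u h' hP
  · rw [restr_neg f hP]; rfl

theorem restr_mem {P Q : (Var w → ℤ) → Prop} {A C ρ : ℤ} {s : Finset (GG w)} {f : L k w}
    (h : f ∈ U k P A C ρ s) : restr Q f ∈ U k P A C ρ s :=
  fun u hu => h u (restr_ne hu).2

theorem U_mono (P : (Var w → ℤ) → Prop) (A C ρ : ℤ) (s t : Finset (GG w)) (h : s ⊆ t) :
    U k P A C ρ s ≤ U k P A C ρ t := by
  intro f hf u hu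
  obtain ⟨h1, h2, h3, h4, h5⟩ := hf u hu
  exact ⟨h1, h2, h3, h4, fun v hv => Finset.biUnion_subset_biUnion_of_subset_left _ h (h5 v hv)⟩

theorem coeff_mul_ne {f g : L k w} {u : Var w → ℤ} (h : (f * g).coeff u ≠ 0) :
    ∃ u1 u2, f.coeff u1 ≠ 0 ∧ g.coeff u2 ≠ 0 ∧ u1 + u2 = u := by
  classical
  have h1 := AddMonoidAlgebra.support_coeff_mul_subset f g (Finsupp.mem_support_iff.2 h)
  obtain ⟨u1, h2, u2, h3, h4⟩ := Finset.mem_add.1 h1
  exact ⟨u1, u2, Finsupp.mem_support_iff.1 h2, Finsupp.mem_support_iff.1 h3, h4⟩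

/-- the trivial condition on the `h`-exponents of `q` and `Φ` -/
def P0 (u : Var w → ℤ) : Prop := u (Var.h 0) = 0 ∧ u (Var.h 1) = 0

theorem mul_mem {P : (Var w → ℤ) → Prop}
    (hP : ∀ u v, u (Var.h 0) = v (Var.h 0) → u (Var.h 1) = v (Var.h 1) → P u → P v)
    {A C ρ a b d : ℤ} {s : Finset (GG w)} {m f : L k w} (hm : m ∈ U k P0 a b d ∅)
    (hf : f ∈ U k P A C ρ s) : m * f ∈ U k P (A + a) (C + b) (ρ + d) s := by
  intro u hu
  obtain ⟨u1, u2, h1, h2, rfl⟩ := coeff_mul_ne hu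
  obtain ⟨⟨m1, m1'⟩, m2, m3, m4, m5⟩ := hm u1 h1
  obtain ⟨f1, f2, f3, f4, f5⟩ := hf u2 h2
  refine ⟨hP u2 _ (by simp [m1]) (by simp [m1']) f1, ?_, ?_, ?_, ?_⟩
  · simp only [hs, gs, Pi.add_apply] at m2 f2 ⊢
    linarith
  · simp only [as, gs, Pi.add_apply] at m3 f3 ⊢
    linarith
  · simp only [ys, Pi.add_apply] at m4 f4 ⊢
    linarith
  · intro v hv
    apply f5 v
    have h0 : 0 ≤ u1 v := by
      by_contra hneg
      have := m5 v (not_le.1 hneg)
      simp [suppS] at this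
    simp only [Pi.add_apply] at hv
    linarith

theorem mon_coeff {u u' : Var w → ℤ} (h : (mon k u).coeff u' ≠ 0) : u' = u := by
  classical
  rw [mon, AddMonoidAlgebra.coeff_single, Finsupp.single_apply] at h
  by_contra hne
  rw [if_neg (fun h' => hne h'.symm)] at h
  exact h rfl

theorem mon_mem {P : (Var w → ℤ) → Prop} {A C ρ : ℤ} {s : Finset (GG w)} {u : Var w → ℤ}
    (h : P u ∧ hs u - gs u = A ∧ as u - gs u = C ∧ ys u = ρ ∧ ∀ v, u v < 0 → v ∈ suppS s) :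
    mon k u ∈ U k P A C ρ s := by
  intro u' hu'
  rw [mon_coeff hu']
  exact h

theorem ev_nonneg (a v : Var w) : 0 ≤ ev a v := by
  rw [ev, Pi.single_apply]
  split_ifs <;> norm_num

theorem qL_mem : qL k w ∈ U k (w := w) P0 0 (w + 1) 0 ∅ := by
  refine Submodule.sum_mem _ fun l _ => zsmul_mem (mon_mem ?_) _
  have hl : (l : ℕ) ≤ w + 1 := Nat.lt_succ_iff.1 l.2
  refine ⟨⟨?_, ?_⟩, ?_, ?_, ?_, ?_⟩
  · simp [ev, Pi.single_apply]
  · simp [ev, Pi.single_apply]
  · simp [hs, gs, ev, Pi.single_apply]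
  · simp [as, gs, ev, Pi.single_apply, Nat.cast_sub hl]
  · simp [ys, ev, Pi.single_apply]
  · intro v hv
    exfalso
    have : (0 : ℤ) ≤ (ev (Var.t l) + (l : ℕ) • ev (Var.a 0) + (w + 1 - (l : ℕ)) • ev (Var.a 1) : Var w → ℤ) v := by
      have h := fun a => ev_nonneg (w := w) a v
      exact add_nonneg (add_nonneg (h _) (nsmul_nonneg (h _) _)) (nsmul_nonneg (h _) _)
    exact absurd hv (not_lt.2 this)

theorem mPhi_mem (x b c : ℕ) (hx : x ≤ 2) (hb : b ≤ 2) (hc : c ≤ 2) :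
    mPhi k w x b c ∈ U k (w := w) P0 (-2) 0 2 ∅ := by
  refine mon_mem ?_
  refine ⟨⟨?_, ?_⟩, ?_, ?_, ?_, ?_⟩
  · simp [ev, Pi.single_apply]
  · simp [ev, Pi.single_apply]
  · simp [hs, gs, ev, Pi.single_apply, Nat.cast_sub hx]
  · simp [as, gs, ev, Pi.single_apply, Nat.cast_sub hx, Nat.cast_sub hb]
  · simp [ys, ev, Pi.single_apply, Nat.cast_sub hc]
  · intro v hv
    exfalso
    have : (0 : ℤ) ≤ ((2 - x) • ev (Var.g 0) + x • ev (Var.g 1) + (2 - b) • ev (Var.a 0) + b • ev (Var.a 1)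
      + (2 - c) • ev (Var.y 0) + c • ev (Var.y 1) : Var w → ℤ) v := by
      have h := fun a => ev_nonneg (w := w) a v
      have h2 := fun (n : ℕ) a => nsmul_nonneg (h a) n
      exact add_nonneg (add_nonneg (add_nonneg (add_nonneg (add_nonneg (h2 _ _) (h2 _ _)) (h2 _ _))
        (h2 _ _)) (h2 _ _)) (h2 _ _)
    exact absurd hv (not_lt.2 this)

theorem PhiL_mem : PhiL k w ∈ U k (w := w) P0 (-2) 0 2 ∅ := by
  unfold PhiL
  refine Submodule.add_mem _ (Submodule.add_mem _ (Submodule.sub_mem _ (Submodule.sub_mem _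
    (Submodule.sub_mem _ (Submodule.sub_mem _ (Submodule.sub_mem _ (Submodule.sub_mem _ ?_ ?_) ?_) ?_) ?_) ?_) ?_) ?_)
    (zsmul_mem ?_ _) <;> exact mPhi_mem _ _ _ (by norm_num) (by norm_num) (by norm_num)

/-- `HomW` for all exponents -/
def HW (ω : ℤ) : Submodule k (L k w) where
  carrier := {f | HomW ω f}
  zero_mem' := fun u hu => absurd rfl hu
  add_mem' := by
    intro f g hf hg u hu
    rw [AddMonoidAlgebra.coeff_add, Finsupp.add_apply] at hu
    by_cases h : f.coeff u = 0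
    · rw [h, zero_add] at hu
      exact hg u hu
    · exact hf u h
  smul_mem' := by
    intro c f hf u hu
    apply hf u
    intro h
    apply hu
    rw [AddMonoidAlgebra.coeff_smul, Finsupp.smul_apply, h, smul_zero]

theorem qL_hom : HomW 1 (qL k w) := by
  have : qL k w ∈ HW (k := k) (w := w) 1 := by
    refine Submodule.sum_mem _ fun l _ => zsmul_mem ?_ _
    intro u hu
    rw [mon_coeff hu]
    simp [wt, gs, ts, ev, Pi.single_apply]
  exact this

theorem mPhi_hom (x b c : ℕ) (hx : x ≤ 2) : mPhi k w x b c ∈ HW (k := k) (w := w) 2 := by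
  intro u hu
  rw [mon_coeff hu]
  simp [wt, gs, ts, ev, Pi.single_apply, Nat.cast_sub hx]

theorem PhiL_hom : HomW 2 (PhiL k w) := by
  have : PhiL k w ∈ HW (k := k) (w := w) 2 := by
    unfold PhiL
    refine Submodule.add_mem _ (Submodule.add_mem _ (Submodule.sub_mem _ (Submodule.sub_mem _
      (Submodule.sub_mem _ (Submodule.sub_mem _ (Submodule.sub_mem _ (Submodule.sub_mem _ ?_ ?_) ?_) ?_) ?_) ?_) ?_) ?_)
      (zsmul_mem ?_ _) <;> exact mPhi_hom _ _ _ (by norm_num)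
  exact this

theorem wt_add (u v : Var w → ℤ) : wt (u + v) = wt u + wt v := by
  simp only [wt, gs, ts, Pi.add_apply, Finset.sum_add_distrib]
  ring

theorem restr_mul {a ω : ℤ} {m : L k w} (hm : HomW a m) (f : L k w) :
    restr (fun u => wt u = ω + a) (m * f) = m * restr (fun u => wt u = ω) f := by
  have h1 : f = restr (fun u => wt u = ω) f + (f - restr (fun u => wt u = ω) f) := by abel
  have h2 : ∀ u, (f - restr (fun u => wt u = ω) f).coeff u ≠ 0 → wt u ≠ ω := by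
    intro u hu hw
    apply hu
    rw [AddMonoidAlgebra.coeff_sub, Finsupp.sub_apply, restr_pos f hw, sub_self]
  have h3 : restr (fun u => wt u = ω + a) (m * restr (fun u => wt u = ω) f) =
      m * restr (fun u => wt u = ω) f := by
    refine restr_eq_self ?_
    intro u hu
    obtain ⟨u1, u2, h3, h4, rfl⟩ := coeff_mul_ne hu
    rw [wt_add, hm u1 h3, (restr_ne h4).1]
    omega
  have h4 : restr (fun u => wt u = ω + a) (m * (f - restr (fun u => wt u = ω) f)) = 0 := by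
    refine restr_eq_zero ?_
    intro u hu
    obtain ⟨u1, u2, h3, h4, rfl⟩ := coeff_mul_ne hu
    have := h2 u2 h4
    rw [wt_add, hm u1 h3]
    omega
  calc restr (fun u => wt u = ω + a) (m * f)
      = restr (fun u => wt u = ω + a) (m * restr (fun u => wt u = ω) f +
          m * (f - restr (fun u => wt u = ω) f)) := by rw [← mul_add, ← h1]
    _ = m * restr (fun u => wt u = ω) f := by rw [map_add, h3, h4, add_zero]

/-! ## multiplication of cochains -/

/-- multiplication of cochains by a Laurent polynomial -/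
noncomputable def mc (m : L k w) {J : Type} : (J → L k w) →ₗ[k] (J → L k w) where
  toFun := fun c j => m * c j
  map_add' := fun a b => by funext j; simp [mul_add]
  map_smul' := fun a b => by funext j; simp

@[simp] theorem mc_apply (m : L k w) {J : Type} (c : J → L k w) (j : J) : mc m c j = m * c j := rfl

/-- restriction of cochains -/
noncomputable def rc (P : (Var w → ℤ) → Prop) {J : Type} : (J → L k w) →ₗ[k] (J → L k w) where
  toFun := fun c j => restr P (c j)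
  map_add' := fun a b => by funext j; simp
  map_smul' := fun a b => by funext j; simp

@[simp] theorem rc_apply (P : (Var w → ℤ) → Prop) {J : Type} (c : J → L k w) (j : J) :
    rc P c j = restr P (c j) := rfl

theorem dd_mc (m : L k w) (i : ℕ) (c : (Fin i → GG w) → L k w) :
    dd k i (mc m c) = mc m (dd k i c) :=
  dd_map (mulL m) i c

theorem dd_rc (P : (Var w → ℤ) → Prop) (i : ℕ) (c : (Fin i → GG w) → L k w) :
    dd k i (rc P c) = rc P (dd k i c) :=
  dd_map (restr P) i c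

theorem mc_comm (m m' : L k w) {J : Type} (c : J → L k w) : mc m (mc m' c) = mc m' (mc m c) := by
  funext j
  simp [mul_left_comm]

theorem qL_ne : qL k w ≠ 0 := by
  intro h
  have h1 : (qL k w).coeff (ev (Var.t 0) + (w + 1) • ev (Var.a 1)) = 0 := by rw [h]; rfl
  rw [qL, AddMonoidAlgebra.coeff_sum, Finsupp.finsetSum_apply, Finset.sum_eq_single 0] at h1
  · simp [mon] at h1
  · intro l _ hl
    have : (mon k (ev (Var.t l) + (l : ℕ) • ev (Var.a 0) + (w + 1 - (l : ℕ)) • ev (Var.a 1))).coeff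
        (ev (Var.t 0) + (w + 1) • ev (Var.a 1)) = 0 := by
      by_contra hne
      have h2 := congrFun (mon_coeff hne) (Var.t l)
      have h3 : (0 : Fin (w + 2)) ≠ l := Ne.symm hl
      simp [ev, h3] at h2
    rw [AddMonoidAlgebra.coeff_smul, Finsupp.smul_apply, this, smul_zero]
  · intro h; exact absurd (Finset.mem_univ _) h

theorem mc_q_inj {J : Type} {c c' : J → L k w} (h : mc (qL k w) c = mc (qL k w) c') : c = c' := by
  funext j
  exact mul_left_cancel₀ qL_ne (congrFun h j)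

theorem hPm : ∀ u v : Var w → ℤ, u (Var.h 0) = v (Var.h 0) → u (Var.h 1) = v (Var.h 1) → Pm u → Pm v := by
  intro u v h0 h1 h
  exact ⟨h0 ▸ h.1, h1 ▸ h.2⟩

theorem mcq_mem {A ρ : ℤ} {i : ℕ} {c : (Fin i → GG w) → L k w}
    (hc : c ∈ CV (U k Pm A (-(w + 1)) ρ) i) : mc (qL k w) c ∈ CV (U k Pm A 0 ρ) i := by
  intro j
  have := mul_mem hPm (qL_mem (k := k) (w := w)) (hc j)
  simpa using this

theorem mcPhi_mem {A C ρ : ℤ} {i : ℕ} {c : (Fin i → GG w) → L k w}
    (hc : c ∈ CV (U k Pm (A + 2) C (ρ - 2)) i) : mc (PhiL k w) c ∈ CV (U k Pm A C ρ) i := by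
  intro j
  have := mul_mem hPm (PhiL_mem (k := k) (w := w)) (hc j)
  simpa using this

theorem chi_add {p : ℕ} (lam : (Fin p → GG w) → k) (c c' : (Fin p → GG w) → L k w) :
    chi lam (c + c') = chi lam c + chi lam c' := by
  simp only [chi, Pi.add_apply, smul_add, Finset.sum_add_distrib, map_add]

theorem chi_smul {p : ℕ} (lam : (Fin p → GG w) → k) (a : k) (c : (Fin p → GG w) → L k w) :
    chi lam (a • c) = a • chi lam c := by
  simp only [chi, Pi.smul_apply]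
  rw [← map_smul, Finset.smul_sum]
  congr 1
  exact Finset.sum_congr rfl fun j _ => smul_comm _ _ _

theorem chi_neg {p : ℕ} (lam : (Fin p → GG w) → k) (c : (Fin p → GG w) → L k w) :
    chi lam (-c) = -chi lam c := by
  have := chi_smul lam (-1) c
  simpa using this

/-! ## the chase -/

theorem cv_IN {r : ℤ} {i : ℕ} {c : (Fin i → GG w) → L k w} (hc : c ∈ CV (IN k (w := w) Pm r) i) :
    ∃ x ∈ CV (U k (w := w) Pm r (-(w + 1)) r) i, ∃ y ∈ CV (U k (w := w) Pm (r + 2) 0 (r - 2)) i,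
      c = mc (qL k w) x + mc (PhiL k w) y := by
  have h : ∀ j, ∃ x ∈ U k (w := w) Pm r (-(w + 1)) r (univ.image j),
      ∃ y ∈ U k (w := w) Pm (r + 2) 0 (r - 2) (univ.image j),
      qL k w * x + PhiL k w * y = c j := by
    intro j
    obtain ⟨a, ha, b, hb, hab⟩ := Submodule.mem_sup.1 (hc j)
    obtain ⟨x, hx, rfl⟩ := Submodule.mem_map.1 ha
    obtain ⟨y, hy, rfl⟩ := Submodule.mem_map.1 hb
    exact ⟨x, hx, y, hy, hab⟩
  choose x hx y hy hxy using h
  exact ⟨x, hx, y, hy, funext fun j => (hxy j).symm⟩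

theorem IN_cv {r : ℤ} {i : ℕ} {x y : (Fin i → GG w) → L k w}
    (hx : x ∈ CV (U k (w := w) Pm r (-(w + 1)) r) i)
    (hy : y ∈ CV (U k (w := w) Pm (r + 2) 0 (r - 2)) i) :
    mc (qL k w) x + mc (PhiL k w) y ∈ CV (IN k (w := w) Pm r) i := fun j =>
  Submodule.add_mem_sup (Submodule.mem_map_of_mem (f := mulL (qL k w)) (hx j))
    (Submodule.mem_map_of_mem (f := mulL (PhiL k w)) (hy j))

theorem reg_cv (hReg : Reg k w) {r : ℤ} {i : ℕ} {x y : (Fin i → GG w) → L k w}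
    (hx : x ∈ CV (U k (w := w) Pm r (-(w + 1)) r) i)
    (hy : y ∈ CV (U k (w := w) Pm (r + 2) 0 (r - 2)) i)
    (h : mc (qL k w) x + mc (PhiL k w) y = 0) :
    ∃ e ∈ CV (U k (w := w) Pm (r + 2) (-(w + 1)) (r - 2)) i, y = mc (qL k w) e ∧
      x = -mc (PhiL k w) e := by
  have h1 : ∀ j, ∃ e ∈ U k (w := w) Pm (r + 2) (-(w + 1)) (r - 2) (univ.image j),
      y j = qL k w * e ∧ x j = -(PhiL k w * e) := fun j =>
    hReg Pm hPm r _ (x j) (hx j) (y j) (hy j) (congrFun h j)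
  choose e he h2 h3 using h1
  exact ⟨e, he, funext h2, funext h3⟩

theorem ex_apply {P : (Var w → ℤ) → Prop} {A C ρ : ℤ} {n : ℕ} (h : ExD (U k (w := w) P A C ρ) (n + 1))
    {c : (Fin (n + 1) → GG w) → L k w} (hc : c ∈ CV (U k P A C ρ) (n + 1)) (hd : dd k (n + 1) c = 0) :
    ∃ b ∈ CV (U k P A C ρ) n, dd k n b = c :=
  Submodule.mem_map.1 (h (Submodule.mem_inf.2 ⟨hc, LinearMap.mem_ker.2 hd⟩))

/-- the relation between cocycles and elements of `K(r)` -/
def Rel (lam : (Fin (w + 5 + 1) → GG w) → k) (r : ℤ) (c : (Fin (w + 4) → GG w) → L k w)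
    (g : L k w) : Prop :=
  ∃ x ∈ CV (U k (w := w) Pm r (-(w + 1)) r) (w + 5),
  ∃ y ∈ CV (U k (w := w) Pm (r + 2) 0 (r - 2)) (w + 5),
  ∃ e ∈ CV (U k (w := w) Pm (r + 2) (-(w + 1)) (r - 2)) (w + 5 + 1),
    dd k (w + 4) c = mc (qL k w) x + mc (PhiL k w) y ∧ dd k (w + 5) x = -mc (PhiL k w) e ∧
    dd k (w + 5) y = mc (qL k w) e ∧ chi lam e = g

variable {lam : (Fin (w + 5 + 1) → GG w) → k} {r : ℤ}

theorem rel_add {c c' : (Fin (w + 4) → GG w) → L k w} {g g' : L k w} (h : Rel lam r c g)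
    (h' : Rel lam r c' g') : Rel lam r (c + c') (g + g') := by
  obtain ⟨x, hx, y, hy, e, he, h1, h2, h3, h4⟩ := h
  obtain ⟨x', hx', y', hy', e', he', h1', h2', h3', h4'⟩ := h'
  refine ⟨x + x', add_mem hx hx', y + y', add_mem hy hy', e + e', add_mem he he', ?_, ?_, ?_, ?_⟩
  · rw [map_add, h1, h1', map_add, map_add]; abel
  · rw [map_add, h2, h2', map_add]; abel
  · rw [map_add, h3, h3', map_add]
  · rw [chi_add, h4, h4']

theorem rel_smul (a : k) {c : (Fin (w + 4) → GG w) → L k w} {g : L k w} (h : Rel lam r c g) :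
    Rel lam r (a • c) (a • g) := by
  obtain ⟨x, hx, y, hy, e, he, h1, h2, h3, h4⟩ := h
  refine ⟨a • x, Submodule.smul_mem _ _ hx, a • y, Submodule.smul_mem _ _ hy, a • e,
    Submodule.smul_mem _ _ he, ?_, ?_, ?_, ?_⟩
  · rw [map_smul, h1, map_smul, map_smul, smul_add]
  · rw [map_smul, h2, map_smul, smul_neg]
  · rw [map_smul, h3, map_smul]
  · rw [chi_smul, h4]

theorem rel_sub {c c' : (Fin (w + 4) → GG w) → L k w} {g g' : L k w} (h : Rel lam r c g)
    (h' : Rel lam r c' g') : Rel lam r (c - c') (g - g') := by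
  have := rel_add h (rel_smul (-1) h')
  simpa [sub_eq_add_neg] using this

theorem rel_exists (hReg : Reg k w) {c : (Fin (w + 4) → GG w) → L k w}
    (hc : c ∈ ZQ (U k (w := w) Pm r 0 r) (IN k Pm r) (w + 4)) : ∃ g, Rel lam r c g := by
  obtain ⟨_, h2⟩ := Submodule.mem_inf.1 hc
  obtain ⟨x, hx, y, hy, h⟩ := cv_IN (Submodule.mem_comap.1 h2)
  have h0 : mc (qL k w) (dd k (w + 4 + 1) x) + mc (PhiL k w) (dd k (w + 4 + 1) y) = 0 := by
    rw [← dd_mc, ← dd_mc, ← map_add, ← h, dd_dd]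
  obtain ⟨e, he, h3, h4⟩ := reg_cv hReg (dd_mem (U_mono Pm _ _ _) hx) (dd_mem (U_mono Pm _ _ _) hy) h0
  exact ⟨chi lam e, x, hx, y, hy, e, he, h, h4, h3, rfl⟩

theorem rel_KM (hLam : LamGood k w Pm (w + 5) lam) {c : (Fin (w + 4) → GG w) → L k w} {g : L k w}
    (h : Rel lam r c g) : g ∈ KM k w r := by
  obtain ⟨x, hx, y, hy, e, he, h1, h2, h3, rfl⟩ := h
  obtain ⟨a1, a2, a3, a4, a5, a6⟩ := hLam (r + 2) (-(w + 1)) (r - 2)
  refine ⟨a1 e he, ?_, ?_⟩
  · rw [← a5 e he]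
    have : (fun j => qL k w * e j) = dd k (w + 5) y := h3.symm
    rw [this]
    exact (hLam (r + 2) 0 (r - 2)).2.1 y hy
  · rw [← a6 e he]
    have : (fun j => PhiL k w * e j) = - dd k (w + 5) x := by
      rw [h2, neg_neg]; rfl
    rw [this, chi_neg, (hLam r (-(w + 1)) r).2.1 x hx, neg_zero]

theorem rel_zero (hEx : ExU k w) (hLam : LamGood k w Pm (w + 5) lam) (hr : 0 ≤ r)
    {c : (Fin (w + 4) → GG w) → L k w} (hc : c ∈ CV (U k (w := w) Pm r 0 r) (w + 4))
    (h : Rel lam r c 0) : c ∈ BQ (U k (w := w) Pm r 0 r) (IN k Pm r) (w + 3) := by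
  obtain ⟨x, hx, y, hy, e, he, h1, h2, h3, h4⟩ := h
  obtain ⟨a1, a2, a3, a4, a5, a6⟩ := hLam (r + 2) (-(w + 1)) (r - 2)
  have hde : dd k (w + 5 + 1) e = 0 := by
    apply mc_q_inj
    rw [← dd_mc, ← h3, dd_dd, map_zero]
  obtain ⟨f, hf, rfl⟩ := Submodule.mem_map.1
    (a3 e (Submodule.mem_inf.2 ⟨he, LinearMap.mem_ker.2 hde⟩) h4)
  have hx' : x + mc (PhiL k w) f ∈ CV (U k (w := w) Pm r (-(w + 1)) r) (w + 4 + 1) :=
    add_mem hx (mcPhi_mem hf)
  have hy' : y - mc (qL k w) f ∈ CV (U k (w := w) Pm (r + 2) 0 (r - 2)) (w + 4 + 1) :=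
    sub_mem hy (mcq_mem hf)
  obtain ⟨z, hz, hz'⟩ := ex_apply (hEx.2.2.2 r (-(w + 1)) r (w + 4 + 1) (by linarith) (by
    have : (0 : ℤ) ≤ w := Int.natCast_nonneg w
    linarith) (by omega)) hx' (by
      rw [map_add, dd_mc]
      exact (congrArg (· + _) h2).trans (neg_add_cancel _))
  obtain ⟨v, hv, hv'⟩ := ex_apply (hEx.2.2.2 (r + 2) 0 (r - 2) (w + 4 + 1) (by linarith) (by norm_num)
    (by omega)) hy' (by
      rw [map_sub, dd_mc]
      exact (congrArg (· - _) h3).trans (sub_self _))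
  have hc' : c - (mc (qL k w) z + mc (PhiL k w) v) ∈ CV (U k (w := w) Pm r 0 r) (w + 3 + 1) :=
    sub_mem hc (add_mem (mcq_mem hz) (mcPhi_mem hv))
  obtain ⟨b, hb, hb'⟩ := ex_apply (hEx.2.2.2 r 0 r (w + 3 + 1) (by linarith) (by norm_num) (by omega))
    hc' (by
      rw [map_sub, map_add, dd_mc, dd_mc]
      have e1 : dd k (w + 3 + 1) c = mc (qL k w) x + mc (PhiL k w) y := h1
      have e2 : dd k (w + 3 + 1) z = x + mc (PhiL k w) f := hz'
      have e3 : dd k (w + 3 + 1) v = y - mc (qL k w) f := hv'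
      rw [e1, e2, e3, map_add, map_sub, mc_comm (PhiL k w) (qL k w)]
      abel)
  have hcc : c = dd k (w + 3) b + (mc (qL k w) z + mc (PhiL k w) v) := by
    rw [hb']; abel
  rw [hcc]
  exact Submodule.add_mem_sup (Submodule.mem_map_of_mem hb) (IN_cv hz hv)

theorem rel_uniq (hReg : Reg k w) (hLam : LamGood k w Pm (w + 5) lam)
    {c : (Fin (w + 4) → GG w) → L k w} {g : L k w}
    (h : Rel lam r c g) (hc : c ∈ BQ (U k (w := w) Pm r 0 r) (IN k Pm r) (w + 3)) : g = 0 := by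
  obtain ⟨x, hx, y, hy, e, he, h1, h2, h3, h4⟩ := h
  obtain ⟨c1, hc1, c2, hc2, rfl⟩ := Submodule.mem_sup.1 hc
  obtain ⟨b, hb, rfl⟩ := Submodule.mem_map.1 hc1
  obtain ⟨z, hz, v, hv, rfl⟩ := cv_IN hc2
  have h5 : dd k (w + 3 + 1) (dd k (w + 3) b + (mc (qL k w) z + mc (PhiL k w) v)) =
      mc (qL k w) (dd k (w + 3 + 1) z) + mc (PhiL k w) (dd k (w + 3 + 1) v) := by
    rw [map_add, dd_dd, zero_add, map_add, dd_mc, dd_mc]
  have h6 : mc (qL k w) (x - dd k (w + 3 + 1) z) + mc (PhiL k w) (y - dd k (w + 3 + 1) v) = 0 := by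
    rw [map_sub, map_sub]
    have h7 : mc (qL k w) x + mc (PhiL k w) y =
      mc (qL k w) (dd k (w + 3 + 1) z) + mc (PhiL k w) (dd k (w + 3 + 1) v) := h1.symm.trans h5
    calc _ = (mc (qL k w) x + mc (PhiL k w) y) - (mc (qL k w) (dd k (w + 3 + 1) z) +
          mc (PhiL k w) (dd k (w + 3 + 1) v)) := by abel
      _ = 0 := by rw [h7, sub_self]
  obtain ⟨f, hf, h8, h9⟩ := reg_cv hReg (sub_mem hx (dd_mem (U_mono Pm _ _ _) hz))
    (sub_mem hy (dd_mem (U_mono Pm _ _ _) hv)) h6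
  have h10 : e = dd k (w + 5) f := by
    apply mc_q_inj
    rw [← dd_mc, ← h3, ← h8, map_sub]
    have : dd k (w + 5) (dd k (w + 3 + 1) v) = 0 := dd_dd (w + 4) v
    rw [this, sub_zero]
  rw [← h4, h10]
  exact (hLam (r + 2) (-(w + 1)) (r - 2)).2.1 f hf

theorem hom_dd {J : Type} {ω : ℤ} {c : J → L k w} (h : ∀ j, HomW ω (c j)) :
    rc (fun u => wt u = ω) c = c := funext fun j => restr_eq_self (h j)

theorem hom_rc {J : Type} {ω : ℤ} (c : J → L k w) (j : J) :
    HomW ω (rc (fun u => wt u = ω) c j) := fun _ hu => (restr_ne hu).1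

theorem rc_mc {J : Type} {a ω : ℤ} {m : L k w} (hm : HomW a m) (c : J → L k w) :
    rc (fun u => wt u = ω + a) (mc m c) = mc m (rc (fun u => wt u = ω) c) :=
  funext fun j => restr_mul hm (c j)

theorem rc_cv {Q P : (Var w → ℤ) → Prop} {A C ρ : ℤ} {i : ℕ} {c : (Fin i → GG w) → L k w}
    (h : c ∈ CV (U k P A C ρ) i) : rc Q c ∈ CV (U k P A C ρ) i := fun j => restr_mem (h j)

theorem rel_onto (hEx : ExU k w) (hLam : LamGood k w Pm (w + 5) lam) (hr : 0 ≤ r)
    {g : L k w} (hg : g ∈ KM k w r) :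
    ∃ c ∈ ZQ (U k (w := w) Pm r 0 r) (IN k Pm r) (w + 4), Rel lam r c g ∧
      ∀ ω, HomW ω g → ∃ c' ∈ ZQ (U k (w := w) Pm r 0 r) (IN k Pm r) (w + 4), Rel lam r c' g ∧
        ∀ j, HomW (ω + 3) (c' j) := by
  obtain ⟨hg1, hg2, hg3⟩ := hg
  obtain ⟨a1, a2, a3, a4, a5, a6⟩ := hLam (r + 2) (-(w + 1)) (r - 2)
  obtain ⟨e, he, hge, hsupp⟩ := a4 g hg1
  obtain ⟨he1, he2⟩ := Submodule.mem_inf.1 he
  have hde : dd k (w + 5 + 1) e = 0 := LinearMap.mem_ker.1 he2
  have hqe : mc (qL k w) e ∈ Bd (U k (w := w) Pm (r + 2) 0 (r - 2)) (w + 5 + 1) := by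
    refine (hLam (r + 2) 0 (r - 2)).2.2.1 _ (Submodule.mem_inf.2 ⟨mcq_mem he1, LinearMap.mem_ker.2 ?_⟩) ?_
    · rw [dd_mc, hde, map_zero]
    · have := a5 e he1
      rw [hge, hg2] at this
      exact this
  have hPe : -mc (PhiL k w) e ∈ Bd (U k (w := w) Pm r (-(w + 1)) r) (w + 5 + 1) := by
    refine (hLam r (-(w + 1)) r).2.2.1 _ (Submodule.mem_inf.2 ⟨neg_mem (mcPhi_mem he1), LinearMap.mem_ker.2 ?_⟩) ?_
    · rw [map_neg, dd_mc, hde, map_zero, neg_zero]
    · have := a6 e he1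
      rw [hge, hg3] at this
      rw [chi_neg]
      exact neg_eq_zero.2 this
  obtain ⟨y, hy, hy'⟩ := Submodule.mem_map.1 hqe
  obtain ⟨x, hx, hx'⟩ := Submodule.mem_map.1 hPe
  have key : ∀ x ∈ CV (U k (w := w) Pm r (-(w + 1)) r) (w + 5),
      ∀ y ∈ CV (U k (w := w) Pm (r + 2) 0 (r - 2)) (w + 5),
      dd k (w + 5) x = -mc (PhiL k w) e → dd k (w + 5) y = mc (qL k w) e →
      ∃ c ∈ CV (U k (w := w) Pm r 0 r) (w + 4), dd k (w + 4) c = mc (qL k w) x + mc (PhiL k w) y := by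
    intro x hx y hy hx' hy'
    have h1 : mc (qL k w) x + mc (PhiL k w) y ∈ CV (U k (w := w) Pm r 0 r) (w + 4 + 1) :=
      add_mem (mcq_mem hx) (mcPhi_mem hy)
    exact ex_apply (hEx.2.2.2 r 0 r (w + 4 + 1) (by linarith) (by norm_num) (by omega)) h1 (by
      have e1 : dd k (w + 4 + 1) x = -mc (PhiL k w) e := hx'
      have e2 : dd k (w + 4 + 1) y = mc (qL k w) e := hy'
      rw [map_add, dd_mc, dd_mc, e1, e2, map_neg, mc_comm (PhiL k w) (qL k w), neg_add_cancel])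
  obtain ⟨c, hc, hcd⟩ := key x hx y hy hx' hy'
  refine ⟨c, Submodule.mem_inf.2 ⟨hc, Submodule.mem_comap.2 ?_⟩, ⟨x, hx, y, hy, e, he1, hcd, hx', hy', hge⟩, ?_⟩
  · rw [hcd]; exact IN_cv hx hy
  · intro ω hω
    have heω : ∀ j, HomW ω (e j) := fun j u hu => hω u (hsupp j u hu)
    have hyω : dd k (w + 5) (rc (fun u => wt u = ω + 1) y) = mc (qL k w) e := by
      rw [dd_rc, hy', rc_mc qL_hom, hom_dd heω]
    have hxω : dd k (w + 5) (rc (fun u => wt u = ω + 2) x) = -mc (PhiL k w) e := by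
      rw [dd_rc, hx', map_neg, rc_mc PhiL_hom, hom_dd heω]
    obtain ⟨c', hc', hcd'⟩ := key _ (rc_cv hx) _ (rc_cv hy) hxω hyω
    have hcd2 : dd k (w + 4) (rc (fun u => wt u = ω + 3) c') =
        mc (qL k w) (rc (fun u => wt u = ω + 2) x) + mc (PhiL k w) (rc (fun u => wt u = ω + 1) y) := by
      rw [dd_rc, hcd', map_add]
      have e1 : rc (fun u => wt u = ω + 3) (mc (qL k w) (rc (fun u => wt u = ω + 2) x)) =
          mc (qL k w) (rc (fun u => wt u = ω + 2) x) := by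
        have := rc_mc (ω := ω + 2) (qL_hom (k := k) (w := w)) (rc (fun u => wt u = ω + 2) x)
        rw [show ω + 2 + 1 = ω + 3 by ring, hom_dd (hom_rc _)] at this
        exact this
      have e2 : rc (fun u => wt u = ω + 3) (mc (PhiL k w) (rc (fun u => wt u = ω + 1) y)) =
          mc (PhiL k w) (rc (fun u => wt u = ω + 1) y) := by
        have := rc_mc (ω := ω + 1) (PhiL_hom (k := k) (w := w)) (rc (fun u => wt u = ω + 1) y)
        rw [show ω + 1 + 2 = ω + 3 by ring, hom_dd (hom_rc _)] at this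
        exact this
      rw [e1, e2]
    refine ⟨rc (fun u => wt u = ω + 3) c', Submodule.mem_inf.2 ⟨rc_cv hc', Submodule.mem_comap.2 ?_⟩,
      ⟨_, rc_cv hx, _, rc_cv hy, e, he1, hcd2, hxω, hyω, hge⟩, hom_rc c'⟩
    rw [hcd2]; exact IN_cv (rc_cv hx) (rc_cv hy)

end B12

/-- PACKAGE B12. -/
theorem PsiM_proof (k : Type) [Field k] (w : ℕ) (hEx : ExU k w) (hReg : Reg k w) (hLam : LamM k w) :
    PsiM k w := by
  intro r
  obtain ⟨lam, hlam⟩ := hLam
  have hr : (0 : ℤ) ≤ (r : ℤ) := Int.natCast_nonneg r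
  have hex : ∀ c : ZQ (U k (w := w) Pm r 0 r) (IN k Pm r) (w + 4), ∃ g, B12.Rel lam r c.1 g :=
    fun c => B12.rel_exists hReg c.2
  choose Ψ hΨ using hex
  have huniq : ∀ (c : (Fin (w + 4) → GG w) → L k w) (g g' : L k w), B12.Rel lam r c g →
      B12.Rel lam r c g' → g = g' := by
    intro c g g' h h'
    have h1 := B12.rel_sub h h'
    rw [sub_self] at h1
    exact sub_eq_zero.1 (B12.rel_uniq hReg hlam h1 (Submodule.zero_mem _))
  refine ⟨{ toFun := Ψ, map_add' := fun a b => ?_, map_smul' := fun a b => ?_ }, ?_, ?_, ?_, ?_⟩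
  · exact huniq _ _ _ (hΨ (a + b)) (B12.rel_add (hΨ a) (hΨ b))
  · exact huniq _ _ _ (hΨ (a • b)) (B12.rel_smul a (hΨ b))
  · exact fun c => B12.rel_KM hlam (hΨ c)
  · intro g hg
    obtain ⟨c, hc, h1, _⟩ := B12.rel_onto hEx hlam hr hg
    exact ⟨⟨c, hc⟩, huniq _ _ _ (hΨ ⟨c, hc⟩) h1⟩
  · intro g hg ω hω
    obtain ⟨_, _, _, h2⟩ := B12.rel_onto hEx hlam hr hg
    obtain ⟨c, hc, h3, h4⟩ := h2 ω hω
    exact ⟨⟨c, hc⟩, huniq _ _ _ (hΨ ⟨c, hc⟩) h3, h4⟩
  · intro c
    constructor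
    · intro h
      have h1 := hΨ c
      have h2 : Ψ c = 0 := h
      rw [h2] at h1
      exact B12.rel_zero hEx hlam hr (Submodule.mem_inf.1 c.2).1 h1
    · intro h
      exact B12.rel_uniq hReg hlam (hΨ c) h

end Pool.Agent.T2H37.LB
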