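import Pool.Agent.T2H37.LB.StmB
import Pool.Agent.T2H37.LB.B10

/-!
# LB, package B13: the cohomology of the strands without condition on the `h`-exponents
-/

set_option autoImplicit false

namespace Pool.Agent.T2H37.LB

open Finset

namespace B13

variable {k : Type} [Field k] {w : ℕ}

/-- a condition on the `h`-exponents -/
def HP (P : (Var w → ℤ) → Prop) : Prop :=
  ∀ u v, u (Var.h 0) = v (Var.h 0) → u (Var.h 1) = v (Var.h 1) → P u → P v

theorem hPp : HP (Pp (w := w)) := fun u v h0 h1 h => ⟨by rw [← h0]; exact h.1, by rw [← h1]; exact h.2⟩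

theorem hPm : HP (Pm (w := w)) := fun u v h0 h1 h => ⟨by rw [← h0]; exact h.1, by rw [← h1]; exact h.2⟩

theorem hPx : HP (Px (w := w)) := fun u v h0 h1 h =>
  ⟨fun h' => h.1 (hPp v u h0.symm h1.symm h'), fun h' => h.2 (hPm v u h0.symm h1.symm h')⟩

/-- no `h`-exponents -/
def Hz (f : L k w) : Prop := ∀ u, f.coeff u ≠ 0 → u (Var.h 0) = 0 ∧ u (Var.h 1) = 0

theorem hz_q : Hz (qL k w) := by
  intro u hu
  obtain ⟨l, rfl⟩ := B10.exp_qL hu
  exact ⟨B10.uq_h l 0, B10.uq_h l 1⟩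

theorem hz_Phi : Hz (PhiL k w) := by
  intro u hu
  obtain ⟨x, b, c, rfl⟩ := B10.exp_PhiL hu
  constructor <;> simp [B10.up, ev]

theorem restr_self {P : (Var w → ℤ) → Prop} {f : L k w} (h : ∀ u, f.coeff u ≠ 0 → P u) :
    restr P f = f := by
  classical
  ext u
  rw [B10.coeff_restr]
  split_ifs with h1
  · rfl
  · by_contra hc
    exact h1 (h u (fun h' => hc h'.symm))

theorem restr_zero {P : (Var w → ℤ) → Prop} {f : L k w} (h : ∀ u, f.coeff u ≠ 0 → ¬ P u) :
    restr P f = 0 := by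
  classical
  ext u
  rw [B10.coeff_restr]
  split_ifs with h1
  · by_contra hc
    exact h u hc h1
  · rfl

theorem restr_prop {P : (Var w → ℤ) → Prop} {f : L k w} {u : Var w → ℤ}
    (h : (restr P f).coeff u ≠ 0) : P u ∧ f.coeff u ≠ 0 := by
  classical
  rw [B10.coeff_restr] at h
  split_ifs at h with h1
  · exact ⟨h1, h⟩
  · exact absurd rfl h

theorem restr_mul {P : (Var w → ℤ) → Prop} (hP : HP P) {f : L k w} (hf : Hz f) (x : L k w) :
    restr P (f * x) = f * restr P x := by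
  classical
  have key : ∀ a b : Var w → ℤ, f.coeff a ≠ 0 → (P (a + b) ↔ P b) := by
    intro a b ha
    have h0 : (a + b) (Var.h 0) = b (Var.h 0) := by
      rw [Pi.add_apply, (hf a ha).1, zero_add]
    have h1 : (a + b) (Var.h 1) = b (Var.h 1) := by
      rw [Pi.add_apply, (hf a ha).2, zero_add]
    exact ⟨hP _ _ h0 h1, hP _ _ h0.symm h1.symm⟩
  have e : f * x = f * restr P x + f * (x - restr P x) := by ring
  have e1 : restr P (f * restr P x) = f * restr P x := by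
    apply restr_self
    intro u hu
    obtain ⟨a, b, ha, hb, rfl⟩ := B10.exp_mul hu
    rw [key a b ha]
    exact (restr_prop hb).1
  have e2 : restr P (f * (x - restr P x)) = 0 := by
    apply restr_zero
    intro u hu hc
    obtain ⟨a, b, ha, hb, rfl⟩ := B10.exp_mul hu
    rw [key a b ha] at hc
    rw [AddMonoidAlgebra.coeff_sub, Finsupp.sub_apply, B10.coeff_restr, if_pos hc, sub_self] at hb
    exact hb rfl
  calc restr P (f * x) = restr P (f * restr P x + f * (x - restr P x)) := by rw [← e]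
    _ = f * restr P x := by rw [map_add, e1, e2, add_zero]

theorem restr_U {P : (Var w → ℤ) → Prop} {A C ρ : ℤ} {s : Finset (GG w)} {f : L k w}
    (hf : f ∈ U k PT A C ρ s) : restr P f ∈ U k P A C ρ s := by
  intro u hu
  obtain ⟨h1, h2⟩ := restr_prop hu
  obtain ⟨-, h3⟩ := hf u h2
  exact ⟨h1, h3⟩

theorem U_le {P : (Var w → ℤ) → Prop} {A C ρ : ℤ} {s : Finset (GG w)} :
    U k P A C ρ s ≤ U k PT A C ρ s := by
  intro f hf u hu
  obtain ⟨-, h3⟩ := hf u hu
  exact ⟨trivial, h3⟩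

theorem IN_le {P : (Var w → ℤ) → Prop} {r : ℤ} {s : Finset (GG w)} :
    IN k P r s ≤ IN k PT r s :=
  sup_le_sup (Submodule.map_mono U_le) (Submodule.map_mono U_le)

theorem restr_IN {P : (Var w → ℤ) → Prop} (hP : HP P) {r : ℤ} {s : Finset (GG w)} {f : L k w}
    (hf : f ∈ IN k PT r s) : restr P f ∈ IN k P r s := by
  obtain ⟨x, hx, y, hy, rfl⟩ := Submodule.mem_sup.1 hf
  obtain ⟨x', hx', rfl⟩ := hx
  obtain ⟨y', hy', rfl⟩ := hy
  rw [map_add]
  refine Submodule.add_mem_sup ?_ ?_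
  · refine ⟨restr P x', restr_U hx', ?_⟩
    show qL k w * restr P x' = restr P (qL k w * x')
    rw [restr_mul hP hz_q]
  · refine ⟨restr P y', restr_U hy', ?_⟩
    show PhiL k w * restr P y' = restr P (PhiL k w * y')
    rw [restr_mul hP hz_Phi]

/-- the restriction of cochains -/
noncomputable def rc (P : (Var w → ℤ) → Prop) (p : ℕ) :
    ((Fin p → GG w) → L k w) →ₗ[k] ((Fin p → GG w) → L k w) :=
  (restr P).compLeft (Fin p → GG w)

theorem rc_apply (P : (Var w → ℤ) → Prop) (p : ℕ) (c : (Fin p → GG w) → L k w)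
    (j : Fin p → GG w) : rc P p c j = restr P (c j) := rfl

theorem dd_apply (p : ℕ) (c : (Fin p → GG w) → L k w) (j : Fin (p + 1) → GG w) :
    dd k p c j = ∑ m : Fin (p + 1), ((-1 : ℤ) ^ (m : ℕ)) • c (j ∘ m.succAbove) := by
  unfold dd
  simp only [LinearMap.pi_apply, LinearMap.sum_apply, LinearMap.smul_apply, LinearMap.proj_apply]

theorem dd_rc (P : (Var w → ℤ) → Prop) (p : ℕ) (c : (Fin p → GG w) → L k w) :
    dd k p (rc P p c) = rc P (p + 1) (dd k p c) := by
  funext j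
  rw [dd_apply, rc_apply, dd_apply, map_sum]
  simp only [map_zsmul, rc_apply]

theorem decomp (f : L k w) : restr Pp f + restr Pm f + restr Px f = f := by
  classical
  ext u
  rw [AddMonoidAlgebra.coeff_add, AddMonoidAlgebra.coeff_add, Finsupp.add_apply,
    Finsupp.add_apply, B10.coeff_restr, B10.coeff_restr, B10.coeff_restr]
  by_cases h1 : Pp u
  · have h2 : ¬ Pm u := fun h => by
      have := h.1
      have := h1.1
      omega
    have h3 : ¬ Px u := fun h => h.1 h1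
    rw [if_pos h1, if_neg h2, if_neg h3, add_zero, add_zero]
  · by_cases h2 : Pm u
    · have h3 : ¬ Px u := fun h => h.2 h2
      rw [if_neg h1, if_pos h2, if_neg h3, add_zero, zero_add]
    · have h3 : Px u := ⟨h1, h2⟩
      rw [if_neg h1, if_neg h2, if_pos h3, zero_add, zero_add]

theorem rc_ZQ {P : (Var w → ℤ) → Prop} (hP : HP P) {r : ℤ} {p : ℕ}
    {c : (Fin p → GG w) → L k w} (hc : c ∈ ZQ (U k PT r 0 r) (IN k PT r) p) :
    rc P p c ∈ ZQ (U k P r 0 r) (IN k P r) p := by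
  refine ⟨fun j => restr_U (hc.1 j), ?_⟩
  show dd k p (rc P p c) ∈ CV (IN k P r) (p + 1)
  rw [dd_rc]
  intro j
  exact restr_IN hP (hc.2 j)

theorem CV_le {V V' : Finset (GG w) → Submodule k (L k w)} (h : ∀ s, V s ≤ V' s) (p : ℕ) :
    CV V p ≤ CV V' p := fun _ hc j => h _ (hc j)

theorem ZQ_le {P : (Var w → ℤ) → Prop} {r : ℤ} {p : ℕ} :
    ZQ (U k P r 0 r) (IN k P r) p ≤ ZQ (U k PT r 0 r) (IN k PT r) p := by
  intro c hc
  refine ⟨CV_le (V := U k P r 0 r) (V' := U k PT r 0 r) (fun _ => U_le) p hc.1, ?_⟩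
  exact Submodule.mem_comap.2 (CV_le (V := IN k P r) (V' := IN k PT r) (fun _ => IN_le) (p + 1)
    (Submodule.mem_comap.1 hc.2))

theorem BQ_le {P : (Var w → ℤ) → Prop} {r : ℤ} {p : ℕ} :
    BQ (U k P r 0 r) (IN k P r) p ≤ BQ (U k PT r 0 r) (IN k PT r) p :=
  sup_le_sup (Submodule.map_mono (CV_le (V := U k P r 0 r) (V' := U k PT r 0 r)
    (fun _ => U_le) p)) (CV_le (V := IN k P r) (V' := IN k PT r) (fun _ => IN_le) (p + 1))

theorem rc_BQ {P : (Var w → ℤ) → Prop} (hP : HP P) {r : ℤ} {p : ℕ}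
    {c : (Fin (p + 1) → GG w) → L k w} (hc : c ∈ BQ (U k PT r 0 r) (IN k PT r) p) :
    rc P (p + 1) c ∈ BQ (U k P r 0 r) (IN k P r) p := by
  obtain ⟨x, hx, y, hy, rfl⟩ := Submodule.mem_sup.1 hc
  obtain ⟨b, hb, rfl⟩ := hx
  rw [map_add]
  refine Submodule.add_mem_sup ?_ ?_
  · refine ⟨rc P p b, fun j => restr_U (hb j), ?_⟩
    exact dd_rc P p b
  · intro j
    exact restr_IN hP (hy j)

end B13

open B13 in
theorem PsiT_proof (k : Type) [Field k] (w : ℕ) (h1 : PsiM k w) (h2 : ChPX k w) : PsiT k w := by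
  classical
  intro r
  obtain ⟨Ψ, hK, hS, hH, h0⟩ := h1 r
  obtain ⟨hp, hx⟩ := h2 r
  let R : ZQ (U k (w := w) PT r 0 r) (IN k PT r) (w + 4) →ₗ[k]
      ZQ (U k (w := w) Pm r 0 r) (IN k Pm r) (w + 4) :=
    (rc Pm (w + 4)).restrict (fun c hc => rc_ZQ hPm hc)
  have hR : ∀ c, (R c).1 = rc Pm (w + 4) c.1 := fun c => rfl
  -- the cocycles of the class `Pm`
  have hinc : ∀ c : ZQ (U k (w := w) Pm r 0 r) (IN k Pm r) (w + 4),
      R ⟨c.1, ZQ_le c.2⟩ = c := by
    intro c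
    apply Subtype.ext
    rw [hR]
    funext j
    rw [rc_apply]
    exact restr_self fun u hu => (c.2.1 j u hu).1
  refine ⟨Ψ ∘ₗ R, fun c => hK (R c), ?_, ?_, ?_⟩
  · intro g hg
    obtain ⟨c, hc⟩ := hS g hg
    refine ⟨⟨c.1, ZQ_le c.2⟩, ?_⟩
    rw [LinearMap.comp_apply, hinc, hc]
  · intro g hg ω hω
    obtain ⟨c, hc, hc'⟩ := hH g hg ω hω
    refine ⟨⟨c.1, ZQ_le c.2⟩, ?_, hc'⟩
    rw [LinearMap.comp_apply, hinc, hc]
  · intro c
    rw [LinearMap.comp_apply, h0, hR]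
    constructor
    · intro hm
      have e : c.1 = rc Pp (w + 4) c.1 + rc Pm (w + 4) c.1 + rc Px (w + 4) c.1 := by
        funext j
        show _ = restr Pp (c.1 j) + restr Pm (c.1 j) + restr Px (c.1 j)
        rw [decomp]
      rw [e]
      exact Submodule.add_mem _ (Submodule.add_mem _ (BQ_le (hp (rc_ZQ hPp c.2))) (BQ_le hm))
        (BQ_le (hx (rc_ZQ hPx c.2)))
    · intro hb
      exact rc_BQ hPm hb

end Pool.Agent.T2H37.LB
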