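import Pool.Agent.T2H37.LB.B1

/-!
# LB, package B2: the prism operator
-/

set_option autoImplicit false

namespace Pool.Agent.T2H37.LB

open Finset

namespace B2

open B1

variable {k : Type} [Field k] {G : Type}

/-- prepend `g` -/
abbrev cn {p : ℕ} (g : G) (j : Fin p → G) : Fin (p + 1) → G := Fin.cons g j

/-- the prism operator -/
def H (φ : G → G) : (p : ℕ) → ((Fin (p + 1) → G) → k) → ((Fin p → G) → k)
  | 0, _ => fun _ => 0
  | p + 1, c => fun j => c (cn (j 0) (cn (φ (j 0)) (φ ∘ Fin.tail j))) -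
      H φ p (fun j' => c (cn (j 0) j')) (Fin.tail j)

theorem H_cons (φ : G → G) (p : ℕ) (c : (Fin (p + 2) → G) → k) (g : G) (j : Fin p → G) :
    H φ (p + 1) c (cn g j) = c (cn g (cn (φ g) (φ ∘ j))) - H φ p (fun j' => c (cn g j')) j := by
  simp only [H, cn, Fin.cons_zero, Fin.tail_cons]

theorem H_sub (φ : G → G) (p : ℕ) (c d : (Fin (p + 1) → G) → k) :
    H φ p (fun j => c j - d j) = fun j => H φ p c j - H φ p d j := by
  induction p with
  | zero => funext j; simp [H]
  | succ p ih =>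
    funext j
    rw [← Fin.cons_self_tail j]
    have h := H_cons φ p (fun j => c j - d j) (j 0) (Fin.tail j)
    have h1 := H_cons φ p c (j 0) (Fin.tail j)
    have h2 := H_cons φ p d (j 0) (Fin.tail j)
    simp only [cn] at h h1 h2
    rw [h, h1, h2, ih]
    ring

/-- naturality of the differential -/
theorem dd_comp (φ : G → G) (p : ℕ) (c : (Fin p → G) → k) (j : Fin (p + 1) → G) :
    dd k p (fun j' => c (φ ∘ j')) j = dd k p c (φ ∘ j) := by
  rw [dd_apply, dd_apply]
  rfl

theorem comp_cn (φ : G → G) {p : ℕ} (g : G) (j : Fin p → G) :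
    φ ∘ (cn g j) = cn (φ g) (φ ∘ j) := by
  funext m
  rcases Fin.eq_zero_or_eq_succ m with rfl | ⟨y, rfl⟩
  · rfl
  · rfl

/-- the homotopy formula -/
theorem prism (φ : G → G) (p : ℕ) (c : (Fin (p + 1) → G) → k) (j : Fin (p + 1) → G) :
    dd k p (H φ p c) j + H φ (p + 1) (dd k (p + 1) c) j = c (φ ∘ j) - c j := by
  induction p with
  | zero =>
    obtain ⟨g, j', rfl⟩ : ∃ g, ∃ j' : Fin 0 → G, j = cn g j' :=
      ⟨j 0, Fin.tail j, (Fin.cons_self_tail j).symm⟩
    rw [H_cons, comp_cn]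
    rw [show dd k (0 + 1) c (cn g (cn (φ g) (φ ∘ j'))) = c (cn (φ g) (φ ∘ j')) -
      dd k 0 (fun j' => c (cn g j')) (cn (φ g) (φ ∘ j')) from dd_cons 0 c g _]
    rw [dd_zero_apply, dd_zero_apply]
    simp only [H]
    rw [Subsingleton.elim j' Fin.elim0]
    ring
  | succ p ih =>
    obtain ⟨g, j', rfl⟩ : ∃ g, ∃ j' : Fin (p + 1) → G, j = cn g j' :=
      ⟨j 0, Fin.tail j, (Fin.cons_self_tail j).symm⟩
    rw [H_cons, comp_cn]
    have e1 : dd k (p + 1) (H φ (p + 1) c) (cn g j') = H φ (p + 1) c j' -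
        dd k p (fun i => H φ (p + 1) c (cn g i)) j' := dd_cons p _ g j'
    have e2 : dd k (p + 2) c (cn g (cn (φ g) (φ ∘ j'))) = c (cn (φ g) (φ ∘ j')) -
        dd k (p + 1) (fun i => c (cn g i)) (cn (φ g) (φ ∘ j')) := dd_cons (p + 1) c g _
    have e3 : dd k (p + 1) (fun i => c (cn g i)) (cn (φ g) (φ ∘ j')) = c (cn g (φ ∘ j')) -
        dd k p (fun i => c (cn g (cn (φ g) i))) (φ ∘ j') := dd_cons p (fun i => c (cn g i)) (φ g) _
    have e4 : (fun i => H φ (p + 1) c (cn g i)) =
        (fun i => c (cn g (cn (φ g) (φ ∘ i)))) - H φ p (fun i => c (cn g i)) := by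
      funext i
      rw [H_cons]
      rfl
    have e5 : dd k p (fun i => c (cn g (cn (φ g) (φ ∘ i)))) j' =
        dd k p (fun i => c (cn g (cn (φ g) i))) (φ ∘ j') :=
      dd_comp φ p (fun i => c (cn g (cn (φ g) i))) j'
    have e6 : (fun i => dd k (p + 2) c (cn g i)) =
        fun i => c i - dd k (p + 1) (fun i' => c (cn g i')) i := by
      funext i
      exact dd_cons (p + 1) c g i
    have e7 := ih (fun i => c (cn g i)) j'
    rw [e1, e2, e3, e4, map_sub, Pi.sub_apply, e5, e6, H_sub]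
    linear_combination e7

/-- the prism operator preserves the covering condition -/
theorem H_cov {V : Type} [DecidableEq V] (supp : G → Finset V) (N : Finset V) (φ : G → G)
    (hφ : ∀ g, supp (φ g) ∩ N ⊆ supp g) (p : ℕ) (S : Set V) (c : (Fin (p + 1) → G) → k)
    (hc : ∀ j, c j ≠ 0 → ∀ v ∈ N, v ∈ S ∨ ∃ m, v ∈ supp (j m)) (j : Fin p → G)
    (hj : H φ p c j ≠ 0) : ∀ v ∈ N, v ∈ S ∨ ∃ m, v ∈ supp (j m) := by
  induction p generalizing S with
  | zero => exact absurd rfl hj
  | succ p ih =>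
    obtain ⟨g, j', rfl⟩ : ∃ g, ∃ j' : Fin p → G, j = cn g j' :=
      ⟨j 0, Fin.tail j, (Fin.cons_self_tail j).symm⟩
    rw [H_cons] at hj
    intro v hv
    by_cases h1 : c (cn g (cn (φ g) (φ ∘ j'))) = 0
    · rw [h1, zero_sub, neg_ne_zero] at hj
      have := ih (S ∪ {x | x ∈ supp g}) (fun i => c (cn g i)) (by
        intro i hi v hv
        rcases hc _ hi v hv with h | ⟨m, hm⟩
        · exact Or.inl (Or.inl h)
        · rcases Fin.eq_zero_or_eq_succ m with rfl | ⟨y, rfl⟩
          · exact Or.inl (Or.inr hm)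
          · exact Or.inr ⟨y, hm⟩) j' hj v hv
      rcases this with (h | h) | ⟨m, hm⟩
      · exact Or.inl h
      · exact Or.inr ⟨0, h⟩
      · exact Or.inr ⟨m.succ, hm⟩
    · rcases hc _ h1 v hv with h | ⟨m, hm⟩
      · exact Or.inl h
      · right
        rcases Fin.eq_zero_or_eq_succ m with rfl | ⟨y, rfl⟩
        · exact ⟨0, hm⟩
        · rcases Fin.eq_zero_or_eq_succ y with rfl | ⟨z, rfl⟩
          · exact ⟨0, hφ g (Finset.mem_inter.2 ⟨hm, hv⟩)⟩
          · exact ⟨z.succ, hφ (j' z) (Finset.mem_inter.2 ⟨hm, hv⟩)⟩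

end B2

open B1 B2 in
theorem Prism_proof (k : Type) [Field k] : Prism k := by
  intro G V _ _ supp N φ v hv hφ hφv p c hc
  rw [mem_Zd] at hc
  obtain ⟨h1, h2⟩ := hc
  rw [mem_CV_VC] at h1
  cases p with
  | zero =>
    show c ∈ (⊥ : Submodule k _)
    rw [Submodule.mem_bot]
    funext j
    by_contra hj
    obtain ⟨m, -⟩ := h1 j hj v hv
    exact m.elim0
  | succ p =>
    show c ∈ (CV (VC k supp N) p).map (dd k p)
    refine ⟨-(H φ p c), ?_, ?_⟩
    · apply Submodule.neg_mem
      rw [mem_CV_VC]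
      intro j hj x hx
      rcases H_cov supp N φ hφ p ∅ c (fun i hi x hx => Or.inr (h1 i hi x hx)) j hj x hx with h | h
      · exact absurd h (Set.notMem_empty _)
      · exact h
    · funext j
      have h3 := prism φ p c j
      rw [h2] at h3
      have h4 : c (φ ∘ j) = 0 := by
        by_contra h
        obtain ⟨m, hm⟩ := h1 _ h v hv
        exact hφv _ hm
      have h5 : H φ (p + 1) (0 : (Fin (p + 2) → G) → k) j = 0 := by
        have h6 := congrFun (H_sub φ (p + 1) (0 : (Fin (p + 2) → G) → k) 0) j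
        have h7 : (fun i : Fin (p + 2) → G => (0 : (Fin (p + 2) → G) → k) i -
          (0 : (Fin (p + 2) → G) → k) i) = 0 := by
          funext i
          exact sub_zero _
        rw [h7] at h6
        simpa using h6
      rw [h5, h4] at h3
      rw [map_neg, Pi.neg_apply]
      linear_combination -h3

end Pool.Agent.T2H37.LB
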