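import Pool.Agent.T2H37.LB.StmB

/-!
# LB, package B3: removing one vertex
-/

set_option autoImplicit false

namespace Pool.Agent.T2H37.LB

open Finset

namespace PkgB3

section dd

variable {k : Type} [Field k] {G A : Type} [AddCommGroup A] [Module k A]

theorem dd_apply (i : ℕ) (c : (Fin i → G) → A) (j : Fin (i + 1) → G) :
    dd k i c j = ∑ m : Fin (i + 1), ((-1 : ℤ) ^ (m : ℕ)) • c (j ∘ m.succAbove) := by
  simp [dd]

theorem dd_cons (i : ℕ) (c : (Fin (i + 1) → G) → A) (g : G) (j : Fin (i + 1) → G) :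
    dd k (i + 1) c (Fin.cons g j : Fin (i + 1 + 1) → G) =
      c j - dd k i (fun j' => c (Fin.cons g j' : Fin (i + 1) → G)) j := by
  rw [dd_apply, dd_apply, Fin.sum_univ_succ]
  have h0 : (Fin.cons g j : Fin (i + 1 + 1) → G) ∘ (0 : Fin (i + 1 + 1)).succAbove = j := by
    funext x
    simp
  have h1 : ∀ m : Fin (i + 1), (Fin.cons g j : Fin (i + 1 + 1) → G) ∘ (m.succ).succAbove =
      (Fin.cons g (j ∘ m.succAbove) : Fin (i + 1) → G) := by
    intro m
    funext x
    refine Fin.cases ?_ (fun x => ?_) x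
    · simp
    · simp
  rw [h0, sub_eq_add_neg, ← Finset.sum_neg_distrib]
  simp only [Fin.val_zero, pow_zero, one_smul]
  congr 1
  refine Finset.sum_congr rfl fun m _ => ?_
  rw [h1, Fin.val_succ, pow_succ, mul_neg_one, neg_smul]

theorem dd_cons_zero (c : (Fin 0 → G) → A) (j : Fin 1 → G) (j' : Fin 0 → G) :
    dd k 0 c j = c j' := by
  rw [dd_apply, Fin.sum_univ_succ, Fin.sum_univ_zero, add_zero, Fin.val_zero, pow_zero, one_smul]
  exact congrArg c (Subsingleton.elim _ _)

theorem dd_dd (i : ℕ) (c : (Fin i → G) → A) : dd k (i + 1) (dd k i c) = 0 := by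
  induction i with
  | zero =>
    funext j
    rw [← Fin.cons_self_tail j, dd_cons]
    have h : (fun j' : Fin 0 → G => dd k 0 c (Fin.cons (j 0) j' : Fin 1 → G)) = c := by
      funext j'
      exact dd_cons_zero c _ _
    rw [h, sub_self]
    rfl
  | succ i ih =>
    funext j
    rw [← Fin.cons_self_tail j, dd_cons]
    have h : (fun j' : Fin (i + 1) → G => dd k (i + 1) c (Fin.cons (j 0) j' : Fin (i + 1 + 1) → G)) =
        c - dd k i (fun j' => c (Fin.cons (j 0) j' : Fin (i + 1) → G)) := by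
      funext j'
      rw [dd_cons]
      rfl
    rw [h, map_sub, ih, sub_zero, sub_self]
    rfl

end dd

section VC

variable {k : Type} [Field k] {G V : Type} [DecidableEq G] [DecidableEq V]

theorem mem_CV {supp : G → Finset V} {N : Finset V} {i : ℕ} {c : (Fin i → G) → k} :
    c ∈ CV (VC k supp N) i ↔ ∀ j, c j ≠ 0 → ∀ n ∈ N, ∃ m, n ∈ supp (j m) := by
  constructor
  · intro h j hj n hn
    have h1 : N ⊆ (univ.image j).biUnion supp := h j hj
    have h2 := h1 hn
    simp only [Finset.mem_biUnion, Finset.mem_image, Finset.mem_univ, true_and] at h2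
    obtain ⟨_, ⟨m, rfl⟩, h3⟩ := h2
    exact ⟨m, h3⟩
  · intro h j hj n hn
    obtain ⟨m, hm⟩ := h j hj n hn
    simp only [Finset.mem_biUnion, Finset.mem_image, Finset.mem_univ, true_and]
    exact ⟨j m, ⟨m, rfl⟩, hm⟩

theorem dd_mem {supp : G → Finset V} {N : Finset V} {i : ℕ} {c : (Fin i → G) → k}
    (hc : c ∈ CV (VC k supp N) i) : dd k i c ∈ CV (VC k supp N) (i + 1) := by
  rw [mem_CV] at hc ⊢
  intro j hj n hn
  rw [dd_apply] at hj
  obtain ⟨m, _, hm⟩ := Finset.exists_ne_zero_of_sum_ne_zero hj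
  have h1 : c (j ∘ m.succAbove) ≠ 0 := fun h => hm (by rw [h, smul_zero])
  obtain ⟨l, hl⟩ := hc _ h1 n hn
  exact ⟨m.succAbove l, hl⟩

variable (supp : G → Finset V) (v : V)

/-- the generators not containing `v` -/
abbrev X : Type := {g : G // v ∉ supp g}

/-- restriction -/
noncomputable def r (i : ℕ) : ((Fin i → G) → k) →ₗ[k] ((Fin i → X supp v) → k) :=
  LinearMap.funLeft k k (fun j m => (j m).1)

omit [DecidableEq G] in
theorem r_apply (i : ℕ) (c : (Fin i → G) → k) (j : Fin i → X supp v) :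
    r supp v i c j = c (fun m => (j m).1) := rfl

omit [DecidableEq G] in
theorem dd_r (i : ℕ) (c : (Fin i → G) → k) : dd k i (r supp v i c) = r supp v (i + 1) (dd k i c) := by
  funext j
  rw [dd_apply, r_apply, dd_apply]
  rfl

open Classical in
/-- extension by zero -/
noncomputable def ex (i : ℕ) (e : (Fin i → X supp v) → k) : (Fin i → G) → k := fun j =>
  if h : ∀ m, v ∉ supp (j m) then e (fun m => ⟨j m, h m⟩) else 0

omit [DecidableEq G] in
theorem r_ex (i : ℕ) (e : (Fin i → X supp v) → k) : r supp v i (ex supp v i e) = e := by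
  funext j
  rw [r_apply]
  unfold ex
  rw [dif_pos (fun m => (j m).2)]

variable {N : Finset V}

theorem ex_mem {i : ℕ} {e : (Fin i → X supp v) → k}
    (he : e ∈ CV (VC k (fun g : X supp v => supp g.1) (N.erase v)) i) :
    ex supp v i e ∈ CV (VC k supp (N.erase v)) i := by
  rw [mem_CV] at he ⊢
  intro j hj n hn
  unfold ex at hj
  split_ifs at hj with h
  · exact he _ hj n hn
  · exact absurd rfl hj

theorem r_mem {i : ℕ} {c : (Fin i → G) → k} (hc : c ∈ CV (VC k supp (N.erase v)) i) :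
    r supp v i c ∈ CV (VC k (fun g : X supp v => supp g.1) (N.erase v)) i := by
  rw [mem_CV] at hc ⊢
  intro j hj n hn
  exact hc _ hj n hn

theorem mem_of_r {i : ℕ} {c : (Fin i → G) → k} (hc : c ∈ CV (VC k supp (N.erase v)) i)
    (hr : r supp v i c = 0) : c ∈ CV (VC k supp N) i := by
  rw [mem_CV] at hc ⊢
  intro j hj n hn
  by_cases hnv : n = v
  · subst hnv
    by_contra hcon
    push Not at hcon
    have h1 := congrFun hr (fun m => ⟨j m, hcon m⟩)
    rw [r_apply] at h1
    exact hj h1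
  · exact hc j hj n (Finset.mem_erase.2 ⟨hnv, hn⟩)

theorem mem_erase {i : ℕ} {c : (Fin i → G) → k} (hc : c ∈ CV (VC k supp N) i) :
    c ∈ CV (VC k supp (N.erase v)) i := by
  rw [mem_CV] at hc ⊢
  intro j hj n hn
  exact hc j hj n (Finset.mem_of_mem_erase hn)

theorem r_zero (hv : v ∈ N) {i : ℕ} {c : (Fin i → G) → k} (hc : c ∈ CV (VC k supp N) i) :
    r supp v i c = 0 := by
  rw [mem_CV] at hc
  funext j
  rw [r_apply]
  by_contra hcon
  obtain ⟨m, hm⟩ := hc _ hcon v hv
  exact (j m).2 hm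

theorem corr {i : ℕ} {b : (Fin i → G) → k} (hb : b ∈ CV (VC k supp (N.erase v)) i)
    (hr : r supp v i b ∈ Bd (VC k (fun g : X supp v => supp g.1) (N.erase v)) i) :
    dd k i b ∈ Bd (VC k supp N) (i + 1) := by
  cases i with
  | zero =>
    exact Submodule.mem_map_of_mem (mem_of_r supp v hb ((Submodule.mem_bot k).1 hr))
  | succ i =>
    obtain ⟨e, he, hde⟩ := hr
    have h1 : b - dd k i (ex supp v i e) ∈ CV (VC k supp (N.erase v)) (i + 1) :=
      Submodule.sub_mem _ hb (dd_mem (ex_mem supp v he))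
    have h2 : r supp v (i + 1) (b - dd k i (ex supp v i e)) = 0 := by
      rw [map_sub, ← dd_r, r_ex, hde, sub_self]
    have h3 : dd k (i + 1) (b - dd k i (ex supp v i e)) = dd k (i + 1) b := by
      rw [map_sub, dd_dd, sub_zero]
    rw [← h3]
    exact Submodule.mem_map_of_mem (mem_of_r supp v h1 h2)

theorem r_Bd {i : ℕ} {x : (Fin i → G) → k} (hx : x ∈ Bd (VC k supp (N.erase v)) i) :
    r supp v i x ∈ Bd (VC k (fun g : X supp v => supp g.1) (N.erase v)) i := by
  cases i with
  | zero =>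
    rw [(Submodule.mem_bot k).1 hx, map_zero]
    exact Submodule.zero_mem _
  | succ i =>
    obtain ⟨e, he, rfl⟩ := hx
    rw [← dd_r]
    exact Submodule.mem_map_of_mem (r_mem supp v he)

theorem lift (hv : v ∈ N) (hacy : Acy (VC k supp (N.erase v))) {i : ℕ} {c : (Fin (i + 1) → G) → k}
    (hc : c ∈ Zd (VC k supp N) (i + 1)) :
    ∃ b ∈ CV (VC k supp (N.erase v)) i, dd k i b = c ∧
      r supp v i b ∈ Zd (VC k (fun g : X supp v => supp g.1) (N.erase v)) i := by
  obtain ⟨b, hb, hbc⟩ := hacy (i + 1) (x := c) ⟨mem_erase supp v hc.1, hc.2⟩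
  refine ⟨b, hb, hbc, r_mem supp v hb, ?_⟩
  refine LinearMap.mem_ker.2 ?_
  rw [dd_r, hbc]
  exact r_zero supp v hv hc.1

end VC

end PkgB3

open PkgB3 in
theorem Ses_proof (k : Type) [Field k] : Ses k := by
  intro G V _ _ supp N v p hv hacy hconc
  obtain ⟨hex, c0', hc0, hc0B, hone⟩ := hconc
  refine ⟨?_, ?_⟩
  · intro q hq c hc
    cases q with
    | zero =>
      have h1 : c = 0 := by
        funext j
        by_contra hcon
        obtain ⟨m, _⟩ := mem_CV.1 hc.1 j hcon v hv
        exact m.elim0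
      rw [h1]
      exact Submodule.zero_mem _
    | succ i =>
      obtain ⟨b, hb, hbc, hrb⟩ := lift supp v hv hacy hc
      rw [← hbc]
      exact corr supp v hb (hex i (fun h => hq (by rw [h])) hrb)
  · have hdc0 : dd k p c0' = 0 := LinearMap.mem_ker.1 hc0.2
    have hmem : dd k p (ex supp v p c0') ∈ CV (VC k supp N) (p + 1) := by
      apply mem_of_r supp v (dd_mem (ex_mem supp v hc0.1))
      rw [← dd_r, r_ex, hdc0]
    refine ⟨dd k p (ex supp v p c0'), ⟨hmem, ?_⟩, ?_, ?_⟩
    · exact LinearMap.mem_ker.2 (dd_dd _ _)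
    · rintro ⟨b, hb, hbc⟩
      have h1 : ex supp v p c0' - b ∈ Zd (VC k supp (N.erase v)) p := by
        refine ⟨Submodule.sub_mem _ (ex_mem supp v hc0.1) (mem_erase supp v hb), ?_⟩
        refine LinearMap.mem_ker.2 ?_
        rw [map_sub, hbc, sub_self]
      have h2 := r_Bd supp v (hacy p h1)
      rw [map_sub, r_ex, r_zero supp v hv hb, sub_zero] at h2
      exact hc0B h2
    · intro c hc
      obtain ⟨b, hb, hbc, hrb⟩ := lift supp v hv hacy hc
      obtain ⟨a, ha⟩ := hone _ hrb
      refine ⟨a, ?_⟩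
      have h1 : b - a • ex supp v p c0' ∈ CV (VC k supp (N.erase v)) p :=
        Submodule.sub_mem _ hb (Submodule.smul_mem _ _ (ex_mem supp v hc0.1))
      have h2 : r supp v p (b - a • ex supp v p c0') ∈
          Bd (VC k (fun g : X supp v => supp g.1) (N.erase v)) p := by
        rw [map_sub, map_smul, r_ex]
        exact ha
      have h3 := corr supp v h1 h2
      rw [map_sub, map_smul, hbc] at h3
      exact h3

end Pool.Agent.T2H37.LB
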