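import Pool.Agent.T2H37.LB.B6

/-!
# LB, package B4: the simplex
-/

set_option autoImplicit false

namespace Pool.Agent.T2H37.LB

open Finset

namespace SimplexAux

variable {k : Type} [Field k] {G : Type} [DecidableEq G] [Fintype G]

theorem simp (hT : Tog k) (hS : Ses k) (n : ℕ) : ∀ T : Finset G, Tᶜ.card = n →
    Conc (VC k (fun g : {g : G // g ∉ T} => ({g.1} : Finset G)) Tᶜ) n := by
  induction n with
  | zero =>
    intro T hTc
    rw [card_eq_zero] at hTc
    have hTu : T = univ := by rwa [compl_eq_empty_iff] at hTc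
    rw [hTc]
    exact PatCaux.conc_empty (fun g : G => ({g} : Finset G)) (fun g => g ∉ T)
      (fun g h => h (hTu ▸ mem_univ g))
  | succ n ih =>
    intro T hTc
    obtain ⟨l, hl⟩ : (Tᶜ).Nonempty := by
      rw [← card_pos, hTc]
      omega
    have hl' := hl
    rw [mem_compl] at hl'
    have hc : (insert l T)ᶜ.card = n := by
      rw [card_compl, card_insert_of_notMem hl']
      rw [card_compl] at hTc
      omega
    refine PatCaux.ses' hS (fun g : G => ({g} : Finset G)) (fun g => g ∉ T)
      (fun g => g ∉ insert l T) Tᶜ (insert l T)ᶜ l n hl ?_ ?_ ?_ (ih _ hc)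
    · refine hT _ _ _ _ (⟨l, hl'⟩ : {g : G // g ∉ T}) ?_
      rw [Finset.disjoint_left]
      intro v hv hv'
      exact (mem_erase.1 hv').1 (mem_singleton.1 hv)
    · intro g
      rw [mem_insert, mem_singleton, not_or, and_comm]
      refine and_congr_right fun _ => ?_
      exact not_congr eq_comm
    · intro s
      have : (Tᶜ).erase l = (insert l T)ᶜ := by
        ext v
        simp only [mem_erase, mem_compl, mem_insert, not_or]
      rw [this]

end SimplexAux

open PatCaux in
theorem Simplex_proof (k : Type) [Field k] (hT : Tog k) (hS : Ses k) : Simplex k := by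
  intro G _ _
  have h1 := SimplexAux.simp (G := G) hT hS (Fintype.card G) ∅ (by simp)
  let e : G ≃ {g : G // g ∉ (∅ : Finset G)} :=
    { toFun := fun g => ⟨g, notMem_empty _⟩
      invFun := fun g => g.1
      left_inv := fun _ => rfl
      right_inv := fun _ => rfl }
  refine conc_equiv e (fun s => ?_) _ h1
  have h3 : (s.map e.toEmbedding).biUnion (fun g => ({g.1} : Finset G)) =
      s.biUnion (fun g => ({g} : Finset G)) := by
    ext x
    simp only [mem_biUnion, mem_map]
    constructor
    · rintro ⟨_, ⟨g, hg', rfl⟩, hx⟩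
      exact ⟨g, hg', hx⟩
    · rintro ⟨g, hg', hx⟩
      exact ⟨_, ⟨g, hg', rfl⟩, hx⟩
  rw [h3, compl_empty]

end Pool.Agent.T2H37.LB
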