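import Pool.Agent.T2H37.LB.B1

/-!
# LB, package B5: acyclic patterns
-/

set_option autoImplicit false

namespace Pool.Agent.T2H37.LB

open Finset

open B1 in
theorem PatA_proof (k : Type) [Field k] (w : ℕ) (h1 : Tog k) (h2 : Prism k) : PatA k w := by
  intro N hN
  rcases hN with ⟨i, hi⟩ | ⟨l, hl⟩ | ⟨i, i', hi, hi'⟩ | ⟨i, i', hi, hi'⟩ | ⟨i, i', hi, hi'⟩ |
    ⟨hg, hh, ha⟩
  · -- `y_i ∈ N`
    intro p c hc
    rw [mem_Zd, mem_CV_VC] at hc
    have : c = 0 := by
      funext j
      by_contra hj
      obtain ⟨m, hm⟩ := hc.1 j hj _ hi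
      revert hm
      rcases j m with x | l <;> simp [supp]
    rw [this]
    exact Submodule.zero_mem _
  · -- `θ_l ∉ N`
    apply h1 _ _ _ _ (Sum.inr l)
    rw [Finset.disjoint_left]
    intro v hv hvN
    simp only [supp, Finset.mem_singleton] at hv
    exact hl (hv ▸ hvN)
  · -- `γ_i ∈ N`, `γ_{i'} ∉ N`
    apply h2 _ _ _ _ (Sum.elim (fun x => Sum.inl (i', x.2)) Sum.inr) (Var.g i) hi
    · rintro (x | l)
      · intro v hv
        obtain ⟨hv1, hv2⟩ := Finset.mem_inter.1 hv
        simp only [Sum.elim_inl, supp, Finset.mem_insert, Finset.mem_singleton] at hv1 ⊢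
        rcases hv1 with rfl | h | h
        · exact absurd hv2 hi'
        · exact Or.inr (Or.inl h)
        · exact Or.inr (Or.inr h)
      · exact Finset.inter_subset_left
    · rintro (x | l) <;> simp only [Sum.elim_inl, Sum.elim_inr, supp, Finset.mem_insert,
        Finset.mem_singleton, reduceCtorEq, or_false, Var.g.injEq, not_false_iff]
      rintro rfl
      exact hi' hi
  · -- `h_i ∈ N`, `h_{i'} ∉ N`
    apply h2 _ _ _ _ (Sum.elim (fun x => Sum.inl (x.1, i', x.2.2)) Sum.inr) (Var.h i) hi
    · rintro (x | l)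
      · intro v hv
        obtain ⟨hv1, hv2⟩ := Finset.mem_inter.1 hv
        simp only [Sum.elim_inl, supp, Finset.mem_insert, Finset.mem_singleton] at hv1 ⊢
        rcases hv1 with h | rfl | h
        · exact Or.inl h
        · exact absurd hv2 hi'
        · exact Or.inr (Or.inr h)
      · exact Finset.inter_subset_left
    · rintro (x | l) <;> simp only [Sum.elim_inl, Sum.elim_inr, supp, Finset.mem_insert,
        Finset.mem_singleton, reduceCtorEq, or_false, false_or, Var.h.injEq, not_false_iff]
      rintro rfl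
      exact hi' hi
  · -- `α_i ∈ N`, `α_{i'} ∉ N`
    apply h2 _ _ _ _ (Sum.elim (fun x => Sum.inl (x.1, x.2.1, i')) Sum.inr) (Var.a i) hi
    · rintro (x | l)
      · intro v hv
        obtain ⟨hv1, hv2⟩ := Finset.mem_inter.1 hv
        simp only [Sum.elim_inl, supp, Finset.mem_insert, Finset.mem_singleton] at hv1 ⊢
        rcases hv1 with h | h | rfl
        · exact Or.inl h
        · exact Or.inr (Or.inl h)
        · exact absurd hv2 hi'
      · exact Finset.inter_subset_left
    · rintro (x | l) <;> simp only [Sum.elim_inl, Sum.elim_inr, supp, Finset.mem_insert,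
        Finset.mem_singleton, reduceCtorEq, or_false, false_or, Var.a.injEq, not_false_iff]
      rintro rfl
      exact hi' hi
  · -- `N` misses `γ, h, α`
    apply h1 _ _ _ _ (Sum.inl (0, 0, 0))
    rw [Finset.disjoint_left]
    intro v hv hvN
    simp only [supp, Finset.mem_insert, Finset.mem_singleton] at hv
    rcases hv with rfl | rfl | rfl
    · exact hg _ hvN
    · exact hh _ hvN
    · exact ha _ hvN

end Pool.Agent.T2H37.LB
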