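import Pool.Agent.T2H37.LB.StmB

/-!
# LB, package B6: the non-acyclic patterns
-/

set_option autoImplicit false
set_option linter.unusedSectionVars false

namespace Pool.Agent.T2H37.LB

open Finset

namespace PatCaux

variable {k : Type} [Field k]

section Transfer

variable {G G' : Type} [DecidableEq G] [DecidableEq G']

/-- pull back of cochains -/
def pb (e : G ≃ G') (p : ℕ) (c : (Fin p → G') → k) : (Fin p → G) → k := fun j => c (e ∘ j)

theorem dd_pb (e : G ≃ G') (p : ℕ) (c : (Fin p → G') → k) :
    dd k p (pb e p c) = pb e (p + 1) (dd k p c) := by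
  funext j
  simp only [dd, pb, LinearMap.pi_apply, LinearMap.sum_apply, LinearMap.smul_apply,
    LinearMap.proj_apply]
  rfl

theorem pb_inj (e : G ≃ G') (p : ℕ) {c c' : (Fin p → G') → k} (h : pb e p c = pb e p c') :
    c = c' := by
  funext j
  have := congrFun h (e.symm ∘ j)
  simp only [pb] at this
  rwa [← Function.comp_assoc, Equiv.self_comp_symm, Function.id_comp] at this

theorem pb_surj (e : G ≃ G') (p : ℕ) (b : (Fin p → G) → k) : ∃ c, pb e p c = b := by
  refine ⟨fun j => b (e.symm ∘ j), ?_⟩
  funext j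
  simp only [pb]
  rw [← Function.comp_assoc, Equiv.symm_comp_self, Function.id_comp]

variable {T : Finset G → Prop} {T' : Finset G' → Prop} (e : G ≃ G')
  (h : ∀ s : Finset G, T s ↔ T' (s.map e.toEmbedding))

include h

theorem mem_CV (p : ℕ) (c : (Fin p → G') → k) :
    pb e p c ∈ CV (W1 k T) p ↔ c ∈ CV (W1 k T') p := by
  have him : ∀ j : Fin p → G, (univ.image j).map e.toEmbedding = univ.image (e ∘ j) := by
    intro j
    rw [Finset.map_eq_image, Finset.image_image]
    rfl
  constructor
  · intro hc j hj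
    have h1 := hc (e.symm ∘ j)
    have h2 : pb e p c (e.symm ∘ j) = c j := by
      simp only [pb]
      rw [← Function.comp_assoc, Equiv.self_comp_symm, Function.id_comp]
    have h3 := h1 (by rw [h2]; exact hj)
    rw [h, him, ← Function.comp_assoc, Equiv.self_comp_symm, Function.id_comp] at h3
    exact h3
  · intro hc j hj
    have h1 := hc (e ∘ j) hj
    rw [← him, ← h] at h1
    exact h1

theorem mem_Zd (p : ℕ) (c : (Fin p → G') → k) :
    pb e p c ∈ Zd (W1 k T) p ↔ c ∈ Zd (W1 k T') p := by
  unfold Zd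
  rw [Submodule.mem_inf, Submodule.mem_inf, mem_CV e h, LinearMap.mem_ker, LinearMap.mem_ker,
    dd_pb]
  refine and_congr_right fun _ => ⟨fun h1 => ?_, fun h1 => ?_⟩
  · exact pb_inj e (p + 1) (h1.trans rfl)
  · rw [h1]; rfl

theorem mem_Bd (p : ℕ) (c : (Fin p → G') → k) :
    pb e p c ∈ Bd (W1 k T) p ↔ c ∈ Bd (W1 k T') p := by
  cases p with
  | zero =>
    simp only [Bd, Submodule.mem_bot]
    exact ⟨fun h1 => pb_inj e 0 (h1.trans rfl), fun h1 => by rw [h1]; rfl⟩
  | succ p =>
    simp only [Bd, Submodule.mem_map]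
    constructor
    · rintro ⟨b, hb, hbc⟩
      obtain ⟨b', rfl⟩ := pb_surj e p b
      refine ⟨b', (mem_CV e h p b').1 hb, ?_⟩
      rw [dd_pb] at hbc
      exact pb_inj e (p + 1) hbc
    · rintro ⟨b, hb, hbc⟩
      refine ⟨pb e p b, (mem_CV e h p b).2 hb, ?_⟩
      rw [dd_pb, hbc]

theorem conc_equiv (p : ℕ) (hc : Conc (W1 k T') p) : Conc (W1 k T) p := by
  obtain ⟨h1, c0, hc0, hc1, hc2⟩ := hc
  refine ⟨fun i hi c hcz => ?_, pb e p c0, (mem_Zd e h p c0).2 hc0, fun h2 => hc1 ((mem_Bd e h p c0).1 h2),
    fun c hcz => ?_⟩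
  · obtain ⟨c', rfl⟩ := pb_surj e i c
    exact (mem_Bd e h i c').2 (h1 i hi ((mem_Zd e h i c').1 hcz))
  · obtain ⟨c', rfl⟩ := pb_surj e p c
    obtain ⟨a, ha⟩ := hc2 c' ((mem_Zd e h p c').1 hcz)
    exact ⟨a, (mem_Bd e h p (c' - a • c0)).2 ha⟩

end Transfer

section Step

variable {G V : Type} [DecidableEq G] [DecidableEq V]

theorem ses' (hS : Ses k) (supp : G → Finset V) (Q Q' : G → Prop) (N N' : Finset V) (v : V)
    (p : ℕ) (hv : v ∈ N) (hac : Acy (VC k (fun g : {g // Q g} => supp g.1) (N.erase v)))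
    (hQ : ∀ g, Q' g ↔ Q g ∧ v ∉ supp g)
    (hN : ∀ s : Finset {g // Q' g}, N.erase v ⊆ s.biUnion (fun g => supp g.1) ↔
      N' ⊆ s.biUnion (fun g => supp g.1))
    (hc : Conc (VC k (fun g : {g // Q' g} => supp g.1) N') p) :
    Conc (VC k (fun g : {g // Q g} => supp g.1) N) (p + 1) := by
  refine hS {g // Q g} V (fun g => supp g.1) N v p hv hac ?_
  let e : {g : {g // Q g} // v ∉ supp g.1} ≃ {g // Q' g} :=
    { toFun := fun g => ⟨g.1.1, (hQ _).2 ⟨g.1.2, g.2⟩⟩
      invFun := fun g => ⟨⟨g.1, ((hQ _).1 g.2).1⟩, ((hQ _).1 g.2).2⟩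
      left_inv := fun _ => rfl
      right_inv := fun _ => rfl }
  refine conc_equiv e (fun s => ?_) p hc
  rw [← hN]
  have h1 : (s.map e.toEmbedding).biUnion (fun g => supp g.1) =
      s.biUnion (fun g => supp g.1.1) := by
    ext x
    simp only [mem_biUnion, mem_map]
    constructor
    · rintro ⟨_, ⟨g, hg, rfl⟩, hx⟩
      exact ⟨g, hg, hx⟩
    · rintro ⟨g, hg, hx⟩
      exact ⟨_, ⟨g, hg, rfl⟩, hx⟩
  rw [h1]

/-- the empty complex -/
theorem conc_empty (supp : G → Finset V) (Q : G → Prop) (hQ : ∀ g, ¬ Q g) :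
    Conc (VC k (fun g : {g // Q g} => supp g.1) ∅) 0 := by
  have hE : IsEmpty {g // Q g} := ⟨fun g => hQ g.1 g.2⟩
  have hE' : ∀ i, IsEmpty (Fin (i + 1) → {g // Q g}) := fun i => ⟨fun j => hE.false (j 0)⟩
  have hz : ∀ i, ∀ c : (Fin (i + 1) → {g // Q g}) → k, c = 0 := fun i c => by
    funext j
    exact ((hE' i).false j).elim
  refine ⟨?_, fun _ => 1, ?_, ?_, ?_⟩
  · intro i hi c _
    obtain ⟨i, rfl⟩ := Nat.exists_eq_succ_of_ne_zero hi
    rw [hz i c]
    exact Submodule.zero_mem _
  · unfold Zd
    rw [Submodule.mem_inf]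
    refine ⟨fun j _ => Finset.empty_subset _, ?_⟩
    rw [LinearMap.mem_ker]
    exact hz 0 _
  · intro h
    simp only [Bd, Submodule.mem_bot] at h
    have := congrFun h Fin.elim0
    exact one_ne_zero this
  · intro c _
    refine ⟨c Fin.elim0, ?_⟩
    have : c - c Fin.elim0 • (fun _ => 1) = 0 := by
      funext j
      have hj : j = Fin.elim0 := funext fun i => i.elim0
      subst hj
      simp
    rw [this]
    exact Submodule.zero_mem _

end Step

section Cube

variable {w : ℕ}

/-- the three pairs of vertices -/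
def pr (c : Fin 3) (i : Fin 2) : Var w := if c = 0 then Var.g i else if c = 1 then Var.h i else Var.a i

theorem pr_inj {c c' : Fin 3} {i i' : Fin 2} : (pr c i : Var w) = pr c' i' ↔ c = c' ∧ i = i' := by
  fin_cases c <;> fin_cases c' <;> simp [pr]

/-- the generator with the indices `f` -/
def gx (f : Fin 3 → Fin 2) : GG w := Sum.inl (f 0, f 1, f 2)

theorem gx_inj {f f' : Fin 3 → Fin 2} (h : (gx f : GG w) = gx f') : f = f' := by
  simp only [gx, Sum.inl.injEq, Prod.mk.injEq] at h
  obtain ⟨h0, h1, h2⟩ := h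
  funext c
  fin_cases c
  · exact h0
  · exact h1
  · exact h2

theorem mem_supp_gx (f : Fin 3 → Fin 2) (v : Var w) : v ∈ supp (gx f) ↔ ∃ c, v = pr c (f c) := by
  simp only [supp, gx, mem_insert, mem_singleton]
  constructor
  · rintro (h | h | h)
    · exact ⟨0, h⟩
    · exact ⟨1, h⟩
    · exact ⟨2, h⟩
  · rintro ⟨c, h⟩
    fin_cases c
    · exact Or.inl h
    · exact Or.inr (Or.inl h)
    · exact Or.inr (Or.inr h)

theorem pr_mem_supp_gx (f : Fin 3 → Fin 2) (c : Fin 3) (i : Fin 2) :
    (pr c i : Var w) ∈ supp (gx f) ↔ f c = i := by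
  rw [mem_supp_gx]
  constructor
  · rintro ⟨c', h⟩
    obtain ⟨rfl, h⟩ := pr_inj.1 h
    exact h.symm
  · rintro rfl
    exact ⟨c, rfl⟩

/-- the generators `X` with index `1` in the directions in `D` -/
def QD (D : Finset (Fin 3)) (g : GG w) : Prop := ∃ f : Fin 3 → Fin 2, g = gx f ∧ ∀ c ∈ D, f c = 1

/-- the vertices in the pairs in `S` -/
def NS (w : ℕ) (S : Finset (Fin 3)) : Finset (Var w) := S.biUnion fun c => {pr c 0, pr c 1}

theorem mem_NS (S : Finset (Fin 3)) (v : Var w) : v ∈ NS w S ↔ ∃ c ∈ S, ∃ i, v = pr c i := by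
  simp only [NS, mem_biUnion, mem_insert, mem_singleton]
  refine exists_congr fun c => and_congr_right fun _ => ?_
  constructor
  · rintro (h | h)
    · exact ⟨0, h⟩
    · exact ⟨1, h⟩
  · rintro ⟨i, h⟩
    fin_cases i
    · exact Or.inl h
    · exact Or.inr h

theorem pr_mem_NS (S : Finset (Fin 3)) (c : Fin 3) (i : Fin 2) : (pr c i : Var w) ∈ NS w S ↔ c ∈ S := by
  rw [mem_NS]
  constructor
  · rintro ⟨c', hc', i', h⟩
    obtain ⟨rfl, -⟩ := pr_inj.1 h
    exact hc'
  · intro h
    exact ⟨c, h, i, rfl⟩

theorem fin2_cases (i : Fin 2) : i = 0 ∨ i = 1 := by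
  fin_cases i
  · exact Or.inl rfl
  · exact Or.inr rfl

theorem QD_insert (D : Finset (Fin 3)) (c : Fin 3) (g : GG w) :
    QD (insert c D) g ↔ QD D g ∧ pr c 0 ∉ supp g := by
  constructor
  · rintro ⟨f, rfl, hf⟩
    refine ⟨⟨f, rfl, fun c' hc' => hf c' (mem_insert_of_mem hc')⟩, ?_⟩
    rw [pr_mem_supp_gx, hf c (mem_insert_self _ _)]
    decide
  · rintro ⟨⟨f, rfl, hf⟩, h⟩
    refine ⟨f, rfl, fun c' hc' => ?_⟩
    rcases mem_insert.1 hc' with rfl | hc'
    · rw [pr_mem_supp_gx] at h
      exact (fin2_cases _).resolve_left h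
    · exact hf c' hc'

set_option maxHeartbeats 1000000 in
theorem cube (hT : Tog k) (hP : Prism k) (hS : Ses k) (S : Finset (Fin 3)) :
    ∀ D : Finset (Fin 3), S.Nonempty → Disjoint D S →
      Conc (VC k (fun g : {g : GG w // QD D g} => supp g.1) (NS w S)) (S.card + 1) := by
  induction S using Finset.induction_on with
  | empty => exact fun D h => absurd h Finset.not_nonempty_empty
  | insert c S hcS ih =>
    intro D _ hD
    have hcD : c ∉ D := fun h => Finset.disjoint_left.1 hD h (mem_insert_self _ _)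
    rw [card_insert_of_notMem hcS]
    rcases S.eq_empty_or_nonempty with rfl | hne
    · -- one pair left
      rw [card_empty]
      refine ses' hS supp (QD D) (QD (insert c D)) _ ((NS w (insert c ∅)).erase (pr c 0)) (pr c 0) _
        ((pr_mem_NS _ _ _).2 (mem_insert_self _ _)) ?_ (QD_insert D c) (fun s => Iff.rfl) ?_
      · refine hT _ _ _ _ (⟨gx fun c' => if c' = c then 0 else 1, _, rfl, fun c' hc' => ?_⟩ :
          {g : GG w // QD D g}) ?_
        · have hne' : c' ≠ c := fun h => hcD (h ▸ hc')
          simp only [if_neg hne']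
        · rw [Finset.disjoint_left]
          intro v hv hv'
          rw [mem_erase, mem_NS] at hv'
          obtain ⟨h1, c', hc', i, rfl⟩ := hv'
          have hcc : c' = c := by simpa using hc'
          subst hcc
          have hv2 : pr c' i ∈ supp (gx (w := w) fun c'_1 => if c'_1 = c' then 0 else 1) := hv
          have h2 := (pr_mem_supp_gx _ _ _).1 hv2
          simp only [if_true] at h2
          exact h1 (by rw [← h2])
      · refine ses' hS supp (QD (insert c D)) (fun _ => False) _ ∅ (pr c 1) 0
          (mem_erase.2 ⟨by rw [Ne, pr_inj]; simp, (pr_mem_NS _ _ _).2 (mem_insert_self _ _)⟩)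
          ?_ ?_ ?_ (conc_empty supp _ fun _ h => h)
        · refine hT _ _ _ _ (⟨gx fun _ => 1, _, rfl, fun _ _ => rfl⟩ :
            {g : GG w // QD (insert c D) g}) ?_
          rw [Finset.disjoint_left]
          intro v hv hv'
          rw [mem_erase, mem_erase, mem_NS] at hv'
          obtain ⟨h1, h2, c', hc', i, rfl⟩ := hv'
          have hcc : c' = c := by simpa using hc'
          subst hcc
          rcases fin2_cases i with rfl | rfl
          · exact h2 rfl
          · exact h1 rfl
        · intro g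
          refine ⟨fun h => h.elim, ?_⟩
          rintro ⟨⟨f, rfl, hf⟩, h⟩
          rw [pr_mem_supp_gx] at h
          exact h (hf c (mem_insert_self _ _))
        · intro s
          refine ⟨fun _ => empty_subset _, fun _ v hv => ?_⟩
          rw [mem_erase, mem_erase, mem_NS] at hv
          obtain ⟨h1, h2, c', hc', i, rfl⟩ := hv
          have hcc : c' = c := by simpa using hc'
          subst hcc
          rcases fin2_cases i with rfl | rfl
          · exact (h2 rfl).elim
          · exact (h1 rfl).elim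
    · -- at least two pairs
      refine ses' hS supp (QD D) (QD (insert c D)) _ (NS w S) (pr c 0) _
        ((pr_mem_NS _ _ _).2 (mem_insert_self _ _)) ?_ (QD_insert D c) ?_
        (ih (insert c D) hne ?_)
      · -- prism
        have hup : ∀ g : {g : GG w // QD D g}, ∃ g' : {g : GG w // QD D g}, ∃ f : Fin 3 → Fin 2,
            g.1 = gx f ∧ g'.1 = gx (Function.update f c 0) := by
          rintro ⟨g, f, rfl, hf⟩
          refine ⟨⟨gx (Function.update f c 0), _, rfl, fun c' hc' => ?_⟩, f, rfl, rfl⟩
          have hne' : c' ≠ c := fun h => hcD (h ▸ hc')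
          rw [Function.update_of_ne hne']
          exact hf c' hc'
        choose φ hφ using hup
        refine hP _ _ _ _ φ (pr c 1) (mem_erase.2 ⟨by rw [Ne, pr_inj]; simp,
          (pr_mem_NS _ _ _).2 (mem_insert_self _ _)⟩) ?_ ?_
        · intro g v hv
          obtain ⟨f, h1, h2⟩ := hφ g
          rw [mem_inter, h2, mem_supp_gx, mem_erase] at hv
          obtain ⟨⟨c', rfl⟩, h3, -⟩ := hv
          rw [h1, pr_mem_supp_gx]
          by_cases hcc : c' = c
          · subst hcc
            rw [Function.update_self] at h3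
            exact absurd rfl h3
          · rw [Function.update_of_ne hcc]
        · intro g
          obtain ⟨f, h1, h2⟩ := hφ g
          rw [h2, pr_mem_supp_gx, Function.update_self]
          decide
      · -- the covering relation
        intro s
        constructor
        · intro h v hv
          rw [mem_NS] at hv
          obtain ⟨c', hc', i, rfl⟩ := hv
          refine h (mem_erase.2 ⟨?_, (pr_mem_NS _ _ _).2 (mem_insert_of_mem hc')⟩)
          rw [Ne, pr_inj]
          rintro ⟨rfl, -⟩
          exact hcS hc'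
        · intro h v hv
          rw [mem_erase, mem_NS] at hv
          obtain ⟨h1, c', hc', i, rfl⟩ := hv
          rcases mem_insert.1 hc' with rfl | hc'
          · rcases fin2_cases i with rfl | rfl
            · exact absurd rfl h1
            · obtain ⟨c'', hc''⟩ := hne
              obtain ⟨g, hg, -⟩ := mem_biUnion.1 (h ((pr_mem_NS (w := w) S c'' 0).2 hc''))
              refine mem_biUnion.2 ⟨g, hg, ?_⟩
              obtain ⟨f, hf, hf1⟩ := g.2
              rw [hf, pr_mem_supp_gx]
              exact hf1 _ (mem_insert_self _ _)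
          · exact h ((pr_mem_NS _ _ _).2 hc')
      · rw [Finset.disjoint_left]
        intro c' hc' hc''
        rcases mem_insert.1 hc' with rfl | hc'
        · exact hcS hc''
        · exact Finset.disjoint_left.1 hD hc' (mem_insert_of_mem hc'')

/-- the generators without the variables `θ_l`, `l ∈ T` -/
def QT (T : Finset (Fin (w + 2))) (g : GG w) : Prop := ∀ l ∈ T, Var.t l ∉ supp g

theorem theta (hT : Tog k) (hP : Prism k) (hS : Ses k) (S : Finset (Fin 3)) (hSn : S.Nonempty)
    (N : Finset (Var w)) (hN1 : ∀ l, Var.t l ∈ N) (hN2 : ∀ v, (∀ l, v ≠ Var.t l) → (v ∈ N ↔ v ∈ NS w S))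
    (n : ℕ) : ∀ T : Finset (Fin (w + 2)), Tᶜ.card = n →
      Conc (VC k (fun g : {g : GG w // QT T g} => supp g.1) (N \ T.image Var.t)) (S.card + 1 + n) := by
  induction n with
  | zero =>
    intro T hTc
    have hTu : T = univ := by
      rw [card_eq_zero, compl_eq_empty_iff] at hTc
      exact hTc
    subst hTu
    have hQ : (QT univ : GG w → Prop) = QD ∅ := by
      funext g
      apply propext
      constructor
      · intro h
        rcases g with ⟨x0, x1, x2⟩ | l
        · exact ⟨![x0, x1, x2], rfl, fun c hc => absurd hc (notMem_empty _)⟩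
        · exact absurd (mem_singleton_self _) (h l (mem_univ _))
      · rintro ⟨f, rfl, -⟩ l _
        rw [mem_supp_gx]
        rintro ⟨c, hc⟩
        unfold pr at hc
        split_ifs at hc
    have hN : N \ univ.image Var.t = NS w S := by
      ext v
      rw [mem_sdiff]
      constructor
      · rintro ⟨h1, h2⟩
        refine (hN2 v fun l hl => h2 ?_).1 h1
        rw [hl]
        exact mem_image_of_mem _ (mem_univ _)
      · intro h
        have h1 : ∀ l, v ≠ Var.t l := by
          intro l hl
          rw [hl, mem_NS] at h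
          obtain ⟨c, _, i, hc⟩ := h
          unfold pr at hc
          split_ifs at hc
        refine ⟨(hN2 v h1).2 h, fun h2 => ?_⟩
        obtain ⟨l, -, hl⟩ := mem_image.1 h2
        exact h1 l hl.symm
    rw [hQ, hN]
    exact cube hT hP hS S ∅ hSn (disjoint_empty_left _)
  | succ n ih =>
    intro T hTc
    obtain ⟨l, hl⟩ : (Tᶜ).Nonempty := by
      rw [← card_pos, hTc]
      omega
    rw [mem_compl] at hl
    have hc : (insert l T)ᶜ.card = n := by
      rw [card_compl, card_insert_of_notMem hl]
      rw [card_compl] at hTc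
      omega
    have htinj : Function.Injective (Var.t : Fin (w + 2) → Var w) := fun a b hab => by
      simpa using hab
    refine ses' hS supp (QT T) (QT (insert l T)) _ (N \ (insert l T).image Var.t) (Var.t l) _
      ?_ ?_ ?_ ?_ (ih _ hc)
    · rw [mem_sdiff, mem_image]
      refine ⟨hN1 l, ?_⟩
      rintro ⟨l', hl', h⟩
      exact hl (htinj h ▸ hl')
    · refine hT _ _ _ _ (⟨Sum.inr l, fun l' hl' h => ?_⟩ : {g : GG w // QT T g}) ?_
      · have := htinj (mem_singleton.1 h)
        exact hl (this ▸ hl')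
      · rw [Finset.disjoint_left]
        intro v hv hv'
        exact (mem_erase.1 hv').1 (mem_singleton.1 hv)
    · intro g
      constructor
      · intro h
        exact ⟨fun l' hl' => h l' (mem_insert_of_mem hl'), h l (mem_insert_self _ _)⟩
      · rintro ⟨h1, h2⟩ l' hl'
        rcases mem_insert.1 hl' with rfl | hl'
        · exact h2
        · exact h1 l' hl'
    · intro s
      have : (N \ T.image Var.t).erase (Var.t l) = N \ (insert l T).image Var.t := by
        ext v
        simp only [mem_erase, mem_sdiff, image_insert, mem_insert]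
        tauto
      rw [this]

end Cube

end PatCaux

open PatCaux in
theorem PatC_proof (k : Type) [Field k] (w : ℕ) (hT : Tog k) (hP : Prism k) (hS : Ses k) :
    PatC k w := by
  intro N bg bh ba hb hy ht hg hh ha
  set S : Finset (Fin 3) := univ.filter fun c => ![bg, bh, ba] c = true with hSd
  have hSn : S.Nonempty := by
    rcases hb with h | h | h
    · exact ⟨0, by simp [hSd, h]⟩
    · exact ⟨1, by simp [hSd, h]⟩
    · exact ⟨2, by simp [hSd, h]⟩
  have hcard : S.card = bg.toNat + bh.toNat + ba.toNat := by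
    rw [hSd]
    clear hSd hSn hb hg hh ha S
    revert bg bh ba
    decide
  have hN2 : ∀ v, (∀ l, v ≠ Var.t l) → (v ∈ N ↔ v ∈ NS w S) := by
    intro v hv
    rcases v with i | i | i | l | i
    · have : (Var.g i : Var w) = pr 0 i := rfl
      rw [this, pr_mem_NS, ← this, hg i]
      simp [hSd]
    · have : (Var.h i : Var w) = pr 1 i := rfl
      rw [this, pr_mem_NS, ← this, hh i]
      simp [hSd]
    · have : (Var.a i : Var w) = pr 2 i := rfl
      rw [this, pr_mem_NS, ← this, ha i]
      simp [hSd]
    · exact absurd rfl (hv l)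
    · refine ⟨fun h => absurd h (hy i), fun h => ?_⟩
      rw [mem_NS] at h
      obtain ⟨c, _, j, hc⟩ := h
      unfold pr at hc
      split_ifs at hc
  have h1 := theta hT hP hS S hSn N ht hN2 (w + 2) ∅ (by simp)
  have h2 : S.card + 1 + (w + 2) = w + 3 + bg.toNat + bh.toNat + ba.toNat := by
    rw [hcard]; ring
  rw [h2] at h1
  let e : GG w ≃ {g : GG w // QT ∅ g} :=
    { toFun := fun g => ⟨g, fun l hl => absurd hl (notMem_empty _)⟩
      invFun := fun g => g.1
      left_inv := fun _ => rfl
      right_inv := fun _ => rfl }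
  refine conc_equiv e (fun s => ?_) _ h1
  have h3 : (s.map e.toEmbedding).biUnion (fun g => supp g.1) = s.biUnion supp := by
    ext x
    simp only [mem_biUnion, mem_map]
    constructor
    · rintro ⟨_, ⟨g, hg', rfl⟩, hx⟩
      exact ⟨g, hg', hx⟩
    · rintro ⟨g, hg', hx⟩
      exact ⟨_, ⟨g, hg', rfl⟩, hx⟩
  rw [h3, image_empty, sdiff_empty]

end Pool.Agent.T2H37.LB
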