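import Pool.Agent.T2H37.LB.StmB

/-!
# Package B7: exactness may be tested coefficient by coefficient
-/

set_option autoImplicit false

namespace Pool.Agent.T2H37.LB

open Finset

namespace B7

/-- the differential commutes with linear maps -/
theorem dd_map {k : Type} [Field k] {G A B : Type} [AddCommGroup A] [Module k A] [AddCommGroup B]
    [Module k B] (π : A →ₗ[k] B) (i : ℕ) (c : (Fin i → G) → A) (j : Fin (i + 1) → G) :
    dd k i (fun j => π (c j)) j = π (dd k i c j) := by
  unfold dd
  simp [LinearMap.pi_apply, LinearMap.sum_apply, map_sum, map_zsmul]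

/-- a coefficient, as a linear map -/
noncomputable def cf (k : Type) [Field k] (E : Type) (u : E) : AddMonoidAlgebra k E →ₗ[k] k where
  toFun f := f.coeff u
  map_add' f g := by rw [AddMonoidAlgebra.coeff_add, Finsupp.add_apply]
  map_smul' a f := by
    rw [AddMonoidAlgebra.coeff_smul, Finsupp.smul_apply]
    rfl

end B7

open B7 in
theorem Coef_proof (k : Type) [Field k] : Coef k := by
  classical
  intro G E _ _ _ T V hV p hex c hc
  haveI : Finite (Fin p → G) := inferInstance
  haveI : Fintype (Fin p → G) := Fintype.ofFinite _
  obtain ⟨hc1, hc2⟩ := hc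
  have hcu : ∀ u, (fun j => cf k E u (c j)) ∈ Zd (W1 k fun s => T s u) p := by
    intro u
    refine ⟨fun j => ?_, ?_⟩
    · intro h
      exact (hV _ _).1 (hc1 j) u h
    · have hc3 : dd k p c = 0 := hc2
      change dd k p (fun j => cf k E u (c j)) = 0
      funext j
      rw [dd_map, hc3]
      simp
  cases p with
  | zero =>
    have h0 : c = 0 := by
      funext j
      ext u
      have h := hex u (hcu u)
      have h2 : (fun j => cf k E u (c j)) = 0 := (Submodule.mem_bot k).1 h
      exact congrFun h2 j
    rw [h0]
    exact Submodule.zero_mem _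
  | succ q =>
    have hb : ∀ u, ∃ b : (Fin q → G) → k, b ∈ CV (W1 k fun s => T s u) q ∧
        dd k q b = fun j => cf k E u (c j) := by
      intro u
      obtain ⟨b, hb1, hb2⟩ := Submodule.mem_map.1 (hex u (hcu u))
      exact ⟨b, hb1, hb2⟩
    choose b hb1 hb2 using hb
    set S : Finset E := univ.biUnion fun j : Fin (q + 1) → G => (c j).coeff.support with hS
    have hSu : ∀ u, u ∉ S → ∀ j, cf k E u (c j) = 0 := by
      intro u hu j
      by_contra h
      exact hu (Finset.mem_biUnion.2 ⟨j, Finset.mem_univ _, Finsupp.mem_support_iff.2 h⟩)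
    set B : (Fin q → G) → AddMonoidAlgebra k E := fun j =>
      AddMonoidAlgebra.ofCoeff (Finsupp.onFinset S (fun u => if u ∈ S then b u j else 0)
        (fun u hu => by
          by_contra h
          exact hu (if_neg h))) with hB
    have hBc : ∀ u j, cf k E u (B j) = if u ∈ S then b u j else 0 := fun u j => rfl
    refine Submodule.mem_map.2 ⟨B, fun j => ?_, ?_⟩
    · rw [hV]
      intro u hu
      have h1 : (if u ∈ S then b u j else 0) ≠ 0 := hu
      by_cases h2 : u ∈ S
      · rw [if_pos h2] at h1
        exact hb1 u j h1
      · rw [if_neg h2] at h1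
        exact absurd rfl h1
    · funext j
      ext u
      change cf k E u (dd k q B j) = cf k E u (c j)
      rw [← dd_map]
      by_cases h2 : u ∈ S
      · have h3 : (fun j => cf k E u (B j)) = b u := by
          funext j
          rw [hBc, if_pos h2]
        rw [h3, hb2]
      · have h3 : (fun j => cf k E u (B j)) = 0 := by
          funext j
          rw [hBc, if_neg h2]
          rfl
        rw [h3, map_zero, hSu u h2 j]
        rfl

end Pool.Agent.T2H37.LB
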