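import Pool.Agent.T2H37.LB.StmB

/-!
# Package B8: exactness of the systems `U`
-/

set_option autoImplicit false

namespace Pool.Agent.T2H37.LB

open Finset

namespace B8

variable {k : Type} [Field k] {w : ℕ}

theorem exd_false {G A : Type} [AddCommGroup A] [Module k A] [DecidableEq G]
    (V : Finset G → Submodule k A) (h : ∀ s, V s = ⊥) (p : ℕ) : ExD V p := by
  intro c hc
  have h1 : c = 0 := by
    funext j
    have h2 := hc.1 j
    rw [h] at h2
    exact (Submodule.mem_bot k).1 h2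
  rw [h1]
  exact Submodule.zero_mem _

/-- the negative exponents -/
def Nn (u : Var w → ℤ) : Finset (Var w) := univ.filter fun v => u v < 0

theorem mem_Nn (u : Var w → ℤ) (v : Var w) : v ∈ Nn u ↔ u v < 0 := by
  unfold Nn
  rw [mem_filter]
  exact ⟨fun h => h.2, fun h => ⟨mem_univ _, h⟩⟩

theorem exd_U (hc : Coef k) (P : (Var w → ℤ) → Prop) (A C ρ : ℤ) (p : ℕ)
    (h : ∀ u, P u → hs u - gs u = A → as u - gs u = C → ys u = ρ → ExD (VC k (supp (w := w)) (Nn u)) p) :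
    ExD (U k P A C ρ) p := by
  refine hc (GG w) (Var w → ℤ) (fun s u => P u ∧ hs u - gs u = A ∧ as u - gs u = C ∧ ys u = ρ ∧
    ∀ v, u v < 0 → v ∈ suppS s) (U k P A C ρ) (fun s f => Iff.rfl) p fun u => ?_
  by_cases hu : P u ∧ hs u - gs u = A ∧ as u - gs u = C ∧ ys u = ρ
  · obtain ⟨h1, h2, h3, h4⟩ := hu
    have e : (W1 k fun s : Finset (GG w) => P u ∧ hs u - gs u = A ∧ as u - gs u = C ∧ ys u = ρ ∧
        ∀ v, u v < 0 → v ∈ suppS s) = VC k (supp (w := w)) (Nn u) := by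
      funext s
      unfold VC
      ext a
      show (a ≠ 0 → _) ↔ (a ≠ 0 → _)
      have e1 : (P u ∧ hs u - gs u = A ∧ as u - gs u = C ∧ ys u = ρ ∧
        ∀ v, u v < 0 → v ∈ suppS s) ↔ Nn u ⊆ s.biUnion supp := by
        constructor
        · rintro ⟨-, -, -, -, h5⟩ v hv
          exact h5 v ((mem_Nn u v).1 hv)
        · intro h5
          exact ⟨h1, h2, h3, h4, fun v hv => h5 ((mem_Nn u v).2 hv)⟩
      exact imp_congr_right fun _ => e1
    rw [e]
    exact h u h1 h2 h3 h4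
  · refine exd_false _ (fun s => ?_) p
    rw [Submodule.eq_bot_iff]
    intro a ha
    by_contra h0
    have := ha h0
    exact hu ⟨this.1, this.2.1, this.2.2.1, this.2.2.2.1⟩

theorem all_iff {N : Finset (Var w)} (f : Fin 2 → Var w)
    (h : ¬ ∃ i i', f i ∈ N ∧ f i' ∉ N) : ∀ i, f i ∈ N ↔ decide (f 0 ∈ N) = true := by
  intro i
  rw [decide_eq_true_iff]
  constructor
  · intro h1
    by_contra h2
    exact h ⟨i, 0, h1, h2⟩
  · intro h1
    by_contra h2
    exact h ⟨0, i, h1, h2⟩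

theorem patt (hA : PatA k w) (hC : PatC k w) (N : Finset (Var w)) :
    Acy (VC k (supp (w := w)) N) ∨ ∃ bg bh ba : Bool, (∀ i, Var.g i ∈ N ↔ bg = true) ∧
      (∀ i, Var.h i ∈ N ↔ bh = true) ∧ (∀ i, Var.a i ∈ N ↔ ba = true) ∧
      Conc (VC k (supp (w := w)) N) (w + 3 + bg.toNat + bh.toNat + ba.toNat) := by
  by_cases h1 : (∃ i, Var.y i ∈ N) ∨ (∃ l, Var.t l ∉ N) ∨ (∃ i i', Var.g i ∈ N ∧ Var.g i' ∉ N) ∨
      (∃ i i', Var.h i ∈ N ∧ Var.h i' ∉ N) ∨ (∃ i i', Var.a i ∈ N ∧ Var.a i' ∉ N) ∨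
      ((∀ i, Var.g i ∉ N) ∧ (∀ i, Var.h i ∉ N) ∧ ∀ i, Var.a i ∉ N)
  · exact Or.inl (hA N h1)
  · right
    simp only [not_or] at h1
    obtain ⟨hy, ht, hg, hh, ha, hn⟩ := h1
    have eg := all_iff Var.g hg
    have eh := all_iff Var.h hh
    have ea := all_iff Var.a ha
    refine ⟨decide (Var.g 0 ∈ N), decide (Var.h 0 ∈ N), decide (Var.a 0 ∈ N), eg, eh, ea, ?_⟩
    refine hC N _ _ _ ?_ (fun i hi => hy ⟨i, hi⟩) (fun l => by
      by_contra hl; exact ht ⟨l, hl⟩) eg eh ea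
    by_contra hb
    simp only [not_or] at hb
    apply hn
    refine ⟨fun i hi => hb.1 ((eg i).1 hi), fun i hi => hb.2.1 ((eh i).1 hi),
      fun i hi => hb.2.2 ((ea i).1 hi)⟩

end B8

open B8 in
theorem ExU_proof (k : Type) [Field k] (w : ℕ) (hA : PatA k w) (hC : PatC k w) (hc : Coef k) :
    ExU k w := by
  -- degrees
  have dg : ∀ u : Var w → ℤ, gs u = u (Var.g 0) + u (Var.g 1) := fun u => rfl
  have dh : ∀ u : Var w → ℤ, hs u = u (Var.h 0) + u (Var.h 1) := fun u => rfl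
  have da : ∀ u : Var w → ℤ, as u = u (Var.a 0) + u (Var.a 1) := fun u => rfl
  refine ⟨fun A C ρ p => ?_, fun A ρ => ?_, fun A C ρ => ?_, fun A C ρ p hA1 hC1 hp => ?_⟩
  · refine exd_U hc _ _ _ _ _ fun u hP _ _ _ => ?_
    refine hA _ (Or.inr (Or.inr (Or.inr (Or.inl ?_)))) p
    obtain ⟨h1, h2⟩ := hP
    unfold Pp at h1
    unfold Pm at h2
    by_cases h3 : u (Var.h 0) < 0
    · refine ⟨0, 1, (mem_Nn _ _).2 h3, fun h4 => h2 ⟨h3, (mem_Nn _ _).1 h4⟩⟩
    · refine ⟨1, 0, (mem_Nn _ _).2 ?_, fun h4 => h3 ((mem_Nn _ _).1 h4)⟩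
      by_contra h4
      exact h1 ⟨not_lt.1 h3, not_lt.1 h4⟩
  · refine exd_U hc _ _ _ _ _ fun u hP h1 h2 _ => ?_
    rcases patt hA hC (Nn u) with h | ⟨bg, bh, ba, hg, hh, ha, hcc⟩
    · exact h _
    · refine hcc.1 _ ?_
      simp only [mem_Nn] at hg hh ha
      have hg0 := hg 0
      have hg1 := hg 1
      have hh0 := hh 0
      have ha0 := ha 0
      have ha1 := ha 1
      rw [dg, da] at h2
      obtain ⟨hP1, hP2⟩ := hP
      cases bg <;> cases bh <;> cases ba <;> simp at hg0 hg1 hh0 ha0 ha1 ⊢ <;> omega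
  · refine exd_U hc _ _ _ _ _ fun u hP h1 h2 _ => ?_
    rcases patt hA hC (Nn u) with h | ⟨bg, bh, ba, hg, hh, ha, hcc⟩
    · exact h _
    · refine hcc.1 _ ?_
      simp only [mem_Nn] at hh
      have hh0 := hh 0
      obtain ⟨hP1, hP2⟩ := hP
      cases bg <;> cases bh <;> cases ba <;> simp at hh0 ⊢ <;> omega
  · refine exd_U hc _ _ _ _ _ fun u hP h1 h2 _ => ?_
    rcases patt hA hC (Nn u) with h | ⟨bg, bh, ba, hg, hh, ha, hcc⟩
    · exact h _
    · refine hcc.1 _ ?_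
      simp only [mem_Nn] at hg hh ha
      have hg0 := hg 0
      have hg1 := hg 1
      have hh0 := hh 0
      have hh1 := hh 1
      have ha0 := ha 0
      have ha1 := ha 1
      rw [dg, da] at h2
      rw [dh, dg] at h1
      obtain ⟨hP1, hP2⟩ := hP
      cases bg <;> cases bh <;> cases ba <;> simp at hg0 hg1 hh0 hh1 ha0 ha1 ⊢ <;> omega

end Pool.Agent.T2H37.LB
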