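import Pool.Agent.T2H37.LB.StmB

/-!
# LB, package B9: the functional computing the top cohomology of the systems `U`
-/

set_option autoImplicit false

namespace Pool.Agent.T2H37.LB

open Finset

namespace B9

section

variable {k : Type} [Field k] {w : ℕ}

private lemma dd_apply {G A : Type} [AddCommGroup A] [Module k A] (i : ℕ) (c : (Fin i → G) → A)
    (j : Fin (i + 1) → G) :
    dd k i c j = ∑ m : Fin (i + 1), ((-1 : ℤ) ^ (m : ℕ)) • c (j ∘ m.succAbove) := by
  simp [dd, LinearMap.pi_apply, LinearMap.sum_apply, LinearMap.smul_apply, LinearMap.proj_apply]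

/-- the coefficient at `u` -/
private def cL (k : Type) [Field k] {w : ℕ} (u : Var w → ℤ) : L k w →ₗ[k] k where
  toFun f := f.coeff u
  map_add' f g := by rw [AddMonoidAlgebra.coeff_add, Finsupp.add_apply]
  map_smul' c f := by
    rw [AddMonoidAlgebra.coeff_smul, Finsupp.smul_apply, RingHom.id_apply]

private lemma cL_apply (u : Var w → ℤ) (f : L k w) : cL k u f = f.coeff u := rfl

/-- the scalar cochain of the coefficients at `u` -/
private def cf {p : ℕ} (u : Var w → ℤ) (c : (Fin p → GG w) → L k w) : (Fin p → GG w) → k :=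
  fun j => (c j).coeff u

private lemma cf_dd {p : ℕ} (u : Var w → ℤ) (c : (Fin p → GG w) → L k w) :
    cf u (dd k p c) = dd k p (cf u c) := by
  funext j
  have h : cf u (dd k p c) j = cL k u (dd k p c j) := rfl
  rw [h, dd_apply, dd_apply, map_sum]
  refine Finset.sum_congr rfl fun m _ => ?_
  rw [map_zsmul]
  rfl

/-- the set of the variables with negative exponent -/
private def NN (u : Var w → ℤ) : Finset (Var w) := univ.filter fun v => u v < 0

private lemma mem_NN {u : Var w → ℤ} {v : Var w} : v ∈ NN u ↔ u v < 0 := by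
  simp [NN]

private lemma coeff_restr_pos {P : (Var w → ℤ) → Prop} {u : Var w → ℤ} (h : P u) (f : L k w) :
    (restr P f).coeff u = f.coeff u := by
  classical
  simp [restr, h]

private lemma coeff_restr_neg {P : (Var w → ℤ) → Prop} {u : Var w → ℤ} (h : ¬ P u) (f : L k w) :
    (restr P f).coeff u = 0 := by
  classical
  simp [restr, h]

private lemma ext_coeff {f g : L k w} (h : ∀ u, f.coeff u = g.coeff u) : f = g := by
  ext u
  exact h u

private lemma y_not_mem (i : Fin 2) (s : Finset (GG w)) : Var.y i ∉ suppS s := by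
  intro h
  simp only [suppS, Finset.mem_biUnion] at h
  obtain ⟨x, -, hx⟩ := h
  cases x <;> simp [supp] at hx

/-! ### multiplication by polynomials with nonnegative exponents -/

/-- all exponents are nonnegative -/
private def Nn (q : L k w) : Prop := ∀ a, q.coeff a ≠ 0 → ∀ v, 0 ≤ a v

private lemma exists_of_coeff_mul_ne {q f : L k w} {u : Var w → ℤ} (h : (q * f).coeff u ≠ 0) :
    ∃ a b, q.coeff a ≠ 0 ∧ f.coeff b ≠ 0 ∧ a + b = u := by
  classical
  rw [AddMonoidAlgebra.coeff_mul] at h
  obtain ⟨a, ha, h1⟩ := Finset.exists_ne_zero_of_sum_ne_zero h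
  obtain ⟨b, hb, h2⟩ := Finset.exists_ne_zero_of_sum_ne_zero h1
  refine ⟨a, b, Finsupp.mem_support_iff.1 ha, Finsupp.mem_support_iff.1 hb, ?_⟩
  by_contra h3
  exact h2 (by simp [h3])

private lemma restr_mul {q f : L k w} (hq : Nn q) (hf : ∀ b, f.coeff b ≠ 0 → ∀ i, 0 ≤ b (Var.y i)) :
    restr Neg (q * f) = restr Neg (q * restr Neg f) := by
  have key : restr Neg (q * (f - restr Neg f)) = 0 := by
    apply ext_coeff
    intro u
    by_cases hu : Neg u
    · rw [coeff_restr_pos hu]
      by_contra h
      obtain ⟨a, b, ha, hb, hab⟩ := exists_of_coeff_mul_ne (f := f - restr Neg f) h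
      have hb' : ¬ Neg b := by
        intro hn
        apply hb
        have : (f - restr Neg f).coeff b = cL k b (f - restr Neg f) := rfl
        rw [this, map_sub, cL_apply, cL_apply, coeff_restr_pos hn, sub_self]
      have hfb : f.coeff b ≠ 0 := by
        intro h0
        apply hb
        have : (f - restr Neg f).coeff b = cL k b (f - restr Neg f) := rfl
        rw [this, map_sub, cL_apply, cL_apply, coeff_restr_neg hb', h0, sub_zero]
      apply hb'
      have hle : ∀ v, b v ≤ u v := by
        intro v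
        have h1 := hq a ha v
        have h2 : u v = a v + b v := by rw [← hab]; rfl
        omega
      obtain ⟨h1, h2, h3, -⟩ := hu
      exact ⟨fun i => lt_of_le_of_lt (hle _) (h1 i), fun i => lt_of_le_of_lt (hle _) (h2 i),
        fun i => lt_of_le_of_lt (hle _) (h3 i), hf b hfb⟩
    · rw [coeff_restr_neg hu]
      rfl
  have h2 : q * f = q * (f - restr Neg f) + q * restr Neg f := by ring
  rw [h2, map_add, key, zero_add]

private lemma Nn_mon {u : Var w → ℤ} (h : ∀ v, 0 ≤ u v) : Nn (mon k u) := by
  intro a ha v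
  by_cases hau : u = a
  · rw [← hau]; exact h v
  · exfalso
    apply ha
    rw [mon, AddMonoidAlgebra.coeff_single, Finsupp.single_apply, if_neg hau]

private lemma Nn_add {f g : L k w} (hf : Nn f) (hg : Nn g) : Nn (f + g) := by
  intro a ha
  by_cases h : f.coeff a = 0
  · apply hg a
    intro h'
    apply ha
    rw [AddMonoidAlgebra.coeff_add, Finsupp.add_apply, h, h', add_zero]
  · exact hf a h

private lemma Nn_zero : Nn (0 : L k w) := fun _ ha => absurd rfl ha

private lemma Nn_zsmul (n : ℤ) {f : L k w} (hf : Nn f) : Nn (n • f) := by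
  intro a ha
  apply hf a
  intro h
  apply ha
  have : (n • f).coeff a = cL k a (n • f) := rfl
  rw [this, map_zsmul, cL_apply, h, smul_zero]

private lemma Nn_neg {f : L k w} (hf : Nn f) : Nn (-f) := by
  have h := Nn_zsmul (-1) hf
  rwa [neg_one_zsmul] at h

private lemma Nn_sub {f g : L k w} (hf : Nn f) (hg : Nn g) : Nn (f - g) := by
  rw [sub_eq_add_neg]
  exact Nn_add hf (Nn_neg hg)

private lemma Nn_sum {ι : Type} (s : Finset ι) {f : ι → L k w} (hf : ∀ i, Nn (f i)) :
    Nn (∑ i ∈ s, f i) := by
  classical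
  induction s using Finset.induction_on with
  | empty => simpa using Nn_zero
  | insert a s ha ih =>
    rw [Finset.sum_insert ha]
    exact Nn_add (hf a) ih

private lemma ev_nonneg (v x : Var w) : 0 ≤ ev v x := by
  unfold ev
  by_cases h : x = v
  · subst h; simp
  · simp [h]

private lemma sm_nonneg (n : ℕ) (v x : Var w) : 0 ≤ (n • ev v) x := by
  rw [Pi.smul_apply]
  exact nsmul_nonneg (ev_nonneg v x) n

private lemma Nn_q : Nn (qL k w) := by
  unfold qL
  refine Nn_sum _ fun l => Nn_zsmul _ (Nn_mon fun v => ?_)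
  exact add_nonneg (add_nonneg (ev_nonneg _ v) (sm_nonneg _ _ v)) (sm_nonneg _ _ v)

private lemma Nn_mPhi (x b c : ℕ) : Nn (mPhi k w x b c) := by
  unfold mPhi
  refine Nn_mon fun v => ?_
  exact add_nonneg (add_nonneg (add_nonneg (add_nonneg (add_nonneg (sm_nonneg _ _ v)
    (sm_nonneg _ _ v)) (sm_nonneg _ _ v)) (sm_nonneg _ _ v)) (sm_nonneg _ _ v)) (sm_nonneg _ _ v)

private lemma Nn_Phi : Nn (PhiL k w) := by
  unfold PhiL
  exact Nn_add (Nn_add (Nn_sub (Nn_sub (Nn_sub (Nn_sub (Nn_sub (Nn_sub (Nn_mPhi _ _ _)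
    (Nn_mPhi _ _ _)) (Nn_mPhi _ _ _)) (Nn_mPhi _ _ _)) (Nn_mPhi _ _ _)) (Nn_mPhi _ _ _))
    (Nn_mPhi _ _ _)) (Nn_mPhi _ _ _)) (Nn_zsmul _ (Nn_mPhi _ _ _))

/-! ### the functional -/

/-- the main construction, for a class `P` with only one bad pattern `N0` in degree `p + 1` -/
private theorem main {P : (Var w → ℤ) → Prop} {N0 : Finset (Var w)} {p : ℕ}
    (H1 : OneD (VC k (supp (w := w)) N0) (p + 1))
    (H2 : ∀ u, P u → Neg u → NN u = N0)
    (H3 : ∀ u, P u → ¬ Neg u → ExD (VC k (supp (w := w)) (NN u)) (p + 1)) :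
    ∃ lam : (Fin (p + 1) → GG w) → k, LamGood k w P p lam := by
  classical
  obtain ⟨c0, hc0, hc0', hone⟩ := H1
  obtain ⟨f, hfc, hfB⟩ := Submodule.exists_le_ker_of_notMem hc0'
  -- the functional
  set φ : ((Fin (p + 1) → GG w) → k) →ₗ[k] k := (f c0)⁻¹ • f with hφ
  have hφc : φ c0 = 1 := by
    rw [hφ, LinearMap.smul_apply, smul_eq_mul, inv_mul_cancel₀ hfc]
  have hφB : ∀ b ∈ Bd (VC k (supp (w := w)) N0) (p + 1), φ b = 0 := by
    intro b hb
    have h := hfB hb
    rw [LinearMap.mem_ker] at h
    rw [hφ, LinearMap.smul_apply, h, smul_zero]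
  have hφs : ∀ c : (Fin (p + 1) → GG w) → k, φ c = ∑ j, φ (Pi.single j 1) * c j := by
    intro c
    conv_lhs => rw [← Finset.univ_sum_single c]
    rw [map_sum]
    refine Finset.sum_congr rfl fun j _ => ?_
    have : (Pi.single j (c j) : (Fin (p + 1) → GG w) → k) = c j • Pi.single j 1 := by
      rw [← Pi.single_smul, smul_eq_mul, mul_one]
    rw [this, map_smul, smul_eq_mul, mul_comm]
  refine ⟨fun j => φ (Pi.single j 1), fun A C ρ => ?_⟩
  set lam : (Fin (p + 1) → GG w) → k := fun j => φ (Pi.single j 1) with hlam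
  -- the coefficients of `chi`
  have hsum : ∀ (c : (Fin (p + 1) → GG w) → L k w) (u), (∑ j, lam j • c j).coeff u = φ (cf u c) := by
    intro c u
    have : (∑ j, lam j • c j).coeff u = cL k u (∑ j, lam j • c j) := rfl
    rw [this, map_sum, hφs]
    refine Finset.sum_congr rfl fun j _ => ?_
    rw [map_smul, smul_eq_mul, cL_apply]
    rfl
  have hchi : ∀ (c : (Fin (p + 1) → GG w) → L k w) (u), Neg u →
      (chi lam c).coeff u = φ (cf u c) := by
    intro c u hu
    rw [chi, coeff_restr_pos hu, hsum]
  have hchi' : ∀ (c : (Fin (p + 1) → GG w) → L k w) (u), ¬ Neg u → (chi lam c).coeff u = 0 := by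
    intro c u hu
    rw [chi, coeff_restr_neg hu]
  -- cochains of `U` have coefficients in the scalar systems
  have hCV : ∀ {i : ℕ} {c : (Fin i → GG w) → L k w}, c ∈ CV (U k P A C ρ) i → ∀ u,
      cf u c ∈ CV (VC k (supp (w := w)) (NN u)) i := by
    intro i c hc u j hj v hv
    exact (hc j u hj).2.2.2.2 v (mem_NN.1 hv)
  have hzero : ∀ {i : ℕ} {c : (Fin i → GG w) → L k w}, c ∈ CV (U k P A C ρ) i → ∀ u,
      ¬ P u → cf u c = 0 := by
    intro i c hc u hu
    funext j
    by_contra hj
    exact hu (hc j u hj).1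
  refine ⟨?_, ?_, ?_, ?_, ?_, ?_⟩
  · -- `chi` has values in `Dn`
    intro c hc u hu
    have hN : Neg u := by
      by_contra h
      exact hu (hchi' c u h)
    rw [hchi c u hN] at hu
    have : ∃ j, (c j).coeff u ≠ 0 := by
      by_contra h
      push Not at h
      apply hu
      have h0 : cf u c = 0 := funext h
      rw [h0, map_zero]
    obtain ⟨j, hj⟩ := this
    obtain ⟨h1, h2, h3, h4, -⟩ := hc j u hj
    exact ⟨h1, h2, h3, h4, hN⟩
  · -- coboundaries
    intro b hb
    apply ext_coeff
    intro u
    by_cases hN : Neg u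
    · rw [hchi _ u hN, cf_dd]
      by_cases hP : P u
      · have h1 : cf u b ∈ CV (VC k (supp (w := w)) N0) p := by
          rw [← H2 u hP hN]
          exact hCV hb u
        rw [hφB _ (Submodule.mem_map_of_mem h1)]
        rfl
      · rw [hzero hb u hP, map_zero, map_zero]
        rfl
    · rw [hchi' _ u hN]
      rfl
  · -- cocycles with `chi = 0` are coboundaries
    intro c hc hchi0
    obtain ⟨hc1, hc2⟩ := hc
    have hex : ∀ u, ∃ b ∈ CV (VC k (supp (w := w)) (NN u)) p, dd k p b = cf u c := by
      intro u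
      by_cases hP : P u
      · have hz : cf u c ∈ Zd (VC k (supp (w := w)) (NN u)) (p + 1) := by
          refine ⟨hCV hc1 u, ?_⟩
          rw [SetLike.mem_coe, LinearMap.mem_ker, ← cf_dd, LinearMap.mem_ker.1 hc2]
          rfl
        have hb : cf u c ∈ Bd (VC k (supp (w := w)) (NN u)) (p + 1) := by
          by_cases hN : Neg u
          · rw [H2 u hP hN] at hz ⊢
            obtain ⟨a, ha⟩ := hone _ hz
            have h1 := hφB _ ha
            rw [map_sub, map_smul, hφc, ← hchi c u hN, hchi0] at h1
            have ha0 : a = 0 := by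
              have h2 : (0 : k) - a • 1 = 0 := h1
              simpa using h2
            rw [ha0, zero_smul, sub_zero] at ha
            exact ha
          · exact H3 u hP hN hz
        obtain ⟨b, hb1, hb2⟩ := hb
        exact ⟨b, hb1, hb2⟩
      · exact ⟨0, Submodule.zero_mem _, by rw [map_zero, hzero hc1 u hP]⟩
    choose b hb1 hb2 using hex
    set S : Finset (Var w → ℤ) := univ.biUnion fun j => (c j).coeff.support with hS
    have hmemS : ∀ u, u ∈ S ↔ ∃ j, (c j).coeff u ≠ 0 := by
      intro u
      rw [hS]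
      simp
    set B : (Fin p → GG w) → L k w := fun j => ∑ u ∈ S, AddMonoidAlgebra.single u (b u j) with hB
    have hcB : ∀ u, cf u B = if u ∈ S then b u else 0 := by
      intro u
      funext j
      have h0 : cf u B j = cL k u (∑ u ∈ S, AddMonoidAlgebra.single u (b u j)) := rfl
      rw [h0, map_sum]
      have h1 : ∀ v ∈ S, cL k u (AddMonoidAlgebra.single v (b v j)) = if v = u then b u j else 0 := by
        intro v _
        rw [cL_apply, AddMonoidAlgebra.coeff_single, Finsupp.single_apply]
        by_cases hvu : v = u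
        · subst hvu; simp
        · simp [hvu]
      rw [Finset.sum_congr rfl h1, Finset.sum_ite_eq']
      by_cases hu : u ∈ S
      · simp [hu]
      · simp [hu]
    refine ⟨B, ?_, ?_⟩
    · intro j u hu
      have h1 : cf u B j ≠ 0 := hu
      rw [hcB u] at h1
      by_cases huS : u ∈ S
      · rw [if_pos huS] at h1
        obtain ⟨j', hj'⟩ := (hmemS u).1 huS
        obtain ⟨h2, h3, h4, h5, -⟩ := hc1 j' u hj'
        exact ⟨h2, h3, h4, h5, fun v hv => hb1 u j h1 (mem_NN.2 hv)⟩
      · rw [if_neg huS] at h1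
        exact absurd rfl h1
    · funext j
      apply ext_coeff
      intro u
      have h1 : (dd k p B j).coeff u = cf u (dd k p B) j := rfl
      have h2 : (c j).coeff u = cf u c j := rfl
      rw [h1, h2, cf_dd, hcB u]
      by_cases huS : u ∈ S
      · rw [if_pos huS, hb2]
      · rw [if_neg huS, map_zero]
        have h3 : ¬ ∃ j, (c j).coeff u ≠ 0 := fun h => huS ((hmemS u).2 h)
        push Not at h3
        exact (h3 j).symm
  · -- surjectivity
    intro g hg
    obtain ⟨hc01, hc02⟩ := hc0
    have hcf : ∀ u, cf u (fun j => c0 j • g) = (g.coeff u) • c0 := by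
      intro u
      funext j
      have h1 : cf u (fun j => c0 j • g) j = cL k u (c0 j • g) := rfl
      rw [h1, map_smul, cL_apply, Pi.smul_apply, smul_eq_mul, smul_eq_mul, mul_comm]
    refine ⟨fun j => c0 j • g, ⟨?_, ?_⟩, ?_, ?_⟩
    · intro j u hu
      have h1 : cf u (fun j => c0 j • g) j ≠ 0 := hu
      rw [hcf, Pi.smul_apply, smul_eq_mul] at h1
      obtain ⟨h2, h3, h4, h5, h6⟩ := hg u (left_ne_zero_of_mul h1)
      refine ⟨h2, h3, h4, h5, fun v hv => ?_⟩
      have h7 := hc01 j (right_ne_zero_of_mul h1)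
      apply h7
      rw [← H2 u h2 h6]
      exact mem_NN.2 hv
    · rw [SetLike.mem_coe, LinearMap.mem_ker]
      funext j
      apply ext_coeff
      intro u
      have h1 : (dd k (p + 1) (fun j => c0 j • g) j).coeff u
        = cf u (dd k (p + 1) (fun j => c0 j • g)) j := rfl
      rw [h1, cf_dd, hcf, map_smul, LinearMap.mem_ker.1 hc02, smul_zero]
      rfl
    · apply ext_coeff
      intro u
      by_cases hN : Neg u
      · rw [hchi _ u hN, hcf, map_smul, hφc, smul_eq_mul, mul_one]
      · rw [hchi' _ u hN]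
        by_contra h
        exact hN (hg u (Ne.symm h)).2.2.2.2
    · intro j u hu
      have h1 : cf u (fun j => c0 j • g) j ≠ 0 := hu
      rw [hcf, Pi.smul_apply, smul_eq_mul] at h1
      exact left_ne_zero_of_mul h1
  · intro c hc
    have hy : ∀ b, (∑ j, lam j • c j).coeff b ≠ 0 → ∀ i, 0 ≤ b (Var.y i) := by
      intro b hb i
      rw [hsum] at hb
      have : ∃ j, (c j).coeff b ≠ 0 := by
        by_contra h
        push Not at h
        apply hb
        have h0 : cf b c = 0 := funext h
        rw [h0, map_zero]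
      obtain ⟨j, hj⟩ := this
      by_contra h
      exact y_not_mem i _ ((hc j b hj).2.2.2.2 _ (not_le.1 h))
    have h1 : ∑ j, lam j • (qL k w * c j) = qL k w * ∑ j, lam j • c j := by
      rw [Finset.mul_sum]
      refine Finset.sum_congr rfl fun j _ => ?_
      rw [mul_smul_comm]
    rw [con, chi, chi, h1, restr_mul Nn_q hy]
  · intro c hc
    have hy : ∀ b, (∑ j, lam j • c j).coeff b ≠ 0 → ∀ i, 0 ≤ b (Var.y i) := by
      intro b hb i
      rw [hsum] at hb
      have : ∃ j, (c j).coeff b ≠ 0 := by
        by_contra h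
        push Not at h
        apply hb
        have h0 : cf b c = 0 := funext h
        rw [h0, map_zero]
      obtain ⟨j, hj⟩ := this
      by_contra h
      exact y_not_mem i _ ((hc j b hj).2.2.2.2 _ (not_le.1 h))
    have h1 : ∑ j, lam j • (PhiL k w * c j) = PhiL k w * ∑ j, lam j • c j := by
      rw [Finset.mul_sum]
      refine Finset.sum_congr rfl fun j _ => ?_
      rw [mul_smul_comm]
    rw [con, chi, chi, h1, restr_mul Nn_Phi hy]

/-- the patterns other than the full one are exact in the top degree -/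
private theorem pattern (h1 : PatA k w) (h2 : PatC k w) (u : Var w → ℤ) (bh : Bool)
    (hh : ∀ i, u (Var.h i) < 0 ↔ bh = true) (hN : ¬ Neg u) :
    ExD (VC k (supp (w := w)) (NN u)) (w + 5 + bh.toNat) := by
  by_cases hy : ∃ i, Var.y i ∈ NN u
  · exact h1 (NN u) (Or.inl hy) _
  by_cases ht : ∃ l, Var.t l ∉ NN u
  · exact h1 (NN u) (Or.inr (Or.inl ht)) _
  by_cases hg : ∃ i i', Var.g i ∈ NN u ∧ Var.g i' ∉ NN u
  · exact h1 (NN u) (Or.inr (Or.inr (Or.inl hg))) _
  by_cases ha : ∃ i i', Var.a i ∈ NN u ∧ Var.a i' ∉ NN u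
  · exact h1 (NN u) (Or.inr (Or.inr (Or.inr (Or.inr (Or.inl ha))))) _
  push Not at hy ht hg ha
  by_cases hg0 : Var.g 0 ∈ NN u
  · have hgall : ∀ i, Var.g i ∈ NN u := fun i => hg 0 i hg0
    by_cases ha0 : Var.a 0 ∈ NN u
    · have haall : ∀ i, Var.a i ∈ NN u := fun i => ha 0 i ha0
      exfalso
      apply hN
      exact ⟨fun i => mem_NN.1 (hgall i), fun i => mem_NN.1 (haall i), fun i => mem_NN.1 (ht i),
        fun i => not_lt.1 fun h => hy i (mem_NN.2 h)⟩
    · have haall : ∀ i, Var.a i ∉ NN u := fun i h => ha0 (ha i 0 h)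
      have h := h2 (NN u) true bh false (Or.inl rfl) hy ht (fun i => by simp [hgall i])
        (fun i => by rw [mem_NN, hh i]) (fun i => by simp [haall i])
      apply h.1
      simp only [Bool.toNat_true, Bool.toNat_false]
      omega
  · have hgall : ∀ i, Var.g i ∉ NN u := fun i h => hg0 (hg i 0 h)
    by_cases ha0 : Var.a 0 ∈ NN u
    · have haall : ∀ i, Var.a i ∈ NN u := fun i => ha 0 i ha0
      have h := h2 (NN u) false bh true (Or.inr (Or.inr rfl)) hy ht (fun i => by simp [hgall i])
        (fun i => by rw [mem_NN, hh i]) (fun i => by simp [haall i])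
      apply h.1
      simp only [Bool.toNat_true, Bool.toNat_false]
      omega
    · have haall : ∀ i, Var.a i ∉ NN u := fun i h => ha0 (ha i 0 h)
      by_cases hb : bh = true
      · have h := h2 (NN u) false bh false (Or.inr (Or.inl hb)) hy ht (fun i => by simp [hgall i])
          (fun i => by rw [mem_NN, hh i]) (fun i => by simp [haall i])
        apply h.1
        simp only [Bool.toNat_false]
        omega
      · refine h1 (NN u) (Or.inr (Or.inr (Or.inr (Or.inr (Or.inr ⟨hgall, fun i => ?_, haall⟩))))) _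
        rw [mem_NN, hh i]
        exact hb

/-- the full pattern -/
private theorem full (h2 : PatC k w) (bh : Bool) (N : Finset (Var w))
    (hy : ∀ i, Var.y i ∉ N) (ht : ∀ l, Var.t l ∈ N) (hg : ∀ i, Var.g i ∈ N)
    (hh : ∀ i, Var.h i ∈ N ↔ bh = true) (ha : ∀ i, Var.a i ∈ N) :
    OneD (VC k (supp (w := w)) N) (w + 5 + bh.toNat) := by
  have h := (h2 N true bh true (Or.inl rfl) hy ht (fun i => by simp [hg i]) hh
    (fun i => by simp [ha i])).2
  have e : w + 3 + true.toNat + bh.toNat + true.toNat = w + 5 + bh.toNat := by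
    simp only [Bool.toNat_true]
    omega
  rwa [e] at h

end

end B9

theorem LamP_proof (k : Type) [Field k] (w : ℕ) (h1 : PatA k w) (h2 : PatC k w) : LamP k w := by
  classical
  refine B9.main (N0 := univ.filter fun v => (∃ i, v = Var.g i) ∨ (∃ i, v = Var.a i) ∨
    ∃ l, v = Var.t l) ?_ ?_ ?_
  · exact B9.full h2 false _ (by simp) (by simp) (by simp) (by simp) (by simp)
  · intro u hP hN
    ext v
    rw [B9.mem_NN]
    obtain ⟨hg, ha, ht, hy⟩ := hN
    cases v with
    | g i => exact iff_of_true (hg i) (by fin_cases i <;> simp)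
    | a i => exact iff_of_true (ha i) (by fin_cases i <;> simp)
    | t l => exact iff_of_true (ht l) (by simp)
    | y i => exact iff_of_false (not_lt.2 (hy i)) (by fin_cases i <;> simp)
    | h i =>
      have : 0 ≤ u (Var.h i) := by
        fin_cases i
        · exact hP.1
        · exact hP.2
      simpa using this
  · intro u hP hN
    refine B9.pattern h1 h2 u false (fun i => ?_) hN
    have : 0 ≤ u (Var.h i) := by
      fin_cases i
      · exact hP.1
      · exact hP.2
    simpa using this

theorem LamM_proof (k : Type) [Field k] (w : ℕ) (h1 : PatA k w) (h2 : PatC k w) : LamM k w := by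
  classical
  refine B9.main (N0 := univ.filter fun v => ∀ i, v ≠ Var.y i) ?_ ?_ ?_
  · exact B9.full h2 true _ (by simp) (by simp) (by simp) (by simp) (by simp)
  · intro u hP hN
    ext v
    rw [B9.mem_NN]
    obtain ⟨hg, ha, ht, hy⟩ := hN
    cases v with
    | g i => exact iff_of_true (hg i) (by fin_cases i <;> simp)
    | a i => exact iff_of_true (ha i) (by fin_cases i <;> simp)
    | t l => exact iff_of_true (ht l) (by simp)
    | y i => exact iff_of_false (not_lt.2 (hy i)) (by fin_cases i <;> simp)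
    | h i =>
      have : u (Var.h i) < 0 := by
        fin_cases i
        · exact hP.1
        · exact hP.2
      simpa using this
  · intro u hP hN
    refine B9.pattern h1 h2 u true (fun i => ?_) hN
    have : u (Var.h i) < 0 := by
      fin_cases i
      · exact hP.1
      · exact hP.2
    simpa using this

end Pool.Agent.T2H37.LB
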