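import Pool.Agent.T2H37.LB.StmC

/-!
# Package C1: the localizations of `R / I` inside the ring of Laurent polynomials
-/

set_option autoImplicit false

namespace Pool.Agent.T2H37.LB

open Finset MvPolynomial

namespace C1

variable {k : Type} [Field k] {σ : Type} [DecidableEq σ]

/-! ### monomials -/

/-- exponents of monomials as integral vectors -/
def eN (m : σ →₀ ℕ) : σ → ℤ := fun i => (m i : ℤ)

omit [DecidableEq σ] in
theorem eN_inj : Function.Injective (eN (σ := σ)) := by
  intro m m' h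
  ext i
  have := congrFun h i
  unfold eN at this
  exact_mod_cast this

theorem eN_eq (m : σ →₀ ℕ) : (m.sum fun i n => n • (Pi.single i 1 : σ → ℤ)) = eN m := by
  funext i
  rw [Finsupp.sum, Finset.sum_apply]
  unfold eN
  by_cases hi : i ∈ m.support
  · rw [Finset.sum_eq_single i]
    · simp
    · intro j _ hj
      simp [hj.symm]
    · intro h; exact absurd hi h
  · rw [Finset.sum_eq_zero]
    · rw [Finsupp.notMem_support_iff.1 hi]; simp
    · intro j hj
      have : i ≠ j := by rintro rfl; exact hi hj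
      simp [this]

theorem iR_monomial (m : σ →₀ ℕ) (a : k) :
    iR k (monomial m a) = AddMonoidAlgebra.single (eN m) a := by
  unfold iR
  rw [aeval_monomial]
  have h1 : (m.prod fun i n => (AddMonoidAlgebra.single (Pi.single i 1 : σ → ℤ) (1 : k)) ^ n) =
      AddMonoidAlgebra.single (eN m) 1 := by
    simp_rw [AddMonoidAlgebra.single_pow, one_pow]
    rw [← eN_eq, Finsupp.prod, Finsupp.sum, AddMonoidAlgebra.prod_single, Finset.prod_const_one]
  rw [h1]
  rw [← Algebra.smul_def, AddMonoidAlgebra.smul_single, smul_eq_mul, mul_one]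

theorem iR_coeff (f : MvPolynomial σ k) (m : σ →₀ ℕ) :
    (iR k f).coeff (eN m) = MvPolynomial.coeff m f := by
  classical
  induction f using MvPolynomial.induction_on' with
  | monomial u a =>
    rw [iR_monomial, AddMonoidAlgebra.coeff_single, Finsupp.single_apply, coeff_monomial]
    by_cases h : u = m
    · rw [if_pos h, if_pos (by rw [h])]
    · rw [if_neg h, if_neg (fun h' => h (eN_inj h'))]
  | add p q hp hq =>
    rw [map_add, AddMonoidAlgebra.coeff_add, Finsupp.add_apply, hp, hq, MvPolynomial.coeff_add]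

theorem iR_coeff_ne {f : MvPolynomial σ k} {u : σ → ℤ} (h : (iR k f).coeff u ≠ 0) :
    ∃ m, eN m = u := by
  classical
  induction f using MvPolynomial.induction_on' with
  | monomial v a =>
    rw [iR_monomial, AddMonoidAlgebra.coeff_single, Finsupp.single_apply] at h
    by_cases h' : eN v = u
    · exact ⟨v, h'⟩
    · rw [if_neg h'] at h; exact absurd rfl h
  | add p q hp hq =>
    rw [map_add, AddMonoidAlgebra.coeff_add, Finsupp.add_apply] at h
    by_cases h1 : (iR k p).coeff u = 0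
    · rw [h1, zero_add] at h; exact hq h
    · exact hp h1

theorem iR_inj : Function.Injective (iR k (σ := σ)) := by
  intro f g h
  refine MvPolynomial.ext _ _ fun m => ?_
  rw [← iR_coeff, h, iR_coeff]

/-- the polynomial part -/
noncomputable def pR (g : LR k σ) : MvPolynomial σ k :=
  (AddMonoidAlgebra.ofCoeff (g.coeff.comapDomain eN eN_inj.injOn) : AddMonoidAlgebra k (σ →₀ ℕ))

omit [DecidableEq σ] in
theorem pR_coeff (g : LR k σ) (m : σ →₀ ℕ) : MvPolynomial.coeff m (pR g) = g.coeff (eN m) := rfl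

theorem iR_pR [Finite σ] (g : LR k σ) (h : ∀ u, g.coeff u ≠ 0 → ∀ i, 0 ≤ u i) :
    iR k (pR g) = g := by
  classical
  apply AddMonoidAlgebra.coeff_injective
  ext u
  by_cases hu : ∃ m, eN m = u
  · obtain ⟨m, rfl⟩ := hu
    rw [iR_coeff, pR_coeff]
  · have h1 : (iR k (pR g)).coeff u = 0 := by
      by_contra h1; exact hu (iR_coeff_ne h1)
    rw [h1]
    by_contra h2
    have h3 := h u (Ne.symm h2)
    apply hu
    refine ⟨Finsupp.equivFunOnFinite.symm fun i => (u i).toNat, ?_⟩
    funext i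
    show (((u i).toNat : ℕ) : ℤ) = u i
    exact Int.toNat_of_nonneg (h3 i)

/-! ### powers of the product of the variables in `s` -/

/-- the monomial with exponent `N` at `s` -/
noncomputable def xL (k : Type) [Field k] (s : Finset σ) (N : ℤ) : LR k σ :=
  AddMonoidAlgebra.single (fun i => if i ∈ s then N else 0) 1

theorem xL_mul (s : Finset σ) (a b : ℤ) : xL k s a * xL k s b = xL k s (a + b) := by
  unfold xL
  rw [AddMonoidAlgebra.single_mul_single, one_mul]
  congr 1
  funext i
  simp only [Pi.add_apply]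
  split_ifs <;> simp

theorem xL_zero (s : Finset σ) : xL k s 0 = 1 := by
  unfold xL
  rw [AddMonoidAlgebra.one_def]
  congr 1
  funext i
  simp

theorem xL_cancel (s : Finset σ) (a : ℤ) : xL k s (-a) * xL k s a = 1 := by
  rw [xL_mul, neg_add_cancel, xL_zero]

theorem iR_xs (s : Finset σ) : iR k (xs k s) = xL k s 1 := by
  unfold xs xL
  rw [map_prod]
  have h1 : ∀ j ∈ s, iR k (X j : MvPolynomial σ k) = AddMonoidAlgebra.single (Pi.single j 1) 1 := by
    intro j _
    unfold iR
    rw [aeval_X]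
  rw [Finset.prod_congr rfl h1, AddMonoidAlgebra.prod_single, Finset.prod_const_one]
  congr 1
  funext i
  rw [Finset.sum_apply]
  by_cases hi : i ∈ s
  · rw [if_pos hi, Finset.sum_eq_single i]
    · simp
    · intro j _ hj
      simp [hj.symm]
    · intro h; exact absurd hi h
  · rw [if_neg hi, Finset.sum_eq_zero]
    intro j hj
    have : i ≠ j := by rintro rfl; exact hi hj
    simp [this]

theorem iR_xs_pow (s : Finset σ) (N : ℕ) : iR k (xs k s ^ N) = xL k s N := by
  induction N with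
  | zero => rw [pow_zero, map_one, Nat.cast_zero, xL_zero]
  | succ N ih => rw [pow_succ, map_mul, ih, iR_xs, xL_mul]; push_cast; rfl

theorem xL_coeff (s : Finset σ) (N : ℤ) (v : LR k σ) (u : σ → ℤ) :
    (xL k s N * v).coeff u = v.coeff (-(fun i => if i ∈ s then N else 0) + u) := by
  unfold xL
  rw [AddMonoidAlgebra.coeff_single_mul_apply, one_mul]

theorem xL_mem (s : Finset σ) (N : ℤ) : xL k s N ∈ VR k s := by
  classical
  intro u hu i hi
  unfold xL at hu
  rw [AddMonoidAlgebra.coeff_single, Finsupp.single_apply] at hu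
  by_cases h : (fun i => if i ∈ s then N else 0) = u
  · rw [← h] at hi
    simp only at hi
    by_contra h2
    rw [if_neg h2] at hi
    exact lt_irrefl _ hi
  · rw [if_neg h] at hu; exact absurd rfl hu

theorem iR_mem (s : Finset σ) (f : MvPolynomial σ k) : iR k f ∈ VR k s := by
  intro u hu i hi
  obtain ⟨m, rfl⟩ := iR_coeff_ne hu
  exact absurd hi (not_lt.2 (Nat.cast_nonneg _))

theorem VR_mul [Finite σ] {s : Finset σ} {f g : LR k σ} (hf : f ∈ VR k s) (hg : g ∈ VR k s) :
    f * g ∈ VR k s := by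
  classical
  intro u hu i hi
  rw [AddMonoidAlgebra.coeff_mul] at hu
  obtain ⟨a, ha, h1⟩ := Finset.exists_ne_zero_of_sum_ne_zero hu
  obtain ⟨b, hb, h2⟩ := Finset.exists_ne_zero_of_sum_ne_zero h1
  by_cases h : a + b = u
  · rw [← h] at hi
    by_contra h3
    have h4 : 0 ≤ a i := by
      by_contra h5
      exact h3 (hf a (Finsupp.mem_support_iff.1 ha) i (not_le.1 h5))
    have h5 : 0 ≤ b i := by
      by_contra h5
      exact h3 (hg b (Finsupp.mem_support_iff.1 hb) i (not_le.1 h5))
    have : 0 ≤ (a + b) i := add_nonneg h4 h5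
    omega
  · simp only [h, if_false] at h2
    exact absurd rfl h2

theorem exists_rep [Finite σ] {s : Finset σ} {v : LR k σ} (hv : v ∈ VR k s) :
    ∃ N₀ : ℕ, ∀ N : ℕ, N₀ ≤ N → ∃ f, iR k f = xL k s N * v := by
  classical
  have := Fintype.ofFinite σ
  refine ⟨∑ u ∈ v.coeff.support, ∑ i, (u i).natAbs, fun N hN => ⟨pR (xL k s N * v), iR_pR _ ?_⟩⟩
  intro u hu i
  rw [xL_coeff] at hu
  set u' : σ → ℤ := -(fun i => if i ∈ s then (N : ℤ) else 0) + u with hu'
  have h1 : u i = u' i + (if i ∈ s then (N : ℤ) else 0) := by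
    rw [hu']; simp
  rw [h1]
  by_cases hi : i ∈ s
  · rw [if_pos hi]
    have h2 : (u' i).natAbs ≤ N := by
      calc (u' i).natAbs ≤ ∑ j, (u' j).natAbs :=
            Finset.single_le_sum (f := fun j => (u' j).natAbs) (fun _ _ => Nat.zero_le _) (Finset.mem_univ i)
        _ ≤ ∑ u ∈ v.coeff.support, ∑ i, (u i).natAbs :=
            Finset.single_le_sum (f := fun u : σ → ℤ => ∑ i, (u i).natAbs) (fun _ _ => Nat.zero_le _)
              (Finsupp.mem_support_iff.2 hu)
        _ ≤ N := hN
    omega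
  · rw [if_neg hi, add_zero]
    by_contra h3
    exact hi (hv u' hu i (not_le.1 h3))

/-! ### the maps -/

/-- the element of `powers` -/
noncomputable def den (k : Type) [Field k] (s : Finset σ) (N : ℕ) : Submonoid.powers (xs k s) :=
  ⟨xs k s ^ N, Submonoid.pow_mem _ (Submonoid.mem_powers _) N⟩

variable (I : Ideal (MvPolynomial σ k))

/-- the fraction `f / (xs s)^N` -/
noncomputable def fr (s : Finset σ) (N : ℕ) (f : MvPolynomial σ k) :
    Loc k (MvPolynomial σ k ⧸ I) s :=
  LocalizedModule.mk (Ideal.Quotient.mk I f) (den k s N)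

omit [DecidableEq σ] in
theorem fr_eq_iff (s : Finset σ) (N N' : ℕ) (f f' : MvPolynomial σ k) :
    fr I s N f = fr I s N' f' ↔
      ∃ M : ℕ, xs k s ^ M * (xs k s ^ N' * f) - xs k s ^ M * (xs k s ^ N * f') ∈ I := by
  unfold fr
  rw [LocalizedModule.mk_eq]
  constructor
  · rintro ⟨⟨u, M, rfl⟩, h⟩
    refine ⟨M, ?_⟩
    rw [← Ideal.Quotient.eq]
    exact h
  · rintro ⟨M, h⟩
    refine ⟨den k s M, ?_⟩
    rw [← Ideal.Quotient.eq] at h
    exact h

theorem fr_eq_of {s : Finset σ} {N N' : ℕ} {f f' : MvPolynomial σ k} {v : LR k σ}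
    (h : iR k f = xL k s N * v) (h' : iR k f' = xL k s N' * v) : fr I s N f = fr I s N' f' := by
  rw [fr_eq_iff]
  refine ⟨0, ?_⟩
  have h1 : xs k s ^ N' * f = xs k s ^ N * f' := by
    apply iR_inj
    rw [map_mul, map_mul, h, h', iR_xs_pow, iR_xs_pow]
    ring
  rw [h1, sub_self]
  exact I.zero_mem

variable [Finite σ]

/-- the map from the Laurent polynomials to the fractions -/
noncomputable def ph (s : Finset σ) (v : VR k s) : Loc k (MvPolynomial σ k ⧸ I) s :=
  fr I s (exists_rep v.2).choose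
    ((exists_rep v.2).choose_spec (exists_rep v.2).choose le_rfl).choose

theorem ph_eq {s : Finset σ} (v : VR k s) {N : ℕ} {f : MvPolynomial σ k}
    (h : iR k f = xL k s N * v) : ph I s v = fr I s N f :=
  fr_eq_of I ((exists_rep v.2).choose_spec (exists_rep v.2).choose le_rfl).choose_spec h

omit [DecidableEq σ] [Finite σ] in
theorem fr_zero (s : Finset σ) (N : ℕ) : fr I s N 0 = 0 := by
  unfold fr
  rw [map_zero, LocalizedModule.zero_mk]

omit [DecidableEq σ] [Finite σ] in
theorem fr_add (s : Finset σ) (N : ℕ) (f g : MvPolynomial σ k) :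
    fr I s N (f + g) = fr I s N f + fr I s N g := by
  unfold fr
  rw [LocalizedModule.mk_add_mk, ← smul_add, LocalizedModule.mk_cancel_common_left, map_add]

omit [DecidableEq σ] [Finite σ] in
theorem fr_smul (s : Finset σ) (N : ℕ) (f g : MvPolynomial σ k) :
    fr I s N (g * f) = g • fr I s N f := by
  unfold fr
  rw [LocalizedModule.smul'_mk]
  rfl

theorem ph_add (s : Finset σ) (v w : VR k s) : ph I s (v + w) = ph I s v + ph I s w := by
  obtain ⟨N1, h1⟩ := exists_rep v.2
  obtain ⟨N2, h2⟩ := exists_rep w.2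
  obtain ⟨f, hf⟩ := h1 (max N1 N2) (le_max_left _ _)
  obtain ⟨g, hg⟩ := h2 (max N1 N2) (le_max_right _ _)
  rw [ph_eq I v hf, ph_eq I w hg, ← fr_add]
  apply ph_eq
  rw [map_add, hf, hg, Submodule.coe_add, mul_add]

theorem ph_smul (s : Finset σ) (a : k) (v : VR k s) :
    ph I s (a • v) = (C a : MvPolynomial σ k) • ph I s v := by
  obtain ⟨N1, h1⟩ := exists_rep v.2
  obtain ⟨f, hf⟩ := h1 N1 le_rfl
  rw [ph_eq I v hf, ← fr_smul]
  apply ph_eq
  rw [← smul_eq_C_mul, map_smul, hf, Submodule.coe_smul, mul_smul_comm]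

theorem ph_surj (s : Finset σ) : Function.Surjective (ph I s) := by
  intro z
  induction z using LocalizedModule.induction_on with
  | h m t =>
    obtain ⟨f, rfl⟩ := Ideal.Quotient.mk_surjective m
    obtain ⟨t, N, rfl⟩ := t
    refine ⟨⟨xL k s (-N) * iR k f, VR_mul (xL_mem s _) (iR_mem s f)⟩, ?_⟩
    refine ph_eq I _ ?_
    rw [← mul_assoc, xL_mul, add_neg_cancel, xL_zero, one_mul]

theorem ph_zero_iff (s : Finset σ) (v : VR k s) : ph I s v = 0 ↔ (v : LR k σ) ∈ IV k I s := by
  constructor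
  · intro h
    obtain ⟨N1, h1⟩ := exists_rep v.2
    obtain ⟨f, hf⟩ := h1 N1 le_rfl
    rw [ph_eq I v hf, ← fr_zero I s 0, fr_eq_iff] at h
    obtain ⟨M, hM⟩ := h
    rw [pow_zero, one_mul, mul_zero, mul_zero, sub_zero] at hM
    refine Submodule.subset_span ⟨xs k s ^ M * f, hM, xL k s (-(M + N1)), xL_mem s _, ?_⟩
    rw [map_mul, iR_xs_pow, hf, ← mul_assoc, xL_mul, mul_right_comm, xL_mul, add_neg_cancel, xL_zero,
      one_mul]
  · intro h
    have key : ∀ x ∈ IV k I s, ∃ (M : ℕ) (g : MvPolynomial σ k), g ∈ I ∧ iR k g = xL k s M * x := by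
      intro x hx
      induction hx using Submodule.span_induction with
      | mem x hx =>
        obtain ⟨f, hf, w, hw, rfl⟩ := hx
        obtain ⟨N1, h1⟩ := exists_rep hw
        obtain ⟨g, hg⟩ := h1 N1 le_rfl
        refine ⟨N1, f * g, I.mul_mem_right g hf, ?_⟩
        rw [map_mul, hg]
        ring
      | zero => exact ⟨0, 0, I.zero_mem, by rw [map_zero, mul_zero]⟩
      | add x y _ _ hx hy =>
        obtain ⟨M, g, hg, h1⟩ := hx
        obtain ⟨M', g', hg', h1'⟩ := hy
        refine ⟨M + M', xs k s ^ M' * g + xs k s ^ M * g', I.add_mem (I.mul_mem_left _ hg)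
          (I.mul_mem_left _ hg'), ?_⟩
        rw [map_add, map_mul, map_mul, h1, h1', iR_xs_pow, iR_xs_pow]
        push_cast
        rw [← xL_mul]
        ring
      | smul a x _ hx =>
        obtain ⟨M, g, hg, h1⟩ := hx
        refine ⟨M, C a * g, I.mul_mem_left _ hg, ?_⟩
        rw [← smul_eq_C_mul, map_smul, h1, mul_smul_comm]
    obtain ⟨M, g, hg, h1⟩ := key v h
    rw [ph_eq I v h1]
    unfold fr
    rw [Ideal.Quotient.eq_zero_iff_mem.2 hg, LocalizedModule.zero_mk]

omit [DecidableEq σ] [Finite σ] in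
theorem fr_cancel (s : Finset σ) (N : ℕ) (f : MvPolynomial σ k) :
    fr I s N (xs k s ^ N * f) = fr I s 0 f := by
  rw [fr_eq_iff]
  refine ⟨0, ?_⟩
  rw [show xs k s ^ 0 * (xs k s ^ 0 * (xs k s ^ N * f)) - xs k s ^ 0 * (xs k s ^ N * f) = 0 by ring]
  exact I.zero_mem

omit [Finite σ] in
theorem res_fr0 {s t : Finset σ} (h : s ⊆ t) (f : MvPolynomial σ k) :
    res k (MvPolynomial σ k ⧸ I) h (fr I s 0 f) = fr I t 0 f := by
  have e : ∀ r : Finset σ, fr I r 0 f = LocalizedModule.mk (Ideal.Quotient.mk I f) 1 := by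
    intro r
    unfold fr
    congr 1
  rw [e, e]
  unfold res
  rw [LocalizedModule.lift_mk_one]
  rfl

omit [Finite σ] in
theorem smul_inj {s t : Finset σ} (h : s ⊆ t) (N : ℕ) {z w : Loc k (MvPolynomial σ k ⧸ I) t}
    (hzw : xs k s ^ N • z = xs k s ^ N • w) : z = w := by
  have h1 := isUnit_Loc k (MvPolynomial σ k ⧸ I) h (den k s N)
  rw [Module.End.isUnit_iff] at h1
  exact h1.1 hzw

theorem ph_res {s t : Finset σ} (h : s ⊆ t) (v : VR k s) :
    res k (MvPolynomial σ k ⧸ I) h (ph I s v) = ph I t ⟨v, VR_mono k h v.2⟩ := by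
  obtain ⟨N, h1⟩ := exists_rep v.2
  obtain ⟨f, hf⟩ := h1 N le_rfl
  rw [ph_eq I v hf]
  have h2 : iR k (xs k (t \ s) ^ N * f) = xL k t N * (v : LR k σ) := by
    rw [map_mul, hf, ← iR_xs_pow, ← iR_xs_pow, ← mul_assoc, ← map_mul, ← mul_pow]
    congr 3
    unfold xs
    exact Finset.prod_sdiff h
  rw [ph_eq I (⟨v, VR_mono k h v.2⟩ : VR k t) h2]
  refine smul_inj I h N ?_
  rw [← map_smul, ← fr_smul, fr_cancel, res_fr0, ← fr_smul, ← mul_assoc, ← mul_pow]
  have h3 : xs k s * xs k (t \ s) = xs k t := by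
    unfold xs
    rw [mul_comm]
    exact Finset.prod_sdiff h
  rw [h3, fr_cancel]

theorem ph_hom [Fintype σ] (s : Finset σ) (e : ℤ) (v : VR k s) (hs : s.Nonempty)
    (hv : HomL k e (v : LR k σ)) : IsHom I s e (ph I s v) := by
  obtain ⟨N₀, h1⟩ := exists_rep v.2
  set N := max N₀ e.natAbs with hN
  obtain ⟨f, hf⟩ := h1 N (le_max_left _ _)
  have hc : 1 ≤ s.card := hs.card_pos
  have hNe : e.natAbs ≤ N := le_max_right _ _
  have h0 : 0 ≤ e + N * s.card := by
    have h2 : (N : ℤ) * 1 ≤ (N : ℤ) * s.card := by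
      apply mul_le_mul_of_nonneg_left _ (Nat.cast_nonneg _)
      exact_mod_cast hc
    omega
  refine ⟨N, (e + N * s.card).toNat, f, ?_, Int.toNat_of_nonneg h0, ph_eq I v hf⟩
  rw [MvPolynomial.IsHomogeneous, MvPolynomial.IsWeightedHomogeneous]
  intro m hm
  rw [← iR_coeff, hf, xL_coeff] at hm
  have h3 := hv _ hm
  have h4 : (∑ i, (m i : ℤ)) = e + N * s.card := by
    have h5 : ∑ i, (-(fun i => if i ∈ s then (N : ℤ) else 0) + eN m) i =
        -(∑ i, if i ∈ s then (N : ℤ) else 0) + ∑ i, (m i : ℤ) := by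
      rw [← Finset.sum_neg_distrib, ← Finset.sum_add_distrib]
      rfl
    rw [h5] at h3
    have h6 : (∑ i, if i ∈ s then (N : ℤ) else 0) = N * s.card := by
      rw [Finset.sum_ite_mem, Finset.univ_inter, Finset.sum_const, nsmul_eq_mul, mul_comm]
    rw [h6] at h3
    linarith
  have h7 : Finsupp.weight (1 : σ → ℕ) m = ∑ i, m i := by
    rw [Finsupp.weight_apply, Finsupp.sum_fintype]
    · simp
    · simp
  rw [h7]
  have h8 : ((∑ i, m i : ℕ) : ℤ) = e + N * s.card := by push_cast; exact h4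
  omega

end C1

theorem LocMap_proof (k : Type) [Field k] : LocMap k := by
  intro σ _ _ I
  refine ⟨fun s => ⟨⟨C1.ph I s, ?_⟩, C1.ph_add I s⟩, fun s => C1.ph_surj I s,
    fun s v => C1.ph_zero_iff I s v, fun s t h v => C1.ph_res I h v, fun s a v => C1.ph_smul I s a v,
    fun s e v hs hv => C1.ph_hom I s e v hs hv⟩
  have := C1.ph_smul I s 0 0
  rw [zero_smul, map_zero, zero_smul] at this
  exact this

end Pool.Agent.T2H37.LB
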