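import Pool.Agent.T2H37.LB.StmC

/-! # LB, package C10 (helper74): `piL` maps `VP m r s` onto `U PT r 0 r s` -/

set_option autoImplicit false

namespace Pool.Agent.T2H37.LB

open Finset MvPolynomial

namespace C10

variable (k : Type) [Field k] {w : ℕ}

lemma mu_apply (u : Sg w → ℤ) (v : Var w) : mu u v = ∑ i, u i * muG i v := by
  change (∑ i, u i • muG i) v = _
  rw [Finset.sum_apply]
  rfl

lemma gs_mu (u : Sg w → ℤ) : gs (mu u) = ∑ i, u i * gs (muG i) := by
  unfold gs
  rw [mu_apply, mu_apply, ← Finset.sum_add_distrib]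
  exact Finset.sum_congr rfl fun i _ => by ring

lemma hs_mu (u : Sg w → ℤ) : hs (mu u) = ∑ i, u i * hs (muG i) := by
  unfold hs
  rw [mu_apply, mu_apply, ← Finset.sum_add_distrib]
  exact Finset.sum_congr rfl fun i _ => by ring

lemma as_mu (u : Sg w → ℤ) : as (mu u) = ∑ i, u i * as (muG i) := by
  unfold as
  rw [mu_apply, mu_apply, ← Finset.sum_add_distrib]
  exact Finset.sum_congr rfl fun i _ => by ring

lemma ys_mu (u : Sg w → ℤ) : ys (mu u) = ∑ i, u i * ys (muG i) := by
  unfold ys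
  rw [mu_apply, mu_apply, ← Finset.sum_add_distrib]
  exact Finset.sum_congr rfl fun i _ => by ring

lemma ts_mu (u : Sg w → ℤ) : ts (mu u) = ∑ i, u i * ts (muG i) := by
  unfold ts
  simp_rw [mu_apply]
  rw [Finset.sum_comm]
  exact Finset.sum_congr rfl fun i _ => by rw [Finset.mul_sum]

/-- value of the exponent vector of a variable -/
lemma ev_apply (v v' : Var w) : ev v v' = if v' = v then 1 else 0 := by
  unfold ev
  rw [Pi.single_apply]

lemma two (i : Fin 2) : i = 0 ∨ i = 1 := by omega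

lemma gsG (i : Sg w) : gs (muG i) = match i with
    | Sum.inl (Sum.inl _) => 1
    | _ => 0 := by
  rcases i with (⟨x, y, z⟩ | l) | (⟨x, y⟩ | _)
  · rcases two x with rfl | rfl <;> simp [gs, muG, ev_apply]
  · simp [gs, muG, ev_apply]
  · simp [gs, muG, ev_apply]
  · simp [gs, muG]

lemma hsG (i : Sg w) : hs (muG i) = match i with
    | Sum.inl (Sum.inl _) => 1
    | Sum.inr (Sum.inl _) => 1
    | _ => 0 := by
  rcases i with (⟨x, y, z⟩ | l) | (⟨x, y⟩ | _)
  · rcases two y with rfl | rfl <;> simp [hs, muG, ev_apply]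
  · simp [hs, muG, ev_apply]
  · rcases two y with rfl | rfl <;> simp [hs, muG, ev_apply]
  · simp [hs, muG]

lemma asG (i : Sg w) : as (muG i) = match i with
    | Sum.inl (Sum.inl _) => 1
    | _ => 0 := by
  rcases i with (⟨x, y, z⟩ | l) | (⟨x, y⟩ | _)
  · rcases two z with rfl | rfl <;> simp [as, muG, ev_apply]
  · simp [as, muG, ev_apply]
  · simp [as, muG, ev_apply]
  · simp [as, muG]

lemma ysG (i : Sg w) : ys (muG i) = match i with
    | Sum.inr (Sum.inl _) => 1
    | _ => 0 := by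
  rcases i with (⟨x, y, z⟩ | l) | (⟨x, y⟩ | _)
  · simp [ys, muG, ev_apply]
  · simp [ys, muG, ev_apply]
  · rcases two x with rfl | rfl <;> simp [ys, muG, ev_apply]
  · simp [ys, muG]

lemma tsG (i : Sg w) : ts (muG i) = match i with
    | Sum.inl (Sum.inr _) => 1
    | _ => 0 := by
  rcases i with (⟨x, y, z⟩ | l) | (⟨x, y⟩ | _)
  · simp [ts, muG, ev_apply]
  · simp [ts, muG, ev_apply]
  · simp [ts, muG, ev_apply]
  · simp [ts, muG]

lemma sumSg (f : Sg w → ℤ) : ∑ i, f i = (∑ x, f (Sum.inl (Sum.inl x))) +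
    (∑ l, f (Sum.inl (Sum.inr l))) + ((∑ x, f (Sum.inr (Sum.inl x))) + f (Sum.inr (Sum.inr ()))) := by
  rw [Fintype.sum_sum_type, Fintype.sum_sum_type, Fintype.sum_sum_type]
  simp

lemma gs_eq (u : Sg w → ℤ) : gs (mu u) = ∑ x, u (Sum.inl (Sum.inl x)) := by
  rw [gs_mu, sumSg]; simp [gsG]

lemma hs_eq (u : Sg w → ℤ) : hs (mu u) = (∑ x, u (Sum.inl (Sum.inl x))) + yd u := by
  rw [hs_mu, sumSg]; simp [hsG, yd]

lemma as_eq (u : Sg w → ℤ) : as (mu u) = ∑ x, u (Sum.inl (Sum.inl x)) := by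
  rw [as_mu, sumSg]; simp [asG]

lemma ys_eq (u : Sg w → ℤ) : ys (mu u) = yd u := by
  rw [ys_mu, sumSg]; simp [ysG, yd]

lemma ts_eq (u : Sg w → ℤ) : ts (mu u) = ∑ l, u (Sum.inl (Sum.inr l)) := by
  rw [ts_mu, sumSg]; simp [tsG]

lemma total (u : Sg w → ℤ) : ∑ i, u i = wt (mu u) + yd u + zd u := by
  rw [sumSg, wt, gs_eq, ts_eq, yd, zd]
  ring

lemma muG_nonneg (i : Sg w) (v : Var w) : 0 ≤ muG i v := by
  rcases i with (x | l) | (x | _)
  · simp only [muG, Pi.add_apply, ev_apply]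
    split_ifs <;> norm_num
  · simp only [muG, ev_apply]
    split_ifs <;> norm_num
  · simp only [muG, Pi.add_apply, ev_apply]
    split_ifs <;> norm_num
  · simp [muG]

lemma muG_supp (g : GG w) (v : Var w) (h : muG (Sum.inl g) v ≠ 0) : v ∈ supp g := by
  rcases g with x | l
  · simp only [muG, Pi.add_apply, ev_apply] at h
    simp only [supp, Finset.mem_insert, Finset.mem_singleton]
    by_contra hc
    push Not at hc
    apply h
    rw [if_neg hc.1, if_neg hc.2.1, if_neg hc.2.2]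
    norm_num
  · simp only [muG, ev_apply] at h
    simp only [supp, Finset.mem_singleton]
    by_contra hc
    exact h (if_neg hc)

lemma mu_neg (u : Sg w → ℤ) (s : Finset (GG w)) (hu : ∀ i, u i < 0 → i ∈ inS s) (v : Var w)
    (hv : mu u v < 0) : v ∈ suppS s := by
  by_contra hc
  rw [mu_apply] at hv
  refine absurd hv (not_lt.mpr (Finset.sum_nonneg fun i _ => ?_))
  by_cases hi : u i < 0
  · have h1 := hu i hi
    rw [inS, Finset.mem_map] at h1
    obtain ⟨g, hg, rfl⟩ := h1
    have : muG (Function.Embedding.inl g) v = 0 := by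
      by_contra h2
      exact hc (Finset.mem_biUnion.mpr ⟨g, hg, muG_supp g v h2⟩)
    rw [this, mul_zero]
  · exact mul_nonneg (not_lt.mp hi) (muG_nonneg i v)

variable {k}

lemma single_mem_U {P : (Var w → ℤ) → Prop} {A C ρ : ℤ} {s : Finset (GG w)} (u : Var w → ℤ) (a : k)
    (h : P u ∧ hs u - gs u = A ∧ as u - gs u = C ∧ ys u = ρ ∧ ∀ v, u v < 0 → v ∈ suppS s) :
    (AddMonoidAlgebra.single u a : L k w) ∈ U k P A C ρ s := by
  intro u' hu'
  rw [AddMonoidAlgebra.coeff_single] at hu'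
  by_cases e : u = u'
  · rw [← e]; exact h
  · exact absurd (Finsupp.single_eq_of_ne (Ne.symm e)) hu'

lemma single_mem_VP {m r : ℤ} {s : Finset (GG w)} (u : Sg w → ℤ) (a : k)
    (h : zd u = m ∧ yd u = r ∧ ∀ i, u i < 0 → i ∈ inS s) :
    (AddMonoidAlgebra.single u a : LR k (Sg w)) ∈ VP k m r s := by
  intro u' hu'
  rw [AddMonoidAlgebra.coeff_single] at hu'
  by_cases e : u = u'
  · rw [← e]; exact h
  · exact absurd (Finsupp.single_eq_of_ne (Ne.symm e)) hu'

lemma sum_single {E : Type} [AddCommGroup E] (f : AddMonoidAlgebra k E) :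
    f = ∑ u ∈ f.coeff.support, AddMonoidAlgebra.single u (f.coeff u) := by
  classical
  ext u'
  rw [AddMonoidAlgebra.coeff_sum, Finsupp.finset_sum_apply]
  simp only [AddMonoidAlgebra.coeff_single, Finsupp.single_apply]
  rw [Finset.sum_ite_eq']
  split_ifs with h
  · rfl
  · simpa using h

lemma piL_single (u : Sg w → ℤ) (a : k) :
    piL k w (AddMonoidAlgebra.single u a) = AddMonoidAlgebra.single (mu u) a := by
  unfold piL
  simp

end C10

open C10

theorem PiSurj_proof (k : Type) [Field k] (w : ℕ) (hL : LiftE w) : PiSurj k w := by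
  classical
  intro m r s
  constructor
  · intro f hf
    rw [sum_single f, map_sum]
    refine Submodule.sum_mem _ fun u hu => ?_
    rw [piL_single]
    obtain ⟨h1, h2, h3⟩ := hf u (Finsupp.mem_support_iff.mp hu)
    refine single_mem_U _ _ ⟨trivial, ?_, ?_, ?_, fun v hv => mu_neg u s h3 v hv⟩
    · rw [hs_eq, gs_eq, h2]; ring
    · rw [as_eq, gs_eq]; ring
    · rw [ys_eq, h2]
  · intro f hf
    have hch : ∀ u : Var w → ℤ, ∃ u' : Sg w → ℤ, f.coeff u ≠ 0 → (mu u' = u ∧ zd u' = m ∧ yd u' = r ∧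
        ∀ i, u' i < 0 → i ∈ inS s) := by
      intro u
      by_cases hu : f.coeff u = 0
      · exact ⟨0, fun h => absurd hu h⟩
      · obtain ⟨_, h1, h2, h3, h4⟩ := hf u hu
        obtain ⟨u', hu'⟩ := hL m r s u h1 h2 h3 h4
        exact ⟨u', fun _ => hu'⟩
    choose ψ hψ using hch
    refine ⟨∑ u ∈ f.coeff.support, AddMonoidAlgebra.single (ψ u) (f.coeff u), ?_, ?_, ?_⟩
    · refine Submodule.sum_mem _ fun u hu => ?_
      obtain ⟨_, h1, h2, h3⟩ := hψ u (Finsupp.mem_support_iff.mp hu)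
      exact single_mem_VP _ _ ⟨h1, h2, h3⟩
    · rw [map_sum]
      conv_rhs => rw [sum_single f]
      refine Finset.sum_congr rfl fun u hu => ?_
      rw [piL_single, (hψ u (Finsupp.mem_support_iff.mp hu)).1]
    · intro ω hω u' hu'
      rw [AddMonoidAlgebra.coeff_sum, Finsupp.finset_sum_apply] at hu'
      obtain ⟨u, hu, hne⟩ := Finset.exists_ne_zero_of_sum_ne_zero hu'
      rw [AddMonoidAlgebra.coeff_single] at hne
      have hu0 := Finsupp.mem_support_iff.mp hu
      have e : ψ u = u' := by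
        by_contra h
        exact hne (Finsupp.single_eq_of_ne (Ne.symm h))
      obtain ⟨h0, h1, h2, _⟩ := hψ u hu0
      rw [← e, total, h0, h1, h2, hω u hu0]

end Pool.Agent.T2H37.LB
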