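import Pool.Agent.T2H37.LB.StmC

/-!
# Package C11: restriction of cochains to the tuples of `X` and `θ`
-/

set_option autoImplicit false

namespace Pool.Agent.T2H37.LB

open Finset MvPolynomial

namespace C11

variable {k : Type} [Field k] {w : ℕ} {A : Type} [AddCommGroup A] [Module k A]

/-- the tuples of `X` and `θ` among all tuples -/
def inT {w i : ℕ} (j : Fin i → GG w) : Fin i → Sg w := Sum.inl ∘ j

theorem inT_inj {i : ℕ} : Function.Injective (inT (w := w) (i := i)) := by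
  intro j j' h
  funext m
  exact Sum.inl_injective (congrFun h m)

theorem image_inT {i : ℕ} (j : Fin i → GG w) : univ.image (inT j) = inS (univ.image j) := by
  ext x
  simp only [mem_image, mem_univ, true_and, inS, mem_map, inT, Function.comp_apply]
  constructor
  · rintro ⟨m, rfl⟩
    exact ⟨j m, ⟨m, rfl⟩, rfl⟩
  · rintro ⟨y, ⟨m, rfl⟩, rfl⟩
    exact ⟨m, rfl⟩

theorem not_inT {i : ℕ} (j : Fin i → Sg w) (h : ¬ ∃ j', inT j' = j) :
    ∃ x, Sum.inr x ∈ univ.image j := by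
  by_contra h1
  apply h
  have h2 : ∀ m, ∃ y, Sum.inl y = j m := by
    intro m
    rcases hm : j m with y | x
    · exact ⟨y, rfl⟩
    · exact absurd ⟨x, by rw [← hm]; exact mem_image_of_mem j (mem_univ m)⟩ h1
  choose y hy using h2
  exact ⟨y, funext hy⟩

theorem rT_dd {i : ℕ} (c : (Fin i → Sg w) → A) : rT (dd k i c) = dd k i (rT c) := by
  funext j
  simp only [rT, dd, LinearMap.pi_apply, LinearMap.sum_apply, LinearMap.smul_apply,
    LinearMap.proj_apply]
  rfl

variable (V I : Finset (Sg w) → Submodule k A)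

theorem rT_CV {i : ℕ} {c : (Fin i → Sg w) → A} (hc : c ∈ CV V i) :
    rT c ∈ CV (fun s => V (inS s)) i := by
  intro j
  have h := hc (inT j)
  rw [image_inT] at h
  exact h

theorem dd_CV (hV : ∀ s t : Finset (Sg w), s ⊆ t → V s ≤ V t) {i : ℕ} {c : (Fin i → Sg w) → A}
    (hc : c ∈ CV V i) : dd k i c ∈ CV V (i + 1) := by
  intro j
  simp only [dd, LinearMap.pi_apply, LinearMap.sum_apply, LinearMap.smul_apply,
    LinearMap.proj_apply]
  refine Submodule.sum_mem _ fun m _ => ?_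
  refine zsmul_mem (hV _ _ ?_ (hc (j ∘ m.succAbove))) _
  intro x hx
  simp only [mem_image, mem_univ, true_and, Function.comp_apply] at hx ⊢
  obtain ⟨a, ha⟩ := hx
  exact ⟨_, ha⟩

/-- extension by zero -/
noncomputable def ex {i : ℕ} (c : (Fin i → GG w) → A) : (Fin i → Sg w) → A :=
  Function.extend inT c 0

theorem ex_inT {i : ℕ} (c : (Fin i → GG w) → A) (j : Fin i → GG w) : ex c (inT j) = c j :=
  inT_inj.extend_apply c (0 : (Fin i → Sg w) → A) j

theorem ex_not {i : ℕ} (c : (Fin i → GG w) → A) (j : Fin i → Sg w) (h : ¬ ∃ j', inT j' = j) :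
    ex c j = 0 :=
  Function.extend_apply' c (0 : (Fin i → Sg w) → A) j h

theorem rT_ex {i : ℕ} (c : (Fin i → GG w) → A) : rT (ex c) = c := funext fun j => ex_inT c j

theorem ex_CV {i : ℕ} {c : (Fin i → GG w) → A} (hc : c ∈ CV (fun s => V (inS s)) i) :
    ex c ∈ CV V i := by
  intro j
  by_cases h : ∃ j', inT j' = j
  · obtain ⟨j', rfl⟩ := h
    rw [ex_inT, image_inT]
    exact hc j'
  · rw [ex_not c j h]
    exact Submodule.zero_mem _

/-- a cochain of `V` with restriction in `I` is in `I` -/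
theorem CV_of (hI : ∀ s : Finset (Sg w), (∃ x, Sum.inr x ∈ s) → I s = V s) {i : ℕ}
    {c : (Fin i → Sg w) → A} (hc : c ∈ CV V i) (h : rT c ∈ CV (fun s => I (inS s)) i) :
    c ∈ CV I i := by
  intro j
  by_cases hj : ∃ j', inT j' = j
  · obtain ⟨j', rfl⟩ := hj
    rw [image_inT]
    exact h j'
  · rw [hI _ (not_inT j hj)]
    exact hc j

end C11

open C11 in
theorem RestT_proof (k : Type) [Field k] (w : ℕ) (h3 : IJ3 k w) : RestT k w := by
  intro δ n i
  have hI : ∀ s : Finset (Sg w), (∃ x, Sum.inr x ∈ s) → IV k (JJ k w δ ^ n) s = VR k s :=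
    fun s hs => h3.1 δ n s hs
  have hV : ∀ s t : Finset (Sg w), s ⊆ t → VR k s ≤ VR k t := fun s t h => VR_mono k h
  refine ⟨?_, ?_, ?_, ?_⟩
  · rintro c ⟨h1, h2⟩
    refine ⟨rT_CV (k := k) (VR k) h1, ?_⟩
    show dd k i (rT c) ∈ CV (fun s => IV k (JJ k w δ ^ n) (inS s)) (i + 1)
    rw [← rT_dd]
    exact rT_CV (k := k) _ h2
  · intro c hc
    obtain ⟨x, hx, e, he, rfl⟩ := Submodule.mem_sup.1 hc
    obtain ⟨b, hb, rfl⟩ := hx
    refine Submodule.mem_sup.2 ⟨dd k i (rT b), ⟨rT b, rT_CV (k := k) _ hb, rfl⟩, rT e, rT_CV (k := k) _ he, ?_⟩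
    rw [← rT_dd]
    rfl
  · intro c hc h
    obtain ⟨x, hx, e, he, h1⟩ := Submodule.mem_sup.1 h
    obtain ⟨b, hb, rfl⟩ := hx
    refine Submodule.mem_sup.2 ⟨dd k i (ex b), ⟨ex b, ex_CV (k := k) _ hb, rfl⟩, c - dd k i (ex b),
      CV_of (k := k) _ _ hI (Submodule.sub_mem _ hc (dd_CV (k := k) _ hV (ex_CV (k := k) _ hb))) ?_, by abel⟩
    have h2 : rT (c - dd k i (ex b)) = e := by
      have h3 : rT (c - dd k i (ex b)) = rT c - rT (dd k i (ex b)) := rfl
      rw [h3, rT_dd, rT_ex, ← h1]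
      abel
    rw [h2]
    exact he
  · rintro c' ⟨h1, h2⟩
    refine ⟨ex c', ⟨ex_CV (k := k) _ h1, ?_⟩, rT_ex c', ?_⟩
    · show dd k i (ex c') ∈ CV (IV k (JJ k w δ ^ n)) (i + 1)
      refine CV_of (k := k) _ _ hI (dd_CV (k := k) _ hV (ex_CV (k := k) _ h1)) ?_
      rw [rT_dd, rT_ex]
      exact h2
    · intro j
      by_cases hj : ∃ j', inT j' = j
      · obtain ⟨j', rfl⟩ := hj
        exact Or.inr ⟨j', ex_inT c' j'⟩
      · exact Or.inl (ex_not c' j hj)

end Pool.Agent.T2H37.LB
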