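import Pool.Agent.T2H37.LB.StmC

/-! # LB, package C12: decomposition into components -/

set_option autoImplicit false

namespace Pool.Agent.T2H37.LB

open Finset MvPolynomial

namespace PkgC12

variable {k : Type} [Field k] {w : ℕ}

theorem coeff_cmp (m r : ℤ) (f : LR k (Sg w)) (u : Sg w → ℤ) :
    (cmp k m r f).coeff u = if zd u = m ∧ yd u = r then f.coeff u else 0 := by
  classical
  unfold cmp rst
  simp only [LinearMap.coe_mk, AddHom.coe_mk, AddMonoidAlgebra.coeff_ofCoeff,
    Finsupp.filter_apply]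
  congr

/-- `cmp` commutes with the differential -/
theorem cmp_dd (m r : ℤ) (i : ℕ) (c : (Fin i → GG w) → LR k (Sg w)) :
    (fun j => cmp k m r (dd k i c j)) = dd k i (fun j => cmp k m r (c j)) := by
  funext j
  simp only [dd, LinearMap.pi_apply, LinearMap.sum_apply, LinearMap.smul_apply,
    LinearMap.proj_apply, map_sum, map_zsmul]

theorem mem_VR {s : Finset (Sg w)} {f : LR k (Sg w)} :
    f ∈ VR k s ↔ ∀ u, f.coeff u ≠ 0 → ∀ i, u i < 0 → i ∈ s := Iff.rfl

theorem mem_VP {m r : ℤ} {s : Finset (GG w)} {f : LR k (Sg w)} :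
    f ∈ VP k m r s ↔ ∀ u, f.coeff u ≠ 0 → zd u = m ∧ yd u = r ∧
    ∀ i, u i < 0 → i ∈ s.map Function.Embedding.inl := Iff.rfl

theorem VP_le (m r : ℤ) (s : Finset (GG w)) : VP k m r s ≤ VR k (inS s) :=
  fun _ hf u hu i hi => (hf u hu).2.2 i hi

theorem cmp_mem {s : Finset (GG w)} {f : LR k (Sg w)} (hf : f ∈ VR k (inS s)) (m r : ℤ) :
    cmp k m r f ∈ VP k m r s := by
  intro u hu
  rw [coeff_cmp] at hu
  by_cases h : zd u = m ∧ yd u = r
  · rw [if_pos h] at hu
    exact ⟨h.1, h.2, fun i hi => hf u hu i hi⟩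
  · rw [if_neg h] at hu
    exact absurd rfl hu

theorem cmp_VP {s : Finset (GG w)} {m r : ℤ} {f : LR k (Sg w)} (hf : f ∈ VP k m r s) (m' r' : ℤ) :
    cmp k m' r' f = if m = m' ∧ r = r' then f else 0 := by
  ext u
  rw [coeff_cmp]
  by_cases h0 : f.coeff u = 0
  · by_cases h : m = m' ∧ r = r'
    · rw [if_pos h, h0, ite_self]
    · rw [if_neg h, h0, ite_self]; rfl
  · have h1 := hf u h0
    by_cases h : m = m' ∧ r = r'
    · rw [if_pos h, if_pos ⟨h1.1.trans h.1, h1.2.1.trans h.2⟩]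
    · rw [if_neg h, if_neg (fun h2 => h ⟨h1.1.symm.trans h2.1, h1.2.1.symm.trans h2.2⟩)]
      rfl

theorem inS_mono {s t : Finset (GG w)} (h : s ⊆ t) : inS s ⊆ inS t := Finset.map_subset_map.2 h

theorem image_sub {G : Type} [DecidableEq G] {i : ℕ} (j : Fin (i + 1) → G) (m : Fin (i + 1)) :
    univ.image (j ∘ m.succAbove) ⊆ univ.image j := by
  intro x hx
  simp only [mem_image, mem_univ, true_and, Function.comp_apply] at hx ⊢
  obtain ⟨a, ha⟩ := hx
  exact ⟨_, ha⟩

/-- the differential preserves cochains with values in a monotone family -/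
theorem dd_CV {G A : Type} [DecidableEq G] [AddCommGroup A] [Module k A]
    {V : Finset G → Submodule k A} (hV : ∀ s t, s ⊆ t → V s ≤ V t) {i : ℕ}
    {c : (Fin i → G) → A} (hc : c ∈ CV V i) : dd k i c ∈ CV V (i + 1) := by
  intro j
  simp only [dd, LinearMap.pi_apply, LinearMap.sum_apply, LinearMap.smul_apply,
    LinearMap.proj_apply]
  refine Submodule.sum_mem _ fun m _ => ?_
  refine zsmul_mem ?_ _
  exact hV _ _ (image_sub j m) (hc _)

theorem VRmono (s t : Finset (GG w)) (h : s ⊆ t) : VR k (inS s) ≤ VR k (inS t) :=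
  VR_mono k (inS_mono h)

/-- finitely many components -/
theorem exists_S {i : ℕ} (c : (Fin i → GG w) → LR k (Sg w)) :
    ∃ S : Finset (ℕ × ℕ), ∀ m r : ℕ, (m, r) ∉ S → ∀ j, cmp k m r (c j) = 0 := by
  classical
  refine ⟨(univ : Finset (Fin i → GG w)).biUnion fun j =>
    (c j).coeff.support.image fun u => ((zd u).toNat, (yd u).toNat), fun m r hmr j => ?_⟩
  ext u
  rw [coeff_cmp]
  by_cases h : zd u = m ∧ yd u = r
  · rw [if_pos h]
    by_contra h0
    apply hmr
    rw [Finset.mem_biUnion]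
    refine ⟨j, mem_univ _, ?_⟩
    rw [Finset.mem_image]
    refine ⟨u, Finsupp.mem_support_iff.2 h0, ?_⟩
    rw [h.1, h.2, Int.toNat_natCast, Int.toNat_natCast]
  · rw [if_neg h]; rfl

end PkgC12

open PkgC12

/-- PACKAGE C12 -/
theorem DecT_proof (k : Type) [Field k] (w : ℕ) (h1 : IJ1 k w) (h2 : IJ2 k w) : DecT k w := by
  classical
  intro δ n i hG
  have hIV : ∀ s : Finset (GG w), IV k (JJ k w δ ^ n) (inS s) ≤ VR k (inS s) :=
    fun s f hf => (h1 δ n s f hf).1
  refine ⟨fun c => ⟨fun hc => ⟨hc.1, fun m r => ⟨fun j => cmp_mem (hc.1 j) _ _,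
    Submodule.mem_comap.2 ?_⟩⟩,
    fun hc => ⟨hc.1, Submodule.mem_comap.2 ?_⟩⟩, fun c => ⟨fun hc => ?_, fun hc => ?_⟩⟩
  · -- forward, cocycles
    rw [← cmp_dd]
    intro j
    exact (h1 δ n _ _ (hc.2 j)).2 m r
  · -- backward, cocycles
    intro j
    refine h2 δ n hG _ _ (dd_CV VRmono hc.1 j) fun m r => ?_
    have h3 := (hc.2 m r).2
    have h4 : dd k i (fun j => cmp k m r (c j)) ∈ CV (IJ k w δ n m r) (i + 1) := h3
    rw [← cmp_dd] at h4
    exact h4 j
  · -- forward, coboundaries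
    obtain ⟨x, hx, e, he, rfl⟩ := Submodule.mem_sup.1 hc
    obtain ⟨b, hb, rfl⟩ := Submodule.mem_map.1 hx
    refine ⟨Submodule.add_mem _ (dd_CV VRmono hb) (fun j => hIV _ (he j)), fun m r => ?_⟩
    have h3 : (fun j => cmp k m r ((dd k i b + e) j)) =
        dd k i (fun j => cmp k m r (b j)) + fun j => cmp k m r (e j) := by
      rw [← cmp_dd]
      funext j
      simp only [Pi.add_apply, map_add]
    rw [h3]
    exact Submodule.add_mem_sup (Submodule.mem_map_of_mem fun j => cmp_mem (hb j) _ _)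
      (fun j => (h1 δ n _ _ (he j)).2 m r)
  · -- backward, coboundaries
    obtain ⟨hcV, hcB⟩ := hc
    have h3 : ∀ m r : ℕ, ∃ b ∈ CV (VP k (w := w) m r) i, ∃ e ∈ CV (IJ k w δ n m r) (i + 1),
        dd k i b + e = fun j => cmp k m r (c j) := by
      intro m r
      obtain ⟨x, hx, e, he, h⟩ := Submodule.mem_sup.1 (hcB m r)
      obtain ⟨b, hb, rfl⟩ := Submodule.mem_map.1 hx
      exact ⟨b, hb, e, he, h⟩
    choose b hb e he hbe using h3
    obtain ⟨S, hS⟩ := exists_S c
    set B : (Fin i → GG w) → LR k (Sg w) := ∑ p ∈ S, b p.1 p.2 with hBdef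
    have hB : B ∈ CV (fun s => VR k (inS (w := w) s)) i := by
      refine Submodule.sum_mem _ fun p _ j => VP_le _ _ _ (hb p.1 p.2 j)
    have hcmpB : ∀ m r : ℕ, (fun j => cmp k m r (B j)) = if (m, r) ∈ S then b m r else 0 := by
      intro m r
      funext j
      rw [hBdef, Finset.sum_apply, map_sum]
      have h4 : ∀ p ∈ S, cmp k m r (b p.1 p.2 j) = if p = (m, r) then b m r j else 0 := by
        intro p _
        rw [cmp_VP (hb p.1 p.2 j)]
        by_cases hp : p = (m, r)
        · subst hp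
          rw [if_pos ⟨rfl, rfl⟩, if_pos rfl]
        · rw [if_neg hp, if_neg]
          rintro ⟨h5, h6⟩
          exact hp (Prod.ext (by exact_mod_cast h5) (by exact_mod_cast h6))
      rw [Finset.sum_congr rfl h4, Finset.sum_ite_eq']
      by_cases h5 : (m, r) ∈ S
      · rw [if_pos h5, if_pos h5]
      · rw [if_neg h5, if_neg h5]; rfl
    have hE : c - dd k i B ∈ CV (fun s => IV k (JJ k w δ ^ n) (inS (w := w) s)) (i + 1) := by
      intro j
      refine h2 δ n hG _ _ (Submodule.sub_mem _ (hcV j) (dd_CV VRmono hB j)) fun m r => ?_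
      rw [Pi.sub_apply, map_sub]
      have h4 : cmp k m r (dd k i B j) = dd k i (fun j => cmp k m r (B j)) j :=
        congrFun (cmp_dd (k := k) m r i B) j
      rw [h4, hcmpB m r]
      by_cases h5 : (m, r) ∈ S
      · rw [if_pos h5]
        have h6 : cmp k m r (c j) = (dd k i (b m r) + e m r) j := (congrFun (hbe m r) j).symm
        rw [h6, Pi.add_apply, add_sub_cancel_left]
        exact he m r j
      · rw [if_neg h5, map_zero, hS m r h5 j, Pi.zero_apply, sub_zero]
        exact Submodule.zero_mem _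
    have h7 : c = dd k i B + (c - dd k i B) := by abel
    rw [h7]
    exact Submodule.add_mem_sup (Submodule.mem_map_of_mem hB) hE

end Pool.Agent.T2H37.LB
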