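import Pool.Agent.T2H37.LB.StmC

/-! # LB, package C13 (helper74): the cohomology of one piece -/

set_option autoImplicit false

namespace Pool.Agent.T2H37.LB

open Finset MvPolynomial

namespace C13

section Gen

variable {k : Type} [Field k] {G A B : Type} [AddCommGroup A] [Module k A] [AddCommGroup B]
  [Module k B] [DecidableEq G]

omit [DecidableEq G] in
lemma dd_apply (i : ℕ) (c : (Fin i → G) → A) (j : Fin (i + 1) → G) :
    dd k i c j = ∑ m : Fin (i + 1), ((-1 : ℤ) ^ (m : ℕ)) • c (j ∘ m.succAbove) := by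
  unfold dd
  rw [LinearMap.pi_apply, LinearMap.sum_apply]
  rfl

omit [DecidableEq G] in
lemma map_dd (φ : A →ₗ[k] B) (i : ℕ) (c : (Fin i → G) → A) :
    (fun j => φ (dd k i c j)) = dd k i (fun j => φ (c j)) := by
  funext j
  rw [dd_apply, dd_apply, map_sum]
  exact Finset.sum_congr rfl fun m _ => map_zsmul φ _ _

lemma dd_CV {V : Finset G → Submodule k A} (hV : ∀ s t, s ⊆ t → V s ≤ V t) (i : ℕ)
    {c : (Fin i → G) → A} (hc : c ∈ CV V i) : dd k i c ∈ CV V (i + 1) := by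
  intro j
  rw [dd_apply]
  refine Submodule.sum_mem _ fun m _ => ?_
  exact zsmul_mem (hV _ _ (image_succAbove j m) (hc (j ∘ m.succAbove))) _

end Gen

variable {k : Type} [Field k] {w : ℕ}

lemma VP_mono (m r : ℤ) (s t : Finset (GG w)) (h : s ⊆ t) : VP k m r s ≤ VP k m r t := by
  intro f hf u hu
  obtain ⟨h1, h2, h3⟩ := hf u hu
  exact ⟨h1, h2, fun i hi => Finset.map_subset_map.mpr h (h3 i hi)⟩

lemma zero_KM (r : ℤ) : (0 : L k w) ∈ KM k w r := by
  refine ⟨Submodule.zero_mem _, ?_, ?_⟩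
  · unfold con; rw [mul_zero, map_zero]
  · unfold con; rw [mul_zero, map_zero]

/-- lifting of cochains -/
lemma lift (hP : PiSurj k w) (m r i : ℕ) (b : (Fin i → GG w) → L k w)
    (hb : b ∈ CV (U k PT r 0 r) i) : ∃ b' ∈ CV (VP k (w := w) m r) i,
      (∀ j, piL k w (b' j) = b j) ∧ ∀ j (ω : ℤ), HomW ω (b j) → HomL k (ω + r + m) (b' j) := by
  have := fun j => (hP m r (univ.image j)).2 (b j) (hb j)
  choose b' h1 h2 h3 using this
  exact ⟨b', h1, h2, h3⟩

lemma mem_sup_iff {M : Type} [AddCommGroup M] [Module k M] (p q : Submodule k M) (x : M) :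
    x ∈ p ⊔ q ↔ ∃ y ∈ p, x - y ∈ q := by
  rw [Submodule.mem_sup]
  constructor
  · rintro ⟨y, hy, z, hz, rfl⟩
    exact ⟨y, hy, by simpa using hz⟩
  · rintro ⟨y, hy, hz⟩
    exact ⟨y, hy, x - y, hz, by simp⟩

end C13

open C13

theorem PieceT_proof (k : Type) [Field k] (w : ℕ) (hP : PiSurj k w) (hPsi : PsiOf k w PT)
    (hF : FreeEx k w) : PieceT k w := by
  classical
  intro δ n m r
  by_cases c1 : 2 * δ * (n - m / 2) ≤ r
  · have hIJ : IJ k w δ n m r = fun s => VP k m r s := by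
      funext s; unfold IJ; rw [if_pos c1]
    rw [hIJ]
    refine ⟨0, fun c => zero_KM _, fun c => ⟨fun _ => ?_, fun _ => rfl⟩, ?_⟩
    · have hc := c.2.1
      refine Submodule.mem_sup_right ?_
      exact hc
    · intro hδ hn hm hr
      exfalso
      subst hm
      have : 2 * δ * n ≤ r := by simpa using c1
      have h2 : 0 < δ * n := Nat.mul_pos hδ hn
      rw [hr, mul_assoc] at this
      omega
  by_cases c2 : m % 2 = 1 ∧ 2 * δ * (n - 1 - m / 2) + δ ≤ r
  · have hIJ : IJ k w δ n m r = VI k m r := by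
      funext s; unfold IJ; rw [if_neg c1, if_pos c2]
    obtain ⟨Ψ, hΨ1, hΨ2, hΨ3, hΨ4⟩ := hPsi r
    rw [hIJ]
    set φ : LR k (Sg w) →ₗ[k] L k w := (piL k w).toLinearMap with hφ
    have hφa : ∀ x, φ x = piL k w x := fun x => rfl
    set PM : ∀ i : ℕ, ((Fin i → GG w) → LR k (Sg w)) →ₗ[k] ((Fin i → GG w) → L k w) :=
      fun i => φ.compLeft _ with hPM
    have hPMa : ∀ i c j, PM i c j = piL k w (c j) := fun i c j => rfl
    have hPMd : ∀ i c, PM (i + 1) (dd k i c) = dd k i (PM i c) := fun i c => map_dd φ i c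
    have hCV : ∀ i, ∀ c ∈ CV (VP k (w := w) m r) i, PM i c ∈ CV (U k PT r 0 r) i := fun i c hc j =>
      (hP m r (univ.image j)).1 (c j) (hc j)
    have hCI : ∀ i, ∀ c ∈ CV (VI k (w := w) m r) i, PM i c ∈ CV (IN k PT r) i := fun i c hc j =>
      (hc j).2
    have hCI' : ∀ i, ∀ c ∈ CV (VP k (w := w) m r) i, PM i c ∈ CV (IN k PT r) i →
        c ∈ CV (VI k (w := w) m r) i := fun i c hc hc' j => ⟨hc j, hc' j⟩
    have hZ : ∀ c ∈ ZQ (VP k (w := w) m r) (VI k m r) (w + 4),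
        PM (w + 4) c ∈ ZQ (U k PT r 0 r) (IN k PT r) (w + 4) := by
      intro c hc
      refine ⟨hCV _ _ hc.1, ?_⟩
      change dd k (w + 4) (PM (w + 4) c) ∈ CV (IN k PT r) (w + 4 + 1)
      rw [← hPMd]
      exact hCI _ _ hc.2
    -- lifting of cocycles
    have hL : ∀ c ∈ ZQ (U k (w := w) PT r 0 r) (IN k PT r) (w + 4),
        ∃ c' ∈ ZQ (VP k (w := w) m r) (VI k m r) (w + 4), PM (w + 4) c' = c ∧
          ∀ j (ω : ℤ), HomW ω (c j) → HomL k (ω + r + m) (c' j) := by
      intro c hc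
      obtain ⟨c', h1, h2, h3⟩ := lift hP m r _ c hc.1
      have h2' : PM (w + 4) c' = c := funext h2
      refine ⟨c', ⟨h1, ?_⟩, h2', h3⟩
      change dd k (w + 4) c' ∈ CV (VI k m r) (w + 4 + 1)
      refine hCI' _ _ (dd_CV (VP_mono _ _) _ h1) ?_
      rw [hPMd, h2']
      exact hc.2
    refine ⟨Ψ ∘ₗ (PM (w + 4)).restrict hZ, fun c => hΨ1 _, fun c => ?_, ?_⟩
    · rw [LinearMap.comp_apply, hΨ4]
      change PM (w + 4) c.1 ∈ BQ (U k PT r 0 r) (IN k PT r) (w + 3) ↔ _
      unfold BQ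
      rw [mem_sup_iff, mem_sup_iff]
      constructor
      · rintro ⟨y, ⟨b, hb, rfl⟩, hy⟩
        obtain ⟨b', h1, h2, -⟩ := lift hP m r _ b hb
        have h2' : PM (w + 3) b' = b := funext h2
        refine ⟨dd k (w + 3) b', ⟨b', h1, rfl⟩, ?_⟩
        refine hCI' _ _ (Submodule.sub_mem _ c.2.1 (dd_CV (VP_mono _ _) _ h1)) ?_
        rw [map_sub, hPMd, h2']
        exact hy
      · rintro ⟨y, ⟨b, hb, rfl⟩, hy⟩
        refine ⟨dd k (w + 3) (PM (w + 3) b), ⟨PM (w + 3) b, hCV _ _ hb, rfl⟩, ?_⟩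
        rw [← hPMd]
        have := hCI _ _ hy
        rw [map_sub] at this
        exact this
    · intro _ _ _ _
      constructor
      · intro g hg
        obtain ⟨c, hc⟩ := hΨ2 g hg
        obtain ⟨c', h1, h2, -⟩ := hL c.1 c.2
        refine ⟨⟨c', h1⟩, ?_⟩
        rw [LinearMap.comp_apply, ← hc]
        congr 1
        exact Subtype.ext h2
      · intro g hg ω hω
        obtain ⟨c, hc, hh⟩ := hΨ3 g hg ω hω
        obtain ⟨c', h1, h2, h3⟩ := hL c.1 c.2
        refine ⟨⟨c', h1⟩, ?_, fun j => h3 j _ (hh j)⟩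
        rw [LinearMap.comp_apply, ← hc]
        congr 1
        exact Subtype.ext h2
  · have hIJ : IJ k w δ n m r = fun _ => ⊥ := by
      funext s; unfold IJ; rw [if_neg c1, if_neg c2]
    rw [hIJ]
    refine ⟨0, fun c => zero_KM _, fun c => ⟨fun _ => ?_, fun _ => rfl⟩, ?_⟩
    · have hc := c.2.1
      have hd : dd k (w + 4) c.1 = 0 := by
        have h := c.2.2
        funext j
        exact (Submodule.mem_bot k).mp (h j)
      have hz : c.1 ∈ Zd (VP k (w := w) m r) (w + 4) := ⟨hc, LinearMap.mem_ker.mpr hd⟩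
      have := hF m r (w + 4) (by omega) hz
      exact Submodule.mem_sup_left this
    · intro hδ hn hm hr
      exfalso
      apply c2
      subst hm
      refine ⟨rfl, ?_⟩
      rw [hr]
      obtain ⟨n, rfl⟩ : ∃ n', n = n' + 1 := ⟨n - 1, by omega⟩
      have : 2 * δ * (n + 1) = 2 * δ * n + 2 * δ := by ring
      simp only [add_tsub_cancel_right, Nat.reduceDiv, tsub_zero]
      omega

end Pool.Agent.T2H37.LB
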