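import Pool.Agent.T2H37.LB.Ring
import Pool.Agent.T2H37.LB.StmB

/-!
# LB, statements of part C: localization, the powers of the ideal `J`, assembly

Every `def ... : Prop` below with a docstring PACKAGE is one package.
-/

set_option autoImplicit false

namespace Pool.Agent.T2H37.LB

open Finset MvPolynomial

section Gen

variable (k : Type) [Field k]

/-- PACKAGE C1 (75 min). `R = k[x_j : j ∈ σ]`. Proof. `VR k s` is the localization of `R` at
`xs s = ∏_{j ∈ s} x_j`: for `v ∈ VR k s` there is `N` with `(xs s)^N v = iR f`, `f ∈ R`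
(exponents `≥ -N`); `iR` is injective. Put `φ_s v = mk ([f]) ((xs s)^N)`: independent of `N`; additive.
Surjective: `mk [f] ((xs s)^N)` is the image of `iR f · (monomial with exponent -N on s)`. Kernel:
`φ_s v = 0` iff `(xs s)^M f ∈ I` for some `M` iff `v ∈ IV k I s` (if `v = ∑ iR f_i v_i`, `f_i ∈ I`, multiply
by a high power of `xs s`). `res (mk m x) = mk (…)`: use `LocalizedModule.lift_mk` or multiply by
the power of `xs s`, which acts bijectively. Homogeneous: if all exponents of `v` have sum `e` then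
`f` is homogeneous of degree `e + N |s|` (choose `N` so large that this is `≥ 0`, possible since
`s ≠ ∅`). (Alternatively first prove `IsLocalizedModule (powers (xs s))` for `R → VR k s`.) -/
def LocMap : Prop :=
  ∀ (σ : Type) [Fintype σ] [DecidableEq σ] (I : Ideal (MvPolynomial σ k)),
    ∃ φ : ∀ s : Finset σ, VR k s →+ Loc k (MvPolynomial σ k ⧸ I) s,
      (∀ s, Function.Surjective (φ s)) ∧
      (∀ s v, φ s v = 0 ↔ (v : LR k σ) ∈ IV k I s) ∧
      (∀ (s t : Finset σ) (h : s ⊆ t) (v : VR k s),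
        res k _ h (φ s v) = φ t ⟨v, VR_mono k h v.2⟩) ∧
      (∀ s (a : k) v, φ s (a • v) = (C a : MvPolynomial σ k) • φ s v) ∧
      (∀ s (e : ℤ) (v : VR k s), s.Nonempty → HomL k e (v : LR k σ) → IsHom I s e (φ s v))

/-- PACKAGE C2 (60 min), from `LocMap`. Proof. Apply `φ` tuple by tuple; it commutes with the
differentials; a cochain `c` of `VR` maps to a cocycle iff `dd c ∈ CV IV`, to a coboundary iff
`c ∈ BQ` (lift the cochain). Mind: `ZQ … (i+1)` is in degree `i + 1`, `BQ … i` too. For the second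
statement: if the image of `c` were a coboundary then `c ∈ BQ`; homogeneity from `LocMap`, the image of
`j : Fin (i+1) → σ` is nonempty. -/
def CechIso : Prop :=
  ∀ (σ : Type) [Fintype σ] [DecidableEq σ] (I : Ideal (MvPolynomial σ k)) (i : ℕ),
    (∃ F : HQ (VR k (σ := σ)) (IV k I) i ≃+ LocalCoh k σ (MvPolynomial σ k ⧸ I) (i + 1),
      ∀ (a : k) x, F (a • x) = (C a : MvPolynomial σ k) • F x) ∧
    ∀ e : ℤ, (∃ c ∈ ZQ (VR k (σ := σ)) (IV k I) (i + 1), (∀ j, HomL k e (c j)) ∧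
      c ∉ BQ (VR k (σ := σ)) (IV k I) i) → ComponentNeZero I (i + 1) e

/-- PACKAGE C3 (45 min, assume `[IsAlgClosed k]` in the theorem). Proof. Give `N` the `k`-structure
`Module.compHom`; it is finite-dimensional, hence of finite length over `R`, and the residue
fields of `R = k[x]` at maximal ideals are `k` (finite over `k` for a simple module that is a finite-
dimensional `k`-space: `R ⧸ m` is a finite field extension of the algebraically closed `k`). So each
composition factor has `k`-dimension 1; induction on the length (`Module.length` is additive on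
short exact sequences, `finrank` too). -/
def LenDim : Prop :=
  ∀ (σ : Type) [Finite σ] (N V : Type) [AddCommGroup N] [Module (MvPolynomial σ k) N]
    [AddCommGroup V] [Module k V] [FiniteDimensional k V] (F : V ≃+ N),
    (∀ (a : k) x, F (a • x) = (C a : MvPolynomial σ k) • F x) →
    Module.length (MvPolynomial σ k) N = Module.finrank k V

end Gen

section Spec

variable (k : Type) [Field k] (w : ℕ)

/-- `Cd r` is generated by `Cd δ` for `r ≥ δ` -/
def Gn (δ : ℕ) : Prop :=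
  ∀ r : ℕ, δ ≤ r → ∀ f ∈ Cd k w r, f ∈ YI k w ^ (r - δ) * Ideal.span (Cd k w δ)

/-- PACKAGE C4 (60 min). Proof. The ideal generated by `⋃_r Cd r` is finitely generated (Noetherian),
by finitely many elements `c_i ∈ Cd r_i`; let `δ ≥ 1` be at least all `r_i`. If `f ∈ Cd r`, `r ≥ δ`, then
`f = ∑ a_i c_i`; take the component of `z`-degree `0` and `Y`-degree `r`: replace `a_i` by its
component of `z`-degree `0`, `Y`-degree `r - r_i`, which lies in `(Y)^{r - r_i}` and is a sum of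
(monomial in `Y` of degree `r - δ`) · (polynomial of `Y`-degree `δ - r_i`), and (polynomial of
`z`-degree `0`, `Y`-degree `δ - r_i`) · `c_i` is a sum of elements of `Cd δ` (homogeneous components).
Needed: `g · c ∈ Cd`: if `iR c ∈ VI 0 r ∅` and `g` has nonnegative exponents, `z`-degree 0 and
`Y`-degree `t`, then `iR (g c) ∈ VI 0 (r+t) ∅`, because `piL (iR g)` has nonnegative exponents and
strand degrees `(t, 0, t)`, so it maps the two summands of `IN` in strand `r` to those in strand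
`r + t`. -/
def GenDelta : Prop := ∃ δ : ℕ, 1 ≤ δ ∧ Gn k w δ

/-- PACKAGE C5 (60 min): `J^n ⊆ …`. Proof. Let `s' = inS s`. The set of `f ∈ VR k s'` all of whose
components `cmp m r f` are in `IJ … m r s` is a `k`-subspace, stable under multiplication by `VR k s'`.
`J^n` is generated by the products `z^{2a} · M · (z c_1) ⋯ (z c_c)`, `M` a monomial of degree `2δb` in
the `Y`, `c_i ∈ Cd δ`, `a + b + c = n` (`Ideal.add_pow`-like: sup of ideals to the power `n`). Such a
product times a monomial of `z`-degree `μ ≥ 0` and `Y`-degree `ρ ≥ 0` has `z`-degree `m = 2a + c + μ`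
and `Y`-degree `r = 2δb + cδ + ρ`. If `c` is even or `μ > 0` then
`n - ⌊m/2⌋ ≤ b + ⌊c/2⌋`, so `2δ(n - ⌊m/2⌋) ≤ r`: first case of `IJ`. If `c` is odd and `μ = 0` then `m` is
odd and `2δ(n-1-⌊m/2⌋) + δ = 2δb + cδ ≤ r`, and the element is in `VI` as a multiple of `c_1`
(`VI 0 δ ∅ · VP m' r' s ⊆ VI (m') (δ + r') s`). -/
def IJ1 : Prop :=
  ∀ (δ n : ℕ) (s : Finset (GG w)), ∀ f ∈ IV k (JJ k w δ ^ n) (inS s), f ∈ VR k (inS s) ∧
    ∀ m r : ℕ, cmp k m r f ∈ IJ k w δ n m r s

/-- PACKAGE C6 (75 min). Proof. `f` is the sum of its finitely many components, so let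
`f ∈ IJ … m r s`. Case 1: `2δ(n - ⌊m/2⌋) ≤ r`: each monomial of `f` is divisible by `z^{2l}` and by a
monomial of degree `2δ(n - l)` in the `Y`, `l = min(⌊m/2⌋, n)`, so it is in
`(z²)^l ((Y)^{2δ})^{n-l} VR ⊆ IV (J^n)`. Case 2: `m = 2l + 1`, `l < n`, `r ≥ 2δ(n-1-l) + δ`, `f ∈ VI m r s`:
multiply by a high power of `∏_{j ∈ s} x_j`: `iR g = x^N f` with `g` a polynomial and
`piL (x^N f) ∈ IN PT r ∅` (a high power of `∏_{j∈s} piL x_j` clears the denominators of the two
cofactors). Divide by `z^m`: `g = z^m g'` with `g'` of `z`-degree 0, `Y`-degree `r`, `iR g' ∈ VI 0 r ∅`. The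
homogeneous components of `g'` are in `Cd r` (`q` and `Φ` are homogeneous for the weight
`wt`: taking the part of given weight preserves `IN`; the total degree of an exponent of `g'` is
`wt + r`). By `Gn`: `g' ∈ (Y)^{r-δ} (Cd δ) ⊆ ((Y)^{2δ})^{n-1-l} (Cd δ)`, so
`z^m g' = z^{2l} · z g' ∈ (z²)^l ((Y)^{2δ})^{n-1-l} (z Cd δ) ⊆ J^n`. -/
def IJ2 : Prop :=
  ∀ (δ n : ℕ), Gn k w δ → ∀ (s : Finset (GG w)), ∀ f ∈ VR k (inS s),
    (∀ m r : ℕ, cmp k m r f ∈ IJ k w δ n m r s) → f ∈ IV k (JJ k w δ ^ n) (inS s)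

/-- PACKAGE C7 (30 min). Proof. If `z ∈ s`, `v = (z²)^n · (z^{-2n} v)`, `(z²)^n ∈ J^n`. Similarly for
`Y_{ij}` with `(Y_{ij}^{2δ})^n`. Also: `J` is homogeneous, because it is generated by homogeneous
elements. -/
def IJ3 : Prop :=
  (∀ (δ n : ℕ) (s : Finset (Sg w)), (∃ x, Sum.inr x ∈ s) → IV k (JJ k w δ ^ n) s = VR k s) ∧
  ∀ (δ : ℕ), ∀ f ∈ JJ k w δ, ∀ D, homogeneousComponent D f ∈ JJ k w δ

/-- PACKAGE C8 (40 min), from `Tog`, `Simplex`, `Coef`. Proof. `VP k m r s` is given by the condition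
`T s u = (zd u = m ∧ yd u = r ∧ ∀ i, u i < 0 → i ∈ inS s)`. For fixed `u` the family is zero (wrong
degree, or a negative exponent at a `Y` or `z`), or `VC k (fun g => {g}) N`, `N = {g | u (inl g) < 0}`:
acyclic by `Tog` if `N ≠ univ`, concentrated in degree `card (GG w) = w + 10` if `N = univ`. -/
def FreeEx : Prop :=
  ∀ (m r : ℤ) (p : ℕ), p ≠ w + 10 → ExD (VP k (w := w) m r) p

/-- PACKAGE C9 (60 min; pure combinatorics). Proof. Let `K` be large and `u' = u + K ∑_{g ∈ s} muG g`;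
for `K` large `u' ≥ 0` at all variables in `suppS s`, and `u' v = u v ≥ 0` at the others. It suffices to
write `u'` as `mu` of a vector with nonnegative entries, `zd = m`, `yd = r`, and subtract `K` at the
elements of `s`. `θ`: copy. Take integers `c_0, c_1 ≥ 0`, `c_0 + c_1 = r`, `c_j ≤ u'(h_j)` (possible:
`u'(h_0) + u'(h_1) = gs u' + r ≥ r`); a nonnegative 2×2 matrix `Y_{ij}` with row sums `u'(y_i)`
(sum `r`) and column sums `c_j`; then `X_{ijl} ≥ 0` with marginals `u'(γ_i)`, `u'(h_j) - c_j`, `u'(α_l)`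
(equal totals): first a 2×2 matrix `Z_{ij}` with marginals `γ, h - c`, then a `4×2` matrix with row
sums `Z_{ij}` and column sums `α_l`. A nonnegative integer matrix with given nonnegative row and
column sums of equal total exists (induction on the total; or explicitly for two columns:
take greedily). -/
def LiftE : Prop :=
  ∀ (m r : ℕ) (s : Finset (GG w)) (u : Var w → ℤ), hs u - gs u = r → as u - gs u = 0 → ys u = r →
    (∀ v, u v < 0 → v ∈ suppS s) →
    ∃ u' : Sg w → ℤ, mu u' = u ∧ zd u' = m ∧ yd u' = r ∧ ∀ i, u' i < 0 → i ∈ inS s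

/-- PACKAGE C10 (40 min), from `LiftE`. Proof. (a) `gs (mu u)`, `hs (mu u)`, `as (mu u)` are computed
from the definitions; a negative exponent of `mu u` at a variable comes from a negative exponent of `u`
(at `s`). (b) choose for each exponent of `f` a preimage. (c) the total degree of `u'` is
`wt (mu u') + yd u' + zd u'`. -/
def PiSurj : Prop :=
  ∀ (m r : ℕ) (s : Finset (GG w)),
    (∀ f ∈ VP k m r s, piL k w f ∈ U k PT r 0 r s) ∧
    ∀ f ∈ U k (w := w) PT r 0 r s, ∃ f' ∈ VP k m r s, piL k w f' = f ∧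
      ∀ ω : ℤ, HomW ω f → HomL k (ω + r + m) f'

/-- restriction of a cochain to the tuples of `X` and `θ` -/
def rT {A : Type} {w i : ℕ} (c : (Fin i → Sg w) → A) : (Fin i → GG w) → A :=
  fun j => c (Sum.inl ∘ j)

/-- PACKAGE C11 (40 min), from `IJ3`. Proof. On tuples containing an index of `Y` or `z` we have
`IV = VR`. (a) clear. (b) `rT c = dd b' + e'`; extend `b'` by zero to `b`; then `c - dd b ∈ CV IV`.
(c) extend by zero. -/
def RestT : Prop :=
  ∀ (δ n i : ℕ),
    (∀ c ∈ ZQ (VR k (σ := Sg w)) (IV k (JJ k w δ ^ n)) i,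
      rT c ∈ ZQ (fun s => VR k (inS s)) (fun s => IV k (JJ k w δ ^ n) (inS s)) i) ∧
    (∀ c ∈ BQ (VR k (σ := Sg w)) (IV k (JJ k w δ ^ n)) i,
      rT c ∈ BQ (fun s => VR k (inS s)) (fun s => IV k (JJ k w δ ^ n) (inS s)) i) ∧
    (∀ c ∈ CV (VR k (σ := Sg w)) (i + 1),
      rT c ∈ BQ (fun s => VR k (inS s)) (fun s => IV k (JJ k w δ ^ n) (inS s)) i →
      c ∈ BQ (VR k (σ := Sg w)) (IV k (JJ k w δ ^ n)) i) ∧
    ∀ c' ∈ ZQ (fun s => VR k (inS (w := w) s)) (fun s => IV k (JJ k w δ ^ n) (inS s)) i,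
      ∃ c ∈ ZQ (VR k (σ := Sg w)) (IV k (JJ k w δ ^ n)) i, rT c = c' ∧
        ∀ j, c j = 0 ∨ ∃ j', c j = c' j'

/-- PACKAGE C12 (50 min), from `IJ1`, `IJ2`. Proof. `cmp` commutes with `dd`; an element of
`VR k (inS s)` has only components with `m, r ≥ 0`, finitely many, and is their sum; `cmp m r` maps
`VR k (inS s)` onto `VP k m r s ⊆ VR k (inS s)`. -/
def DecT : Prop :=
  ∀ (δ n i : ℕ), Gn k w δ →
    (∀ c, c ∈ ZQ (fun s => VR k (inS (w := w) s)) (fun s => IV k (JJ k w δ ^ n) (inS s)) i ↔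
      c ∈ CV (fun s => VR k (inS (w := w) s)) i ∧
      ∀ m r : ℕ, (fun j => cmp k m r (c j)) ∈ ZQ (VP k m r) (IJ k w δ n m r) i) ∧
    (∀ c, c ∈ BQ (fun s => VR k (inS (w := w) s)) (fun s => IV k (JJ k w δ ^ n) (inS s)) i ↔
      c ∈ CV (fun s => VR k (inS (w := w) s)) (i + 1) ∧
      ∀ m r : ℕ, (fun j => cmp k m r (c j)) ∈ BQ (VP k m r) (IJ k w δ n m r) i)

/-- PACKAGE C13 (50 min), from `PiSurj`, `PsiT` (`PsiOf k w PT`), `FreeEx`. Proof. If `IJ = VP` then every
cochain is in `BQ`, take `Θ = 0`. If `IJ = ⊥` then a cocycle is a coboundary by `FreeEx` (`w + 4 ≠ w + 10`),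
take `Θ = 0`. If `IJ = VI` (as for `m = 1`, `r = 2δn - 1`), `Θ c = Ψ (piL ∘ c)`: `piL` maps `VP m r s` onto
`U k PT r 0 r s`, and `VI m r s` is exactly the preimage of `IN k PT r s`; so `c ∈ ZQ ↔ piL ∘ c ∈ ZQ` and
`c ∈ BQ ↔ piL ∘ c ∈ BQ` for cochains `c` of `VP m r`, and every cochain of `U` lifts. -/
def PieceT : Prop :=
  ∀ (δ n m r : ℕ), ∃ Θ : ZQ (VP k (w := w) m r) (IJ k w δ n m r) (w + 4) →ₗ[k] L k w,
    (∀ c, Θ c ∈ KM k w r) ∧
    (∀ c, Θ c = 0 ↔ c.1 ∈ BQ (VP k m r) (IJ k w δ n m r) (w + 3)) ∧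
    (1 ≤ δ → 1 ≤ n → m = 1 → r = 2 * δ * n - 1 → (∀ g ∈ KM k w r, ∃ c, Θ c = g) ∧
      ∀ g ∈ KM k w r, ∀ ω, HomW ω g → ∃ c, Θ c = g ∧ ∀ j, HomL k (ω + 3 + r + m) (c.1 j))

/-- PACKAGE C14 (75 min), from `RestT`, `DecT`, `PieceT`, `KMbdd` (as hypotheses; `KMbdd` of part A).
Proof. `Θ_{m,r}(cmp m r ∘ rT c)`, `m < 2n`, `r < 2δn` (for other `(m, r)` we have `IJ = VP`, nothing is
left), is a linear map from `ZQ` to a finite product of spaces `KM k w r`, with kernel `BQ`. The spaces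
`KM k w r` are finite-dimensional: by `KMbdd` and the degree conditions only finitely many exponents
occur (`γ, α, θ, h` exponents are negative with bounded sums, `y` exponents `≥ 0` with sum `r - 2`). For the
lower bound: each `g ∈ KM k w (2δn-1)` comes from a `c` with only the component `(1, 2δn-1)`
(`DecT`, `RestT`). -/
def Asm : Prop :=
  ∀ (δ n : ℕ), 1 ≤ δ → Gn k w δ → 1 ≤ n →
    FiniteDimensional k (HQ (VR k (σ := Sg w)) (IV k (JJ k w δ ^ n)) (w + 3)) ∧
    (∀ (m : ℕ) (v : Fin m → L k w), LinearIndependent k v →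
      (∀ i, v i ∈ KM k w ((2 * δ * n - 1 : ℕ) : ℤ)) →
      m ≤ Module.finrank k (HQ (VR k (σ := Sg w)) (IV k (JJ k w δ ^ n)) (w + 3))) ∧
    (∀ g ∈ KM k w ((2 * δ * n - 1 : ℕ) : ℤ), g ≠ 0 → ∀ ω, HomW ω g →
      ∃ c ∈ ZQ (VR k (σ := Sg w)) (IV k (JJ k w δ ^ n)) (w + 4),
        (∀ j, HomL k (ω + 3 + 2 * δ * n) (c j)) ∧
        c ∉ BQ (VR k (σ := Sg w)) (IV k (JJ k w δ ^ n)) (w + 3))

end Spec

end Pool.Agent.T2H37.LB
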