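import Pool.Agent.T2H37.LB.StmA
import Pool.Agent.T2H37.LB.StmC

set_option autoImplicit false

namespace Pool.Agent.T2H37.LB

open Finset MvPolynomial

namespace C14

variable {k : Type} [Field k] {w : ℕ}

theorem rst_eq_self {σ : Type} {P : (σ → ℤ) → Prop} {f : LR k σ} (h : ∀ u, f.coeff u ≠ 0 → P u) :
    rst k P f = f := by
  classical
  ext u
  by_cases hP : P u
  · exact Finsupp.filter_apply_pos _ _ hP
  · refine (Finsupp.filter_apply_neg _ _ hP).trans ?_
    by_contra h'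
    exact hP (h u (Ne.symm h'))

theorem rst_eq_zero {σ : Type} {P : (σ → ℤ) → Prop} {f : LR k σ} (h : ∀ u, f.coeff u ≠ 0 → ¬ P u) :
    rst k P f = 0 := by
  classical
  ext u
  by_cases hP : P u
  · refine (Finsupp.filter_apply_pos _ _ hP).trans ?_
    by_contra h'
    exact h u h' hP
  · exact Finsupp.filter_apply_neg _ _ hP

theorem cmp_self {m r : ℤ} {s : Finset (GG w)} {f : LR k (Sg w)} (hf : f ∈ VP k m r s) :
    cmp k m r f = f :=
  rst_eq_self fun u hu => ⟨(hf u hu).1, (hf u hu).2.1⟩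

theorem cmp_other {m r m' r' : ℤ} {s : Finset (GG w)} {f : LR k (Sg w)} (hf : f ∈ VP k m r s)
    (h : ¬ (m' = m ∧ r' = r)) : cmp k m' r' f = 0 :=
  rst_eq_zero fun u hu hu' => h ⟨hu'.1.symm.trans (hf u hu).1, hu'.2.symm.trans (hf u hu).2.1⟩

theorem VP_le (m r : ℤ) (s : Finset (GG w)) : VP k m r s ≤ VR k (inS s) :=
  fun _ hf u hu => (hf u hu).2.2

/-- `KM` as a submodule -/
def KMs (k : Type) [Field k] (w : ℕ) (r : ℤ) : Submodule k (L k w) where
  carrier := KM k w r
  zero_mem' := ⟨zero_mem _, by simp [con], by simp [con]⟩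
  add_mem' := by
    rintro a b ⟨a1, a2, a3⟩ ⟨b1, b2, b3⟩
    refine ⟨add_mem a1 b1, ?_, ?_⟩
    · rw [con] at a2 b2 ⊢
      rw [mul_add, map_add, a2, b2, add_zero]
    · rw [con] at a3 b3 ⊢
      rw [mul_add, map_add, a3, b3, add_zero]
  smul_mem' := by
    rintro c a ⟨a1, a2, a3⟩
    refine ⟨Submodule.smul_mem _ _ a1, ?_, ?_⟩
    · rw [con] at a2 ⊢
      rw [mul_smul_comm, map_smul, a2, smul_zero]
    · rw [con] at a3 ⊢
      rw [mul_smul_comm, map_smul, a3, smul_zero]

theorem KM_finite (hb : KMbdd k w) (r : ℕ) :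
    {u : Var w → ℤ | ∃ g ∈ KM k w r, g.coeff u ≠ 0}.Finite := by
  obtain ⟨M, hM⟩ := hb r
  refine (Set.finite_Icc (fun _ => -(|M| + r + w + 3)) (fun _ => (|M| + r + w + 3))).subset ?_
  rintro u ⟨g, hg, hu⟩
  obtain ⟨hP, h1, h2, h3, n1, n2, n3, n4⟩ := hg.1 u hu
  have h4 := hM g hg u hu
  have hMa : M ≤ |M| := le_abs_self M
  have hMb : 0 ≤ |M| := abs_nonneg M
  have hw : (0 : ℤ) ≤ w := Int.natCast_nonneg w
  have hr : (0 : ℤ) ≤ r := Int.natCast_nonneg r
  have hts : ts u ≤ 0 := Finset.sum_nonpos fun l _ => (n3 l).le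
  have htl : ∀ l, ts u ≤ u (Var.t l) := by
    intro l
    have h5 : -u (Var.t l) ≤ ∑ l, -u (Var.t l) :=
      Finset.single_le_sum (f := fun l => -u (Var.t l)) (fun l _ => by have := n3 l; linarith)
        (Finset.mem_univ l)
    rw [Finset.sum_neg_distrib] at h5
    have h6 : ts u = ∑ l, u (Var.t l) := rfl
    linarith
  have g0 := n1 0
  have g1 := n1 1
  have a0 := n2 0
  have a1 := n2 1
  have y0 := n4 0
  have y1 := n4 1
  obtain ⟨p0, p1⟩ := hP
  simp only [wt, hs, gs, as, ys] at h1 h2 h3 h4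
  have key : ∀ v, -(|M| + r + w + 3) ≤ u v ∧ u v ≤ |M| + r + w + 3 := by
    intro v
    cases v with
    | g i => fin_cases i <;> simp only [Fin.mk_zero, Fin.mk_one, Fin.zero_eta, Fin.isValue] <;>
        constructor <;> linarith
    | h i => fin_cases i <;> simp only [Fin.mk_zero, Fin.mk_one, Fin.zero_eta, Fin.isValue] <;>
        constructor <;> linarith
    | a i => fin_cases i <;> simp only [Fin.mk_zero, Fin.mk_one, Fin.zero_eta, Fin.isValue] <;>
        constructor <;> linarith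
    | y i => fin_cases i <;> simp only [Fin.mk_zero, Fin.mk_one, Fin.zero_eta, Fin.isValue] <;>
        constructor <;> linarith
    | t l =>
      have := htl l
      have := n3 l
      constructor <;> linarith
  exact ⟨fun v => (key v).1, fun v => (key v).2⟩

theorem KMs_fin (hb : KMbdd k w) (r : ℕ) : FiniteDimensional k (KMs k w r) := by
  have hS := KM_finite hb r
  set S := {u : Var w → ℤ | ∃ g ∈ KM k w r, g.coeff u ≠ 0} with hSdef
  have : Finite S := hS.to_subtype
  let T : KMs k w r →ₗ[k] (S → k) :=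
    { toFun := fun g s => g.1.coeff s.1
      map_add' := fun a b => rfl
      map_smul' := fun a b => rfl }
  refine Module.Finite.of_injective T ?_
  rw [← LinearMap.ker_eq_bot, LinearMap.ker_eq_bot']
  intro g hg
  apply Subtype.ext
  ext u
  by_contra hne
  have hu : u ∈ S := ⟨g.1, g.2, hne⟩
  exact hne (congrFun hg ⟨u, hu⟩)

end C14

open C14 in
/-- PACKAGE C14. -/
theorem Asm_proof (k : Type) [Field k] (w : ℕ) (hR : RestT k w) (hD : DecT k w) (hP : PieceT k w)
    (hK : KMbdd k w) : Asm k w := by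
  intro δ n hδ hG hn
  obtain ⟨R1, -, -, R4⟩ := hR δ n (w + 4)
  obtain ⟨-, R2, R3, -⟩ := hR δ n (w + 3)
  have D1 := (hD δ n (w + 4) hG).1
  have D2 := (hD δ n (w + 3) hG).2
  choose Θ hΘ1 hΘ2 hΘ3 using hP δ n
  let co : ∀ m r : ℕ, ZQ (VR k (σ := Sg w)) (IV k (JJ k w δ ^ n)) (w + 4) →ₗ[k]
      ZQ (VP k (w := w) m r) (IJ k w δ n m r) (w + 4) := fun m r =>
    { toFun := fun c => ⟨fun j => cmp k m r (rT c.1 j), ((D1 _).1 (R1 c.1 c.2)).2 m r⟩
      map_add' := fun a b => by
        apply Subtype.ext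
        funext j
        exact map_add _ _ _
      map_smul' := fun a b => by
        apply Subtype.ext
        funext j
        exact (cmp k m r).map_smul a (rT b.1 j) }
  have hIJ : ∀ m r : ℕ, ¬ (m < 2 * n ∧ r < 2 * δ * n) → ∀ s, IJ k w δ n m r s = VP k m r s := by
    intro m r hmr s
    have hle : 2 * δ * (n - m / 2) ≤ r := by
      by_cases hm : m < 2 * n
      · have hr : 2 * δ * n ≤ r := by
          by_contra h
          exact hmr ⟨hm, not_le.1 h⟩
        exact (Nat.mul_le_mul_left _ (Nat.sub_le _ _)).trans hr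
      · have : n - m / 2 = 0 := by omega
        rw [this, mul_zero]
        exact Nat.zero_le _
    rw [IJ, if_pos hle]
  have hker : ∀ c : ZQ (VR k (σ := Sg w)) (IV k (JJ k w δ ^ n)) (w + 4),
      (∀ m r : ℕ, m < 2 * n → r < 2 * δ * n → Θ m r (co m r c) = 0) →
      c.1 ∈ BQ (VR k (σ := Sg w)) (IV k (JJ k w δ ^ n)) (w + 3) := by
    intro c hc
    refine R3 c.1 (Submodule.mem_inf.1 c.2).1 ?_
    have h1 := R1 c.1 c.2
    refine (D2 _).2 ⟨(Submodule.mem_inf.1 h1).1, fun m r => ?_⟩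
    by_cases hmr : m < 2 * n ∧ r < 2 * δ * n
    · exact (hΘ2 m r (co m r c)).1 (hc m r hmr.1 hmr.2)
    · have h2 := (Submodule.mem_inf.1 (co m r c).2).1
      refine Submodule.mem_sup_right ?_
      intro j
      rw [hIJ m r hmr]
      exact h2 j
  have hker2 : ∀ c : ZQ (VR k (σ := Sg w)) (IV k (JJ k w δ ^ n)) (w + 4),
      c.1 ∈ BQ (VR k (σ := Sg w)) (IV k (JJ k w δ ^ n)) (w + 3) →
      ∀ m r : ℕ, Θ m r (co m r c) = 0 := by
    intro c hc m r
    exact (hΘ2 m r (co m r c)).2 (((D2 _).1 (R2 c.1 hc)).2 m r)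
  have honto : ∀ m r : ℕ, ∀ c : ZQ (VP k (w := w) m r) (IJ k w δ n m r) (w + 4),
      ∃ c' : ZQ (VR k (σ := Sg w)) (IV k (JJ k w δ ^ n)) (w + 4), co m r c' = c ∧
        ∀ j, c'.1 j = 0 ∨ ∃ j', c'.1 j = c.1 j' := by
    intro m r c
    obtain ⟨c1, c2⟩ := Submodule.mem_inf.1 c.2
    have h1 : c.1 ∈ ZQ (fun s => VR k (inS s)) (fun s => IV k (JJ k w δ ^ n) (inS s)) (w + 4) := by
      refine (D1 _).2 ⟨fun j => VP_le _ _ _ (c1 j), fun m' r' => ?_⟩
      by_cases h : m' = m ∧ r' = r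
      · obtain ⟨rfl, rfl⟩ := h
        have h2 : (fun j => cmp k (m' : ℤ) (r' : ℤ) (c.1 j)) = c.1 := funext fun j => cmp_self (c1 j)
        rw [h2]
        exact c.2
      · have h2 : (fun j => cmp k (m' : ℤ) (r' : ℤ) (c.1 j)) = 0 :=
          funext fun j => cmp_other (c1 j) (by
            rintro ⟨h3, h4⟩
            exact h ⟨Int.natCast_inj.1 h3, Int.natCast_inj.1 h4⟩)
        rw [h2]
        exact zero_mem _
    obtain ⟨c', hc', hc1, hc2⟩ := R4 _ h1
    refine ⟨⟨c', hc'⟩, ?_, hc2⟩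
    apply Subtype.ext
    funext j
    show cmp k m r (rT c' j) = c.1 j
    rw [hc1]
    exact cmp_self (c1 j)
  -- the map to a finite-dimensional space
  have hfin : ∀ x : Fin (2 * n) × Fin (2 * δ * n), FiniteDimensional k (KMs k w ((x.2 : ℕ) : ℤ)) :=
    fun x => KMs_fin hK x.2
  let F : ZQ (VR k (σ := Sg w)) (IV k (JJ k w δ ^ n)) (w + 4) →ₗ[k]
      (∀ x : Fin (2 * n) × Fin (2 * δ * n), KMs k w ((x.2 : ℕ) : ℤ)) :=
    LinearMap.pi fun x => (LinearMap.codRestrict (KMs k w ((x.2 : ℕ) : ℤ)) (Θ x.1 x.2)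
      (hΘ1 x.1 x.2)).comp (co x.1 x.2)
  have hF : (BQ (VR k (σ := Sg w)) (IV k (JJ k w δ ^ n)) (w + 3)).submoduleOf
      (ZQ (VR k (σ := Sg w)) (IV k (JJ k w δ ^ n)) (w + 4)) = LinearMap.ker F := by
    ext c
    rw [Submodule.submoduleOf, Submodule.mem_comap, LinearMap.mem_ker]
    constructor
    · intro h
      funext x
      apply Subtype.ext
      exact hker2 c h x.1 x.2
    · intro h
      refine hker c fun m r hm hr => ?_
      have := congrFun h (⟨m, hm⟩, ⟨r, hr⟩)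
      exact congrArg Subtype.val this
  have hfd : FiniteDimensional k (HQ (VR k (σ := Sg w)) (IV k (JJ k w δ ^ n)) (w + 3)) := by
    have h1 : FiniteDimensional k
        (ZQ (VR k (σ := Sg w)) (IV k (JJ k w δ ^ n)) (w + 4) ⧸ LinearMap.ker F) :=
      Module.Finite.of_injective F.quotKerEquivRange.toLinearMap F.quotKerEquivRange.injective
    exact Module.Finite.equiv (Submodule.quotEquivOfEq _ _ hF).symm
  have hcast : ((2 * δ * n - 1 : ℕ) : ℤ) = 2 * δ * n - 1 := by
    have h1 : 1 ≤ 2 * δ * n := Nat.one_le_iff_ne_zero.2 (by positivity)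
    rw [Nat.cast_sub h1]
    push_cast
    ring
  obtain ⟨hs1, hs2⟩ := hΘ3 1 (2 * δ * n - 1) hδ hn rfl rfl
  refine ⟨hfd, ?_, ?_⟩
  · intro m v hv hvK
    -- the map from the quotient
    let Gm : HQ (VR k (σ := Sg w)) (IV k (JJ k w δ ^ n)) (w + 3) →ₗ[k] L k w :=
      Submodule.liftQ _ ((Θ 1 (2 * δ * n - 1)).comp (co 1 (2 * δ * n - 1))) (by
        intro c hc
        rw [LinearMap.mem_ker]
        exact hker2 c hc _ _)
    have h1 : ∀ i, ∃ x : HQ (VR k (σ := Sg w)) (IV k (JJ k w δ ^ n)) (w + 3), Gm x = v i := by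
      intro i
      obtain ⟨c, hc⟩ := hs1 (v i) (hvK i)
      obtain ⟨c', hc', _⟩ := honto _ _ c
      refine ⟨Submodule.Quotient.mk c', ?_⟩
      show (Θ 1 (2 * δ * n - 1)) (co 1 (2 * δ * n - 1) c') = v i
      rw [hc', hc]
    choose x hx using h1
    have h2 : LinearIndependent k x := by
      apply LinearIndependent.of_comp Gm
      have : Gm ∘ x = v := funext hx
      rw [this]
      exact hv
    simpa using h2.fintype_card_le_finrank
  · intro g hg hg0 ω hω
    obtain ⟨c, hc, hch⟩ := hs2 g hg ω hω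
    obtain ⟨c', hc', hc2⟩ := honto _ _ c
    refine ⟨c'.1, c'.2, ?_, ?_⟩
    · intro j
      rcases hc2 j with h | ⟨j', h⟩
      · rw [h]
        exact fun u hu => absurd rfl hu
      · rw [h]
        have := hch j'
        intro u hu
        rw [this u hu, hcast]
        push_cast
        ring
    · intro hB
      apply hg0
      have := hker2 c' hB 1 (2 * δ * n - 1)
      rw [hc', hc] at this
      exact this

end Pool.Agent.T2H37.LB
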