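import Pool.Agent.T2H37.LB.StmC

/-!
# LB, package C2: `CechIso` from `LocMap`
-/

set_option autoImplicit false

namespace Pool.Agent.T2H37.LB

open Finset MvPolynomial

namespace C2

/-- a quotient isomorphism -/
theorem quot_iso {k A B : Type} [Field k] [AddCommGroup A] [Module k A] [AddCommGroup B] (S : Submodule k A)
    (G : A →+ B) (hG : Function.Surjective G) (hker : ∀ a, G a = 0 ↔ a ∈ S) :
    ∃ F : (A ⧸ S) ≃+ B, ∀ a, F (Submodule.Quotient.mk a) = G a := by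
  classical
  set rep : (A ⧸ S) → A := Function.surjInv (Submodule.Quotient.mk_surjective S) with hrep
  have hr : ∀ x, Submodule.Quotient.mk (rep x) = x := Function.surjInv_eq (Submodule.Quotient.mk_surjective S)
  have hf : ∀ a, G (rep (Submodule.Quotient.mk a)) = G a := by
    intro a
    have h1 : rep (Submodule.Quotient.mk a) - a ∈ S := by
      rw [← Submodule.Quotient.eq, hr]
    rw [← sub_eq_zero, ← map_sub, hker]
    exact h1
  have hadd : ∀ x y, G (rep (x + y)) = G (rep x) + G (rep y) := by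
    intro x y
    have h1 : x + y = Submodule.Quotient.mk (rep x + rep y) := by
      rw [Submodule.Quotient.mk_add, hr, hr]
    rw [h1, hf, map_add]
  refine ⟨AddEquiv.ofBijective (AddMonoidHom.mk' (fun x => G (rep x)) hadd) ⟨?_, ?_⟩, hf⟩
  · rw [injective_iff_map_eq_zero]
    intro x hx
    have h2 : rep x ∈ S := (hker _).1 hx
    rw [← hr x]
    exact (Submodule.Quotient.mk_eq_zero S).2 h2
  · intro b
    obtain ⟨a, rfl⟩ := hG b
    exact ⟨Submodule.Quotient.mk a, hf a⟩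

variable {k : Type} [Field k] {σ : Type} [DecidableEq σ]

theorem dd_apply {G A : Type} [AddCommGroup A] [Module k A] (i : ℕ) (c : (Fin i → G) → A) (j : Fin (i + 1) → G) :
    dd k i c j = ∑ m : Fin (i + 1), ((-1 : ℤ) ^ (m : ℕ)) • c (j ∘ m.succAbove) := by
  simp [dd, LinearMap.pi_apply, LinearMap.sum_apply]

theorem dd_mem {G A : Type} [AddCommGroup A] [Module k A] [DecidableEq G] {V : Finset G → Submodule k A}
    (hV : ∀ s t, s ⊆ t → V s ≤ V t) {i : ℕ} {c : (Fin i → G) → A} (hc : c ∈ CV V i) : dd k i c ∈ CV V (i + 1) := by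
  intro j
  rw [dd_apply]
  refine Submodule.sum_mem _ fun m _ => ?_
  have h1 := hV _ _ (image_succAbove j m) (hc (j ∘ m.succAbove))
  rw [← Int.cast_smul_eq_zsmul k]
  exact Submodule.smul_mem _ _ h1

theorem dif_apply (M : Type) [AddCommGroup M] [Module (MvPolynomial σ k) M] (i : ℕ) (c : Cochain k σ M i)
    (j : Fin (i + 1) → σ) :
    dif k σ M i c j = ∑ m : Fin (i + 1), ((-1 : ℤ) ^ (m : ℕ)) • res k M (image_succAbove j m) (c (j ∘ m.succAbove)) := by
  unfold dif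
  rw [LinearMap.pi_apply, LinearMap.sum_apply]
  rfl

end C2

open C2 in
theorem CechIso_proof (k : Type) [Field k] (hL : LocMap k) : CechIso k := by
  classical
  intro σ _ _ I i
  obtain ⟨φ, hsurj, hker, hres, hsm, hhom⟩ := hL σ I
  have hmono : ∀ s t : Finset σ, s ⊆ t → VR k s ≤ VR k t := fun s t h => VR_mono k h
  -- the map on cochains
  let Φ : ∀ p : ℕ, CV (VR k (σ := σ)) p →+ Cochain k σ (MvPolynomial σ k ⧸ I) p := fun p =>
    { toFun := fun c j => φ (univ.image j) ⟨c.1 j, c.2 j⟩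
      map_zero' := by
        funext j
        exact map_zero (φ (univ.image j))
      map_add' := by
        intro a b
        funext j
        exact map_add (φ (univ.image j)) ⟨a.1 j, a.2 j⟩ ⟨b.1 j, b.2 j⟩ }
  have hΦa : ∀ p (c : CV (VR k (σ := σ)) p) j, Φ p c j = φ (univ.image j) ⟨c.1 j, c.2 j⟩ := fun p c j => rfl
  have hΦs : ∀ p, Function.Surjective (Φ p) := by
    intro p b
    choose v hv using fun j => hsurj (univ.image j) (b j)
    exact ⟨⟨fun j => (v j).1, fun j => (v j).2⟩, funext fun j => hv j⟩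
  have hΦk : ∀ p (c : CV (VR k (σ := σ)) p), Φ p c = 0 ↔ c.1 ∈ CV (IV k I) p := by
    intro p c
    constructor
    · intro h j
      exact (hker _ _).1 (congrFun h j)
    · intro h
      funext j
      exact (hker _ _).2 (h j)
  have hΦd : ∀ p (c : CV (VR k (σ := σ)) p),
      dif k σ (MvPolynomial σ k ⧸ I) p (Φ p c) = Φ (p + 1) ⟨dd k p c.1, dd_mem hmono c.2⟩ := by
    intro p c
    funext j
    rw [dif_apply, hΦa]
    have h1 : (⟨dd k p c.1 j, (dd_mem hmono c.2) j⟩ : VR k (univ.image j)) =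
        ∑ m : Fin (p + 1), ((-1 : ℤ) ^ (m : ℕ)) •
          (⟨c.1 (j ∘ m.succAbove), VR_mono k (image_succAbove j m) (c.2 _)⟩ : VR k (univ.image j)) := by
      apply Subtype.ext
      refine (dd_apply p c.1 j).trans ?_
      rw [Submodule.coe_sum]
      rfl
    refine Eq.trans ?_ (congrArg (φ (univ.image j)) h1.symm)
    rw [map_sum]
    refine Finset.sum_congr rfl fun m _ => ?_
    rw [map_zsmul]
    exact congrArg _ (hres _ _ (image_succAbove j m) ⟨c.1 (j ∘ m.succAbove), c.2 (j ∘ m.succAbove)⟩)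
  have hΦm : ∀ p (a : k) (c : CV (VR k (σ := σ)) p), Φ p (a • c) = (C a : MvPolynomial σ k) • Φ p c := by
    intro p a c
    funext j
    exact hsm (univ.image j) a ⟨c.1 j, c.2 j⟩
  -- cocycles
  have hZ : ∀ p (c : CV (VR k (σ := σ)) p), Φ p c ∈ Zc k σ (MvPolynomial σ k ⧸ I) p ↔ c.1 ∈ ZQ (VR k) (IV k I) p := by
    intro p c
    unfold Zc ZQ
    rw [LinearMap.mem_ker, hΦd, hΦk, Submodule.mem_inf, Submodule.mem_comap]
    exact ⟨fun h => ⟨c.2, h⟩, fun h => h.2⟩
  -- coboundaries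
  have hB : ∀ p (c : CV (VR k (σ := σ)) (p + 1)),
      Φ (p + 1) c ∈ Bc k σ (MvPolynomial σ k ⧸ I) (p + 1) ↔ c.1 ∈ BQ (VR k) (IV k I) p := by
    intro p c
    unfold BQ
    constructor
    · rintro ⟨b', hb'⟩
      obtain ⟨b, rfl⟩ := hΦs p b'
      rw [hΦd] at hb'
      have h1 : Φ (p + 1) (c - ⟨dd k p b.1, dd_mem hmono b.2⟩) = 0 := by
        rw [map_sub, hb', sub_self]
      rw [hΦk] at h1
      refine Submodule.mem_sup.2 ⟨dd k p b.1, ⟨b.1, b.2, rfl⟩, c.1 - dd k p b.1, h1, ?_⟩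
      rw [add_sub_cancel]
    · intro h
      obtain ⟨x, ⟨b, hb, rfl⟩, y, hy, hxy⟩ := Submodule.mem_sup.1 h
      refine ⟨Φ p ⟨b, hb⟩, ?_⟩
      rw [hΦd]
      have h1 : Φ (p + 1) (c - ⟨dd k p b, dd_mem hmono hb⟩) = 0 := by
        rw [hΦk]
        have h2 : (c - ⟨dd k p b, dd_mem hmono hb⟩ : CV (VR k (σ := σ)) (p + 1)).1 = y := by
          rw [Submodule.coe_sub, ← hxy]
          exact add_sub_cancel_left _ _
        rw [h2]
        exact hy
      rw [map_sub, sub_eq_zero] at h1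
      exact h1.symm
  constructor
  · let G : ZQ (VR k (σ := σ)) (IV k I) (i + 1) →+ LocalCoh k σ (MvPolynomial σ k ⧸ I) (i + 1) :=
      { toFun := fun c => Submodule.Quotient.mk ⟨Φ (i + 1) ⟨c.1, c.2.1⟩, (hZ (i + 1) ⟨c.1, c.2.1⟩).2 c.2⟩
        map_zero' := by
          rw [Submodule.Quotient.mk_eq_zero]
          have h1 : Φ (i + 1) ⟨(0 : ZQ (VR k (σ := σ)) (IV k I) (i + 1)).1, (0 : ZQ (VR k (σ := σ)) (IV k I) (i + 1)).2.1⟩
            = 0 := map_zero (Φ (i + 1))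
          have h2 : (⟨Φ (i + 1) ⟨(0 : ZQ (VR k (σ := σ)) (IV k I) (i + 1)).1,
            (0 : ZQ (VR k (σ := σ)) (IV k I) (i + 1)).2.1⟩, (hZ (i + 1) _).2
              (0 : ZQ (VR k (σ := σ)) (IV k I) (i + 1)).2⟩ : Zc k σ (MvPolynomial σ k ⧸ I) (i + 1)) = 0 :=
            Subtype.ext h1
          rw [h2]
          exact Submodule.zero_mem _
        map_add' := by
          intro a b
          rw [← Submodule.Quotient.mk_add]
          congr 1
          apply Subtype.ext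
          exact map_add (Φ (i + 1)) ⟨a.1, a.2.1⟩ ⟨b.1, b.2.1⟩ }
    have hGa : ∀ c, G c = Submodule.Quotient.mk ⟨Φ (i + 1) ⟨c.1, c.2.1⟩, (hZ (i + 1) ⟨c.1, c.2.1⟩).2 c.2⟩ :=
      fun c => rfl
    obtain ⟨F, hF⟩ := quot_iso ((BQ (VR k (σ := σ)) (IV k I) i).submoduleOf (ZQ (VR k (σ := σ)) (IV k I) (i + 1))) G
      (by
        intro x
        obtain ⟨⟨y, hy⟩, rfl⟩ := Submodule.Quotient.mk_surjective _ x
        obtain ⟨c, rfl⟩ := hΦs (i + 1) y
        exact ⟨⟨c.1, (hZ (i + 1) c).1 hy⟩, rfl⟩)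
      (by
        intro c
        rw [hGa, Submodule.Quotient.mk_eq_zero]
        exact hB i ⟨c.1, c.2.1⟩)
    refine ⟨F, fun a x => ?_⟩
    obtain ⟨c, rfl⟩ := Submodule.Quotient.mk_surjective _ x
    rw [← Submodule.Quotient.mk_smul, hF, hF, hGa, hGa, ← Submodule.Quotient.mk_smul]
    congr 1
    apply Subtype.ext
    exact hΦm (i + 1) a ⟨c.1, c.2.1⟩
  · rintro e ⟨c, hc, hce, hcB⟩
    refine ⟨Φ (i + 1) ⟨c, hc.1⟩, (hZ (i + 1) ⟨c, hc.1⟩).2 hc, fun j => ?_, fun h => hcB ((hB i ⟨c, hc.1⟩).1 h)⟩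
    rw [hΦa]
    refine hhom _ e _ ?_ (hce j)
    exact ⟨j 0, Finset.mem_image_of_mem _ (Finset.mem_univ _)⟩

end Pool.Agent.T2H37.LB
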