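import Pool.Agent.T2H37.LB.StmC

/-!
# LB, package C3: length and dimension
-/

set_option autoImplicit false

namespace Pool.Agent.T2H37.LB

open Finset MvPolynomial

namespace C3

theorem finrank_simple {k R M : Type} [Field k] [IsAlgClosed k] [CommRing R] [Algebra k R]
    [AddCommGroup M] [Module R M] [Module k M] [IsScalarTower k R M] [FiniteDimensional k M]
    [IsSimpleModule R M] : Module.finrank k M = 1 := by
  obtain ⟨I, hI, ⟨e⟩⟩ := isSimpleModule_iff_quot_maximal.mp (inferInstance : IsSimpleModule R M)
  have e' : M ≃ₗ[k] R ⧸ I := e.restrictScalars k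
  have : FiniteDimensional k (R ⧸ I) := Module.Finite.equiv e'
  have : IsDomain (R ⧸ I) := Ideal.Quotient.isDomain I
  rw [e'.finrank_eq]
  have hb : Function.Bijective (algebraMap k (R ⧸ I)) :=
    IsAlgClosed.algebraMap_bijective_of_isIntegral
  rw [← (LinearEquiv.ofBijective (Algebra.linearMap k (R ⧸ I)) hb).finrank_eq, Module.finrank_self]

theorem len_aux {k R : Type} [Field k] [IsAlgClosed k] [CommRing R] [Algebra k R]
    {M : Type} [AddCommGroup M] [Module R M] (h : IsFiniteLength R M) :
    ∀ [Module k M] [IsScalarTower k R M] [FiniteDimensional k M],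
      Module.length R M = (Module.finrank k M : ℕ∞) := by
  induction h with
  | of_subsingleton =>
    intro _ _ _
    rw [Module.length_eq_zero, Module.finrank_zero_of_subsingleton]
    rfl
  | @of_simple_quotient M _ _ N _ _ ih =>
    intro _ _ _
    have : FiniteDimensional k N :=
      FiniteDimensional.of_injective (N.subtype.restrictScalars k) N.injective_subtype
    have : FiniteDimensional k (M ⧸ N) :=
      Module.Finite.of_surjective (N.mkQ.restrictScalars k) N.mkQ_surjective
    rw [Module.length_eq_add_of_exact N.subtype N.mkQ N.injective_subtype N.mkQ_surjective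
      (LinearMap.exact_subtype_mkQ N), ih, Module.length_eq_one]
    have h2 := Submodule.finrank_quotient_add_finrank (N.restrictScalars k)
    have h3 : Module.finrank k (M ⧸ N) = 1 := finrank_simple (R := R)
    have h4 : Module.finrank k (M ⧸ N.restrictScalars k) = Module.finrank k (M ⧸ N) := rfl
    have h5 : Module.finrank k (N.restrictScalars k) = Module.finrank k N := rfl
    rw [← h2, h4, h5, h3]
    push_cast
    ring

end C3

/-- package C3 -/
theorem LenDim_proof (k : Type) [Field k] [IsAlgClosed k] : LenDim k := by
  intro σ _ N V _ _ _ _ _ F hF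
  let : Module k N := Module.compHom N (C : k →+* MvPolynomial σ k)
  have : IsScalarTower k (MvPolynomial σ k) N := ⟨fun a r x => by
    show (a • r) • x = (C a : MvPolynomial σ k) • (r • x)
    rw [MvPolynomial.smul_eq_C_mul, mul_smul]⟩
  let e : V ≃ₗ[k] N := { F with map_smul' := hF }
  have : FiniteDimensional k N := Module.Finite.equiv e
  have : IsNoetherian (MvPolynomial σ k) N := isNoetherian_of_tower k inferInstance
  have : IsArtinian (MvPolynomial σ k) N := isArtinian_of_tower k inferInstance
  rw [e.finrank_eq]
  exact C3.len_aux (isFiniteLength_iff_isNoetherian_isArtinian.2 ⟨inferInstance, inferInstance⟩)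

end Pool.Agent.T2H37.LB
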