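import Pool.Agent.T2H37.LB.C6

/-!
# LB, package C4: the algebra of the `Cd r` is generated in degrees `≤ δ`
-/

set_option autoImplicit false

namespace Pool.Agent.T2H37.LB

open Finset MvPolynomial

namespace C4

open LibC C6

variable {k : Type} [Field k] {w : ℕ}

theorem zd_add (a b : Sg w → ℤ) : zd (a + b) = zd a + zd b := rfl

theorem yd_add (a b : Sg w → ℤ) : yd (a + b) = yd a + yd b := by
  unfold yd
  simp only [Pi.add_apply]
  rw [Finset.sum_add_distrib]

/-- one term -/
theorem term_mem {δ r' rc : ℕ} {c : MvPolynomial (Sg w) k} (hc : c ∈ Cd k w rc) (h1 : rc ≤ δ)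
    (h2 : δ ≤ r') {d : Sg w →₀ ℕ} (a : k) (hz : zd (cs d) = 0) (hy : yd (cs d) + rc = r') :
    monomial d a * c ∈ YI k w ^ (r' - δ) * Ideal.span (Cd k w δ) := by
  have hyd : ∑ x : Fin 2 × Fin 2, d (Sum.inr (Sum.inl x)) = r' - rc := by
    have : ((∑ x : Fin 2 × Fin 2, d (Sum.inr (Sum.inl x)) : ℕ) : ℤ) = yd (cs d) := by
      push_cast
      rfl
    omega
  obtain ⟨y, hyle, hys⟩ := exists_le_sum (fun x : Fin 2 × Fin 2 => d (Sum.inr (Sum.inl x)))
    (r' - δ) (by rw [hyd]; omega)
  set yy : Sg w →₀ ℕ := Finsupp.equivFunOnFinite.symm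
    (Sum.elim (fun _ => 0) (Sum.elim y (fun _ => 0))) with hyy
  have hle : yy ≤ d := by
    intro i
    rcases i with g | x | z
    · simp [hyy]
    · simpa [hyy] using hyle x
    · simp [hyy]
  have hmon : monomial yy (1 : k) =
      ∏ x, (X (Sum.inr (Sum.inl x)) : MvPolynomial (Sg w) k) ^ y x := by
    rw [monomial_eq, C_1, one_mul, Finsupp.prod_fintype _ _ (by simp), Fintype.prod_sum_type,
      Fintype.prod_sum_type]
    simp [hyy]
  have hfac : monomial d a = monomial yy (1 : k) * monomial (d - yy) a := by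
    rw [monomial_mul, one_mul, add_tsub_cancel_of_le hle]
  rw [hfac, mul_assoc]
  refine Ideal.mul_mem_mul ?_ (Ideal.subset_span ?_)
  · rw [hmon, ← hys]
    exact prodY_mem y
  · refine ⟨?_, ?_⟩
    · have hcs : cs d = cs yy + cs (d - yy) := by
        funext i
        have := congrArg (fun e : Sg w →₀ ℕ => e i) (add_tsub_cancel_of_le hle)
        simp only [Finsupp.add_apply] at this
        show (d i : ℤ) = (yy i : ℤ) + ((d - yy) i : ℤ)
        rw [← this]
        push_cast
        rfl
      have hzyy : zd (cs yy) = 0 := by simp [zd, cs, hyy]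
      have hyyy : yd (cs yy) = ((r' - δ : ℕ) : ℤ) := by
        rw [← hys]
        unfold yd cs
        push_cast
        refine Finset.sum_congr rfl fun x _ => ?_
        simp [hyy]
      have hz' : zd (cs (d - yy)) = 0 := by
        rw [hcs, zd_add, hzyy, zero_add] at hz
        exact hz
      have hy' : yd (cs (d - yy)) = (δ : ℤ) - rc := by
        rw [hcs, yd_add, hyyy] at hy
        omega
      have hs : AddMonoidAlgebra.single (cs (d - yy)) a ∈ VP k 0 ((δ : ℤ) - rc) (∅ : Finset (GG w)) := by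
        refine mem_VP.2 (single_mem_SP ⟨hz', hy', fun i hi => ?_⟩)
        exact absurd (Int.natCast_nonneg _) (not_le.2 hi)
      have h3 := VI_mul hc.1 hs
      rw [Finset.union_empty, add_zero] at h3
      rw [map_mul, iR_monomial, mul_comm]
      have h4 : ((rc : ℤ) + ((δ : ℤ) - rc)) = δ := by ring
      rw [h4] at h3
      exact h3
    · obtain ⟨D, hD⟩ := hc.2
      exact ⟨(d - yy).degree + D, (isHomogeneous_monomial a rfl).mul hD⟩

end C4

open C4 C6 LibC in
theorem GenDelta_proof (k : Type) [Field k] (w : ℕ) : GenDelta k w := by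
  classical
  set S : Set (MvPolynomial (Sg w) k) := {f | ∃ r, f ∈ Cd k w r} with hS
  have hfg : (Submodule.span (MvPolynomial (Sg w) k) S).FG := IsNoetherian.noetherian _
  obtain ⟨T, hTS, hT⟩ := Submodule.fg_span_iff_fg_span_finset_subset S |>.1 hfg
  choose! rc hrc using fun c (hc : c ∈ T) => hTS hc
  set δ := 1 + ∑ c ∈ T, rc c with hδ
  have hle : ∀ c ∈ T, rc c ≤ δ := by
    intro c hc
    have := Finset.single_le_sum (f := rc) (fun _ _ => Nat.zero_le _) hc
    omega
  refine ⟨δ, by omega, ?_⟩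
  intro r' hr' f hf
  have hfT : f ∈ Submodule.span (MvPolynomial (Sg w) k) (T : Set (MvPolynomial (Sg w) k)) := by
    rw [← hT]
    exact Submodule.subset_span ⟨r', hf⟩
  obtain ⟨a, _, ha⟩ := Submodule.mem_span_finset.1 hfT
  set P : (Sg w → ℤ) → Prop := fun u => zd u = 0 ∧ yd u = r' with hP
  have hpiece : ∀ c ∈ T, ∀ d ∈ (a c).support, rs P (iR k (monomial d (coeff d (a c)) * c)) =
      if zd (cs d) = 0 ∧ yd (cs d) + rc c = r' then iR k (monomial d (coeff d (a c)) * c) else 0 := by
    intro c hc d _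
    have h1 : iR k (monomial d (coeff d (a c)) * c) ∈
        SP k (fun u : Sg w → ℤ => zd u = zd (cs d) ∧ yd u = yd (cs d) + rc c) := by
      rw [map_mul, iR_monomial]
      refine SP_mul (P := fun u => u = cs d) ?_ (single_mem_SP rfl) (mem_VP.1 (hrc c hc).1.1)
      rintro u v rfl ⟨h2, h3, _⟩
      rw [zd_add, yd_add, h2, h3, add_zero]
      exact ⟨rfl, rfl⟩
    split_ifs with h
    · refine rs_self (SP_mono ?_ h1)
      rintro u ⟨h2, h3⟩
      exact ⟨by rw [h2, h.1], by rw [h3, h.2]⟩
    · have h4 : rs P (iR k (monomial d (coeff d (a c)) * c)) =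
          rs (fun _ => False) (iR k (monomial d (coeff d (a c)) * c)) := by
        refine rs_congr h1 ?_
        rintro u ⟨h2, h3⟩
        constructor
        · rintro ⟨h5, h6⟩
          exact h ⟨by rw [← h2, h5], by rw [← h3, h6]⟩
        · intro h'
          exact h'.elim
      rw [h4]
      ext u
      rw [coeff_rs, if_neg not_false]
      rfl
  have hfe : f = ∑ c ∈ T, ∑ d ∈ (a c).support,
      if zd (cs d) = 0 ∧ yd (cs d) + rc c = r' then monomial d (coeff d (a c)) * c else 0 := by
    apply iR_injective k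
    have h1 : iR k f = rs P (iR k f) :=
      (rs_self (SP_mono (fun u h => ⟨h.1, h.2.1⟩) (mem_VP.1 hf.1.1))).symm
    have h2 : f = ∑ c ∈ T, ∑ d ∈ (a c).support, monomial d (coeff d (a c)) * c := by
      conv_lhs => rw [← ha]
      refine Finset.sum_congr rfl fun c _ => ?_
      rw [smul_eq_mul, ← Finset.sum_mul, ← (a c).as_sum]
    rw [h1]
    conv_lhs => rw [h2]
    rw [map_sum, map_sum, map_sum]
    refine Finset.sum_congr rfl fun c hc => ?_
    rw [map_sum, map_sum, map_sum]
    refine Finset.sum_congr rfl fun d hd => ?_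
    rw [hpiece c hc d hd]
    split_ifs
    · rfl
    · rw [map_zero]
  rw [hfe]
  refine Ideal.sum_mem _ fun c hc => Ideal.sum_mem _ fun d _ => ?_
  split_ifs with h
  · exact term_mem (hrc c hc) (hle c hc) hr' _ h.1 h.2
  · exact Ideal.zero_mem _

end Pool.Agent.T2H37.LB
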