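import Pool.Agent.T2H37.LB.LibC

/-!
# LB, package C5: `J^n ⊆ IJ`
-/

set_option autoImplicit false

namespace Pool.Agent.T2H37.LB

open Finset MvPolynomial

namespace C5

open LibC

variable {k : Type} [Field k] {w : ℕ}

theorem VP_mulN {m r a b : ℕ} {s s' t : Finset (GG w)} {f g : LR k (Sg w)}
    (hf : f ∈ VP k m r s) (hg : g ∈ VP k a b s') (ht : s ∪ s' = t) :
    f * g ∈ VP k ((m + a : ℕ) : ℤ) ((r + b : ℕ) : ℤ) t := by
  have h := VP_mul hf hg
  rw [ht] at h
  push_cast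
  exact h

theorem VI_mulN {m r a b : ℕ} {s s' t : Finset (GG w)} {f g : LR k (Sg w)}
    (hf : f ∈ VI k m r s) (hg : g ∈ VP k a b s') (ht : s ∪ s' = t) :
    f * g ∈ VI k ((m + a : ℕ) : ℤ) ((r + b : ℕ) : ℤ) t := by
  have h := VI_mul hf hg
  rw [ht] at h
  push_cast
  exact h

theorem IJ_cases {δ n m r : ℕ} {s : Finset (GG w)} {f : LR k (Sg w)} (h : f ∈ IJ k w δ n m r s) :
    (2 * δ * (n - m / 2) ≤ r ∧ f ∈ VP k m r s) ∨
    (m % 2 = 1 ∧ 2 * δ * (n - 1 - m / 2) + δ ≤ r ∧ f ∈ VI k m r s) ∨ f = 0 := by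
  unfold IJ at h
  split_ifs at h with c1 c2
  · exact Or.inl ⟨c1, h⟩
  · exact Or.inr (Or.inl ⟨c2.1, c2.2, h⟩)
  · exact Or.inr (Or.inr ((Submodule.mem_bot k).1 h))

theorem IJ_one {δ n m r : ℕ} {s : Finset (GG w)} {f : LR k (Sg w)} (h : f ∈ VP k m r s)
    (h1 : 2 * δ * (n - m / 2) ≤ r) : f ∈ IJ k w δ n m r s := by
  unfold IJ
  rw [if_pos h1]
  exact h

theorem IJ_two {δ n m r : ℕ} {s : Finset (GG w)} {f : LR k (Sg w)} (h : f ∈ VI k m r s)
    (h1 : m % 2 = 1) (h2 : 2 * δ * (n - 1 - m / 2) + δ ≤ r) : f ∈ IJ k w δ n m r s := by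
  unfold IJ
  split_ifs with c1 c2
  · exact h.1
  · exact h
  · exact absurd ⟨h1, h2⟩ c2

theorem IJ_VP {δ n m r : ℕ} {s : Finset (GG w)} {f : LR k (Sg w)} (h : f ∈ IJ k w δ n m r s) :
    f ∈ VP k m r s := by
  rcases IJ_cases h with ⟨_, h⟩ | ⟨_, _, h⟩ | h
  · exact h
  · exact h.1
  · rw [h]
    exact Submodule.zero_mem _

/-- arithmetic -/
theorem ar1 {δ n x y r : ℕ} (h : x ≤ y) (h1 : 2 * δ * (n - x) ≤ r) : 2 * δ * (n - y) ≤ r :=
  le_trans (Nat.mul_le_mul_left _ (by omega)) h1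

/-- multiplication by `VP a b` -/
theorem mulB {δ n m r a b : ℕ} {s s' : Finset (GG w)} {F G : LR k (Sg w)} (hs : s ∪ s' = s)
    (hF : F ∈ IJ k w δ n m r s) (hG : G ∈ VP k a b s') :
    F * G ∈ IJ k w δ n (m + a) (r + b) s := by
  rcases IJ_cases hF with ⟨h1, h⟩ | ⟨h1, h2, h⟩ | h
  · refine IJ_one (VP_mulN h hG hs) ?_
    exact (ar1 (by omega) h1).trans (by omega)
  · rcases Nat.eq_zero_or_pos a with rfl | ha
    · exact IJ_two (VI_mulN h hG hs) (by simpa using h1) (by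
        rw [add_zero]
        omega)
    · refine IJ_one (VP_mulN h.1 hG hs) ?_
      have h3 : m / 2 + 1 ≤ (m + a) / 2 := by omega
      have h4 : 2 * δ * (n - (m / 2 + 1)) ≤ r := by
        rw [show n - (m / 2 + 1) = n - 1 - m / 2 by omega]
        omega
      exact (ar1 h3 h4).trans (by omega)
  · rw [h, zero_mul]
    exact Submodule.zero_mem _

/-- multiplication by `VP a (2δ + b)` -/
theorem mulY {δ n m r a b : ℕ} {s s' : Finset (GG w)} {F G : LR k (Sg w)} (hs : s ∪ s' = s)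
    (hF : F ∈ IJ k w δ n m r s) (hG : G ∈ VP k a ((2 * δ + b : ℕ) : ℤ) s') :
    F * G ∈ IJ k w δ (n + 1) (m + a) (r + (2 * δ + b)) s := by
  have key : ∀ x : ℕ, 2 * δ * (n + 1 - x) ≤ 2 * δ * (n - x) + 2 * δ := by
    intro x
    calc 2 * δ * (n + 1 - x) ≤ 2 * δ * ((n - x) + 1) := Nat.mul_le_mul_left _ (by omega)
      _ = 2 * δ * (n - x) + 2 * δ := by ring
  rcases IJ_cases hF with ⟨h1, h⟩ | ⟨h1, h2, h⟩ | h
  · refine IJ_one (VP_mulN h hG hs) ?_
    have h3 := key ((m + a) / 2)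
    have h4 : 2 * δ * (n - (m + a) / 2) ≤ r := ar1 (by omega) h1
    omega
  · have h5 : 2 * δ * (n - m / 2) ≤ 2 * δ * (n - 1 - m / 2) + 2 * δ := by
      calc 2 * δ * (n - m / 2) ≤ 2 * δ * ((n - 1 - m / 2) + 1) := Nat.mul_le_mul_left _ (by omega)
        _ = 2 * δ * (n - 1 - m / 2) + 2 * δ := by ring
    rcases Nat.eq_zero_or_pos a with rfl | ha
    · refine IJ_two (VI_mulN h hG hs) (by simpa using h1) ?_
      rw [add_zero, Nat.add_sub_cancel]
      omega
    · refine IJ_one (VP_mulN h.1 hG hs) ?_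
      have h3 : m / 2 + 1 ≤ (m + a) / 2 := by omega
      have h6 : 2 * δ * (n + 1 - (m / 2 + 1)) ≤ r + (2 * δ + b) := by
        rw [show n + 1 - (m / 2 + 1) = n - m / 2 by omega]
        omega
      exact ar1 h3 h6
  · rw [h, zero_mul]
    exact Submodule.zero_mem _

/-- multiplication by `z²` -/
theorem mulZ {δ n m r : ℕ} {s s' : Finset (GG w)} {F G : LR k (Sg w)} (hs : s ∪ s' = s)
    (hF : F ∈ IJ k w δ n m r s) (hG : G ∈ VP k (2 : ℕ) (0 : ℕ) s') :
    F * G ∈ IJ k w δ (n + 1) (m + 2) (r + 0) s := by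
  have e1 : (m + 2) / 2 = m / 2 + 1 := by omega
  rcases IJ_cases hF with ⟨h1, h⟩ | ⟨h1, h2, h⟩ | h
  · refine IJ_one (VP_mulN h hG hs) ?_
    rw [e1, show n + 1 - (m / 2 + 1) = n - m / 2 by omega, add_zero]
    exact h1
  · refine IJ_two (VI_mulN h hG hs) (by omega) ?_
    rw [e1, show n + 1 - 1 - (m / 2 + 1) = n - 1 - m / 2 by omega, add_zero]
    exact h2
  · rw [h, zero_mul]
    exact Submodule.zero_mem _

/-- multiplication by `z c` -/
theorem mulC {δ n m r : ℕ} {s s' : Finset (GG w)} {F G : LR k (Sg w)} (hs : s ∪ s' = s)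
    (hF : F ∈ IJ k w δ n m r s) (hG : G ∈ VI k (1 : ℕ) δ s') :
    F * G ∈ IJ k w δ (n + 1) (m + 1) (r + δ) s := by
  rcases IJ_cases hF with ⟨h1, h⟩ | ⟨h1, h2, h⟩ | h
  · rcases Nat.mod_two_eq_zero_or_one m with hm | hm
    · have h3 : F * G ∈ VI k ((m + 1 : ℕ) : ℤ) ((r + δ : ℕ) : ℤ) s := by
        have := VI_mulN hG h (t := s) (by rw [Finset.union_comm]; exact hs)
        rw [mul_comm, add_comm m 1, add_comm r δ]
        exact this
      refine IJ_two h3 (by omega) ?_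
      rw [show (m + 1) / 2 = m / 2 by omega, Nat.add_sub_cancel]
      omega
    · refine IJ_one (VP_mulN h hG.1 hs) ?_
      rw [show (m + 1) / 2 = m / 2 + 1 by omega, show n + 1 - (m / 2 + 1) = n - m / 2 by omega]
      omega
  · refine IJ_one (VP_mulN h.1 hG.1 hs) ?_
    rw [show (m + 1) / 2 = m / 2 + 1 by omega, show n + 1 - (m / 2 + 1) = n - m / 2 by omega]
    have h5 : 2 * δ * (n - m / 2) ≤ 2 * δ * (n - 1 - m / 2) + 2 * δ := by
      calc 2 * δ * (n - m / 2) ≤ 2 * δ * ((n - 1 - m / 2) + 1) := Nat.mul_le_mul_left _ (by omega)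
        _ = 2 * δ * (n - 1 - m / 2) + 2 * δ := by ring
    omega
  · rw [h, zero_mul]
    exact Submodule.zero_mem _

/-- the sum of the pieces -/
noncomputable def WW (k : Type) [Field k] (w δ n : ℕ) (s : Finset (GG w)) :
    Submodule k (LR k (Sg w)) := ⨆ p : ℕ × ℕ, IJ k w δ n p.1 p.2 s

/-- the elements of `Y`-degree at least `t` -/
noncomputable def TT (k : Type) [Field k] (w t : ℕ) (s : Finset (GG w)) :
    Submodule k (LR k (Sg w)) := ⨆ p : ℕ × ℕ, VP k (p.1 : ℤ) ((t + p.2 : ℕ) : ℤ) s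

theorem mem_WW {δ n m r : ℕ} {s : Finset (GG w)} {f : LR k (Sg w)} (h : f ∈ IJ k w δ n m r s) :
    f ∈ WW k w δ n s :=
  Submodule.mem_iSup_of_mem (p := fun p : ℕ × ℕ => IJ k w δ n p.1 p.2 s) (m, r) h

theorem mem_TT {t m r : ℕ} {s : Finset (GG w)} {f : LR k (Sg w)}
    (h : f ∈ VP k m ((t + r : ℕ) : ℤ) s) : f ∈ TT k w t s :=
  Submodule.mem_iSup_of_mem (p := fun p : ℕ × ℕ => VP k (p.1 : ℤ) ((t + p.2 : ℕ) : ℤ) s) (m, r) h

/-- bilinear induction -/
theorem mul_iSup {ι κ : Type} (P : ι → Submodule k (LR k (Sg w)))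
    (Q : κ → Submodule k (LR k (Sg w))) (R : Submodule k (LR k (Sg w)))
    (h : ∀ i j, ∀ f ∈ P i, ∀ g ∈ Q j, f * g ∈ R) {f g : LR k (Sg w)} (hf : f ∈ ⨆ i, P i)
    (hg : g ∈ ⨆ j, Q j) : f * g ∈ R := by
  refine Submodule.iSup_induction P (motive := fun f => f * g ∈ R) hf ?_ ?_ ?_
  · intro i x hx
    refine Submodule.iSup_induction Q (motive := fun g => x * g ∈ R) hg ?_ ?_ ?_
    · intro j y hy
      exact h i j x hx y hy
    · rw [mul_zero]
      exact Submodule.zero_mem _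
    · intro a b ha hb
      rw [mul_add]
      exact Submodule.add_mem _ ha hb
  · rw [zero_mul]
    exact Submodule.zero_mem _
  · intro a b ha hb
    rw [add_mul]
    exact Submodule.add_mem _ ha hb

theorem VR_TT {s : Finset (GG w)} {f : LR k (Sg w)} (hf : f ∈ VR k (inS s)) : f ∈ TT k w 0 s := by
  refine mem_of_singles _ f fun u hu => ?_
  have hfu := hf u hu
  have hz : 0 ≤ zd u := by
    by_contra hc
    obtain ⟨g, _, hg⟩ := mem_inS.1 (hfu (Sum.inr (Sum.inr ())) (not_le.1 hc))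
    exact absurd hg (by simp)
  have hy : 0 ≤ yd u := by
    unfold yd
    refine Finset.sum_nonneg fun x _ => ?_
    by_contra hc
    obtain ⟨g, _, hg⟩ := mem_inS.1 (hfu (Sum.inr (Sum.inl x)) (not_le.1 hc))
    exact absurd hg (by simp)
  obtain ⟨m, hm⟩ := Int.eq_ofNat_of_zero_le hz
  obtain ⟨r, hr⟩ := Int.eq_ofNat_of_zero_le hy
  refine mem_TT (m := m) (r := r) (mem_VP.2 (single_mem_SP ⟨hm, ?_, hfu⟩))
  rw [hr, zero_add]

theorem TT_mul {t t' : ℕ} {s : Finset (GG w)} {f g : LR k (Sg w)} (hf : f ∈ TT k w t s)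
    (hg : g ∈ TT k w t' s) : f * g ∈ TT k w (t + t') s := by
  refine mul_iSup _ _ _ ?_ hf hg
  intro p q x hx y hy
  have h := VP_mulN hx hy (t := s) (Finset.union_self s)
  rw [show t + p.2 + (t' + q.2) = t + t' + (p.2 + q.2) by ring] at h
  exact mem_TT h

theorem WW_mul {δ n : ℕ} {s : Finset (GG w)} {f v : LR k (Sg w)} (hf : f ∈ WW k w δ n s)
    (hv : v ∈ VR k (inS s)) : f * v ∈ WW k w δ n s := by
  refine mul_iSup _ _ _ ?_ hf (VR_TT hv)
  intro p q x hx y hy
  rw [zero_add] at hy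
  exact mem_WW (mulB (Finset.union_self s) hx hy)

theorem iR_VR (f : MvPolynomial (Sg w) k) (s : Finset (GG w)) : iR k f ∈ VR k (inS s) := by
  intro u hu i hi
  exact absurd (iR_nonneg k f u hu i) (not_le.2 hi)

theorem YI_TT (t : ℕ) : ∀ g ∈ YI k w ^ t, iR k g ∈ TT k w t ∅ := by
  have h1 : ∀ g ∈ YI k w, iR k g ∈ TT k w 1 ∅ := by
    intro g hg
    unfold YI at hg
    refine Submodule.span_induction (p := fun g _ => iR k g ∈ TT k w 1 ∅) ?_ ?_ ?_ ?_ hg
    · rintro _ ⟨x, rfl⟩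
      refine mem_TT (m := 0) (r := 0) (mem_VP.2 ?_)
      show iR k (X (Sum.inr (Sum.inl x))) ∈ _
      unfold iR
      rw [aeval_X]
      refine single_mem_SP ⟨?_, ?_, ?_⟩
      · simp [zd]
      · unfold yd
        simp [Pi.single_apply]
      · intro i hi
        rw [Pi.single_apply] at hi
        split_ifs at hi <;> omega
    · rw [map_zero]
      exact Submodule.zero_mem _
    · intro a b _ _ ha hb
      rw [map_add]
      exact Submodule.add_mem _ ha hb
    · intro a b _ hb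
      rw [smul_eq_mul, map_mul]
      have := TT_mul (VR_TT (iR_VR a ∅)) hb
      rwa [zero_add] at this
  induction t with
  | zero =>
    intro g _
    exact VR_TT (iR_VR g ∅)
  | succ t ih =>
    intro g hg
    rw [pow_succ] at hg
    refine Submodule.mul_induction_on hg ?_ ?_
    · intro a ha b hb
      rw [map_mul]
      exact TT_mul (ih a ha) (h1 b hb)
    · intro a b ha hb
      rw [map_add]
      exact Submodule.add_mem _ ha hb

theorem iR_z : iR k (zV k w) ∈ VP k (1 : ℕ) (0 : ℕ) (∅ : Finset (GG w)) := by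
  unfold zV iR
  rw [aeval_X]
  refine mem_VP.2 (single_mem_SP ⟨?_, ?_, ?_⟩)
  · simp [zd]
  · unfold yd
    simp
  · intro i hi
    rw [Pi.single_apply] at hi
    split_ifs at hi <;> omega

theorem WW_JJ {δ n : ℕ} {s : Finset (GG w)} {f : LR k (Sg w)} (hf : f ∈ WW k w δ n s) :
    ∀ g ∈ JJ k w δ, f * iR k g ∈ WW k w δ (n + 1) s := by
  intro g hg
  unfold JJ at hg
  obtain ⟨g12, hg12, g3, hg3, rfl⟩ := Submodule.mem_sup.1 hg
  obtain ⟨g1, hg1, g2, hg2, rfl⟩ := Submodule.mem_sup.1 hg12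
  rw [map_add, map_add, mul_add, mul_add]
  refine Submodule.add_mem _ (Submodule.add_mem _ ?_ ?_) ?_
  · obtain ⟨h, rfl⟩ := Ideal.mem_span_singleton'.1 hg1
    rw [map_mul, mul_comm (iR k h), ← mul_assoc]
    refine WW_mul ?_ (iR_VR h s)
    refine Submodule.iSup_induction (fun p : ℕ × ℕ => IJ k w δ n p.1 p.2 s)
      (motive := fun f => f * iR k (zV k w ^ 2) ∈ WW k w δ (n + 1) s) hf ?_ ?_ ?_
    · intro p x hx
      have h2 : iR k (zV k w ^ 2) ∈ VP k (2 : ℕ) (0 : ℕ) (∅ : Finset (GG w)) := by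
        rw [map_pow, pow_two]
        exact VP_mulN iR_z iR_z (Finset.union_self _)
      exact mem_WW (mulZ (Finset.union_empty s) hx h2)
    · rw [zero_mul]
      exact Submodule.zero_mem _
    · intro a b ha hb
      rw [add_mul]
      exact Submodule.add_mem _ ha hb
  · refine mul_iSup _ _ _ ?_ hf (YI_TT (2 * δ) g2 hg2)
    intro p q x hx y hy
    exact mem_WW (mulY (Finset.union_empty s) hx hy)
  · refine Submodule.span_induction
      (p := fun g _ => f * iR k g ∈ WW k w δ (n + 1) s) ?_ ?_ ?_ ?_ hg3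
    · rintro _ ⟨c, hc, rfl⟩
      have h2 : iR k (zV k w * c) ∈ VI k (1 : ℕ) δ (∅ : Finset (GG w)) := by
        rw [map_mul, mul_comm]
        have hc1 : iR k c ∈ VI k ((0 : ℕ) : ℤ) (δ : ℤ) ∅ := hc.1
        have h3 := VI_mulN hc1 iR_z (Finset.union_self _)
        rw [zero_add, add_zero] at h3
        exact h3
      refine Submodule.iSup_induction (fun p : ℕ × ℕ => IJ k w δ n p.1 p.2 s)
        (motive := fun f => f * iR k (zV k w * c) ∈ WW k w δ (n + 1) s) hf ?_ ?_ ?_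
      · intro p x hx
        exact mem_WW (mulC (Finset.union_empty s) hx h2)
      · rw [zero_mul]
        exact Submodule.zero_mem _
      · intro a b ha hb
        rw [add_mul]
        exact Submodule.add_mem _ ha hb
    · rw [map_zero, mul_zero]
      exact Submodule.zero_mem _
    · intro a b _ _ ha hb
      rw [map_add, mul_add]
      exact Submodule.add_mem _ ha hb
    · intro a b _ hb
      rw [smul_eq_mul, map_mul, mul_comm (iR k a), ← mul_assoc]
      exact WW_mul hb (iR_VR a s)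

theorem WW_pow (δ n : ℕ) (s : Finset (GG w)) : ∀ g ∈ JJ k w δ ^ n, iR k g ∈ WW k w δ n s := by
  induction n with
  | zero =>
    intro g _
    have h := VR_TT (iR_VR g s)
    refine Submodule.iSup_induction (fun p : ℕ × ℕ => VP k (p.1 : ℤ) ((0 + p.2 : ℕ) : ℤ) s)
      (motive := fun f => f ∈ WW k w δ 0 s) h ?_ (Submodule.zero_mem _)
      (fun a b ha hb => Submodule.add_mem _ ha hb)
    intro p x hx
    rw [zero_add] at hx
    refine mem_WW (IJ_one hx ?_)
    simp
  | succ n ih =>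
    intro g hg
    rw [pow_succ] at hg
    refine Submodule.mul_induction_on hg ?_ ?_
    · intro a ha b hb
      rw [map_mul]
      exact WW_JJ (ih a ha) b hb
    · intro a b ha hb
      rw [map_add]
      exact Submodule.add_mem _ ha hb

theorem VP_VR {m r : ℤ} {s : Finset (GG w)} {f : LR k (Sg w)} (h : f ∈ VP k m r s) :
    f ∈ VR k (inS s) := fun u hu => (h u hu).2.2

theorem WW_final {δ n : ℕ} {s : Finset (GG w)} {f : LR k (Sg w)} (hf : f ∈ WW k w δ n s) :
    f ∈ VR k (inS s) ∧ ∀ m r : ℕ, cmp k m r f ∈ IJ k w δ n m r s := by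
  refine Submodule.iSup_induction (fun p : ℕ × ℕ => IJ k w δ n p.1 p.2 s)
    (motive := fun f => f ∈ VR k (inS s) ∧ ∀ m r : ℕ, cmp k m r f ∈ IJ k w δ n m r s) hf ?_ ?_ ?_
  · intro p x hx
    refine ⟨VP_VR (IJ_VP hx), fun m r => ?_⟩
    have hVP := mem_VP.1 (IJ_VP hx)
    unfold cmp
    rw [rst_eq]
    by_cases h : m = p.1 ∧ r = p.2
    · obtain ⟨rfl, rfl⟩ := h
      rw [rs_self (SP_mono (fun u hu => ⟨hu.1, hu.2.1⟩) hVP)]
      exact hx
    · classical
      have h1 : rs (k := k) (fun u : Sg w → ℤ => zd u = m ∧ yd u = r) x = rs (fun _ => False) x := by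
        refine rs_congr hVP fun u hu => ?_
        constructor
        · rintro ⟨h5, h6⟩
          refine h ⟨?_, ?_⟩
          · have := hu.1
            omega
          · have := hu.2.1
            omega
        · intro h'
          exact h'.elim
      rw [h1]
      have h2 : rs (k := k) (fun _ : Sg w → ℤ => False) x = 0 := by
        ext u
        rw [coeff_rs, if_neg not_false]
        rfl
      rw [h2]
      exact Submodule.zero_mem _
  · refine ⟨Submodule.zero_mem _, fun m r => ?_⟩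
    rw [map_zero]
    exact Submodule.zero_mem _
  · rintro a b ⟨ha, ha'⟩ ⟨hb, hb'⟩
    refine ⟨Submodule.add_mem _ ha hb, fun m r => ?_⟩
    rw [map_add]
    exact Submodule.add_mem _ (ha' m r) (hb' m r)

end C5

open C5 LibC in
theorem IJ1_proof (k : Type) [Field k] (w : ℕ) : IJ1 k w := by
  intro δ n s f hf
  have h : f ∈ WW k w δ n s := by
    unfold IV at hf
    refine Submodule.span_induction (p := fun f _ => f ∈ WW k w δ n s) ?_ (Submodule.zero_mem _)
      (fun a b _ _ ha hb => Submodule.add_mem _ ha hb)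
      (fun a b _ hb => Submodule.smul_mem _ a hb) hf
    rintro _ ⟨g, hg, v, hv, rfl⟩
    exact WW_mul (WW_pow δ n s g hg) hv
  exact WW_final h

end Pool.Agent.T2H37.LB
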