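import Pool.Agent.T2H37.LB.LibC

/-!
# LB, package C6: `IJ ⊆ J^n`
-/

set_option autoImplicit false

namespace Pool.Agent.T2H37.LB

open Finset MvPolynomial

namespace C6

open LibC

variable {k : Type} [Field k] {w : ℕ}

theorem exists_le_sum {ι : Type} [Fintype ι] [DecidableEq ι] (c : ι → ℕ) :
    ∀ e : ℕ, e ≤ ∑ i, c i → ∃ y : ι → ℕ, (∀ i, y i ≤ c i) ∧ ∑ i, y i = e := by
  intro e
  induction e with
  | zero => intro _; exact ⟨fun _ => 0, fun i => Nat.zero_le _, by simp⟩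
  | succ e ih =>
    intro he
    obtain ⟨y, hy, hs⟩ := ih (by omega)
    obtain ⟨i, hi⟩ : ∃ i, y i < c i := by
      by_contra hcon
      push Not at hcon
      have := Finset.sum_le_sum fun i (_ : i ∈ univ) => hcon i
      omega
    refine ⟨Function.update y i (y i + 1), ?_, ?_⟩
    · intro j
      by_cases h : j = i
      · subst h
        rw [Function.update_self]
        exact hi
      · rw [Function.update_of_ne h]
        exact hy j
    · rw [Finset.sum_update_of_mem (Finset.mem_univ i)]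
      have h1 := Finset.add_sum_erase univ y (Finset.mem_univ i)
      rw [Finset.sdiff_singleton_eq_erase]
      omega

theorem z2_mem (δ : ℕ) : zV k w ^ 2 ∈ JJ k w δ := by
  unfold JJ
  exact Ideal.mem_sup_left (Ideal.mem_sup_left (Ideal.subset_span rfl))

theorem YI_le (δ : ℕ) : YI k w ^ (2 * δ) ≤ JJ k w δ := by
  unfold JJ
  exact le_sup_right.trans le_sup_left

theorem zc_mem (δ : ℕ) {c : MvPolynomial (Sg w) k} (hc : c ∈ Cd k w δ) :
    zV k w * c ∈ JJ k w δ := by
  unfold JJ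
  exact Ideal.mem_sup_right (Ideal.subset_span ⟨c, hc, rfl⟩)

theorem zpow_mem (δ l : ℕ) : zV k w ^ (2 * l) ∈ JJ k w δ ^ l := by
  rw [pow_mul]
  exact Ideal.pow_mem_pow (z2_mem δ) l

theorem YIpow_le (δ l : ℕ) : YI k w ^ (2 * δ * l) ≤ JJ k w δ ^ l := by
  rw [pow_mul]
  exact Ideal.pow_right_mono (YI_le δ) l

theorem prodY_mem (y : Fin 2 × Fin 2 → ℕ) :
    ∏ x, (X (Sum.inr (Sum.inl x)) : MvPolynomial (Sg w) k) ^ y x ∈ YI k w ^ (∑ x, y x) := by
  rw [← Finset.prod_pow_eq_pow_sum]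
  refine Ideal.prod_mem_prod fun x _ => ?_
  have h : (X (Sum.inr (Sum.inl x)) : MvPolynomial (Sg w) k) ∈ YI k w := by
    unfold YI
    exact Ideal.subset_span ⟨x, rfl⟩
  exact Ideal.pow_mem_pow h _

theorem iR_mul_mem {σ : Type} [DecidableEq σ] {I : Ideal (MvPolynomial σ k)} {s : Finset σ}
    {f : MvPolynomial σ k} {v : LR k σ} (hf : f ∈ I) (hv : v ∈ VR k s) :
    iR k f * v ∈ IV k I s := by
  unfold IV
  exact Submodule.subset_span ⟨f, hf, v, hv, rfl⟩

/-- case 1 -/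
theorem case1 {δ n m r : ℕ} {s : Finset (GG w)} (h : 2 * δ * (n - m / 2) ≤ r)
    {f : LR k (Sg w)} (hf : f ∈ VP k m r s) : f ∈ IV k (JJ k w δ ^ n) (inS s) := by
  refine mem_of_singles _ f fun u hu => ?_
  obtain ⟨h1, h2, h3⟩ := mem_VP.1 hf u hu
  set a := f.coeff u
  set l := min (m / 2) n with hl
  have hz : u (Sum.inr (Sum.inr ())) = (m : ℤ) := h1
  have hY0 : ∀ x : Fin 2 × Fin 2, 0 ≤ u (Sum.inr (Sum.inl x)) := by
    intro x
    by_contra hc
    obtain ⟨g, _, hg⟩ := mem_inS.1 (h3 _ (not_le.1 hc))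
    exact absurd hg (by simp)
  have hsum : ∑ x : Fin 2 × Fin 2, (u (Sum.inr (Sum.inl x))).toNat = r := by
    have : ((∑ x : Fin 2 × Fin 2, (u (Sum.inr (Sum.inl x))).toNat : ℕ) : ℤ) = r := by
      push_cast
      rw [← h2]
      unfold yd
      refine Finset.sum_congr rfl fun x _ => ?_
      exact Int.toNat_of_nonneg (hY0 x)
    exact_mod_cast this
  have hle : 2 * δ * (n - l) ≤ r := by
    refine le_trans (le_of_eq ?_) h
    congr 1
    rw [hl]
    rcases le_total (m / 2) n with h' | h'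
    · rw [min_eq_left h']
    · rw [min_eq_right h']
      omega
  obtain ⟨y, hy, hys⟩ := exists_le_sum (fun x : Fin 2 × Fin 2 => (u (Sum.inr (Sum.inl x))).toNat)
    (2 * δ * (n - l)) (by rw [hsum]; exact hle)
  set d : Sg w →₀ ℕ := Finsupp.equivFunOnFinite.symm
    (Sum.elim (fun _ => 0) (Sum.elim y (fun _ => 2 * l))) with hd
  have hmon : monomial d (1 : k) = zV k w ^ (2 * l) *
      ∏ x, (X (Sum.inr (Sum.inl x)) : MvPolynomial (Sg w) k) ^ y x := by
    rw [monomial_eq, C_1, one_mul, Finsupp.prod_fintype _ _ (by simp), Fintype.prod_sum_type,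
      Fintype.prod_sum_type]
    simp [hd, zV]
    ring
  have hmem : monomial d (1 : k) ∈ JJ k w δ ^ n := by
    rw [hmon]
    have hn : n = l + (n - l) := by
      have : l ≤ n := min_le_right _ _
      omega
    rw [hn, pow_add]
    refine Ideal.mul_mem_mul (zpow_mem δ l) ?_
    have := YIpow_le (k := k) (w := w) δ (n - l)
    refine this ?_
    rw [← hys]
    exact prodY_mem y
  have hfac : AddMonoidAlgebra.single u a =
      iR k (monomial d (1 : k)) * AddMonoidAlgebra.single (u - cs d) a := by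
    rw [iR_monomial, AddMonoidAlgebra.single_mul_single, one_mul]
    congr 1
    abel
  rw [hfac]
  refine iR_mul_mem hmem ?_
  refine single_mem_SP (P := fun u : Sg w → ℤ => ∀ i, u i < 0 → i ∈ inS s) ?_
  intro i hi
  rw [Pi.sub_apply] at hi
  rcases i with g | x | z
  · have : cs d (Sum.inl g) = 0 := by simp [cs, hd]
    rw [this, sub_zero] at hi
    exact h3 _ hi
  · exfalso
    have h4 : cs d (Sum.inr (Sum.inl x)) = (y x : ℤ) := by simp [cs, hd]
    rw [h4] at hi
    have h5 := hy x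
    have h6 := hY0 x
    omega
  · exfalso
    have h4 : cs d (Sum.inr (Sum.inr z)) = ((2 * l : ℕ) : ℤ) := by simp [cs, hd]
    rw [h4] at hi
    have h5 : u (Sum.inr (Sum.inr z)) = (m : ℤ) := hz
    rw [h5] at hi
    have : l ≤ m / 2 := min_le_left _ _
    omega

/-! ### clearing denominators -/

theorem bound {σ : Type} [Fintype σ] (f : AddMonoidAlgebra k (σ → ℤ)) :
    ∃ N0 : ℕ, ∀ u, f.coeff u ≠ 0 → ∀ i, -(N0 : ℤ) ≤ u i := by
  refine ⟨∑ u ∈ f.coeff.support, ∑ i, (u i).natAbs, fun u hu i => ?_⟩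
  have h1 : (u i).natAbs ≤ ∑ i, (u i).natAbs :=
    Finset.single_le_sum (f := fun i => (u i).natAbs) (fun _ _ => Nat.zero_le _) (Finset.mem_univ i)
  have h2 : ∑ i, (u i).natAbs ≤ ∑ u ∈ f.coeff.support, ∑ i, (u i).natAbs :=
    Finset.single_le_sum (f := fun u : σ → ℤ => ∑ i, (u i).natAbs) (fun _ _ => Nat.zero_le _)
      (Finsupp.mem_support_iff.2 hu)
  have h3 : (u i).natAbs ≤ ∑ u ∈ f.coeff.support, ∑ i, (u i).natAbs := h1.trans h2
  omega

/-- the exponent vector with the value `N` on `s` -/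
def uN (s : Finset (GG w)) (N : ℤ) : Sg w → ℤ := fun i => if i ∈ inS s then N else 0

theorem uN_inr (s : Finset (GG w)) (N : ℤ) (x : (Fin 2 × Fin 2) ⊕ Unit) :
    uN s N (Sum.inr x) = 0 := by
  unfold uN
  rw [if_neg]
  intro h
  obtain ⟨g, _, hg⟩ := mem_inS.1 h
  exact absurd hg (by simp)

theorem yd_uN (s : Finset (GG w)) (N : ℤ) : yd (uN s N) = 0 := by
  unfold yd
  exact Finset.sum_eq_zero fun x _ => uN_inr s N _

theorem zd_uN (s : Finset (GG w)) (N : ℤ) : zd (uN s N) = 0 := uN_inr s N _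

theorem mu_uN_nonneg (s : Finset (GG w)) {N : ℤ} (hN : 0 ≤ N) (v : Var w) :
    0 ≤ mu (uN s N) v := by
  rw [mu_apply, Finset.sum_apply]
  refine Finset.sum_nonneg fun i _ => ?_
  rw [Pi.smul_apply, smul_eq_mul]
  refine mul_nonneg ?_ (muG_nonneg i v)
  unfold uN
  split_ifs
  · exact hN
  · exact le_rfl

theorem mu_uN_ge (s : Finset (GG w)) {N : ℤ} (hN : 0 ≤ N) {v : Var w} (hv : v ∈ suppS s) :
    N ≤ mu (uN s N) v := by
  obtain ⟨g, hg, hgv⟩ := Finset.mem_biUnion.1 hv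
  rw [mu_apply, Finset.sum_apply]
  have h1 : (uN s N (Sum.inl g) • muG (Sum.inl g)) v ≤ ∑ i, (uN s N i • muG i) v := by
    refine Finset.single_le_sum (f := fun i => (uN s N i • muG i) v) (fun i _ => ?_)
      (Finset.mem_univ (Sum.inl g))
    rw [Pi.smul_apply, smul_eq_mul]
    refine mul_nonneg ?_ (muG_nonneg i v)
    unfold uN
    split_ifs
    · exact hN
    · exact le_rfl
  refine le_trans ?_ h1
  rw [Pi.smul_apply, smul_eq_mul]
  have h2 := supp_muG g v hgv
  have h3 : uN s N (Sum.inl g) = N := by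
    unfold uN
    rw [if_pos (mem_inS.2 ⟨g, hg, rfl⟩)]
  rw [h3]
  nlinarith

theorem U_clear {a b c : ℤ} {s : Finset (GG w)} {A : L k w} (hA : A ∈ U k PT a b c s) :
    ∃ N0 : ℕ, ∀ N : ℕ, N0 ≤ N →
      AddMonoidAlgebra.single (mu (uN s N)) (1 : k) * A ∈ U k PT a b c ∅ := by
  obtain ⟨N0, hN0⟩ := bound A
  refine ⟨N0, fun N hN => ?_⟩
  have hA2 : A ∈ SP k fun u : Var w → ℤ => cU a b c s u ∧ ∀ i, -(N0 : ℤ) ≤ u i :=
    fun u hu => ⟨mem_U.1 hA u hu, hN0 u hu⟩
  refine mem_U.2 (SP_mul (P := fun u => u = mu (uN s (N : ℤ))) ?_ (single_mem_SP rfl) hA2)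
  rintro u u' rfl ⟨⟨h1, h2, h3, h4⟩, h5⟩
  refine ⟨?_, ?_, ?_, ?_⟩
  · rw [hs_add, gs_add, hs_mu, gs_mu, yd_uN, ← h1]
    ring
  · rw [as_add, gs_add, as_mu, gs_mu, ← h2]
    ring
  · rw [ys_add, ys_mu, yd_uN, h3, zero_add]
  · intro v hv
    exfalso
    rw [Pi.add_apply] at hv
    have h6 := mu_uN_nonneg s (Int.natCast_nonneg N) v
    have h7 : u' v < 0 := by omega
    have h8 := mu_uN_ge s (Int.natCast_nonneg N) (h4 v h7)
    have h9 := h5 v
    omega

/-! ### homogeneous components -/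

theorem wt_add (a b : Var w → ℤ) : wt (a + b) = wt a + wt b := by
  unfold wt
  rw [gs_add, ts_add]
  ring

theorem wt_nsmul (n : ℕ) (a : Var w → ℤ) : wt (n • a) = n * wt a := by
  induction n with
  | zero =>
    have h0 : wt (0 : Var w → ℤ) = 0 := by
      show gsH (0 : Var w → ℤ) + tsH (0 : Var w → ℤ) = 0
      rw [map_zero, map_zero, add_zero]
    simp [h0]
  | succ n ih =>
    rw [succ_nsmul, wt_add, ih]
    push_cast
    ring

theorem wt_ev (v : Var w) : wt (ev v) = match v with | Var.g _ => 1 | Var.t _ => 1 | _ => 0 := by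
  unfold wt
  rw [gs_ev, ts_ev]
  rcases v with i | i | i | l | i <;> simp

theorem q_wt : qL k w ∈ SP k fun u : Var w → ℤ => wt u = 1 := by
  unfold qL
  refine Submodule.sum_mem _ fun l _ => ?_
  have h : mon k (ev (Var.t l) + (l : ℕ) • ev (Var.a 0) + (w + 1 - (l : ℕ)) • ev (Var.a 1)) ∈
      SP k fun u : Var w → ℤ => wt u = 1 := by
    unfold mon
    refine single_mem_SP ?_
    rw [wt_add, wt_add, wt_nsmul, wt_nsmul, wt_ev, wt_ev, wt_ev]
    simp
  rcases neg_one_pow_eq_or ℤ (l : ℕ) with h' | h'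
  · rw [h', one_smul]
    exact h
  · rw [h', neg_smul, one_smul]
    exact Submodule.neg_mem _ h

theorem mPhi_wt {x b c : ℕ} (hx : x ≤ 2) :
    mPhi k w x b c ∈ SP k fun u : Var w → ℤ => wt u = 2 := by
  unfold mPhi mon
  refine single_mem_SP ?_
  simp only [wt_add, wt_nsmul, wt_ev]
  push_cast [Nat.cast_sub hx]
  ring

theorem Phi_wt : PhiL k w ∈ SP k fun u : Var w → ℤ => wt u = 2 := by
  unfold PhiL
  refine Submodule.add_mem _ (Submodule.add_mem _ (Submodule.sub_mem _ (Submodule.sub_mem _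
    (Submodule.sub_mem _ (Submodule.sub_mem _ (Submodule.sub_mem _ (Submodule.sub_mem _ ?_ ?_) ?_)
    ?_) ?_) ?_) ?_) ?_) ?_
  · exact mPhi_wt (by norm_num)
  · exact mPhi_wt (by norm_num)
  · exact mPhi_wt (by norm_num)
  · exact mPhi_wt (by norm_num)
  · exact mPhi_wt (by norm_num)
  · exact mPhi_wt (by norm_num)
  · exact mPhi_wt (by norm_num)
  · exact mPhi_wt (by norm_num)
  · have h := mPhi_wt (k := k) (w := w) (x := 1) (b := 1) (c := 1) (by norm_num)
    rw [show ((4 : ℤ) • mPhi k w 1 1 1 : L k w) =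
      mPhi k w 1 1 1 + mPhi k w 1 1 1 + mPhi k w 1 1 1 + mPhi k w 1 1 1 by
        rw [show (4 : ℤ) = 1 + 1 + 1 + 1 by norm_num, add_smul, add_smul, add_smul, one_smul]]
    exact Submodule.add_mem _ (Submodule.add_mem _ (Submodule.add_mem _ h h) h) h

theorem rs_U {P : (Var w → ℤ) → Prop} {a b c : ℤ} {s : Finset (GG w)} {A : L k w}
    (hA : A ∈ U k PT a b c s) : rs P A ∈ U k PT a b c s :=
  mem_U.2 (SP_mono (fun _ h => h.2) (rs_mem P (mem_U.1 hA)))

theorem rs_IN {r : ℤ} {s : Finset (GG w)} {f : L k w} (hf : f ∈ IN k PT r s) (D : ℤ) :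
    rs (fun u : Var w → ℤ => wt u = D) f ∈ IN k PT r s := by
  obtain ⟨A, hA, B, hB, rfl⟩ := mem_IN.1 hf
  refine mem_IN.2 ⟨rs (fun u => wt u = D - 1) A, rs_U hA, rs (fun u => wt u = D - 2) B, rs_U hB, ?_⟩
  rw [map_add, mul_comm (qL k w) A, mul_comm (PhiL k w) B,
    rs_mul (P' := fun u => wt u = D - 1) (fun a b hb => by rw [wt_add, hb]; omega) A q_wt,
    rs_mul (P' := fun u => wt u = D - 2) (fun a b hb => by rw [wt_add, hb]; omega) B Phi_wt,
    mul_comm (qL k w), mul_comm (PhiL k w)]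

/-- homogeneous components -/
theorem hc_Cd {r : ℕ} {g : MvPolynomial (Sg w) k} (hg : iR k g ∈ VI k 0 r ∅) (D : ℕ) :
    homogeneousComponent D g ∈ Cd k w r := by
  refine ⟨?_, D, homogeneousComponent_isHomogeneous D g⟩
  rw [iR_hc]
  refine ⟨mem_VP.2 (SP_mono (fun _ h => h.2) (rs_mem _ (mem_VP.1 hg.1))), ?_⟩
  have h1 : rs (fun u : Sg w → ℤ => ∑ i, u i = (D : ℤ)) (iR k g) =
      rs (fun u => wt (mu u) = (D : ℤ) - r) (iR k g) := by
    refine rs_congr (mem_VP.1 hg.1) fun u hu => ?_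
    rw [total_deg, hu.1, hu.2.1]
    omega
  rw [h1]
  have h2 := rs_map (k := k) (piL_onS (k := k) (w := w)) (fun v => wt v = (D : ℤ) - r) (iR k g)
  rw [AlgHom.toLinearMap_apply, AlgHom.toLinearMap_apply] at h2
  rw [h2]
  exact rs_IN hg.2 _

/-- case 2 -/
theorem case2 {δ n l r : ℕ} (hG : Gn k w δ) (hl : l < n) (hr : 2 * δ * (n - 1 - l) + δ ≤ r)
    {s : Finset (GG w)} {f : LR k (Sg w)} (hf : f ∈ VI k ((2 * l + 1 : ℕ) : ℤ) r s) :
    f ∈ IV k (JJ k w δ ^ n) (inS s) := by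
  obtain ⟨hf1, hf2⟩ := hf
  obtain ⟨A, hA, B, hB, hAB⟩ := mem_IN.1 hf2
  obtain ⟨N1, hN1⟩ := bound f
  obtain ⟨N2, hN2⟩ := U_clear hA
  obtain ⟨N3, hN3⟩ := U_clear hB
  set N := max N1 (max N2 N3) with hN
  have e1 : N1 ≤ N := le_max_left _ _
  have e2 : N2 ≤ N := (le_max_left _ _).trans (le_max_right _ _)
  have e3 : N3 ≤ N := (le_max_right _ _).trans (le_max_right _ _)
  set ez : Sg w → ℤ := Pi.single (Sum.inr (Sum.inr ())) 1 with hez
  set m : ℕ := 2 * l + 1 with hm
  set t0 : Sg w → ℤ := uN s N - m • ez with ht0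
  have hez_inl : ∀ g : GG w, ez (Sum.inl g) = 0 := fun g => by simp [hez]
  have hez_Y : ∀ x : Fin 2 × Fin 2, ez (Sum.inr (Sum.inl x)) = 0 := fun x => by simp [hez]
  have hez_z : ez (Sum.inr (Sum.inr ())) = 1 := by simp [hez]
  have hg0 : AddMonoidAlgebra.single t0 (1 : k) * f ∈ SP k (cVP (w := w) 0 r ∅) ∧
      AddMonoidAlgebra.single t0 (1 : k) * f ∈ SP k (fun u : Sg w → ℤ => ∀ i, 0 ≤ u i) := by
    have hf3 : f ∈ SP k fun u : Sg w → ℤ => cVP m r s u ∧ ∀ i, -(N1 : ℤ) ≤ u i :=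
      fun u hu => ⟨mem_VP.1 hf1 u hu, hN1 u hu⟩
    have hnn : ∀ u : Sg w → ℤ, cVP m r s u ∧ (∀ i, -(N1 : ℤ) ≤ u i) → ∀ i, 0 ≤ (t0 + u) i := by
      rintro u ⟨⟨h1, h2, h3⟩, h4⟩ i
      rw [Pi.add_apply, ht0, Pi.sub_apply, Pi.smul_apply]
      rcases i with g | x | z
      · rw [hez_inl, smul_zero, sub_zero]
        by_cases hg : g ∈ s
        · have : uN s (N : ℤ) (Sum.inl g) = N := by
            unfold uN
            rw [if_pos (mem_inS.2 ⟨g, hg, rfl⟩)]
          rw [this]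
          have := h4 (Sum.inl g)
          omega
        · have h5 : uN s (N : ℤ) (Sum.inl g) = 0 := by
            unfold uN
            rw [if_neg]
            intro h
            obtain ⟨g', hg', he⟩ := mem_inS.1 h
            cases he
            exact hg hg'
          rw [h5, zero_add]
          by_contra hc
          obtain ⟨g', hg', he⟩ := mem_inS.1 (h3 _ (not_le.1 hc))
          cases he
          exact hg hg'
      · rw [hez_Y, smul_zero, sub_zero, uN_inr, zero_add]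
        by_contra hc
        obtain ⟨g', hg', he⟩ := mem_inS.1 (h3 _ (not_le.1 hc))
        exact absurd he (by simp)
      · rw [uN_inr]
        have h5 : u (Sum.inr (Sum.inr z)) = m := h1
        have h6 : ez (Sum.inr (Sum.inr z)) = 1 := hez_z
        rw [h5, h6]
        simp
    refine ⟨SP_mul (P := fun u => u = t0) ?_ (single_mem_SP rfl) hf3,
      SP_mul (P := fun u => u = t0) ?_ (single_mem_SP rfl) hf3⟩
    · rintro u0 u rfl hu
      have hu' := hu
      obtain ⟨⟨h1, h2, h3⟩, h4⟩ := hu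
      refine ⟨?_, ?_, ?_⟩
      · show (t0 + u) (Sum.inr (Sum.inr ())) = 0
        rw [Pi.add_apply, ht0, Pi.sub_apply, Pi.smul_apply, uN_inr, hez_z]
        have h5 : u (Sum.inr (Sum.inr ())) = m := h1
        rw [h5]
        simp
      · show ∑ x : Fin 2 × Fin 2, (t0 + u) (Sum.inr (Sum.inl x)) = r
        rw [← h2]
        refine Finset.sum_congr rfl fun x _ => ?_
        rw [Pi.add_apply, ht0, Pi.sub_apply, Pi.smul_apply, uN_inr, hez_Y]
        simp
      · intro i hi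
        exact absurd (hnn u hu' i) (not_le.2 hi)
    · rintro u0 u rfl hu
      exact hnn u hu
  obtain ⟨g, hg⟩ := iR_surj k hg0.2
  have hmu : mu t0 = mu (uN s (N : ℤ)) := by
    rw [ht0, map_sub, map_nsmul]
    have : mu ez = 0 := by
      rw [mu_apply]
      refine Finset.sum_eq_zero fun i _ => ?_
      rcases i with g | x | z
      · rw [hez_inl, zero_smul]
      · rw [hez_Y, zero_smul]
      · simp [muG]
    rw [this, smul_zero, sub_zero]
  have hgVI : iR k g ∈ VI k 0 r ∅ := by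
    refine ⟨by rw [hg]; exact mem_VP.2 hg0.1, ?_⟩
    rw [hg, map_mul, hAB]
    have h1 : piL k w (AddMonoidAlgebra.single t0 (1 : k)) =
        AddMonoidAlgebra.single (mu (uN s (N : ℤ))) 1 := by
      have := piL_onS (k := k) (w := w) t0 1
      rw [AlgHom.toLinearMap_apply] at this
      rw [this, hmu]
    rw [h1]
    refine mem_IN.2 ⟨_, hN2 N e2, _, hN3 N e3, by ring⟩
  -- membership of g
  have hgm : g ∈ YI k w ^ (r - δ) * Ideal.span (Cd k w δ) := by
    rw [← sum_homogeneousComponent g]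
    refine Ideal.sum_mem _ fun D _ => ?_
    exact hG r (by omega) _ (hc_Cd hgVI D)
  have hzg : zV k w * g ∈ JJ k w δ ^ (n - l) := by
    have h1 : zV k w * g ∈ Ideal.span {zV k w} * (YI k w ^ (r - δ) * Ideal.span (Cd k w δ)) :=
      Ideal.mul_mem_mul (Ideal.subset_span rfl) hgm
    have h2 : Ideal.span {zV k w} * Ideal.span (Cd k w δ) ≤ JJ k w δ := by
      rw [Ideal.span_mul_span', Ideal.span_le]
      rintro x hx
      obtain ⟨a, ha, c, hc, rfl⟩ := Set.mem_mul.1 hx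
      rw [Set.mem_singleton_iff.1 ha]
      exact zc_mem δ hc
    have h3 : YI k w ^ (r - δ) ≤ JJ k w δ ^ (n - 1 - l) := by
      refine le_trans ?_ (YIpow_le δ (n - 1 - l))
      exact Ideal.pow_le_pow_right (by omega)
    have h4 : Ideal.span {zV k w} * (YI k w ^ (r - δ) * Ideal.span (Cd k w δ)) =
        YI k w ^ (r - δ) * (Ideal.span {zV k w} * Ideal.span (Cd k w δ)) := by
      rw [← mul_assoc, mul_comm (Ideal.span {zV k w}), mul_assoc]
    rw [h4] at h1
    have h5 := Ideal.mul_mono h3 h2 h1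
    rw [show n - l = (n - 1 - l) + 1 by omega, pow_succ]
    exact h5
  have hzm : zV k w ^ m * g ∈ JJ k w δ ^ n := by
    rw [hm, pow_succ, mul_assoc, show n = l + (n - l) by omega, pow_add]
    exact Ideal.mul_mem_mul (zpow_mem δ l) hzg
  have hfac : f = iR k (zV k w ^ m * g) * AddMonoidAlgebra.single (-uN s (N : ℤ)) (1 : k) := by
    have h1 : iR k (zV k w) = AddMonoidAlgebra.single ez (1 : k) := by
      unfold zV iR
      rw [aeval_X]
    rw [map_mul, map_pow, h1, hg, AddMonoidAlgebra.single_pow, one_pow, ← mul_assoc,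
      AddMonoidAlgebra.single_mul_single, one_mul, mul_assoc, mul_comm f, ← mul_assoc,
      AddMonoidAlgebra.single_mul_single, one_mul]
    have h2 : m • ez + t0 + -uN s (N : ℤ) = 0 := by
      rw [ht0]
      abel
    rw [h2, ← AddMonoidAlgebra.one_def, one_mul]
  rw [hfac]
  refine iR_mul_mem hzm ?_
  refine single_mem_SP (P := fun u : Sg w → ℤ => ∀ i, u i < 0 → i ∈ inS s) ?_
  intro i hi
  by_contra hn
  have : uN s (N : ℤ) i = 0 := by
    unfold uN
    rw [if_neg hn]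
  rw [Pi.neg_apply, this] at hi
  simp at hi

end C6

open C6 LibC in
theorem IJ2_proof (k : Type) [Field k] (w : ℕ) : IJ2 k w := by
  classical
  intro δ n hG s f hf hcmp
  rw [sum_pieces (fun u : Sg w → ℤ => (zd u, yd u)) f]
  refine Submodule.sum_mem _ fun p hp => ?_
  obtain ⟨u, hu, rfl⟩ := Finset.mem_image.1 hp
  have hfu := hf u (Finsupp.mem_support_iff.1 hu)
  have hz : 0 ≤ zd u := by
    by_contra hc
    obtain ⟨g, _, hg⟩ := mem_inS.1 (hfu (Sum.inr (Sum.inr ())) (not_le.1 hc))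
    exact absurd hg (by simp)
  have hy : 0 ≤ yd u := by
    unfold yd
    refine Finset.sum_nonneg fun x _ => ?_
    by_contra hc
    obtain ⟨g, _, hg⟩ := mem_inS.1 (hfu (Sum.inr (Sum.inl x)) (not_le.1 hc))
    exact absurd hg (by simp)
  obtain ⟨m, hm⟩ := Int.eq_ofNat_of_zero_le hz
  obtain ⟨r, hr⟩ := Int.eq_ofNat_of_zero_le hy
  have h1 : rs (k := k) (fun v : Sg w → ℤ => (zd v, yd v) = (zd u, yd u)) f = cmp k m r f := by
    unfold cmp
    rw [rst_eq]
    congr 1
    congr 1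
    funext v
    rw [Prod.mk.injEq, hm, hr]
  rw [h1]
  have h2 := hcmp m r
  unfold IJ at h2
  split_ifs at h2 with c1 c2
  · exact case1 c1 h2
  · have hm2 : m = 2 * (m / 2) + 1 := by omega
    have hlt : m / 2 < n := by
      by_contra hc
      apply c1
      rw [show n - m / 2 = 0 by omega, mul_zero]
      exact Nat.zero_le _
    rw [hm2] at h2
    have h3 : ((2 * ((2 * (m / 2) + 1) / 2) + 1 : ℕ) : ℤ) = ((2 * (m / 2) + 1 : ℕ) : ℤ) := by
      congr 1
      omega
    rw [hm2]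
    exact case2 hG hlt c2.2 h2
  · rw [Submodule.mem_bot] at h2
    rw [h2]
    exact Submodule.zero_mem _

end Pool.Agent.T2H37.LB
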