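import Pool.Agent.T2H37.LB.StmC

/-!
# LB, package C7: the powers of `J` at a denominator `z` or `Y`; `J` is homogeneous
-/

set_option autoImplicit false

namespace Pool.Agent.T2H37.LB

open Finset MvPolynomial

namespace C7

variable {k : Type} [Field k] {σ : Type} [DecidableEq σ]

omit [DecidableEq σ] in
theorem coeff_single_mul (a u : σ → ℤ) (v : LR k σ) :
    (AddMonoidAlgebra.single a 1 * v : LR k σ).coeff u = v.coeff (u - a) := by
  rw [AddMonoidAlgebra.coeff_single_mul_eq_mul_coeff (m₂ := u - a), one_mul]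
  intro m' _
  constructor
  · intro h
    rw [← h]
    abel
  · intro h
    rw [h]
    abel

theorem iR_X (i : σ) : iR k (X i : MvPolynomial σ k) = AddMonoidAlgebra.single (Pi.single i 1) 1 := by
  unfold iR
  rw [aeval_X]

theorem iR_X_pow (i : σ) (M : ℕ) : iR k ((X i : MvPolynomial σ k) ^ M) =
    AddMonoidAlgebra.single (Pi.single i (M : ℤ)) 1 := by
  rw [map_pow, iR_X, AddMonoidAlgebra.single_pow, one_pow]
  congr 1
  ext j
  by_cases h : j = i
  · subst h
    simp
  · simp [h]

theorem iR_mul_mem (s : Finset σ) (f : MvPolynomial σ k) :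
    ∀ v ∈ VR k s, iR k f * v ∈ VR k s := by
  induction f using MvPolynomial.induction_on with
  | C a =>
    intro v hv
    have : iR k (C a : MvPolynomial σ k) * v = a • v := by
      unfold iR
      rw [← MvPolynomial.algebraMap_eq, AlgHom.commutes, Algebra.smul_def]
    rw [this]
    exact Submodule.smul_mem _ _ hv
  | add p q hp hq =>
    intro v hv
    rw [map_add, add_mul]
    exact Submodule.add_mem _ (hp v hv) (hq v hv)
  | mul_X p i hp =>
    intro v hv
    rw [map_mul, mul_assoc]
    refine hp _ ?_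
    rw [iR_X]
    intro u hu j hj
    rw [coeff_single_mul] at hu
    refine hv _ hu j ?_
    rw [Pi.sub_apply]
    by_cases h : j = i
    · subst h
      simp
      omega
    · simp [h, hj]

theorem IV_le (I : Ideal (MvPolynomial σ k)) (s : Finset σ) : IV k I s ≤ VR k s := by
  unfold IV
  rw [Submodule.span_le]
  rintro x ⟨f, -, v, hv, rfl⟩
  exact iR_mul_mem s f v hv

theorem VR_le {I : Ideal (MvPolynomial σ k)} {s : Finset σ} {i : σ} (hi : i ∈ s) {M : ℕ}
    (hM : (X i : MvPolynomial σ k) ^ M ∈ I) : VR k s ≤ IV k I s := by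
  intro v hv
  refine Submodule.subset_span ⟨_, hM, AddMonoidAlgebra.single (Pi.single i (-(M : ℤ))) 1 * v,
    ?_, ?_⟩
  · intro u hu j hj
    rw [coeff_single_mul] at hu
    by_cases h : j = i
    · rwa [h]
    · refine hv _ hu j ?_
      simp [h, hj]
  · rw [iR_X_pow, ← mul_assoc, AddMonoidAlgebra.single_mul_single, ← Pi.single_add]
    simp only [add_neg_cancel, Pi.single_zero, mul_one]
    rw [← AddMonoidAlgebra.one_def, one_mul]

end C7

attribute [local instance] MvPolynomial.gradedAlgebra in
/-- package C7 -/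
theorem IJ3_proof (k : Type) [Field k] (w : ℕ) : IJ3 k w := by
  refine ⟨fun δ n s hs => le_antisymm (C7.IV_le _ _) ?_, fun δ f hf D => ?_⟩
  · obtain ⟨x, hx⟩ := hs
    rcases x with x | x
    · refine C7.VR_le hx (M := 2 * δ * n) ?_
      rw [pow_mul]
      refine Ideal.pow_mem_pow ?_ n
      refine Ideal.mem_sup_left (Ideal.mem_sup_right ?_)
      have h : (X (Sum.inr (Sum.inl x)) : MvPolynomial (Sg w) k) ∈ YI k w :=
        Ideal.subset_span ⟨x, rfl⟩
      exact Ideal.pow_mem_pow h _
    · refine C7.VR_le hx (M := 2 * n) ?_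
      rw [pow_mul]
      refine Ideal.pow_mem_pow ?_ n
      refine Ideal.mem_sup_left (Ideal.mem_sup_left ?_)
      exact Ideal.subset_span rfl
  · refine homogeneousComponent_mem_of_mem ?_ hf D
    unfold JJ
    refine Ideal.IsHomogeneous.sup (Ideal.IsHomogeneous.sup ?_ ?_) ?_
    · refine Ideal.homogeneous_span _ _ ?_
      rintro x rfl
      exact ⟨2, (isHomogeneous_X_pow _ _)⟩
    · have h1 : (YI k w).IsHomogeneous (homogeneousSubmodule (Sg w) k) := by
        refine Ideal.homogeneous_span _ _ ?_
        rintro _ ⟨x, rfl⟩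
        exact ⟨1, isHomogeneous_X _ _⟩
      generalize 2 * δ = m
      induction m with
      | zero =>
        rw [pow_zero, Ideal.one_eq_top]
        exact Ideal.IsHomogeneous.top _
      | succ m ih =>
        rw [pow_succ]
        exact Ideal.IsHomogeneous.mul ih h1
    · refine Ideal.homogeneous_span _ _ ?_
      rintro _ ⟨c, ⟨-, d, hd⟩, rfl⟩
      exact ⟨1 + d, (isHomogeneous_X _ _).mul hd⟩

end Pool.Agent.T2H37.LB
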