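import Pool.Agent.T2H37.LB.StmC

/-!
# LB, package C8: the complexes of the free module
-/

set_option autoImplicit false

namespace Pool.Agent.T2H37.LB

open Finset

namespace FreeExAux

variable {k : Type} [Field k]

theorem exd_false {G : Type} [DecidableEq G] (T : Finset G → Prop) (hT : ∀ s, ¬ T s) (p : ℕ) :
    ExD (W1 k T) p := by
  intro c hc
  have h1 : c = 0 := by
    funext j
    by_contra h
    exact hT _ ((Submodule.mem_inf.1 hc).1 j h)
  rw [h1]
  exact Submodule.zero_mem _

end FreeExAux

open FreeExAux in
theorem FreeEx_proof (k : Type) [Field k] (w : ℕ) (hT : Tog k) (hS : Simplex k) (hC : Coef k) :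
    FreeEx k w := by
  intro m r p hp
  refine hC (GG w) (Sg w → ℤ)
    (fun s u => zd u = m ∧ yd u = r ∧ ∀ i, u i < 0 → i ∈ s.map Function.Embedding.inl)
    (VP k m r) (fun s f => Iff.rfl) p (fun u => ?_)
  by_cases hu : zd u = m ∧ yd u = r ∧ ∀ i, u (Sum.inr i) < 0 → False
  · obtain ⟨h1, h2, h3⟩ := hu
    set N : Finset (GG w) := univ.filter fun g => u (Sum.inl g) < 0 with hN
    have hW : (W1 k fun s : Finset (GG w) => zd u = m ∧ yd u = r ∧
        ∀ i, u i < 0 → i ∈ s.map Function.Embedding.inl) = VC k (fun g : GG w => ({g} : Finset (GG w))) N := by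
      unfold VC
      congr 1
      funext s
      apply propext
      have hs : s.biUnion (fun g : GG w => ({g} : Finset (GG w))) = s := by
        ext x
        simp
      rw [hs]
      constructor
      · rintro ⟨-, -, h⟩ g hg
        have := h (Sum.inl g) (by simpa [hN] using hg)
        simpa using this
      · intro h
        refine ⟨h1, h2, ?_⟩
        rintro (i | i) hi
        · have : i ∈ s := h (by simpa [hN] using hi)
          simpa using this
        · exact (h3 i hi).elim
    rw [hW]
    by_cases hNu : N = univ
    · rw [hNu]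
      refine (hS (GG w)).1 p ?_
      have : Fintype.card (GG w) = w + 10 := by
        simp only [GG, Fintype.card_sum, Fintype.card_prod, Fintype.card_fin]
        ring
      rw [this]
      exact hp
    · obtain ⟨g0, hg0⟩ : ∃ g0, g0 ∉ N := by
        by_contra hcon
        push Not at hcon
        exact hNu (eq_univ_iff_forall.2 hcon)
      exact hT _ _ _ N g0 (by rw [Finset.disjoint_left]; intro v hv; rw [mem_singleton.1 hv]; exact hg0) p
  · refine exd_false _ (fun s hs => hu ⟨hs.1, hs.2.1, fun i hi => ?_⟩) p
    have := hs.2.2 _ hi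
    simp at this

end Pool.Agent.T2H37.LB
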