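import Pool.Agent.T2H37.LB.StmC

/-!
# LB, package C9: `LiftE`
-/

set_option autoImplicit false

namespace Pool.Agent.T2H37.LB

open Finset

namespace C9

/-- greedy choice -/
theorem greedy {α : Type} [DecidableEq α] (a : α → ℤ) (ha : ∀ i, 0 ≤ a i) (s : Finset α) :
    ∀ B : ℤ, 0 ≤ B → B ≤ ∑ i ∈ s, a i → ∃ x : α → ℤ, (∀ i, 0 ≤ x i) ∧ (∀ i, x i ≤ a i) ∧ ∑ i ∈ s, x i = B := by
  induction s using Finset.induction_on with
  | empty =>
    intro B h0 h1
    refine ⟨0, fun i => le_refl _, ha, ?_⟩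
    simp only [Finset.sum_empty] at h1 ⊢
    omega
  | insert i s hi ih =>
    intro B h0 h1
    rw [Finset.sum_insert hi] at h1
    obtain ⟨x, hx0, hxa, hxs⟩ := ih (B - min (a i) B) (by have := min_le_right (a i) B; omega) (by
      rcases le_total (a i) B with h | h
      · rw [min_eq_left h]; omega
      · rw [min_eq_right h]
        have : 0 ≤ ∑ j ∈ s, a j := Finset.sum_nonneg fun j _ => ha j
        omega)
    refine ⟨Function.update x i (min (a i) B), fun j => ?_, fun j => ?_, ?_⟩
    · by_cases h : j = i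
      · subst h
        rw [Function.update_self]
        exact le_min (ha j) h0
      · rw [Function.update_of_ne h]
        exact hx0 j
    · by_cases h : j = i
      · subst h
        rw [Function.update_self]
        exact min_le_left _ _
      · rw [Function.update_of_ne h]
        exact hxa j
    · rw [Finset.sum_insert hi, Function.update_self]
      have : ∑ j ∈ s, Function.update x i (min (a i) B) j = ∑ j ∈ s, x j :=
        Finset.sum_congr rfl fun j hj => Function.update_of_ne (by rintro rfl; exact hi hj) _ _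
      rw [this, hxs]
      omega

/-- nonnegative integer matrices with two columns with given sums -/
theorem matrix2 {α : Type} [Fintype α] [DecidableEq α] (a : α → ℤ) (ha : ∀ i, 0 ≤ a i) (b : Fin 2 → ℤ)
    (hb : ∀ j, 0 ≤ b j) (hab : ∑ i, a i = b 0 + b 1) :
    ∃ M : α → Fin 2 → ℤ, (∀ i j, 0 ≤ M i j) ∧ (∀ i, M i 0 + M i 1 = a i) ∧ ∀ j, ∑ i, M i j = b j := by
  obtain ⟨x, hx0, hxa, hxs⟩ := greedy a ha univ (b 0) (hb 0) (by rw [hab]; have := hb 1; omega)
  refine ⟨fun i => ![x i, a i - x i], fun i j => ?_, fun i => ?_, fun j => ?_⟩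
  · fin_cases j
    · exact hx0 i
    · have := hxa i
      simp only [Fin.mk_one, Matrix.cons_val_one, Matrix.cons_val_fin_one]
      omega
  · simp
  · fin_cases j
    · simpa using hxs
    · simp only [Fin.mk_one, Matrix.cons_val_one, Matrix.cons_val_fin_one]
      rw [Finset.sum_sub_distrib, hab, hxs]
      ring

variable {w : ℕ}

theorem mu_g (u : Sg w → ℤ) (i : Fin 2) : mu u (Var.g i) =
    ∑ j : Fin 2, ∑ l : Fin 2, u (Sum.inl (Sum.inl (i, j, l))) := by
  simp only [mu, AddMonoidHom.coe_mk, ZeroHom.coe_mk, Finset.sum_apply, Pi.smul_apply, Fintype.sum_sum_type,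
    Fintype.sum_prod_type, muG, ev, Pi.add_apply, Pi.single_apply, Fin.sum_univ_two]
  fin_cases i <;> simp

theorem mu_h (u : Sg w → ℤ) (j : Fin 2) : mu u (Var.h j) =
    (∑ i : Fin 2, ∑ l : Fin 2, u (Sum.inl (Sum.inl (i, j, l)))) + ∑ i : Fin 2, u (Sum.inr (Sum.inl (i, j))) := by
  simp only [mu, AddMonoidHom.coe_mk, ZeroHom.coe_mk, Finset.sum_apply, Pi.smul_apply, Fintype.sum_sum_type,
    Fintype.sum_prod_type, muG, ev, Pi.add_apply, Pi.single_apply, Fin.sum_univ_two]
  fin_cases j <;> simp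

theorem mu_a (u : Sg w → ℤ) (l : Fin 2) : mu u (Var.a l) =
    ∑ i : Fin 2, ∑ j : Fin 2, u (Sum.inl (Sum.inl (i, j, l))) := by
  simp only [mu, AddMonoidHom.coe_mk, ZeroHom.coe_mk, Finset.sum_apply, Pi.smul_apply, Fintype.sum_sum_type,
    Fintype.sum_prod_type, muG, ev, Pi.add_apply, Pi.single_apply, Fin.sum_univ_two]
  fin_cases l <;> simp

theorem mu_y (u : Sg w → ℤ) (i : Fin 2) : mu u (Var.y i) = ∑ j : Fin 2, u (Sum.inr (Sum.inl (i, j))) := by
  simp only [mu, AddMonoidHom.coe_mk, ZeroHom.coe_mk, Finset.sum_apply, Pi.smul_apply, Fintype.sum_sum_type,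
    Fintype.sum_prod_type, muG, ev, Pi.add_apply, Pi.single_apply, Fin.sum_univ_two]
  fin_cases i <;> simp

theorem mu_t (u : Sg w → ℤ) (l : Fin (w + 2)) : mu u (Var.t l) = u (Sum.inl (Sum.inr l)) := by
  simp only [mu, AddMonoidHom.coe_mk, ZeroHom.coe_mk, Finset.sum_apply, Pi.smul_apply, Fintype.sum_sum_type,
    Fintype.sum_prod_type, muG, ev, Pi.add_apply, Pi.single_apply, Fin.sum_univ_two]
  simp

theorem ext_var {u v : Var w → ℤ} (hg : ∀ i, u (Var.g i) = v (Var.g i)) (hh : ∀ i, u (Var.h i) = v (Var.h i))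
    (ha : ∀ i, u (Var.a i) = v (Var.a i)) (ht : ∀ i, u (Var.t i) = v (Var.t i))
    (hy : ∀ i, u (Var.y i) = v (Var.y i)) : u = v := by
  ext x
  cases x with
  | g i => exact hg i
  | h i => exact hh i
  | a i => exact ha i
  | t i => exact ht i
  | y i => exact hy i

/-- the nonnegative case -/
theorem lift_nonneg (m r : ℕ) (u : Var w → ℤ) (h1 : hs u - gs u = r) (h2 : as u - gs u = 0) (h3 : ys u = r)
    (h0 : ∀ v, 0 ≤ u v) : ∃ p : Sg w → ℤ, mu p = u ∧ zd p = m ∧ yd p = r ∧ ∀ i, 0 ≤ p i := by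
  obtain ⟨c, hc0, hch, hcr⟩ := greedy (fun j : Fin 2 => u (Var.h j)) (fun j => h0 _) univ (r : ℤ) (by omega) (by
    rw [Fin.sum_univ_two]
    have := h0 (Var.g 0)
    have := h0 (Var.g 1)
    unfold hs gs at h1
    omega)
  rw [Fin.sum_univ_two] at hcr
  obtain ⟨Y, hY0, hYr, hYc⟩ := matrix2 (fun i : Fin 2 => u (Var.y i)) (fun i => h0 _) c hc0 (by
    rw [Fin.sum_univ_two, hcr]
    exact h3)
  obtain ⟨Z, hZ0, hZr, hZc⟩ := matrix2 (fun i : Fin 2 => u (Var.g i)) (fun i => h0 _)
    (fun j => u (Var.h j) - c j) (fun j => by have := hch j; omega) (by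
      rw [Fin.sum_univ_two]
      unfold hs gs at h1
      omega)
  obtain ⟨X, hX0, hXr, hXc⟩ := matrix2 (fun x : Fin 2 × Fin 2 => Z x.1 x.2) (fun x => hZ0 _ _)
    (fun l => u (Var.a l)) (fun l => h0 _) (by
      have e0 := hZr 0
      have e1 := hZr 1
      simp only [Fintype.sum_prod_type, Fin.sum_univ_two]
      unfold as gs at h2
      omega)
  refine ⟨fun x => match x with
    | Sum.inl (Sum.inl x) => X (x.1, x.2.1) x.2.2
    | Sum.inl (Sum.inr l) => u (Var.t l)
    | Sum.inr (Sum.inl x) => Y x.1 x.2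
    | Sum.inr (Sum.inr _) => m, ?_, rfl, ?_, ?_⟩
  · apply ext_var
    · intro i
      rw [mu_g]
      simp only [Fin.sum_univ_two]
      rw [hXr (i, 0), hXr (i, 1)]
      exact hZr i
    · intro j
      rw [mu_h]
      simp only [Fin.sum_univ_two]
      rw [hXr (0, j), hXr (1, j)]
      have e1 := hZc j
      have e2 := hYc j
      rw [Fin.sum_univ_two] at e1 e2
      simp only at e1 e2 ⊢
      omega
    · intro l
      rw [mu_a]
      have e1 := hXc l
      simp only [Fintype.sum_prod_type, Fin.sum_univ_two] at e1 ⊢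
      exact e1
    · intro l
      rw [mu_t]
    · intro i
      rw [mu_y]
      simp only [Fin.sum_univ_two]
      exact hYr i
  · unfold yd
    simp only [Fintype.sum_prod_type, Fin.sum_univ_two]
    rw [hYr 0, hYr 1]
    exact h3
  · intro i
    rcases i with (x | l) | (x | x)
    · exact hX0 _ _
    · exact h0 _
    · exact hY0 _ _
    · exact Int.natCast_nonneg m

end C9

theorem LiftE_proof (w : ℕ) : LiftE w := by
  classical
  intro m r s u h1 h2 h3 h4
  set K : ℤ := ∑ v, |u v| with hK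
  have hKu : ∀ v, 0 ≤ u v + K := by
    intro v
    have h5 : |u v| ≤ K := Finset.single_le_sum (f := fun v => |u v|) (fun i _ => abs_nonneg _) (Finset.mem_univ v)
    have := neg_abs_le (u v)
    omega
  have hK0 : 0 ≤ K := Finset.sum_nonneg fun i _ => abs_nonneg _
  set e : Sg w → ℤ := fun i => if i ∈ inS s then 1 else 0 with he
  have he0 : ∀ i, 0 ≤ e i := by
    intro i
    simp only [he]
    split_ifs <;> norm_num
  have her : ∀ x, e (Sum.inr x) = 0 := by
    intro x
    simp only [he]
    rw [if_neg]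
    simp [inS]
  have hmu0 : ∀ v, 0 ≤ mu e v := by
    intro v
    cases v with
    | g i => rw [C9.mu_g]; exact Finset.sum_nonneg fun _ _ => Finset.sum_nonneg fun _ _ => he0 _
    | h i =>
      rw [C9.mu_h]
      exact add_nonneg (Finset.sum_nonneg fun _ _ => Finset.sum_nonneg fun _ _ => he0 _)
        (Finset.sum_nonneg fun _ _ => he0 _)
    | a i => rw [C9.mu_a]; exact Finset.sum_nonneg fun _ _ => Finset.sum_nonneg fun _ _ => he0 _
    | t i => rw [C9.mu_t]; exact he0 _
    | y i => rw [C9.mu_y]; exact Finset.sum_nonneg fun _ _ => he0 _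
  have hmu1 : ∀ v, v ∈ suppS s → 1 ≤ mu e v := by
    intro v hv
    simp only [suppS, Finset.mem_biUnion] at hv
    obtain ⟨x, hx, hxv⟩ := hv
    have hex : e (Sum.inl x) = 1 := by
      simp only [he]
      rw [if_pos]
      simpa [inS] using hx
    have hmu : mu e v = ∑ i, e i • (muG i v) := by
      simp [mu, Finset.sum_apply]
    have hG0 : ∀ i : Sg w, 0 ≤ muG i v := by
      intro i
      rcases i with (x | l) | (x | x) <;> simp only [muG, ev, Pi.add_apply, Pi.single_apply, Pi.zero_apply]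
      · split_ifs <;> norm_num
      · split_ifs <;> norm_num
      · split_ifs <;> norm_num
      · exact le_refl _
    have hG1 : 1 ≤ muG (Sum.inl x : Sg w) v := by
      rcases x with x | l
      · simp only [supp, Finset.mem_insert, Finset.mem_singleton] at hxv
        simp only [muG, ev, Pi.add_apply, Pi.single_apply]
        rcases hxv with rfl | rfl | rfl <;> simp
      · simp only [supp, Finset.mem_singleton] at hxv
        subst hxv
        simp [muG, ev]
    rw [hmu]
    calc (1 : ℤ) ≤ e (Sum.inl x) • muG (Sum.inl x : Sg w) v := by rw [hex, one_smul]; exact hG1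
      _ ≤ ∑ i, e i • (muG i v) := Finset.single_le_sum (f := fun i => e i • muG i v)
          (fun i _ => by
            rw [smul_eq_mul]
            exact mul_nonneg (he0 i) (hG0 i)) (Finset.mem_univ (Sum.inl x))
  set u' : Var w → ℤ := u + K • mu e with hu'
  have hu'v : ∀ v, u' v = u v + K * mu e v := fun v => by simp [hu']
  have hu0 : ∀ v, 0 ≤ u' v := by
    intro v
    rw [hu'v]
    by_cases hv : u v < 0
    · have h5 := hmu1 v (h4 v hv)
      have h6 := hKu v
      nlinarith
    · have h5 := hmu0 v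
      have h6 : 0 ≤ K * mu e v := mul_nonneg hK0 h5
      omega
  have eh : hs u' - gs u' = r := by
    have e1 := C9.mu_g e 0
    have e2 := C9.mu_g e 1
    have e3 := C9.mu_h e 0
    have e4 := C9.mu_h e 1
    simp only [Fin.sum_univ_two, her] at e1 e2 e3 e4
    unfold hs gs at h1 ⊢
    rw [hu'v, hu'v, hu'v, hu'v, e1, e2, e3, e4]
    linear_combination h1
  have ea : as u' - gs u' = 0 := by
    have e1 := C9.mu_g e 0
    have e2 := C9.mu_g e 1
    have e3 := C9.mu_a e 0
    have e4 := C9.mu_a e 1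
    simp only [Fin.sum_univ_two] at e1 e2 e3 e4
    unfold as gs at h2 ⊢
    rw [hu'v, hu'v, hu'v, hu'v, e1, e2, e3, e4]
    linear_combination h2
  have ey : ys u' = r := by
    have e1 := C9.mu_y e 0
    have e2 := C9.mu_y e 1
    simp only [Fin.sum_univ_two, her] at e1 e2
    unfold ys at h3 ⊢
    rw [hu'v, hu'v, e1, e2]
    linear_combination h3
  obtain ⟨p, hp1, hp2, hp3, hp4⟩ := C9.lift_nonneg m r u' eh ea ey hu0
  refine ⟨p - K • e, ?_, ?_, ?_, ?_⟩
  · rw [map_sub, map_zsmul, hp1, hu', add_sub_cancel_right]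
  · unfold zd at hp2 ⊢
    rw [Pi.sub_apply, Pi.smul_apply, her, hp2]
    simp
  · unfold yd at hp3 ⊢
    simp only [Pi.sub_apply, Pi.smul_apply, her, smul_zero, sub_zero]
    exact hp3
  · intro i hi
    by_contra hcon
    have : e i = 0 := by
      simp only [he]
      rw [if_neg hcon]
    rw [Pi.sub_apply, Pi.smul_apply, this, smul_zero, sub_zero] at hi
    exact absurd hi (not_lt.2 (hp4 i))

end Pool.Agent.T2H37.LB
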