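import Mathlib

/-!
# Local cohomology with support in the irrelevant ideal of a polynomial ring

`H^i_m(M)` for a module `M` over the polynomial ring `k[x_j : j ∈ σ]` (`σ` finite) is the
cohomology of the Čech complex on the variables: an `i`-cochain is a family
`c (j_1, ..., j_i) ∈ M[1 / (x_{j_1} ... x_{j_i})]` indexed by all `i`-tuples of variables.
-/

set_option autoImplicit false

namespace Pool.Agent.T2H37.LB

open MvPolynomial Finset

section Cech

variable (k : Type) [Field k] {σ : Type} [DecidableEq σ]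

omit [DecidableEq σ] in
/-- the product of the variables with index in `s` -/
noncomputable def xs (s : Finset σ) : MvPolynomial σ k := ∏ j ∈ s, X j

variable (M : Type) [AddCommGroup M] [Module (MvPolynomial σ k) M]

/-- the localization `M[1 / xs s]` -/
abbrev Loc (s : Finset σ) : Type := LocalizedModule (Submonoid.powers (xs k s)) M

theorem isUnit_Loc {s t : Finset σ} (h : s ⊆ t) (x : Submonoid.powers (xs k s)) :
    IsUnit (algebraMap (MvPolynomial σ k) (Module.End (MvPolynomial σ k) (Loc k M t)) x) := by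
  obtain ⟨x, n, rfl⟩ := x
  obtain ⟨y, hy⟩ : xs k s ∣ xs k t := Finset.prod_dvd_prod_of_subset s t _ h
  have h2 : IsUnit (algebraMap (MvPolynomial σ k)
      (Module.End (MvPolynomial σ k) (Loc k M t)) (xs k t)) :=
    IsLocalizedModule.map_units (LocalizedModule.mkLinearMap (Submonoid.powers (xs k t)) M)
      ⟨xs k t, Submonoid.mem_powers _⟩
  rw [show ((⟨(fun x => xs k s ^ x) n, ⟨n, rfl⟩⟩ : Submonoid.powers (xs k s)) :
    MvPolynomial σ k) = xs k s ^ n from rfl, map_pow]
  have h3 : algebraMap (MvPolynomial σ k) (Module.End (MvPolynomial σ k) (Loc k M t)) (xs k t) =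
      algebraMap _ _ (xs k s) * algebraMap _ _ y := by rw [← map_mul, ← hy]
  rw [h3] at h2
  exact ((show Commute _ _ from Algebra.commutes (xs k s) _).isUnit_mul_iff.1 h2).1.pow n

/-- the localization map `M[1 / xs s] → M[1 / xs t]` for `s ⊆ t` -/
noncomputable def res {s t : Finset σ} (h : s ⊆ t) : Loc k M s →ₗ[MvPolynomial σ k] Loc k M t :=
  LocalizedModule.lift (Submonoid.powers (xs k s))
    (LocalizedModule.mkLinearMap (Submonoid.powers (xs k t)) M) (isUnit_Loc k M h)

/-- the Čech cochains of degree `i` -/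
abbrev Cochain (σ : Type) [DecidableEq σ] (M : Type) [AddCommGroup M]
    [Module (MvPolynomial σ k) M] (i : ℕ) : Type :=
  ∀ j : Fin i → σ, Loc k M (univ.image j)

theorem image_succAbove {i : ℕ} (j : Fin (i + 1) → σ) (m : Fin (i + 1)) :
    univ.image (j ∘ m.succAbove) ⊆ univ.image j := by
  intro x hx
  simp only [mem_image, mem_univ, true_and, Function.comp_apply] at hx ⊢
  obtain ⟨a, ha⟩ := hx
  exact ⟨_, ha⟩

/-- the Čech differential -/
noncomputable def dif (σ : Type) [DecidableEq σ] (M : Type) [AddCommGroup M]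
    [Module (MvPolynomial σ k) M] (i : ℕ) :
    Cochain k σ M i →ₗ[MvPolynomial σ k] Cochain k σ M (i + 1) :=
  LinearMap.pi fun j => ∑ m : Fin (i + 1), ((-1 : ℤ) ^ (m : ℕ)) •
    ((res k M (image_succAbove j m)) ∘ₗ LinearMap.proj (j ∘ m.succAbove))

/-- the cocycles -/
noncomputable def Zc (σ : Type) [DecidableEq σ] (M : Type) [AddCommGroup M]
    [Module (MvPolynomial σ k) M] (i : ℕ) : Submodule (MvPolynomial σ k) (Cochain k σ M i) :=
  LinearMap.ker (dif k σ M i)

/-- the coboundaries -/
noncomputable def Bc (σ : Type) [DecidableEq σ] (M : Type) [AddCommGroup M]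
    [Module (MvPolynomial σ k) M] : (i : ℕ) → Submodule (MvPolynomial σ k) (Cochain k σ M i)
  | 0 => ⊥
  | i + 1 => LinearMap.range (dif k σ M i)

/-- the local cohomology module `H^i_m(M)`, `m` the ideal generated by the variables -/
abbrev LocalCoh (σ : Type) [DecidableEq σ] (M : Type) [AddCommGroup M]
    [Module (MvPolynomial σ k) M] (i : ℕ) : Type :=
  Zc k σ M i ⧸ (Bc k σ M i).submoduleOf (Zc k σ M i)

end Cech

section Graded

variable {k : Type} [Field k] {σ : Type} [DecidableEq σ]

/-- `z ∈ (R / I)[1 / xs s]` is homogeneous of degree `e`: it is a fraction `f / (xs s)^N` with `f`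
a homogeneous polynomial of degree `e + N |s|`. -/
def IsHom (I : Ideal (MvPolynomial σ k)) (s : Finset σ) (e : ℤ)
    (z : Loc k (MvPolynomial σ k ⧸ I) s) : Prop :=
  ∃ (N D : ℕ) (f : MvPolynomial σ k), f.IsHomogeneous D ∧ (D : ℤ) = e + N * s.card ∧
    z = LocalizedModule.mk (Ideal.Quotient.mk I f) ⟨xs k s ^ N, Submonoid.pow_mem _ (Submonoid.mem_powers _) N⟩

/-- the graded component `H^i_m(R / I)_e` is not zero: there is a Čech cocycle of degree `i` with
all values homogeneous of degree `e` that is not a coboundary -/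
def ComponentNeZero (I : Ideal (MvPolynomial σ k)) (i : ℕ) (e : ℤ) : Prop :=
  ∃ c : Cochain k σ (MvPolynomial σ k ⧸ I) i, c ∈ Zc k σ _ i ∧
    (∀ j, IsHom I (univ.image j) e (c j)) ∧ c ∉ Bc k σ _ i

end Graded

end Pool.Agent.T2H37.LB
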