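import Pool.Agent.T2H37.LB.Cech

/-!
# Local cohomology with support in the irrelevant ideal of a polynomial ring

`H^i_m(M)` for a module `M` over the polynomial ring `k[x_j : j ∈ σ]` (`σ` finite) is the
cohomology of the Čech complex on the variables: an `i`-cochain is a family
`c (j_1, ..., j_i) ∈ M[1 / (x_{j_1} ... x_{j_i})]` indexed by all `i`-tuples of variables.
-/

set_option autoImplicit false

namespace Pool.Agent.T2H37.LB

open MvPolynomial Finset

section Mods

variable (k : Type) [Field k] {σ : Type}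
variable (M : Type) [AddCommGroup M] [Module (MvPolynomial σ k) M]

/-- the localization `M[1 / xs s]`, `xs s` the product of the variables with index in `s` -/
def LM (s : Finset σ) : Type := LocalizedModule (Submonoid.powers (xs k s)) M

noncomputable instance instAddCommGroupLM (s : Finset σ) : AddCommGroup (LM k M s) :=
  (inferInstance : AddCommGroup (LocalizedModule (Submonoid.powers (xs k s)) M))

noncomputable instance instModuleLM (s : Finset σ) : Module (MvPolynomial σ k) (LM k M s) :=
  (inferInstance : Module (MvPolynomial σ k) (LocalizedModule (Submonoid.powers (xs k s)) M))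

/-- the fraction `m / (xs s)^N` -/
noncomputable def frac (s : Finset σ) (m : M) (N : ℕ) : LM k M s :=
  LocalizedModule.mk m ⟨xs k s ^ N, Submonoid.pow_mem _ (Submonoid.mem_powers _) N⟩

variable [DecidableEq σ]

omit [DecidableEq σ] in
/-- the map `M → M[1 / xs s]` -/
noncomputable def locM (s : Finset σ) : M →ₗ[MvPolynomial σ k] LM k M s :=
  LocalizedModule.mkLinearMap (Submonoid.powers (xs k s)) M

theorem isUnit_LM {s t : Finset σ} (h : s ⊆ t) (x : Submonoid.powers (xs k s)) :
    IsUnit (algebraMap (MvPolynomial σ k) (Module.End (MvPolynomial σ k) (LM k M t)) x) :=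
  isUnit_Loc k M h x

/-- the localization map `M[1 / xs s] → M[1 / xs t]` for `s ⊆ t` -/
noncomputable def resM {s t : Finset σ} (h : s ⊆ t) : LM k M s →ₗ[MvPolynomial σ k] LM k M t :=
  LocalizedModule.lift (Submonoid.powers (xs k s)) (locM k M t) (isUnit_LM k M h)

/-- the Čech cochains of degree `i` -/
def CM (i : ℕ) : Type := ∀ j : Fin i → σ, LM k M (univ.image j)

noncomputable instance instAddCommGroupCM (i : ℕ) : AddCommGroup (CM k (σ := σ) M i) :=
  (inferInstance : AddCommGroup (∀ j : Fin i → σ, LM k M (univ.image j)))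

noncomputable instance instModuleCM (i : ℕ) : Module (MvPolynomial σ k) (CM k (σ := σ) M i) :=
  (inferInstance : Module (MvPolynomial σ k) (∀ j : Fin i → σ, LM k M (univ.image j)))

/-- the value of a cochain at a tuple -/
def val {i : ℕ} (c : CM k (σ := σ) M i) (j : Fin i → σ) : LM k M (univ.image j) := c j

theorem val_add {i : ℕ} (c d : CM k (σ := σ) M i) (j : Fin i → σ) :
    val k M (c + d) j = val k M c j + val k M d j := rfl

theorem val_smul {i : ℕ} (r : MvPolynomial σ k) (c : CM k (σ := σ) M i) (j : Fin i → σ) :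
    val k M (r • c) j = r • val k M c j := rfl

/-- the Čech differential:
`(difF c) (j_0, ..., j_i) = ∑ (-1)^m (restriction of c (j_0, ..., omit j_m, ..., j_i))` -/
noncomputable def difF {i : ℕ} (c : CM k (σ := σ) M i) : CM k (σ := σ) M (i + 1) :=
  fun j => ∑ m : Fin (i + 1), ((-1 : ℤ) ^ (m : ℕ)) •
    resM k M (image_succAbove j m) (val k M c (j ∘ m.succAbove))

theorem difF_add {i : ℕ} (c d : CM k (σ := σ) M i) :
    difF k M (c + d) = difF k M c + difF k M d := by
  funext j
  change _ = difF k M c j + difF k M d j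
  simp only [difF, val_add, map_add, smul_add, Finset.sum_add_distrib]

theorem difF_smul {i : ℕ} (r : MvPolynomial σ k) (c : CM k (σ := σ) M i) :
    difF k M (r • c) = r • difF k M c := by
  funext j
  change _ = r • difF k M c j
  simp only [difF, val_smul, map_smul, Finset.smul_sum]
  refine Finset.sum_congr rfl fun m _ => ?_
  rw [smul_comm]

/-- the Čech differential as a linear map -/
noncomputable def difM (i : ℕ) :
    CM k (σ := σ) M i →ₗ[MvPolynomial σ k] CM k (σ := σ) M (i + 1) where
  toFun := difF k M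
  map_add' := difF_add k M
  map_smul' := difF_smul k M

/-- the cocycles of degree `i` -/
noncomputable def ZM (i : ℕ) : Submodule (MvPolynomial σ k) (CM k (σ := σ) M i) :=
  LinearMap.ker (difM k M i)

/-- the coboundaries of degree `i` -/
noncomputable def BM : (i : ℕ) → Submodule (MvPolynomial σ k) (CM k (σ := σ) M i)
  | 0 => ⊥
  | i + 1 => LinearMap.range (difM k M i)

/-- the local cohomology module `H^i_m(M)`, `m` the ideal generated by the variables: the image of
the cocycles in the module of cochains modulo coboundaries -/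
noncomputable def HM (i : ℕ) : Submodule (MvPolynomial σ k) (CM k (σ := σ) M i ⧸ BM k (σ := σ) M i) :=
  (ZM k M i).map (BM k M i).mkQ

/-- the length of the module `H^i_m(M)` -/
noncomputable def lenHM (i : ℕ) : ℕ∞ := Module.length (MvPolynomial σ k) (HM k (σ := σ) M i)

end Mods

section Graded

variable {k : Type} [Field k] {σ : Type} [DecidableEq σ]

/-- the length of the `R`-module `H^i_m(R / I^n)`, `R = k[x_j : j ∈ σ]` -/
noncomputable def lengthH (I : Ideal (MvPolynomial σ k)) (n i : ℕ) : ℕ∞ :=
  lenHM k (σ := σ) (MvPolynomial σ k ⧸ I ^ n) i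

/-- `z ∈ (R / I)[1 / xs s]` is homogeneous of degree `e`: it is a fraction `f / (xs s)^N` with `f`
a homogeneous polynomial of degree `e + N |s|`. -/
def HomogM (I : Ideal (MvPolynomial σ k)) (s : Finset σ) (e : ℤ)
    (z : LM k (MvPolynomial σ k ⧸ I) s) : Prop :=
  ∃ (N D : ℕ) (f : MvPolynomial σ k), f.IsHomogeneous D ∧ (D : ℤ) = e + N * s.card ∧
    z = frac k (MvPolynomial σ k ⧸ I) s (Ideal.Quotient.mk I f) N

/-- the graded component `H^i_m(R / I)_e` is not zero: there is a Čech cocycle of degree `i` with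
all values homogeneous of degree `e` that is not a coboundary -/
def HComponentNeZero (I : Ideal (MvPolynomial σ k)) (i : ℕ) (e : ℤ) : Prop :=
  ∃ c ∈ ZM k (MvPolynomial σ k ⧸ I) i,
    (∀ j, HomogM I (univ.image j) e (val k (MvPolynomial σ k ⧸ I) c j)) ∧
    c ∉ BM k (MvPolynomial σ k ⧸ I) i

end Graded

/-! ## comparison with the first definitions -/

section Compare

variable (k : Type) [Field k] {σ : Type} [DecidableEq σ]
variable (M : Type) [AddCommGroup M] [Module (MvPolynomial σ k) M]

theorem dif_val (i : ℕ) (c : Cochain k σ M i) (j : Fin (i + 1) → σ) : dif k σ M i c j =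
    ∑ m : Fin (i + 1), ((-1 : ℤ) ^ (m : ℕ)) • res k M (image_succAbove j m)
      (c (j ∘ m.succAbove)) := by
  rw [dif, LinearMap.pi_apply, LinearMap.sum_apply]
  rfl

theorem difM_eq (i : ℕ) (c : CM k (σ := σ) M i) : difM k M i c = dif k σ M i c := by
  funext j
  exact (dif_val k M i c j).symm

theorem ZM_eq (i : ℕ) : (ZM k (σ := σ) M i : Submodule (MvPolynomial σ k) (CM k (σ := σ) M i)) =
    (Zc k σ M i : Submodule (MvPolynomial σ k) (Cochain k σ M i)) := by
  ext c
  change difM k M i c = 0 ↔ dif k σ M i c = 0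
  rw [difM_eq]
  rfl

theorem BM_eq (i : ℕ) : (BM k (σ := σ) M i : Submodule (MvPolynomial σ k) (CM k (σ := σ) M i)) =
    (Bc k σ M i : Submodule (MvPolynomial σ k) (Cochain k σ M i)) := by
  cases i with
  | zero => rfl
  | succ i =>
    ext c
    change (∃ b, difM k M i b = c) ↔ (∃ b, dif k σ M i b = c)
    constructor
    · rintro ⟨b, hb⟩
      exact ⟨b, by rw [← hb, difM_eq]⟩
    · rintro ⟨b, hb⟩
      exact ⟨b, by rw [← hb]; exact difM_eq k M i b⟩

theorem quot_length {R C : Type} [CommRing R] [AddCommGroup C] [Module R C] (Z B : Submodule R C) :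
    Module.length R (Z.map B.mkQ) = Module.length R (Z ⧸ B.submoduleOf Z) := by
  let f : Z →ₗ[R] C ⧸ B := B.mkQ ∘ₗ Z.subtype
  have hk : LinearMap.ker f = B.submoduleOf Z := by
    rw [LinearMap.ker_comp, Submodule.ker_mkQ]
    rfl
  have hr : LinearMap.range f = Z.map B.mkQ := by
    rw [LinearMap.range_comp, Submodule.range_subtype]
  rw [← hk, ← hr]
  exact (LinearMap.quotKerEquivRange f).symm.length_eq

theorem length_HM_eq (i : ℕ) : Module.length (MvPolynomial σ k) (HM k (σ := σ) M i) =
    Module.length (MvPolynomial σ k) (LocalCoh k σ M i) := by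
  rw [HM, quot_length]
  have key : ∀ (Z Z' B B' : Submodule (MvPolynomial σ k) (Cochain k σ M i)), Z = Z' → B = B' →
      Module.length (MvPolynomial σ k) (Z ⧸ B.submoduleOf Z) =
      Module.length (MvPolynomial σ k) (Z' ⧸ B'.submoduleOf Z') := by
    rintro Z Z' B B' rfl rfl
    rfl
  exact key _ _ _ _ (ZM_eq k M i) (BM_eq k M i)

end Compare

theorem lengthH_eq {k : Type} [Field k] {σ : Type} [DecidableEq σ]
    (I : Ideal (MvPolynomial σ k)) (n i : ℕ) : lengthH I n i =
    Module.length (MvPolynomial σ k) (LocalCoh k σ (MvPolynomial σ k ⧸ I ^ n) i) :=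
  length_HM_eq k _ i

theorem HComponentNeZero_of {k : Type} [Field k] {σ : Type} [DecidableEq σ]
    (I : Ideal (MvPolynomial σ k)) (i : ℕ) (e : ℤ) (h : ComponentNeZero I i e) :
    HComponentNeZero I i e := by
  obtain ⟨c, hc, hh, hb⟩ := h
  have h1 : c ∈ (ZM k (σ := σ) (MvPolynomial σ k ⧸ I) i :
      Submodule (MvPolynomial σ k) (CM k (σ := σ) (MvPolynomial σ k ⧸ I) i)) := by
    have := ZM_eq k (σ := σ) (MvPolynomial σ k ⧸ I) i
    rw [this]
    exact hc
  have h2 : c ∉ (BM k (σ := σ) (MvPolynomial σ k ⧸ I) i :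
      Submodule (MvPolynomial σ k) (CM k (σ := σ) (MvPolynomial σ k ⧸ I) i)) := by
    have := BM_eq k (σ := σ) (MvPolynomial σ k ⧸ I) i
    rw [this]
    exact hb
  refine ⟨c, h1, fun j => ?_, h2⟩
  obtain ⟨N, D, f, h1, h2, h3⟩ := hh j
  exact ⟨N, D, f, h1, h2, h3⟩

end Pool.Agent.T2H37.LB
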