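import Pool.Agent.T2H37.LB.StmA
import Pool.Agent.T2H37.LB.StmC

/-!
# LB: the final assembly
-/

set_option autoImplicit false

namespace Pool.Agent.T2H37.LB

open MvPolynomial

theorem card_Sg (w : ℕ) : Fintype.card (Sg w) = w + 15 := by
  simp [Sg, GG]
  omega

/-- the lengths are finite and large -/
theorem fin_length (k : Type) [Field k] (w : ℕ) (hC : CechIso k) (hL : LenDim k)
    (hG : GenDelta k w) (hA : Asm k w) (hK : KMgrowth k w) (h3 : IJ3 k w) :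
    ∃ I : Ideal (MvPolynomial (Sg w) k), (∀ f ∈ I, ∀ D, homogeneousComponent D f ∈ I) ∧
      (∀ n : ℕ, 1 ≤ n → Module.length (MvPolynomial (Sg w) k)
        (LocalCoh k (Sg w) (MvPolynomial (Sg w) k ⧸ I ^ n) (w + 4)) ≠ ⊤) ∧
      ∃ c : ℝ, 0 < c ∧ ∃ n0 : ℕ, ∀ n : ℕ, n0 ≤ n → c * (n : ℝ) ^ (2 * w + 4) ≤
        ((Module.length (MvPolynomial (Sg w) k)
          (LocalCoh k (Sg w) (MvPolynomial (Sg w) k ⧸ I ^ n) (w + 4))).toNat : ℝ) := by
  obtain ⟨δ, hδ, hδ2⟩ := hG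
  have key : ∀ n : ℕ, 1 ≤ n → Module.length (MvPolynomial (Sg w) k)
        (LocalCoh k (Sg w) (MvPolynomial (Sg w) k ⧸ JJ k w δ ^ n) (w + 4)) =
        Module.finrank k (HQ (VR k (σ := Sg w)) (IV k (JJ k w δ ^ n)) (w + 3)) := by
    intro n hn
    obtain ⟨hfin, -, -⟩ := hA δ n hδ hδ2 hn
    obtain ⟨⟨F, hF⟩, -⟩ := hC (Sg w) (JJ k w δ ^ n) (w + 3)
    exact hL (Sg w) _ _ F hF
  refine ⟨JJ k w δ, h3.2 δ, ?_, ?_⟩
  · intro n hn
    rw [key n hn]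
    exact ENat.coe_ne_top _
  · obtain ⟨c, hc, r0, hr⟩ := hK
    refine ⟨c, hc, max 1 r0, fun n hn => ?_⟩
    have hn1 : 1 ≤ n := le_trans (le_max_left _ _) hn
    have hnr : r0 ≤ n := le_trans (le_max_right _ _) hn
    have h1 : n ≤ 2 * δ * n - 1 := by
      have : 2 * 1 * n ≤ 2 * δ * n := by gcongr
      omega
    obtain ⟨m, v, hv, hvK, hm⟩ := hr (2 * δ * n - 1) (hnr.trans h1)
    obtain ⟨-, hbig, -⟩ := hA δ n hδ hδ2 hn1
    have h2 := hbig m v hv hvK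
    rw [key n hn1]
    calc c * (n : ℝ) ^ (2 * w + 4) ≤ c * ((2 * δ * n - 1 : ℕ) : ℝ) ^ (2 * w + 4) := by
          gcongr
      _ ≤ m := hm
      _ ≤ _ := by
          rw [ENat.toNat_coe]
          exact_mod_cast h2

/-- a nonzero component in very negative degree -/
theorem fin_low (k : Type) [Field k] (w : ℕ) (hC : CechIso k) (hL : LenDim k)
    (hG : GenDelta k w) (hA : Asm k w) (hK : KMlow k w) (h3 : IJ3 k w) :
    ∃ I : Ideal (MvPolynomial (Sg w) k), (∀ f ∈ I, ∀ D, homogeneousComponent D f ∈ I) ∧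
      (∀ n : ℕ, 1 ≤ n → Module.length (MvPolynomial (Sg w) k)
        (LocalCoh k (Sg w) (MvPolynomial (Sg w) k ⧸ I ^ n) (w + 4)) ≠ ⊤) ∧
      ∃ n0 : ℕ, ∀ n : ℕ, n0 ≤ n → ∃ e : ℤ, (e : ℝ) ≤ -((n : ℝ) ^ 2 / 8) ∧
        ComponentNeZero (I ^ n) (w + 4) e := by
  obtain ⟨δ, hδ, hδ2⟩ := hG
  refine ⟨JJ k w δ, h3.2 δ, ?_, ?_⟩
  · intro n hn
    obtain ⟨hfin, -, -⟩ := hA δ n hδ hδ2 hn
    obtain ⟨⟨F, hF⟩, -⟩ := hC (Sg w) (JJ k w δ ^ n) (w + 3)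
    have : Module.length (MvPolynomial (Sg w) k)
        (LocalCoh k (Sg w) (MvPolynomial (Sg w) k ⧸ JJ k w δ ^ n) (w + 4)) =
        Module.finrank k (HQ (VR k (σ := Sg w)) (IV k (JJ k w δ ^ n)) (w + 3)) :=
      hL (Sg w) _ _ F hF
    rw [this]
    exact ENat.coe_ne_top _
  · obtain ⟨r0, hr⟩ := hK
    refine ⟨max 18 r0, fun n hn => ?_⟩
    have hn1 : 18 ≤ n := le_trans (le_max_left _ _) hn
    have hnr : r0 ≤ n := le_trans (le_max_right _ _) hn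
    have hx : n ≤ δ * n := by
      have : 1 * n ≤ δ * n := by gcongr
      omega
    have h1 : n ≤ 2 * δ * n - 1 := by
      have : 2 * 1 * n ≤ 2 * δ * n := by gcongr
      omega
    obtain ⟨g, hgK, hg0, ω, hω, hωr⟩ := hr (2 * δ * n - 1) (hnr.trans h1)
    obtain ⟨-, -, hhom⟩ := hA δ n hδ hδ2 (by omega)
    obtain ⟨c, hcZ, hcH, hcB⟩ := hhom g hgK hg0 ω hω
    refine ⟨ω + 3 + 2 * δ * n, ?_, ?_⟩
    · push_cast
      have hc1 : ((2 * δ * n - 1 : ℕ) : ℝ) = 2 * δ * n - 1 := by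
        rw [Nat.cast_sub (by nlinarith)]
        push_cast
        ring
      rw [hc1] at hωr
      have hx' : (n : ℝ) ≤ δ * n := by exact_mod_cast hx
      have hn' : (18 : ℝ) ≤ n := by exact_mod_cast hn1
      set x : ℝ := (δ : ℝ) * n with hxdef
      have h2 : (2 * (δ : ℝ) * n - 1) = 2 * x - 1 := by rw [hxdef]; ring
      have h3' : 2 * (δ : ℝ) * n = 2 * x := by rw [hxdef]; ring
      rw [h2] at hωr
      rw [h3']
      nlinarith
    · exact (hC (Sg w) (JJ k w δ ^ n) (w + 3)).2 _ ⟨c, hcZ, hcH, hcB⟩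

end Pool.Agent.T2H37.LB
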