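import Pool.Agent.T2H37.LB.StmC

/-!
# LB: a small library on Laurent polynomials, `iR`, `piL` (used by C4, C5, C6)
-/

set_option autoImplicit false
set_option linter.unusedSectionVars false

namespace Pool.Agent.T2H37.LB.LibC

open Finset MvPolynomial Pool.Agent.T2H37.LB

section Gen

variable {k : Type} [Field k] {M N : Type} [AddCommGroup M] [AddCommGroup N]

/-- the elements all of whose exponents satisfy `P` -/
def SP (k : Type) [Field k] {M : Type} (P : M → Prop) : Submodule k (AddMonoidAlgebra k M) where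
  carrier := {f | ∀ u, f.coeff u ≠ 0 → P u}
  zero_mem' := fun u hu => absurd rfl hu
  add_mem' := by
    intro f g hf hg u hu
    rw [AddMonoidAlgebra.coeff_add, Finsupp.add_apply] at hu
    by_cases h : f.coeff u = 0
    · rw [h, zero_add] at hu
      exact hg u hu
    · exact hf u h
  smul_mem' := by
    intro c f hf u hu
    apply hf u
    intro h
    apply hu
    rw [AddMonoidAlgebra.coeff_smul, Finsupp.smul_apply, h, smul_zero]

theorem mem_SP {P : M → Prop} {f : AddMonoidAlgebra k M} :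
    f ∈ SP k P ↔ ∀ u, f.coeff u ≠ 0 → P u := Iff.rfl

theorem sum_singles (f : AddMonoidAlgebra k M) :
    f = ∑ u ∈ f.coeff.support, AddMonoidAlgebra.single u (f.coeff u) := by
  conv_lhs => rw [← AddMonoidAlgebra.sum_coeff_single f]
  rfl

theorem mem_of_singles (W : Submodule k (AddMonoidAlgebra k M)) (f : AddMonoidAlgebra k M)
    (h : ∀ u, f.coeff u ≠ 0 → AddMonoidAlgebra.single u (f.coeff u) ∈ W) : f ∈ W := by
  rw [sum_singles f]
  exact Submodule.sum_mem _ fun u hu => h u (Finsupp.mem_support_iff.1 hu)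

theorem single_mem_SP {P : M → Prop} {u : M} {a : k} (h : P u) :
    AddMonoidAlgebra.single u a ∈ SP k P := by
  classical
  intro v hv
  rw [AddMonoidAlgebra.coeff_single, Finsupp.single_apply] at hv
  split_ifs at hv with h1
  · rw [← h1]
    exact h
  · exact absurd rfl hv

/-- products -/
theorem SP_mul {P Q R : M → Prop} (h : ∀ a b, P a → Q b → R (a + b)) {f g : AddMonoidAlgebra k M}
    (hf : f ∈ SP k P) (hg : g ∈ SP k Q) : f * g ∈ SP k R := by
  have h1 : ∀ u, f.coeff u ≠ 0 → AddMonoidAlgebra.single u (f.coeff u) * g ∈ SP k R := by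
    intro u hu
    rw [sum_singles g, Finset.mul_sum]
    refine Submodule.sum_mem _ fun v hv => ?_
    rw [AddMonoidAlgebra.single_mul_single]
    exact single_mem_SP (h u v (hf u hu) (hg v (Finsupp.mem_support_iff.1 hv)))
  rw [sum_singles f, Finset.sum_mul]
  exact Submodule.sum_mem _ fun u hu => h1 u (Finsupp.mem_support_iff.1 hu)

theorem SP_mono {P Q : M → Prop} (h : ∀ a, P a → Q a) {f : AddMonoidAlgebra k M}
    (hf : f ∈ SP k P) : f ∈ SP k Q := fun u hu => h u (hf u hu)

/-- linear maps given on singles -/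
def OnS (φ : M → N) (F : AddMonoidAlgebra k M →ₗ[k] AddMonoidAlgebra k N) : Prop :=
  ∀ u a, F (AddMonoidAlgebra.single u a) = AddMonoidAlgebra.single (φ u) a

theorem map_mem_SP {φ : M → N} {F : AddMonoidAlgebra k M →ₗ[k] AddMonoidAlgebra k N}
    (hF : OnS φ F) {P : M → Prop} {Q : N → Prop} (h : ∀ a, P a → Q (φ a))
    {f : AddMonoidAlgebra k M} (hf : f ∈ SP k P) : F f ∈ SP k Q := by
  rw [sum_singles f, map_sum]
  refine Submodule.sum_mem _ fun u hu => ?_
  rw [hF]
  exact single_mem_SP (h u (hf u (Finsupp.mem_support_iff.1 hu)))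

/-- the part with exponents satisfying `P` -/
noncomputable def rs (P : M → Prop) : AddMonoidAlgebra k M →ₗ[k] AddMonoidAlgebra k M := by
  classical
  exact
  { toFun := fun f => AddMonoidAlgebra.ofCoeff (f.coeff.filter P)
    map_add' := fun f g => by
      ext u
      simp [Finsupp.filter_add]
    map_smul' := fun c f => by
      ext u
      simp [Finsupp.filter_smul] }

theorem coeff_rs (P : M → Prop) [DecidablePred P] (f : AddMonoidAlgebra k M) (u : M) :
    (rs P f).coeff u = if P u then f.coeff u else 0 := by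
  classical
  have h : (rs P f).coeff u = (f.coeff.filter P) u := by
    unfold rs
    simp only [LinearMap.coe_mk, AddHom.coe_mk, AddMonoidAlgebra.coeff_ofCoeff]
    congr
  rw [h, Finsupp.filter_apply]

theorem rs_single_pos {P : M → Prop} {u : M} (a : k) (h : P u) :
    rs P (AddMonoidAlgebra.single u a) = AddMonoidAlgebra.single u a := by
  classical
  ext v
  rw [coeff_rs]
  by_cases hv : P v
  · rw [if_pos hv]
  · rw [if_neg hv, AddMonoidAlgebra.coeff_single, Finsupp.single_apply, if_neg]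
    rintro rfl
    exact hv h

theorem rs_single_neg {P : M → Prop} {u : M} (a : k) (h : ¬ P u) :
    rs P (AddMonoidAlgebra.single u a) = 0 := by
  classical
  ext v
  rw [coeff_rs, AddMonoidAlgebra.coeff_zero, Finsupp.zero_apply]
  by_cases hv : P v
  · rw [if_pos hv, AddMonoidAlgebra.coeff_single, Finsupp.single_apply, if_neg]
    rintro rfl
    exact h hv
  · rw [if_neg hv]

theorem rs_mem (P : M → Prop) {Q : M → Prop} {f : AddMonoidAlgebra k M} (hf : f ∈ SP k Q) :
    rs P f ∈ SP k fun u => P u ∧ Q u := by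
  classical
  intro u hu
  rw [coeff_rs] at hu
  split_ifs at hu with h
  · exact ⟨h, hf u hu⟩
  · exact absurd rfl hu

theorem rs_congr {P P' Q : M → Prop} {f : AddMonoidAlgebra k M} (hf : f ∈ SP k Q)
    (h : ∀ u, Q u → (P u ↔ P' u)) : rs P f = rs P' f := by
  classical
  ext u
  rw [coeff_rs, coeff_rs]
  by_cases hu : f.coeff u = 0
  · simp [hu]
  · have := h u (hf u hu)
    by_cases hP : P u
    · rw [if_pos hP, if_pos (this.1 hP)]
    · rw [if_neg hP, if_neg (fun h' => hP (this.2 h'))]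

theorem rs_self {P : M → Prop} {f : AddMonoidAlgebra k M} (hf : f ∈ SP k P) : rs P f = f := by
  classical
  ext u
  rw [coeff_rs]
  by_cases hu : f.coeff u = 0
  · simp [hu]
  · rw [if_pos (hf u hu)]

theorem rs_mul {P P' Q : M → Prop} (h : ∀ a b, Q b → (P (a + b) ↔ P' a))
    (f : AddMonoidAlgebra k M) {g : AddMonoidAlgebra k M} (hg : g ∈ SP k Q) :
    rs P (f * g) = rs P' f * g := by
  have h1 : ∀ u a, rs P (AddMonoidAlgebra.single u a * g) =
      rs P' (AddMonoidAlgebra.single u a) * g := by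
    intro u a
    rw [sum_singles g, Finset.mul_sum, map_sum, Finset.mul_sum]
    refine Finset.sum_congr rfl fun v hv => ?_
    rw [AddMonoidAlgebra.single_mul_single]
    have h2 := h u v (hg v (Finsupp.mem_support_iff.1 hv))
    by_cases hP : P (u + v)
    · rw [rs_single_pos _ hP, rs_single_pos _ (h2.1 hP), AddMonoidAlgebra.single_mul_single]
    · rw [rs_single_neg _ hP, rs_single_neg _ (fun h' => hP (h2.2 h')), zero_mul]
  conv_lhs => rw [sum_singles f]
  conv_rhs => rw [sum_singles f]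
  rw [Finset.sum_mul, map_sum, map_sum, Finset.sum_mul]
  exact Finset.sum_congr rfl fun u _ => h1 u _

theorem rs_map {φ : M → N} {F : AddMonoidAlgebra k M →ₗ[k] AddMonoidAlgebra k N}
    (hF : OnS φ F) (P : N → Prop) (f : AddMonoidAlgebra k M) :
    F (rs (fun u => P (φ u)) f) = rs P (F f) := by
  conv_lhs => rw [sum_singles f]
  conv_rhs => rw [sum_singles f]
  rw [map_sum, map_sum, map_sum, map_sum]
  refine Finset.sum_congr rfl fun u _ => ?_
  rw [hF]
  by_cases hP : P (φ u)
  · rw [rs_single_pos _ hP, rs_single_pos (P := fun u => P (φ u)) _ hP, hF]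
  · rw [rs_single_neg _ hP, rs_single_neg (P := fun u => P (φ u)) _ hP, map_zero]

/-- sum of the pieces -/
theorem sum_pieces {ι : Type} [DecidableEq ι] (d : M → ι) (f : AddMonoidAlgebra k M) :
    f = ∑ i ∈ f.coeff.support.image d, rs (fun u => d u = i) f := by
  classical
  ext u
  rw [AddMonoidAlgebra.coeff_sum, Finsupp.finsetSum_apply]
  simp_rw [coeff_rs]
  by_cases hu : f.coeff u = 0
  · simp [hu]
  · rw [Finset.sum_ite_eq, if_pos (Finset.mem_image_of_mem d (Finsupp.mem_support_iff.2 hu))]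

end Gen

section IR

variable (k : Type) [Field k] {σ : Type} [DecidableEq σ]

/-- exponents of a monomial -/
def cs (d : σ →₀ ℕ) : σ → ℤ := fun i => (d i : ℤ)

theorem cs_injective : Function.Injective (cs : (σ →₀ ℕ) → (σ → ℤ)) := by
  intro a b h
  ext i
  have := congrFun h i
  simpa [cs] using this

theorem iR_monomial [Fintype σ] (d : σ →₀ ℕ) (a : k) :
    iR k (monomial d a) = AddMonoidAlgebra.single (cs d) a := by
  unfold iR
  rw [aeval_monomial]
  have h1 : ∀ i : σ, ((AddMonoidAlgebra.single (Pi.single i (1 : ℤ)) (1 : k) : LR k σ)) ^ (d i) =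
      AddMonoidAlgebra.single (Pi.single i ((d i : ℤ))) 1 := by
    intro i
    rw [AddMonoidAlgebra.single_pow, one_pow, ← Pi.single_smul]
    simp
  have h2 : ∀ s : Finset σ, ∏ i ∈ s, (AddMonoidAlgebra.single (Pi.single i ((d i : ℤ))) (1 : k) :
      LR k σ) = AddMonoidAlgebra.single (∑ i ∈ s, Pi.single i ((d i : ℤ))) 1 := by
    intro s
    induction s using Finset.induction_on with
    | empty => simp [AddMonoidAlgebra.one_def]
    | insert i s hi ih =>
      rw [Finset.prod_insert hi, Finset.sum_insert hi, ih, AddMonoidAlgebra.single_mul_single,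
        one_mul]
  rw [Finsupp.prod_fintype _ _ (by simp)]
  simp_rw [h1]
  rw [h2]
  have h3 : (∑ i, Pi.single i ((d i : ℤ)) : σ → ℤ) = cs d := by
    rw [Finset.univ_sum_single]
    rfl
  rw [h3, AddMonoidAlgebra.coe_algebraMap]
  simp

theorem iR_eq_sum [Fintype σ] (f : MvPolynomial σ k) :
    iR k f = ∑ d ∈ f.support, AddMonoidAlgebra.single (cs d) (coeff d f) := by
  conv_lhs => rw [f.as_sum, map_sum]
  exact Finset.sum_congr rfl fun d _ => iR_monomial k d _

theorem iR_coeff [Fintype σ] (f : MvPolynomial σ k) (d : σ →₀ ℕ) :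
    (iR k f).coeff (cs d) = coeff d f := by
  classical
  rw [iR_eq_sum, AddMonoidAlgebra.coeff_sum, Finsupp.finsetSum_apply]
  simp_rw [AddMonoidAlgebra.coeff_single, Finsupp.single_apply, cs_injective.eq_iff]
  rw [Finset.sum_ite_eq']
  split_ifs with h
  · rfl
  · exact (notMem_support_iff.1 h).symm

theorem iR_injective [Fintype σ] : Function.Injective (iR k (σ := σ)) := by
  intro f g h
  ext d
  rw [← iR_coeff, ← iR_coeff, h]

theorem iR_nonneg [Fintype σ] (f : MvPolynomial σ k) :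
    iR k f ∈ SP k fun u : σ → ℤ => ∀ i, 0 ≤ u i := by
  rw [iR_eq_sum]
  refine Submodule.sum_mem _ fun d _ => single_mem_SP fun i => ?_
  exact Int.natCast_nonneg _

theorem iR_surj [Fintype σ] {f : LR k σ} (hf : f ∈ SP k fun u : σ → ℤ => ∀ i, 0 ≤ u i) :
    ∃ g, iR k g = f := by
  have h : f ∈ LinearMap.range (iR k (σ := σ)).toLinearMap := by
    refine mem_of_singles _ f fun u hu => ?_
    refine ⟨monomial (Finsupp.equivFunOnFinite.symm fun i => (u i).toNat) (f.coeff u), ?_⟩
    rw [AlgHom.toLinearMap_apply, iR_monomial]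
    congr 1
    funext i
    have := hf u hu i
    simp [cs, this]
  obtain ⟨g, hg⟩ := h
  exact ⟨g, hg⟩

theorem iR_hc [Fintype σ] (f : MvPolynomial σ k) (D : ℕ) :
    iR k (homogeneousComponent D f) = rs (fun u : σ → ℤ => ∑ i, u i = D) (iR k f) := by
  classical
  conv_rhs => rw [iR_eq_sum, map_sum]
  have h : homogeneousComponent D f = ∑ d ∈ f.support, if d.degree = D then
      monomial d (coeff d f) else 0 := by
    rw [homogeneousComponent_apply, Finset.sum_filter]
  rw [h, map_sum]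
  refine Finset.sum_congr rfl fun d _ => ?_
  have h2 : (∑ i, cs d i = (D : ℤ)) ↔ d.degree = D := by
    unfold cs
    rw [Finsupp.degree_eq_sum]
    exact_mod_cast Iff.rfl
  split_ifs with h1
  · rw [iR_monomial, rs_single_pos (P := fun u : σ → ℤ => ∑ i, u i = D) _ (h2.2 h1)]
  · rw [map_zero, rs_single_neg (P := fun u : σ → ℤ => ∑ i, u i = D) _ (fun h' => h1 (h2.1 h'))]

end IR

section Deg

variable {w : ℕ}

/-- the degrees as homomorphisms -/
def gsH : (Var w → ℤ) →+ ℤ where
  toFun := gs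
  map_zero' := by simp [gs]
  map_add' := by intro a b; simp [gs]; ring

def hsH : (Var w → ℤ) →+ ℤ where
  toFun := hs
  map_zero' := by simp [hs]
  map_add' := by intro a b; simp [hs]; ring

def asH : (Var w → ℤ) →+ ℤ where
  toFun := as
  map_zero' := by simp [as]
  map_add' := by intro a b; simp [as]; ring

def ysH : (Var w → ℤ) →+ ℤ where
  toFun := ys
  map_zero' := by simp [ys]
  map_add' := by intro a b; simp [ys]; ring

def tsH : (Var w → ℤ) →+ ℤ where
  toFun := ts
  map_zero' := by simp [ts]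
  map_add' := by intro a b; simp [ts, Finset.sum_add_distrib]

theorem gs_add (a b : Var w → ℤ) : gs (a + b) = gs a + gs b := gsH.map_add a b
theorem hs_add (a b : Var w → ℤ) : hs (a + b) = hs a + hs b := hsH.map_add a b
theorem as_add (a b : Var w → ℤ) : as (a + b) = as a + as b := asH.map_add a b
theorem ys_add (a b : Var w → ℤ) : ys (a + b) = ys a + ys b := ysH.map_add a b
theorem ts_add (a b : Var w → ℤ) : ts (a + b) = ts a + ts b := tsH.map_add a b

theorem gs_ev (v : Var w) : gs (ev v) = match v with | Var.g _ => 1 | _ => 0 := by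
  unfold gs ev
  rcases v with i | i | i | l | i
  · fin_cases i <;> simp
  · simp
  · simp
  · simp
  · simp

theorem hs_ev (v : Var w) : hs (ev v) = match v with | Var.h _ => 1 | _ => 0 := by
  unfold hs ev
  rcases v with i | i | i | l | i
  · simp
  · fin_cases i <;> simp
  · simp
  · simp
  · simp

theorem as_ev (v : Var w) : as (ev v) = match v with | Var.a _ => 1 | _ => 0 := by
  unfold as ev
  rcases v with i | i | i | l | i
  · simp
  · simp
  · fin_cases i <;> simp
  · simp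
  · simp

theorem ys_ev (v : Var w) : ys (ev v) = match v with | Var.y _ => 1 | _ => 0 := by
  unfold ys ev
  rcases v with i | i | i | l | i
  · simp
  · simp
  · simp
  · simp
  · fin_cases i <;> simp

theorem ts_ev (v : Var w) : ts (ev v) = match v with | Var.t _ => 1 | _ => 0 := by
  unfold ts ev
  rcases v with i | i | i | l | i
  · simp
  · simp
  · simp
  · simp [Pi.single_apply]
  · simp

/-- the degree in the `X` -/
def xd (u : Sg w → ℤ) : ℤ := ∑ x : Fin 2 × Fin 2 × Fin 2, u (Sum.inl (Sum.inl x))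

/-- the degree in the `θ` -/
def td (u : Sg w → ℤ) : ℤ := ∑ l : Fin (w + 2), u (Sum.inl (Sum.inr l))

theorem mu_apply (u : Sg w → ℤ) : mu u = ∑ i, u i • muG i := rfl

theorem sum_Sg {A : Type} [AddCommMonoid A] (F : Sg w → A) :
    ∑ i, F i = (∑ x : Fin 2 × Fin 2 × Fin 2, F (Sum.inl (Sum.inl x)) +
      ∑ l : Fin (w + 2), F (Sum.inl (Sum.inr l))) +
      (∑ x : Fin 2 × Fin 2, F (Sum.inr (Sum.inl x)) + F (Sum.inr (Sum.inr ()))) := by
  rw [Fintype.sum_sum_type, Fintype.sum_sum_type, Fintype.sum_sum_type]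
  simp

theorem hom_mu (H : (Var w → ℤ) →+ ℤ) (u : Sg w → ℤ) : H (mu u) = ∑ i, u i * H (muG i) := by
  rw [mu_apply, map_sum]
  refine Finset.sum_congr rfl fun i _ => ?_
  rw [map_zsmul, smul_eq_mul]

theorem gs_mu (u : Sg w → ℤ) : gs (mu u) = xd u := by
  rw [show gs (mu u) = gsH (mu u) from rfl, hom_mu, sum_Sg]
  have h1 : ∀ v : Var w → ℤ, gsH v = gs v := fun _ => rfl
  simp only [h1, muG, gs_add, gs_ev, show gs (0 : Var w → ℤ) = 0 from gsH.map_zero]
  simp [xd]

theorem hs_mu (u : Sg w → ℤ) : hs (mu u) = xd u + yd u := by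
  rw [show hs (mu u) = hsH (mu u) from rfl, hom_mu, sum_Sg]
  have h1 : ∀ v : Var w → ℤ, hsH v = hs v := fun _ => rfl
  simp only [h1, muG, hs_add, hs_ev, show hs (0 : Var w → ℤ) = 0 from hsH.map_zero]
  simp [xd, yd]

theorem as_mu (u : Sg w → ℤ) : as (mu u) = xd u := by
  rw [show as (mu u) = asH (mu u) from rfl, hom_mu, sum_Sg]
  have h1 : ∀ v : Var w → ℤ, asH v = as v := fun _ => rfl
  simp only [h1, muG, as_add, as_ev, show as (0 : Var w → ℤ) = 0 from asH.map_zero]
  simp [xd]

theorem ys_mu (u : Sg w → ℤ) : ys (mu u) = yd u := by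
  rw [show ys (mu u) = ysH (mu u) from rfl, hom_mu, sum_Sg]
  have h1 : ∀ v : Var w → ℤ, ysH v = ys v := fun _ => rfl
  simp only [h1, muG, ys_add, ys_ev, show ys (0 : Var w → ℤ) = 0 from ysH.map_zero]
  simp [yd]

theorem ts_mu (u : Sg w → ℤ) : ts (mu u) = td u := by
  rw [show ts (mu u) = tsH (mu u) from rfl, hom_mu, sum_Sg]
  have h1 : ∀ v : Var w → ℤ, tsH v = ts v := fun _ => rfl
  simp only [h1, muG, ts_add, ts_ev, show ts (0 : Var w → ℤ) = 0 from tsH.map_zero]
  simp [td]

theorem total_deg (u : Sg w → ℤ) : ∑ i, u i = wt (mu u) + yd u + zd u := by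
  rw [wt, gs_mu, ts_mu, sum_Sg]
  unfold xd td yd zd
  ring

theorem ev_nonneg (v v' : Var w) : 0 ≤ ev v v' := by
  unfold ev
  rw [Pi.single_apply]
  split_ifs <;> norm_num

theorem muG_nonneg (i : Sg w) (v : Var w) : 0 ≤ muG i v := by
  rcases i with (x | l) | (x | z)
  · simp only [muG, Pi.add_apply]
    have h1 := ev_nonneg (Var.g x.1) v
    have h2 := ev_nonneg (Var.h x.2.1) v
    have h3 := ev_nonneg (Var.a x.2.2) v
    omega
  · exact ev_nonneg _ v
  · simp only [muG, Pi.add_apply]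
    have h1 := ev_nonneg (Var.y x.1) v
    have h2 := ev_nonneg (Var.h x.2) v
    omega
  · simp [muG]

theorem muG_supp (g : GG w) (v : Var w) (h : muG (Sum.inl g) v ≠ 0) : v ∈ supp g := by
  rcases g with x | l
  · by_contra hn
    simp only [supp, Finset.mem_insert, Finset.mem_singleton, not_or] at hn
    apply h
    simp only [muG, Pi.add_apply, ev, Pi.single_apply]
    rw [if_neg hn.1, if_neg hn.2.1, if_neg hn.2.2]
    rfl
  · by_contra hn
    simp only [supp, Finset.mem_singleton] at hn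
    apply h
    simp only [muG, ev, Pi.single_apply]
    rw [if_neg hn]

theorem supp_muG (g : GG w) (v : Var w) (h : v ∈ supp g) : 1 ≤ muG (Sum.inl g) v := by
  rcases g with x | l
  · simp only [supp, Finset.mem_insert, Finset.mem_singleton] at h
    simp only [muG, Pi.add_apply]
    have h1 := ev_nonneg (Var.g x.1) v
    have h2 := ev_nonneg (Var.h x.2.1) v
    have h3 := ev_nonneg (Var.a x.2.2) v
    rcases h with rfl | rfl | rfl
    · have : ev (Var.g x.1) (Var.g x.1 : Var w) = 1 := by simp [ev]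
      omega
    · have : ev (Var.h x.2.1) (Var.h x.2.1 : Var w) = 1 := by simp [ev]
      omega
    · have : ev (Var.a x.2.2) (Var.a x.2.2 : Var w) = 1 := by simp [ev]
      omega
  · simp only [supp, Finset.mem_singleton] at h
    subst h
    simp [muG, ev]

theorem mem_inS {s : Finset (GG w)} {i : Sg w} : i ∈ inS s ↔ ∃ g ∈ s, i = Sum.inl g := by
  unfold inS
  rw [Finset.mem_map]
  constructor
  · rintro ⟨g, hg, rfl⟩
    exact ⟨g, hg, rfl⟩
  · rintro ⟨g, hg, rfl⟩
    exact ⟨g, hg, rfl⟩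

/-- negative exponents of `mu u` -/
theorem mu_neg {s : Finset (GG w)} {u : Sg w → ℤ} (h : ∀ i, u i < 0 → i ∈ inS s) (v : Var w)
    (hv : mu u v < 0) : v ∈ suppS s := by
  rw [mu_apply, Finset.sum_apply] at hv
  obtain ⟨i, _, hi⟩ : ∃ i ∈ (univ : Finset (Sg w)), (u i • muG i) v < 0 := by
    by_contra hcon
    push Not at hcon
    exact absurd (Finset.sum_nonneg fun i hi => hcon i hi) (not_le.2 hv)
  rw [Pi.smul_apply, smul_eq_mul] at hi
  have h1 := muG_nonneg i v
  have h2 : u i < 0 := by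
    by_contra hc
    have := mul_nonneg (not_lt.1 hc) h1
    omega
  obtain ⟨g, hg, rfl⟩ := mem_inS.1 (h i h2)
  have h3 : muG (Sum.inl g) v ≠ 0 := by
    intro h0
    rw [h0, mul_zero] at hi
    exact lt_irrefl _ hi
  exact Finset.mem_biUnion.2 ⟨g, hg, muG_supp g v h3⟩

end Deg

section Spec

variable {k : Type} [Field k] {w : ℕ}

theorem piL_onS : OnS (mu (w := w)) (piL k w).toLinearMap := by
  intro u a
  rw [AlgHom.toLinearMap_apply]
  unfold piL
  simp

theorem rst_eq {σ : Type} (P : (σ → ℤ) → Prop) : rst k P = rs (k := k) P := rfl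

/-- condition of `VP` -/
def cVP (m r : ℤ) (s : Finset (GG w)) (u : Sg w → ℤ) : Prop :=
  zd u = m ∧ yd u = r ∧ ∀ i, u i < 0 → i ∈ inS s

/-- condition of `U` -/
def cU (a b c : ℤ) (s : Finset (GG w)) (u : Var w → ℤ) : Prop :=
  hs u - gs u = a ∧ as u - gs u = b ∧ ys u = c ∧ ∀ v, u v < 0 → v ∈ suppS s

theorem mem_VP {m r : ℤ} {s : Finset (GG w)} {f : LR k (Sg w)} :
    f ∈ VP k m r s ↔ f ∈ SP k (cVP m r s) := Iff.rfl

theorem mem_U {a b c : ℤ} {s : Finset (GG w)} {f : L k w} :
    f ∈ U k PT a b c s ↔ f ∈ SP k (cU a b c s) := by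
  constructor
  · intro h u hu
    exact (h u hu).2
  · intro h u hu
    exact ⟨trivial, h u hu⟩

theorem cVP_mu {m r : ℤ} {s : Finset (GG w)} {u : Sg w → ℤ} (h : cVP m r s u) :
    cU r 0 r s (mu u) := by
  obtain ⟨h1, h2, h3⟩ := h
  refine ⟨?_, ?_, ?_, fun v hv => mu_neg h3 v hv⟩
  · rw [hs_mu, gs_mu, h2]
    ring
  · rw [as_mu, gs_mu]
    ring
  · rw [ys_mu, h2]

theorem piL_VP {m r : ℤ} {s : Finset (GG w)} {f : LR k (Sg w)} (hf : f ∈ VP k m r s) :
    piL k w f ∈ U k PT r 0 r s :=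
  mem_U.2 (map_mem_SP piL_onS (fun _ => cVP_mu) (mem_VP.1 hf))

theorem suppS_union (s t : Finset (GG w)) : suppS (s ∪ t) = suppS s ∪ suppS t := by
  unfold suppS
  exact Finset.union_biUnion

theorem U_mul {a b c a' b' c' : ℤ} {s s' : Finset (GG w)} {f g : L k w}
    (hf : f ∈ U k PT a b c s) (hg : g ∈ U k PT a' b' c' s') :
    f * g ∈ U k PT (a + a') (b + b') (c + c') (s ∪ s') := by
  refine mem_U.2 (SP_mul ?_ (mem_U.1 hf) (mem_U.1 hg))
  rintro u v ⟨h1, h2, h3, h4⟩ ⟨h1', h2', h3', h4'⟩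
  refine ⟨?_, ?_, ?_, ?_⟩
  · rw [hs_add, gs_add, ← h1, ← h1']
    ring
  · rw [as_add, gs_add, ← h2, ← h2']
    ring
  · rw [ys_add, h3, h3']
  · intro x hx
    rw [Pi.add_apply] at hx
    rw [suppS_union, Finset.mem_union]
    by_cases hu : u x < 0
    · exact Or.inl (h4 x hu)
    · exact Or.inr (h4' x (by omega))

theorem VP_mul {m r m' r' : ℤ} {s s' : Finset (GG w)} {f g : LR k (Sg w)}
    (hf : f ∈ VP k m r s) (hg : g ∈ VP k m' r' s') :
    f * g ∈ VP k (m + m') (r + r') (s ∪ s') := by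
  refine mem_VP.2 (SP_mul ?_ (mem_VP.1 hf) (mem_VP.1 hg))
  rintro u v ⟨h1, h2, h3⟩ ⟨h1', h2', h3'⟩
  refine ⟨?_, ?_, ?_⟩
  · unfold zd at *
    rw [Pi.add_apply, h1, h1']
  · unfold yd at *
    simp only [Pi.add_apply]
    rw [Finset.sum_add_distrib, h2, h2']
  · intro x hx
    rw [Pi.add_apply] at hx
    by_cases hu : u x < 0
    · obtain ⟨g, hg, rfl⟩ := mem_inS.1 (h3 x hu)
      exact mem_inS.2 ⟨g, Finset.mem_union_left _ hg, rfl⟩
    · obtain ⟨g, hg, rfl⟩ := mem_inS.1 (h3' x (by omega))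
      exact mem_inS.2 ⟨g, Finset.mem_union_right _ hg, rfl⟩

theorem mem_IN {r : ℤ} {s : Finset (GG w)} {f : L k w} : f ∈ IN k PT r s ↔
    ∃ A ∈ U k PT r (-(w + 1)) r s, ∃ B ∈ U k PT (r + 2) 0 (r - 2) s,
      f = qL k w * A + PhiL k w * B := by
  unfold IN
  rw [Submodule.mem_sup]
  constructor
  · rintro ⟨x, hx, y, hy, rfl⟩
    obtain ⟨A, hA, rfl⟩ := hx
    obtain ⟨B, hB, rfl⟩ := hy
    exact ⟨A, hA, B, hB, rfl⟩
  · rintro ⟨A, hA, B, hB, rfl⟩
    exact ⟨_, ⟨A, hA, rfl⟩, _, ⟨B, hB, rfl⟩, rfl⟩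

theorem IN_mul {r t : ℤ} {s s' : Finset (GG w)} {f g : L k w}
    (hf : f ∈ IN k PT r s) (hg : g ∈ U k PT t 0 t s') : f * g ∈ IN k PT (r + t) (s ∪ s') := by
  obtain ⟨A, hA, B, hB, rfl⟩ := mem_IN.1 hf
  refine mem_IN.2 ⟨A * g, ?_, B * g, ?_, by ring⟩
  · have := U_mul hA hg
    rwa [add_zero] at this
  · have := U_mul hB hg
    rw [add_zero, show r + 2 + t = r + t + 2 by ring, show r - 2 + t = r + t - 2 by ring] at this
    exact this

theorem mem_VI {m r : ℤ} {s : Finset (GG w)} {f : LR k (Sg w)} :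
    f ∈ VI k m r s ↔ f ∈ VP k m r s ∧ piL k w f ∈ IN k PT r s := Iff.rfl

theorem VI_mul {m r m' r' : ℤ} {s s' : Finset (GG w)} {f g : LR k (Sg w)}
    (hf : f ∈ VI k m r s) (hg : g ∈ VP k m' r' s') :
    f * g ∈ VI k (m + m') (r + r') (s ∪ s') := by
  refine ⟨VP_mul hf.1 hg, ?_⟩
  rw [map_mul]
  exact IN_mul hf.2 (piL_VP hg)

end Spec

end Pool.Agent.T2H37.LB.LibC
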