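import Pool.Agent.T2H37.LB.Fin
import Pool.Agent.T2H37.LB.A1
import Pool.Agent.T2H37.LB.A2
import Pool.Agent.T2H37.LB.A3
import Pool.Agent.T2H37.LB.A4
import Pool.Agent.T2H37.LB.A5
import Pool.Agent.T2H37.LB.A6
import Pool.Agent.T2H37.LB.A7
import Pool.Agent.T2H37.LB.A8
import Pool.Agent.T2H37.LB.A9
import Pool.Agent.T2H37.LB.A10
import Pool.Agent.T2H37.LB.A11
import Pool.Agent.T2H37.LB.A12
import Pool.Agent.T2H37.LB.A13
import Pool.Agent.T2H37.LB.A14
import Pool.Agent.T2H37.LB.B1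
import Pool.Agent.T2H37.LB.B2
import Pool.Agent.T2H37.LB.B3
import Pool.Agent.T2H37.LB.B4
import Pool.Agent.T2H37.LB.B5
import Pool.Agent.T2H37.LB.B6
import Pool.Agent.T2H37.LB.B7
import Pool.Agent.T2H37.LB.B8
import Pool.Agent.T2H37.LB.B9
import Pool.Agent.T2H37.LB.B10
import Pool.Agent.T2H37.LB.B11
import Pool.Agent.T2H37.LB.B12
import Pool.Agent.T2H37.LB.B13
import Pool.Agent.T2H37.LB.C1
import Pool.Agent.T2H37.LB.C2
import Pool.Agent.T2H37.LB.C3
import Pool.Agent.T2H37.LB.C4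
import Pool.Agent.T2H37.LB.C5
import Pool.Agent.T2H37.LB.C6
import Pool.Agent.T2H37.LB.C7
import Pool.Agent.T2H37.LB.C8
import Pool.Agent.T2H37.LB.C9
import Pool.Agent.T2H37.LB.C10
import Pool.Agent.T2H37.LB.C11
import Pool.Agent.T2H37.LB.C12
import Pool.Agent.T2H37.LB.C13
import Pool.Agent.T2H37.LB.C14

/-!
# LB: the main theorems
-/

set_option autoImplicit false

namespace Pool.Agent.T2H37.LB

open MvPolynomial

section

variable (k : Type) [Field k] (w : ℕ)

theorem many : KMmany k w :=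
  KMmany_proof k w (OmB1_proof k w) (OmB3_proof k w) (DictQ_proof k w) (DictP_proof k w)

theorem omB2 : OmB2 k w := OmB2_proof k w (OmB1_proof k w) (OmB3_proof k w) (QSurj_proof k w)

theorem bdd [IsAlgClosed k] [CharZero k] : KMbdd k w :=
  KMbdd_proof k w (ThmK_proof k (LemC_proof k) (MatL_proof k)) (OmB1_proof k w) (omB2 k w)
    (OmB3_proof k w) (DictQ_proof k w) (DictP_proof k w)

theorem patA : PatA k w := PatA_proof k w (Tog_proof k) (Prism_proof k)

theorem patC : PatC k w := PatC_proof k w (Tog_proof k) (Prism_proof k) (Ses_proof k)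

theorem exU : ExU k w := ExU_proof k w (patA k w) (patC k w) (Coef_proof k)

theorem conP [CharZero k] : ConP k w :=
  ConP_proof k w (ThmG_proof k) (OmB1_proof k w) (omB2 k w) (OmB3_proof k w) (DictQ_proof k w)
    (DictP_proof k w)

theorem conQ : ConQ k w := ConQ_proof k w (QSurj_proof k w) (DictQ_proof k w)

theorem chPX [CharZero k] : ChPX k w :=
  ChPX_proof k w (exU k w) (Reg_proof k w) (LamP_proof k w (patA k w) (patC k w)) (conQ k w)
    (conP k w)

theorem psiT [CharZero k] : PsiT k w :=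
  PsiT_proof k w (PsiM_proof k w (exU k w) (Reg_proof k w) (LamM_proof k w (patA k w) (patC k w)))
    (chPX k w)

theorem freeEx : FreeEx k w :=
  FreeEx_proof k w (Tog_proof k) (Simplex_proof k (Tog_proof k) (Ses_proof k)) (Coef_proof k)

theorem asm [IsAlgClosed k] [CharZero k] : Asm k w :=
  Asm_proof k w (RestT_proof k w (IJ3_proof k w)) (DecT_proof k w (IJ1_proof k w) (IJ2_proof k w))
    (PieceT_proof k w (PiSurj_proof k w (LiftE_proof w)) (psiT k w) (freeEx k w)) (bdd k w)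

theorem cechIso : CechIso k := CechIso_proof k (LocMap_proof k)

end

theorem main_length (k : Type) [Field k] [IsAlgClosed k] [CharZero k] (w : ℕ) :
    ∃ (σ : Type) (_ : Fintype σ) (_ : DecidableEq σ) (I : Ideal (MvPolynomial σ k)),
      Fintype.card σ = w + 15 ∧
      (∀ f ∈ I, ∀ D : ℕ, homogeneousComponent D f ∈ I) ∧
      (∀ n : ℕ, 1 ≤ n → Module.length (MvPolynomial σ k)
        (LocalCoh k σ (MvPolynomial σ k ⧸ I ^ n) (w + 4)) ≠ ⊤) ∧
      ∃ c : ℝ, 0 < c ∧ ∃ n0 : ℕ, ∀ n : ℕ, n0 ≤ n → c * (n : ℝ) ^ (2 * w + 4) ≤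
        ((Module.length (MvPolynomial σ k)
          (LocalCoh k σ (MvPolynomial σ k ⧸ I ^ n) (w + 4))).toNat : ℝ) := by
  obtain ⟨I, h⟩ := fin_length k w (cechIso k) (LenDim_proof k) (GenDelta_proof k w) (asm k w)
    (KMgrowth_proof k w (many k w)) (IJ3_proof k w)
  exact ⟨Sg w, inferInstance, inferInstance, I, card_Sg w, h⟩

theorem main_low (k : Type) [Field k] [IsAlgClosed k] [CharZero k] (w : ℕ) :
    ∃ (σ : Type) (_ : Fintype σ) (_ : DecidableEq σ) (I : Ideal (MvPolynomial σ k)),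
      Fintype.card σ = w + 15 ∧
      (∀ f ∈ I, ∀ D : ℕ, homogeneousComponent D f ∈ I) ∧
      (∀ n : ℕ, 1 ≤ n → Module.length (MvPolynomial σ k)
        (LocalCoh k σ (MvPolynomial σ k ⧸ I ^ n) (w + 4)) ≠ ⊤) ∧
      ∃ n0 : ℕ, ∀ n : ℕ, n0 ≤ n → ∃ e : ℤ, (e : ℝ) ≤ -((n : ℝ) ^ 2 / 8) ∧
        ComponentNeZero (I ^ n) (w + 4) e := by
  obtain ⟨I, h⟩ := fin_low k w (cechIso k) (LenDim_proof k) (GenDelta_proof k w) (asm k w)
    (KMlow_proof k w (many k w)) (IJ3_proof k w)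
  exact ⟨Sg w, inferInstance, inferInstance, I, card_Sg w, h⟩

end Pool.Agent.T2H37.LB
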