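import Pool.Agent.T2H37.LB.Main
import Pool.Agent.T2H37.LB.Cech2

/-!
# LB: the main theorems, in terms of the definitions of `Cech2`
-/

set_option autoImplicit false

namespace Pool.Agent.T2H37.LB

open MvPolynomial

theorem main_length2 (k : Type) [Field k] [IsAlgClosed k] [CharZero k] (w : ℕ) :
    ∃ (σ : Type) (_ : Fintype σ) (_ : DecidableEq σ) (I : Ideal (MvPolynomial σ k)),
      Fintype.card σ = w + 15 ∧
      (∀ f ∈ I, ∀ D : ℕ, homogeneousComponent D f ∈ I) ∧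
      (∀ n : ℕ, 1 ≤ n → lengthH I n (w + 4) ≠ ⊤) ∧
      ∃ c : ℝ, 0 < c ∧ ∃ n0 : ℕ, ∀ n : ℕ, n0 ≤ n →
        c * (n : ℝ) ^ (2 * w + 4) ≤ (lengthH I n (w + 4)).toNat := by
  obtain ⟨σ, i1, i2, I, h1, h2, h3, c, hc, n0, h4⟩ := main_length k w
  refine ⟨σ, i1, i2, I, h1, h2, fun n hn => ?_, c, hc, n0, fun n hn => ?_⟩
  · rw [lengthH_eq]
    exact h3 n hn
  · rw [lengthH_eq]
    exact h4 n hn

theorem main_low2 (k : Type) [Field k] [IsAlgClosed k] [CharZero k] (w : ℕ) :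
    ∃ (σ : Type) (_ : Fintype σ) (_ : DecidableEq σ) (I : Ideal (MvPolynomial σ k)),
      Fintype.card σ = w + 15 ∧
      (∀ f ∈ I, ∀ D : ℕ, homogeneousComponent D f ∈ I) ∧
      (∀ n : ℕ, 1 ≤ n → lengthH I n (w + 4) ≠ ⊤) ∧
      ∃ n0 : ℕ, ∀ n : ℕ, n0 ≤ n → ∃ e : ℤ, (e : ℝ) ≤ -((n : ℝ) ^ 2 / 8) ∧
        HComponentNeZero (I ^ n) (w + 4) e := by
  obtain ⟨σ, i1, i2, I, h1, h2, h3, n0, h4⟩ := main_low k w
  refine ⟨σ, i1, i2, I, h1, h2, fun n hn => ?_, n0, fun n hn => ?_⟩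
  · rw [lengthH_eq]
    exact h3 n hn
  · obtain ⟨e, he, h5⟩ := h4 n hn
    exact ⟨e, he, HComponentNeZero_of _ _ _ h5⟩

end Pool.Agent.T2H37.LB
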