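import Mathlib

/-!
# Definitions for the project LB
-/

set_option autoImplicit false

namespace Pool.Agent.T2H37.LB

open Finset

section Tuple

/-! ## complexes of functions on tuples -/

variable (k : Type) [Field k] {G A : Type} [AddCommGroup A] [Module k A]

/-- the differential: `(dd c) (j_0, …, j_i) = ∑ (-1)^m c (j_0, …, omit j_m, …, j_i)` -/
noncomputable def dd (i : ℕ) : ((Fin i → G) → A) →ₗ[k] ((Fin (i + 1) → G) → A) :=
  LinearMap.pi fun j => ∑ m : Fin (i + 1), ((-1 : ℤ) ^ (m : ℕ)) •
    (LinearMap.proj (j ∘ m.succAbove) : ((Fin i → G) → A) →ₗ[k] A)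

variable {k}
variable [DecidableEq G]

/-- the cochains with `c j ∈ V {j_1, …, j_i}` -/
def CV (V : Finset G → Submodule k A) (i : ℕ) : Submodule k ((Fin i → G) → A) where
  carrier := {c | ∀ j, c j ∈ V (univ.image j)}
  zero_mem' := fun _ => Submodule.zero_mem _
  add_mem' := fun ha hb j => Submodule.add_mem _ (ha j) (hb j)
  smul_mem' := fun r _ ha j => Submodule.smul_mem _ r (ha j)

/-- exactness of the complex `CV V` in degree `i + 1` -/
def Ex (V : Finset G → Submodule k A) (i : ℕ) : Prop :=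
  ∀ c ∈ CV V (i + 1), dd k (i + 1) c = 0 → ∃ b ∈ CV V i, dd k i b = c

/-- the cocycles of degree `i` of the quotient complex `CV V / CV I` -/
noncomputable def ZQ (V I : Finset G → Submodule k A) (i : ℕ) : Submodule k ((Fin i → G) → A) :=
  CV V i ⊓ (CV I (i + 1)).comap (dd k i)

/-- the coboundaries of degree `i + 1` of the quotient complex `CV V / CV I` -/
noncomputable def BQ (V I : Finset G → Submodule k A) (i : ℕ) :
    Submodule k ((Fin (i + 1) → G) → A) :=
  (CV V i).map (dd k i) ⊔ CV I (i + 1)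

/-- the cohomology in degree `i + 1` of the quotient complex `CV V / CV I` -/
abbrev HQ (V I : Finset G → Submodule k A) (i : ℕ) : Type :=
  ZQ V I (i + 1) ⧸ (BQ V I i).submoduleOf (ZQ V I (i + 1))

end Tuple

/-! ## the variables -/

/-- the variables `γ_i, h_j, α_l, θ_l, y_i` -/
inductive Var (w : ℕ) : Type
  | g (i : Fin 2)
  | h (i : Fin 2)
  | a (i : Fin 2)
  | t (l : Fin (w + 2))
  | y (i : Fin 2)
  deriving DecidableEq, Fintype

/-- the index set of the variables `X_{ijl}` and `θ_l` -/
abbrev GG (w : ℕ) : Type := (Fin 2 × Fin 2 × Fin 2) ⊕ Fin (w + 2)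

/-- all the variables of the big polynomial ring: `X_{ijl}`, `θ_l`, `Y_{ij}`, `z` -/
abbrev Sg (w : ℕ) : Type := GG w ⊕ ((Fin 2 × Fin 2) ⊕ Unit)

variable {w : ℕ}

/-- the variables dividing the monomial `γ_i h_j α_l`, resp. `θ_l` -/
def supp : GG w → Finset (Var w)
  | Sum.inl x => {Var.g x.1, Var.h x.2.1, Var.a x.2.2}
  | Sum.inr l => {Var.t l}

/-- the variables dividing one of the monomials with index in `s` -/
def suppS (s : Finset (GG w)) : Finset (Var w) := s.biUnion supp

/-- the degrees of an exponent vector in the five groups of variables -/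
def gs (u : Var w → ℤ) : ℤ := u (Var.g 0) + u (Var.g 1)
@[inherit_doc gs] def hs (u : Var w → ℤ) : ℤ := u (Var.h 0) + u (Var.h 1)
@[inherit_doc gs] def as (u : Var w → ℤ) : ℤ := u (Var.a 0) + u (Var.a 1)
@[inherit_doc gs] def ys (u : Var w → ℤ) : ℤ := u (Var.y 0) + u (Var.y 1)
@[inherit_doc gs] def ts (u : Var w → ℤ) : ℤ := ∑ l, u (Var.t l)

/-- the ring of Laurent polynomials in all the variables of `Var w` -/
abbrev L (k : Type) [Field k] (w : ℕ) : Type := AddMonoidAlgebra k (Var w → ℤ)

/-- the exponent vector of a single variable -/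
def ev (v : Var w) : Var w → ℤ := Pi.single v 1

/-- the Laurent monomial with exponents `u` -/
noncomputable def mon (k : Type) [Field k] (u : Var w → ℤ) : L k w := AddMonoidAlgebra.single u 1

/-- `q = ∑_l θ_l (-α_0)^l α_1^(w+1-l)` -/
noncomputable def qL (k : Type) [Field k] (w : ℕ) : L k w :=
  ∑ l : Fin (w + 2), ((-1 : ℤ) ^ (l : ℕ)) •
    mon k (ev (Var.t l) + (l : ℕ) • ev (Var.a 0) + (w + 1 - (l : ℕ)) • ev (Var.a 1))

/-- the monomial `γ_0^(2-x) γ_1^x α_0^(2-b) α_1^b y_0^(2-c) y_1^c` -/
noncomputable def mPhi (k : Type) [Field k] (w : ℕ) (x b c : ℕ) : L k w :=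
  mon k ((2 - x) • ev (Var.g 0) + x • ev (Var.g 1) + (2 - b) • ev (Var.a 0) + b • ev (Var.a 1)
    + (2 - c) • ev (Var.y 0) + c • ev (Var.y 1))

/-- the form `Φ` of tridegree `(2,2,2)`: the homogenization of
`1 - x² - y² - z² - x²y² - y²z² - z²x² + x²y²z² + 4xyz` -/
noncomputable def PhiL (k : Type) [Field k] (w : ℕ) : L k w :=
  mPhi k w 0 0 0 - mPhi k w 2 0 0 - mPhi k w 0 2 0 - mPhi k w 0 0 2
    - mPhi k w 2 2 0 - mPhi k w 0 2 2 - mPhi k w 2 0 2 + mPhi k w 2 2 2
    + (4 : ℤ) • mPhi k w 1 1 1

/-- the Laurent polynomials all whose exponents `u` satisfy `P u`, have `h`-degree minus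
`γ`-degree `A`, `α`-degree minus `γ`-degree `C` and `y`-degree `ρ`, and are negative only at
variables dividing a monomial with index in `s` -/
def U (k : Type) [Field k] (P : (Var w → ℤ) → Prop) (A C ρ : ℤ) (s : Finset (GG w)) :
    Submodule k (L k w) where
  carrier := {f | ∀ u, f.coeff u ≠ 0 → P u ∧ hs u - gs u = A ∧ as u - gs u = C ∧ ys u = ρ ∧
    ∀ v, u v < 0 → v ∈ suppS s}
  zero_mem' := fun u hu => absurd rfl hu
  add_mem' := by
    intro f g hf hg u hu
    rw [AddMonoidAlgebra.coeff_add, Finsupp.add_apply] at hu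
    by_cases h : f.coeff u = 0
    · rw [h, zero_add] at hu
      exact hg u hu
    · exact hf u h
  smul_mem' := by
    intro c f hf u hu
    apply hf u
    intro h
    apply hu
    rw [AddMonoidAlgebra.coeff_smul, Finsupp.smul_apply, h, smul_zero]

/-- multiplication by `f` -/
noncomputable def mulL {k : Type} [Field k] (f : L k w) : L k w →ₗ[k] L k w :=
  LinearMap.mulLeft k f

/-- the part of the ideal `(q, Φ)` in the strand `r` -/
noncomputable def IN (k : Type) [Field k] (P : (Var w → ℤ) → Prop) (r : ℤ) (s : Finset (GG w)) :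
    Submodule k (L k w) :=
  (U k P r (-(w + 1)) r s).map (mulL (qL k w)) ⊔ (U k P (r + 2) 0 (r - 2) s).map (mulL (PhiL k w))

/-- the trivial condition on exponents -/
def PT : (Var w → ℤ) → Prop := fun _ => True

/-- both `h`-exponents are nonnegative -/
def Pp : (Var w → ℤ) → Prop := fun u => 0 ≤ u (Var.h 0) ∧ 0 ≤ u (Var.h 1)

/-- both `h`-exponents are negative -/
def Pm : (Var w → ℤ) → Prop := fun u => u (Var.h 0) < 0 ∧ u (Var.h 1) < 0

/-- exactly one of the `h`-exponents is negative -/
def Px : (Var w → ℤ) → Prop := fun u => ¬ Pp u ∧ ¬ Pm u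

/-- all exponents of `γ, α, θ` are negative, all exponents of `y` are nonnegative -/
def Neg (u : Var w → ℤ) : Prop :=
  (∀ i, u (Var.g i) < 0) ∧ (∀ i, u (Var.a i) < 0) ∧ (∀ l, u (Var.t l) < 0) ∧ (∀ i, 0 ≤ u (Var.y i))

/-- the Laurent polynomials all whose exponents `u` satisfy `P u`, `Neg u` and the three degree
conditions; for `P = Pm` (`P = Pp`) this is the top local cohomology of the polynomial ring -/
def Dn (k : Type) [Field k] (P : (Var w → ℤ) → Prop) (A C ρ : ℤ) : Submodule k (L k w) where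
  carrier := {f | ∀ u, f.coeff u ≠ 0 → P u ∧ hs u - gs u = A ∧ as u - gs u = C ∧ ys u = ρ ∧ Neg u}
  zero_mem' := fun u hu => absurd rfl hu
  add_mem' := by
    intro f g hf hg u hu
    rw [AddMonoidAlgebra.coeff_add, Finsupp.add_apply] at hu
    by_cases h : f.coeff u = 0
    · rw [h, zero_add] at hu
      exact hg u hu
    · exact hf u h
  smul_mem' := by
    intro c f hf u hu
    apply hf u
    intro h
    apply hu
    rw [AddMonoidAlgebra.coeff_smul, Finsupp.smul_apply, h, smul_zero]

/-- the part of `f` with exponents satisfying `P` -/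
noncomputable def restr {k : Type} [Field k] (P : (Var w → ℤ) → Prop) : L k w →ₗ[k] L k w := by
  classical
  exact
  { toFun := fun f => AddMonoidAlgebra.ofCoeff (f.coeff.filter P)
    map_add' := fun f g => by
      ext u
      simp [Finsupp.filter_add]
    map_smul' := fun c f => by
      ext u
      simp [Finsupp.filter_smul] }

/-- contraction: the part of `f * g` with exponents satisfying `Neg` -/
noncomputable def con {k : Type} [Field k] (f g : L k w) : L k w := restr Neg (f * g)

/-- the space `K(r)`: the kernel of `q` and `Φ` on the top local cohomology -/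
def KM (k : Type) [Field k] (w : ℕ) (r : ℤ) : Set (L k w) :=
  {g | g ∈ Dn k Pm (r + 2) (-(w + 1)) (r - 2) ∧ con (qL k w) g = 0 ∧ con (PhiL k w) g = 0}

/-- `γ`-degree plus `θ`-degree -/
def wt (u : Var w → ℤ) : ℤ := gs u + ts u

end Pool.Agent.T2H37.LB
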