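import Pool.Agent.T2H37.LB.Cech
import Pool.Agent.T2H37.LB.Model

/-!
# Definitions for the project LB: the polynomial ring, its localizations and the ideal `J`
-/

set_option autoImplicit false

namespace Pool.Agent.T2H37.LB

open Finset MvPolynomial

section Gen

variable (k : Type) [Field k] {σ : Type} [DecidableEq σ]

/-- the ring of Laurent polynomials in variables indexed by `σ` -/
abbrev LR (σ : Type) : Type := AddMonoidAlgebra k (σ → ℤ)

/-- the inclusion of the polynomial ring -/
noncomputable def iR : MvPolynomial σ k →ₐ[k] LR k σ :=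
  aeval fun i => AddMonoidAlgebra.single (Pi.single i 1) 1

/-- the localization of the polynomial ring at the variables with index in `s` -/
noncomputable def VR (s : Finset σ) : Submodule k (LR k σ) where
  carrier := {f | ∀ u, f.coeff u ≠ 0 → ∀ i, u i < 0 → i ∈ s}
  zero_mem' := fun u hu => absurd rfl hu
  add_mem' := by
    intro f g hf hg u hu
    rw [AddMonoidAlgebra.coeff_add, Finsupp.add_apply] at hu
    by_cases h : f.coeff u = 0
    · rw [h, zero_add] at hu
      exact hg u hu
    · exact hf u h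
  smul_mem' := by
    intro c f hf u hu
    apply hf u
    intro h
    apply hu
    rw [AddMonoidAlgebra.coeff_smul, Finsupp.smul_apply, h, smul_zero]

/-- the extension of the ideal `I` to the localization at the variables with index in `s` -/
noncomputable def IV (I : Ideal (MvPolynomial σ k)) (s : Finset σ) : Submodule k (LR k σ) :=
  Submodule.span k {x | ∃ f ∈ I, ∃ v ∈ VR k s, x = iR k f * v}

theorem VR_mono {s t : Finset σ} (h : s ⊆ t) : VR k s ≤ VR k t :=
  fun _ hf u hu i hi => h (hf u hu i hi)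

/-- the part of `f` with exponents satisfying `P` -/
noncomputable def rst (P : (σ → ℤ) → Prop) : LR k σ →ₗ[k] LR k σ := by
  classical
  exact
  { toFun := fun f => AddMonoidAlgebra.ofCoeff (f.coeff.filter P)
    map_add' := fun f g => by
      ext u
      simp [Finsupp.filter_add]
    map_smul' := fun c f => by
      ext u
      simp [Finsupp.filter_smul] }

/-- all exponents of `f` have sum `e` -/
def HomL [Fintype σ] (e : ℤ) (f : LR k σ) : Prop := ∀ u, f.coeff u ≠ 0 → ∑ i, u i = e

end Gen

section Spec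

variable (k : Type) [Field k] {w : ℕ}

/-- the exponent vector of the image of a variable -/
noncomputable def muG : Sg w → (Var w → ℤ)
  | Sum.inl (Sum.inl x) => ev (Var.g x.1) + ev (Var.h x.2.1) + ev (Var.a x.2.2)
  | Sum.inl (Sum.inr l) => ev (Var.t l)
  | Sum.inr (Sum.inl x) => ev (Var.y x.1) + ev (Var.h x.2)
  | Sum.inr (Sum.inr _) => 0

/-- the map on exponent vectors -/
noncomputable def mu : (Sg w → ℤ) →+ (Var w → ℤ) where
  toFun := fun u => ∑ i, u i • muG i
  map_zero' := by simp
  map_add' := fun u v => by simp [add_smul, Finset.sum_add_distrib]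

/-- the ring homomorphism `X_{ijl} ↦ γ_i h_j α_l`, `θ_l ↦ θ_l`, `Y_{ij} ↦ y_i h_j`, `z ↦ 1` -/
noncomputable def piL (w : ℕ) : LR k (Sg w) →ₐ[k] L k w :=
  AddMonoidAlgebra.mapDomainAlgHom k k (mu (w := w))

/-- the `z`-degree -/
def zd (u : Sg w → ℤ) : ℤ := u (Sum.inr (Sum.inr ()))

/-- the `Y`-degree -/
def yd (u : Sg w → ℤ) : ℤ := ∑ x : Fin 2 × Fin 2, u (Sum.inr (Sum.inl x))

/-- the Laurent polynomials of `z`-degree `m` and `Y`-degree `r`, without denominators outside
`s ⊆ GG w` -/
noncomputable def VP (m r : ℤ) (s : Finset (GG w)) : Submodule k (LR k (Sg w)) where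
  carrier := {f | ∀ u, f.coeff u ≠ 0 → zd u = m ∧ yd u = r ∧
    ∀ i, u i < 0 → i ∈ s.map Function.Embedding.inl}
  zero_mem' := fun u hu => absurd rfl hu
  add_mem' := by
    intro f g hf hg u hu
    rw [AddMonoidAlgebra.coeff_add, Finsupp.add_apply] at hu
    by_cases h : f.coeff u = 0
    · rw [h, zero_add] at hu
      exact hg u hu
    · exact hf u h
  smul_mem' := by
    intro c f hf u hu
    apply hf u
    intro h
    apply hu
    rw [AddMonoidAlgebra.coeff_smul, Finsupp.smul_apply, h, smul_zero]

/-- the component of `z`-degree `m` and `Y`-degree `r` -/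
noncomputable def cmp (m r : ℤ) : LR k (Sg w) →ₗ[k] LR k (Sg w) :=
  rst k fun u => zd u = m ∧ yd u = r

/-- the elements of `VP m r s` whose image lies in `(q, Φ)` -/
noncomputable def VI (m r : ℤ) (s : Finset (GG w)) : Submodule k (LR k (Sg w)) where
  carrier := {f | f ∈ VP k m r s ∧ piL k w f ∈ IN k PT r s}
  zero_mem' := ⟨Submodule.zero_mem _, by rw [map_zero]; exact Submodule.zero_mem _⟩
  add_mem' := fun {f g} hf hg => ⟨Submodule.add_mem _ hf.1 hg.1, by
    rw [map_add]; exact Submodule.add_mem _ hf.2 hg.2⟩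
  smul_mem' := fun c f hf => ⟨Submodule.smul_mem _ c hf.1, by
    rw [map_smul]; exact Submodule.smul_mem _ c hf.2⟩

/-- the polynomials without `z`, of `Y`-degree `δ`, homogeneous, that map into `(q, Φ)` -/
def Cd (w δ : ℕ) : Set (MvPolynomial (Sg w) k) :=
  {f | iR k f ∈ VI k 0 δ ∅ ∧ ∃ D, f.IsHomogeneous D}

/-- the variable `z` -/
noncomputable def zV (w : ℕ) : MvPolynomial (Sg w) k := X (Sum.inr (Sum.inr ()))

/-- the ideal generated by the `Y_{ij}` -/
noncomputable def YI (w : ℕ) : Ideal (MvPolynomial (Sg w) k) :=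
  Ideal.span (Set.range fun x : Fin 2 × Fin 2 => X (Sum.inr (Sum.inl x)))

/-- the ideal `J = (z²) + (Y)^{2δ} + z · Cd δ` -/
noncomputable def JJ (w δ : ℕ) : Ideal (MvPolynomial (Sg w) k) :=
  Ideal.span {zV k w ^ 2} ⊔ YI k w ^ (2 * δ) ⊔ Ideal.span {f | ∃ c ∈ Cd k w δ, f = zV k w * c}

/-- the part of `z`-degree `m` and `Y`-degree `r` of the power `J^n` -/
noncomputable def IJ (w δ n m r : ℕ) (s : Finset (GG w)) : Submodule k (LR k (Sg w)) :=
  if 2 * δ * (n - m / 2) ≤ r then VP k m r s
  else if m % 2 = 1 ∧ 2 * δ * (n - 1 - m / 2) + δ ≤ r then VI k m r s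
  else ⊥

/-- the index set `s` of variables `X, θ` in all variables -/
def inS {w : ℕ} (s : Finset (GG w)) : Finset (Sg w) := s.map Function.Embedding.inl

end Spec

end Pool.Agent.T2H37.LB
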