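import Pool.Agent.T2H37.LB.Model

/-!
# LB, statements of part A: the algebra of `q` and `Φ`

Every `def ... : Prop` below with a docstring PACKAGE is one package: prove it as
`theorem <name>_proof ... : <name> ...` in its own file.
-/

set_option autoImplicit false

namespace Pool.Agent.T2H37.LB

open Finset Polynomial

section PartA

variable (k : Type) [Field k]

/-- the operator `R` at a point `α = (a0, a1)`: `p_0 f_i + p_1 f_{i+1} + p_2 f_{i+2}` with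
`p_0 = A - B Y²`, `p_1 = 4 a0 a1 Y`, `p_2 = -(B + A Y²)`, `A = a0² - a1²`, `B = a0² + a1²` -/
noncomputable def Rpt (a0 a1 : k) (f : ℕ → k[X]) (i : ℕ) : k[X] :=
  (C (a0 ^ 2 - a1 ^ 2) - C (a0 ^ 2 + a1 ^ 2) * X ^ 2) * f i + C (4 * a0 * a1) * X * f (i + 1)
    - (C (a0 ^ 2 + a1 ^ 2) + C (a0 ^ 2 - a1 ^ 2) * X ^ 2) * f (i + 2)

/-- the operator `R`: `(1 - Y²)(g_{i,j} - g_{i+2,j+2}) - (1 + Y²)(g_{i+2,j} + g_{i,j+2})
+ 4 Y g_{i+1,j+1}` -/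
noncomputable def Rop (g : ℕ → ℕ → k[X]) (i j : ℕ) : k[X] :=
  (1 - X ^ 2) * (g i j - g (i + 2) (j + 2)) - (1 + X ^ 2) * (g (i + 2) j + g i (j + 2))
    + C 4 * X * g (i + 1) (j + 1)

/-- PACKAGE A1 (60 min). Proof. `a = (a0,a1) ≠ 0`, `A = a0²-a1²`, `B = a0²+a1²`; `A, B` are not
both zero. Put `n = τ - 1 ≥ ρ + 2`; relations for `i = 0..n-1`.

Case `A = 0`: `a1 = ε a0`, `ε = ±1`; the relation is `f_{i+2} - 2 ε Y f_{i+1} + Y² f_i = 0`, hence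
by induction `f_i = (εY)^{i-1} ((1-i) (εY) f_0 + i f_1)` for `1 ≤ i ≤ τ`. As `natDegree f_i ≤ ρ` and
`i - 1 ≥ ρ + 1` for `i = τ - 1, τ`: `(1-i) (εY) f_0 + i f_1 = 0` for two consecutive `i`; subtract:
`f_1 = εY f_0`, then `f_1 = 0`, `f_0 = 0`, so all `f_i = 0`.

Case `A ≠ 0`: `p_2` has degree 2 exactly. Let `h_i = f_i f_{i+2} - f_{i+1}²`. Then
`p_2 h_{i+1} = p_0 h_i` (`i + 3 ≤ τ`). Also let `s_0 = 1, s_1 = -p_1, s_{j+1} = -p_1 s_j - p_0 p_2 s_{j-1}`;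
then `p_2^{j-1} (f_0 f_{j+1} - f_1 f_j) = h_0 s_{j-1}` for `1 ≤ j ≤ n` (induction: the sequence
`M_j = f_0 f_{j+1} - f_1 f_j` satisfies `M_0 = 0`, `M_1 = h_0`,
`p_0 M_j + p_1 M_{j+1} + p_2 M_{j+2} = 0`).
`gcd(p_0,p_1,p_2) = 1`: if `a0 a1 ≠ 0` a common root `Y` of `p_1 = 4 a0 a1 Y` is `Y = 0` where
`p_0 = A ≠ 0`; if `a0 a1 = 0` then `A = ±B` and `p_0, p_2` are coprime.
For an irreducible (linear) factor `π` of `p_2`: if `π ∤ p_0` then `p_2^{n-1} h_{n-1} = p_0^{n-1} h_0`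
gives `π^{(n-1) v_π(p_2)} | h_0`; if `π | p_0`, then `π ∤ p_1` and `s_{n-1} ≡ (-p_1)^{n-1} mod p_2`
is not divisible by `π` and `p_2^{n-1} M_n = h_0 s_{n-1}` gives the same. So `p_2^{n-1} | h_0`;
degrees: `2(n-1) > 2ρ`, so `h_0 = 0`, and then all `h_i = 0` (`i + 2 ≤ τ`).
(Alternative: do it root by root with `rootMultiplicity`, `k` is algebraically closed.)
If `f_0 = 0`: `f_1² = f_0 f_2 = 0`, then `p_2 f_2 = 0` ... all zero. If `f_0 ≠ 0, f_1 = 0`: `f_2 = 0`,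
so `p_0 f_0 = 0`, `p_0 = 0`, contradiction. Otherwise all `f_i ≠ 0` and
`f_{i+1} f_0 = f_i f_1`, so with `f_1/f_0 = v/u` in lowest terms, `u^τ f_τ = v^τ f_0`, `u^τ | f_0`,
`v^τ | f_τ`, `τ > ρ`: `u, v` constants, `f_1 = c f_0`, `c ≠ 0`, `p_0 + c p_1 + c² p_2 = 0`:
`A = c² B`, `B = -c² A`, `a0 a1 = 0`, then `A = ±B ≠ 0` gives `c² = ±1` and `c² = ∓1`,
a contradiction to char 0. -/
def LemC : Prop :=
  ∀ ρ τ : ℕ, ρ + 3 ≤ τ → ∀ a0 a1 : k, (a0 ≠ 0 ∨ a1 ≠ 0) → ∀ f : ℕ → k[X],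
    (∀ i ≤ τ, (f i).natDegree ≤ ρ) → (∀ i, i + 2 ≤ τ → Rpt k a0 a1 f i = 0) →
    ∀ i ≤ τ, f i = 0

/-- PACKAGE A2 (60 min, `k` algebraically closed, assume `[IsAlgClosed k]` in the theorem).
Proof. Choose bases; `M(α) = α_0² M_0 + α_0 α_1 M_1 + α_1² M_2` is a matrix over `k[α_0, α_1]`
(`dim W × dim V`), of rank `dim V` at each point `α ≠ 0`. Let `Δ_S` be its maximal minors
(`S` = a choice of `dim V` rows). Their only common zero is contained in `{0}`, so by the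
Nullstellensatz (`MvPolynomial.vanishingIdeal_zeroLocus_eq_radical`) there is `N` with
`(α_0, α_1)^N ⊆ (Δ_S : S)`. The polynomial ring acts on sequences: for a form `P = ∑ P_b α_0^{D-b} α_1^b`
of degree `D` put `(P∘v)_j = ∑_b P_b v_{j+b}` (a sequence of length `κ + 1` becomes one of length
`κ + 1 - D`); `(PQ)∘v = P∘(Q∘v)`. The hypothesis is `M∘v = 0`, hence
`Δ_S ∘ v = adj(M_S) ∘ (M_S ∘ v) = 0` and so `(α_0^a α_1^b)∘v = 0` for `a + b = N`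
(homogeneous components: all `Δ_S` are forms of degree `2 dim V`). For `κ ≥ N` this says
`v_j = 0` for all `j ≤ κ`. (Sequences may be extended arbitrarily beyond `κ`; only indices `≤ κ`
occur if one keeps track of degrees. It may be simplest to use `k[α_0,α_1]`-module structures
or to work with the dual statement.) -/
def MatL : Prop :=
  ∀ (p m : ℕ) (M0 M1 M2 : (Fin p → k) →ₗ[k] (Fin m → k)),
    (∀ a0 a1 : k, (a0 ≠ 0 ∨ a1 ≠ 0) → ∀ v,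
      a0 ^ 2 • M0 v + (a0 * a1) • M1 v + a1 ^ 2 • M2 v = 0 → v = 0) →
    ∃ N : ℕ, ∀ κ ≥ N, ∀ v : ℕ → (Fin p → k),
      (∀ j, j + 2 ≤ κ → M0 (v j) + M1 (v (j + 1)) + M2 (v (j + 2)) = 0) → ∀ j ≤ κ, v j = 0

/-- PACKAGE A3 (40 min), from `LemC k` and `MatL k`. Proof. Take `τ_0 = ρ + 3`,
`V = (functions [0,τ_0] × [0,ρ] → k)`, `W = (functions [0,τ_0-2] × [0,ρ+2] → k)`; `Rop` is of the
form `M0, M1, M2` in the second index `j` (`M0` = coefficient of `α_0²`: `f ↦ (1-Y²) f_i - (1+Y²) f_{i+2}`,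
`M1 : f ↦ 4Y f_{i+1}`, `M2 : f ↦ -(1+Y²) f_i - (1-Y²) f_{i+2}`), and
`a0² M0 + a0 a1 M1 + a1² M2 = Rpt a0 a1`. `MatL` gives `N`; for `τ > τ_0` apply it to each window
`i ∈ [i_0, i_0 + τ_0]`. -/
def ThmK : Prop :=
  ∀ ρ : ℕ, ∃ N : ℕ, ∀ τ κ : ℕ, ρ + 3 ≤ τ → N ≤ κ → ∀ g : ℕ → ℕ → k[X],
    (∀ i ≤ τ, ∀ j ≤ κ, (g i j).natDegree ≤ ρ) →
    (∀ i j, i + 2 ≤ τ → j + 2 ≤ κ → Rop k g i j = 0) → ∀ i ≤ τ, ∀ j ≤ κ, g i j = 0

/-- PACKAGE A4 (50 min, assume `[CharZero k]` in the theorem). Proof. Finite-dimensional duality: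
the linear map `g ↦ (Rop g i j)_{i+2≤τ, j+2≤κ}` from functions `[0,τ]×[0,κ] → k[Y]_{≤ρ}` to functions
`[0,τ-2]×[0,κ-2] → k[Y]_{≤ρ+2}` is onto iff every functional `F(i,j,c)` (`c ≤ ρ+2`) vanishing on the
range is `0`. Vanishing on the range: for all `(i,j,c) ∈ [0,τ]×[0,κ]×[0,ρ]`
`F(i,j,c) - F(i,j,c+2) - F(i-2,j-2,c) + F(i-2,j-2,c+2) - F(i-2,j,c) - F(i-2,j,c+2) - F(i,j-2,c)
 - F(i,j-2,c+2) + 4 F(i-1,j-1,c+1) = 0`, `F = 0` outside `[0,τ-2]×[0,κ-2]`. Regard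
`P_{i,c}(T) = ∑_j F(i,j,c) T^j ∈ k[T]`: `(1-T²) P_{i,c} - (1+T²) P_{i,c+2} - (1+T²) P_{i-2,c}
 + (T²-1) P_{i-2,c+2} + 4 T P_{i-1,c+1} = 0`. If `F ≠ 0`, divide all `P_{i,c}` by the highest common
power of `(T-1)` and evaluate at `T = 1`: `f_i(c) := P_{i,c}(1)` not all zero, `i ≤ τ-2`, `c ≤ ρ+2`,
`-2 f_i(c+2) - 2 f_{i-2}(c) + 4 f_{i-1}(c+1) = 0` for `0 ≤ i ≤ τ`, `c ≤ ρ` (`f_i = 0` for `i < 0`,
`i > τ-2`). With `e_i(c) = f_i(c+1) - f_{i-1}(c)` (`0 ≤ i ≤ τ-1`, `c ≤ ρ+1`, `e_{-1} = e_τ = 0`):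
`e_i(c+1) = e_{i-1}(c)`, so `e_i(c)` depends only on `c - i =: d` and vanishes for `d ≥ 1` (reach
`i = -1`), and for `d ≤ 0` one reaches `i = τ - 1`, `c = τ-1+d`, and `e_{τ-1}(c) = e_τ(c+1) = 0` if
`c ≤ ρ`, which holds unless `d = 0`, `τ = ρ + 2`. So `e_i(c) = λ [c = i] [τ = ρ+2]`. Then
`f_i(i+1) = f_{i-1}(i) + λ = (i+1) λ` and `0 = f_{τ-1}(τ) = (τ-1) λ + λ = τ λ`, so `λ = 0` (char 0).
So `e = 0`: `f_i(c+1) = f_{i-1}(c)` for `0 ≤ i ≤ τ-1`, `c ≤ ρ+1`; again diagonals: `c - i ≥ 1`: zero;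
`c - i ≤ 0`: go up to `i = τ-1` with `c ≤ τ-1 ≤ ρ+1`: zero. So `f = 0`, contradiction. -/
def ThmG : Prop :=
  ∀ ρ τ κ : ℕ, 2 ≤ τ → τ ≤ ρ + 2 → ∀ F : ℕ → ℕ → k[X], (∀ i j, (F i j).natDegree ≤ ρ + 2) →
    ∃ g : ℕ → ℕ → k[X], (∀ i j, (g i j).natDegree ≤ ρ) ∧
      ∀ i j, i + 2 ≤ τ → j + 2 ≤ κ → Rop k g i j = F i j

end PartA

section Omega

variable (k : Type) [Field k] (w : ℕ)

/-- the sum of the entries -/
abbrev sm {a : ℕ} (n : Fin a → ℕ) : ℕ := ∑ l, n l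

/-- `W_l` (zero for `l = w + 1`) -/
noncomputable def Wv (l : Fin (w + 2)) : MvPolynomial (Fin (w + 1)) k :=
  if h : (l : ℕ) < w + 1 then MvPolynomial.X ⟨l, h⟩ else 0

/-- `W_{l-1}` (zero for `l = 0`) -/
noncomputable def Wv' (l : Fin (w + 2)) : MvPolynomial (Fin (w + 1)) k :=
  if h : (l : ℕ) ≠ 0 then MvPolynomial.X ⟨l - 1, by omega⟩ else 0

/-- `∏_l (W_l + T W_{l-1})^{n_l}` -/
noncomputable def th (n : Fin (w + 2) → ℕ) : Polynomial (MvPolynomial (Fin (w + 1)) k) :=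
  ∏ l, (C (Wv k w l) + X * C (Wv' k w l)) ^ n l

/-- the dual of the substitution `θ_l ↦ α_0 W_l + α_1 W_{l-1}`:
`(psi F)(i, n) = ∑_j ∑_m (coefficient of T^j W^m in th n) F (i + j) m` -/
noncomputable def psi (F : ℕ → (Fin (w + 1) →₀ ℕ) → k) (i : ℕ) (n : Fin (w + 2) → ℕ) : k :=
  ∑ j ∈ range (sm n + 1), ∑ m ∈ MvPolynomial.support ((th k w n).coeff j),
    MvPolynomial.coeff m ((th k w n).coeff j) * F (i + j) m

/-- the contraction with `q`: `∑_l (-1)^l f (i + (w + 1 - l)) (n + e_l)` -/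
noncomputable def qc {A : Type} [AddCommGroup A] (w : ℕ) (f : ℕ → (Fin (w + 2) → ℕ) → A) (i : ℕ)
    (n : Fin (w + 2) → ℕ) : A :=
  ∑ l : Fin (w + 2), ((-1 : ℤ) ^ (l : ℕ)) • f (i + (w + 1 - (l : ℕ))) (n + Pi.single l 1)

/-- PACKAGE A5 (30 min). Proof. `th (n + e_l) = (W_l + T W_{l-1}) th n`. So
`psi F (i + (w+1-l)) (n + e_l) = ⟨F shifted by i+(w+1-l), (W_l + T W_{l-1}) th n⟩`, and
`∑_l (-1)^l T^{w+1-l} (W_l + T W_{l-1}) = 0` (telescoping, `W_{-1} = W_{w+1} = 0`). Note that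
`th n` has degree `≤ sm n` in `T`, so the range of summation may be extended. -/
def OmB1 : Prop :=
  ∀ (F : ℕ → (Fin (w + 1) →₀ ℕ) → k) (i : ℕ) (n : Fin (w + 2) → ℕ), qc w (psi k w F) i n = 0

/-- PACKAGE A6 (50 min). Proof. Equivalently (only linear algebra) the polynomials `T^i th n`,
`i ≤ A`, `sm n = B` span all `T^j W^m`, `j ≤ A + B`, `|m| = B`, if `A ≥ w`. `B = 0` is trivial.
`B = 1`: let `x_{j,l} = T^j W_l`, `0 ≤ j ≤ A+1`, `0 ≤ l ≤ w`; the span contains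
`x_{i,l} + x_{i+1,l-1}` (`0 ≤ i ≤ A`, `0 ≤ l ≤ w+1`, `x_{·,-1} = x_{·,w+1} = 0`). So
`x_{j,l} ≡ ± x_{j+l,0} ≡ 0` if `j + l ≤ A`, and `x_{j,l} ≡ ± x_{j-(w-l),w} ≡ 0` if
`j - (w - l) ≥ 1`; one of the two holds as `A ≥ w`. General `B ≥ 1`: `T^j W^m`, `|m| = B`, is
`(T^j W_l) W^{m'}` with `j ≤ A + B = (A + B - 1) + 1`; by the case `B = 1` (for `A + B - 1 ≥ w`) it is
a combination of `T^i (W_l + T W_{l-1}) W^{m'}`, `i ≤ A + B - 1`, and by induction `T^i W^{m'}` is a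
combination of `T^a th n'`, `a ≤ A`, `sm n' = B - 1`. -/
def OmB3 : Prop :=
  ∀ A B : ℕ, w ≤ A → ∀ F : ℕ → (Fin (w + 1) →₀ ℕ) → k,
    (∀ i ≤ A, ∀ n, sm n = B → psi k w F i n = 0) → ∀ j ≤ A + B, ∀ m, m.degree = B → F j m = 0

/-- PACKAGE A7 (15 min). Proof. Recursion on the first index: choose `f i n = 0` if `i < w + 1` or
`n 0 = 0` and `f (i + w + 1) (n + e_0) = F i n - ∑_{l ≥ 1} (-1)^l f (i + w + 1 - l) (n + e_l)`. -/
def QSurj : Prop :=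
  ∀ F : ℕ → (Fin (w + 2) → ℕ) → k, ∃ f : ℕ → (Fin (w + 2) → ℕ) → k, ∀ i n, qc w f i n = F i n

/-- PACKAGE A8 (60 min), from `OmB1`, `OmB3`, `QSurj`. Proof. Dimension count. Functions on
`{i ≤ A} × {|n| = B}`: dimension `(A+1) C(B+w+1,w+1)`; the equations `qc f i n = 0`
(`i + w + 1 ≤ A`, `|n| + 1 = B`) are `(A-w) C(B+w,w+1)` in number and independent by `QSurj`
(if `A < w + 1`, i.e. `A = w`, or `B = 0`, there are none); so the solutions form a space of dimension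
`(A+1) C(B+w+1,w+1) - (A-w) C(B+w,w+1) = (A+B+1) C(B+w,w)`
(use `C(B+w+1,w+1) = C(B+w,w) + C(B+w,w+1)`, `(w+1) C(B+w,w+1) = B C(B+w,w)`). The map `psi` from
functions on `{j ≤ A+B} × {|m| = B}` (dimension `(A+B+1) C(B+w,w)`) into the solutions is injective
by `OmB3`, hence onto. -/
def OmB2 : Prop :=
  ∀ A B : ℕ, w ≤ A → ∀ f : ℕ → (Fin (w + 2) → ℕ) → k,
    (∀ i n, i + w + 1 ≤ A → sm n + 1 = B → qc w f i n = 0) →
    ∃ F : ℕ → (Fin (w + 1) →₀ ℕ) → k, ∀ i ≤ A, ∀ n, sm n = B → f i n = psi k w F i n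

end Omega

section Dict

variable (k : Type) [Field k] (w : ℕ)

/-- the exponent vector with `γ`-exponents `-1-i0, -1-i1`, `h`-exponents `h0, h1`, `α`-exponents
`-1-a0, -1-a1`, `θ`-exponents `-1-n_l`, `y`-exponents `y0, y1` -/
def pt (i0 i1 : ℕ) (h0 h1 : ℤ) (a0 a1 : ℕ) (n : Fin (w + 2) → ℕ) (y0 y1 : ℕ) : Var w → ℤ
  | Var.g 0 => -1 - i0
  | Var.g 1 => -1 - i1
  | Var.h 0 => h0
  | Var.h 1 => h1
  | Var.a 0 => -1 - a0
  | Var.a 1 => -1 - a1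
  | Var.t l => -1 - n l
  | Var.y 0 => y0
  | Var.y 1 => y1

/-- the polynomial `∑_{c ≤ ρ} f.coeff (pt ... (ρ - c) c) Y^c` -/
noncomputable def cf (ρ : ℕ) (f : L k w) (h0 h1 : ℤ) (i0 i1 a0 a1 : ℕ) (n : Fin (w + 2) → ℕ) : k[X] :=
  ∑ c ∈ range (ρ + 1), C (f.coeff (pt w i0 i1 h0 h1 a0 a1 n (ρ - c) c)) * X ^ c

/-- PACKAGE A9 (30 min). The coefficients of `con q f`. -/
def DictQ : Prop :=
  ∀ (f : L k w) (i0 i1 : ℕ) (h0 h1 : ℤ) (a0 a1 : ℕ) (n : Fin (w + 2) → ℕ) (y0 y1 : ℕ),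
    (con (qL k w) f).coeff (pt w i0 i1 h0 h1 a0 a1 n y0 y1) =
      ∑ l : Fin (w + 2), ((-1 : ℤ) ^ (l : ℕ)) •
        f.coeff (pt w i0 i1 h0 h1 (a0 + l) (a1 + (w + 1 - (l : ℕ))) (n + Pi.single l 1) y0 y1)

/-- PACKAGE A9' (same file, 40 min). The coefficients of `con Φ f` for `f` of `y`-degree `ρ` without
negative `y`-exponents. -/
def DictP : Prop :=
  ∀ (ρ : ℕ) (f : L k w), (∀ u, f.coeff u ≠ 0 → (∀ i, 0 ≤ u (Var.y i)) ∧ ys u = ρ) →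
    ∀ (i0 i1 : ℕ) (h0 h1 : ℤ) (a0 a1 : ℕ) (n : Fin (w + 2) → ℕ),
    cf k w (ρ + 2) (con (PhiL k w) f) h0 h1 i0 i1 a0 a1 n =
      (1 - X ^ 2) * (cf k w ρ f h0 h1 (i0 + 2) i1 (a0 + 2) a1 n
        - cf k w ρ f h0 h1 i0 (i1 + 2) a0 (a1 + 2) n)
      - (1 + X ^ 2) * (cf k w ρ f h0 h1 i0 (i1 + 2) (a0 + 2) a1 n
        + cf k w ρ f h0 h1 (i0 + 2) i1 a0 (a1 + 2) n)
      + C 4 * X * cf k w ρ f h0 h1 (i0 + 1) (i1 + 1) (a0 + 1) (a1 + 1) n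

/-- PACKAGE A10 (60 min), from `ThmK`, `OmB1`, `OmB2`, `OmB3`, `DictQ`, `DictP` (all as hypotheses):
`K(r)` has bounded weights. Proof. `ρ = r - 2` (for `r < 2` the space is zero since the `y`-degree
would be negative). Let `N` be from `ThmK ρ`. Let `g ∈ KM k w r` and `u` with `g.coeff u ≠ 0`; write
`u = pt i0' i1' h0 h1 a0' a1' n' y0' y1'`, `τ = i0' + i1'`, `A = a0' + a1'`, `B = sm n'`. The degree
conditions say `τ = r - h0 - h1 ≥ r + 2 = ρ + 4`, `A = τ + w + 1`. Fix `h0, h1, τ, B`. For `i ≤ τ`,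
`c ≤ ρ` the function `(a, n) ↦ g.coeff (pt (τ-i) i h0 h1 (A-a) a n (ρ-c) c)` satisfies `qc = 0` for
`a + w + 1 ≤ A`, `|n| + 1 = B` (`DictQ`, `con q g = 0`), so it is `psi F^{i,c}` by `OmB2`. By
`DictP`, `con Φ g = 0`, linearity and shift equivariance of `psi`, `psi` of the coefficient functions of
`Rop G` vanishes for `a ≤ A - 2`, where `G_m i j = ∑_c F^{i,c} j m Y^c`; by `OmB3` (for `A - 2 ≥ w`)
`Rop (G_m) i j = 0` for `i + 2 ≤ τ`, `j + 2 ≤ A + B`. If `A + B ≥ N` then `G = 0` by `ThmK`, so `g`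
vanishes at all these points. Hence `A + B < N` on the support and
`wt u = -(τ+2) - (B+w+2) = -(A+B) - 3 ≥ -N - 3`. -/
def KMbdd : Prop :=
  ∀ r : ℕ, ∃ M : ℤ, ∀ g ∈ KM k w r, ∀ u, g.coeff u ≠ 0 → -M ≤ wt u

/-- PACKAGE A11 (75 min), from `OmB1`, `OmB3`, `DictQ`, `DictP`: many elements of `K(r)`, `r ≥ 2`,
with `γ`-degree `-(r+4)` (so `τ = r + 2`), `h`-exponents `-1, -1`, `θ`-degree `-(B+w+2)`. Proof.
`ρ = r - 2`, `A = τ + w + 1`, `κ = A + B`. For functions `G : [0,τ]×[0,κ] × {|m|=B} → k[Y]_{≤ρ}`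
with `Rop G_m i j = 0` (`i + 2 ≤ τ`, `j + 2 ≤ κ`) let `g` have coefficient
`psi(F^{i,c})(a, n)`, `F^{i,c} j m = (coefficient c of G_m i j)`, at
`pt (τ-i) i (-1) (-1) (A-a) a n (ρ-c) c` (`i ≤ τ, a ≤ A, |n| = B, c ≤ ρ`) and `0` elsewhere; then
`g ∈ K(r)` by `DictQ`, `OmB1`, `DictP` (one must also check the coefficients at the points which are
not of this form: both sides vanish), and `G ↦ g` is injective by `OmB3`. The space of `G` has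
dimension at least `C(B+w,w) ((τ+1)(κ+1)(ρ+1) - (τ-1)(κ-1)(ρ+3))
= C(B+w,w) · 2 (r(τ+κ) - τκ - 1) = C(B+w,w) · 2 (r² - 2 (B + w + 3) - 1)`. -/
def KMmany : Prop :=
  ∀ r B : ℕ, 2 ≤ r → ∃ (m : ℕ) (v : Fin m → L k w), LinearIndependent k v ∧
    (∀ i, v i ∈ KM k w r) ∧
    (∀ i u, (v i).coeff u ≠ 0 → gs u = -(r + 4) ∧ ts u = -(B + w + 2)) ∧
    ((B + w).choose w : ℤ) * (2 * ((r : ℤ) ^ 2 - 2 * (B + w + 3) - 1)) ≤ m

/-- PACKAGE A12 (40 min), from `KMmany`. Proof. The vectors for different `B` have disjoint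
`θ`-degrees, so the union over `B ≤ r²/4 - w - 4` is linearly independent; for
`r²/16 ≤ B ≤ r²/8` and `r` large each `B` gives at least `(B/w)^w/..·r²` (for instance
`C(B+w,w) ≥ B^w / w^w` (`w > 0`) or `≥ B^w / w!`), and the sum over these `B` is `≥ c r^{2w+4}`. -/
def KMgrowth : Prop :=
  ∃ c : ℝ, 0 < c ∧ ∃ r0 : ℕ, ∀ r : ℕ, r0 ≤ r → ∃ (m : ℕ) (v : Fin m → L k w),
    LinearIndependent k v ∧ (∀ i, v i ∈ KM k w r) ∧ c * (r : ℝ) ^ (2 * w + 4) ≤ m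

/-- PACKAGE A12' (same file, 15 min), from `KMmany`: an element of very low weight
(`B = r²/2 - w - 5` or so; all weights are equal to `-(r+4) - (B+w+2)`). -/
def KMlow : Prop :=
  ∃ r0 : ℕ, ∀ r : ℕ, r0 ≤ r → ∃ g ∈ KM k w r, g ≠ 0 ∧ ∃ ω : ℤ, (∀ u, g.coeff u ≠ 0 → wt u = ω) ∧
    (ω : ℝ) ≤ -((r : ℝ) ^ 2 / 4)

/-- PACKAGE A13 (40 min), from `QSurj`, `DictQ`: contraction by `q` is onto on the class `Pp`
(indeed for any condition on the `h`-exponents). Proof. For `f ∈ Dn Pp (r+2) 0 (r-2)` and each fixed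
`γ`-, `h`-, `y`-exponents and `θ`-degree `-(w+2) - (B-1)` the coefficients of `f` are a function
`F(a, n)`, `a ≤ A - w - 1`, `|n| = B - 1`; take the solution of `QSurj` restricted to `a ≤ A`,
`|n| = B` as coefficients of `g`. Finite support since `f` has finite support. -/
def ConQ : Prop :=
  ∀ A C ρ : ℤ, ∀ f ∈ Dn k (w := w) Pp A C ρ, ∃ g ∈ Dn k Pp A (C - (w + 1)) ρ, con (qL k w) g = f

/-- PACKAGE A14 (75 min), from `ThmG`, `OmB1`, `OmB2`, `OmB3`, `DictQ`, `DictP`. Proof. `r ≥ 0`.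
Let `f ∈ Dn Pp r (-(w+1)) r` with `con q f = 0`. On the support of `f`: `h`-degree `≥ 0`, so the
`γ`-degree `gs = hs - r ≥ -r`; write `gs = -τ`, `2 ≤ τ ≤ r` (so `r ≥ 2`, `ρ := r - 2`), `as = -τ-w-1
= -(A-2)-2` with `A = τ+w+1`; fix the `h`-exponents and `θ`-degree `-(B+w+2)`. As in A10 the
coefficients of `f` at `pt (τ-2-i) i h0 h1 (A-2-a) a n (r-c) c` are `psi F^{i,c} a n`
(`OmB2`, `A - 2 ≥ w`), `j ≤ A - 2 + B`. Apply `ThmG` with `κ = A + B` for each `m`, `|m| = B`, to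
`F_m i j = ∑_{c ≤ r} F^{i,c} j m Y^c` and get `G_m`; define `g` by the coefficients
`psi(G^{i,c}) a n` at `pt (τ-i) i h0 h1 (A-a) a n (ρ-c) c`, `i ≤ τ`, `a ≤ A`, `|n| = B`, `c ≤ ρ`.
Then `con q g = 0` by `OmB1`, `DictQ` and `con Φ g = f` by `DictP`, `ThmG` and shift equivariance.
Sum over the finitely many `(h0, h1, τ, B)`. -/
def ConP : Prop :=
  ∀ r : ℕ, ∀ f ∈ Dn k (w := w) Pp r (-(w + 1)) r, con (qL k w) f = 0 →
    ∃ g ∈ Dn k Pp (r + 2) (-(w + 1)) (r - 2), con (qL k w) g = 0 ∧ con (PhiL k w) g = f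

end Dict

end Pool.Agent.T2H37.LB
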